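import Pool.Agent.Lib.MP_ecd4e3_gt.N.GBox
import Pool.Agent.Lib.MP_ecd4e3_gt.InvDom

/-! Charts of graph boxes and rotation movies. -/

namespace Pool.Agent.Lib.MP_ecd4e3_gt.N

open Set Filter Topology Metric MeasureTheory
open scoped NNReal ENNReal

variable {ι : Type} [Fintype ι] [DecidableEq ι]

/-- Invariance of domain in the sup norm. -/
theorem inv_dom {V : Set (E ι)} (hV : IsOpen V) {g : E ι → E ι} (hc : ContinuousOn g V)
    (hi : InjOn g V) : IsOpen (g '' V) := by
  let e : EuclideanSpace ℝ ι ≃ₜ E ι := (EuclideanSpace.equiv ι ℝ).toHomeomorph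
  have h1 : IsOpen ((fun x => e.symm (g (e x))) '' (e ⁻¹' V)) := by
    refine inv_domain (hV.preimage e.continuous) ?_ ?_
    · exact e.symm.continuous.comp_continuousOn
        (hc.comp e.continuous.continuousOn (fun x hx => hx))
    · intro x hx y hy hxy
      exact e.injective (hi hx hy (e.symm.injective hxy))
  have h2 : g '' V = e '' ((fun x => e.symm (g (e x))) '' (e ⁻¹' V)) := by
    ext y
    constructor
    · rintro ⟨x, hx, rfl⟩
      exact ⟨e.symm (g x), ⟨e.symm x, by simpa using hx, by simp⟩, by simp⟩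
    · rintro ⟨_, ⟨x, hx, rfl⟩, rfl⟩
      exact ⟨e x, hx, by simp⟩
  rw [h2]
  exact e.isOpenMap _ h1

theorem mv_id : Mv (fun (_ : ℝ) (x : E ι) => x) 1 0 where
  p1 := le_rfl
  p2 := le_rfl
  zero _ := rfl
  norm _ _ _ := rfl
  bij _ _ := bijOn_id _
  lip _ _ _ _ _ _ _ _ := by simp
  lipi _ _ _ _ _ _ := by simp

theorem Mv.mono {O : ℝ → E ι → E ι} {K1 K2 K1' K2' : ℝ} (h : Mv O K1 K2) (h1 : K1 ≤ K1')
    (h2 : K2 ≤ K2') : Mv O K1' K2' where
  p1 := h.p1.trans h1
  p2 := h.p2.trans h2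
  zero := h.zero
  norm := h.norm
  bij := h.bij
  lip r hr r' hr' x hx x' hx' := by
    refine (h.lip r hr r' hr' x hx x' hx').trans ?_
    gcongr
  lipi r hr x hx x' hx' := by
    refine (h.lipi r hr x hx x' hx').trans ?_
    gcongr

theorem Mv.comp {O O' : ℝ → E ι → E ι} {K1 K2 K1' K2' : ℝ} (h : Mv O K1 K2)
    (h' : Mv O' K1' K2') : Mv (fun r x => O r (O' r x)) (K1 * K1') (K1 * K2' + K2) where
  p1 := one_le_mul_of_one_le_of_one_le h.p1 h'.p1
  p2 := add_nonneg (mul_nonneg (zero_le_one.trans h.p1) h'.p2) h.p2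
  zero x := by rw [h.zero, h'.zero]
  norm r hr x := by rw [h.norm r hr, h'.norm r hr]
  bij r hr := (h.bij r hr).comp (h'.bij r hr)
  lip r hr r' hr' x hx x' hx' := by
    have h0 : 0 ≤ K1 := zero_le_one.trans h.p1
    have a := h.lip r hr r' hr' _ ((h'.bij r hr).mapsTo hx) _ ((h'.bij r' hr').mapsTo hx')
    have b := mul_le_mul_of_nonneg_left (h'.lip r hr r' hr' x hx x' hx') h0
    nlinarith only [a, b]
  lipi r hr x hx x' hx' := by
    have h0 : 0 ≤ K1' := zero_le_one.trans h'.p1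
    have a := h'.lipi r hr x hx x' hx'
    have b := mul_le_mul_of_nonneg_left
      (h.lipi r hr _ ((h'.bij r hr).mapsTo hx) _ ((h'.bij r hr).mapsTo hx')) h0
    nlinarith only [a, b]

theorem rad_norm {a : E ι} {ρ K : ℝ} (h0 : 0 ≤ ρ) (h : ρ ≤ K * ‖a‖) : ‖(ρ / ‖a‖) • a‖ = ρ := by
  by_cases ha : a = 0
  · subst ha
    simp only [norm_zero, mul_zero] at h
    simp only [smul_zero, norm_zero]
    linarith only [h, h0]
  · have hp : 0 < ‖a‖ := norm_pos_iff.2 ha
    rw [norm_smul, Real.norm_eq_abs, abs_of_nonneg (by positivity)]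
    field_simp

/-- Radial renormalisation is Lipschitz. -/
theorem rad_lip {a a' : E ι} {ρ ρ' K : ℝ} (hK : 0 ≤ K) (h0 : 0 ≤ ρ) (h0' : 0 ≤ ρ')
    (h : ρ ≤ K * ‖a‖) (h' : ρ' ≤ K * ‖a'‖) :
    ‖(ρ / ‖a‖) • a - (ρ' / ‖a'‖) • a'‖ ≤ 2 * K * ‖a - a'‖ + |ρ - ρ'| := by
  have hn : 0 ≤ 2 * K * ‖a - a'‖ := by positivity
  by_cases ha : a = 0
  · have hρ : ρ = 0 := by
      rw [ha, norm_zero, mul_zero] at h
      linarith only [h0, h]
    rw [hρ, zero_div, zero_smul, zero_sub, norm_neg, rad_norm h0' h', zero_sub, abs_neg,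
      abs_of_nonneg h0']
    linarith only [hn]
  by_cases ha' : a' = 0
  · have hρ : ρ' = 0 := by
      rw [ha', norm_zero, mul_zero] at h'
      linarith only [h0', h']
    rw [hρ, zero_div, zero_smul, sub_zero, rad_norm h0 h, sub_zero, abs_of_nonneg h0]
    linarith only [hn]
  have hp : 0 < ‖a‖ := norm_pos_iff.2 ha
  have hp' : 0 < ‖a'‖ := norm_pos_iff.2 ha'
  have hq : ρ / ‖a‖ ≤ K := by rwa [div_le_iff₀ hp]
  have hq0 : 0 ≤ ρ / ‖a‖ := by positivity
  have e1 : (ρ / ‖a‖) • a - (ρ' / ‖a'‖) • a' =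
      (ρ / ‖a‖) • (a - a') + (ρ / ‖a‖ - ρ' / ‖a'‖) • a' := by
    rw [smul_sub, sub_smul]
    abel
  have e2 : ‖(ρ / ‖a‖) • (a - a')‖ ≤ K * ‖a - a'‖ := by
    rw [norm_smul, Real.norm_eq_abs, abs_of_nonneg hq0]
    gcongr
  have e3 : ‖(ρ / ‖a‖ - ρ' / ‖a'‖) • a'‖ ≤ K * ‖a - a'‖ + |ρ - ρ'| := by
    rw [norm_smul, Real.norm_eq_abs]
    have e4 : |ρ / ‖a‖ - ρ' / ‖a'‖| * ‖a'‖ = |ρ / ‖a‖ * (‖a'‖ - ‖a‖) + (ρ - ρ')| := by
      rw [← abs_of_pos hp', ← abs_mul, abs_of_pos hp']
      congr 1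
      field_simp
      ring
    rw [e4]
    refine (abs_add_le _ _).trans ?_
    rw [abs_mul, abs_of_nonneg hq0]
    have e5 : |‖a'‖ - ‖a‖| ≤ ‖a - a'‖ := by
      rw [abs_sub_comm]
      exact abs_norm_sub_norm_le a a'
    have := mul_le_mul hq e5 (abs_nonneg _) hK
    linarith only [this]
  rw [e1]
  refine (norm_add_le _ _).trans ?_
  linarith only [e2, e3]

/-- The movie attached to a path of linear maps. -/
theorem mv_rad (T : ℝ → E ι →ₗ[ℝ] E ι) (h0 : ∀ x, T 0 x = x)
    (hl : ∀ r ∈ Icc (0 : ℝ) 1, ∀ x, ‖x‖ ≤ 2 * ‖T r x‖)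
    (hu : ∀ r ∈ Icc (0 : ℝ) 1, ∀ x, ‖T r x‖ ≤ ‖x‖)
    (ht : ∀ r r' x, ‖T r x - T r' x‖ ≤ 2 * |r - r'| * ‖x‖) :
    Mv (fun r x => (‖x‖ / ‖T r x‖) • T r x) 5 8 := by
  have hn : ∀ r ∈ Icc (0 : ℝ) 1, ∀ x, ‖(‖x‖ / ‖T r x‖) • T r x‖ = ‖x‖ :=
    fun r hr x => rad_norm (norm_nonneg x) (hl r hr x)
  have hi : ∀ r ∈ Icc (0 : ℝ) 1, ∀ x x' : E ι,
      dist x x' ≤ 5 * dist ((‖x‖ / ‖T r x‖) • T r x) ((‖x'‖ / ‖T r x'‖) • T r x') := by
    intro r hr x x'
    have key : ∀ y : E ι, ‖y‖ ≤ 1 * ‖(‖y‖ / ‖T r y‖) • y‖ ∧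
        y = (‖y‖ / ‖(‖y‖ / ‖T r y‖) • y‖) • ((‖y‖ / ‖T r y‖) • y) := by
      intro y
      by_cases hy : y = 0
      · simp [hy]
      have hp : 0 < ‖y‖ := norm_pos_iff.2 hy
      have hp' : 0 < ‖T r y‖ := by linarith only [hl r hr y, hp]
      have e : ‖(‖y‖ / ‖T r y‖) • y‖ = ‖y‖ / ‖T r y‖ * ‖y‖ := by
        rw [norm_smul, Real.norm_eq_abs, abs_of_nonneg (by positivity)]
      rw [e]
      constructor
      · have : 1 ≤ ‖y‖ / ‖T r y‖ := by
          rw [le_div_iff₀ hp']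
          linarith only [hu r hr y]
        nlinarith only [hp, this]
      · rw [smul_smul]
        have : ‖y‖ / (‖y‖ / ‖T r y‖ * ‖y‖) * (‖y‖ / ‖T r y‖) = 1 := by field_simp
        rw [this, one_smul]
    have a := rad_lip zero_le_one (norm_nonneg x) (norm_nonneg x') (key x).1 (key x').1
    rw [← (key x).2, ← (key x').2] at a
    have b := hl r hr ((‖x‖ / ‖T r x‖) • x - (‖x'‖ / ‖T r x'‖) • x')
    rw [map_sub, map_smul, map_smul] at b
    have c := abs_norm_sub_norm_le ((‖x‖ / ‖T r x‖) • T r x) ((‖x'‖ / ‖T r x'‖) • T r x')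
    rw [hn r hr, hn r hr] at c
    rw [dist_eq_norm, dist_eq_norm]
    linarith only [a, b, c]
  refine ⟨by norm_num, by norm_num, ?_, hn, ?_, ?_, fun r hr x _ x' _ => hi r hr x x'⟩
  · intro x
    rw [h0]
    by_cases hx : x = 0
    · simp [hx]
    · rw [div_self (norm_ne_zero_iff.2 hx), one_smul]
  · intro r hr
    refine ⟨fun x hx => ?_, fun x _ x' _ hxx => ?_, fun y hy => ?_⟩
    · rw [mem_closedBall_zero_iff] at hx ⊢
      rwa [hn r hr]
    · have := hi r hr x x'
      simp only at hxx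
      rw [hxx, dist_self, mul_zero] at this
      exact dist_le_zero.1 this
    · have hinj : Function.Injective (T r) := by
        rw [injective_iff_map_eq_zero]
        intro x hx
        have := hl r hr x
        rw [hx, norm_zero, mul_zero] at this
        exact norm_le_zero_iff.1 this
      obtain ⟨b, hb⟩ := LinearMap.injective_iff_surjective.1 hinj y
      have hyb : ‖y‖ ≤ 1 * ‖b‖ := by
        rw [← hb, one_mul]
        exact hu r hr b
      have e1 : ‖(‖y‖ / ‖b‖) • b‖ = ‖y‖ := rad_norm (norm_nonneg y) hyb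
      refine ⟨(‖y‖ / ‖b‖) • b, ?_, ?_⟩
      · rw [mem_closedBall_zero_iff] at hy ⊢
        rwa [e1]
      · simp only
        rw [e1, map_smul, hb]
        by_cases hy0 : y = 0
        · simp [hy0]
        have hp : 0 < ‖y‖ := norm_pos_iff.2 hy0
        have hp' : 0 < ‖b‖ := by linarith only [hyb, hp]
        rw [norm_smul, Real.norm_eq_abs, abs_of_nonneg (by positivity), smul_smul]
        have : ‖y‖ / (‖y‖ / ‖b‖ * ‖y‖) * (‖y‖ / ‖b‖) = 1 := by field_simp
        rw [this, one_smul]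
  · intro r hr r' hr' x hx x' hx'
    have a := rad_lip (K := 2) (by norm_num) (norm_nonneg x) (norm_nonneg x') (hl r hr x)
      (hl r' hr' x')
    have b : ‖T r x - T r' x'‖ ≤ ‖x - x'‖ + 2 * |r - r'| := by
      have e : T r x - T r' x' = T r (x - x') + (T r x' - T r' x') := by
        rw [map_sub]
        abel
      rw [e]
      refine (norm_add_le _ _).trans (add_le_add (hu r hr _) ((ht r r' x').trans ?_))
      rw [mem_closedBall_zero_iff] at hx'
      have := abs_nonneg (r - r')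
      nlinarith only [hx', this]
    have c := abs_norm_sub_norm_le x x'
    rw [dist_eq_norm, dist_eq_norm]
    linarith only [a, b, c]

theorem turn_aux {r u v M : ℝ} (hr : r ∈ Icc (0 : ℝ) 1) (h1 : |(1 - r) * u - r * v| ≤ M)
    (h2 : |(1 - r) * v + r * u| ≤ M) : |u| ≤ 2 * M ∧ |v| ≤ 2 * M := by
  obtain ⟨r0, r1⟩ := hr
  have hq : 1 / 2 ≤ (1 - r) ^ 2 + r ^ 2 := by nlinarith only [sq_nonneg (2 * r - 1)]
  have r2 : 0 ≤ 1 - r := by linarith only [r1]
  have key : ∀ t A B : ℝ, |A| ≤ M → |B| ≤ M → ((1 - r) ^ 2 + r ^ 2) * t = (1 - r) * A + r * B →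
      |t| ≤ 2 * M := by
    intro t A B hA hB e
    have e1 : ((1 - r) ^ 2 + r ^ 2) * |t| ≤ M := by
      rw [← abs_of_nonneg (a := (1 - r) ^ 2 + r ^ 2) (by positivity), ← abs_mul, e]
      refine (abs_add_le _ _).trans ?_
      rw [abs_mul, abs_mul, abs_of_nonneg r0, abs_of_nonneg r2]
      nlinarith only [mul_le_mul_of_nonneg_left hA r2, mul_le_mul_of_nonneg_left hB r0, hA, r2, hB, r0]
    nlinarith only [abs_nonneg t, e1, hq]
  refine ⟨key u _ _ h1 h2 (by ring), key v _ (-((1 - r) * u - r * v)) h2 (by rwa [abs_neg]) (by ring)⟩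

/-- The quarter turn in a coordinate plane. -/
theorem exists_turn {i j : ι} (hij : i ≠ j) {s : ℝ} (hs : s = 1 ∨ s = -1) :
    ∃ O : ℝ → E ι → E ι, Mv O 5 8 ∧ IsSP (O 1) ∧ (∀ x, O 1 x j = s * x i) ∧
      ∀ x, O 1 x i = -s * x j := by
  let σ : ι → ℝ := fun l => if l = j then s else if l = i then -s else 1
  let J : E ι →ₗ[ℝ] E ι :=
    { toFun := fun x l => σ l * x (Equiv.swap i j l)
      map_add' := fun x y => by
        funext l
        simp only [Pi.add_apply]
        ring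
      map_smul' := fun c x => by
        funext l
        simp only [Pi.smul_apply, smul_eq_mul, RingHom.id_apply]
        ring }
  have hJ : ∀ x l, J x l = σ l * x (Equiv.swap i j l) := fun _ _ => rfl
  have hsp : IsSP fun x => J x := by
    refine ⟨Equiv.swap i j, σ, fun l => ?_, hJ⟩
    simp only [σ]
    split_ifs
    · exact hs
    · rcases hs with rfl | rfl <;> simp
    · exact Or.inl rfl
  have hJj : ∀ x, J x j = s * x i := fun x => by simp [hJ, σ]
  have hJi : ∀ x, J x i = -s * x j := fun x => by simp [hJ, σ, hij]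
  have hJl : ∀ x l, l ≠ i → l ≠ j → J x l = x l := fun x l h1 h2 => by
    simp [hJ, σ, h1, h2, Equiv.swap_apply_of_ne_of_ne h1 h2]
  have hJn : ∀ x, ‖J x‖ = ‖x‖ := hsp.norm
  let T : ℝ → E ι →ₗ[ℝ] E ι := fun r => (1 - r) • LinearMap.id + r • J
  have hT : ∀ r x, T r x = (1 - r) • x + r • J x := fun _ _ => rfl
  have hs1 : |s| = 1 := by rcases hs with rfl | rfl <;> simp
  have hs2 : s * s = 1 := by rcases hs with rfl | rfl <;> simp
  have hmv := mv_rad T (fun x => by simp [hT]) ?_ ?_ ?_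
  · have e : ∀ x, (‖x‖ / ‖T 1 x‖) • T 1 x = J x := by
      intro x
      have e1 : T 1 x = J x := by simp [hT]
      rw [e1, hJn]
      by_cases hx : x = 0
      · simp [hx]
      · rw [div_self (norm_ne_zero_iff.2 hx), one_smul]
    refine ⟨_, hmv, ?_, fun x => ?_, fun x => ?_⟩
    · simp only [e]
      exact hsp
    · simp only [e, hJj]
    · simp only [e, hJi]
  · intro r hr x
    have hc : ∀ l, |(1 - r) * x l + r * J x l| ≤ ‖T r x‖ := fun l => by
      have := norm_le_pi_norm (T r x) l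
      rw [hT, Real.norm_eq_abs] at this
      simpa [hT] using this
    have h1 : |(1 - r) * x i - r * (s * x j)| ≤ ‖T r x‖ := by
      have := hc i
      rw [hJi] at this
      convert this using 2
      ring
    have h2 : |(1 - r) * (s * x j) + r * x i| ≤ ‖T r x‖ := by
      have := hc j
      rw [hJj] at this
      have e : (1 - r) * (s * x j) + r * x i = s * ((1 - r) * x j + r * (s * x i)) := by
        linear_combination (-(r * x i)) * hs2
      rwa [e, abs_mul, hs1, one_mul]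
    obtain ⟨a, b⟩ := turn_aux hr h1 h2
    rw [abs_mul, hs1, one_mul] at b
    refine (pi_norm_le_iff_of_nonneg (by positivity)).2 fun l => ?_
    rw [Real.norm_eq_abs]
    by_cases h3 : l = i
    · rwa [h3]
    by_cases h4 : l = j
    · rwa [h4]
    have := hc l
    rw [hJl x l h3 h4] at this
    have e : (1 - r) * x l + r * x l = x l := by ring
    rw [e] at this
    linarith only [norm_nonneg (T r x), this]
  · intro r hr x
    rw [hT]
    refine (norm_add_le _ _).trans ?_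
    rw [norm_smul, norm_smul, hJn, Real.norm_eq_abs, Real.norm_eq_abs, abs_of_nonneg hr.1,
      abs_of_nonneg (by linarith only [hr.2])]
    linarith only []
  · intro r r' x
    have e : T r x - T r' x = (r - r') • (J x - x) := by
      rw [hT, hT]
      module
    rw [e, norm_smul, Real.norm_eq_abs]
    have := norm_sub_le (J x) x
    rw [hJn] at this
    nlinarith only [abs_nonneg (r - r'), this]

/-- Every axis can be turned into every other axis. -/
theorem exists_mv (i j : ι) {s : ℝ} (hs : s = 1 ∨ s = -1) (h : s = 1 ∨ Nontrivial ι) :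
    ∃ O : ℝ → E ι → E ι, Mv O 1000 1000 ∧ IsSP (O 1) ∧ ∀ x, O 1 x j = s * x i := by
  by_cases hij : i = j
  · subst hij
    by_cases h1 : s = 1
    · exact ⟨_, mv_id.mono (by norm_num) (by norm_num), IsSP.id, fun x => by rw [h1, one_mul]⟩
    · have hn : Nontrivial ι := h.resolve_left h1
      have h2 : s = -1 := hs.resolve_left h1
      obtain ⟨l, hl⟩ := exists_ne i
      obtain ⟨O, h3, h4, h5, h6⟩ := exists_turn hl (s := 1) (Or.inl rfl)
      refine ⟨_, (h3.comp h3).mono (by norm_num) (by norm_num), h4.comp h4, fun x => ?_⟩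
      simp only [h5, h6, h2, one_mul]
  · obtain ⟨O, h3, h4, h5, -⟩ := exists_turn hij hs
    exact ⟨O, h3.mono (by norm_num) (by norm_num), h4, h5⟩

theorem quot_eq {n n' W W' : ℝ} (hW : 0 < W) (hW' : 0 < W') :
    n / W - n' / W' = (n - n' + n' / W' * (W' - W)) / W := by
  field_simp
  ring

theorem quot_err {n' W W' b : ℝ} (hW' : 0 < W') (hn : |n'| ≤ W') (hb : |W - W'| ≤ b) :
    |n' / W' * (W' - W)| ≤ b := by
  rw [abs_mul, abs_div, abs_of_pos hW', abs_sub_comm]
  have : |n'| / W' ≤ 1 := (div_le_one hW').2 hn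
  have := mul_le_mul this hb (abs_nonneg _) zero_le_one
  linarith only [this]

theorem quot_lip {n n' W W' a b m : ℝ} (hm : 0 < m) (hW : m ≤ W) (hW' : 0 < W')
    (hn : |n'| ≤ W') (ha : |n - n'| ≤ a) (hb : |W - W'| ≤ b) :
    |n / W - n' / W'| ≤ (a + b) / m := by
  have h0 : 0 < W := hm.trans_le hW
  rw [quot_eq h0 hW', abs_div, abs_of_pos h0]
  have h1 := (abs_add_le _ _).trans (add_le_add ha (quot_err hW' hn hb))
  have h2 : 0 ≤ a + b := (abs_nonneg _).trans h1
  gcongr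

theorem quot_dom {n n' W W' a b M : ℝ} (h0 : 0 < W) (hW : W ≤ M) (hW' : 0 < W')
    (hn : |n'| ≤ W') (ha : a ≤ n - n') (hb : |W - W'| ≤ b) (hab : b ≤ a) :
    (a - b) / M ≤ n / W - n' / W' := by
  rw [quot_eq h0 hW']
  have h1 := (abs_le.1 (quot_err hW' hn hb)).1
  calc (a - b) / M ≤ (a - b) / W := by
        have : 0 ≤ a - b := by linarith only [hab]
        gcongr
    _ ≤ _ := by
        gcongr
        linarith only [ha, h1]

variable [Nonempty ι] {f : ℝ}

namespace GB

theorem nonneg_of_le {R : GB ι} (hp : ∀ i, 0 < R.w i) {z z' : E ι} {D : ℝ}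
    (h : ∀ j, |z j - z' j| ≤ D * R.w j) : 0 ≤ D := by
  obtain ⟨j⟩ : Nonempty ι := inferInstance
  exact nonneg_of_mul_nonneg_left ((abs_nonneg _).trans (h j)) (hp j)

theorem Ch.mono {R : GB ι} {L L' : ℝ} {Y : E ι → E ι} (h : R.Ch L Y) (hp : ∀ i, 0 < R.w i)
    (hL : L ≤ L') : R.Ch L' Y where
  mem := h.mem
  fl := h.fl
  fh := h.fh
  lip z hz z' hz' D hD i :=
    (h.lip z hz z' hz' D hD i).trans (mul_le_mul_of_nonneg_right hL (nonneg_of_le hp hD))
  dom := h.dom

theorem conv_eq {a b r : ℝ} (hr : r ∈ Icc (0 : ℝ) 1) (ha : a ≤ 1) (hb : b ≤ 1)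
    (h : (1 - r) * a + r * b = 1) : a = 1 ∨ b = 1 := by
  obtain ⟨r0, r1⟩ := hr
  by_contra hc
  push Not at hc
  have h1 : a < 1 := lt_of_le_of_ne ha hc.1
  have h2 : b < 1 := lt_of_le_of_ne hb hc.2
  rcases r1.eq_or_lt with h3 | h3
  · rw [h3] at h
    linarith only [h, h2]
  · nlinarith only [mul_pos (sub_pos.2 h3) (sub_pos.2 h1), mul_nonneg r0 (sub_pos.2 h2).le, h, h3, h1, r0, h2]

theorem Ch.convex {R : GB ι} {L : ℝ} {Y Y' : E ι → E ι} (h : R.Ch L Y) (h' : R.Ch L Y') {r : ℝ}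
    (hr : r ∈ Icc (0 : ℝ) 1) : R.Ch L fun z => (1 - r) • Y z + r • Y' z := by
  have r0 := hr.1
  have r1 : 0 ≤ 1 - r := by linarith only [hr.2]
  have ev : ∀ z i, ((1 - r) • Y z + r • Y' z) i = (1 - r) * Y z i + r * Y' z i := fun _ _ => rfl
  have cv : ∀ a b c : ℝ, |a| ≤ c → |b| ≤ c → |(1 - r) * a + r * b| ≤ c := by
    intro a b c ha hb
    refine (abs_add_le _ _).trans ?_
    rw [abs_mul, abs_mul, abs_of_nonneg r0, abs_of_nonneg r1]
    nlinarith only [mul_le_mul_of_nonneg_left ha r1, mul_le_mul_of_nonneg_left hb r0, ha, r1, hb, r0]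
  refine ⟨fun z hz i => ?_, fun z hz i => ?_, fun z hz i => ?_, fun z hz z' hz' D hD i => ?_,
    fun z hz z' hz' i hd => ?_⟩
  · rw [ev]
    exact cv _ _ _ (h.mem z hz i) (h'.mem z hz i)
  · rw [ev]
    constructor
    · intro e
      have a := (abs_le.1 (h.mem z hz i)).1
      have b := (abs_le.1 (h'.mem z hz i)).1
      rcases conv_eq (a := -Y z i) (b := -Y' z i) hr (by linarith only [a]) (by linarith only [b]) (by linarith only [e])
        with e1 | e1
      · exact (h.fl z hz i).1 (by linarith only [a, e1])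
      · exact (h'.fl z hz i).1 (by linarith only [b, e1])
    · intro e
      rw [(h.fl z hz i).2 e, (h'.fl z hz i).2 e]
      ring
  · rw [ev]
    constructor
    · intro e
      rcases conv_eq hr (abs_le.1 (h.mem z hz i)).2 (abs_le.1 (h'.mem z hz i)).2 e with e1 | e1
      · exact (h.fh z hz i).1 e1
      · exact (h'.fh z hz i).1 e1
    · intro e
      rw [(h.fh z hz i).2 e, (h'.fh z hz i).2 e]
      ring
  · rw [ev, ev]
    have := cv _ _ _ (h.lip z hz z' hz' D hD i) (h'.lip z hz z' hz' D hD i)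
    convert this using 2
    ring
  · rw [ev, ev]
    have a := mul_le_mul_of_nonneg_left (h.dom z hz z' hz' i hd) r1
    have b := mul_le_mul_of_nonneg_left (h'.dom z hz z' hz' i hd) r0
    linarith only [a, b]

/-- The walls move little. -/
theorem Valid.wall (hf : 0 < f) (hf' : f ≤ 1 / 16) {R : GB ι} (h : R.Valid f) {z z' : E ι}
    {D : ℝ} (hD : ∀ j, |z j - z' j| ≤ D * R.w j) (i : ι) :
    |R.lo i z - R.lo i z'| ≤ D * R.w i / 1000 ∧ |R.hi i z - R.hi i z'| ≤ D * R.w i / 1000 := by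
  obtain ⟨c1, c2, c3, -, -, c6, c7, -, c9, -⟩ := consts (ι := ι) hf hf'
  have h0 := nonneg_of_le h.pos hD
  have hw := h.pos i
  have hM : 0 ≤ Mx f := by linarith only [c2, c3, c6, c7]
  have hd : dist z z' ≤ D * (Mx f * R.w i) := by
    refine (dist_pi_le_iff (by positivity)).2 fun j => ?_
    rw [Real.dist_eq]
    exact (hD j).trans (mul_le_mul_of_nonneg_left (h.asp j i) h0)
  have h1 : eps ι f * dist z z' ≤ D * R.w i / 1000 := by
    have a := mul_le_mul_of_nonneg_left hd c1.le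
    have b : eps ι f * Mx f ≤ 1 / 1000 := by linarith only [c2, c3, c9]
    have c := mul_le_mul_of_nonneg_right b (mul_nonneg h0 hw.le)
    nlinarith only [a, c]
  exact ⟨(h.ll i z z').trans h1, (h.lh i z z').trans h1⟩

theorem Valid.wd' (hf : 0 < f) (hf' : f ≤ 1 / 16) {R : GB ι} (h : R.Valid f) {z : E ι}
    (hz : z ∈ R.set) (i : ι) :
    R.w i ≤ R.hi i z - R.lo i z ∧ R.hi i z - R.lo i z ≤ 11 / 10 * R.w i := by
  obtain ⟨-, -, c3, -⟩ := consts (ι := ι) hf hf'
  refine ⟨(h.wd z hz i).1, (h.wd z hz i).2.trans ?_⟩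
  have := h.pos i
  nlinarith only [hf, this, hf', c3]

theorem dom_hyp {R : GB ι} (hp : ∀ i, 0 < R.w i) {z z' : E ι} {i : ι}
    (hd : ∀ j, |z j - z' j| * R.w i ≤ (z i - z' i) * R.w j) :
    0 ≤ z i - z' i ∧ (∀ j, |z j - z' j| ≤ (z i - z' i) / R.w i * R.w j) ∧
      (z i - z' i) / R.w i * R.w i = z i - z' i := by
  have hw := hp i
  refine ⟨?_, fun j => ?_, div_mul_cancel₀ _ hw.ne'⟩
  · exact (abs_nonneg _).trans (le_of_mul_le_mul_right (hd i) hw)
  · rw [div_mul_eq_mul_div, le_div_iff₀ hw]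
    exact hd j

theorem Valid.ch_th (hf : 0 < f) (hf' : f ≤ 1 / 16) {R : GB ι} (h : R.Valid f) : R.Ch 3 R.th := by
  have ev : ∀ z i, R.th z i = (2 * z i - R.lo i z - R.hi i z) / (R.hi i z - R.lo i z) :=
    fun _ _ => rfl
  have hW : ∀ z ∈ R.set, ∀ i, 0 < R.hi i z - R.lo i z :=
    fun z hz i => (h.pos i).trans_le (h.wd z hz i).1
  have hn : ∀ z ∈ R.set, ∀ i, |2 * z i - R.lo i z - R.hi i z| ≤ R.hi i z - R.lo i z :=
    fun z hz i => abs_le.2 ⟨by linarith only [(hz i).1], by linarith only [(hz i).2]⟩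
  refine ⟨fun z hz i => ?_, fun z hz i => ?_, fun z hz i => ?_, fun z hz z' hz' D hD i => ?_,
    fun z hz z' hz' i hd => ?_⟩
  · rw [ev, abs_div, abs_of_pos (hW z hz i), div_le_one (hW z hz i)]
    exact hn z hz i
  · rw [ev, div_eq_iff (hW z hz i).ne']
    constructor <;> intro e <;> linarith only [e]
  · rw [ev, div_eq_iff (hW z hz i).ne']
    constructor <;> intro e <;> linarith only [e]
  · obtain ⟨a, b⟩ := h.wall hf hf' hD i
    have c := hD i
    have h0 := nonneg_of_le h.pos hD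
    have hw := h.pos i
    rw [abs_le] at a b c
    rw [ev, ev]
    refine (quot_lip (a := 2 * (D * R.w i) + 2 * (D * R.w i / 1000))
      (b := 2 * (D * R.w i / 1000)) hw (h.wd z hz i).1 (hW z' hz' i) (hn z' hz' i)
      (abs_le.2 ⟨by linarith only [a, b, c], by linarith only [a, b, c]⟩) (abs_le.2 ⟨by linarith only [a, b], by linarith only [a, b]⟩)).trans ?_
    rw [div_le_iff₀ hw]
    nlinarith only [mul_nonneg h0 hw.le, a]
  · obtain ⟨d0, d1, d2⟩ := dom_hyp h.pos hd
    obtain ⟨a, b⟩ := h.wall hf hf' d1 i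
    have hw := h.pos i
    rw [d2, abs_le] at a b
    rw [ev, ev]
    refine le_trans ?_ (quot_dom (a := 2 * (z i - z' i) - 2 * ((z i - z' i) / 1000))
      (b := 2 * ((z i - z' i) / 1000)) (hW z hz i) (h.wd' hf hf' hz i).2 (hW z' hz' i)
      (hn z' hz' i) (by linarith only [a, b]) (abs_le.2 ⟨by linarith only [a, b], by linarith only [a, b]⟩) (by linarith only [d0]))
    rw [div_le_div_iff₀ (by positivity) (by positivity)]
    nlinarith only [mul_nonneg d0 hw.le, d0, hw]

theorem IsCut.ch_spl (hf : 0 < f) (hf' : f ≤ 1 / 16) {R R1 R2 : GB ι} (h : R.Valid f) {i : ι}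
    {c : ℝ} (hc : IsCut f R i c R1 R2) : R.Ch (10 / f) (R.spl i c) := by
  have h3 : (3 : ℝ) ≤ 10 / f := by
    rw [le_div_iff₀ hf]
    linarith only [hf, hf']
  have ht := (h.ch_th hf hf').mono h.pos h3
  have hw := h.pos i
  have hm : 0 < f / 4 * R.w i := by positivity
  have e1 : ∀ z j, j ≠ i → R.spl i c z j = R.th z j := fun z j hj => by
    simp only [spl, Function.update_of_ne hj]
  have e2 : ∀ z, z i ≤ c → R.spl i c z i = (z i - c) / (c - R.lo i z) := fun z hz => by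
    simp only [spl, Function.update_self, if_pos hz]
  have e3 : ∀ z, c < z i → R.spl i c z i = (z i - c) / (R.hi i z - c) := fun z hz => by
    simp only [spl, Function.update_self, if_neg (not_le.2 hz)]
  have m1 : ∀ z ∈ R.set, f / 4 * R.w i ≤ c - R.lo i z := fun z hz => by linarith only [(hc.mg z hz).1]
  have m2 : ∀ z ∈ R.set, f / 4 * R.w i ≤ R.hi i z - c := fun z hz => by linarith only [(hc.mg z hz).2]
  have p1 : ∀ z ∈ R.set, 0 < c - R.lo i z := fun z hz => hm.trans_le (m1 z hz)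
  have p2 : ∀ z ∈ R.set, 0 < R.hi i z - c := fun z hz => hm.trans_le (m2 z hz)
  have u1 : ∀ z ∈ R.set, c - R.lo i z ≤ 11 / 10 * R.w i := fun z hz => by
    linarith only [(h.wd' hf hf' hz i).2, p2 z hz, hf, hf']
  have u2 : ∀ z ∈ R.set, R.hi i z - c ≤ 11 / 10 * R.w i := fun z hz => by
    linarith only [(h.wd' hf hf' hz i).2, p1 z hz, hf, hf']
  have n1 : ∀ z ∈ R.set, z i ≤ c → |z i - c| ≤ c - R.lo i z := fun z hz hz' =>
    abs_le.2 ⟨by linarith only [(hz i).1], by linarith only [p1 z hz, hz']⟩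
  have n2 : ∀ z ∈ R.set, c < z i → |z i - c| ≤ R.hi i z - c := fun z hz hz' =>
    abs_le.2 ⟨by linarith only [p2 z hz, hz'], by linarith only [(hz i).2]⟩
  have s1 : ∀ z ∈ R.set, z i ≤ c → (z i - c) / (c - R.lo i z) ≤ 0 := fun z hz hz' =>
    div_nonpos_of_nonpos_of_nonneg (by linarith only [hz']) (p1 z hz).le
  have s2 : ∀ z ∈ R.set, c < z i → 0 < (z i - c) / (R.hi i z - c) := fun z hz hz' =>
    div_pos (by linarith only [hz']) (p2 z hz)
  have mix : ∀ z ∈ R.set, ∀ z' ∈ R.set, z i ≤ c → c < z' i → ∀ D : ℝ, 0 ≤ D →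
      |z i - z' i| ≤ D * R.w i →
      |(z i - c) / (c - R.lo i z) - (z' i - c) / (R.hi i z' - c)| ≤ 10 / f * D := by
    intro z hz z' hz' a b D h0 hD
    rw [abs_le] at hD
    have k : D * R.w i / (f / 4 * R.w i) = 4 / f * D := by field_simp
    have k0 : 0 ≤ 1 / f * D := by positivity
    have a1 : |(z i - c) / (c - R.lo i z)| ≤ D * R.w i / (f / 4 * R.w i) := by
      rw [abs_div, abs_of_pos (p1 z hz)]
      exact div_le_div₀ (by positivity) (abs_le.2 ⟨by linarith only [b, hD], by linarith only [a, b, hD]⟩) hm (m1 z hz)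
    have a2 : |(z' i - c) / (R.hi i z' - c)| ≤ D * R.w i / (f / 4 * R.w i) := by
      rw [abs_div, abs_of_pos (p2 z' hz')]
      exact div_le_div₀ (by positivity) (abs_le.2 ⟨by linarith only [a, b, hD], by linarith only [a, hD]⟩) hm (m2 z' hz')
    refine (abs_sub _ _).trans ?_
    rw [k] at a1 a2
    have k1 : 4 / f * D = 4 * (1 / f * D) := by ring
    have k2 : 10 / f * D = 10 * (1 / f * D) := by ring
    linarith only [k0, a1, a2, k1, k2]
  refine ⟨fun z hz j => ?_, fun z hz j => ?_, fun z hz j => ?_, fun z hz z' hz' D hD j => ?_,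
    fun z hz z' hz' j hd => ?_⟩
  · by_cases hj : j = i
    · subst hj
      rcases le_or_gt (z j) c with a | a
      · rw [e2 z a, abs_div, abs_of_pos (p1 z hz), div_le_one (p1 z hz)]
        exact n1 z hz a
      · rw [e3 z a, abs_div, abs_of_pos (p2 z hz), div_le_one (p2 z hz)]
        exact n2 z hz a
    · rw [e1 z j hj]
      exact ht.mem z hz j
  · by_cases hj : j = i
    · subst hj
      rcases le_or_gt (z j) c with a | a
      · rw [e2 z a, div_eq_iff (p1 z hz).ne']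
        constructor <;> intro e <;> linarith only [e]
      · rw [e3 z a]
        constructor <;> intro e <;> linarith only [s2 z hz a, p1 z hz, hf, hf', e, a]
    · rw [e1 z j hj]
      exact ht.fl z hz j
  · by_cases hj : j = i
    · subst hj
      rcases le_or_gt (z j) c with a | a
      · rw [e2 z a]
        constructor <;> intro e <;> linarith only [s1 z hz a, p2 z hz, hf, hf', e, a]
      · rw [e3 z a, div_eq_iff (p2 z hz).ne']
        constructor <;> intro e <;> linarith only [e]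
    · rw [e1 z j hj]
      exact ht.fh z hz j
  · by_cases hj : j = i
    · subst hj
      have h0 := nonneg_of_le h.pos hD
      obtain ⟨a, b⟩ := h.wall hf hf' hD j
      have k : (D * R.w j + D * R.w j / 1000) / (f / 4 * R.w j) ≤ 10 / f * D := by
        have k0 : 0 ≤ 1 / f * D := by positivity
        have k1 : (D * R.w j + D * R.w j / 1000) / (f / 4 * R.w j) =
            1001 / 250 * (1 / f * D) := by
          field_simp
          ring
        have k2 : 10 / f * D = 10 * (1 / f * D) := by ring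
        linarith only [k0, k1, k2]
      have d : |z j - c - (z' j - c)| ≤ D * R.w j := by
        rw [sub_sub_sub_cancel_right]
        exact hD j
      rcases le_or_gt (z j) c with a1 | a1 <;> rcases le_or_gt (z' j) c with a2 | a2
      · rw [e2 z a1, e2 z' a2]
        refine (quot_lip hm (m1 z hz) (p1 z' hz') (n1 z' hz' a2) d ?_).trans k
        rwa [sub_sub_sub_cancel_left, abs_sub_comm]
      · rw [e2 z a1, e3 z' a2]
        exact mix z hz z' hz' a1 a2 D h0 (hD j)
      · rw [e3 z a1, e2 z' a2, abs_sub_comm]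
        exact mix z' hz' z hz a2 a1 D h0 (by rw [abs_sub_comm]; exact hD j)
      · rw [e3 z a1, e3 z' a2]
        refine (quot_lip hm (m2 z hz) (p2 z' hz') (n2 z' hz' a2) d ?_).trans k
        rwa [sub_sub_sub_cancel_right]
    · rw [e1 z j hj, e1 z' j hj]
      exact ht.lip z hz z' hz' D hD j
  · by_cases hj : j = i
    · subst hj
      obtain ⟨d0, d1, d2⟩ := dom_hyp h.pos hd
      obtain ⟨a, b⟩ := h.wall hf hf' d1 j
      rw [d2] at a b
      have k : (z j - z' j) / (2 * R.w j) ≤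
          (z j - z' j - (z j - z' j) / 1000) / (11 / 10 * R.w j) := by
        rw [div_le_div_iff₀ (by positivity) (by positivity)]
        nlinarith only [mul_nonneg d0 hw.le, d0, hw]
      rcases le_or_gt (z j) c with a1 | a1 <;> rcases le_or_gt (z' j) c with a2 | a2
      · rw [e2 z a1, e2 z' a2]
        refine k.trans (quot_dom (p1 z hz) (u1 z hz) (p1 z' hz') (n1 z' hz' a2) (by linarith only []) ?_
          (by linarith only [d0]))
        rwa [sub_sub_sub_cancel_left, abs_sub_comm]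
      · exact absurd a2 (by linarith only [d0, a1, a2])
      · rw [e3 z a1, e2 z' a2]
        have b1 : (z j - c) / (2 * R.w j) ≤ (z j - c) / (R.hi j z - c) :=
          div_le_div_of_nonneg_left (by linarith only [a1]) (p2 z hz) (by linarith only [u2 z hz, hw])
        have b2 : (c - z' j) / (2 * R.w j) ≤ (c - z' j) / (c - R.lo j z') :=
          div_le_div_of_nonneg_left (by linarith only [a2]) (p1 z' hz') (by linarith only [u1 z' hz', hw])
        have b3 : (z j - z' j) / (2 * R.w j) =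
            (z j - c) / (2 * R.w j) + (c - z' j) / (2 * R.w j) := by ring
        have b4 : (z' j - c) / (c - R.lo j z') = -((c - z' j) / (c - R.lo j z')) := by ring
        linarith only [b1, b2, b3, b4]
      · rw [e3 z a1, e3 z' a2]
        refine k.trans (quot_dom (p2 z hz) (u2 z hz) (p2 z' hz') (n2 z' hz' a2) (by linarith only []) ?_
          (by linarith only [d0]))
        rwa [sub_sub_sub_cancel_right]
    · rw [e1 z j hj, e1 z' j hj]
      exact ht.dom z hz z' hz' j hd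

theorem Valid.ch_rect (hf : 0 < f) (hf' : f ≤ 1 / 16) {R : GB ι} (h : R.Valid f) {Q : Bx ι}
    (hQ : Q.Pos) (hs : Q.set = R.set)
    (hw : ∀ i, (1 - epw ι f) * R.w i ≤ Q.sd i ∧ Q.sd i ≤ (1 + 2 * epw ι f) * R.w i)
    (hb : ∀ z ∈ R.set, ∀ i, (z i = R.lo i z ↔ z i = Q.lo i) ∧ (z i = R.hi i z ↔ z i = Q.hi i)) :
    R.Ch 3 Q.nm := by
  obtain ⟨-, -, c3, -⟩ := consts (ι := ι) hf hf'
  have ev : ∀ z i, Q.nm z i = (2 * z i - Q.lo i - Q.hi i) / Q.sd i := fun _ _ => rfl
  have es : ∀ i, Q.sd i = Q.hi i - Q.lo i := fun _ => rfl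
  have hp : ∀ i, 0 < Q.sd i := fun i => sub_pos.2 (hQ i)
  have ed : ∀ z z' i, Q.nm z i - Q.nm z' i = 2 * (z i - z' i) / Q.sd i := fun z z' i => by
    rw [ev, ev]
    ring
  have w1 : ∀ i, 9 / 10 * R.w i ≤ Q.sd i := fun i => by nlinarith only [(hw i).1, h.pos i, hf, hf', c3]
  have w2 : ∀ i, Q.sd i ≤ 11 / 10 * R.w i := fun i => by nlinarith only [(hw i).2, h.pos i, hf, hf', c3]
  refine ⟨fun z hz i => ?_, fun z hz i => ?_, fun z hz i => ?_, fun z hz z' hz' D hD i => ?_,
    fun z hz z' hz' i hd => ?_⟩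
  · rw [← hs] at hz
    rw [ev, abs_div, abs_of_pos (hp i), div_le_one (hp i), es]
    exact abs_le.2 ⟨by linarith only [hz.1 i], by linarith only [hz.2 i]⟩
  · rw [(hb z hz i).1, ev, div_eq_iff (hp i).ne', es]
    constructor <;> intro e <;> linarith only [e]
  · rw [(hb z hz i).2, ev, div_eq_iff (hp i).ne', es]
    constructor <;> intro e <;> linarith only [e]
  · have h0 := nonneg_of_le h.pos hD
    rw [ed, abs_div, abs_of_pos (hp i), div_le_iff₀ (hp i), abs_mul, abs_two]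
    nlinarith only [hD i, mul_le_mul_of_nonneg_left (w1 i) h0, mul_nonneg h0 (h.pos i).le, h0]
  · obtain ⟨d0, -, -⟩ := dom_hyp h.pos hd
    have hw' := h.pos i
    rw [ed, div_le_div_iff₀ (by positivity) (hp i)]
    nlinarith only [mul_le_mul_of_nonneg_left (w2 i) d0, mul_nonneg d0 hw'.le, d0, hw']

theorem Ch.lipd {R : GB ι} (hR : R.Valid f) {L : ℝ} (hL : 0 ≤ L) {Y : E ι → E ι} (h : R.Ch L Y)
    {z z' : E ι} (hz : z ∈ R.set) (hz' : z' ∈ R.set) :
    dist (Y z) (Y z') ≤ L / R.wmin * dist z z' := by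
  have hw := hR.wmin_pos
  refine (dist_pi_le_iff (by positivity)).2 fun i => ?_
  rw [Real.dist_eq]
  refine (h.lip z hz z' hz' (dist z z' / R.wmin) (fun j => ?_) i).trans_eq (by ring)
  have a := dist_le_pi_dist z z' j
  rw [Real.dist_eq] at a
  refine a.trans ?_
  rw [div_mul_eq_mul_div, le_div_iff₀ hw]
  exact mul_le_mul_of_nonneg_left (R.wmin_le j) dist_nonneg

theorem Ch.lipi {R : GB ι} (hR : R.Valid f) {L : ℝ} {Y : E ι → E ι} (h : R.Ch L Y)
    {z z' : E ι} (hz : z ∈ R.set) (hz' : z' ∈ R.set) :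
    dist z z' ≤ 2 * R.wmax * dist (Y z) (Y z') := by
  obtain ⟨i, hi⟩ := Finite.exists_max fun i => |z i - z' i| / R.w i
  have hw := hR.pos i
  have h1 : ∀ j, |z j - z' j| * R.w i ≤ |z i - z' i| * R.w j :=
    fun j => (div_le_div_iff₀ (hR.pos j) hw).1 (hi j)
  have h2 : |z i - z' i| / (2 * R.w i) ≤ dist (Y z) (Y z') := by
    have a := dist_le_pi_dist (Y z) (Y z') i
    rw [Real.dist_eq] at a
    refine le_trans ?_ a
    rcases le_total 0 (z i - z' i) with b | b
    · rw [abs_of_nonneg b] at h1 ⊢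
      exact (h.dom z hz z' hz' i h1).trans (le_abs_self _)
    · rw [abs_of_nonpos b, neg_sub] at h1 ⊢
      rw [abs_sub_comm]
      exact (h.dom z' hz' z hz i fun j => by rw [abs_sub_comm]; exact h1 j).trans (le_abs_self _)
  have hM : 0 < R.wmax := hw.trans_le (R.le_wmax i)
  refine (dist_pi_le_iff (by positivity)).2 fun j => ?_
  rw [Real.dist_eq]
  rw [div_le_iff₀ (by positivity)] at h2
  refine le_of_mul_le_mul_right ((h1 j).trans ?_) hw
  calc |z i - z' i| * R.w j ≤ dist (Y z) (Y z') * (2 * R.w i) * R.wmax :=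
        mul_le_mul h2 (R.le_wmax j) (hR.pos j).le (by positivity)
    _ = _ := by ring

theorem Ch.norm_le {R : GB ι} {L : ℝ} {Y : E ι → E ι} (h : R.Ch L Y) {z : E ι}
    (hz : z ∈ R.set) : ‖Y z‖ ≤ 1 :=
  (pi_norm_le_iff_of_nonneg zero_le_one).2 fun i => h.mem z hz i

theorem Ch.norm_eq {R : GB ι} (hR : R.Valid f) {L : ℝ} {Y : E ι → E ι} (h : R.Ch L Y) {z : E ι}
    (hz : z ∈ R.set) : ‖Y z‖ = 1 ↔ z ∈ R.bd := by
  rw [hR.mem_bd hz]
  constructor
  · intro e
    by_contra hc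
    push Not at hc
    refine absurd e (ne_of_lt ((pi_norm_lt_iff zero_lt_one).2 fun i => ?_))
    rw [Real.norm_eq_abs]
    refine lt_of_le_of_ne (h.mem z hz i) fun e1 => ?_
    rcases (abs_eq zero_le_one).1 e1 with e2 | e2
    · exact (hc i).2 ((h.fh z hz i).1 e2)
    · exact (hc i).1 ((h.fl z hz i).1 e2)
  · rintro ⟨i, hi⟩
    refine le_antisymm (h.norm_le hz) (le_trans ?_ (norm_le_pi_norm (Y z) i))
    rcases hi with e | e
    · rw [(h.fl z hz i).2 e]
      simp
    · rw [(h.fh z hz i).2 e]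
      simp

theorem Ch.continuousOn {R : GB ι} (hR : R.Valid f) {L : ℝ} {Y : E ι → E ι} (h : R.Ch L Y) :
    ContinuousOn Y R.set := by
  have h' := h.mono hR.pos (le_max_left L 0)
  have hw := hR.wmin_pos
  have h0 : 0 ≤ max L 0 / R.wmin := by positivity
  have : LipschitzOnWith ⟨_, h0⟩ Y R.set :=
    LipschitzOnWith.of_dist_le_mul fun z hz z' hz' => h'.lipd hR (le_max_right L 0) hz hz'
  exact this.continuousOn

theorem Ch.bij (hf : 0 < f) (hf' : f ≤ 1 / 16) {R : GB ι} (hR : R.Valid f) {L : ℝ}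
    {Y : E ι → E ι} (h : R.Ch L Y) : BijOn Y R.set (closedBall 0 1) := by
  have hc := h.continuousOn hR
  have hi : InjOn Y R.set := by
    intro z hz z' hz' e
    have := h.lipi hR hz hz'
    rw [e, dist_self, mul_zero] at this
    exact dist_le_zero.1 this
  refine ⟨fun z hz => mem_closedBall_zero_iff.2 (h.norm_le hz), hi, ?_⟩
  have hlt : ∀ z ∈ R.set, z ∉ R.bd ↔ ‖Y z‖ < 1 := fun z hz => by
    rw [← h.norm_eq hR hz]
    exact ⟨lt_of_le_of_ne (h.norm_le hz), ne_of_lt⟩
  have hV : IsOpen {z | z ∈ R.set ∧ z ∉ R.bd} := by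
    rw [isOpen_iff_mem_nhds]
    rintro z ⟨hz, hb⟩
    have a := hR.mem_interior hz hb
    have b : ∀ᶠ z' in 𝓝 z, ‖Y z'‖ < 1 :=
      ((hc.continuousAt a).norm).eventually (gt_mem_nhds ((hlt z hz).1 hb))
    filter_upwards [a, b] with z' h1 h2
    exact ⟨h1, (hlt z' h1).2 h2⟩
  have hA := inv_dom hV (hc.mono fun z hz => hz.1) (hi.mono fun z hz => hz.1)
  have hK : IsClosed (Y '' R.set) := ((hR.isCompact hf hf').image_of_continuousOn hc).isClosed
  have hsub : Y '' {z | z ∈ R.set ∧ z ∉ R.bd} ⊆ Y '' R.set := image_mono fun z hz => hz.1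
  have hob : R.o ∉ R.bd := fun e => by
    have := e.2
    rw [hR.th_o, norm_zero] at this
    exact zero_ne_one this
  have hB : ball (0 : E ι) 1 ⊆ Y '' {z | z ∈ R.set ∧ z ∉ R.bd} := by
    refine (convex_ball (0 : E ι) 1).isPreconnected.subset_left_of_subset_union hA
      hK.isOpen_compl (disjoint_compl_right.mono_left hsub) ?_
      ⟨Y R.o, mem_ball_zero_iff.2 ((hlt _ hR.om).1 hob), R.o, ⟨hR.om, hob⟩, rfl⟩
    intro y hy
    by_cases hy' : y ∈ Y '' R.set
    · obtain ⟨z, hz, rfl⟩ := hy'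
      exact Or.inl ⟨z, ⟨hz, (hlt z hz).2 (mem_ball_zero_iff.1 hy)⟩, rfl⟩
    · exact Or.inr hy'
  rw [SurjOn, ← closure_ball (0 : E ι) one_ne_zero]
  exact closure_minimal (hB.trans hsub) hK

theorem Valid.bij_th (hf : 0 < f) (hf' : f ≤ 1 / 16) {R : GB ι} (hR : R.Valid f) :
    BijOn R.th R.set (closedBall 0 1) :=
  (hR.ch_th hf hf').bij hf hf' hR

end GB

end Pool.Agent.Lib.MP_ecd4e3_gt.N
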