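import Pool.Agent.Lib.MP_ecd4e3_gt.N.Grid

/-! Graph boxes: size, volume, images, signed permutations. -/

namespace Pool.Agent.Lib.MP_ecd4e3_gt.N

open Set Filter Topology Metric MeasureTheory
open scoped NNReal ENNReal

variable {ι : Type} [Fintype ι] [DecidableEq ι]

theorem IsSP.id : IsSP fun x : E ι => x :=
  ⟨1, fun _ => 1, fun _ => Or.inl rfl, fun x i => by simp⟩

theorem IsSP.comp {O O' : E ι → E ι} (h : IsSP O) (h' : IsSP O') : IsSP fun x => O (O' x) := by
  obtain ⟨p, s, hs, e⟩ := h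
  obtain ⟨p', s', hs', e'⟩ := h'
  refine ⟨p' * p, fun i => s i * s' (p i), fun i => ?_, fun x i => by simp [e, e', mul_assoc]⟩
  rcases hs i with a | a <;> rcases hs' (p i) with b | b <;> simp [a, b]

theorem IsSP.inv {O : E ι → E ι} (h : IsSP O) :
    ∃ O', IsSP O' ∧ (∀ x, O' (O x) = x) ∧ ∀ x, O (O' x) = x := by
  obtain ⟨p, s, hs, e⟩ := h
  have q : ∀ i, s i * s i = 1 := fun i => by rcases hs i with a | a <;> simp [a]
  refine ⟨fun x i => s (p.symm i) * x (p.symm i), ⟨p.symm, fun i => s (p.symm i),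
    fun i => hs _, fun _ _ => rfl⟩, fun x => ?_, fun x => ?_⟩ <;> ext i <;>
    simp [e, ← mul_assoc, q]

theorem IsSP.norm {O : E ι → E ι} (h : IsSP O) (x : E ι) : ‖O x‖ = ‖x‖ := by
  obtain ⟨p, s, hs, e⟩ := h
  have q : ∀ i, ‖O x i‖ = ‖x (p i)‖ := fun i => by rcases hs i with a | a <;> simp [e, a]
  refine le_antisymm ((pi_norm_le_iff_of_nonneg (norm_nonneg _)).2 fun i => ?_)
    ((pi_norm_le_iff_of_nonneg (norm_nonneg _)).2 fun i => ?_)
  · exact (q i).trans_le (norm_le_pi_norm x _)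
  · rw [← p.apply_symm_apply i, ← q]
    exact norm_le_pi_norm _ _

theorem IsSP.add {O : E ι → E ι} (h : IsSP O) (x y : E ι) : O (x + y) = O x + O y := by
  obtain ⟨p, s, -, e⟩ := h
  ext i
  simp [e, mul_add]

theorem IsSP.smul {O : E ι → E ι} (h : IsSP O) (c : ℝ) (x : E ι) : O (c • x) = c • O x := by
  obtain ⟨p, s, -, e⟩ := h
  ext i
  simp [e, mul_left_comm]

theorem IsSP.dist {O : E ι → E ι} (h : IsSP O) (x y : E ι) : dist (O x) (O y) = dist x y := by
  rw [dist_eq_norm, dist_eq_norm, ← h.norm (x - y), sub_eq_add_neg x, h.add, ← neg_one_smul ℝ y,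
    h.smul, neg_one_smul, sub_eq_add_neg]

theorem IsSP.equiv {O : E ι → E ι} (h : IsSP O) : ∃ g : E ι ≃ᵢ E ι, ∀ x, g x = O x := by
  obtain ⟨O', -, a, b⟩ := h.inv
  exact ⟨⟨⟨O, O', a, b⟩, Isometry.of_dist_eq h.dist⟩, fun _ => rfl⟩

theorem IsSP.bijOn {O : E ι → E ι} (h : IsSP O) :
    BijOn O (closedBall 0 1) (closedBall 0 1) ∧ BijOn O (sphere 0 1) (sphere 0 1) := by
  obtain ⟨O', h', a, b⟩ := h.inv
  have i : Function.Injective O := Function.LeftInverse.injective a
  refine ⟨⟨fun x hx => ?_, i.injOn, fun x hx => ⟨O' x, ?_, b x⟩⟩,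
    ⟨fun x hx => ?_, i.injOn, fun x hx => ⟨O' x, ?_, b x⟩⟩⟩ <;>
    simpa [h.norm, h'.norm] using hx

theorem IsSP.volume {O : E ι → E ι} (h : IsSP O) (A : Set (E ι)) : volume (O '' A) = volume A := by
  rw [← hausdorffMeasure_pi_real]
  exact (Isometry.of_dist_eq h.dist).hausdorffMeasure_image (Or.inl (by positivity)) A

/-- A signed permutation which reads coordinate `i` into coordinate `j`. -/
theorem exists_SP (i j : ι) {s : ℝ} (hs : s = 1 ∨ s = -1) :
    ∃ O : E ι → E ι, IsSP O ∧ (∀ x, O x j = s * x i) ∧ O (Pi.single i 1) = Pi.single j s := by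
  refine ⟨fun x k => s * x (Equiv.swap i j k), ⟨Equiv.swap i j, fun _ => s, fun _ => hs,
    fun _ _ => rfl⟩, fun x => by simp, ?_⟩
  ext k
  by_cases a : k = j
  · simp [a]
  · have : Equiv.swap i j k ≠ i := fun b => a (by simpa using congrArg (Equiv.swap i j) b)
    simp [a, this]

theorem IsSP.coord {O : E ι → E ι} (h : IsSP O) {i j : ι} {s : ℝ} (hs : s = 1 ∨ s = -1)
    (he : O (Pi.single i 1) = Pi.single j s) (x : E ι) : O x j = s * x i := by
  obtain ⟨p, t, -, e⟩ := h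
  have a := congrFun he j
  rw [e, Pi.single_eq_same] at a
  by_cases b : p j = i
  · rw [e, b, ← a, b, Pi.single_eq_same, mul_one]
  · rw [Pi.single_eq_of_ne b, mul_zero] at a
    rcases hs with c | c <;> simp [c] at a

/-- Compatibility with the maps onto the halves. -/
theorem IsSP.hf {O : E ι → E ι} (h : IsSP O) {i j : ι} {s : ℝ} (hs : s = 1 ∨ s = -1)
    (he : ∀ x, O x j = s * x i) (ε : ℝ) (x : E ι) : O (hf i ε x) = hf j (s * ε) (O x) := by
  obtain ⟨p, t, ht, e⟩ := h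
  have a := e (Pi.single i 1) j
  rw [he, Pi.single_eq_same] at a
  have b : p j = i := by
    by_contra b
    rw [Pi.single_eq_of_ne b, mul_zero] at a
    rcases hs with c | c <;> simp [c] at a
  ext k
  by_cases c : k = j
  · rw [c, he]
    simp only [N.hf, Function.update_self, he]
    ring
  · have d : p k ≠ i := fun d => c (p.injective (d.trans b.symm))
    simp [N.hf, e, c, d]

variable [Nonempty ι] {f : ℝ}

theorem consts (hf : 0 < f) (hf' : f ≤ 1 / 16) :
    0 < eps ι f ∧ 0 < epw ι f ∧ epw ι f ≤ 1 / 1600 ∧ 0 < drp ι f ∧ drp ι f ≤ 1 / 10 ^ 4 ∧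
      64 ≤ Mp f ∧ Mx f = 5 * Mp f ∧ 10 ^ 4 * (eps ι f * Mx f) ≤ f ^ 2 ∧
      100 * (eps ι f * Mx f) ≤ epw ι f ∧ 500 * (eps ι f * Mx f) ≤ epw ι f * f := by
  have n : (1 : ℝ) ≤ Fintype.card ι := by exact_mod_cast Fintype.card_pos
  have e : eps ι f * Mx f = f ^ 2 / (50000 * Fintype.card ι) := by
    unfold eps Mx
    field_simp
    norm_num
  rw [e]
  unfold eps epw drp Mp Mx
  generalize (Fintype.card ι : ℝ) = n at n
  refine ⟨by positivity, by positivity, ?_, by positivity, ?_, ?_, by ring, ?_, ?_, ?_⟩ <;>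
    field_simp <;> nlinarith only [mul_pos hf hf, hf', n, hf]

namespace GB

theorem wmin_le (R : GB ι) (i : ι) : R.wmin ≤ R.w i :=
  ciInf_le (Set.finite_range _).bddBelow i

theorem le_wmax (R : GB ι) (i : ι) : R.w i ≤ R.wmax :=
  le_ciSup (Set.finite_range _).bddAbove i

theorem exists_wmin (R : GB ι) : ∃ i, R.w i = R.wmin :=
  exists_eq_ciInf_of_finite

theorem exists_wmax (R : GB ι) : ∃ i, R.w i = R.wmax :=
  exists_eq_ciSup_of_finite

theorem Valid.wmin_pos {R : GB ι} (h : R.Valid f) : 0 < R.wmin := by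
  obtain ⟨i, e⟩ := R.exists_wmin
  exact e ▸ h.pos i

theorem Valid.wmax_le {R : GB ι} (h : R.Valid f) : R.wmax ≤ Mx f * R.wmin := by
  obtain ⟨i, e⟩ := R.exists_wmin
  obtain ⟨j, e'⟩ := R.exists_wmax
  exact e ▸ e' ▸ h.asp j i

theorem cont_of_lip {g : E ι → ℝ} {e : ℝ} (h : ∀ z z', |g z - g z'| ≤ e * dist z z') :
    Continuous g :=
  (LipschitzWith.of_dist_le_mul (K := e.toNNReal) fun z z' => (h z z').trans
    (mul_le_mul_of_nonneg_right (Real.le_coe_toNNReal e) dist_nonneg)).continuous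

theorem Valid.wmax_le' {R : GB ι} (h : R.Valid f) (i : ι) : R.wmax ≤ Mx f * R.w i := by
  obtain ⟨j, e⟩ := R.exists_wmax
  exact e ▸ h.asp j i

theorem Valid.wmax_pos {R : GB ι} (h : R.Valid f) : 0 < R.wmax := by
  obtain ⟨j, e⟩ := R.exists_wmax
  exact e ▸ h.pos j

theorem eps_le (hf : 0 < f) (hf' : f ≤ 1 / 16) : eps ι f ≤ 1 / 100 := by
  obtain ⟨c1, -, c3, -, -, c6, c7, -, c9, -⟩ := consts (ι := ι) hf hf'
  rw [c7] at c9
  nlinarith only [c3, c9, hf, c1, hf', c6]

theorem Valid.isClosed {R : GB ι} (h : R.Valid f) : IsClosed R.set := by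
  simp only [GB.set, ofPred_forall]
  exact isClosed_iInter fun i => (isClosed_le (cont_of_lip (h.ll i)) (continuous_apply i)).inter
    (isClosed_le (continuous_apply i) (cont_of_lip (h.lh i)))

theorem Valid.outer (hf : 0 < f) (hf' : f ≤ 1 / 16) {R : GB ι} (h : R.Valid f) {z : E ι}
    (hz : z ∈ R.set) (i : ι) : |z i - R.o i| ≤ (1 + 2 * epw ι f) * R.w i / 2 := by
  obtain ⟨c1, c2, c3, -, -, -, -, -, c9, -⟩ := consts (ι := ι) hf hf'
  have c0 := eps_le (ι := ι) hf hf'
  have k : ∀ j, |z j - R.o j| ≤ (1 + epw ι f) * R.w j / 2 + eps ι f * dist z R.o := fun j => by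
    have a := abs_le.1 (h.ll j z R.o)
    have b := abs_le.1 (h.lh j z R.o)
    refine abs_le.2 ⟨?_, ?_⟩ <;> linarith only [h.ctr j, (h.wd _ h.om j).2, (hz j).1, (hz j).2, a, b]
  have m := h.wmax_pos
  have d0 : 0 ≤ dist z R.o := dist_nonneg
  have d : dist z R.o ≤ (1 + epw ι f) * R.wmax / 2 + eps ι f * dist z R.o :=
    (dist_pi_le_iff (by positivity)).2 fun j => (k j).trans (by gcongr; exact R.le_wmax j)
  have d' : dist z R.o ≤ Mx f * R.w i := le_trans (by nlinarith only [d, c2, m, c3, d0, c0]) (h.wmax_le' i)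
  nlinarith only [k i, mul_le_mul_of_nonneg_left d' c1.le, mul_le_mul_of_nonneg_right c9 (h.pos i).le,
    mul_pos c2 (h.pos i), d', c1, c9, c2]

theorem Valid.inner (hf : 0 < f) (hf' : f ≤ 1 / 16) {R : GB ι} (h : R.Valid f) {z : E ι}
    (hz : ∀ i, |z i - R.o i| ≤ (1 - epw ι f) * R.w i / 2) : z ∈ R.set :=
  fun i => by
  obtain ⟨c1, c2, c3, -, -, -, -, -, c9, -⟩ := consts (ι := ι) hf hf'
  have d : dist z R.o ≤ R.wmax := (dist_pi_le_iff h.wmax_pos.le).2 fun j =>
    (hz j).trans (by nlinarith only [R.le_wmax j, h.pos j, mul_pos c2 (h.pos j), c2])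
  have e : eps ι f * dist z R.o ≤ epw ι f * R.w i / 2 := by
    nlinarith only [mul_le_mul_of_nonneg_left (d.trans (h.wmax_le' i)) c1.le,
      mul_le_mul_of_nonneg_right c9 (h.pos i).le, mul_pos c2 (h.pos i), d, c1, c9, c2]
  have a := abs_le.1 (h.ll i z R.o)
  have b := abs_le.1 (h.lh i z R.o)
  have c := abs_le.1 (hz i)
  constructor <;> linarith only [h.ctr i, (h.wd _ h.om i).1, e, a, c, b]

theorem Valid.isCompact (hf : 0 < f) (hf' : f ≤ 1 / 16) {R : GB ι} (h : R.Valid f) :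
    IsCompact R.set :=
  (isCompact_Icc (a := fun i => R.o i - (1 + 2 * epw ι f) * R.w i / 2)
    (b := fun i => R.o i + (1 + 2 * epw ι f) * R.w i / 2)).of_isClosed_subset h.isClosed
    fun _ hz => ⟨fun i => by linarith only [(abs_le.1 (h.outer hf hf' hz i)).1, hf, hf'],
      fun i => by linarith only [(abs_le.1 (h.outer hf hf' hz i)).2, hf, hf']⟩

theorem Valid.dist_le (hf : 0 < f) (hf' : f ≤ 1 / 16) {R : GB ι} (h : R.Valid f) {z z' : E ι}
    (hz : z ∈ R.set) (hz' : z' ∈ R.set) : dist z z' ≤ 2 * R.wmax := by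
  obtain ⟨-, c2, c3, -⟩ := consts (ι := ι) hf hf'
  refine (dist_pi_le_iff (by linarith only [h.wmax_pos])).2 fun i => ?_
  have a := abs_le.1 (h.outer hf hf' hz i)
  have b := abs_le.1 (h.outer hf hf' hz' i)
  have c : (1 + 2 * epw ι f) * R.w i ≤ 2 * R.wmax := by nlinarith only [R.le_wmax i, h.pos i, hf, hf', a, c2, c3]
  exact abs_le.2 ⟨by linarith only [a, b, c], by linarith only [a, b, c]⟩

theorem vol_cbox (o w : E ι) {a : ℝ} (ha : 0 ≤ a) (hw : ∀ i, 0 < w i) :
    (volume {z : E ι | ∀ i, |z i - o i| ≤ a * w i / 2}).toReal = a ^ Fintype.card ι * ∏ i, w i := by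
  have e : {z : E ι | ∀ i, |z i - o i| ≤ a * w i / 2} =
      Icc (fun i => o i - a * w i / 2) fun i => o i + a * w i / 2 := by
    ext z
    simp only [mem_ofPred_eq, mem_Icc, Pi.le_def, ← forall_and, abs_le]
    exact forall_congr' fun i => ⟨fun b => ⟨by linarith only [b.1, b], by linarith only [b.2, b]⟩,
      fun b => ⟨by linarith only [b.1, b], by linarith only [b.2, b]⟩⟩
  rw [e, Real.volume_Icc_pi_toReal fun i => by nlinarith only [mul_nonneg ha (hw i).le, ha],
    ← Finset.card_univ, ← Finset.prod_const, ← Finset.prod_mul_distrib]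
  exact Finset.prod_congr rfl fun i _ => by ring

theorem Valid.vol_bd (hf : 0 < f) (hf' : f ≤ 1 / 16) {R : GB ι} (h : R.Valid f) :
    (1 - f / 50) * ∏ i, R.w i ≤ R.vol ∧ R.vol ≤ (1 + f / 25) * ∏ i, R.w i := by
  obtain ⟨-, c2, c3, -⟩ := consts (ι := ι) hf hf'
  have n : (0 : ℝ) < Fintype.card ι := by exact_mod_cast Fintype.card_pos
  have e : Fintype.card ι * epw ι f = f / 100 := by
    unfold epw
    field_simp
  have p : 0 < ∏ i, R.w i := Finset.prod_pos fun i _ => h.pos i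
  constructor
  · refine le_trans ?_ ((vol_cbox R.o R.w (a := 1 - epw ι f) (by linarith only [c2, c3]) h.pos).ge.trans
      (ENNReal.toReal_mono (h.isCompact hf hf').measure_lt_top.ne
        (measure_mono fun z hz => h.inner hf hf' hz)))
    gcongr
    have := one_add_mul_le_pow (a := -epw ι f) (by linarith only [c2, c3]) (Fintype.card ι)
    rw [← sub_eq_add_neg] at this
    linarith only [hf, e, this]
  · have v := vol_cbox R.o R.w (a := 1 + 2 * epw ι f) (by linarith only [c2, c3]) h.pos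
    refine le_trans (le_of_le_of_eq (ENNReal.toReal_mono (fun t => ?_)
      (measure_mono fun z hz => h.outer hf hf' hz)) v) ?_
    · exact absurd (v.symm.trans (congrArg ENNReal.toReal t)) (ne_of_gt (by
        rw [ENNReal.toReal_top]
        positivity))
    gcongr
    have a := one_add_mul_le_pow (a := -(2 * epw ι f)) (by linarith only [c2, c3]) (Fintype.card ι)
    have b : (1 + 2 * epw ι f) ^ Fintype.card ι * (1 + -(2 * epw ι f)) ^ Fintype.card ι ≤ 1 := by
      rw [← mul_pow]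
      exact pow_le_one₀ (by nlinarith only [hf', c3, hf, c2]) (by nlinarith only [hf, hf', c2])
    have c : 0 < (1 + 2 * epw ι f) ^ Fintype.card ι := by positivity
    have d := (mul_le_mul_of_nonneg_left a c.le).trans b
    rw [show 1 + Fintype.card ι * -(2 * epw ι f) = 1 - f / 50 by linarith only [e]] at d
    nlinarith only [d, hf, hf', c2, c3]

theorem Valid.vol_pos (hf : 0 < f) (hf' : f ≤ 1 / 16) {R : GB ι} (h : R.Valid f) : 0 < R.vol :=
  lt_of_lt_of_le (mul_pos (by linarith only [hf, hf']) (Finset.prod_pos fun i _ => h.pos i)) (h.vol_bd hf hf').1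

/-- The size `L` with `L ^ N = vol` is comparable with the widths. -/
theorem Valid.size (hf : 0 < f) (hf' : f ≤ 1 / 16) {R : GB ι} (h : R.Valid f) {L : ℝ}
    (hL : 0 ≤ L) : (L ^ Fintype.card ι ≤ R.vol → L ≤ 2 * Mx f * R.wmin) ∧
      (R.vol ≤ L ^ Fintype.card ι → R.wmax ≤ 2 * Mx f * L) := by
  obtain ⟨v1, v2⟩ := h.vol_bd hf hf'
  obtain ⟨-, -, -, -, -, c6, c7, -⟩ := consts (ι := ι) hf hf'
  have n : Fintype.card ι ≠ 0 := Fintype.card_ne_zero
  have m1 := h.wmin_pos
  have m2 := h.wmax_pos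
  have t : (2 : ℝ) ≤ 2 ^ Fintype.card ι := le_self_pow₀ (by norm_num) n
  have p1 : R.wmin ^ Fintype.card ι ≤ ∏ i, R.w i := by
    rw [← Finset.card_univ, ← Finset.prod_const]
    exact Finset.prod_le_prod (fun _ _ => m1.le) fun i _ => R.wmin_le i
  have p2 : ∏ i, R.w i ≤ R.wmax ^ Fintype.card ι := by
    rw [← Finset.card_univ, ← Finset.prod_const]
    exact Finset.prod_le_prod (fun i _ => (h.pos i).le) fun i _ => R.le_wmax i
  have q1 := pow_pos m1 (Fintype.card ι)
  have q3 := pow_nonneg hL (Fintype.card ι)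
  refine ⟨fun a => ?_, fun a => ?_⟩
  · have : L ≤ 2 * R.wmax := by
      refine (pow_le_pow_iff_left₀ hL (by positivity) n).1 ?_
      rw [mul_pow]
      nlinarith only [v2, p1, p2, a, hf, q1, hf', t]
    linarith only [h.wmax_le, this]
  · have : R.wmin ≤ 2 * L := by
      refine (pow_le_pow_iff_left₀ m1.le (by positivity) n).1 ?_
      rw [mul_pow]
      nlinarith only [v1, p1, a, hf, q1, hf', t, q3]
    nlinarith only [h.wmax_le, this, hf, hf', hL, c7, c6, m1]

theorem Valid.phi_bd (hf : 0 < f) (hf' : f ≤ 1 / 16) {R : GB ι} (h : R.Valid f) :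
    0 ≤ R.phi f ∧ R.phi f ≤ 8 * Fintype.card ι := by
  obtain ⟨-, -, -, -, -, c6, c7, -⟩ := consts (ι := ι) hf hf'
  have n : (0 : ℝ) < Fintype.card ι := by exact_mod_cast Fintype.card_pos
  have m1 := h.wmin_pos
  have mp : 0 < Mp f := by linarith only [hf, hf', c6]
  have mx : 0 < Mx f := by linarith only [hf, hf', c6, c7]
  have a : ∀ i, 0 ≤ (∑ j, R.w j / R.w i) / (3 * Mx f * Fintype.card ι) ∧
      (∑ j, R.w j / R.w i) / (3 * Mx f * Fintype.card ι) ≤ 1 / 3 := fun i => by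
    refine ⟨div_nonneg (Finset.sum_nonneg fun j _ => (div_pos (h.pos j) (h.pos i)).le)
      (by positivity), (div_le_iff₀ (by positivity)).2 ?_⟩
    have := Finset.sum_le_card_nsmul Finset.univ (fun j => R.w j / R.w i) (Mx f)
      fun j _ => (div_le_iff₀ (h.pos i)).2 (h.asp j i)
    rw [Finset.card_univ, nsmul_eq_mul] at this
    linarith only [this]
  have b : ∀ i, 0 ≤ R.w i / (Mp f * R.wmin) ∧ R.w i / (Mp f * R.wmin) ≤ 5 := fun i =>
    ⟨(div_pos (h.pos i) (by positivity)).le, (div_le_iff₀ (by positivity)).2 (by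
      have := (R.le_wmax i).trans h.wmax_le
      rw [c7] at this
      linarith only [this])⟩
  refine ⟨Finset.sum_nonneg fun i _ => ?_,
    (Finset.sum_le_card_nsmul _ _ 8 fun i _ => ?_).trans (by simp [mul_comm])⟩ <;>
    split_ifs <;> linarith only [a i, b i, hf, hf']

theorem Fin.phi {R : GB ι} (h : R.Fin f) : R.phi f = 0 := by
  obtain ⟨j, e⟩ := R.exists_wmin
  refine Finset.sum_eq_zero fun i _ => ?_
  simp [(h.1 i).1, (h.1 i).2, ← e, h.2 i j]

theorem drop_bd (hf : 0 < f) (R : GB ι) : 0 ≤ R.drop f ∧ R.drop f ≤ drp ι f := by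
  have : 0 ≤ drp ι f := by
    unfold drp
    positivity
  unfold drop
  split_ifs <;> simp [this]

theorem Valid.th_o {R : GB ι} (h : R.Valid f) : R.th R.o = 0 := by
  ext i
  simp [th, h.ctr i]

theorem Valid.th_abs {R : GB ι} (h : R.Valid f) {z : E ι} (hz : z ∈ R.set) (i : ι) :
    |R.th z i| ≤ 1 ∧ (|R.th z i| = 1 ↔ z i = R.lo i z ∨ z i = R.hi i z) := by
  have p : 0 < R.hi i z - R.lo i z := (h.pos i).trans_le (h.wd z hz i).1
  rw [th, abs_div, abs_of_pos p, div_le_one p, div_eq_one_iff_eq p.ne', abs_eq p.le]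
  exact ⟨abs_le.2 ⟨by linarith only [(hz i).1], by linarith only [(hz i).2]⟩,
    ⟨fun a => a.symm.imp (fun b => by linarith only [b]) fun b => by linarith only [b],
      fun a => a.symm.imp (fun b => by linarith only [b]) fun b => by linarith only [b]⟩⟩

theorem Valid.th_norm {R : GB ι} (h : R.Valid f) {z : E ι} (hz : z ∈ R.set) : ‖R.th z‖ ≤ 1 :=
  (pi_norm_le_iff_of_nonneg zero_le_one).2 fun i => (h.th_abs hz i).1

theorem Valid.mem_bd {R : GB ι} (h : R.Valid f) {z : E ι} (hz : z ∈ R.set) :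
    z ∈ R.bd ↔ ∃ i, z i = R.lo i z ∨ z i = R.hi i z := by
  refine ⟨fun a => ?_, fun ⟨i, a⟩ => ⟨hz, le_antisymm (h.th_norm hz) ?_⟩⟩
  · by_contra b
    refine a.2.not_lt ((pi_norm_lt_iff one_pos).2 fun i => ?_)
    exact lt_of_le_of_ne (h.th_abs hz i).1 fun c => b ⟨i, (h.th_abs hz i).2.1 c⟩
  · exact ((h.th_abs hz i).2.2 a).ge.trans (norm_le_pi_norm (R.th z) i)

/-- Points of the region off the boundary are interior points. -/
theorem Valid.mem_interior {R : GB ι} (h : R.Valid f) {z : E ι} (hz : z ∈ R.set)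
    (hb : z ∉ R.bd) : R.set ∈ 𝓝 z := by
  rw [h.mem_bd hz, not_exists] at hb
  refine eventually_all.2 fun i => Eventually.and ?_ ?_
  · exact ((cont_of_lip (h.ll i)).continuousAt.eventually_lt (continuous_apply i).continuousAt
      (lt_of_le_of_ne (hz i).1 fun a => hb i (Or.inl a.symm))).mono fun _ => le_of_lt
  · exact ((continuous_apply i).continuousAt.eventually_lt (cont_of_lip (h.lh i)).continuousAt
      (lt_of_le_of_ne (hz i).2 fun a => hb i (Or.inr a))).mono fun _ => le_of_lt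

theorem exists_fix {g : ι → E ι → ℝ} {e : ℝ} (e0 : 0 ≤ e) (e1 : e ≤ 1 / 2)
    (h : ∀ i z z', |g i z - g i z'| ≤ e * dist z z') (z0 : E ι) :
    ∃ o : E ι, (∀ i, o i = g i o) ∧ dist o z0 ≤ 2 * dist z0 fun i => g i z0 := by
  have c : ContractingWith ⟨e, e0⟩ fun z i => g i z :=
    ⟨show e < 1 by linarith only [e1], LipschitzWith.of_dist_le_mul fun z z' =>
      (dist_pi_le_iff (mul_nonneg e0 dist_nonneg)).2 fun i => h i z z'⟩
  refine ⟨c.fixedPoint, fun i => (congrFun c.fixedPoint_isFixedPt i).symm, ?_⟩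
  rw [dist_comm]
  refine (c.dist_fixedPoint_le z0).trans ((div_le_iff₀ c.one_sub_K_pos).2 ?_)
  change _ ≤ _ * (1 - e)
  nlinarith only [dist_nonneg (x := z0) (y := fun i => g i z0), e1]

/-- In dimension one every graph box is rectangular. -/
theorem Valid.nontrivial (hf : 0 < f) (hf' : f ≤ 1 / 16) {R : GB ι} (h : R.Valid f)
    (hr : ¬R.Rect) : Nontrivial ι := by
  by_contra hn
  rw [not_nontrivial_iff_subsingleton] at hn
  have c0 := eps_le (ι := ι) hf hf'
  have c1 := (consts (ι := ι) hf hf').1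
  have d : ∀ (i : ι) (z z' : E ι), dist z z' ≤ |z i - z' i| := fun i z z' =>
    (dist_pi_le_iff (abs_nonneg _)).2 fun j => by rw [Subsingleton.elim j i, Real.dist_eq]
  have k : ∀ g : ι → E ι → ℝ, (∀ i z z', |g i z - g i z'| ≤ eps ι f * dist z z') → ∀ i,
      ∃ c, ∀ z : E ι, (g i z ≤ z i ↔ c ≤ z i) ∧ (z i ≤ g i z ↔ z i ≤ c) := fun g hg i => by
    obtain ⟨o, ho, -⟩ := exists_fix c1.le (by linarith only [c0, c1]) hg 0
    refine ⟨o i, fun z => ?_⟩
    have a := abs_le.1 ((hg i z o).trans (mul_le_mul c0 (d i z o) dist_nonneg (by norm_num)))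
    rw [← ho] at a
    cases abs_cases (z i - o i) <;> refine ⟨⟨fun b => ?_, fun b => ?_⟩, fun b => ?_, fun b => ?_⟩ <;>
      linarith
  exact hr fun i => ⟨(k _ h.ll i).imp fun c a z => (a z).1, (k _ h.lh i).imp fun c a z => (a z).2⟩

/-- A centre exists. -/
theorem exists_ctr (hf : 0 < f) (hf' : f ≤ 1 / 16) {lo hi : ι → E ι → ℝ}
    (ll : ∀ i z z', |lo i z - lo i z'| ≤ eps ι f * dist z z')
    (lh : ∀ i z z', |hi i z - hi i z'| ≤ eps ι f * dist z z') (z0 : E ι) {δ : ℝ}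
    (h0 : ∀ i, |2 * z0 i - lo i z0 - hi i z0| ≤ δ) :
    ∃ o : E ι, (∀ i, 2 * o i = lo i o + hi i o) ∧ dist o z0 ≤ δ := by
  obtain ⟨o, a, b⟩ := exists_fix (g := fun i z => (lo i z + hi i z) / 2)
    (consts (ι := ι) hf hf').1.le (by linarith only [eps_le (ι := ι) hf hf', hf, hf']) (fun i z z' => by
      have a := abs_le.1 (ll i z z')
      have b := abs_le.1 (lh i z z')
      exact abs_le.2 ⟨by linarith only [a, b], by linarith only [a, b]⟩) z0
  refine ⟨o, fun i => by linarith only [a i], b.trans ?_⟩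
  have d : 0 ≤ δ := (abs_nonneg _).trans (h0 (Classical.arbitrary ι))
  have : dist z0 (fun i => (lo i z0 + hi i z0) / 2) ≤ δ / 2 :=
    (dist_pi_le_iff (by linarith only [d])).2 fun i => by
      have c := abs_le.1 (h0 i)
      exact abs_le.2 ⟨by linarith only [c], by linarith only [c]⟩
  linarith only [this]

theorem map_inv {s : ℝ} (hs : 0 < s) (v z : E ι) : s⁻¹ • (s • z + v - v) = z := by
  rw [add_sub_cancel_right, smul_smul, inv_mul_cancel₀ hs.ne', one_smul]

theorem map_sur {s : ℝ} (hs : 0 < s) (v y : E ι) : ∃ z : E ι, s • z + v = y :=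
  ⟨s⁻¹ • (y - v), by rw [smul_smul, mul_inv_cancel₀ hs.ne', one_smul, sub_add_cancel]⟩

theorem map_lo (R : GB ι) {s : ℝ} (hs : 0 < s) (v z : E ι) (i : ι) :
    (R.map s v).lo i (s • z + v) = s * R.lo i z + v i := by
  simp only [GB.map, map_inv hs]

theorem map_hi (R : GB ι) {s : ℝ} (hs : 0 < s) (v z : E ι) (i : ι) :
    (R.map s v).hi i (s • z + v) = s * R.hi i z + v i := by
  simp only [GB.map, map_inv hs]

theorem map_le {s : ℝ} (hs : 0 < s) (a b c : ℝ) : s * a + c ≤ s * b + c ↔ a ≤ b := by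
  rw [add_le_add_iff_right, mul_le_mul_iff_right₀ hs]

theorem map_mem (R : GB ι) {s : ℝ} (hs : 0 < s) (v z : E ι) :
    s • z + v ∈ (R.map s v).set ↔ z ∈ R.set := by
  simp only [GB.set, mem_ofPred_eq, map_lo R hs, map_hi R hs, Pi.add_apply, Pi.smul_apply,
    smul_eq_mul, map_le hs]

theorem map_set (R : GB ι) {s : ℝ} (hs : 0 < s) (v : E ι) :
    (R.map s v).set = (fun z => s • z + v) '' R.set := by
  ext y
  obtain ⟨z, rfl⟩ := map_sur hs v y
  rw [map_mem R hs]
  refine ⟨fun a => ⟨z, a, rfl⟩, fun ⟨z', a, b⟩ => ?_⟩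
  rwa [← smul_right_injective _ hs.ne' (add_right_cancel b)]

theorem map_th (R : GB ι) {s : ℝ} (hs : 0 < s) (v z : E ι) :
    (R.map s v).th (s • z + v) = R.th z := by
  ext i
  simp only [th, map_lo R hs, map_hi R hs, Pi.add_apply, Pi.smul_apply, smul_eq_mul]
  rw [← mul_div_mul_left (2 * z i - _ - _) _ hs.ne']
  congr 1 <;> ring

theorem Valid.map {R : GB ι} (h : R.Valid f) {s : ℝ} (hs : 0 < s) (v : E ι) :
    (R.map s v).Valid f := by
  have k : ∀ g : E ι → ℝ, (∀ z z', |g z - g z'| ≤ eps ι f * dist z z') → ∀ c z z',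
      |s * g z + c - (s * g z' + c)| ≤ eps ι f * dist (s • z + v) (s • z' + v) := fun g a c z z' => by
    rw [dist_add_right, dist_smul₀, Real.norm_of_nonneg hs.le, add_sub_add_right_eq_sub, ← mul_sub,
      abs_mul, abs_of_pos hs, mul_left_comm]
    exact mul_le_mul_of_nonneg_left (a z z') hs.le
  refine ⟨fun i y y' => ?_, fun i y y' => ?_, fun i => mul_pos hs (h.pos i), fun y hy i => ?_,
    fun i => ?_, (map_mem R hs v _).2 h.om, fun i j => ?_⟩
  · obtain ⟨z, rfl⟩ := map_sur hs v y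
    obtain ⟨z', rfl⟩ := map_sur hs v y'
    rw [map_lo R hs, map_lo R hs]
    exact k _ (h.ll i) _ _ _
  · obtain ⟨z, rfl⟩ := map_sur hs v y
    obtain ⟨z', rfl⟩ := map_sur hs v y'
    rw [map_hi R hs, map_hi R hs]
    exact k _ (h.lh i) _ _ _
  · obtain ⟨z, rfl⟩ := map_sur hs v y
    have a := h.wd z ((map_mem R hs v z).1 hy) i
    rw [map_lo R hs, map_hi R hs]
    change s * R.w i ≤ _ ∧ _ ≤ _ * (s * R.w i)
    constructor <;> nlinarith only [a.1, a.2, hs, a]
  · change 2 * (s * R.o i + v i) = (R.map s v).lo i (s • R.o + v) + (R.map s v).hi i (s • R.o + v)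
    rw [map_lo R hs, map_hi R hs]
    linear_combination s * h.ctr i
  · change s * R.w i ≤ Mx f * (s * R.w j)
    nlinarith only [h.asp i j, hs]

open scoped Pointwise in
theorem vol_aff (A : Set (E ι)) {s : ℝ} (hs : 0 < s) (v : E ι) :
    volume ((fun z => s • z + v) '' A) = ENNReal.ofReal (s ^ Fintype.card ι) * volume A := by
  have e : (fun z => s • z + v) '' A = (fun z => z + v) '' (s • A) := by
    rw [← image_smul, image_image]
  rw [e, image_add_right, measure_preimage_add_right, Measure.addHaar_smul_of_nonneg _ hs.le,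
    Module.finrank_fintype_fun_eq_card]

theorem map_vol (R : GB ι) {s : ℝ} (hs : 0 < s) (v : E ι) :
    (R.map s v).vol = s ^ Fintype.card ι * R.vol := by
  rw [vol, map_set R hs, vol_aff _ hs, ENNReal.toReal_mul, ENNReal.toReal_ofReal (by positivity),
    vol]

theorem map_flatL (R : GB ι) {s : ℝ} (hs : 0 < s) (v : E ι) (i : ι) :
    (R.map s v).FlatL i ↔ R.FlatL i := by
  refine ⟨fun ⟨c, a⟩ => ⟨(c - v i) / s, fun z => ?_⟩, fun ⟨c, a⟩ => ⟨s * c + v i, fun y => ?_⟩⟩
  · have := a (s • z + v)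
    rw [map_lo R hs, Pi.add_apply, Pi.smul_apply, smul_eq_mul, map_le hs] at this
    rw [this, div_le_iff₀ hs, sub_le_iff_le_add, mul_comm]
  · obtain ⟨z, rfl⟩ := map_sur hs v y
    rw [map_lo R hs, Pi.add_apply, Pi.smul_apply, smul_eq_mul, map_le hs, map_le hs, a]

theorem map_flatH (R : GB ι) {s : ℝ} (hs : 0 < s) (v : E ι) (i : ι) :
    (R.map s v).FlatH i ↔ R.FlatH i := by
  refine ⟨fun ⟨c, a⟩ => ⟨(c - v i) / s, fun z => ?_⟩, fun ⟨c, a⟩ => ⟨s * c + v i, fun y => ?_⟩⟩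
  · have := a (s • z + v)
    rw [map_hi R hs, Pi.add_apply, Pi.smul_apply, smul_eq_mul, map_le hs] at this
    rw [this, le_div_iff₀ hs, le_sub_iff_add_le, mul_comm]
  · obtain ⟨z, rfl⟩ := map_sur hs v y
    rw [map_hi R hs, Pi.add_apply, Pi.smul_apply, smul_eq_mul, map_le hs, map_le hs, a]

theorem map_w (R : GB ι) (s : ℝ) (v : E ι) (i : ι) : (R.map s v).w i = s * R.w i := rfl

theorem map_wmin' (R : GB ι) {s : ℝ} (hs : 0 < s) (v : E ι) : (R.map s v).wmin = s * R.wmin :=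
  (Real.mul_iInf_of_nonneg hs.le _).symm

theorem map_phi (R : GB ι) {s : ℝ} (hs : 0 < s) (v : E ι) : (R.map s v).phi f = R.phi f := by
  classical
  simp only [phi, map_flatL R hs, map_flatH R hs, map_wmin' R hs, map_w, mul_left_comm (Mp f) s,
    mul_div_mul_left _ _ hs.ne', mul_lt_mul_iff_right₀ hs]

theorem map_fin (R : GB ι) {s : ℝ} (hs : 0 < s) (v : E ι) : (R.map s v).Fin f ↔ R.Fin f := by
  simp only [GB.Fin, Rect, map_flatL R hs, map_flatH R hs, map_w, mul_left_comm (Mp f) s,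
    mul_le_mul_iff_right₀ hs]

theorem map_wmin (R : GB ι) {s : ℝ} (hs : 0 < s) (v : E ι) :
    (R.map s v).wmin = s * R.wmin ∧ (R.map s v).wmax = s * R.wmax :=
  ⟨map_wmin' R hs v, (Real.mul_iSup_of_nonneg hs.le _).symm⟩

theorem hom_o (R : GB ι) (s : ℝ) : (R.hom s).o = R.o := by
  change s • R.o + (1 - s) • R.o = R.o
  rw [← add_smul, add_sub_cancel, one_smul]

theorem hom_one (R : GB ι) : R.hom 1 = R := by
  simp [hom, GB.map]

theorem hom_eq (R : GB ι) {s : ℝ} (hs : 0 < s) (z : E ι) :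
    s • (R.o + s⁻¹ • (z - R.o)) + (1 - s) • R.o = z := by
  rw [smul_add, smul_smul, mul_inv_cancel₀ hs.ne']
  module

theorem hom_th (R : GB ι) {s : ℝ} (hs : 0 < s) (z : E ι) :
    (R.hom s).th z = R.th (R.o + s⁻¹ • (z - R.o)) := by
  rw [← map_th R hs ((1 - s) • R.o), hom_eq R hs, hom]

theorem hom_mem (R : GB ι) {s : ℝ} (hs : 0 < s) (z : E ι) :
    z ∈ (R.hom s).set ↔ R.o + s⁻¹ • (z - R.o) ∈ R.set := by
  rw [← map_mem R hs ((1 - s) • R.o), hom_eq R hs, hom]

/-- The graph box seen through a signed permutation with inverse `O'`. -/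
noncomputable def spx (R : GB ι) (p : Equiv.Perm ι) (s : ι → ℝ) (O' : E ι → E ι) : GB ι :=
  ⟨fun i z => if s i = 1 then R.lo (p i) (O' z) else -R.hi (p i) (O' z),
    fun i z => if s i = 1 then R.hi (p i) (O' z) else -R.lo (p i) (O' z),
    fun i => R.w (p i), fun i => s i * R.o (p i)⟩

/-- The image under a signed permutation. -/
theorem Valid.sp {R : GB ι} (h : R.Valid f) {O : E ι → E ι} (hO : IsSP O) :
    ∃ R' : GB ι, R'.Valid f ∧ R'.set = O '' R.set ∧ (∀ z, R'.th (O z) = O (R.th z)) ∧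
      R'.phi f = R.phi f ∧ R'.vol = R.vol ∧ (R'.Fin f ↔ R.Fin f) ∧ R'.wmin = R.wmin ∧
      R'.wmax = R.wmax ∧ (∀ i j s, (s = 1 ∨ s = -1) → (∀ x, O x j = s * x i) → R'.w j = R.w i) ∧
      ∀ Q : Bx ι, R = Q.gb → ∃ Q' : Bx ι, R' = Q'.gb := by
  classical
  obtain ⟨O', -, i1, i2⟩ := hO.inv
  obtain ⟨p, s, hs, e⟩ := id hO
  have n1 : (-1 : ℝ) ≠ 1 := by norm_num
  have sur : ∀ y, ∃ z, O z = y := fun y => ⟨_, i2 y⟩
  have eo : (R.spx p s O').o = O R.o := funext fun i => (e _ i).symm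
  have lo : ∀ i z, (R.spx p s O').lo i (O z) = if s i = 1 then R.lo (p i) z else -R.hi (p i) z :=
    fun i z => by simp only [spx, i1]
  have hi : ∀ i z, (R.spx p s O').hi i (O z) = if s i = 1 then R.hi (p i) z else -R.lo (p i) z :=
    fun i z => by simp only [spx, i1]
  have w : ∀ i, (R.spx p s O').w i = R.w (p i) := fun _ => rfl
  have mem : ∀ z, O z ∈ (R.spx p s O').set ↔ z ∈ R.set := fun z => by
    simp only [GB.set, mem_ofPred_eq, lo, hi, e]
    rw [← p.forall_congr_right (q := fun i => R.lo i z ≤ z i ∧ z i ≤ R.hi i z)]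
    refine forall_congr' fun i => ?_
    rcases hs i with a | a <;> simp [a, n1, and_comm]
  have st : (R.spx p s O').set = O '' R.set := by
    ext y
    obtain ⟨z, rfl⟩ := sur y
    rw [mem, (Function.LeftInverse.injective i1).mem_set_image]
  have fl : ∀ i, (R.spx p s O').FlatL i ↔ if s i = 1 then R.FlatL (p i) else R.FlatH (p i) :=
    fun i => by
      refine (exists_congr fun c => (Function.RightInverse.surjective i2).forall).trans ?_
      simp only [FlatL, FlatH, lo, e]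
      rcases hs i with a | a <;> simp only [a, n1, if_true, if_false, one_mul, neg_one_mul]
      refine ⟨fun ⟨c, b⟩ => ⟨-c, fun z => ?_⟩, fun ⟨c, b⟩ => ⟨-c, fun z => ?_⟩⟩
      · rw [← neg_le_neg_iff, b, le_neg]
      · rw [neg_le_neg_iff, b, neg_le_neg_iff]
  have fh : ∀ i, (R.spx p s O').FlatH i ↔ if s i = 1 then R.FlatH (p i) else R.FlatL (p i) :=
    fun i => by
      refine (exists_congr fun c => (Function.RightInverse.surjective i2).forall).trans ?_
      simp only [FlatL, FlatH, hi, e]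
      rcases hs i with a | a <;> simp only [a, n1, if_true, if_false, one_mul, neg_one_mul]
      refine ⟨fun ⟨c, b⟩ => ⟨-c, fun z => ?_⟩, fun ⟨c, b⟩ => ⟨-c, fun z => ?_⟩⟩
      · rw [← neg_le_neg_iff, b, neg_le]
      · rw [neg_le_neg_iff, b, neg_le_neg_iff]
  have m1 : (R.spx p s O').wmin = R.wmin := p.iInf_comp (g := R.w)
  have m2 : (R.spx p s O').wmax = R.wmax := p.iSup_comp (g := R.w)
  refine ⟨R.spx p s O', ⟨fun i y y' => ?_, fun i y y' => ?_, fun i => h.pos _, fun y hy i => ?_,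
    fun i => ?_, eo ▸ (mem _).2 h.om, fun i j => h.asp _ _⟩, st, fun z => ?_, ?_,
    by rw [vol, st, hO.volume, vol], ?_, m1, m2, fun i j t ht a => ?_, fun Q hQ => ?_⟩
  · obtain ⟨z, rfl⟩ := sur y
    obtain ⟨z', rfl⟩ := sur y'
    rw [lo, lo, hO.dist]
    split_ifs
    exacts [h.ll _ _ _, by rw [neg_sub_neg, dist_comm]; exact h.lh _ _ _]
  · obtain ⟨z, rfl⟩ := sur y
    obtain ⟨z', rfl⟩ := sur y'
    rw [hi, hi, hO.dist]
    split_ifs
    exacts [h.lh _ _ _, by rw [neg_sub_neg, dist_comm]; exact h.ll _ _ _]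
  · obtain ⟨z, rfl⟩ := sur y
    have a := h.wd z ((mem z).1 hy) (p i)
    rw [lo, hi, w]
    split_ifs
    exacts [a, by rwa [neg_sub_neg]]
  · rw [eo, lo, hi, e]
    rcases hs i with a | a <;> simp only [a, n1, if_true, if_false] <;> linarith only [h.ctr (p i)]
  · ext i
    simp only [th, lo, hi, e]
    rcases hs i with a | a <;> simp only [a, n1, if_true, if_false] <;> ring
  · simp only [phi, fl, fh, w, m1]
    refine Fintype.sum_equiv p _ _ fun i => ?_
    rw [Equiv.sum_comp p fun j => R.w j / R.w (p i)]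
    rcases hs i with a | a <;> simp only [a, n1, if_true, if_false, add_comm]
  · simp only [GB.Fin, Rect, fl, fh, w]
    refine and_congr ?_ ⟨fun a i j => by simpa using a (p.symm i) (p.symm j), fun a i j => a _ _⟩
    rw [← p.forall_congr_right (q := fun i => R.FlatL i ∧ R.FlatH i)]
    refine forall_congr' fun i => ?_
    rcases hs i with a | a <;> simp only [a, n1, if_true, if_false, and_comm]
  · have b := e (Pi.single i 1) j
    rw [a, Pi.single_eq_same] at b
    by_cases c : p j = i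
    · rw [w, c]
    · rw [Pi.single_eq_of_ne c, mul_zero] at b
      rcases ht with d | d <;> simp [d] at b
  · refine ⟨⟨fun i => if s i = 1 then Q.lo (p i) else -Q.hi (p i),
      fun i => if s i = 1 then Q.hi (p i) else -Q.lo (p i)⟩, ?_⟩
    simp only [hQ, spx, Bx.gb, GB.mk.injEq, true_and]
    constructor <;> ext i <;> rcases hs i with a | a <;>
      simp only [Bx.sd, Bx.mid, a, n1, if_true, if_false] <;> ring

theorem flat_eq {g : E ι → ℝ} {e c : ℝ} {i : ι} (e1 : e ≤ 1 / 2)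
    (h : ∀ z z', |g z - g z'| ≤ e * dist z z') (hc : ∀ z : E ι, g z ≤ z i ↔ c ≤ z i) (z : E ι) :
    z i = g z ↔ z i = c := by
  have k : ∀ t, t ≤ z i → |g z - g (Function.update z i t)| ≤ (z i - t) / 2 := fun t ht => by
    have d : dist z (Function.update z i t) ≤ z i - t :=
      (dist_pi_le_iff (by linarith only [ht])).2 fun j => by
        by_cases a : j = i
        · rw [a, Function.update_self, Real.dist_eq, abs_of_nonneg (by linarith only [ht])]
        · simp [a, ht]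
    exact (h _ _).trans ((mul_le_mul e1 d dist_nonneg (by norm_num)).trans_eq (by ring))
  refine ⟨fun a => ?_, fun a => ?_⟩
  · have b := (hc z).1 a.ge
    have d := (hc (Function.update z i c)).2 (by simp)
    rw [Function.update_self] at d
    linarith only [(abs_le.1 (k c b)).2, b, a, d]
  · have b := (hc z).2 a.ge
    have d := (hc (Function.update z i ((z i + g z) / 2))).1
    rw [Function.update_self] at d
    linarith only [d (by linarith only [(abs_le.1 (k ((z i + g z) / 2) (by linarith only [b]))).1, b]), b, a]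

/-- A rectangular graph box is a box. -/
theorem Valid.rect_box (hf : 0 < f) (hf' : f ≤ 1 / 16) {R : GB ι} (h : R.Valid f) (hr : R.Rect) :
    ∃ Q : Bx ι, Q.Pos ∧ Q.set = R.set ∧ (∀ i, (1 - epw ι f) * R.w i ≤ Q.sd i ∧
      Q.sd i ≤ (1 + 2 * epw ι f) * R.w i) ∧
      ∀ z ∈ R.set, ∀ i, (z i = R.lo i z ↔ z i = Q.lo i) ∧ (z i = R.hi i z ↔ z i = Q.hi i) := by
  obtain ⟨-, c2, c3, -⟩ := consts (ι := ι) hf hf'
  have c0 : eps ι f ≤ 1 / 2 := by linarith only [eps_le (ι := ι) hf hf', c2, c3, hf, hf']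
  choose a ha using fun i => (hr i).1
  choose b hb using fun i => (hr i).2
  have m : ∀ z, z ∈ R.set ↔ ∀ i, a i ≤ z i ∧ z i ≤ b i := fun z =>
    forall_congr' fun i => and_congr (ha i z) (hb i z)
  have p : ∀ i, 0 < (1 - epw ι f) * R.w i := fun i => mul_pos (by linarith only [c2, c3]) (h.pos i)
  have l : ∀ i, (1 - epw ι f) * R.w i ≤ b i - a i := fun i => by
    have u := (m _).1 (h.inner hf hf' (z := fun i => R.o i + (1 - epw ι f) * R.w i / 2) fun i => by
      rw [add_sub_cancel_left, abs_of_pos (half_pos (p i))]) i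
    have v := (m _).1 (h.inner hf hf' (z := fun i => R.o i - (1 - epw ι f) * R.w i / 2) fun i => by
      rw [sub_sub_cancel_left, abs_neg, abs_of_pos (half_pos (p i))]) i
    linarith only [u.2, v.1, u, v]
  have q : ∀ i, a i < b i := fun i => by linarith only [l i, p i]
  refine ⟨⟨a, b⟩, q, ?_, fun i => ⟨l i, ?_⟩, fun z _ i => ⟨flat_eq c0 (h.ll i) (ha i) z, ?_⟩⟩
  · ext z
    simp only [m, Bx.set, mem_Icc, Pi.le_def, forall_and]
  · have u := abs_le.1 (h.outer hf hf' ((m a).2 fun i => ⟨le_rfl, (q i).le⟩) i)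
    have v := abs_le.1 (h.outer hf hf' ((m b).2 fun i => ⟨(q i).le, le_rfl⟩) i)
    change b i - a i ≤ _
    linarith only [u, v]
  · have := flat_eq (g := fun z => -R.hi i (-z)) (c := -b i) (i := i) c0
      (fun z z' => by rw [neg_sub_neg, ← dist_neg_neg, dist_comm]; exact h.lh i _ _)
      (fun z => by rw [neg_le, neg_le (a := b i)]; exact hb i (-z)) (-z)
    simpa using this

end GB

theorem Bx.gb_set (Q : Bx ι) : Q.gb.set = Q.set := by
  ext z
  simp only [GB.set, Bx.gb, Bx.set, mem_ofPred_eq, mem_Icc, Pi.le_def, forall_and]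

theorem Bx.gb_th (Q : Bx ι) : Q.gb.th = Q.nm :=
  rfl

theorem Bx.gb_vol {Q : Bx ι} (h : Q.Pos) : Q.gb.vol = Q.vol := by
  rw [GB.vol, Bx.gb_set]
  exact Real.volume_Icc_pi_toReal fun i => (h i).le

theorem Bx.gb_rect (Q : Bx ι) : Q.gb.Rect :=
  fun i =>
  ⟨⟨Q.lo i, fun _ => Iff.rfl⟩, ⟨Q.hi i, fun _ => Iff.rfl⟩⟩

theorem Bx.gb_valid (hf : 0 < f) {Q : Bx ι} (h : Q.Pos) (ha : ∀ i j, Q.sd i ≤ Mx f * Q.sd j) :
    Q.gb.Valid f := by
  have a : 0 ≤ eps ι f := by
    unfold eps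
    positivity
  have b : 0 ≤ epw ι f := by
    unfold epw
    positivity
  refine ⟨fun i z z' => ?_, fun i z z' => ?_, fun i => sub_pos.2 (h i), fun z _ i => ⟨le_rfl, ?_⟩,
    fun i => ?_, fun i => ?_, ha⟩ <;> simp only [Bx.gb, Bx.sd, Bx.mid, sub_self, abs_zero]
  · positivity
  · positivity
  · nlinarith only [h i, b]
  · ring
  · constructor <;> linarith only [h i]

theorem Bx.gb_map (Q : Bx ι) {s : ℝ} (hs : 0 < s) (v : E ι) :
    Q.gb.map s v = (⟨s • Q.lo + v, s • Q.hi + v⟩ : Bx ι).gb := by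
  simp only [GB.map, Bx.gb, GB.mk.injEq]
  refine ⟨rfl, rfl, ?_, ?_⟩ <;> ext i <;> simp [Bx.sd, Bx.mid] <;> ring

/-- The cube with given centre and side. -/
noncomputable def cubeC (o : E ι) (l : ℝ) : Bx ι := ⟨fun i => o i - l / 2, fun i => o i + l / 2⟩

theorem cubeC_valid (hf : 0 < f) (hf' : f ≤ 1 / 16) (o : E ι) {l : ℝ} (hl : 0 < l) :
    (cubeC o l).Pos ∧ (cubeC o l).gb.Valid f ∧ (cubeC o l).gb.Fin f ∧
      (cubeC o l).gb.vol = l ^ Fintype.card ι ∧ (cubeC o l).gb.wmin = l ∧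
      (cubeC o l).gb.wmax = l ∧ (cubeC o l).set = closedBall o (l / 2) ∧
      (∀ i, (cubeC o l).sd i = l) ∧ (cubeC o l).mid = o := by
  obtain ⟨-, -, -, -, -, c6, c7, -⟩ := consts (ι := ι) hf hf'
  have s : ∀ i, (cubeC o l).sd i = l := fun i => by simp [cubeC, Bx.sd]
  have p : (cubeC o l).Pos := fun i => sub_pos.1 ((s i).symm ▸ hl : 0 < (cubeC o l).sd i)
  refine ⟨p, Bx.gb_valid hf p fun i j => by rw [s, s]; nlinarith only [hf, hl, hf', c6, c7],
    ⟨Bx.gb_rect _, fun i j => by simp only [Bx.gb, s]; nlinarith only [hf, hl, hf', c6]⟩,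
    by simp [Bx.gb_vol p, Bx.vol, s], by simp [GB.wmin, Bx.gb, s], by simp [GB.wmax, Bx.gb, s],
    ?_, s, ?_⟩
  · simp only [closedBall_pi o (half_pos hl).le, Real.closedBall_eq_Icc, pi_univ_Icc]
    rfl
  · ext i
    simp [Bx.mid, cubeC]

end Pool.Agent.Lib.MP_ecd4e3_gt.N
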