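import Pool.Agent.Lib.MP_ecd4e3_gt.N.Defs

/-! Collars. -/

namespace Pool.Agent.Lib.MP_ecd4e3_gt.N

open Set Filter Topology Metric MeasureTheory
open scoped NNReal ENNReal

variable {ι : Type} [Fintype ι] [DecidableEq ι]

/-- The point at parameter `t` on the ray from `m` to `x`. -/
def col_ray (m x : E ι) (t : ℝ) : E ι := m + t • (x - m)

omit [DecidableEq ι] in
theorem col_nm_mem {Q : Bx ι} (hQ : Q.Pos) (x : E ι) : x ∈ Q.set ↔ ‖Q.nm x‖ ≤ 1 := by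
  rw [pi_norm_le_iff_of_nonneg zero_le_one]
  simp only [Bx.set, mem_Icc, Pi.le_def, ← forall_and]
  refine forall_congr' fun i => ?_
  have h : 0 < Q.sd i := sub_pos.2 (hQ i)
  rw [Real.norm_eq_abs, abs_le, Bx.nm, le_div_iff₀ h, div_le_iff₀ h, Bx.sd]
  constructor <;> rintro ⟨h1, h2⟩ <;> constructor <;> linarith only [h1, h2]

omit [DecidableEq ι] in
theorem col_nm_bd {Q : Bx ι} (hQ : Q.Pos) (x : E ι) : x ∈ Q.bd ↔ ‖Q.nm x‖ = 1 := by
  have key : ∀ i, |Q.nm x i| = 1 ↔ x i = Q.lo i ∨ x i = Q.hi i := fun i => by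
    have h : Q.sd i ≠ 0 := (sub_pos.2 (hQ i)).ne'
    rw [abs_eq zero_le_one, Bx.nm, div_eq_iff h, div_eq_iff h, Bx.sd, or_comm]
    refine or_congr ?_ ?_ <;> constructor <;> intro h <;> linarith only [h]
  constructor
  · rintro ⟨h, i, hi⟩
    refine le_antisymm ((col_nm_mem hQ x).1 h) ?_
    rw [← (key i).2 hi]
    exact norm_le_pi_norm (Q.nm x) i
  · intro h
    refine ⟨(col_nm_mem hQ x).2 h.le, ?_⟩
    by_contra hn
    refine h.not_lt ((pi_norm_lt_iff one_pos).2 fun i => lt_of_le_of_ne ?_ fun e => ?_)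
    · exact h ▸ norm_le_pi_norm (Q.nm x) i
    · exact hn ⟨i, (key i).1 e⟩

omit [Fintype ι] [DecidableEq ι] in
theorem col_nm_ray (Q : Bx ι) (x : E ι) (t : ℝ) : Q.nm (col_ray Q.mid x t) = t • Q.nm x := by
  funext i
  simp only [Bx.nm, col_ray, Bx.mid, Pi.add_apply, Pi.smul_apply, Pi.sub_apply, smul_eq_mul]
  ring

omit [DecidableEq ι] in
theorem col_nm_lip (Q : Bx ι) : ∃ L, 0 ≤ L ∧ ∀ x y, |‖Q.nm x‖ - ‖Q.nm y‖| ≤ L * ‖x - y‖ := by
  refine ⟨‖fun i => 2 / Q.sd i‖, norm_nonneg _, fun x y => (abs_norm_sub_norm_le _ _).trans ?_⟩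
  have : Q.nm x - Q.nm y = (fun i => 2 / Q.sd i) * (x - y) := by
    funext i
    simp only [Bx.nm, Pi.sub_apply, Pi.mul_apply]
    ring
  rw [this]
  exact norm_mul_le _ _

omit [DecidableEq ι] in
theorem col_nm_zero {Q : Bx ι} (hQ : Q.Pos) {x : E ι} (h : ‖Q.nm x‖ = 0) : x = Q.mid := by
  funext i
  have h1 : Q.nm x i = 0 := congrFun (norm_eq_zero.1 h) i
  rw [Bx.nm, Bx.sd, div_eq_iff (sub_pos.2 (hQ i)).ne'] at h1
  rw [Bx.mid]
  linarith only [h1]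

omit [Fintype ι] [DecidableEq ι] in
theorem col_ray_ray (m x : E ι) (s t : ℝ) : col_ray m (col_ray m x s) t = col_ray m x (t * s) := by
  simp only [col_ray, add_sub_cancel_left, smul_smul]

omit [Fintype ι] [DecidableEq ι] in
theorem col_ray_one (m x : E ι) : col_ray m x 1 = x := by
  simp only [col_ray, one_smul, add_sub_cancel]

theorem col_cut_lip (a b : ℝ) : |cl 0 1 (8 * a - 6) - cl 0 1 (8 * b - 6)| ≤ 8 * |a - b| := by
  have h1 := abs_max_sub_max_le_abs (min 1 (8 * a - 6)) (min 1 (8 * b - 6)) 0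
  have h2 := abs_min_sub_min_le_max 1 (8 * a - 6) 1 (8 * b - 6)
  have h3 : |8 * a - 6 - (8 * b - 6)| = 8 * |a - b| := by
    rw [show 8 * a - 6 - (8 * b - 6) = 8 * (a - b) by ring, abs_mul]
    norm_num
  rw [sub_self, abs_zero, h3, max_eq_right (by positivity)] at h2
  rw [cl, cl, max_comm 0, max_comm 0]
  exact h1.trans h2

omit [DecidableEq ι] in
/-- A small Lipschitz speed function. -/
theorem col_speed {Q : Bx ι} {d : E ι → ℝ} (d0 : ∀ x, 0 ≤ d x)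
    (dl : ∀ x y, |d x - d y| ≤ ‖x - y‖) {κ : ℝ} (hκ : 0 < κ) :
    ∃ (k : E ι → ℝ) (h R c : ℝ), 0 ≤ R ∧ 0 ≤ c ∧ h + c * R + h * R ≤ κ ∧
      (∀ x ∈ Q.set, ‖x - Q.mid‖ ≤ R) ∧ (∀ x, 0 ≤ k x ∧ k x ≤ h ∧ k x ≤ h * d x) ∧
      (∀ x y, |k x - k y| ≤ c * ‖x - y‖) ∧ (∀ x, ‖Q.nm x‖ ≤ 3 / 4 → k x = 0) ∧
      ∀ x, ‖Q.nm x‖ = 1 → 0 < d x → 0 < k x := by
  obtain ⟨L, hL, hN⟩ := col_nm_lip Q
  obtain ⟨R, hR0, hR⟩ := (isCompact_Icc (a := Q.lo) (b := Q.hi)).isBounded.subset_closedBall_lt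
    0 Q.mid
  have hM : 0 < 1 + (1 + 8 * L) * R + R := by positivity
  obtain ⟨h, hh⟩ : ∃ h, h = κ / (1 + (1 + 8 * L) * R + R) := ⟨_, rfl⟩
  have h0 : 0 < h := hh ▸ div_pos hκ hM
  have c0 : ∀ a, 0 ≤ cl 0 1 a := fun a => le_max_left _ _
  have c1 : ∀ a, cl 0 1 a ≤ 1 := fun a => max_le zero_le_one (min_le_left _ _)
  have m0 : ∀ x, 0 ≤ min 1 (d x) := fun x => le_min zero_le_one (d0 x)
  refine ⟨fun x => h * (min 1 (d x) * cl 0 1 (8 * ‖Q.nm x‖ - 6)), h, R, h * (1 + 8 * L), hR0.le,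
    by positivity, ?_, fun x hx => mem_closedBall_iff_norm.1 (hR hx), fun x => ⟨?_, ?_, ?_⟩,
    fun x y => ?_, fun x hx => ?_, fun x hx hd => ?_⟩
  · rw [eq_div_iff hM.ne'] at hh
    linarith only [hh]
  · exact mul_nonneg h0.le (mul_nonneg (m0 x) (c0 _))
  · exact mul_le_of_le_one_right h0.le (mul_le_one₀ (min_le_left _ _) (c0 _) (c1 _))
  · exact mul_le_mul_of_nonneg_left
      ((mul_le_of_le_one_right (m0 x) (c1 _)).trans (min_le_right _ _)) h0.le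
  · rw [← mul_sub, abs_mul, abs_of_pos h0, mul_assoc]
    refine mul_le_mul_of_nonneg_left ?_ h0.le
    have a1 : |min 1 (d x) - min 1 (d y)| ≤ ‖x - y‖ := by
      have h2 := abs_min_sub_min_le_max 1 (d x) 1 (d y)
      rw [sub_self, abs_zero, max_eq_right (abs_nonneg _)] at h2
      exact h2.trans (dl x y)
    have a2 := (col_cut_lip ‖Q.nm x‖ ‖Q.nm y‖).trans
      (mul_le_mul_of_nonneg_left (hN x y) (by norm_num))
    calc _ = |(min 1 (d x) - min 1 (d y)) * cl 0 1 (8 * ‖Q.nm x‖ - 6) + min 1 (d y) *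
          (cl 0 1 (8 * ‖Q.nm x‖ - 6) - cl 0 1 (8 * ‖Q.nm y‖ - 6))| := by congr 1; ring
      _ ≤ ‖x - y‖ * 1 + 1 * (8 * (L * ‖x - y‖)) := by
          refine (abs_add_le _ _).trans (add_le_add ?_ ?_) <;> rw [abs_mul]
          · exact mul_le_mul a1 ((abs_of_nonneg (c0 _)).trans_le (c1 _)) (abs_nonneg _)
              (norm_nonneg _)
          · exact mul_le_mul ((abs_of_nonneg (m0 y)).trans_le (min_le_left _ _)) a2
              (abs_nonneg _) zero_le_one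
      _ = _ := by ring
  · have : cl 0 1 (8 * ‖Q.nm x‖ - 6) = 0 :=
      max_eq_left ((min_le_right _ _).trans (by linarith only [hx]))
    simp only [this, mul_zero]
  · have : cl 0 1 (8 * ‖Q.nm x‖ - 6) = 1 := by
      rw [hx, cl]
      norm_num
    simp only [this, mul_one]
    exact mul_pos h0 (lt_min one_pos hd)

omit [DecidableEq ι] in
/-- The radial deformation of a box. -/
theorem col_model {Q : Bx ι} (hQ : Q.Pos) {d : E ι → ℝ} (d0 : ∀ x, 0 ≤ d x)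
    (dl : ∀ x y, |d x - d y| ≤ ‖x - y‖) {κ : ℝ} (hκ : 0 < κ) (hκ1 : κ < 1) :
    ∃ τ : ℝ → E ι → E ι, (∀ x, τ 0 x = x) ∧ (∀ s x, ‖Q.nm x‖ ≤ 3 / 4 → τ s x = x) ∧
      (∀ s ∈ Icc (0 : ℝ) 1, ∀ x ∈ Q.set, τ s x ∈ Q.set ∧ ‖τ s x - x‖ ≤ κ * d x) ∧
      (∀ s ∈ Icc (0 : ℝ) 1, ∀ x ∈ Q.set, ∀ s' ∈ Icc (0 : ℝ) 1, ∀ x' ∈ Q.set,
        ‖τ s' x' - τ s x - (x' - x)‖ ≤ κ * ‖x' - x‖ + κ * |s' - s|) ∧
      (∀ s s', 0 ≤ s → s < s' → s' ≤ 1 → ∀ x ∈ Q.bd, 0 < d x → ∀ x' ∈ Q.set, τ s x ≠ τ s' x') ∧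
      (∀ x ∈ Q.set, (∃ x' ∈ Q.set, τ 1 x' = x) ∨ ∃ s ∈ Ico (0 : ℝ) 1, ∃ x' ∈ Q.bd, τ s x' = x) ∧
      ∀ s s', 0 ≤ s → s ≤ s' → s' ≤ 1 → ∀ x ∈ Q.set, ∃ x' ∈ Q.set, τ s x' = τ s' x := by
  obtain ⟨k, h, R, c, hR, hc, hs, hb, hk, hl, hz, hp⟩ := col_speed (Q := Q) d0 dl hκ
  have h0 : 0 ≤ h := (hk 0).1.trans (hk 0).2.1
  have cR := mul_nonneg hc hR
  have hR' := mul_nonneg h0 hR
  have sk : ∀ s ∈ Icc (0 : ℝ) 1, ∀ x, 0 ≤ s * k x ∧ s * k x ≤ k x := fun s hs x =>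
    ⟨mul_nonneg hs.1 (hk x).1, mul_le_of_le_one_left (hk x).1 hs.2⟩
  have mem : ∀ x ∈ Q.set, ∀ t ∈ Icc (0 : ℝ) 1, col_ray Q.mid x t ∈ Q.set := fun x hx t ht => by
    rw [col_nm_mem hQ, col_nm_ray, norm_smul, Real.norm_of_nonneg ht.1]
    exact mul_le_one₀ ht.2 (norm_nonneg _) ((col_nm_mem hQ x).1 hx)
  have kc : Continuous k := (LipschitzWith.of_dist_le' (K := c) fun x y => by
    rw [Real.dist_eq, dist_eq_norm]
    exact hl x y).continuous
  have ivt : ∀ s, ∀ x ∈ Q.set, ∀ r, 0 ≤ r → r ≤ 1 - s * k x → ∃ x' ∈ Q.set,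
      col_ray Q.mid x' (1 - s * k x') = col_ray Q.mid x r := by
    intro s x hx r r0 r1
    have cf : Continuous fun t : ℝ => (1 - s * k (col_ray Q.mid x t)) * t := by
      unfold col_ray
      fun_prop
    obtain ⟨t, ht, e⟩ := intermediate_value_Icc zero_le_one cf.continuousOn
      (mem_Icc.2 ⟨by simpa using r0, (by simpa [col_ray_one] using r1 : r ≤ _)⟩)
    exact ⟨_, mem x hx t ht, by rw [col_ray_ray]; exact congrArg _ e⟩
  refine ⟨fun s x => col_ray Q.mid x (1 - s * k x), fun x => ?_, fun s x hx => ?_,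
    fun s hs' x hx => ⟨mem x hx _ ⟨?_, ?_⟩, ?_⟩, fun s hs1 x hx s' hs2 x' hx' => ?_,
    fun s s' s0 ss s1 x hx hd x' hx' e => ?_, fun x hx => ?_, fun s s' s0 ss s1 x hx => ?_⟩
  · simp only [zero_mul, sub_zero, col_ray_one]
  · simp only [hz x hx, mul_zero, sub_zero, col_ray_one]
  · linarith only [sk s hs' x, hk x, hκ1, hs, cR, hR']
  · linarith only [sk s hs' x]
  · have : col_ray Q.mid x (1 - s * k x) - x = -((s * k x) • (x - Q.mid)) := by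
      simp only [col_ray]
      module
    show ‖col_ray Q.mid x (1 - s * k x) - x‖ ≤ _
    rw [this, norm_neg, norm_smul, Real.norm_of_nonneg (sk s hs' x).1]
    calc _ ≤ h * d x * R := mul_le_mul ((sk s hs' x).2.trans (hk x).2.2) (hb x hx) (norm_nonneg _)
          (mul_nonneg h0 (d0 x))
      _ = h * R * d x := by ring
      _ ≤ _ := mul_le_mul_of_nonneg_right (by linarith only [hs, h0, cR]) (d0 x)
  · have : col_ray Q.mid x' (1 - s' * k x') - col_ray Q.mid x (1 - s * k x) - (x' - x) =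
        -((s * k x) • (x' - x) + (s' * (k x' - k x) + (s' - s) * k x) • (x' - Q.mid)) := by
      simp only [col_ray]
      module
    show ‖col_ray Q.mid x' (1 - s' * k x') - col_ray Q.mid x (1 - s * k x) - (x' - x)‖ ≤ _
    rw [this, norm_neg]
    have a1 : ‖(s * k x) • (x' - x)‖ ≤ h * ‖x' - x‖ := by
      rw [norm_smul, Real.norm_of_nonneg (sk s hs1 x).1]
      exact mul_le_mul_of_nonneg_right ((sk s hs1 x).2.trans (hk x).2.1) (norm_nonneg _)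
    have a2 : |s' * (k x' - k x) + (s' - s) * k x| ≤ 1 * (c * ‖x' - x‖) + |s' - s| * h := by
      refine (abs_add_le _ _).trans (add_le_add ?_ ?_) <;> rw [abs_mul]
      · exact mul_le_mul ((abs_of_nonneg hs2.1).trans_le hs2.2) (hl x' x) (abs_nonneg _)
          zero_le_one
      · exact mul_le_mul_of_nonneg_left ((abs_of_nonneg (hk x).1).trans_le (hk x).2.1)
          (abs_nonneg _)
    have a3 : ‖(s' * (k x' - k x) + (s' - s) * k x) • (x' - Q.mid)‖ ≤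
        (1 * (c * ‖x' - x‖) + |s' - s| * h) * R := by
      rw [norm_smul]
      exact mul_le_mul a2 (hb x' hx') (norm_nonneg _) (by positivity)
    have a4 := mul_le_mul_of_nonneg_right (by linarith only [hs, hR'] : h + c * R ≤ κ) (norm_nonneg (x' - x))
    have a5 := mul_le_mul_of_nonneg_right (by linarith only [hs, h0, cR] : h * R ≤ κ) (abs_nonneg (s' - s))
    refine (norm_add_le _ _).trans ?_
    linarith only [a1, a3, a4, a5]
  · have n1 := (col_nm_bd hQ x).1 hx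
    have n2 := (col_nm_mem hQ x').1 hx'
    have k0 := hp x n1 hd
    have b1 := sk s ⟨s0, by linarith only [ss, s1]⟩ x
    have b2 := sk s' ⟨by linarith only [s0, ss], s1⟩ x'
    have p1 : 0 < 1 - s * k x := by linarith only [hk x, hκ1, hs, cR, hR', b1]
    have p2 : 0 < 1 - s' * k x' := by linarith only [hk x', hκ1, hs, cR, hR', b2]
    have e' : col_ray Q.mid x (1 - s * k x) = col_ray Q.mid x' (1 - s' * k x') := e
    obtain ⟨t, ht⟩ : ∃ t, t = ‖Q.nm x'‖ := ⟨_, rfl⟩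
    have t0 : 0 ≤ t := ht ▸ norm_nonneg _
    have e1 := congrArg (fun z => ‖Q.nm z‖) e'
    simp only [col_nm_ray, norm_smul, Real.norm_of_nonneg p1.le, Real.norm_of_nonneg p2.le, n1,
      mul_one, ← ht] at e1
    have e2 : x' = col_ray Q.mid x t := by
      have := congrArg (fun z => col_ray Q.mid z (1 - s' * k x')⁻¹) e'
      simp only [col_ray_ray, inv_mul_cancel₀ p2.ne', col_ray_one] at this
      rw [e1, ← mul_assoc, inv_mul_cancel₀ p2.ne', one_mul] at this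
      exact this.symm
    have e3 : ‖x - x'‖ ≤ (1 - t) * R := by
      have : x - x' = (1 - t) • (x - Q.mid) := by
        rw [e2, col_ray]
        module
      rw [this, norm_smul, Real.norm_of_nonneg (by linarith only [n2, ht])]
      exact mul_le_mul_of_nonneg_left (hb x hx.1) (by linarith only [n2, ht])
    have e4 : k x - k x' ≤ c * ((1 - t) * R) :=
      ((le_abs_self _).trans (hl x x')).trans (mul_le_mul_of_nonneg_left e3 hc)
    have u0 : 0 ≤ 1 - t := by linarith only [n2, ht]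
    have st : s' * t ≤ 1 := mul_le_one₀ s1 t0 (by linarith only [n2, ht])
    have f1 : s' * t * (k x - k x') ≤ 1 * (c * ((1 - t) * R)) :=
      (mul_le_mul_of_nonneg_left e4 (mul_nonneg (by linarith only [s0, ss]) t0)).trans
        (mul_le_mul_of_nonneg_right st (by positivity))
    have f2 : s' * k x * (1 - t) ≤ h * (1 - t) := mul_le_mul_of_nonneg_right
      ((sk s' ⟨by linarith only [s0, ss], s1⟩ x).2.trans (hk x).2.1) u0
    have f3 : (h + c * R) * (1 - t) ≤ 1 * (1 - t) := mul_le_mul_of_nonneg_right (by linarith only [hκ1, hs, hR']) u0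
    have f4 := mul_lt_mul_of_pos_right ss k0
    linarith only [e1, f1, f2, f3, f4]
  · have n1 := (col_nm_mem hQ x).1 hx
    rcases (norm_nonneg (Q.nm x)).eq_or_lt with r0 | r0
    · exact Or.inl ⟨x, hx, by simp only [hz x (by linarith only [hκ, hκ1, r0]), mul_zero, sub_zero, col_ray_one]⟩
    have w1 : ‖Q.nm (col_ray Q.mid x ‖Q.nm x‖⁻¹)‖ = 1 := by
      rw [col_nm_ray, norm_smul, norm_inv, norm_norm, inv_mul_cancel₀ r0.ne']
    have w2 : col_ray Q.mid (col_ray Q.mid x ‖Q.nm x‖⁻¹) ‖Q.nm x‖ = x := by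
      rw [col_ray_ray, mul_inv_cancel₀ r0.ne', col_ray_one]
    generalize col_ray Q.mid x ‖Q.nm x‖⁻¹ = w at w1 w2
    have w3 := (col_nm_bd hQ w).2 w1
    rcases le_or_gt ‖Q.nm x‖ (1 - 1 * k w) with hr | hr
    · obtain ⟨x', hx', e⟩ := ivt 1 w w3.1 _ r0.le hr
      exact Or.inl ⟨x', hx', e.trans w2⟩
    · have k0 : 0 < k w := by linarith only [n1, hr]
      refine Or.inr ⟨(1 - ‖Q.nm x‖) / k w, ⟨div_nonneg (by linarith only [n1]) k0.le,
        (div_lt_one k0).2 (by linarith only [hr])⟩, w, w3, ?_⟩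
      show col_ray Q.mid w (1 - (1 - ‖Q.nm x‖) / k w * k w) = x
      rw [div_mul_cancel₀ _ k0.ne', sub_sub_cancel, w2]
  · have := mul_le_mul_of_nonneg_right ss (hk x).1
    exact ivt s x hx _ (by linarith only [sk s' ⟨by linarith only [s0, ss], s1⟩ x, hk x, hκ1, hs, cR, hR', s0, ss, s1]) (by linarith only [this])

open Classical in
/-- The radial collar of an embedded box. -/
theorem col_box {Y : Type} [MetricSpace Y] {U : Set Y} (hU : IsOpen U) (hne : Uᶜ.Nonempty)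
    {e : E ι → Y} (he : Isometry e) {Q : Bx ι} (hQ : Q.Pos) {η : ℝ} (hη : 0 < η) :
    ∃ σ ϱ, Col U (e '' Q.set) (e '' Q.bd) η σ ϱ
      {y | ∀ x ∈ Q.set, e x = y → ‖Q.nm x‖ ≤ 3 / 4} := by
  have hd : ∀ x y, dist (e x) (e y) = ‖x - y‖ := fun x y => by rw [he.dist_eq, dist_eq_norm]
  obtain ⟨κ, hκ⟩ : ∃ κ, κ = η / (1 + η) := ⟨_, rfl⟩
  have κ0 : 0 < κ := hκ ▸ div_pos hη (by linarith only [hη])
  have κ1 : κ * (1 + η) = η := by rw [hκ, div_mul_cancel₀ _ (by linarith only [hη])]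
  have κ2 : κ ≤ η := by nlinarith only [κ1, hη, κ0]
  have κ3 : κ < 1 := by nlinarith only [κ0, κ1, hη]
  obtain ⟨τ, t0, tf, tm, tl, ts, tc, tn⟩ := col_model hQ (d := fun x => infDist (e x) Uᶜ)
    (fun _ => infDist_nonneg) (fun x y => by
      rw [← hd, ← Real.dist_eq]
      simpa using (lipschitz_infDist_pt Uᶜ).dist_le_mul (e x) (e y)) κ0 κ3
  have li : ∀ x, Function.invFun e (e x) = x := Function.leftInverse_invFun he.injective
  have dp : ∀ x, e x ∈ U → 0 < infDist (e x) Uᶜ := fun x hx =>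
    (hU.isClosed_compl.notMem_iff_infDist_pos hne).1 (notMem_compl_iff.2 hx)
  have ti : ∀ s ∈ Icc (0 : ℝ) 1, ∀ x ∈ Q.set, ∀ s' ∈ Icc (0 : ℝ) 1, ∀ x' ∈ Q.set,
      ‖x' - x‖ ≤ (1 + η) * ‖τ s' x' - τ s x‖ + η * |s' - s| := by
    intro s hs x hx s' hs' x' hx'
    have a1 := tl s hs x hx s' hs' x' hx'
    have a2 := norm_sub_le (τ s' x' - τ s x) (τ s' x' - τ s x - (x' - x))
    rw [sub_sub_cancel] at a2
    have a3 := mul_le_mul_of_nonneg_left (a2.trans (add_le_add_right a1 _))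
      (by linarith only [hη, κ0, κ3] : 0 ≤ 1 + η)
    have a4 := congrArg (fun z => z * ‖x' - x‖) κ1
    have a5 := congrArg (fun z => z * |s' - s|) κ1
    linarith only [a3, a4, a5]
  have inj : ∀ s ∈ Icc (0 : ℝ) 1, InjOn (τ s) Q.set := fun s hs x hx x' hx' h => by
    have := ti s hs x' hx' s hs x hx
    rw [h, sub_self (τ s x'), sub_self s, norm_zero, abs_zero, mul_zero, mul_zero, add_zero] at this
    exact sub_eq_zero.1 (norm_le_zero_iff.1 this)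
  obtain ⟨σ, σ1, σ2⟩ : ∃ σ : ℝ → Y → Y, (∀ s, ∀ x ∈ Q.set, σ s (e x) = e (τ s x)) ∧
      ∀ s y, y ∉ e '' Q.set → σ s y = y :=
    ⟨fun s y => if y ∈ e '' Q.set then e (τ s (Function.invFun e y)) else y,
      fun s x hx => by simp only [if_pos (mem_image_of_mem e hx), li], fun s y hy => if_neg hy⟩
  obtain ⟨ϱ, ϱ1⟩ : ∃ ϱ : ℝ → Y → Y, ∀ s ∈ Icc (0 : ℝ) 1, ∀ x ∈ Q.set, ϱ s (e (τ s x)) = e x :=
    ⟨fun s y => e (Function.invFunOn (τ s) Q.set (Function.invFun e y)), fun s hs x hx => by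
      simp only [li]
      rw [(inj s hs).leftInvOn_invFunOn hx]⟩
  refine ⟨σ, ϱ, image_mono fun x hx => hx.1, fun y => ?_, σ2, fun s y hy => ?_, fun s hs y => ?_,
    ?_, ?_, ?_, ?_, ?_, ?_, ?_, ?_⟩
  · by_cases hy : y ∈ e '' Q.set
    · obtain ⟨x, hx, rfl⟩ := hy
      rw [σ1 _ x hx, t0]
    · exact σ2 _ y hy
  · by_cases hy' : y ∈ e '' Q.set
    · obtain ⟨x, hx, rfl⟩ := hy'
      rw [σ1 _ x hx, tf s x (hy x hx rfl)]
    · exact σ2 _ y hy'
  · by_cases hy : y ∈ e '' Q.set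
    swap
    · rw [σ2 _ y hy]
    obtain ⟨x, hx, rfl⟩ := hy
    have h1 := (tm s hs x hx).2
    rw [σ1 _ x hx]
    by_cases hu : e x ∈ U
    · refine iff_of_true (notMem_compl_iff.1 (notMem_of_dist_lt_infDist (x := e x) ?_)) hu
      rw [dist_comm, hd]
      exact h1.trans_lt (mul_lt_of_lt_one_left (dp x hu) κ3)
    · rw [infDist_zero_of_mem (mem_compl hu), mul_zero, norm_le_zero_iff, sub_eq_zero] at h1
      rw [h1]
  · rintro s hs _ ⟨x, hx, rfl⟩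
    rw [σ1 _ x hx]
    exact mem_image_of_mem e (tm s hs x hx).1
  · rintro s hs _ ⟨x, hx, rfl⟩
    rw [σ1 _ x hx, ϱ1 s hs x hx]
  · rintro s hs _ ⟨x, hx, rfl⟩
    filter_upwards [self_mem_nhdsWithin]
    rintro ⟨s', _⟩ ⟨hs', x', hx', rfl⟩
    have a1 := tl s hs x hx s' hs' x' hx'
    have a2 := norm_add_le (τ s' x' - τ s x - (x' - x)) (x' - x)
    rw [sub_add_cancel] at a2
    have a3 := mul_le_mul_of_nonneg_right κ2 (norm_nonneg (x' - x))
    have a4 := mul_le_mul_of_nonneg_right κ2 (abs_nonneg (s' - s))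
    show dist (σ s' (e x')) _ ≤ (1 + η) * dist (e x') _ + η * |s' - s|
    rw [σ1 _ x hx, σ1 _ x' hx', hd, hd]
    linarith only [a1, a2, a3, a4]
  · rintro s hs _ ⟨x, hx, rfl⟩
    filter_upwards [self_mem_nhdsWithin]
    rintro ⟨s', z⟩ ⟨hs', _, ⟨x', hx', rfl⟩, hz⟩
    obtain rfl : σ s' (e x') = z := hz
    show dist (ϱ s' (σ s' (e x'))) _ ≤ (1 + η) * dist (σ s' (e x')) _ + η * |s' - s|
    rw [σ1 _ x hx, σ1 _ x' hx', ϱ1 s' hs' x' hx', hd, hd]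
    exact ti s hs x hx s' hs' x' hx'
  · rintro s hs _ ⟨x, hx, rfl⟩
    have a1 := infDist_le_infDist_add_dist (x := e (τ s x)) (y := e x) (s := Uᶜ)
    have a2 := (tm s hs x hx).2
    have a3 := mul_le_mul_of_nonneg_right κ2 (infDist_nonneg (x := e x) (s := Uᶜ))
    rw [hd] at a1
    rw [σ1 _ x hx]
    linarith only [a1, a2, a3]
  · rintro s s' s0 ss s1 _ ⟨x, hx, rfl⟩ hu _ ⟨x', hx', rfl⟩ h
    rw [σ1 _ x hx.1, σ1 _ x' hx'] at h
    exact ts s s' s0 ss s1 x hx (dp x hu) x' hx' (he.injective h)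
  · rintro _ ⟨x, hx, rfl⟩ -
    rcases tc x hx with ⟨x', hx', h⟩ | ⟨s, hs, x', hx', h⟩
    · exact Or.inl ⟨_, mem_image_of_mem e hx', by rw [σ1 _ x' hx', h]⟩
    · exact Or.inr ⟨s, hs, _, mem_image_of_mem e hx', by rw [σ1 _ x' hx'.1, h]⟩
  · rintro s s' s0 ss s1 _ ⟨x, hx, rfl⟩
    obtain ⟨x', hx', h⟩ := tn s s' s0 ss s1 x hx
    exact ⟨_, mem_image_of_mem e hx', by rw [σ1 _ x' hx', σ1 _ x hx, h]⟩

theorem col_empty {Y : Type} [MetricSpace Y] (U : Set Y) {η : ℝ} (hη : 0 ≤ η) :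
    Col U ∅ ∅ η (fun _ y => y) (fun _ y => y) univ :=
  ⟨Subset.rfl, fun _ => rfl, fun _ _ _ => rfl, fun _ _ _ => rfl, fun _ _ _ => Iff.rfl,
    fun _ _ _ h => h, fun _ _ _ _ => rfl, fun _ _ _ h => h.elim, fun _ _ _ h => h.elim,
    fun _ _ _ _ => le_mul_of_one_le_left infDist_nonneg (by linarith only [hη]),
    fun _ _ _ _ _ _ h => h.elim, fun _ h => h.elim, fun _ _ _ _ _ _ h => h.elim⟩

theorem Col.antiF {Y : Type} [MetricSpace Y] {U S D F F' : Set Y} {η : ℝ} {σ ϱ : ℝ → Y → Y}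
    (h : Col U S D η σ ϱ F) (hF : F' ⊆ F) : Col U S D η σ ϱ F' :=
  { h with far := fun s y hy => h.far s y (hF hy) }

/-- The local clauses of a collar pass to a union with a separated set. -/
theorem col_loc {Y : Type} [MetricSpace Y] {U S1 D1 F1 S2 S : Set Y} {η : ℝ}
    {σ1 ϱ1 σ ϱ : ℝ → Y → Y} (h1 : Col U S1 D1 η σ1 ϱ1 F1) (hS : ∀ y ∈ S, y ∈ S1 ∨ y ∈ S2)
    (hs : ∀ y ∈ S1, ∀ y' ∈ S2, 1 ≤ dist y y') (e1 : ∀ s, ∀ y ∈ S1, σ s y = σ1 s y)
    (e2 : ∀ s, ∀ y ∈ S1, ϱ s y = ϱ1 s y) (m2 : ∀ s ∈ Icc (0 : ℝ) 1, ∀ y ∈ S2, σ s y ∈ S2)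
    {s : ℝ} (hs1 : s ∈ Icc (0 : ℝ) 1) {y : Y} (hy : y ∈ S1) :
    (∀ᶠ w in 𝓝[Icc (0 : ℝ) 1 ×ˢ S] (s, y),
      dist (σ w.1 w.2) (σ s y) ≤ (1 + η) * dist w.2 y + η * |w.1 - s|) ∧
    ∀ᶠ w in 𝓝[{w : ℝ × Y | w.1 ∈ Icc (0 : ℝ) 1 ∧ w.2 ∈ σ w.1 '' S}] (s, σ s y),
      dist (ϱ w.1 w.2) y ≤ (1 + η) * dist w.2 (σ s y) + η * |w.1 - s| := by
  have nb : ∀ (A : Set (ℝ × Y)) (z : Y), ∀ᶠ w in 𝓝[A] (s, z), dist z w.2 < 1 := fun A z =>
    mem_nhdsWithin_of_mem_nhds ((by fun_prop :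
      ContinuousAt (fun w : ℝ × Y => dist z w.2) (s, z)).eventually (gt_mem_nhds (by simp)))
  constructor
  · have m : Icc (0 : ℝ) 1 ×ˢ S1 ∈ 𝓝[Icc (0 : ℝ) 1 ×ˢ S] (s, y) := by
      filter_upwards [self_mem_nhdsWithin, nb _ y] with w hw hd
      exact ⟨hw.1, (hS _ hw.2).resolve_right fun h => (hs y hy _ h).not_gt hd⟩
    filter_upwards [m, (h1.lip s hs1 y hy).filter_mono (nhdsWithin_le_of_mem m)] with w hw hd
    rwa [e1 _ _ hw.2, e1 _ _ hy]
  · rw [e1 _ _ hy]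
    have m : {w : ℝ × Y | w.1 ∈ Icc (0 : ℝ) 1 ∧ w.2 ∈ σ1 w.1 '' S1} ∈
        𝓝[{w : ℝ × Y | w.1 ∈ Icc (0 : ℝ) 1 ∧ w.2 ∈ σ w.1 '' S}] (s, σ1 s y) := by
      filter_upwards [self_mem_nhdsWithin, nb _ (σ1 s y)] with w hw hd
      obtain ⟨w1, y', hy', e⟩ := hw
      have h' := (hS _ hy').resolve_right fun h =>
        (hs _ (h1.maps s hs1 y hy) _ (e ▸ m2 _ w1 _ h)).not_gt hd
      exact ⟨w1, y', h', (e1 _ _ h').symm.trans e⟩
    filter_upwards [m, (h1.lipi s hs1 y hy).filter_mono (nhdsWithin_le_of_mem m)] with w hw hd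
    obtain ⟨w1, y', hy', e⟩ := hw
    rwa [e2 _ _ (e ▸ h1.maps _ w1 _ hy')]

open Classical in
/-- Collars of separated sources. -/
theorem Col.union {Y : Type} [MetricSpace Y] {U S1 D1 F1 S2 D2 F2 : Set Y} {η : ℝ}
    {σ1 ϱ1 σ2 ϱ2 : ℝ → Y → Y} (h1 : Col U S1 D1 η σ1 ϱ1 F1) (h2 : Col U S2 D2 η σ2 ϱ2 F2)
    (hs : ∀ y ∈ S1, ∀ y' ∈ S2, 1 ≤ dist y y') :
    Col U (S1 ∪ S2) (D1 ∪ D2) η (fun s y => if y ∈ S1 then σ1 s y else σ2 s y)
      (fun s y => if y ∈ S1 then ϱ1 s y else ϱ2 s y) (F1 ∩ F2) := by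
  have dj : ∀ y ∈ S2, y ∉ S1 := fun y h h' => by
    have := hs y h' y h
    rw [dist_self] at this
    linarith only [this]
  have l1 := fun s hs1 y hy => col_loc (S := S1 ∪ S2)
    (σ := fun s y => if y ∈ S1 then σ1 s y else σ2 s y)
    (ϱ := fun s y => if y ∈ S1 then ϱ1 s y else ϱ2 s y) h1 (fun _ h => h) hs
    (fun _ _ h => if_pos h) (fun _ _ h => if_pos h)
    (fun s hs y hy => by simpa only [if_neg (dj y hy)] using h2.maps s hs y hy) (s := s) hs1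
    (y := y) hy
  have l2 := fun s hs1 y hy => col_loc (S := S1 ∪ S2)
    (σ := fun s y => if y ∈ S1 then σ1 s y else σ2 s y)
    (ϱ := fun s y => if y ∈ S1 then ϱ1 s y else ϱ2 s y) h2 (fun _ h => Or.symm h)
    (fun y hy y' hy' => dist_comm y y' ▸ hs y' hy' y hy)
    (fun _ y h => if_neg (dj y h)) (fun _ y h => if_neg (dj y h))
    (fun s hs y hy => by simpa only [if_pos hy] using h1.maps s hs y hy) (s := s) hs1
    (y := y) hy
  refine ⟨union_subset_union h1.sub h2.sub, fun y => ?_, fun s y hy => ?_, fun s y hy => ?_,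
    fun s hs y => ?_, ?_, ?_, fun s hs y hy => hy.elim (fun h => (l1 s hs y h).1)
      fun h => (l2 s hs y h).1, fun s hs y hy => hy.elim (fun h => (l1 s hs y h).2)
      fun h => (l2 s hs y h).2, ?_, ?_, ?_, ?_⟩
  · simp only [h1.zero, h2.zero, ite_self]
  · simp only [h1.out s y fun h => hy (Or.inl h), h2.out s y fun h => hy (Or.inr h), ite_self]
  · simp only [h1.far s y hy.1, h2.far s y hy.2, ite_self]
  · split_ifs
    exacts [h1.memU s hs y, h2.memU s hs y]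
  · rintro s hs y (hy | hy)
    · simp only [if_pos hy]
      exact Or.inl (h1.maps s hs y hy)
    · simp only [if_neg (dj y hy)]
      exact Or.inr (h2.maps s hs y hy)
  · rintro s hs y (hy | hy)
    · simp only [if_pos hy, if_pos (h1.maps s hs y hy), h1.inv s hs y hy]
    · simp only [if_neg (dj y hy), if_neg (dj _ (h2.maps s hs y hy)), h2.inv s hs y hy]
  · rintro s hs y (hy | hy)
    · simp only [if_pos hy, h1.dle s hs y hy]
    · simp only [if_neg (dj y hy), h2.dle s hs y hy]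
  · rintro s s' s0 ss s1 y (hy | hy) hu y' (hy' | hy')
    · simp only [if_pos (h1.sub hy), if_pos hy']
      exact h1.sep s s' s0 ss s1 y hy hu y' hy'
    · simp only [if_pos (h1.sub hy), if_neg (dj _ hy')]
      exact fun e => dj _ (h2.maps s' ⟨by linarith only [s0, ss], s1⟩ y' hy')
        (e ▸ h1.maps s ⟨s0, by linarith only [ss, s1]⟩ y (h1.sub hy))
    · simp only [if_neg (dj _ (h2.sub hy)), if_pos hy']
      exact fun e => dj _ (h2.maps s ⟨s0, by linarith only [ss, s1]⟩ y (h2.sub hy))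
        (e ▸ h1.maps s' ⟨by linarith only [s0, ss], s1⟩ y' hy')
    · simp only [if_neg (dj _ (h2.sub hy)), if_neg (dj _ hy')]
      exact h2.sep s s' s0 ss s1 y hy hu y' hy'
  · rintro y (hy | hy) hu
    · rcases h1.cover y hy hu with ⟨y', hy', e⟩ | ⟨s, hs, y', hy', e⟩
      · exact Or.inl ⟨y', Or.inl hy', (if_pos hy').trans e⟩
      · exact Or.inr ⟨s, hs, y', Or.inl hy', (if_pos (h1.sub hy')).trans e⟩
    · rcases h2.cover y hy hu with ⟨y', hy', e⟩ | ⟨s, hs, y', hy', e⟩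
      · exact Or.inl ⟨y', Or.inr hy', (if_neg (dj _ hy')).trans e⟩
      · exact Or.inr ⟨s, hs, y', Or.inr hy', (if_neg (dj _ (h2.sub hy'))).trans e⟩
  · rintro s s' s0 ss s1 y (hy | hy)
    · obtain ⟨y', hy', e⟩ := h1.nest s s' s0 ss s1 y hy
      exact ⟨y', Or.inl hy', by simp only [if_pos hy, if_pos hy', e]⟩
    · obtain ⟨y', hy', e⟩ := h2.nest s s' s0 ss s1 y hy
      exact ⟨y', Or.inr hy', by simp only [if_neg (dj _ hy), if_neg (dj _ hy'), e]⟩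

/-- The collar of a finite family of labelled boxes. -/
theorem col_list {U0 F0 : Set (E ι)} (hU : IsOpen U0) (hne : U0ᶜ.Nonempty)
    (l : List (ℕ × Bx ι)) (hl : (l.map Prod.fst).Nodup) (hQ : ∀ a ∈ l, a.2.Pos)
    (hF : ∀ a ∈ l, ∀ x ∈ a.2.set, x ∈ F0 → ‖a.2.nm x‖ ≤ 3 / 4) {η : ℝ} (hη : 0 < η) :
    ∃ σ ϱ, Col (UL U0) {y | ∃ a ∈ l, y.1 = a.1 ∧ y.2 ∈ a.2.set}
        {y | ∃ a ∈ l, y.1 = a.1 ∧ y.2 ∈ a.2.bd} η σ ϱ (Prod.snd ⁻¹' F0) ∧
      ∀ s ∈ Icc (0 : ℝ) 1, ∀ y, (σ s y).1 = y.1 := by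
  induction l with
  | nil =>
    refine ⟨fun _ y => y, fun _ y => y, ?_, fun _ _ _ => rfl⟩
    simpa using (col_empty (UL U0) hη.le).antiF (subset_univ (Prod.snd ⁻¹' F0))
  | cons a l ih =>
    rw [List.map_cons, List.nodup_cons] at hl
    obtain ⟨σ2, ϱ2, h2, f2⟩ := ih hl.2 (fun b hb => hQ b (List.mem_cons_of_mem _ hb))
      fun b hb => hF b (List.mem_cons_of_mem _ hb)
    have he : Isometry (Prod.mk a.1 : E ι → YL ι) := Isometry.of_dist_eq fun x y => by simp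
    obtain ⟨x0, hx0⟩ := hne
    obtain ⟨σ1, ϱ1, h1⟩ := col_box (U := UL U0) (hU.preimage continuous_snd) ⟨(0, x0), hx0⟩ he
      (hQ a List.mem_cons_self) hη
    have key : ∀ A : Bx ι → Set (E ι), {y : YL ι | ∃ b ∈ a :: l, y.1 = b.1 ∧ y.2 ∈ A b.2} =
        Prod.mk a.1 '' A a.2 ∪ {y | ∃ b ∈ l, y.1 = b.1 ∧ y.2 ∈ A b.2} := fun A => by
      ext y
      simp only [List.mem_cons, exists_eq_or_imp, mem_ofPred_eq, mem_union, mem_image]
      refine or_congr_left ⟨fun h => ⟨y.2, h.2, Prod.ext h.1.symm rfl⟩, ?_⟩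
      rintro ⟨x, hx, rfl⟩
      exact ⟨rfl, hx⟩
    rw [key Bx.set, key Bx.bd]
    refine ⟨_, _, (h1.union h2 ?_).antiF fun y hy => ⟨?_, hy⟩, fun s hs y => ?_⟩
    · rintro _ ⟨x, -, rfl⟩ y' ⟨b, hb, e, -⟩
      refine le_trans (Nat.pairwise_one_le_dist fun h : a.1 = y'.1 => hl.1 ?_) (le_max_left _ _)
      rw [h, e]
      exact List.mem_map_of_mem hb
    · rintro x hx rfl
      exact hF a List.mem_cons_self x hx hy
    · split_ifs with hy
      · obtain ⟨x', -, e⟩ := h1.maps s hs y hy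
        obtain ⟨x, -, rfl⟩ := hy
        rw [← e]
      · exact f2 s hs y

end Pool.Agent.Lib.MP_ecd4e3_gt.N
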