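import Pool.Agent.Lib.MP_ecd4e3_gt.N.FHaar
import Pool.Agent.Lib.MP_ecd4e3_gt.N.GBox

/-! Volumes and graph boxes of deformed boxes. -/

namespace Pool.Agent.Lib.MP_ecd4e3_gt.N

open Set Filter Topology Metric MeasureTheory
open scoped NNReal ENNReal

variable {ι : Type} [Fintype ι] [DecidableEq ι] [Nonempty ι]

omit [Nonempty ι] in
theorem det_mat (B : E ι →L[ℝ] E ι) :
    B.det = (Matrix.of fun i j => B (Pi.single j 1) i).det := by
  rw [ContinuousLinearMap.det, ← LinearMap.det_toMatrix']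
  rfl

omit [Nonempty ι] in
theorem det_smooth : ContDiff ℝ 2 fun A : E ι →L[ℝ] E ι =>
    (1 + A).det - ∑ i, A (Pi.single i 1) i := by
  simp only [det_mat, Matrix.det_apply', Matrix.of_apply]
  fun_prop

omit [Nonempty ι] in
theorem det_fderiv : fderiv ℝ (fun A : E ι →L[ℝ] E ι =>
    (1 + A).det - ∑ i, A (Pi.single i 1) i) 0 = 0 := by
  ext A
  set g := fun A : E ι →L[ℝ] E ι => (1 + A).det - ∑ i, A (Pi.single i 1) i with hg
  have h1 : HasFDerivAt g (fderiv ℝ g 0) ((0 : ℝ) • A) := by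
    rw [zero_smul]
    exact ((det_smooth (ι := ι)).differentiable two_ne_zero 0).hasFDerivAt
  have h2 := h1.comp_hasDerivAt (0 : ℝ) ((hasDerivAt_id (0 : ℝ)).smul_const A)
  set M : Matrix ι ι ℝ := Matrix.of fun i j => A (Pi.single j 1) i with hM
  obtain ⟨p, hp⟩ : ∃ p : Polynomial ℝ, ∀ r : ℝ,
      (1 + r • M).det = 1 + M.trace * r + p.eval r * r ^ 2 := ⟨_, fun r => M.det_one_add_smul r⟩
  have h3 : (g ∘ fun r : ℝ => id r • A) = fun r => 1 + p.eval r * r ^ 2 := by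
    funext r
    have h4 : (Matrix.of fun i j => (1 + r • A) (Pi.single j 1) i) = 1 + r • M := by
      ext i j
      simp [hM, Matrix.one_apply, Pi.single_apply]
    have h5 : ∑ i, (r • A) (Pi.single i 1) i = M.trace * r := by
      simp [hM, Matrix.trace, Finset.mul_sum, mul_comm]
    simp only [Function.comp, hg, id, det_mat, h4, hp, h5]
    ring
  rw [h3, one_smul] at h2
  have h5 := ((p.hasDerivAt 0).mul (hasDerivAt_pow 2 (0 : ℝ))).const_add 1
  simpa using h2.unique h5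

omit [Nonempty ι] in
theorem entry_le (A : E ι →L[ℝ] E ι) (i j : ι) : |A (Pi.single j 1) i| ≤ ‖A‖ :=
  (norm_le_pi_norm (A (Pi.single j 1)) i).trans
    (A.unit_le_opNorm _ (by rw [Pi.norm_single, norm_one]))

/-- Perturbation of the determinant near the identity. -/
theorem det_pert : ∃ C : ℝ, 1 ≤ C ∧ ∀ (δ : ℝ) (A A' : E ι →L[ℝ] E ι), δ ≤ 1 → ‖A‖ ≤ δ →
    ‖A'‖ ≤ δ → |(1 + A).det - (1 + A').det
      - (∑ i, A (Pi.single i 1) i - ∑ i, A' (Pi.single i 1) i)| ≤ C * δ * ‖A - A'‖ ∧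
      |(1 + A).det - 1| ≤ C * δ := by
  set g := fun A : E ι →L[ℝ] E ι => (1 + A).det - ∑ i, A (Pi.single i 1) i with hg
  have h1 : ContDiff ℝ 1 (fderiv ℝ g) := det_smooth.fderiv_right (m := 1) le_rfl
  obtain ⟨K, hK⟩ := h1.contDiffOn.exists_lipschitzOnWith one_ne_zero (convex_closedBall 0 1)
    (isCompact_closedBall 0 1)
  have key : ∀ (δ : ℝ) (A A' : E ι →L[ℝ] E ι), δ ≤ 1 → ‖A‖ ≤ δ → ‖A'‖ ≤ δ →
      |g A - g A'| ≤ K * δ * ‖A - A'‖ := by
    intro δ A A' h2 h3 h4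
    refine (convex_closedBall 0 δ).norm_image_sub_le_of_norm_fderiv_le (𝕜 := ℝ)
      (fun B _ => (det_smooth (ι := ι)).differentiable two_ne_zero B) (fun B hB => ?_)
      (mem_closedBall_zero_iff.2 h4) (mem_closedBall_zero_iff.2 h3)
    have h5 := hK.dist_le_mul B (closedBall_subset_closedBall h2 hB) 0
      (mem_closedBall_self zero_le_one)
    rw [det_fderiv, dist_zero_right] at h5
    exact ((dist_zero_right (fderiv ℝ g B)).ge.trans h5).trans
      (mul_le_mul_of_nonneg_left (mem_closedBall_zero_iff.1 hB) K.2)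
  have hN : (0 : ℝ) ≤ Fintype.card ι := Nat.cast_nonneg _
  have hK0 : (0 : ℝ) ≤ K := K.2
  refine ⟨K + Fintype.card ι + 1, by linarith only [], fun δ A A' h2 h3 h4 => ⟨?_, ?_⟩⟩
  · have d0 : 0 ≤ δ := (norm_nonneg _).trans h3
    refine le_trans (le_of_eq ?_) ((key δ A A' h2 h3 h4).trans ?_)
    · simp only [hg]
      congr 1
      ring
    · gcongr
      linarith only []
  · have d0 : 0 ≤ δ := (norm_nonneg _).trans h3
    have h5 := key δ A 0 h2 h3 (by rwa [norm_zero])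
    have h6 : g 0 = 1 := by simp [hg, ContinuousLinearMap.det]
    have h7 : |∑ i, A (Pi.single i 1) i| ≤ Fintype.card ι * δ := by
      refine (Finset.abs_sum_le_sum_abs _ _).trans ?_
      simpa using Finset.sum_le_card_nsmul Finset.univ _ δ fun i _ => (entry_le A i i).trans h3
    have h8 : K * δ * ‖A - 0‖ ≤ K * δ := by
      rw [sub_zero]
      exact mul_le_of_le_one_right (by positivity) (h3.trans h2)
    rw [h6] at h5
    have h9 : (1 + A).det - 1 = g A - 1 + ∑ i, A (Pi.single i 1) i := by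
      simp only [hg]
      ring
    rw [h9]
    refine (abs_add_le _ _).trans ?_
    linarith only [d0, h5, h7, h8]

theorem opnorm_le_entries (A : E ι →L[ℝ] E ι) {M : ℝ} (h : ∀ i j, |A (Pi.single j 1) i| ≤ M) :
    ‖A‖ ≤ Fintype.card ι * M := by
  have hM : 0 ≤ M := (abs_nonneg _).trans (h (Classical.arbitrary ι) (Classical.arbitrary ι))
  refine A.opNorm_le_bound (by positivity) fun x =>
    (pi_norm_le_iff_of_nonneg (by positivity)).2 fun i => ?_
  have h1 : A x i = ∑ j, x j * A (Pi.single j 1) i := by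
    conv_lhs => rw [pi_eq_sum_univ' x]
    simp
  rw [h1, Real.norm_eq_abs]
  refine (Finset.abs_sum_le_sum_abs _ _).trans ?_
  have h2 := Finset.sum_le_card_nsmul Finset.univ (fun j => |x j * A (Pi.single j 1) i|)
    (M * ‖x‖) fun j _ => by
      rw [abs_mul, mul_comm]
      exact mul_le_mul (h i j) (norm_le_pi_norm x j) (abs_nonneg _) hM
  simpa [mul_assoc] using h2

theorem entry_le_opnorm (A : E ι →L[ℝ] E ι) (i j : ι) : |A (Pi.single j 1) i| ≤ ‖A‖ := entry_le A i j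

theorem FD.u_lip {F : FD ι} {δ : ℝ} (hd : ∀ x, HasFDerivAt F.u (F.D x) x) (hs : ∀ x, ‖F.D x‖ ≤ δ)
    (x y : E ι) : dist (F.u x) (F.u y) ≤ δ * dist x y := by
  rw [dist_eq_norm, dist_eq_norm]
  exact convex_univ.norm_image_sub_le_of_norm_hasFDerivWithin_le
    (fun z _ => (hd z).hasFDerivWithinAt) (fun z _ => hs z) (mem_univ y) (mem_univ x)

/-- A small Lipschitz perturbation of the identity is a bijection. -/
theorem bij_of_small {u : E ι → E ι} {δ : ℝ} (hδ : δ < 1)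
    (h : ∀ x y, dist (u x) (u y) ≤ δ * dist x y) : Function.Bijective fun x => x + u x := by
  refine ⟨fun x y hxy => ?_, fun z => ?_⟩
  · have h1 : x - y = u y - u x := by
      rw [sub_eq_sub_iff_add_eq_add, add_comm (u y)]
      exact hxy
    have h2 := h y x
    rw [dist_eq_norm, ← h1, ← dist_eq_norm, dist_comm y] at h2
    exact dist_le_zero.1 (by nlinarith only [dist_nonneg (x := x) (y := y), h2, hδ])
  · have hc : ContractingWith δ.toNNReal fun x => z - u x := by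
      refine ⟨Real.toNNReal_lt_one.2 hδ, LipschitzWith.of_dist_le_mul fun x y => ?_⟩
      rw [dist_sub_left]
      exact (h x y).trans (mul_le_mul_of_nonneg_right (Real.le_coe_toNNReal δ) dist_nonneg)
    exact ⟨_, eq_sub_iff_add_eq.1 hc.fixedPoint_isFixedPt.eq.symm⟩

theorem bij_aff {o h : E ι} (hh : ∀ i, 0 < h i) {u : E ι → E ι} {δ : ℝ} (hδ : δ < 1)
    (hu : ∀ x y, dist (u x) (u y) ≤ δ * dist x y) :
    Function.Bijective fun (x : E ι) i => o i + h i * (x i + u x i) := by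
  have h1 : Function.Bijective fun (y : E ι) i => o i + h i * y i := by
    refine ⟨fun y y' he => funext fun i => ?_, fun z => ⟨fun i => (z i - o i) / h i, ?_⟩⟩
    · exact mul_left_cancel₀ (hh i).ne' (add_left_cancel (congrFun he i))
    · funext i
      simp only [mul_div_cancel₀ _ (hh i).ne', add_sub_cancel]
  exact h1.comp (bij_of_small hδ hu)

theorem FD.bij {F : FD ι} (hh : ∀ i, 0 < F.h i) (hd : ∀ x, HasFDerivAt F.u (F.D x) x)
    (hs : ∀ x, ‖F.D x‖ ≤ 1 / 2) : Function.Bijective F.psi :=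
  bij_aff hh (by norm_num) (FD.u_lip hd hs)

theorem FD.vol_eq {F : FD ι} (hh : ∀ i, 0 < F.h i) (hd : ∀ x, HasFDerivAt F.u (F.D x) x)
    (hc : Continuous F.D) (hs : ∀ x, ‖F.D x‖ ≤ 1 / 2) (hp : ∀ x, 0 ≤ (1 + F.D x).det) {Q : Bx ι}
    (hQ : Q.Pos) : F.vol Q = F.a0 Q * Q.avg fun x => (1 + F.D x).det := by
  set L : E ι →L[ℝ] E ι := ContinuousLinearMap.pi fun i =>
    (F.h i • (1 : ℝ →L[ℝ] ℝ)).comp (ContinuousLinearMap.proj i) with hL
  have h1 : L.det = ∏ i, F.h i := by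
    rw [hL, ContinuousLinearMap.det_pi]
    simp [ContinuousLinearMap.det]
  have h2 : ∀ x, HasFDerivAt F.psi (L.comp (1 + F.D x)) x := fun x =>
    (L.hasFDerivAt.comp x ((hasFDerivAt_id x).add (hd x))).const_add F.o
  have h3 : ∀ x, (L.comp (1 + F.D x)).det = (∏ i, F.h i) * (1 + F.D x).det := fun x => by
    rw [← h1]
    exact LinearMap.det_comp _ _
  have h4 := integral_image_eq_integral_abs_det_fderiv_smul volume
    (Q.isClosed_set.measurableSet) (fun x _ => (h2 x).hasFDerivWithinAt)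
    (FD.bij hh hd hs).1.injOn fun _ => (1 : ℝ)
  have h5 : 0 ≤ ∏ i, F.h i := Finset.prod_nonneg fun i _ => (hh i).le
  simp only [h3, abs_mul, abs_of_nonneg h5, abs_of_nonneg (hp _), smul_eq_mul, mul_one,
    integral_const, integral_const_mul, MeasurableSet.univ, measureReal_restrict_apply,
    univ_inter] at h4
  rw [FD.vol, FD.a0, Bx.avg, mul_assoc, mul_div_cancel₀ _ hQ.vol_pos.ne', ← h4]
  rfl

theorem FD.a0_half' (F : FD ι) (Q : Bx ι) (j : ι) :
    F.a0 (Q.L j) = F.a0 Q / 2 ∧ F.a0 (Q.R j) = F.a0 Q / 2 := by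
  simp only [FD.a0, Bx.vol_L, Bx.vol_R, mul_div_assoc, and_self]

theorem FD.vol_half {F : FD ι} (hh : ∀ i, 0 < F.h i) (hd : ∀ x, HasFDerivAt F.u (F.D x) x)
    (hc : Continuous F.D) (hs : ∀ x, ‖F.D x‖ ≤ 1 / 2) (hp : ∀ x, 0 ≤ (1 + F.D x).det) {Q : Bx ι}
    (hQ : Q.Pos) (j : ι) : F.vol Q = F.vol (Q.L j) + F.vol (Q.R j) := by
  rw [FD.vol_eq hh hd hc hs hp hQ, FD.vol_eq hh hd hc hs hp (hQ.L j),
    FD.vol_eq hh hd hc hs hp (hQ.R j), (F.a0_half' Q j).1, (F.a0_half' Q j).2,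
    Bx.avg_half hQ j (g := fun x => (1 + F.D x).det)
      (ContinuousLinearMap.continuous_det.comp (continuous_const.add hc)).continuousOn]
  ring

theorem FD.a0_half (F : FD ι) (Q : Bx ι) (j : ι) :
    F.a0 (Q.L j) = F.a0 Q / 2 ∧ F.a0 (Q.R j) = F.a0 Q / 2 := F.a0_half' Q j

theorem FD.exit {f : ℝ} (hf : 0 < f) (hf' : f ≤ 1 / 16) {F : FD ι} {Q : Bx ι} (hQ : Q.Two)
    (hh : ∀ i, 0 < F.h i) (ha : ∀ i j, F.h i ≤ 5 / 2 * Mp f * F.h j)
    (hd : ∀ x, HasFDerivAt F.u (F.D x) x) (hs : ∀ x, ‖F.D x‖ ≤ eps ι f * f / 20) :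
    ∃ R, FRel f Q F R := by
  obtain ⟨e0, e1, -, -, -, e2, e3, e4, -⟩ := consts (ι := ι) hf hf'
  set δ := eps ι f * f / 20 with hδ
  have d0 : 0 ≤ δ := by positivity
  have d1 : δ ≤ 1 / 2 := by
    have h1 : eps ι f ≤ 1 := by nlinarith only [e4, hf, hf', e0, e2, e3]
    nlinarith only [hf', hδ, hf, h1]
  have hu := FD.u_lip hd hs
  obtain ⟨χ, c1, c2⟩ := Function.bijective_iff_has_inverse.1
    (FD.bij hh hd fun x => (hs x).trans d1)
  have key : ∀ i x x', F.h i * |F.u x i - F.u x' i| ≤ eps ι f * dist (F.psi x) (F.psi x') := by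
    intro i x x'
    have h1 : dist (x + F.u x) (x' + F.u x') ≤ 10 / f * dist (F.psi x) (F.psi x') / F.h i := by
      have := hh i
      refine (dist_pi_le_iff (by positivity)).2 fun j => ?_
      have h2 := dist_le_pi_dist (F.psi x) (F.psi x') j
      simp only [FD.psi, dist_add_left, Real.dist_eq, ← mul_sub, abs_mul, abs_of_pos (hh j)] at h2
      have h3 : F.h i ≤ 10 / f * F.h j := (ha i j).trans_eq (by rw [Mp]; ring)
      rw [le_div_iff₀ this, Real.dist_eq, mul_comm]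
      refine (mul_le_mul_of_nonneg_right h3 (abs_nonneg _)).trans ?_
      rw [mul_assoc]
      exact mul_le_mul_of_nonneg_left h2 (by positivity)
    have h2 : dist x x' ≤ dist (x + F.u x) (x' + F.u x') + dist (F.u x) (F.u x') := by
      simpa using dist_sub_sub_le (x + F.u x) (F.u x) (x' + F.u x') (F.u x')
    have h3 := hu x x'
    have h4 : dist x x' ≤ 2 * (10 / f * dist (F.psi x) (F.psi x') / F.h i) := by
      nlinarith only [dist_nonneg (x := x) (y := x'), h1, h2, h3, hf, hf', d1]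
    have h5 := (dist_le_pi_dist (F.u x) (F.u x') i).trans
      (h3.trans (mul_le_mul_of_nonneg_left h4 d0))
    refine (mul_le_mul_of_nonneg_left h5 (hh i).le).trans_eq ?_
    have := (hh i).ne'
    rw [hδ]
    field_simp
    ring
  have lip : ∀ (b : E ι) i z z', |F.o i + F.h i * (b i + F.u (χ z) i)
      - (F.o i + F.h i * (b i + F.u (χ z') i))| ≤ eps ι f * dist z z' := by
    intro b i z z'
    have := key i (χ z) (χ z')
    rw [c2, c2] at this
    rwa [add_sub_add_left_eq_sub, ← mul_sub, add_sub_add_left_eq_sub, abs_mul, abs_of_pos (hh i)]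
  let R : GB ι := ⟨fun i z => F.o i + F.h i * (Q.lo i + F.u (χ z) i),
    fun i z => F.o i + F.h i * (Q.hi i + F.u (χ z) i), fun i => F.h i * Q.sd i, F.psi Q.mid⟩
  have hm : ∀ x, F.psi x ∈ R.set ↔ x ∈ Q.set := fun x => by
    simp only [GB.set, mem_ofPred_eq, R, c1 x, FD.psi, add_le_add_iff_left,
      mul_le_mul_iff_right₀ (hh _), add_le_add_iff_right, Bx.mem_set]
  have hw : ∀ z i, R.hi i z - R.lo i z = F.h i * Q.sd i := fun z i => by
    simp only [R, Bx.sd]
    ring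
  have hp : ∀ i, 0 < F.h i * Q.sd i := fun i => mul_pos (hh i) (sub_pos.2 (hQ.1 i))
  refine ⟨R, ⟨lip Q.lo, lip Q.hi, hp, fun z _ i => ?_, fun i => ?_,
    (hm _).2 (Bx.mem_set.2 fun i => ?_), fun i j => ?_⟩, ?_, fun x => ?_, fun i => rfl⟩
  · rw [hw]
    exact ⟨le_rfl, le_mul_of_one_le_left (hp i).le (by linarith only [e1])⟩
  · simp only [R, c1 Q.mid, FD.psi, Bx.mid]
    ring
  · have := hQ.1 i
    simp only [Bx.mid]
    constructor <;> linarith only [this]
  · refine (mul_le_mul (ha i j) (hQ.2 i j) (sub_pos.2 (hQ.1 i)).le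
      ((hh i).le.trans (ha i j))).trans_eq ?_
    simp only [R, e3]
    ring
  · ext z
    obtain ⟨x, rfl⟩ := c2.surjective z
    rw [hm, c1.injective.mem_set_image]
  · funext i
    have := (hh i).ne'
    rw [GB.th, hw]
    simp only [R, c1 x, FD.psi, Bx.nm]
    rw [← mul_div_mul_left _ (Q.sd i) this]
    congr 1
    ring

theorem FD.mix {F F' : FD ι} {Q : Bx ι} (hQ : Q.Pos) (hh : ∀ i, 0 < F.h i)
    (hd : ∀ x, HasFDerivAt F.u (F.D x) x) (hs : ∀ x, ‖F.D x‖ ≤ 1 / 2)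
    (hd' : ∀ x, HasFDerivAt F'.u (F'.D x) x) (hs' : ∀ x, ‖F'.D x‖ ≤ 1 / 2) (ho : F'.o = F.o)
    (he : F'.h = F.h) (hu : ∀ x, x ∉ Q.set ∨ x ∈ Q.bd → F'.u x = F.u x) :
    (∀ r ∈ Icc (0 : ℝ) 1,
        BijOn (fun x => (1 - r) • F.psi x + r • F'.psi x) Q.set (F.psi '' Q.set)) ∧
      ∀ H : ℝ, (∀ i, F.h i ≤ H) → ∀ S : ℝ, (∀ i, Q.sd i ≤ S) →
        ∀ r ∈ Icc (0 : ℝ) 1, ∀ r' ∈ Icc (0 : ℝ) 1, ∀ x ∈ Q.set, ∀ x' ∈ Q.set,
          dist ((1 - r) • F.psi x + r • F'.psi x) ((1 - r') • F.psi x' + r' • F'.psi x') ≤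
            2 * H * (dist x x' + S * |r - r'|) := by
  have hm : ∀ (r : ℝ) x i, ((1 - r) • F.psi x + r • F'.psi x) i
      = F.o i + F.h i * (x i + ((1 - r) • F.u x + r • F'.u x) i) := fun r x i => by
    simp only [FD.psi, ho, he, Pi.add_apply, Pi.smul_apply, smul_eq_mul]
    ring
  have hv : ∀ r ∈ Icc (0 : ℝ) 1, ∀ x y, dist ((1 - r) • F.u x + r • F'.u x)
      ((1 - r) • F.u y + r • F'.u y) ≤ 1 / 2 * dist x y := by
    intro r hr x y
    refine (dist_add_add_le _ _ _ _).trans ?_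
    rw [dist_smul₀, dist_smul₀, Real.norm_of_nonneg hr.1, Real.norm_of_nonneg (sub_nonneg.2 hr.2)]
    nlinarith only [mul_le_mul_of_nonneg_left (FD.u_lip hd hs x y) (sub_nonneg.2 hr.2),
      mul_le_mul_of_nonneg_left (FD.u_lip hd' hs' x y) hr.1]
  refine ⟨fun r hr => ?_, fun H hH S hS r hr r' _ x _ x' hx' => ?_⟩
  · have h1 : Function.Bijective fun x => (1 - r) • F.psi x + r • F'.psi x := by
      convert bij_aff (o := F.o) hh (by norm_num) (hv r hr) using 2 with x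
      exact funext (hm r x)
    have h2 : (fun x => (1 - r) • F.psi x + r • F'.psi x) '' Q.setᶜ = F.psi '' Q.setᶜ := by
      refine image_congr fun x hx => funext fun i => ?_
      rw [hm, hu x (Or.inl hx), ← add_smul, sub_add_cancel, one_smul]
      rfl
    rw [image_compl_eq h1, image_compl_eq (FD.bij hh hd hs), compl_inj_iff] at h2
    exact h2 ▸ h1.1.injOn.bijOn_image
  · obtain ⟨j⟩ := ‹Nonempty ι›
    have H0 : 0 ≤ H := (hh j).le.trans (hH j)
    have S0 : 0 ≤ S := (sub_pos.2 (hQ j)).le.trans (hS j)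
    have hl : Q.lo ∈ Q.set := Bx.mem_set.2 fun i => ⟨le_rfl, (hQ i).le⟩
    have h1 : dist (F.u x') (F'.u x') ≤ S := by
      have h2 := dist_triangle_right (F.u x') (F'.u x') (F.u Q.lo)
      have h3 := FD.u_lip hd hs x' Q.lo
      have h4 := FD.u_lip hd' hs' x' Q.lo
      rw [hu Q.lo (Or.inr ⟨hl, j, Or.inl rfl⟩)] at h4
      linarith only [Bx.dist_le S0 hS hx' hl, h2, h3, h4, S0]
    have h2 : dist ((1 - r) • F.u x' + r • F'.u x') ((1 - r') • F.u x' + r' • F'.u x')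
        ≤ S * |r - r'| := by
      have h3 : (1 - r) • F.u x' + r • F'.u x' - ((1 - r') • F.u x' + r' • F'.u x')
          = (r - r') • (F'.u x' - F.u x') := by module
      rw [dist_eq_norm, h3, norm_smul, mul_comm, ← dist_eq_norm, dist_comm]
      exact mul_le_mul_of_nonneg_right h1 (abs_nonneg _)
    have h3 := (dist_add_add_le x ((1 - r) • F.u x + r • F'.u x) x' _).trans (add_le_add le_rfl
      ((dist_triangle _ _ _).trans (add_le_add (hv r hr x x') h2)))
    refine (dist_pi_le_iff (by positivity)).2 fun i => ?_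
    rw [hm, hm, dist_add_left, Real.dist_eq, ← mul_sub, abs_mul, abs_of_pos (hh i)]
    have h4 := (dist_le_pi_dist _ _ i).trans h3
    refine (mul_le_mul (hH i) h4 (abs_nonneg _) H0).trans ?_
    nlinarith only [mul_nonneg H0 (dist_nonneg (x := x) (y := x')),
      mul_nonneg H0 (mul_nonneg S0 (abs_nonneg (r - r'))), H0, S0]

end Pool.Agent.Lib.MP_ecd4e3_gt.N
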