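import Pool.Agent.Lib.MP_ecd4e3_gt.N.EDefs
import Pool.Agent.Lib.MP_ecd4e3_gt.N.Sol

/-! Definitions for displays. -/

namespace Pool.Agent.Lib.MP_ecd4e3_gt.N

open Set Filter Topology Metric MeasureTheory
open scoped NNReal ENNReal

variable {ι : Type} [Fintype ι] [DecidableEq ι]

/-- A display with the standard germ given by `L` at its exit point. -/
def GXL (i0 : ι) (K : ℝ) (p q : E ι) (L : E ι → E ι) (Ξ : ℝ × E ι → E ι) : Prop :=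
  Disp i0 K p q Ξ ∧
    ∀ n ∈ Icc (3 / 4 : ℝ) 1, ∀ ω ∈ Cs i0, Ξ (n, ω) = q + max 0 ((7 - 8 * n) / 3) • L ω

/-- A display of the half sphere on the side `ε` of the hyperplane `x j = 0`, from `p` to the rim. -/
def HDisp (i0 : ι) (K : ℝ) (j : ι) (ε : ℝ) (p : E ι) (L : E ι → E ι) (Γ : ℝ × E ι → E ι) : Prop :=
  Sol ({p}ᶜ : Set (E ι))
      (pbP (univ : Set Unit) (Icc (0 : ℝ) 1 ×ˢ Cs i0) ∅ (fun z => Γ z.2)
        {x | ‖x‖ = 1 ∧ 0 ≤ ε * x j} (gs K 0) 1) univ (fun z => Γ z.2) ∧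
    (∀ n ∈ Icc (0 : ℝ) 1, ∀ ω ∈ Cs i0, ‖Γ (n, ω)‖ = 1 ∧ 0 ≤ ε * Γ (n, ω) j) ∧
    ∀ ω ∈ Cs i0, Γ (0, ω) = p ∧ Γ (1, ω) = L ω

/-- Two half displays joined along the rim. -/
noncomputable def dcat (Γ1 Γ2 : ℝ × E ι → E ι) (z : ℝ × E ι) : E ι :=
  if z.1 ≤ 1 / 2 then Γ1 (2 * z.1, z.2) else Γ2 (2 - 2 * z.1, z.2)

/-- The point at length `σ` of the meridian through `ω`, from `-e` (at 0) to `e` (at 4). -/
noncomputable def usp (i0 : ι) (σ : ℝ) (ω : E ι) : E ι :=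
  min 1 (min σ (4 - σ)) • ω + cl (-1) 1 (σ - 2) • (Pi.single i0 1 : E ι)

/-- The reflection in the axis. -/
def rfx (i0 : ι) (x : E ι) : E ι := Function.update x i0 (-x i0)

end Pool.Agent.Lib.MP_ecd4e3_gt.N
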