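import Mathlib

/-! Sponge problem in all dimensions: definitions used by the proof (not by the final statement). -/

namespace Pool.Agent.Lib.MP_ecd4e3_gt.N

open Set Filter Topology Metric MeasureTheory
open scoped NNReal ENNReal

/-- Coordinate space with the sup norm. -/
abbrev E (ι : Type) := ι → ℝ

/-- Clamp to an interval. -/
def cl (a b x : ℝ) : ℝ := max a (min b x)

/-! ### Problems and solutions -/

/-- Equal as soon as one of the two values lies in `U`. -/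
def Ap {Y : Type} (U : Set Y) (a b : Y) : Prop := (a ∈ U ∨ b ∈ U) → a = b

/-- A filling problem: target region, boundary part with its data, source set, gauge, budget. -/
structure Pb (T X Y : Type) where
  R : Set (T × X)
  B : Set (T × X)
  β : T × X → Y
  S : T → Set Y
  g : T × X → T × X → ℝ
  c : ℝ

section Core

variable {T X Y : Type} [MetricSpace T] [MetricSpace X] [MetricSpace Y]

/-- A solution, resolved over the set `W`. -/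
structure Sol (U : Set Y) (p : Pb T X Y) (W : Set Y) (Z : T × X → Y) : Prop where
  maps : ∀ z ∈ p.R, Z z ∈ U → Z z ∈ p.S z.1
  bd : ∀ z ∈ p.B, Z z ∈ U → Z z = p.β z
  bd' : ∀ z ∈ p.B, p.β z ∈ U → p.β z ∈ W → Z z = p.β z
  ex : ∀ t y, y ∈ p.S t → y ∈ U → y ∈ W → ∃ x, (t, x) ∈ p.R ∧ Z (t, x) = y
  uq : ∀ t x x', (t, x) ∈ p.R → (t, x') ∈ p.R → Z (t, x) ∈ U → Z (t, x) ∈ W →
    Z (t, x') = Z (t, x) → x' = x
  lip : ∀ z ∈ p.R, Z z ∈ U → Z z ∈ W → ContinuousWithinAt Z p.R z ∧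
    ∀ᶠ z' in 𝓝[p.R] z, dist (Z z') (Z z) ≤ p.g z z'

/-- Well formed problem. -/
def Pb.WF (U : Set Y) (p : Pb T X Y) : Prop :=
  p.B ⊆ p.R ∧ (∀ z ∈ p.B, p.β z ∈ U → p.β z ∈ p.S z.1) ∧ 0 < p.c

/-- The resolved set at depth `r` (empty for `none`). -/
def Wo (U : Set Y) (c : ℝ) : Option ℝ≥0 → Set Y
  | none => ∅
  | some r => {y | (r : ℝ) * c ≤ infDist y Uᶜ}

/-- The problem has a source point at depth `r`. -/
def Pb.NV (U : Set Y) (p : Pb T X Y) (r : ℝ≥0) : Prop :=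
  ∃ t y, y ∈ p.S t ∧ y ∈ U ∧ (r : ℝ) * p.c ≤ infDist y Uᶜ

/-- Pointwise operators. -/
def PW {I : Type} (U : Set Y) (ch : Set I) (G : (I → T × X → Y) → T × X → Y) : Prop :=
  ∀ z, (∃ y, ∀ F, G F z = y) ∨
    ∃ q ∈ ch, ∃ (z' : T × X) (φ : Y → Y), (∀ y, φ y ∈ U ↔ y ∈ U) ∧ ∀ F, G F z = φ (F q z')

/-- The operator `G` reduces the problem `p` to the problems `pb q`, `q ∈ ch`. -/
def IsRed {I : Type} (U : Set Y) (pb : I → Pb T X Y) (p : Pb T X Y) (ch : Set I)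
    (G : (I → T × X → Y) → T × X → Y) : Prop :=
  PW U ch G ∧ ∀ (o : Option ℝ≥0) (F : I → T × X → Y),
    (∀ q ∈ ch, Sol U (pb q) (Wo U (pb q).c o) (F q)) → Sol U p (Wo U p.c o) (G F)

/-- The gauge `a * dist x' x + b * dist t' t`. -/
def gs (a b : ℝ) (z z' : T × X) : ℝ := a * dist z'.2 z.2 + b * dist z'.1 z.1

/-- The gauge for a movie parameter `r` next to the parameter `t`. -/
def gm (a1 a2 a3 : ℝ) (z z' : (T × ℝ) × X) : ℝ :=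
  a1 * dist z'.2 z.2 + a2 * |z'.1.2 - z.1.2| + a3 * dist z'.1.1 z.1.1

/-- A product problem. -/
def pbP (J : Set T) (R B : Set X) (β : T × X → Y) (S : Set Y) (g : T × X → T × X → ℝ) (c : ℝ) :
    Pb T X Y :=
  ⟨J ×ˢ R, J ×ˢ B, β, fun t => {y | t ∈ J ∧ y ∈ S}, g, c⟩

/-- A collar of the set `D` inside the source `S`. -/
structure Col (U S D : Set Y) (η : ℝ) (σ ϱ : ℝ → Y → Y) (Fx : Set Y) : Prop where
  sub : D ⊆ S
  zero : ∀ y, σ 0 y = y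
  out : ∀ s y, y ∉ S → σ s y = y
  far : ∀ s, ∀ y ∈ Fx, σ s y = y
  memU : ∀ s ∈ Icc (0 : ℝ) 1, ∀ y, σ s y ∈ U ↔ y ∈ U
  maps : ∀ s ∈ Icc (0 : ℝ) 1, ∀ y ∈ S, σ s y ∈ S
  inv : ∀ s ∈ Icc (0 : ℝ) 1, ∀ y ∈ S, ϱ s (σ s y) = y
  lip : ∀ s ∈ Icc (0 : ℝ) 1, ∀ y ∈ S, ∀ᶠ w in 𝓝[Icc (0 : ℝ) 1 ×ˢ S] (s, y),
    dist (σ w.1 w.2) (σ s y) ≤ (1 + η) * dist w.2 y + η * |w.1 - s|
  lipi : ∀ s ∈ Icc (0 : ℝ) 1, ∀ y ∈ S,
    ∀ᶠ w in 𝓝[{w : ℝ × Y | w.1 ∈ Icc (0 : ℝ) 1 ∧ w.2 ∈ σ w.1 '' S}] (s, σ s y),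
      dist (ϱ w.1 w.2) y ≤ (1 + η) * dist w.2 (σ s y) + η * |w.1 - s|
  dle : ∀ s ∈ Icc (0 : ℝ) 1, ∀ y ∈ S, infDist (σ s y) Uᶜ ≤ (1 + η) * infDist y Uᶜ
  sep : ∀ s s', 0 ≤ s → s < s' → s' ≤ 1 → ∀ y ∈ D, y ∈ U → ∀ y' ∈ S, σ s y ≠ σ s' y'
  cover : ∀ y ∈ S, y ∈ U → (∃ y' ∈ S, σ 1 y' = y) ∨ ∃ s ∈ Ico (0 : ℝ) 1, ∃ y' ∈ D, σ s y' = y
  nest : ∀ s s', 0 ≤ s → s ≤ s' → s' ≤ 1 → ∀ y ∈ S, ∃ y' ∈ S, σ s y' = σ s' y

end Core

variable {ι : Type} [Fintype ι] [DecidableEq ι]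

/-! ### Shells -/

/-- A nested family of charted regions whose boundaries foliate a shell. -/
structure SD (R : ℝ → Set (E ι)) (Yc : ℝ → E ι → E ι) (ν : E ι → ℝ) (LY LT Lν Sz : ℝ) :
    Prop where
  pY : 0 ≤ LY
  pT : 0 ≤ LT
  pν : 0 ≤ Lν
  pS : 0 ≤ Sz
  bij : ∀ r ∈ Icc (0 : ℝ) 1, BijOn (Yc r) (R r) (closedBall 0 1)
  closed : ∀ r ∈ Icc (0 : ℝ) 1, IsClosed (R r)
  sub : ∀ r ∈ Icc (0 : ℝ) 1, R r ⊆ R 0
  mem : ∀ z ∈ R 0, ν z ∈ Icc (0 : ℝ) 1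
  le : ∀ z ∈ R 0, ∀ r ∈ Icc (0 : ℝ) 1, z ∈ R r ↔ r ≤ ν z
  bd : ∀ z ∈ R 0, ν z < 1 → ‖Yc (ν z) z‖ = 1
  eq : ∀ r ∈ Icc (0 : ℝ) 1, ∀ z ∈ R r, ‖Yc r z‖ = 1 → ν z = r
  lipν : ∀ z ∈ R 0, ∀ z' ∈ R 0, |ν z - ν z'| ≤ Lν * dist z z'
  lipY : ∀ r ∈ Icc (0 : ℝ) 1, ∀ r' ∈ Icc (0 : ℝ) 1, ∀ z ∈ R r, ∀ z' ∈ R r',
    dist (Yc r z) (Yc r' z') ≤ LY * dist z z' + LT * |r - r'|
  lipI : ∀ r ∈ Icc (0 : ℝ) 1, ∀ r' ∈ Icc (0 : ℝ) 1, ∀ z ∈ R r, ∀ z' ∈ R r',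
    dist z z' ≤ Sz * (dist (Yc r z) (Yc r' z') + LT * |r - r'|)

/-- The shell operator. -/
noncomputable def shOp {T Y : Type} (ν : E ι → ℝ) (Yc : ℝ → E ι → E ι) (σ : ℝ → Y → Y)
    (β : (T × ℝ) × E ι → Y) (Z : T × E ι → Y) (z : T × E ι) : Y :=
  if ν z.2 < 1 then σ (ν z.2) (β ((z.1, ν z.2), Yc (ν z.2) z.2)) else σ 1 (Z z)

/-- A movie of norm preserving self-maps of the model cube. -/
structure Mv (O : ℝ → E ι → E ι) (K1 K2 : ℝ) : Prop where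
  p1 : 1 ≤ K1
  p2 : 0 ≤ K2
  zero : ∀ x, O 0 x = x
  norm : ∀ r ∈ Icc (0 : ℝ) 1, ∀ x, ‖O r x‖ = ‖x‖
  bij : ∀ r ∈ Icc (0 : ℝ) 1, BijOn (O r) (closedBall 0 1) (closedBall 0 1)
  lip : ∀ r ∈ Icc (0 : ℝ) 1, ∀ r' ∈ Icc (0 : ℝ) 1, ∀ x ∈ closedBall (0 : E ι) 1,
    ∀ x' ∈ closedBall (0 : E ι) 1, dist (O r x) (O r' x') ≤ K1 * dist x x' + K2 * |r - r'|
  lipi : ∀ r ∈ Icc (0 : ℝ) 1, ∀ x ∈ closedBall (0 : E ι) 1,
    ∀ x' ∈ closedBall (0 : E ι) 1, dist x x' ≤ K1 * dist (O r x) (O r x')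

/-- Signed permutations of the coordinates. -/
def IsSP (O : E ι → E ι) : Prop :=
  ∃ (π : Equiv.Perm ι) (s : ι → ℝ), (∀ i, s i = 1 ∨ s i = -1) ∧ ∀ x i, O x i = s i * x (π i)

/-! ### Boxes and the grid -/

/-- A box given by two corners. -/
structure Bx (ι : Type) where
  lo : E ι
  hi : E ι

/-- The nested lattices. -/
def Lat (k : ℤ) (x : ℝ) : Prop :=
  ∃ m : ℤ, x = (2 : ℝ) ^ k * (m + if Even k then 1 / 3 else -1 / 3)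

namespace Bx

def set (Q : Bx ι) : Set (E ι) := Icc Q.lo Q.hi
def bd (Q : Bx ι) : Set (E ι) := {x | x ∈ Q.set ∧ ∃ i, x i = Q.lo i ∨ x i = Q.hi i}
def sd (Q : Bx ι) (i : ι) : ℝ := Q.hi i - Q.lo i
noncomputable def mid (Q : Bx ι) (i : ι) : ℝ := (Q.lo i + Q.hi i) / 2
/-- The affine map from the model cube. -/
noncomputable def af (Q : Bx ι) (x : E ι) : E ι := fun i => Q.mid i + Q.sd i / 2 * x i
/-- The affine map to the model cube. -/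
noncomputable def nm (Q : Bx ι) (x : E ι) : E ι := fun i => (2 * x i - Q.lo i - Q.hi i) / Q.sd i
noncomputable def vol (Q : Bx ι) : ℝ := ∏ i, Q.sd i
noncomputable def L (Q : Bx ι) (j : ι) : Bx ι := ⟨Q.lo, Function.update Q.hi j (Q.mid j)⟩
noncomputable def R (Q : Bx ι) (j : ι) : Bx ι := ⟨Function.update Q.lo j (Q.mid j), Q.hi⟩
/-- The half on the side of the sign `ε`. -/
noncomputable def H (Q : Bx ι) (j : ι) (ε : ℝ) : Bx ι := if 0 < ε then Q.R j else Q.L j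
def Pos (Q : Bx ι) : Prop := ∀ i, Q.lo i < Q.hi i
/-- A longest side. -/
def Long (Q : Bx ι) (j : ι) : Prop := ∀ i, Q.sd i ≤ Q.sd j
open Classical in
/-- The canonical halving direction. -/
noncomputable def sj [Nonempty ι] (Q : Bx ι) : ι :=
  if h : ∃ j, Q.Long j then h.choose else Classical.arbitrary ι
/-- The free coordinates. -/
noncomputable def fr (Q : Bx ι) : Finset ι := Finset.univ.filter fun i => Q.lo i ≠ Q.hi i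
/-- Mean value over a nondegenerate box. -/
noncomputable def avg (Q : Bx ι) (g : E ι → ℝ) : ℝ := (∫ x in Q.set, g x) / Q.vol
/-- Density of a measure. -/
noncomputable def den (Q : Bx ι) (ν : Measure (E ι)) : ℝ := (ν Q.set).toReal / Q.vol

end Bx

/-- A face of the grid of level `k`. -/
def Face (k : ℤ) (F : Bx ι) : Prop :=
  ∀ i, Lat k (F.lo i) ∧ (F.hi i = F.lo i ∨ F.hi i = F.lo i + 2 ^ k)

/-- A cube of the grid of level `k`. -/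
def Cube (k : ℤ) (G : Bx ι) : Prop := ∀ i, Lat k (G.lo i) ∧ G.hi i = G.lo i + 2 ^ k

/-- A nondegenerate box with corners in the lattice of level `k`. -/
def LB (k : ℤ) (Q : Bx ι) : Prop := ∀ i, Lat k (Q.lo i) ∧ Lat k (Q.hi i) ∧ Q.lo i < Q.hi i

/-- Sides `2 ^ k` or `2 ^ (k + 1)`, at least one short side. -/
def BX (k : ℤ) (Q : Bx ι) : Prop :=
  (∀ i, Lat k (Q.lo i) ∧ (Q.hi i = Q.lo i + 2 ^ k ∨ Q.hi i = Q.lo i + 2 ^ (k + 1))) ∧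
    ∃ i, Q.hi i = Q.lo i + 2 ^ k

open Classical in
/-- The level of the halves. -/
noncomputable def nk (k : ℤ) (Q : Bx ι) : ℤ := if Cube k Q then k - 1 else k

/-- The number of halvings, up to a constant. -/
noncomputable def lev (k : ℤ) (Q : Bx ι) : ℤ :=
  Fintype.card ι * k + (Finset.univ.filter fun i => Q.hi i ≠ Q.lo i + 2 ^ k).card

/-- The skeleton of codimension one. -/
def Sk (k : ℤ) : Set (E ι) := {x | ∃ i, Lat k (x i)}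

/-! ### Graph boxes -/

noncomputable def Mp (f : ℝ) : ℝ := 4 / f
noncomputable def Mx (f : ℝ) : ℝ := 20 / f
noncomputable def epw (ι : Type) [Fintype ι] (f : ℝ) : ℝ := f / (100 * Fintype.card ι)
noncomputable def eps (ι : Type) [Fintype ι] (f : ℝ) : ℝ := f ^ 3 / (10 ^ 6 * Fintype.card ι)
noncomputable def drp (ι : Type) [Fintype ι] (f : ℝ) : ℝ := f ^ 2 / (200 * Fintype.card ι)

/-- A region between graphs, with nominal widths and a centre. -/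
structure GB (ι : Type) where
  lo : ι → E ι → ℝ
  hi : ι → E ι → ℝ
  w : ι → ℝ
  o : E ι

namespace GB

def set (R : GB ι) : Set (E ι) := {z | ∀ i, R.lo i z ≤ z i ∧ z i ≤ R.hi i z}
/-- The canonical chart. -/
noncomputable def th (R : GB ι) (z : E ι) : E ι :=
  fun i => (2 * z i - R.lo i z - R.hi i z) / (R.hi i z - R.lo i z)
def bd (R : GB ι) : Set (E ι) := {z | z ∈ R.set ∧ ‖R.th z‖ = 1}
noncomputable def vol (R : GB ι) : ℝ := (volume R.set).toReal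
noncomputable def wmin (R : GB ι) : ℝ := ⨅ i, R.w i
noncomputable def wmax (R : GB ι) : ℝ := ⨆ i, R.w i

structure Valid (f : ℝ) (R : GB ι) : Prop where
  ll : ∀ i z z', |R.lo i z - R.lo i z'| ≤ eps ι f * dist z z'
  lh : ∀ i z z', |R.hi i z - R.hi i z'| ≤ eps ι f * dist z z'
  pos : ∀ i, 0 < R.w i
  wd : ∀ z ∈ R.set, ∀ i, R.w i ≤ R.hi i z - R.lo i z ∧
    R.hi i z - R.lo i z ≤ (1 + epw ι f) * R.w i
  ctr : ∀ i, 2 * R.o i = R.lo i R.o + R.hi i R.o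
  om : R.o ∈ R.set
  asp : ∀ i j, R.w i ≤ Mx f * R.w j

def FlatL (R : GB ι) (i : ι) : Prop := ∃ c, ∀ z : E ι, R.lo i z ≤ z i ↔ c ≤ z i
def FlatH (R : GB ι) (i : ι) : Prop := ∃ c, ∀ z : E ι, z i ≤ R.hi i z ↔ z i ≤ c
def Rect (R : GB ι) : Prop := ∀ i, R.FlatL i ∧ R.FlatH i
/-- Ready for the martingale mode. -/
def Fin (f : ℝ) (R : GB ι) : Prop := R.Rect ∧ ∀ i j, R.w i ≤ Mp f * R.w j

open Classical in
/-- Shape potential. -/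
noncomputable def phi (f : ℝ) (R : GB ι) : ℝ :=
  ∑ i, (((if R.FlatL i then 0 else 1) + (if R.FlatH i then 0 else 1)) *
      (1 + (∑ j, R.w j / R.w i) / (3 * Mx f * Fintype.card ι))
    + if Mp f * R.wmin < R.w i then R.w i / (Mp f * R.wmin) else 0)

open Classical in
/-- Guaranteed drop of the shape potential under a cut. -/
noncomputable def drop (f : ℝ) (R : GB ι) : ℝ := if R.Fin f then 0 else drp ι f

/-- Image under `z ↦ s • z + v`. -/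
noncomputable def map (R : GB ι) (s : ℝ) (v : E ι) : GB ι :=
  ⟨fun i z => s * R.lo i (s⁻¹ • (z - v)) + v i, fun i z => s * R.hi i (s⁻¹ • (z - v)) + v i,
    fun i => s * R.w i, s • R.o + v⟩

/-- Homothetic copy about the centre. -/
noncomputable def hom (R : GB ι) (s : ℝ) : GB ι := R.map s ((1 - s) • R.o)

/-- The pieces `R1` (low) and `R2` (high) of a cut along the hyperplane `z i = c`. -/
structure IsCut (f : ℝ) (R : GB ι) (i : ι) (c : ℝ) (R1 R2 : GB ι) : Prop where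
  l1 : R1.lo = R.lo
  h1 : R1.hi = Function.update R.hi i fun _ => c
  l2 : R2.lo = Function.update R.lo i fun _ => c
  h2 : R2.hi = R.hi
  v1 : R1.Valid f
  v2 : R2.Valid f
  w1 : ∀ j, j ≠ i → R1.w j = R.w j
  w2 : ∀ j, j ≠ i → R2.w j = R.w j
  m1 : f / 2 * R.w i ≤ R1.w i ∧ R1.w i ≤ (1 - f / 2) * R.w i
  m2 : f / 2 * R.w i ≤ R2.w i ∧ R2.w i ≤ (1 - f / 2) * R.w i
  mg : ∀ z ∈ R.set, R.lo i z + f / 4 * R.w i ≤ c ∧ c + f / 4 * R.w i ≤ R.hi i z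
  s1 : R1.set = R.set ∩ {z | z i ≤ c}
  s2 : R2.set = R.set ∩ {z | c ≤ z i}

/-- The chart adapted to a cut. -/
noncomputable def spl (R : GB ι) (i : ι) (c : ℝ) (z : E ι) : E ι :=
  Function.update (R.th z) i
    (if z i ≤ c then (z i - c) / (c - R.lo i z) else (z i - c) / (R.hi i z - c))

/-- The convex class of charts. -/
structure Ch (R : GB ι) (L : ℝ) (Y : E ι → E ι) : Prop where
  mem : ∀ z ∈ R.set, ∀ i, |Y z i| ≤ 1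
  fl : ∀ z ∈ R.set, ∀ i, Y z i = -1 ↔ z i = R.lo i z
  fh : ∀ z ∈ R.set, ∀ i, Y z i = 1 ↔ z i = R.hi i z
  lip : ∀ z ∈ R.set, ∀ z' ∈ R.set, ∀ D : ℝ, (∀ j, |z j - z' j| ≤ D * R.w j) →
    ∀ i, |Y z i - Y z' i| ≤ L * D
  dom : ∀ z ∈ R.set, ∀ z' ∈ R.set, ∀ i,
    (∀ j, |z j - z' j| * R.w i ≤ (z i - z' i) * R.w j) →
      (z i - z' i) / (2 * R.w i) ≤ Y z i - Y z' i

end GB

/-- A box as a graph box. -/
noncomputable def Bx.gb (Q : Bx ι) : GB ι :=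
  ⟨fun i _ => Q.lo i, fun i _ => Q.hi i, Q.sd, Q.mid⟩

/-- The affine map from the model cube onto its half on the side of `ε`. -/
noncomputable def hf (j : ι) (ε : ℝ) (x : E ι) : E ι := Function.update x j ((x j + ε) / 2)

/-- The standard problem on a graph box with data `β` on the model sphere. -/
noncomputable def pbS {Y : Type} (R : GB ι) (β : E ι → Y) (S : Set Y) (c : ℝ) :
    Pb Unit (E ι) Y :=
  pbP univ R.set R.bd (fun z => β (R.th z.2)) S (gs c 0) c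

/-! ### The martingale mode -/

/-- A deformation `x ↦ o + h (x + u x)` with derivative data. -/
structure FD (ι : Type) [Fintype ι] where
  o : E ι
  h : ι → ℝ
  u : E ι → E ι
  D : E ι → E ι →L[ℝ] E ι
  κ : ℝ

def FD.psi (F : FD ι) (x : E ι) : E ι := fun i => F.o i + F.h i * (x i + F.u x i)

/-- The divergence. -/
noncomputable def FD.dv (F : FD ι) (x : E ι) : ℝ := ∑ i, F.D x (Pi.single i 1) i

/-- Weighted sums of squared Haar differences. -/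
noncomputable def hs [Nonempty ι] (Λ : ℝ) (g : E ι → ℝ) : ℕ → Bx ι → ℝ
  | 0, _ => 0
  | m + 1, Q => ((Q.L Q.sj).avg g - (Q.R Q.sj).avg g) ^ 2
      + Λ * (hs Λ g m (Q.L Q.sj) + hs Λ g m (Q.R Q.sj)) / 2

/-- Constants of the martingale mode. -/
structure FC where
  M1 : ℝ
  M2 : ℝ
  Λ : ℝ
  δ : ℝ
  P1 : ℝ
  d1 : ℝ
  η0 : ℝ
  Cq : ℝ

/-- The potential. -/
noncomputable def pot [Nonempty ι] (c : FC) (Q : Bx ι) (F : FD ι) : ℝ :=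
  ∑ i, ∑ j, (Q.avg fun x => F.D x (Pi.single j 1) i) ^ 2
    + c.M1 * (F.κ * Q.vol ^ (1 / (Fintype.card ι : ℝ))) ^ 2
    + c.M2 * ⨆ m, hs c.Λ F.dv m Q

/-- Sides positive and of ratio at most two. -/
def Bx.Two (Q : Bx ι) : Prop := Q.Pos ∧ ∀ i j, Q.sd i ≤ 2 * Q.sd j

/-- State of the martingale mode. -/
structure FSt [Nonempty ι] (c : FC) (f : ℝ) (Q : Bx ι) (F : FD ι) : Prop where
  two : Q.Two
  ph : ∀ i, 0 < F.h i
  asp : ∀ i j, F.h i ≤ 5 / 2 * Mp f * F.h j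
  der : ∀ x, HasFDerivAt F.u (F.D x) x
  cont : Continuous F.D
  sm : ∀ x, ‖F.D x‖ ≤ c.δ
  pk : 0 ≤ F.κ
  lip : ∀ x ∈ Q.set, ∀ x' ∈ Q.set, ‖F.D x - F.D x'‖ ≤ F.κ * dist x x'
  pot : pot c Q F ≤ c.P1

/-- Nominal volume. -/
noncomputable def FD.a0 (F : FD ι) (Q : Bx ι) : ℝ := (∏ i, F.h i) * Q.vol

/-- True volume. -/
noncomputable def FD.vol (F : FD ι) (Q : Bx ι) : ℝ := (volume (F.psi '' Q.set)).toReal

/-- The graph box of a state of the martingale mode. -/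
structure FRel (f : ℝ) (Q : Bx ι) (F : FD ι) (R : GB ι) : Prop where
  valid : R.Valid f
  set : R.set = F.psi '' Q.set
  th : ∀ x, R.th (F.psi x) = Q.nm x
  w : ∀ i, R.w i = F.h i * Q.sd i

/-- What the martingale mode provides. -/
structure FC.Good [Nonempty ι] (c : FC) (f : ℝ) : Prop where
  pP : 0 < c.P1
  pP' : c.P1 ≤ 1
  pd : 0 < c.d1
  pd' : c.d1 ≤ 1
  pη : 0 < c.η0
  pη' : c.η0 ≤ 1
  pC : 1 ≤ c.Cq
  nonneg : ∀ (Q : Bx ι) F, FSt c f Q F → 0 ≤ pot c Q F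
  entry : ∀ (Q : Bx ι) (o : E ι) (h : ι → ℝ), Q.Two → (∀ i, 0 < h i) →
    (∀ i j, h i ≤ 5 / 2 * Mp f * h j) →
      FSt c f Q ⟨o, h, 0, 0, 0⟩ ∧ pot c Q ⟨o, h, 0, 0, 0⟩ = 0
  vol : ∀ (Q : Bx ι) F, FSt c f Q F → F.a0 Q / 2 ≤ F.vol Q ∧ F.vol Q ≤ 2 * F.a0 Q
  exit : ∀ (Q : Bx ι) F, FSt c f Q F → ∃ R, FRel f Q F R
  step : ∀ (Q : Bx ι) F, FSt c f Q F → (Q.L Q.sj).Two → (Q.R Q.sj).Two →
    pot c Q F ≤ c.P1 / 4 → ∀ η c1 c2 : ℝ, 0 ≤ η → η ≤ c.η0 →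
    |c1 - c2| ≤ c.d1 * F.a0 Q →
    c1 + c2 + η * F.a0 Q * pot c Q F + η * c.Cq * (c1 - c2) ^ 2 / F.a0 Q ≤ F.vol Q →
      ∃ F' : FD ι, F'.o = F.o ∧ F'.h = F.h ∧ FSt c f (Q.L Q.sj) F' ∧ FSt c f (Q.R Q.sj) F' ∧
        (∀ x, x ∉ Q.set ∨ x ∈ Q.bd → F'.u x = F.u x) ∧
        c1 + η * F'.a0 (Q.L Q.sj) * pot c (Q.L Q.sj) F' ≤ F'.vol (Q.L Q.sj) ∧
        c2 + η * F'.a0 (Q.R Q.sj) * pot c (Q.R Q.sj) F' ≤ F'.vol (Q.R Q.sj)
  mix : ∀ (Q Q' : Bx ι) F F', FSt c f Q F → FSt c f Q' F' → F'.o = F.o → F'.h = F.h →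
    (∀ x, x ∉ Q.set ∨ x ∈ Q.bd → F'.u x = F.u x) →
      (∀ r ∈ Icc (0 : ℝ) 1,
        BijOn (fun x => (1 - r) • F.psi x + r • F'.psi x) Q.set (F.psi '' Q.set)) ∧
      ∀ H : ℝ, (∀ i, F.h i ≤ H) → ∀ S : ℝ, (∀ i, Q.sd i ≤ S) →
        ∀ r ∈ Icc (0 : ℝ) 1, ∀ r' ∈ Icc (0 : ℝ) 1, ∀ x ∈ Q.set, ∀ x' ∈ Q.set,
          dist ((1 - r) • F.psi x + r • F'.psi x) ((1 - r') • F.psi x' + r' • F'.psi x') ≤
            2 * H * (dist x x' + S * |r - r'|)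

/-! ### Reductions for labelled sources -/

/-- Labelled points. -/
abbrev YL (ι : Type) := ℕ × E ι
/-- The labelled copy of an open set. -/
def UL (U0 : Set (E ι)) : Set (YL ι) := Prod.snd ⁻¹' U0
/-- Static problems with labelled sources. -/
abbrev PE (ι : Type) := Pb Unit (E ι) (YL ι)

/-- Every sub-solution sits isometrically in the solution, unchanged over `F0`. -/
def Ext (U0 F0 : Set (E ι)) (p : PE ι) (ps : Set (PE ι))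
    (G : (PE ι → Unit × E ι → YL ι) → Unit × E ι → YL ι) : Prop :=
  ∀ q ∈ ps, ∃ h : E ι ≃ᵢ E ι, (∀ x, ((), x) ∈ q.R → ((), h x) ∈ p.R) ∧
    ∀ F : PE ι → Unit × E ι → YL ι, (∀ q' ∈ ps, Sol (UL U0) q' univ (F q')) →
      ∀ x, ((), x) ∈ q.R → (F q ((), x)).2 ∈ U0 → (F q ((), x)).2 ∈ F0 →
        (G F ((), h x)).2 = (F q ((), x)).2

/-- The problem `p` reduces to the problems in `ps`. -/
def Red (U0 F0 : Set (E ι)) (p : PE ι) (ps : Set (PE ι)) : Prop :=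
  ∃ G, IsRed (UL U0) id p ps G ∧ Ext U0 F0 p ps G

/-! ### Boundary data -/

/-- The problem of a time dependent self-map of the set `A`. -/
noncomputable def pbF {Y : Type} (e : E ι → Y) (lo : ℝ) (A : Set (E ι)) (K : ℝ) (k : ℤ) :
    Pb ℝ (E ι) Y :=
  pbP (Ici lo) A ∅ (fun z => e z.2) (e '' A)
    (fun z z' => K * (z.1 * dist z'.2 z.2 + 2 ^ k * |z'.1 - z.1|)) 1

/-- Squeezing maps on the proper faces of the grid cubes. -/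
structure BD {Y : Type} [MetricSpace Y] (U : Set Y) (e : E ι → Y) (ok : ℤ → Prop) (B u K : ℝ)
    (T : ℤ) (lo sp : ℤ → Bx ι → ℝ) (P : ℤ → ℝ × E ι → Y) : Prop where
  okm : ∀ k, ok k → ok (k - 1)
  pK : 1 ≤ K
  pos : ∀ k G, ok k → Cube k G → 0 < lo k G
  loT : ∀ k G, ok k → Cube k G → lo k G ≤ B ^ T
  sol : ∀ k G F, ok k → Cube k G → Face k F → F.set ⊆ G.bd →
    Sol U (pbF e (lo k G) F.set K k) univ (P k)
  split : ∀ k G t, ok k → Cube k G → sp k G ≤ t → ∀ x ∈ G.bd,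
    Ap U (P k (t, x)) (P (k - 1) (t, x))
  froz : ∀ k G (i : ℤ) t t', ok k → Cube k G → lo k G ≤ t → lo k G ≤ t' →
    t ∈ Icc (B ^ i * u) (B ^ (i + 1)) → t' ∈ Icc (B ^ i * u) (B ^ (i + 1)) → ∀ x ∈ G.bd,
    Ap U (P k (t, x)) (P k (t', x))
  idn : ∀ k G t, ok k → Cube k G → B ^ T ≤ t → ∀ x ∈ G.bd, Ap U (P k (t, x)) (e x)

/-! ### Displays of the model sphere between two points -/

/-- The cross-section sphere orthogonal to the axis `i0`. -/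
def Cs (i0 : ι) : Set (E ι) := {ω | ω i0 = 0 ∧ ‖ω‖ = 1}

/-- A family of displays: the band `[0,1] x Cs` sweeps the sphere from `p` to `q`. -/
def DispM {T : Type} [MetricSpace T] (i0 : ι) (J : Set T) (K : ℝ) (p q : E ι)
    (Ξ : T × (ℝ × E ι) → E ι) : Prop :=
  Sol ({p, q}ᶜ : Set (E ι))
      (pbP J (Icc (0 : ℝ) 1 ×ˢ Cs i0) ∅ Ξ (sphere 0 1) (gs K K) 1) univ Ξ ∧
    (∀ t ∈ J, ∀ n ∈ Icc (0 : ℝ) 1, ∀ ω ∈ Cs i0, ‖Ξ (t, n, ω)‖ = 1) ∧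
    ∀ t ∈ J, ∀ ω ∈ Cs i0, Ξ (t, 0, ω) = p ∧ Ξ (t, 1, ω) = q

/-- A display. -/
def Disp (i0 : ι) (K : ℝ) (p q : E ι) (Ξ : ℝ × E ι → E ι) : Prop :=
  DispM (T := Unit) i0 univ K p q fun z => Ξ z.2

/-- A movie of displays. -/
def DMov (i0 : ι) (K : ℝ) (p q : E ι) (Ξ Ξ' : ℝ × E ι → E ι) : Prop :=
  ∃ M : ℝ × (ℝ × E ι) → E ι, DispM i0 (Icc (0 : ℝ) 1) K p q M ∧
    ∀ n ∈ Icc (0 : ℝ) 1, ∀ ω ∈ Cs i0, M (0, n, ω) = Ξ (n, ω) ∧ M (1, n, ω) = Ξ' (n, ω)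

/-- Half-integral points of the model sphere. -/
def Hp (p : E ι) : Prop := ‖p‖ = 1 ∧ ∀ i, ∃ m : ℤ, 2 * p i = m

/-- The reversed display. -/
def rev (Ξ : ℝ × E ι → E ι) (z : ℝ × E ι) : E ι := Ξ (1 - z.1, z.2)

/-- A display which is standard near its exit point, the centre of a face normal to `j`. -/
def GoodX (i0 : ι) (K : ℝ) (p q : E ι) (j : ι) (Ξ : ℝ × E ι → E ι) : Prop :=
  Disp i0 K p q Ξ ∧ Hp p ∧ p ≠ q ∧ (q = Pi.single j 1 ∨ q = Pi.single j (-1)) ∧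
    ∃ L : E ι → E ι, IsSP L ∧ L (Pi.single i0 1) = q ∧
      ∀ n ∈ Icc (3 / 4 : ℝ) 1, ∀ ω ∈ Cs i0, Ξ (n, ω) = q + max 0 ((7 - 8 * n) / 3) • L ω

/-- Standard near the exit point or near the entry point. -/
def Good (i0 : ι) (K : ℝ) (p q : E ι) (j : ι) (Ξ : ℝ × E ι → E ι) : Prop :=
  GoodX i0 K p q j Ξ ∨ GoodX i0 K q p j (rev Ξ)

/-- A display adapted to the halving in direction `j`, with the displays of the halves. -/
structure Adapt (i0 : ι) (K : ℝ) (p q : E ι) (j : ι) (ε : ℝ) (Ξ Ξ1 Ξ2 : ℝ × E ι → E ι)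
    (p1 q2 : E ι) : Prop where
  sg : ε = 1 ∨ ε = -1
  d : Disp i0 K p q Ξ
  g1 : Good i0 K p1 (Pi.single j ε) j Ξ1
  g2 : Good i0 K (Pi.single j (-ε)) q2 j Ξ2
  hp : p = hf j (-ε) p1
  hq : q = hf j ε q2
  e1 : ∀ m ∈ Icc (0 : ℝ) (1 / 2), ∀ ω ∈ Cs i0, Ξ (m, ω) = hf j (-ε) (Ξ1 (m, ω))
  e2 : ∀ m ∈ Icc (1 / 2 : ℝ) 1, ∀ ω ∈ Cs i0, Ξ (m, ω) = hf j ε (Ξ2 (m, ω))
  wall : ∀ l ∈ Icc (0 : ℝ) 1, ∀ ω ∈ Cs i0, Ξ1 ((1 + l) / 2, ω) j = ε ∧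
    hf j (-ε) (Ξ1 ((1 + l) / 2, ω)) = hf j ε (Ξ2 ((1 - l) / 2, ω))
  sur : ∀ y : E ι, ‖y‖ ≤ 1 → y j = ε → ∃ l ∈ Icc (0 : ℝ) 1, ∃ ω ∈ Cs i0, Ξ1 ((1 + l) / 2, ω) = y
  c1 : ∀ m ∈ Icc (7 / 8 : ℝ) 1, ∀ ω ∈ Cs i0, Ξ1 (m, ω) = Pi.single j ε
  c2 : ∀ m ∈ Icc (0 : ℝ) (1 / 8), ∀ ω ∈ Cs i0, Ξ2 (m, ω) = Pi.single j (-ε)

/-- The display extended to the model sphere, constant on the two caps. -/
noncomputable def hat (i0 : ι) (p q : E ι) (Ξ : ℝ × E ι → E ι) (x : E ι) : E ι :=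
  if ‖Function.update x i0 0‖ < 1 then (if x i0 < 0 then p else q)
  else Ξ ((x i0 + 1) / 2, Function.update x i0 0)

/-- A movie of self-maps of the model sphere, bijective away from `p` and `q`. -/
def SMov (K : ℝ) (p q : E ι) (f g : E ι → E ι) : Prop :=
  ∃ M : ℝ × E ι → E ι,
    Sol ({p, q}ᶜ : Set (E ι))
      (pbP (Icc (0 : ℝ) 1) (sphere 0 1) ∅ M (sphere 0 1) (gs K K) 1) univ M ∧
    ∀ x ∈ sphere (0 : E ι) 1, M (0, x) = f x ∧ M (1, x) = g x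

end Pool.Agent.Lib.MP_ecd4e3_gt.N
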