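import Pool.Agent.Lib.MP_ecd4e3_gt.N.Grid

/-! Haar sums. -/

namespace Pool.Agent.Lib.MP_ecd4e3_gt.N

open Set Filter Topology Metric MeasureTheory
open scoped NNReal ENNReal

variable {ι : Type} [Fintype ι] [DecidableEq ι] [Nonempty ι]

/-- The nominal size of a box. -/
noncomputable def Bx.sc (Q : Bx ι) : ℝ := Q.vol ^ (1 / (Fintype.card ι : ℝ))

omit [Fintype ι] [Nonempty ι] in
theorem fh_sd_L (Q : Bx ι) (j i : ι) :
    (Q.L j).sd i = if i = j then Q.sd j / 2 else Q.sd i := by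
  unfold Bx.sd Bx.L Bx.mid
  by_cases h : i = j
  · subst h
    simp only [Function.update_self, if_true]
    ring
  · simp only [Function.update_of_ne h, if_neg h]

omit [Fintype ι] [Nonempty ι] in
theorem fh_sd_R (Q : Bx ι) (j i : ι) :
    (Q.R j).sd i = if i = j then Q.sd j / 2 else Q.sd i := by
  unfold Bx.sd Bx.R Bx.mid
  by_cases h : i = j
  · subst h
    simp only [Function.update_self, if_true]
    ring
  · simp only [Function.update_of_ne h, if_neg h]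

omit [Fintype ι] [DecidableEq ι] [Nonempty ι] in
theorem fh_sd_pos {Q : Bx ι} (h : Q.Pos) (i : ι) : 0 < Q.sd i := sub_pos.2 (h i)

theorem fh_two {Q Q' : Bx ι} (h : Q.Two) (hp : Q'.Pos)
    (hs : ∀ i, Q'.sd i = if i = Q.sj then Q.sd Q.sj / 2 else Q.sd i) : Q'.Two := by
  refine ⟨hp, fun i k => ?_⟩
  rw [hs i, hs k]
  have h1 := fh_sd_pos h.1 Q.sj
  have h2 := fh_sd_pos h.1 k
  have h3 := h.2 Q.sj k
  have h4 := h.2 i k
  have h5 := Q.long_sj i
  split_ifs <;> linarith only [h1, h2, h3, h5, h4]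

theorem Bx.Two.L {Q : Bx ι} (h : Q.Two) : (Q.L Q.sj).Two :=
  fh_two h (h.1.L _) (fh_sd_L Q Q.sj)
theorem Bx.Two.R {Q : Bx ι} (h : Q.Two) : (Q.R Q.sj).Two :=
  fh_two h (h.1.R _) (fh_sd_R Q Q.sj)

omit [DecidableEq ι] in
theorem fh_root {a : ℝ} (ha : 0 ≤ a) :
    (a ^ Fintype.card ι) ^ (1 / (Fintype.card ι : ℝ)) = a := by
  rw [one_div]
  exact Real.pow_rpow_inv_natCast ha Fintype.card_ne_zero

theorem Bx.Two.sc_bd {Q : Bx ι} (h : Q.Two) (i : ι) :
    0 < Q.sc ∧ Q.sd i ≤ 2 * Q.sc ∧ Q.sc ≤ 2 * Q.sd i := by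
  have hv := h.1.vol_pos
  have hi := fh_sd_pos h.1 i
  have he : (0 : ℝ) ≤ 1 / (Fintype.card ι : ℝ) := by positivity
  have h1 : (Q.sd i / 2) ^ Fintype.card ι ≤ Q.vol := by
    unfold Bx.vol
    rw [← Finset.card_univ, ← Finset.prod_const]
    refine Finset.prod_le_prod (fun k _ => by positivity) fun k _ => ?_
    have := h.2 i k
    linarith only [this]
  have h2 : Q.vol ≤ (2 * Q.sd i) ^ Fintype.card ι := by
    unfold Bx.vol
    rw [← Finset.card_univ, ← Finset.prod_const]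
    exact Finset.prod_le_prod (fun k _ => (fh_sd_pos h.1 k).le) fun k _ => h.2 k i
  refine ⟨Real.rpow_pos_of_pos hv _, ?_, ?_⟩
  · have := Real.rpow_le_rpow (by positivity) h1 he
    rw [fh_root (by positivity)] at this
    unfold Bx.sc
    linarith only [this]
  · have := Real.rpow_le_rpow hv.le h2 he
    rw [fh_root (by positivity)] at this
    exact this

theorem Bx.sc_half {Q : Bx ι} (h : Q.Pos) (j : ι) :
    (Q.L j).sc = (1 / 2 : ℝ) ^ (1 / (Fintype.card ι : ℝ)) * Q.sc ∧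
      (Q.R j).sc = (1 / 2 : ℝ) ^ (1 / (Fintype.card ι : ℝ)) * Q.sc := by
  have hv := h.vol_pos
  have e : Q.vol / 2 = (1 / 2 : ℝ) * Q.vol := by ring
  unfold Bx.sc
  rw [Q.vol_L, Q.vol_R, e, Real.mul_rpow (by norm_num) hv.le]
  exact ⟨rfl, rfl⟩

theorem fh_int {Q : Bx ι} {g : E ι → ℝ} (hg : ContinuousOn g Q.set) :
    IntegrableOn g Q.set volume :=
  hg.integrableOn_compact Q.isCompact_set

theorem fh_sub_L {Q : Bx ι} (h : Q.Pos) (j : ι) : (Q.L j).set ⊆ Q.set := by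
  rw [h.set_L]
  exact inter_subset_left

theorem fh_sub_R {Q : Bx ι} (h : Q.Pos) (j : ι) : (Q.R j).set ⊆ Q.set := by
  rw [h.set_R]
  exact inter_subset_left

theorem Bx.avg_half {Q : Bx ι} (h : Q.Pos) (j : ι) {g : E ι → ℝ} (hg : ContinuousOn g Q.set) :
    Q.avg g = ((Q.L j).avg g + (Q.R j).avg g) / 2 := by
  have hv := h.vol_pos
  have hu : Q.set = (Q.L j).set ∪ (Q.R j).set := by
    rw [h.set_L, h.set_R, ← inter_union_distrib_left]
    refine (inter_eq_left.2 fun x _ => ?_).symm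
    exact le_total (x j) (Q.mid j)
  have hd : AEDisjoint volume (Q.L j).set (Q.R j).set := by
    have h0 : (volume : Measure (E ι)) {x | x j = Q.mid j} = 0 :=
      Measure.pi_hyperplane (fun _ : ι => (volume : Measure ℝ)) j (Q.mid j)
    refine measure_mono_null (fun x hx => ?_) h0
    rw [h.set_L, h.set_R] at hx
    exact le_antisymm hx.1.2 hx.2.2
  have key : ∫ x in Q.set, g x = (∫ x in (Q.L j).set, g x) + ∫ x in (Q.R j).set, g x := by
    conv_lhs => rw [hu]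
    exact setIntegral_union₀ hd (Q.R j).isClosed_set.measurableSet.nullMeasurableSet
      (fh_int (hg.mono (fh_sub_L h j))) (fh_int (hg.mono (fh_sub_R h j)))
  unfold Bx.avg
  rw [key, Q.vol_L, Q.vol_R]
  field_simp

theorem Bx.avg_add {Q : Bx ι} {g g' : E ι → ℝ} (hg : ContinuousOn g Q.set)
    (hg' : ContinuousOn g' Q.set) : (Q.avg fun x => g x + g' x) = Q.avg g + Q.avg g' := by
  unfold Bx.avg
  rw [integral_add (fh_int hg) (fh_int hg'), add_div]
theorem Bx.avg_smul (Q : Bx ι) (c : ℝ) (g : E ι → ℝ) : (Q.avg fun x => c * g x) = c * Q.avg g := by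
  unfold Bx.avg
  rw [integral_const_mul, mul_div_assoc]
theorem Bx.avg_const {Q : Bx ι} (h : Q.Pos) (c : ℝ) : (Q.avg fun _ => c) = c := by
  have hv := h.vol_pos
  unfold Bx.avg
  rw [setIntegral_const, measureReal_def, h.volume_set, ENNReal.toReal_ofReal hv.le, smul_eq_mul]
  field_simp
theorem Bx.avg_congr {Q : Bx ι} {g g' : E ι → ℝ} (h : EqOn g g' Q.set) : Q.avg g = Q.avg g' := by
  unfold Bx.avg
  rw [setIntegral_congr_fun Q.isClosed_set.measurableSet h]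
theorem Bx.avg_mono {Q : Bx ι} (h : Q.Pos) {g g' : E ι → ℝ} (hg : ContinuousOn g Q.set)
    (hg' : ContinuousOn g' Q.set) (hle : ∀ x ∈ Q.set, g x ≤ g' x) : Q.avg g ≤ Q.avg g' := by
  unfold Bx.avg
  exact div_le_div_of_nonneg_right
    (setIntegral_mono_on (fh_int hg) (fh_int hg') Q.isClosed_set.measurableSet hle) h.vol_pos.le
theorem Bx.abs_avg_sub_le {Q : Bx ι} (h : Q.Pos) {g : E ι → ℝ} (hg : ContinuousOn g Q.set)
    {c M : ℝ} (hM : ∀ x ∈ Q.set, |g x - c| ≤ M) : |Q.avg g - c| ≤ M := by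
  have h1 := Bx.avg_mono h hg (continuousOn_const (c := c + M)) fun x hx => by
    have := (abs_le.1 (hM x hx)).2
    linarith only [this]
  have h2 := Bx.avg_mono h (continuousOn_const (c := c - M)) hg fun x hx => by
    have := (abs_le.1 (hM x hx)).1
    linarith only [this]
  rw [Bx.avg_const h] at h1 h2
  exact abs_le.2 ⟨by linarith only [h2], by linarith only [h1]⟩
/-- The right half is a translate of the left half. -/
theorem Bx.avg_R {Q : Bx ι} (h : Q.Pos) (j : ι) (g : E ι → ℝ) :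
    (Q.R j).avg g = (Q.L j).avg fun x => g (x + Pi.single j (Q.sd j / 2)) := by
  have hp : (fun x : E ι => x + Pi.single j (Q.sd j / 2)) ⁻¹' (Q.R j).set = (Q.L j).set := by
    ext x
    rw [mem_preimage, Bx.mem_set, Bx.mem_set]
    refine forall_congr' fun i => ?_
    unfold Bx.L Bx.R Bx.mid Bx.sd
    by_cases hi : i = j
    · subst hi
      simp only [Function.update_self, Pi.add_apply, Pi.single_eq_same]
      constructor <;> rintro ⟨a, b⟩ <;> constructor <;> linarith only [a, b]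
    · simp only [Function.update_of_ne hi, Pi.add_apply, Pi.single_eq_of_ne hi, add_zero]
  have key := (measurePreserving_add_right (volume : Measure (E ι))
    (Pi.single j (Q.sd j / 2))).setIntegral_preimage_emb
    (Homeomorph.addRight (Pi.single j (Q.sd j / 2) : E ι)).measurableEmbedding g (Q.R j).set
  rw [hp] at key
  unfold Bx.avg
  rw [key, Q.vol_L, Q.vol_R]

theorem hs_nonneg {Λ : ℝ} (hΛ : 0 ≤ Λ) (g : E ι → ℝ) (m : ℕ) (Q : Bx ι) : 0 ≤ hs Λ g m Q := by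
  induction m generalizing Q with
  | zero => exact le_rfl
  | succ m ih =>
    have h1 := ih (Q.L Q.sj)
    have h2 := ih (Q.R Q.sj)
    rw [hs]
    positivity

theorem fh_hs_succ {Λ : ℝ} (hΛ : 0 ≤ Λ) (g : E ι → ℝ) (m : ℕ) (Q : Bx ι) :
    hs Λ g m Q ≤ hs Λ g (m + 1) Q := by
  induction m generalizing Q with
  | zero => exact hs_nonneg hΛ g 1 Q
  | succ m ih =>
    have h1 := ih (Q.L Q.sj)
    have h2 := ih (Q.R Q.sj)
    rw [hs, hs.eq_2 Λ g Q (m + 1)]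
    have := mul_le_mul_of_nonneg_left (add_le_add h1 h2) hΛ
    linarith only [this]

theorem hs_mono {Λ : ℝ} (hΛ : 0 ≤ Λ) (g : E ι → ℝ) (Q : Bx ι) :
    Monotone fun m => hs Λ g m Q :=
  monotone_nat_of_le_succ fun m => fh_hs_succ hΛ g m Q
theorem hs_congr {Λ : ℝ} {g g' : E ι → ℝ} (m : ℕ) {Q : Bx ι} (hQ : Q.Pos) (h : EqOn g g' Q.set) :
    hs Λ g m Q = hs Λ g' m Q := by
  induction m generalizing Q with
  | zero => rfl
  | succ m ih =>
    have a1 := h.mono (fh_sub_L hQ Q.sj)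
    have a2 := h.mono (fh_sub_R hQ Q.sj)
    rw [hs, hs, ih (hQ.L _) a1, ih (hQ.R _) a2, Bx.avg_congr a1, Bx.avg_congr a2]
theorem hs_zero (Λ : ℝ) (m : ℕ) (Q : Bx ι) : hs Λ (fun _ => 0) m Q = 0 := by
  induction m generalizing Q with
  | zero => rfl
  | succ m ih =>
    rw [hs, ih, ih]
    simp [Bx.avg]
theorem hs_smul (Λ c : ℝ) (g : E ι → ℝ) (m : ℕ) (Q : Bx ι) :
    hs Λ (fun x => c * g x) m Q = c ^ 2 * hs Λ g m Q := by
  induction m generalizing Q with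
  | zero => simp [hs]
  | succ m ih =>
    rw [hs, hs, ih, ih, Bx.avg_smul, Bx.avg_smul]
    ring

theorem fh_sq {t : ℝ} (ht : 0 < t) (a b : ℝ) :
    (a + b) ^ 2 ≤ (1 + t) * a ^ 2 + (1 + 1 / t) * b ^ 2 := by
  have h : (1 + t) * a ^ 2 + (1 + 1 / t) * b ^ 2 - (a + b) ^ 2 = (t * a - b) ^ 2 / t := by
    field_simp
    ring
  have h2 : 0 ≤ (t * a - b) ^ 2 / t := by positivity
  linarith only [h, h2]

theorem hs_add {Λ : ℝ} (hΛ : 0 ≤ Λ) {g g' : E ι → ℝ} (hg : Continuous g) (hg' : Continuous g')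
    {t : ℝ} (ht : 0 < t) (m : ℕ) (Q : Bx ι) :
    hs Λ (fun x => g x + g' x) m Q ≤ (1 + t) * hs Λ g m Q + (1 + 1 / t) * hs Λ g' m Q := by
  induction m generalizing Q with
  | zero => simp [hs]
  | succ m ih =>
    have h1 := ih (Q.L Q.sj)
    have h2 := ih (Q.R Q.sj)
    rw [hs, hs, hs, Bx.avg_add hg.continuousOn hg'.continuousOn,
      Bx.avg_add hg.continuousOn hg'.continuousOn]
    have h3 := fh_sq ht ((Q.L Q.sj).avg g - (Q.R Q.sj).avg g)
      ((Q.L Q.sj).avg g' - (Q.R Q.sj).avg g')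
    have h4 := mul_le_mul_of_nonneg_left (add_le_add h1 h2) hΛ
    have e : (Q.L Q.sj).avg g + (Q.L Q.sj).avg g' - ((Q.R Q.sj).avg g + (Q.R Q.sj).avg g') =
        (Q.L Q.sj).avg g - (Q.R Q.sj).avg g + ((Q.L Q.sj).avg g' - (Q.R Q.sj).avg g') := by ring
    rw [e]
    nlinarith only [h3, h4]

/-- The Haar difference of a Lipschitz function. -/
theorem fh_diff {Q : Bx ι} (h : Q.Two) {g : E ι → ℝ} (hg : Continuous g) {κ : ℝ} (hκ : 0 ≤ κ)
    (hl : ∀ x ∈ Q.set, ∀ x' ∈ Q.set, |g x - g x'| ≤ κ * dist x x') :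
    ((Q.L Q.sj).avg g - (Q.R Q.sj).avg g) ^ 2 ≤ 16 * (κ * Q.sc) ^ 2 := by
  have hs0 := (h.sc_bd Q.sj).1
  have hlo : Q.lo ∈ Q.set := Bx.mem_set.2 fun i => ⟨le_rfl, (h.1 i).le⟩
  have hb : ∀ x ∈ Q.set, |g x - g Q.lo| ≤ κ * (2 * Q.sc) := fun x hx =>
    (hl x hx _ hlo).trans (mul_le_mul_of_nonneg_left
      (Bx.dist_le (by positivity) (fun i => (h.sc_bd i).2.1) hx hlo) hκ)
  have h1 := abs_le.1 (Bx.abs_avg_sub_le (h.1.L Q.sj) hg.continuousOn
    fun x hx => hb x (fh_sub_L h.1 _ hx))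
  have h2 := abs_le.1 (Bx.abs_avg_sub_le (h.1.R Q.sj) hg.continuousOn
    fun x hx => hb x (fh_sub_R h.1 _ hx))
  have h3 : |(Q.L Q.sj).avg g - (Q.R Q.sj).avg g| ≤ 4 * (κ * Q.sc) :=
    abs_le.2 ⟨by linarith only [h1.1, h2.2, h1, h2], by linarith only [h1.2, h2.1, h1, h2]⟩
  calc _ = |(Q.L Q.sj).avg g - (Q.R Q.sj).avg g| ^ 2 := (sq_abs _).symm
    _ ≤ (4 * (κ * Q.sc)) ^ 2 := pow_le_pow_left₀ (abs_nonneg _) h3 2
    _ = _ := by ring

/-- The variance identity. -/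
theorem fh_var {Q : Bx ι} (h : Q.Pos) {g : E ι → ℝ} (hg : Continuous g) (c : ℝ) :
    (Q.avg fun x => (g x - Q.avg g) ^ 2) = (Q.avg fun x => (g x - c) ^ 2) - (Q.avg g - c) ^ 2 := by
  set a := Q.avg g with ha
  have e : (fun x => (g x - a) ^ 2) =
      fun x => (g x - c) ^ 2 + ((2 * (c - a)) * g x + (a ^ 2 - c ^ 2)) := by
    funext x
    ring
  rw [e, Bx.avg_add (by fun_prop) (by fun_prop), Bx.avg_add (by fun_prop) (by fun_prop),
    Bx.avg_smul, Bx.avg_const h, ← ha]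
  ring

theorem fh_avg_nonneg {Q : Bx ι} (h : Q.Pos) {g : E ι → ℝ} (hg : Continuous g)
    (h0 : ∀ x, 0 ≤ g x) : 0 ≤ Q.avg g := by
  have := Bx.avg_mono h (continuousOn_const (c := (0 : ℝ))) hg.continuousOn fun x _ => h0 x
  rwa [Bx.avg_const h] at this

theorem fh_lip1 {Λ C q : ℝ} (hΛ : 0 ≤ Λ) (hC : 0 ≤ C)
    (hq : q = Λ * ((1 / 2 : ℝ) ^ (1 / (Fintype.card ι : ℝ))) ^ 2) (hCq : 16 + q * C ≤ C)
    {g : E ι → ℝ} (hg : Continuous g) {κ : ℝ} (hκ : 0 ≤ κ) (m : ℕ) {Q : Bx ι} (h : Q.Two)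
    (hl : ∀ x ∈ Q.set, ∀ x' ∈ Q.set, |g x - g x'| ≤ κ * dist x x') :
    hs Λ g m Q ≤ C * (κ * Q.sc) ^ 2 := by
  induction m generalizing Q with
  | zero =>
    rw [hs]
    positivity
  | succ m ih =>
    have h1 := ih h.L fun x hx x' hx' => hl x (fh_sub_L h.1 _ hx) x' (fh_sub_L h.1 _ hx')
    have h2 := ih h.R fun x hx x' hx' => hl x (fh_sub_R h.1 _ hx) x' (fh_sub_R h.1 _ hx')
    rw [(Bx.sc_half h.1 Q.sj).1] at h1
    rw [(Bx.sc_half h.1 Q.sj).2] at h2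
    have h3 := fh_diff h hg hκ hl
    have h4 := mul_le_mul_of_nonneg_left (add_le_add h1 h2) hΛ
    have h5 := mul_le_mul_of_nonneg_right hCq (sq_nonneg (κ * Q.sc))
    rw [hs]
    rw [hq] at h5
    nlinarith only [h3, h4, h5]

theorem fh_lip2 {Λ C q : ℝ} (h1Λ : 1 ≤ Λ) (hC : 0 ≤ C)
    (hq : q = Λ * ((1 / 2 : ℝ) ^ (1 / (Fintype.card ι : ℝ))) ^ 2) (hCq : 16 + q * C ≤ C)
    {g : E ι → ℝ} (hg : Continuous g) {κ : ℝ} (hκ : 0 ≤ κ) (m0 m : ℕ) {Q : Bx ι} (h : Q.Two)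
    (hl : ∀ x ∈ Q.set, ∀ x' ∈ Q.set, |g x - g x'| ≤ κ * dist x x') (c : ℝ) :
    hs Λ g m Q ≤
      Λ ^ m0 * (4 * Q.avg fun x => (g x - c) ^ 2) + C * (κ * Q.sc) ^ 2 * q ^ m0 := by
  have hΛ : 0 ≤ Λ := by linarith only [h1Λ]
  have hq0 : 0 ≤ q := by
    rw [hq]
    positivity
  induction m0 generalizing m Q c with
  | zero =>
    have a1 := fh_lip1 hΛ hC hq hCq hg hκ m h hl
    have a2 : 0 ≤ Q.avg fun x => (g x - c) ^ 2 :=
      fh_avg_nonneg h.1 (by fun_prop) fun x => sq_nonneg _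
    simp only [pow_zero, one_mul, mul_one]
    linarith only [a1, a2]
  | succ m0 ih =>
    cases m with
    | zero =>
      have a2 : 0 ≤ Q.avg fun x => (g x - c) ^ 2 :=
        fh_avg_nonneg h.1 (by fun_prop) fun x => sq_nonneg _
      rw [hs]
      positivity
    | succ m =>
      have b1 := ih m h.L
        (fun x hx x' hx' => hl x (fh_sub_L h.1 _ hx) x' (fh_sub_L h.1 _ hx')) ((Q.L Q.sj).avg g)
      have b2 := ih m h.R
        (fun x hx x' hx' => hl x (fh_sub_R h.1 _ hx) x' (fh_sub_R h.1 _ hx')) ((Q.R Q.sj).avg g)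
      rw [(Bx.sc_half h.1 Q.sj).1, fh_var (h.1.L _) hg c] at b1
      rw [(Bx.sc_half h.1 Q.sj).2, fh_var (h.1.R _) hg c] at b2
      have b3 : (Q.avg fun x => (g x - c) ^ 2) = _ :=
        Bx.avg_half h.1 Q.sj (g := fun x => (g x - c) ^ 2) (by fun_prop)
      have b4 := mul_le_mul_of_nonneg_left (add_le_add b1 b2) hΛ
      have b5 : 1 ≤ Λ ^ (m0 + 1) := one_le_pow₀ h1Λ
      rw [hs, b3]
      generalize (Q.L Q.sj).avg g = a1 at *
      generalize (Q.R Q.sj).avg g = a2 at *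
      generalize ((Q.L Q.sj).avg fun x => (g x - c) ^ 2) = v1 at *
      generalize ((Q.R Q.sj).avg fun x => (g x - c) ^ 2) = v2 at *
      have b6 : (a1 - a2) ^ 2 ≤ 2 * ((a1 - c) ^ 2 + (a2 - c) ^ 2) := by
        nlinarith only [sq_nonneg (a1 + a2 - 2 * c)]
      have b7 := mul_le_mul_of_nonneg_right b5
        (show 0 ≤ 2 * ((a1 - c) ^ 2 + (a2 - c) ^ 2) by positivity)
      have e : C * (κ * Q.sc) ^ 2 * q ^ (m0 + 1) =
          Λ * (C * (κ * ((1 / 2 : ℝ) ^ (1 / (Fintype.card ι : ℝ)) * Q.sc)) ^ 2 * q ^ m0) := by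
        rw [pow_succ q m0]
        nth_rewrite 2 [hq]
        ring
      rw [e]
      rw [pow_succ Λ m0] at b7 ⊢
      linarith only [b4, b6, b7]

/-- Bounds for Lipschitz functions, also with a small variance. -/
theorem hs_lip {Λ : ℝ} (h1 : 1 ≤ Λ) (h2 : Λ ^ (2 * Fintype.card ι) ≤ 2) :
    ∃ C q : ℝ, 1 ≤ C ∧ 0 < q ∧ q < 1 ∧ ∀ (Q : Bx ι) (g : E ι → ℝ) (κ : ℝ), Q.Two → Continuous g →
      0 ≤ κ → (∀ x ∈ Q.set, ∀ x' ∈ Q.set, |g x - g x'| ≤ κ * dist x x') →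
      (∀ m, hs Λ g m Q ≤ C * (κ * Q.sc) ^ 2) ∧
      ∀ (c : ℝ) (m0 m : ℕ), hs Λ g m Q ≤
        Λ ^ m0 * (4 * Q.avg fun x => (g x - c) ^ 2) + C * (κ * Q.sc) ^ 2 * q ^ m0 ∧
        q ^ (2 * Fintype.card ι) ≤ 1 / 8 := by
  obtain ⟨q, hq⟩ : ∃ q, q = Λ * ((1 / 2 : ℝ) ^ (1 / (Fintype.card ι : ℝ))) ^ 2 := ⟨_, rfl⟩
  have hΛ : 0 < Λ := by linarith only [h1]
  have hq0 : 0 < q := by
    rw [hq]
    positivity
  have hr : ((1 / 2 : ℝ) ^ (1 / (Fintype.card ι : ℝ))) ^ Fintype.card ι = 1 / 2 := by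
    rw [one_div (Fintype.card ι : ℝ)]
    exact Real.rpow_inv_natCast_pow (by norm_num) Fintype.card_ne_zero
  have hq8 : q ^ (2 * Fintype.card ι) ≤ 1 / 8 := by
    have e : q ^ (2 * Fintype.card ι) = Λ ^ (2 * Fintype.card ι) *
        (((1 / 2 : ℝ) ^ (1 / (Fintype.card ι : ℝ))) ^ Fintype.card ι) ^ 4 := by
      rw [hq]
      ring
    rw [e, hr]
    linarith only [h2]
  have hq1 : q < 1 := by
    by_contra hc
    have := one_le_pow₀ (n := 2 * Fintype.card ι) (not_lt.1 hc)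
    linarith only [hq8, this]
  have hd : 0 < 1 - q := by linarith only [hq1]
  have hC : 1 ≤ 16 / (1 - q) := by
    rw [le_div_iff₀ hd]
    linarith only [hq0, hq1]
  have hCq : 16 + q * (16 / (1 - q)) ≤ 16 / (1 - q) := by
    apply le_of_eq
    field_simp
    ring
  refine ⟨16 / (1 - q), q, hC, hq0, hq1, fun Q g κ hQ hg hκ hl => ⟨fun m => ?_, fun c m0 m =>
    ⟨?_, hq8⟩⟩⟩
  · exact fh_lip1 hΛ.le (by linarith only [hq0, hq1, hC]) hq hCq hg hκ m hQ hl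
  · exact fh_lip2 h1 (by linarith only [hq0, hq1, hC]) hq hCq hg hκ m0 m hQ hl c

/-- The recursion for the suprema. -/
theorem hs_iSup {Λ : ℝ} (hΛ : 0 ≤ Λ) {g : E ι → ℝ} {Q : Bx ι}
    (hb : BddAbove (range fun m => hs Λ g m Q)) :
    BddAbove (range fun m => hs Λ g m (Q.L Q.sj)) ∧ BddAbove (range fun m => hs Λ g m (Q.R Q.sj)) →
    ((Q.L Q.sj).avg g - (Q.R Q.sj).avg g) ^ 2
      + Λ * ((⨆ m, hs Λ g m (Q.L Q.sj)) + ⨆ m, hs Λ g m (Q.R Q.sj)) / 2 ≤ ⨆ m, hs Λ g m Q := by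
  rintro ⟨b1, b2⟩
  have t1 := tendsto_atTop_ciSup (hs_mono hΛ g (Q.L Q.sj)) b1
  have t2 := tendsto_atTop_ciSup (hs_mono hΛ g (Q.R Q.sj)) b2
  have t3 := (((t1.add t2).const_mul Λ).div_const 2).const_add
    (((Q.L Q.sj).avg g - (Q.R Q.sj).avg g) ^ 2)
  refine le_of_tendsto' t3 fun m => ?_
  have := le_ciSup hb (m + 1)
  rw [hs] at this
  exact this

theorem fh_line {Λ : ℝ} (hΛ : 0 ≤ Λ) {g g' : E ι → ℝ} (hg : Continuous g)
    (hg' : Continuous g') {t : ℝ} (ht : 0 < t) (e e0 : ℝ) (m : ℕ) (Q : Bx ι) :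
    hs Λ (fun x => g x + e * g' x) m Q ≤ (1 + t) * hs Λ (fun x => g x + e0 * g' x) m Q
      + (1 + 1 / t) * ((e - e0) ^ 2 * hs Λ g' m Q) := by
  have h := hs_add hΛ (g := fun x => g x + e0 * g' x) (g' := fun x => (e - e0) * g' x)
    (by fun_prop) (by fun_prop) ht m Q
  rw [hs_smul] at h
  have e1 : (fun x => g x + e * g' x) = fun x => g x + e0 * g' x + (e - e0) * g' x := by
    funext x
    ring
  rw [e1]
  exact h

/-- Continuity of the supremum along a line of functions. -/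
theorem hs_iSup_cont {Λ : ℝ} (hΛ : 0 ≤ Λ) {g g' : E ι → ℝ} (hg : Continuous g)
    (hg' : Continuous g') {Q : Bx ι} (hb : BddAbove (range fun m => hs Λ g m Q))
    (hb' : BddAbove (range fun m => hs Λ g' m Q)) :
    Continuous fun e : ℝ => ⨆ m, hs Λ (fun x => g x + e * g' x) m Q := by
  have hS' : 0 ≤ ⨆ m, hs Λ g' m Q := (hs_nonneg hΛ g' 0 Q).trans (le_ciSup hb' 0)
  have hbd : ∀ e : ℝ, BddAbove (range fun m => hs Λ (fun x => g x + e * g' x) m Q) := by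
    intro e
    refine ⟨(1 + 1) * (⨆ m, hs Λ g m Q) + (1 + 1 / 1) * (e ^ 2 * ⨆ m, hs Λ g' m Q), ?_⟩
    rintro _ ⟨m, rfl⟩
    have h := hs_add hΛ hg (g' := fun x => e * g' x) (by fun_prop) one_pos m Q
    rw [hs_smul] at h
    have a1 := le_ciSup hb m
    have a2 := mul_le_mul_of_nonneg_left (le_ciSup hb' m) (sq_nonneg e)
    simp only at a1 a2 ⊢
    linarith only [h, a1, a2]
  obtain ⟨S, hS⟩ : ∃ S : ℝ → ℝ, S = fun e : ℝ => ⨆ m, hs Λ (fun x => g x + e * g' x) m Q :=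
    ⟨_, rfl⟩
  have hS0 : ∀ e, 0 ≤ S e := fun e => by
    rw [hS]
    exact (hs_nonneg hΛ _ 0 Q).trans (le_ciSup (hbd e) 0)
  have key : ∀ e e0 : ℝ, S e ≤ (1 + |e - e0|) * S e0
      + (|e - e0| ^ 2 + |e - e0|) * ⨆ m, hs Λ g' m Q := by
    intro e e0
    rcases eq_or_ne e e0 with rfl | hne
    · simp
    · have ht : 0 < |e - e0| := abs_pos.2 (sub_ne_zero.2 hne)
      rw [hS]
      refine ciSup_le fun m => ?_
      have h := fh_line hΛ hg hg' ht e e0 m Q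
      have a1 := mul_le_mul_of_nonneg_left (le_ciSup (hbd e0) m)
        (show 0 ≤ 1 + |e - e0| by positivity)
      have a2 := mul_le_mul_of_nonneg_left (le_ciSup hb' m)
        (show 0 ≤ |e - e0| ^ 2 + |e - e0| by positivity)
      have e2 : (1 + 1 / |e - e0|) * ((e - e0) ^ 2 * hs Λ g' m Q) =
          (|e - e0| ^ 2 + |e - e0|) * hs Λ g' m Q := by
        rw [← sq_abs (e - e0)]
        field_simp
      simp only at a1 a2 ⊢
      linarith only [h, a1, a2, e2]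
  rw [← hS, continuous_iff_continuousAt]
  intro e0
  rw [ContinuousAt, tendsto_iff_dist_tendsto_zero]
  generalize (⨆ m, hs Λ g' m Q) = S' at hS' key
  have hc : Tendsto (fun e : ℝ => |e - e0| * (2 * S e0 + 4 * S')) (𝓝 e0) (𝓝 0) := by
    have : Continuous fun e : ℝ => |e - e0| * (2 * S e0 + 4 * S') := by fun_prop
    simpa using this.tendsto e0
  refine squeeze_zero' (Eventually.of_forall fun _ => dist_nonneg) ?_ hc
  filter_upwards [closedBall_mem_nhds e0 one_pos] with e he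
  rw [mem_closedBall, Real.dist_eq] at he
  have k1 := key e e0
  have k2 := key e0 e
  rw [abs_sub_comm e0 e] at k2
  have p0 := hS0 e0
  have p1 := hS0 e
  have ht := abs_nonneg (e - e0)
  rw [Real.dist_eq]
  generalize |e - e0| = t at *
  have q1 : t ^ 2 ≤ t := by nlinarith only [he, ht]
  have q2 : (t ^ 2 + t) * S' ≤ 2 * t * S' := mul_le_mul_of_nonneg_right (by linarith only [q1]) hS'
  have q3 : t * S e0 ≤ S e0 := by nlinarith only [p0, he]
  have q4 : t * S' ≤ S' := by nlinarith only [hS', he]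
  have q5 : S e ≤ 2 * S e0 + 2 * S' := by nlinarith only [k1, q2, q3, q4]
  have q6 := mul_le_mul_of_nonneg_left q5 ht
  have q7 := mul_nonneg ht p0
  have q8 := mul_nonneg ht hS'
  exact abs_le.2 ⟨by nlinarith only [k2, q2, q6], by nlinarith only [k1, k2, q2, q6]⟩

end Pool.Agent.Lib.MP_ecd4e3_gt.N
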