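import Pool.Agent.Lib.MP_ecd4e3_gt.N.EOut

/-! The limit of the exhaustion. -/

namespace Pool.Agent.Lib.MP_ecd4e3_gt.N

open Set Filter Topology Metric MeasureTheory
open scoped NNReal ENNReal

variable {ι : Type} [Fintype ι] [DecidableEq ι]

omit [DecidableEq ι] in
theorem elim_lim {U0 : Set (E ι)} (hU : IsOpen U0) {R F : ℕ → Set (E ι)}
    {X : ℕ → E ι → E ι} (hF : ∀ n, IsOpen (F n)) (hm : Monotone F)
    (hu : ∀ y, ∃ n, y ∈ F n) (hg : Monotone R)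
    (he : ∀ n, ∀ x ∈ R n, X n x ∈ U0 → X n x ∈ F n → X (n + 1) x = X n x)
    (hex : ∀ n, ∀ y ∈ U0, y ∈ F n → ∃ x ∈ R n, X n x = y)
    (huq : ∀ n, ∀ x ∈ R n, ∀ x' ∈ R n, X n x ∈ U0 → X n x' = X n x → x' = x)
    (hl : ∀ n, ∀ x ∈ R n, X n x ∈ U0 → X n x ∈ F n → R n ∈ 𝓝 x ∧
      ∀ᶠ x' in 𝓝 x, dist (X n x') (X n x) ≤ 2 * dist x' x) :
    ∃ (V : Set (E ι)) (Y : E ι → E ι), IsOpen V ∧ (∀ x ∈ V, ∃ n, x ∈ R n) ∧ BijOn Y V U0 ∧
      ∀ x ∈ V, ∀ᶠ x' in 𝓝 x, dist (Y x') (Y x) ≤ 2 * dist x' x := by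
  obtain ⟨A, hA⟩ : ∃ A : ℕ → Set (E ι), ∀ n x, x ∈ A n ↔ x ∈ R n ∧ X n x ∈ U0 ∧ X n x ∈ F n :=
    ⟨fun n => {x | x ∈ R n ∧ X n x ∈ U0 ∧ X n x ∈ F n}, fun _ _ => Iff.rfl⟩
  have st : ∀ n m, n ≤ m → ∀ x ∈ A n, x ∈ A m ∧ X m x = X n x := by
    intro n m h x hx
    induction m, h using Nat.le_induction with
    | base => exact ⟨hx, rfl⟩
    | succ m _ ih =>
      obtain ⟨k1, k2, k3⟩ := (hA m x).1 ih.1
      have e := he m x k1 k2 k3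
      exact ⟨(hA _ x).2 ⟨hg m.le_succ k1, e ▸ k2, e ▸ hm m.le_succ k3⟩, e.trans ih.2⟩
  have op : ∀ n, ∀ x ∈ A n, ∀ᶠ x' in 𝓝 x, x' ∈ A n := by
    intro n x hx
    obtain ⟨k1, k2, k3⟩ := (hA n x).1 hx
    obtain ⟨l1, l2⟩ := hl n x k1 k2 k3
    have c : ContinuousAt (X n) x := by
      refine tendsto_iff_dist_tendsto_zero.2 (squeeze_zero' (.of_forall fun _ => dist_nonneg) l2 ?_)
      have : Continuous fun x' => 2 * dist x' x := by fun_prop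
      simpa using this.tendsto x
    filter_upwards [l1, c.eventually (hU.mem_nhds k2), c.eventually ((hF n).mem_nhds k3)] with
      x' a b d using (hA n x').2 ⟨a, b, d⟩
  have ey : ∀ x, ∃ y, ∀ n, x ∈ A n → y = X n x := by
    intro x
    by_cases h : ∃ n, x ∈ A n
    · obtain ⟨n, hn⟩ := h
      exact ⟨X n x, fun m hm => (st n _ (le_max_left n m) x hn).2.symm.trans
        (st m _ (le_max_right n m) x hm).2⟩
    · exact ⟨x, fun n hn => (h ⟨n, hn⟩).elim⟩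
  choose Y hY using ey
  refine ⟨⋃ n, A n, Y, isOpen_iUnion fun n => isOpen_iff_mem_nhds.2 (op n), fun x hx => ?_,
    ⟨fun x hx => ?_, fun x hx x' hx' e => ?_, fun y hy => ?_⟩, fun x hx => ?_⟩
  · obtain ⟨n, hn⟩ := mem_iUnion.1 hx
    exact ⟨n, ((hA n x).1 hn).1⟩
  · obtain ⟨n, hn⟩ := mem_iUnion.1 hx
    rw [hY x n hn]
    exact ((hA n x).1 hn).2.1
  · obtain ⟨n, hn⟩ := mem_iUnion.1 hx
    obtain ⟨m, hm⟩ := mem_iUnion.1 hx'
    have k1 := (st n _ (le_max_left n m) x hn).1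
    have k2 := (st m _ (le_max_right n m) x' hm).1
    rw [hY x _ k1, hY x' _ k2] at e
    exact huq _ x' ((hA _ _).1 k2).1 x ((hA _ _).1 k1).1 ((hA _ _).1 k2).2.1 e
  · obtain ⟨n, hn⟩ := hu y
    obtain ⟨x, k1, rfl⟩ := hex n y hy hn
    have k2 := (hA n x).2 ⟨k1, hy, hn⟩
    exact ⟨x, mem_iUnion.2 ⟨n, k2⟩, hY x n k2⟩
  · obtain ⟨n, hn⟩ := mem_iUnion.1 hx
    obtain ⟨k1, k2, k3⟩ := (hA n x).1 hn
    filter_upwards [op n x hn, (hl n x k1 k2 k3).2] with x' a b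
    rwa [hY x n hn, hY x' n a]

/-- A nested sequence of fillings has a limit. -/
theorem exists_limit {U0 : Set (E ι)} (hU : IsOpen U0) {R F : ℕ → Set (E ι)}
    {X : ℕ → E ι → E ι} {g : ℕ → E ι ≃ᵢ E ι} {D : ℝ} (h0 : (0 : E ι) ∈ R 0)
    (hD : ∀ n, ∀ x ∈ R n, ∀ x' ∈ R n, dist x x' ≤ D) (hF : ∀ n, IsOpen (F n)) (hm : Monotone F)
    (hu : ∀ y, ∃ n, y ∈ F n) (hg : ∀ n, ∀ x ∈ R n, g n x ∈ R (n + 1))
    (he : ∀ n, ∀ x ∈ R n, X n x ∈ U0 → X n x ∈ F n → X (n + 1) (g n x) = X n x)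
    (hex : ∀ n, ∀ y ∈ U0, y ∈ F n → ∃ x ∈ R n, X n x = y)
    (huq : ∀ n, ∀ x ∈ R n, ∀ x' ∈ R n, X n x ∈ U0 → X n x' = X n x → x' = x)
    (hl : ∀ n, ∀ x ∈ R n, X n x ∈ U0 → X n x ∈ F n → R n ∈ 𝓝 x ∧
      ∀ᶠ x' in 𝓝 x, dist (X n x') (X n x) ≤ 2 * dist x' x) :
    ∃ (V : Set (E ι)) (Y : E ι → E ι), IsOpen V ∧ V ⊆ closedBall 0 D ∧ BijOn Y V U0 ∧
      ∀ x ∈ V, ∀ᶠ x' in 𝓝 x, dist (Y x') (Y x) ≤ 2 * dist x' x := by
  obtain ⟨G, G0, G1⟩ : ∃ G : ℕ → E ι ≃ᵢ E ι, (∀ x, G 0 x = x) ∧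
      ∀ n x, G (n + 1) x = g n (G n x) :=
    ⟨fun n => Nat.rec (IsometryEquiv.refl _) (fun n a => a.trans (g n)) n, fun _ => rfl,
      fun _ _ => rfl⟩
  have mo : Monotone fun n => G n ⁻¹' R n := monotone_nat_of_le_succ fun n x hx => by
    rw [mem_preimage, G1]
    exact hg n _ hx
  obtain ⟨V, Y, k1, k2, k3, k4⟩ := elim_lim (R := fun n => G n ⁻¹' R n)
    (X := fun n x => X n (G n x)) hU hF hm hu mo
    (fun n x hx a b => by rw [G1]; exact he n _ hx a b)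
    (fun n y a b => by
      obtain ⟨x, hx, e⟩ := hex n y a b
      exact ⟨(G n).symm x, by rwa [mem_preimage, (G n).apply_symm_apply],
        by rwa [(G n).apply_symm_apply]⟩)
    (fun n x hx x' hx' a b => (G n).injective (huq n _ hx _ hx' a b))
    (fun n x hx a b => by
      obtain ⟨l1, l2⟩ := hl n _ hx a b
      refine ⟨(G n).continuous.continuousAt l1, ?_⟩
      filter_upwards [((G n).continuous.tendsto x).eventually l2] with x' d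
      rwa [(G n).dist_eq] at d)
  refine ⟨V, Y, k1, fun x hx => ?_, k3, k4⟩
  obtain ⟨n, hn⟩ := k2 x hx
  have z : (0 : E ι) ∈ G n ⁻¹' R n := mo n.zero_le (by rwa [mem_preimage, G0])
  rw [mem_closedBall, ← (G n).dist_eq]
  exact hD n _ hn _ z

section

variable [Nonempty ι] [Nontrivial ι] {W : EV ι} {k : ℤ} {Q Q' : Bx ι} {t c : ℝ}
  {Z : Unit × E ι → YL ι}

omit [Nontrivial ι] in
theorem elim_mem {a : ℕ} {x : E ι} : ((), x) ∈ (W.pbT a k Q t Q'.gb c).R ↔ x ∈ Q'.set := by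
  rw [← Bx.gb_set]
  exact ⟨fun h => h.2, fun h => ⟨trivial, h⟩⟩

omit [Nontrivial ι] in
theorem elim_ex (hZ : Sol (UL W.U0) (W.pbT 0 k Q t Q'.gb c) univ Z) {y : E ι} (hy : y ∈ W.U0)
    (hQ : y ∈ Q.set) : ∃ x ∈ Q'.set, (Z ((), x)).2 = y := by
  obtain ⟨x, k1, k2⟩ := hZ.ex () (0, y) ⟨trivial, (0, Q), List.mem_singleton_self _, rfl, hQ⟩ hy
    trivial
  exact ⟨x, elim_mem.1 k1, by rw [k2]⟩

omit [Nontrivial ι] in
theorem elim_uq (hZ : Sol (UL W.U0) (W.pbT 0 k Q t Q'.gb c) univ Z) {x x' : E ι}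
    (hx : x ∈ Q'.set) (hx' : x' ∈ Q'.set) (hy : (Z ((), x)).2 ∈ W.U0)
    (e : (Z ((), x')).2 = (Z ((), x)).2) : x' = x := by
  have lab : ∀ x ∈ Q'.set, (Z ((), x)).2 ∈ W.U0 → (Z ((), x)).1 = 0 := fun x hx hy => by
    obtain ⟨-, a, k1, k2, -⟩ := hZ.maps _ (elim_mem.2 hx) hy
    rw [k2, List.mem_singleton.1 k1]
  exact hZ.uq () x x' (elim_mem.2 hx) (elim_mem.2 hx') hy trivial
    (Prod.ext ((lab x' hx' (e ▸ hy)).trans (lab x hx hy).symm) e)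

theorem elim_lip (h : W.OK) (hQ : BX k Q) (ht : W.tt Q ≤ t) (hQ' : Q'.Pos) (hc : c ≤ 2)
    {F0 : Set (E ι)} (hF : FO F0 k) (hZ : Sol (UL W.U0) (W.pbT 0 k Q t Q'.gb c) univ Z) {x : E ι}
    (hx : x ∈ Q'.set) (hy : (Z ((), x)).2 ∈ W.U0) (hy' : (Z ((), x)).2 ∈ F0) :
    Q'.set ∈ 𝓝 x ∧ ∀ᶠ x' in 𝓝 x, dist (Z ((), x')).2 (Z ((), x)).2 ≤ 2 * dist x' x := by
  have p := hQ.lb.pos
  have k1 : ‖Q'.nm x‖ < 1 := (hQ'.nm_mem.1 hx).lt_of_ne fun e => by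
    have e1 : Z ((), x) = (0, W.P (k - 1) (t, Q.af (Q'.nm x))) :=
      hZ.bd ((), x) ⟨trivial, by rw [Bx.gb_set]; exact hx, e⟩ hy
    rw [e1] at hy hy'
    obtain ⟨-, y, k2, k3⟩ := (h.bd.solbd Function.injective_id trivial
      (hQ.lb.down (by omega : k - 1 ≤ k)) (h.tm_le hQ ht)).maps (t, Q.af (Q'.nm x))
      ⟨le_refl t, p.af_mem_bd.2 e⟩ hy
    have k4 := hF Q hQ y k2.1 (by rw [show y = _ from k3]; exact hy')
    rw [p.nm_mem_bd.1 k2] at k4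
    norm_num at k4
  have k2 : Q'.set ∈ 𝓝 x := by
    have cn : Continuous fun x => ‖Q'.nm x‖ := by unfold Bx.nm; fun_prop
    filter_upwards [(cn.tendsto x).eventually (gt_mem_nhds k1)] with x' a using hQ'.nm_mem.2 a.le
  refine ⟨k2, ?_⟩
  have k3 : Tendsto (fun x' : E ι => ((), x')) (𝓝 x) (𝓝[(W.pbT 0 k Q t Q'.gb c).R] ((), x)) :=
    tendsto_nhdsWithin_iff.2 ⟨(Continuous.prodMk_right ()).tendsto x,
      by filter_upwards [k2] with x' a using elim_mem.2 a⟩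
  filter_upwards [k3.eventually (hZ.lip _ (elim_mem.2 hx) hy trivial).2] with x' a
  have a' : dist (Z ((), x')) (Z ((), x)) ≤ c * dist x' x + 0 * dist () () := a
  rw [zero_mul, add_zero, Prod.dist_eq] at a'
  exact ((le_max_right _ _).trans a').trans (mul_le_mul_of_nonneg_right hc dist_nonneg)

end

/-- The efficient filling. -/
theorem eff [Nonempty ι] [Nontrivial ι] (B K A K1 : ℝ) (T : ℤ) : ∃ C : ℝ, 0 < C ∧
    ∀ W : EV ι, W.OK → W.B = B → W.K = K → W.A = A → W.K1 = K1 → W.T = T → ∀ l : ℝ, 0 < l →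
      W.ν univ ≤ ENNReal.ofReal (l ^ Fintype.card ι) →
      ∃ (V : Set (E ι)) (Y : E ι → E ι), IsOpen V ∧ V ⊆ closedBall 0 (C * l) ∧ BijOn Y V W.U0 ∧
        ∀ x ∈ V, ∀ᶠ x' in 𝓝 x, dist (Y x') (Y x) ≤ 2 * dist x' x := by
  obtain ⟨C, hC⟩ := EC.exists_EC (ι := ι) B K A K1 T
  refine ⟨8 * max C.sC 1, by positivity, fun W h e1 e2 e3 e4 e5 l hl hν => ?_⟩
  have hG := hC W h e1 e2 e3 e4 e5
  have s1 := (hG.consts h).2.2.1
  rw [max_eq_left s1]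
  have hμ : 0 < l ^ Fintype.card ι := by positivity
  obtain ⟨L0, hL0⟩ : ∃ L0, L0 = 4 * C.sC * l := ⟨_, rfl⟩
  have p0 : 0 < L0 := by rw [hL0]; positivity
  obtain ⟨u, u0, u1, u2, u3⟩ : ∃ u : ℕ → ℝ, u 0 = 1 ∧ (∀ n, u (n + 1) = u n / 2) ∧ (∀ n, 0 < u n) ∧
      ∀ n, u n ≤ 1 := ⟨fun n => (1 / 2) ^ n, rfl, fun n => by ring, fun n => by positivity,
        fun n => pow_le_one₀ (by norm_num) (by norm_num)⟩
  obtain ⟨L, hL⟩ : ∃ L : ℕ → ℝ, ∀ n, L n = L0 * (2 - u n) := ⟨_, fun _ => rfl⟩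
  have L1 : ∀ n, L0 ≤ L n ∧ L n ≤ 2 * L0 := fun n => by
    rw [hL]; constructor <;> nlinarith only [u2 n, u3 n, p0]
  have L2 : ∀ n, L (n + 1) = L n + L0 * u (n + 1) := fun n => by rw [hL, hL, u1]; ring
  obtain ⟨js, hs⟩ := hG.sol_start h hμ hν (L := L 0) (p0.trans_le (L1 0).1) (by
    have : (4 : ℝ) ≤ 4 ^ Fintype.card ι := le_self_pow₀ (by norm_num) Fintype.card_ne_zero
    rw [hL, u0, hL0, show 4 * C.sC * l * (2 - 1) = 4 * (C.sC * l) by ring, mul_pow, mul_pow, EC.C0]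
    exact mul_le_mul_of_nonneg_right this (by positivity)) (c := 2 - u 0 / 2) (by rw [u0]; norm_num)
  choose j0 hj0 using fun n => hG.stage h hμ hν (L := L n) (mul_pos p0 (u2 (n + 1)))
    ((mul_le_of_le_one_right p0.le (u3 _)).trans (L1 n).1)
  obtain ⟨j, j1, j2, j3⟩ : ∃ j : ℕ → ℤ, js ≤ j 0 ∧ (∀ n, j0 n ≤ j n) ∧ ∀ n, j n < j (n + 1) :=
    ⟨fun n => Nat.rec (max js (j0 0)) (fun n a => max (a + 1) (j0 (n + 1))) n, le_max_left _ _,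
      fun n => by cases n <;> exact le_max_right _ _,
      fun n => (lt_add_one _).trans_le (le_max_left _ _)⟩
  have bx : ∀ n, BX (j n) (cubeAt (j n) (0 : E ι)) := fun n => (cube_cubeAt _ _).bx
  have tt : ∀ n, W.tt (cubeAt (j n) 0) ≤ 2 * W.tt (cubeAt (j n) 0) := fun n => by
    linarith only [(h.tt_bd (bx n).lb.pos).1]
  obtain ⟨p, hp⟩ : ∃ p : ℕ → ℕ → PE ι, ∀ a n, p a n = W.pbT a (j n) (cubeAt (j n) 0)
      (2 * W.tt (cubeAt (j n) 0)) (cubeC 0 (L n)).gb (2 - u n / 2) := ⟨_, fun _ _ => rfl⟩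
  have tr : ∀ n Z, Sol (UL W.U0) (p 0 n) univ Z → Sol (UL W.U0) (W.pbT 0 (j n) (cubeAt (j n) 0)
      (2 * W.tt (cubeAt (j n) 0)) (cubeC 0 (L n)).gb (2 - u n / 2)) univ Z :=
    fun n Z hZ => hp 0 n ▸ hZ
  have step : ∀ n (Z : {Z // Sol (UL W.U0) (p 0 n) univ Z}),
      ∃ (Z' : {Z // Sol (UL W.U0) (p 0 (n + 1)) univ Z}) (g : E ι ≃ᵢ E ι),
        (∀ x ∈ (cubeC 0 (L n)).set, g x ∈ (cubeC 0 (L (n + 1))).set) ∧
        ∀ x ∈ (cubeC 0 (L n)).set, (Z.1 ((), x)).2 ∈ W.U0 →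
          (Z.1 ((), x)).2 ∈ ball (0 : E ι) (2 ^ j n / 100) → (Z'.1 ((), g x)).2 = (Z.1 ((), x)).2 := by
    intro n Z
    obtain ⟨a, ps, k1, k2, k3⟩ := hj0 n (j n) (j2 n) (j (n + 1)) (j3 n) (2 - u n / 2)
      (2 - u (n + 1) / 2) (by linarith only [u3 n]) (by linarith only [u1 n, u2 n])
    have k4 := h.relabel 0 a (bx n) (tt n) (by linarith only [u3 n]) (tr n _ Z.2)
    rw [← L2, ← hp] at k1
    obtain ⟨Z', g, k5, k6, k7⟩ := k1.extend k2 (fun q hq => (k3 q hq).elim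
      (fun e => ⟨_, e ▸ k4⟩) id) k4
    refine ⟨⟨Z', k5⟩, g, fun x hx => ?_, fun x hx => k7 x (elim_mem.2 hx)⟩
    have := k6 x (elim_mem.2 hx)
    rw [hp] at this
    exact elim_mem.1 this
  choose nx g g1 g2 using step
  obtain ⟨Z0, hZ0⟩ := hs (j 0) j1
  obtain ⟨Z, hZ⟩ : ∃ Z : ∀ n, {Z // Sol (UL W.U0) (p 0 n) univ Z}, ∀ n, Z (n + 1) = nx n (Z n) :=
    ⟨fun n => Nat.rec ⟨Z0, hp 0 0 ▸ hZ0⟩ nx n, fun _ => rfl⟩
  have cv := fun n => cubeC_valid (f := 1 / 16) (by norm_num) le_rfl (0 : E ι)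
    (p0.trans_le (L1 n).1)
  have jm : StrictMono j := strictMono_nat_of_lt_succ j3
  have sol := fun n => tr n _ (Z n).2
  refine exists_limit h.hU (R := fun n => (cubeC 0 (L n)).set)
    (F := fun n => ball 0 (2 ^ j n / 100)) (X := fun n x => ((Z n).1 ((), x)).2)
    (g := fun n => g n (Z n)) ?_ (fun n x hx x' hx' => ?_) (fun _ => isOpen_ball)
    (fun n m hnm => ball_subset_ball ?_) (fun y => ?_) (fun n => g1 n (Z n))
    (fun n x hx a b => by rw [hZ]; exact g2 n (Z n) x hx a b)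
    (fun n y a b => elim_ex (sol n) a (ball_subset_cubeAt _ ?_))
    (fun n x hx x' hx' => elim_uq (sol n) hx hx')
    (fun n x hx => elim_lip h (bx n) (tt n) (cv n).1 (by linarith only [u2 n]) (fo_ball le_rfl)
      (sol n) hx)
  · rw [(cv 0).2.2.2.2.2.2.1]
    exact mem_closedBall_self (by linarith only [(L1 0).1, p0])
  · exact Bx.dist_le (by positivity) (fun i => by
      rw [(cv n).2.2.2.2.2.2.2.1]; linarith only [(L1 n).2, hL0]) hx hx'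
  · exact div_le_div_of_nonneg_right (two_le_g.2 (jm.monotone hnm)) (by norm_num)
  · obtain ⟨m, hm⟩ := pow_unbounded_of_one_lt (100 * ‖y‖) (one_lt_two (α := ℝ))
    have hn : ∀ n : ℕ, j 0 + n ≤ j n := fun n => by
      induction n with
      | zero => simp
      | succ n ih => have := j3 n; omega
    refine ⟨(m - j 0).toNat, mem_ball_zero_iff.2 ?_⟩
    have := two_le_g.2 (show (m : ℤ) ≤ j (m - j 0).toNat by have := hn (m - j 0).toNat; omega)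
    rw [zpow_natCast] at this
    linarith only [hm, this]
  · exact (ball_subset_closedBall.trans (closedBall_subset_closedBall
      (by linarith only [two_pos_g (j n)]))) b

end Pool.Agent.Lib.MP_ecd4e3_gt.N
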