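import Pool.Agent.Lib.MP_ecd4e3_gt.N.ERef

/-! Credits of lists and the cut of a list. -/

namespace Pool.Agent.Lib.MP_ecd4e3_gt.N

open Set Filter Topology Metric MeasureTheory
open scoped NNReal ENNReal

variable {ι : Type} [Fintype ι] [DecidableEq ι] [Nonempty ι]

theorem neL_nil {α : Type} : neL ([] : List α) = 0 := by simp [neL]
theorem neL_of {α : Type} {l : List α} (h : l ≠ []) : neL l = 1 := by simp [neL, h]
theorem neL_bd {α : Type} (l : List α) : 0 ≤ neL l ∧ neL l ≤ 1 := by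
  unfold neL
  split_ifs <;> norm_num

/-- A median element. -/
theorem exists_med {α : Type} (g1 g2 : List α → ℝ) (S : ℝ) (l : List α) (hl : l ≠ [])
    (h1 : g1 [] ≤ S / 2) (h2 : g2 [] ≤ S / 2)
    (hs : ∀ l1 l2, l1 ≠ [] → l2 ≠ [] → l = l1 ++ l2 → g1 l1 + g2 l2 = S) :
    ∃ l1 b l2, l = l1 ++ b :: l2 ∧ g1 l1 ≤ S / 2 ∧ g2 l2 ≤ S / 2 := by
  suffices ∀ t : List α, t ≠ [] → ∀ p, l = p ++ t → g1 p ≤ S / 2 →
      ∃ l1 b l2, l = l1 ++ b :: l2 ∧ g1 l1 ≤ S / 2 ∧ g2 l2 ≤ S / 2 from this l hl [] rfl h1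
  intro t
  induction t with
  | nil => exact fun h => absurd rfl h
  | cons b t ih =>
    intro _ p e hp
    by_cases a1 : g2 t ≤ S / 2
    · exact ⟨p, b, t, e, hp, a1⟩
    have a2 : t ≠ [] := fun a3 => a1 (a3 ▸ h2)
    have a3 : l = (p ++ [b]) ++ t := by simpa using e
    exact ih a2 _ a3 (by linarith only [hs _ _ (by simp) a2 a3, not_le.1 a1, a1, a3])

omit [DecidableEq ι] [Nonempty ι] in
theorem EV.xs_nil (W : EV ι) : W.xs [] = 0 := rfl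
omit [DecidableEq ι] [Nonempty ι] in
theorem EV.xs_cons (W : EV ι) (b : It ι) (l : List (It ι)) : W.xs (b :: l) = W.xx b.Q + W.xs l :=
  rfl
omit [DecidableEq ι] [Nonempty ι] in
theorem EV.xs_append (W : EV ι) (l1 l2 : List (It ι)) : W.xs (l1 ++ l2) = W.xs l1 + W.xs l2 := by
  simp [EV.xs]

namespace EC

variable (C : EC) (W : EV ι)

section

omit [DecidableEq ι] [Nonempty ι]

theorem cs_append_l (l1 l2 : List (It ι)) : C.cs W (l1 ++ l2) = C.cs W l1 + C.cs W l2 := by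
  simp [cs]
theorem cs_cons_l (b : It ι) (l : List (It ι)) :
    C.cs W (b :: l) = C.base W b.Q + 2 * C.bonus W b.Q + C.cs W l := rfl
theorem hb_append_l {l1 : List (It ι)} (h : l1 ≠ []) (l2 : List (It ι)) :
    C.hb W (l1 ++ l2) = C.hb W l1 := by
  cases l1 with
  | nil => exact absurd rfl h
  | cons _ _ => rfl
theorem tb_append_l (l1 : List (It ι)) {l2 : List (It ι)} (h : l2 ≠ []) :
    C.tb W (l1 ++ l2) = C.tb W l2 := by
  rw [tb, List.reverse_append, C.hb_append_l W (by simpa using h), tb]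

theorem Sl_nil : C.Sl W [] = 0 := by simp [Sl, cs, hb]
theorem Sr_nil : C.Sr W [] = 0 := by simp [Sr, cs, tb, hb]
theorem Sl_snoc (l : List (It ι)) (b : It ι) :
    C.Sl W (l ++ [b]) = C.Sl W l + C.base W b.Q + (1 + neL l) * C.bonus W b.Q := by
  by_cases h : l = []
  · simp [h, Sl, cs, hb, neL]
    ring
  · simp [Sl, cs, C.hb_append_l W h, neL_of h]
    ring
theorem Sr_cons (l : List (It ι)) (b : It ι) :
    C.Sr W (b :: l) = C.Sr W l + C.base W b.Q + (1 + neL l) * C.bonus W b.Q := by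
  by_cases h : l = []
  · simp [h, Sr, cs, tb, hb, neL]
    ring
  · rw [Sr, Sr, cs_cons_l, show C.tb W (b :: l) = _ from C.tb_append_l W [b] h, neL_of h]
    ring
theorem Cr_append {l1 l2 : List (It ι)} (h1 : l1 ≠ []) (h2 : l2 ≠ []) :
    C.Cr W (l1 ++ l2) = C.Sl W l1 + C.Sr W l2 := by
  rw [Cr, Sl, Sr, cs_append_l, C.hb_append_l W h1, C.tb_append_l W l1 h2]
  ring
theorem Cr_split (l1 l2 : List (It ι)) (b : It ι) : C.Cr W (l1 ++ b :: l2) =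
    C.Sl W l1 + C.Sr W l2 + C.base W b.Q + (neL l1 + neL l2) * C.bonus W b.Q := by
  have e := C.Sr_cons W l2 b
  by_cases h : l1 = []
  · rw [h, List.nil_append, Cr, Sl_nil, neL_nil, hb]
    rw [Sr] at e
    linarith only [e]
  · rw [C.Cr_append W h (List.cons_ne_nil _ _), e, neL_of h]
    ring

end

variable {C W} [Nontrivial ι]

theorem Good.sums_l (h : W.OK) (hC : C.Good W) {l : List (It ι)} (hl : ∀ b ∈ l, b.Q.Pos) :
    ∃ a s : ℝ, C.cs W l = a + 2 * s ∧ 0 ≤ W.xs l ∧ C.C0 ι / 10 * W.xs l ≤ a ∧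
      (∀ b ∈ l, C.C0 ι * W.nu b.Q / 10 ≤ a ∧ 0 ≤ C.bonus W b.Q ∧ C.bonus W b.Q ≤ s) ∧ 0 ≤ s ∧
      C.cs W l ≤ 3 * C.C0 ι * (l.map fun b => W.nu b.Q).sum := by
  have c0 := (hC.consts h).2.2.2.1
  induction l with
  | nil => exact ⟨0, 0, by simp [cs, EV.xs]⟩
  | cons b l ih =>
    obtain ⟨a, s, a1, a2, a3, a4, a5, a6⟩ := ih fun b hb => hl b (List.mem_cons_of_mem _ hb)
    have hb := hl b List.mem_cons_self
    obtain ⟨-, b2, b3, b4, b5⟩ := hC.cr_bd h hb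
    obtain ⟨-, -, -, d1, d2⟩ := h.tt_bd hb
    have d3 := mul_le_mul_of_nonneg_left d2 c0.le
    have d4 := mul_pos c0 d1
    have d5 := mul_le_mul_of_nonneg_right hC.h1 d4.le
    have d6 := b5 2 two_pos.le le_rfl
    have d7 := mul_nonneg c0.le a2
    rw [cs_cons_l, EV.xs_cons, List.map_cons, List.sum_cons]
    refine ⟨C.base W b.Q + a, C.bonus W b.Q + s, by linarith only [a1], by linarith only [a2, d1], by linarith only [a3, b3, d3],
      List.forall_mem_cons.2 ⟨⟨by linarith only [a3, b3, d7], b4, by linarith only [a5]⟩, fun b' hb' => ?_⟩, by linarith only [a5, b4],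
      by linarith only [a6, b2, d3, d4, d5, d6]⟩
    obtain ⟨e1, e2, e3⟩ := a4 b' hb'
    exact ⟨by linarith only [b3, d3, d4, e1], e2, by linarith only [b4, e3]⟩

theorem Good.cred_bd (h : W.OK) (hC : C.Good W) {F0 : Set (E ι)} {l : List (It ι)}
    (hl : W.LOk F0 l) : 0 ≤ W.xs l ∧ C.C0 ι / 10 * W.xs l ≤ C.Cr W l ∧ C.Cr W l ≤ C.Sl W l ∧
      C.Cr W l ≤ C.Sr W l ∧ 0 ≤ C.Cr W l ∧ (∀ b ∈ l, C.C0 ι * W.nu b.Q / 10 ≤ C.Cr W l) ∧
      C.Cr W l ≤ 3 * C.C0 ι * (l.map fun b => W.nu b.Q).sum := by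
  obtain ⟨a, s, a1, a2, a3, a4, a5, a6⟩ := hC.sums_l h fun b hb => (hl.1 b hb).1.bx.lb.pos
  have key : ∀ l' : List (It ι), (∀ b ∈ l', b ∈ l) → 0 ≤ C.hb W l' ∧ C.hb W l' ≤ s := by
    rintro (_ | ⟨b, l'⟩) h'
    exacts [⟨le_rfl, a5⟩, (a4 b (h' b List.mem_cons_self)).2]
  obtain ⟨b1, b2⟩ := key l fun _ hb => hb
  obtain ⟨b3, b4⟩ := key l.reverse fun _ hb => List.mem_reverse.1 hb
  have d7 := mul_nonneg (hC.consts h).2.2.2.1.le a2
  simp only [Cr, Sl, Sr, tb]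
  exact ⟨a2, by linarith only [a1, a3, b2, b4], by linarith only [b3], by linarith only [b1], by linarith only [a1, a3, b2, b4, d7],
    fun b hb => by linarith only [(a4 b hb).1, a1, b2, b4], by linarith only [a6, b1, b3]⟩

theorem Good.Vl_bd (h : W.OK) (hC : C.Good W) {F0 : Set (E ι)} {l : List (It ι)}
    (hl : W.LOk F0 l) {φ : ℝ} (h0 : 0 ≤ φ) (h1 : φ ≤ 8 * Fintype.card ι) :
    C.Cr W l ≤ C.Vl W l φ ∧ C.Vl W l φ ≤ 101 / 100 * C.Cr W l := by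
  obtain ⟨a1, a2, -⟩ := hC.cred_bd h hl
  have d1 := mul_nonneg (hC.consts h).2.2.2.1.le a1
  have d2 := mul_le_mul_of_nonneg_left h1 hC.p2.le
  have d3 := mul_le_mul_of_nonneg_left (show C.k2 * φ ≤ 1 / 1000 by linarith only [hC.h2, d2]) d1
  have d4 := mul_nonneg d1 (mul_nonneg hC.p2.le h0)
  rw [Vl]
  exact ⟨by linarith only [d4], by linarith only [a2, d3]⟩

theorem RedL.mono {p : PE ι} {l l' : List (It ι)} (h : C.RedL W p l) (hl : l <:+: l') :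
    C.RedL W p l' :=
  h.imp fun _ a => ⟨fun σ hσ => ⟨(a.1 σ hσ).1, (a.1 σ hσ).2.trans hl⟩, a.2⟩
theorem RedL.trans1 {p q : PE ι} {l : List (It ι)} (h : Red W.U0 ∅ p {q}) (h' : C.RedL W q l) :
    C.RedL W p l := h'.imp fun _ a => ⟨a.1, h.trans1 a.2⟩
theorem VL.redL {l : List (It ι)} {R : GB ι} {c : ℝ} (h : C.VL W l R c) :
    C.RedL W (W.pbL l R c) l :=
  ⟨{(l, R, c)}, fun _ e => e ▸ ⟨h, List.infix_rfl⟩, by rw [image_singleton]; exact Red.refl _⟩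

/-- The cut of a list into two valid states. -/
theorem Good.cut_lists (h : W.OK) (hC : C.Good W) {l1 l2 : List (It ι)} (e1 : l1 ≠ [])
    (e2 : l2 ≠ []) (hl : W.LOk ∅ (l1 ++ l2)) {R : GB ι} (hR : R.Valid (1 / 16)) {c : ℝ}
    (hc : 1 < c) {V L : ℝ} (hL : 0 < L) (hL' : L ≤ R.sz)
    (he : V + C.Bc * W.ts (l1 ++ l2) * L ^ (Fintype.card ι - 1) = L ^ Fintype.card ι)
    (hn : ∀ φ1 φ2 : ℝ, 0 ≤ φ1 → φ1 ≤ 8 * Fintype.card ι → 0 ≤ φ2 → φ2 ≤ 8 * Fintype.card ι →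
      φ1 * W.xs l1 + φ2 * W.xs l2 ≤ (R.phi (1 / 16) - R.drop (1 / 16)) * (W.xs l1 + W.xs l2) →
      C.Vl W l1 φ1 + C.Vl W l2 φ2 ≤ V ∧
        ((C.Vl W l1 φ1 ≤ 88 / 100 * V ∧ C.Vl W l2 φ2 ≤ 88 / 100 * V ∧
            C.Bc * W.ts (l1 ++ l2) * L ^ (Fintype.card ι - 1) ≤ V) ∨
          (W.ts l1 ≤ 6 / 10 * W.ts (l1 ++ l2) ∧ W.ts l2 ≤ 6 / 10 * W.ts (l1 ++ l2) ∧
            V ≤ 2 * (C.Bc * W.ts (l1 ++ l2) * L ^ (Fintype.card ι - 1))))) :
    ∃ R1 R2 c', C.VL W l1 R1 c' ∧ C.VL W l2 R2 c' ∧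
      Red W.U0 ∅ (W.pbL (l1 ++ l2) R c) {W.pbL l1 R1 c', W.pbL l2 R2 c'} := by
  have f0 : (0 : ℝ) < 1 / 16 := by norm_num
  have hN : 2 ≤ Fintype.card ι := Fintype.one_lt_card
  have hN' : (2 : ℝ) ≤ Fintype.card ι := by exact_mod_cast hN
  have o0 := List.map_append ▸ hl.2
  have o1 : W.LOk ∅ l1 := ⟨fun b hb => hl.1 b (List.mem_append_left _ hb), o0.of_append_left⟩
  have o2 : W.LOk ∅ l2 := ⟨fun b hb => hl.1 b (List.mem_append_right _ hb), o0.of_append_right⟩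
  obtain ⟨k1, k2, -, c0, -⟩ := hC.consts h
  have t1 := mul_nonneg (zero_le_one.trans k2) (h.ts_bd o1).1
  have t2 := mul_nonneg (zero_le_one.trans k2) (h.ts_bd o2).1
  have t0 := (h.ts_bd hl).1
  have x1 := (hC.cred_bd h o1).1
  have x2 := (hC.cred_bd h o2).1
  obtain ⟨z1, z2, -⟩ := hR.sz_pos f0 le_rfl
  obtain ⟨i, hi⟩ := Finite.exists_max R.w
  obtain ⟨s, φ1, φ2, -, p1, p2, p3, p4, p5, p6⟩ := hR.cut f0 le_rfl hi x1 x2
  obtain ⟨n1, n2⟩ := hn φ1 φ2 p1 p2 p3 p4 p5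
  have v1 := (hC.cred_bd h o1).2.2.2.2.1.trans (hC.Vl_bd h o1 p1 p2).1
  have v2 := (hC.cred_bd h o2).2.2.2.2.1.trans (hC.Vl_bd h o2 p3 p4).1
  have et : C.Bc * W.ts (l1 ++ l2) = C.Bc * W.ts l1 + C.Bc * W.ts l2 := by
    rw [EV.ts_append, mul_add]
  have d0 := mul_nonneg (zero_le_one.trans k1) t0
  have d1 : 100 * Fintype.card ι * (W.cg (1 / 16) * W.ts (l1 ++ l2)) ≤ C.Bc * W.ts (l1 ++ l2) :=
    mul_assoc (_ * _ : ℝ) _ _ ▸ mul_le_mul_of_nonneg_right hC.hB t0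
  have d2 := Nd.le (by omega) he.le (by linarith only [n1, v1, v2]) hL
  obtain ⟨L1, L2, q1, q2, q3, q4, q5, q6, q7⟩ := cut_num hN hL v1 v2 t1 t2 n1 (et ▸ he) d0
    (et ▸ d1) (n2.imp (fun a => et ▸ a) fun a => et ▸
      ⟨by linarith only [mul_le_mul_of_nonneg_left a.1 (zero_le_one.trans k2), a, k2],
        by linarith only [mul_le_mul_of_nonneg_left a.2.1 (zero_le_one.trans k2), a, k2], a.2.2⟩)
  generalize hd : W.cg (1 / 16) * W.ts (l1 ++ l2) = d at d0 d1 q3 q4 q5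
  have d3 : 200 * d ≤ L := by nlinarith only [d2, d1, hN', d0]
  have d4 : 0 < L - d := by linarith only [hL, d3]
  have d5 : (L - d) ^ Fintype.card ι * (R.sz / (L - d)) ^ Fintype.card ι = R.vol := by
    rw [← mul_pow, mul_div_cancel₀ _ d4.ne', z2]
  have d6 := (pow_pos (div_pos z1 d4) (Fintype.card ι)).le
  obtain ⟨c0, R1, R2, r1, r2, r3, r4, r5⟩ := p6 ((L1 * (R.sz / (L - d))) ^ Fintype.card ι)
    ((L2 * (R.sz / (L - d))) ^ Fintype.card ι) (by rw [mul_pow, mul_pow, ← add_mul, q3, d5])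
    (by rw [mul_pow]; linarith only [mul_le_mul_of_nonneg_right q4 d6, d5, q4, d6])
    (by rw [mul_pow]; linarith only [mul_le_mul_of_nonneg_right q5 d6, d5, q5, d6])
  obtain ⟨R1', R2', s1, s2, s3⟩ := h.cutl_red f0 le_rfl e1 e2 hl hR r1 s (L := L - d)
    (c := c) (c' := (1 + c) / 2) (by linarith only [hL, hd, d3]) (by linarith only [hL', hd]) (by linarith only [hc]) (by linarith only [hc])
  have fin : ∀ {l : List (It ι)} {R0 R' : GB ι} {L0 φ : ℝ}, l ≠ [] → W.LOk ∅ l → 0 < L0 →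
      R0.vol = (L0 * (R.sz / (L - d))) ^ Fintype.card ι → R0.phi (1 / 16) ≤ φ →
      Sim (1 / 16) R0 R' ((L - d) / R.sz * R0.sz) →
      Nd (Fintype.card ι) (C.Vl W l φ) (C.Bc * W.ts l) L0 → C.VL W l R' ((1 + c) / 2) := by
    intro l R0 R' L0 φ a1 a2 a3 a4 a5 a6 a7
    obtain ⟨b1, b2⟩ := a6.valid.phi_bd f0 le_rfl
    refine ⟨a1, a2, a6.valid, by linarith only [hc], a7.mono (by omega)
      ((hC.cred_bd h a2).2.2.2.2.1.trans (hC.Vl_bd h a2 b1 b2).1) ?_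
      (mul_nonneg (zero_le_one.trans k2) (h.ts_bd a2).1) le_rfl a3 (le_of_eq ?_)⟩
    · rw [Vl, Vl, a6.phi]
      have := hC.p2
      have := (hC.cred_bd h a2).1
      gcongr
    · rw [a6.sz, GB.sz_eq (by positivity) a4]
      field_simp
  exact ⟨R1', R2', _, fin e1 o1 q1 r2 r4 s1 q6, fin e2 o2 q2 r3 r5 s2 q7, s3⟩

end EC

end Pool.Agent.Lib.MP_ecd4e3_gt.N
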