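import Pool.Agent.Lib.MP_ecd4e3_gt.N.EStep

/-! All valid states are solvable. -/

namespace Pool.Agent.Lib.MP_ecd4e3_gt.N

open Set Filter Topology Metric MeasureTheory
open scoped NNReal ENNReal

variable {ι : Type} [Fintype ι] [DecidableEq ι] [Nonempty ι] [Nontrivial ι]

/-- The number of halvings which are still needed at depth `r`. -/
noncomputable def emx (r : ℝ≥0) (k : ℤ) (Q : Bx ι) : ℕ :=
  (lev k Q + 1 - Int.log 2 (((r : ℝ) / 2) ^ Fintype.card ι / 30)).toNat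

/-- The weight of a list. -/
noncomputable def ems (r : ℝ≥0) (l : List (It ι)) : ℕ := (l.map fun b => 4 ^ emx r b.k b.Q).sum

/-- The states of the construction. -/
abbrev EmI (ι : Type) [Fintype ι] : Type :=
  (List (It ι) × GB ι × ℝ) ⊕ (ℕ × ℤ × Bx ι × FD ι × GB ι × ℝ)

/-- The recursion measure. -/
noncomputable def emu (r : ℝ≥0) : EmI ι → ℕ
  | .inl σ => 3 * ems r σ.1 + 2
  | .inr σ => 3 * 4 ^ emx r σ.2.1 σ.2.2.1

omit [Nonempty ι] [Nontrivial ι] in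
theorem em_half {r : ℝ≥0} (hr : 0 < r) {k k' : ℤ} {Q Q' : Bx ι} (hQ : BX k Q)
    (hv : ((r : ℝ) / 2) ^ Fintype.card ι / 30 ≤ Q.vol) (hl : lev k' Q' = lev k Q - 1) :
    4 ^ emx r k Q = 4 * 4 ^ emx r k' Q' := by
  have hr' : (0 : ℝ) < r := hr
  have h1 := Int.zpow_log_le_self (b := 2) one_lt_two
    (show 0 < ((r : ℝ) / 2) ^ Fintype.card ι / 30 by positivity)
  have h2 : Int.log 2 (((r : ℝ) / 2) ^ Fintype.card ι / 30) ≤ lev k Q := by
    rw [← two_le_g, ← hQ.vol]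
    exact le_trans (by simpa using h1) hv
  have h3 : emx r k Q = emx r k' Q' + 1 := by
    rw [emx, emx, hl]
    omega
  rw [h3, pow_succ, mul_comm]

omit [DecidableEq ι] [Nonempty ι] [Nontrivial ι] in
theorem ems_append (r : ℝ≥0) (l1 l2 : List (It ι)) : ems r (l1 ++ l2) = ems r l1 + ems r l2 := by
  simp [ems]

omit [DecidableEq ι] [Nonempty ι] [Nontrivial ι] in
theorem ems_cons (r : ℝ≥0) (b : It ι) (l : List (It ι)) :
    ems r (b :: l) = 4 ^ emx r b.k b.Q + ems r l := by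
  simp [ems]

omit [DecidableEq ι] [Nonempty ι] [Nontrivial ι] in
theorem ems_pos (r : ℝ≥0) {l : List (It ι)} (h : l ≠ []) : 0 < ems r l := by
  obtain ⟨b, l, rfl⟩ := List.exists_cons_of_ne_nil h
  rw [ems_cons]
  positivity

omit [DecidableEq ι] [Nonempty ι] [Nontrivial ι] in
theorem ems_infix (r : ℝ≥0) {l l' : List (It ι)} (h : l <:+: l') : ems r l ≤ ems r l' := by
  obtain ⟨s, t, rfl⟩ := h
  rw [ems_append, ems_append]
  omega

omit [Nonempty ι] [Nontrivial ι] in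
theorem em_kids {r : ℝ≥0} (hr : 0 < r) {k : ℤ} {Q : Bx ι} (hQ : BX k Q)
    (hv : ((r : ℝ) / 2) ^ Fintype.card ι / 30 ≤ Q.vol) {b1 b2 : It ι} (hk : EV.Kids k Q b1 b2) :
    4 ^ emx r k Q = 4 * 4 ^ emx r b1.k b1.Q ∧ 4 ^ emx r k Q = 4 * 4 ^ emx r b2.k b2.Q := by
  obtain ⟨j, ε, -, hj, e1, e2, e3, e4⟩ := hk
  rw [e1, e2, e3, e4]
  exact ⟨em_half hr hQ hv (hQ.H hj _).2, em_half hr hQ hv (hQ.H hj _).2⟩

omit [Nonempty ι] [Nontrivial ι] in
theorem em_nv {U0 : Set (E ι)} {R : GB ι} {β : E ι → YL ι} {ls : List (ℕ × Bx ι)} {c : ℝ}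
    (hc : 1 < c) {r : ℝ≥0} (h : (pbS R β (srcL ls) c).NV (UL U0) r) :
    ∃ a ∈ ls, ∃ y ∈ a.2.set, (r : ℝ) ≤ infDist y U0ᶜ := by
  obtain ⟨t, y, ⟨-, a, ha, -, h1⟩, -, h2⟩ := h
  rw [infDist_UL] at h2
  exact ⟨a, ha, y.2, h1, (le_mul_of_one_le_right r.coe_nonneg hc.le).trans h2⟩

namespace EC

variable {C : EC} {W : EV ι}

theorem em_vol (h : W.OK) {Q : Bx ι} (hQ : Q.Pos) : W.nu Q ≤ Q.vol := by
  obtain ⟨-, h1, -, h2⟩ := h.nu_bd hQ
  rw [h1]
  exact mul_le_of_le_one_left hQ.vol_pos.le h2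

variable (C W) in
/-- The valid states. -/
def emV : Set (EmI ι) := {σ | Sum.elim (fun σ => C.VL W σ.1 σ.2.1 σ.2.2)
  (fun σ => C.VF W σ.2.1 σ.2.2.1 σ.2.2.2.1 σ.2.2.2.2.1 σ.2.2.2.2.2) σ}

variable (C W) in
/-- The problems of the states. -/
noncomputable def emP : EmI ι → PE ι := Sum.elim (fun σ => W.pbL σ.1 σ.2.1 σ.2.2)
  fun σ => W.pbT σ.1 σ.2.1 σ.2.2.1 (C.tF W σ.2.2.1 σ.2.2.2.1) σ.2.2.2.2.1 σ.2.2.2.2.2

omit [Nontrivial ι] in
theorem em_redL {σ : EmI ι} {l : List (It ι)} (hp : C.RedL W (C.emP W σ) l)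
    (hm : ∀ r : ℝ≥0, 0 < r → (C.emP W σ).NV (UL W.U0) r → 3 * ems r l + 2 < emu r σ) :
    ∃ ch ⊆ C.emV W, Red W.U0 ∅ (C.emP W σ) (C.emP W '' ch) ∧
      ∀ r : ℝ≥0, 0 < r → ∀ σ' ∈ ch, (C.emP W σ).NV (UL W.U0) r → (C.emP W σ').NV (UL W.U0) r →
        emu r σ' < emu r σ := by
  obtain ⟨ch, h1, h2⟩ := hp
  refine ⟨Sum.inl '' ch, ?_, by rw [image_image]; exact h2, ?_⟩
  · rintro _ ⟨s, hs, rfl⟩
    exact (h1 s hs).1
  · rintro r hr _ ⟨s, hs, rfl⟩ hn -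
    have h3 := ems_infix r (h1 s hs).2
    have h4 := hm r hr hn
    change 3 * ems r s.1 + 2 < _
    omega

theorem Good.em_all (h : W.OK) (hC : C.Good W) :
    ∀ σ ∈ C.emV W, ∃ Z, Sol (UL W.U0) (C.emP W σ) univ Z := by
  refine red_rec (F0 := ∅) h.hU h.hne (C.emV W) (C.emP W) ?_ emu ?_
  · rintro (⟨l, R, c⟩ | ⟨a, k, Q, F, R, c⟩) hv
    · exact h.wf_L hv.2.1 hv.1 R (one_pos.trans hv.2.2.2.1)
    · exact h.wf_T a hv.1 (hC.tt_le_tF h hv).1 R (one_pos.trans hv.2.2.2.1)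
  rintro (⟨l, R, c⟩ | ⟨a, k, Q, F, R, c⟩) hv
  · rcases hC.stepL h hv with ⟨l1, l2, R1, R2, c', rfl, v1, v2, hr⟩ | hr |
      ⟨b, F, R', c', rfl, v1, hr⟩ | ⟨l1, b, l2, b1, b2, rfl, hk, hcr, hr⟩
    · refine ⟨{.inl (l1, R1, c'), .inl (l2, R2, c')}, ?_, by rw [image_pair]; exact hr, ?_⟩
      · rintro _ (rfl | rfl)
        exacts [v1, v2]
      · rintro r - _ (rfl | rfl) - -
        · have := ems_pos r v2.1
          change 3 * ems r l1 + 2 < 3 * ems r (l1 ++ l2) + 2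
          rw [ems_append]
          omega
        · have := ems_pos r v1.1
          change 3 * ems r l2 + 2 < 3 * ems r (l1 ++ l2) + 2
          rw [ems_append]
          omega
    · exact ⟨∅, empty_subset _, by rw [image_empty]; exact hr, fun _ _ _ h1 => h1.elim⟩
    · refine ⟨{.inr (b.a, b.k, b.Q, F, R', c')}, ?_, by rw [image_singleton]; exact hr, ?_⟩
      · rintro _ rfl
        exact v1
      · rintro r - _ rfl - -
        change 3 * 4 ^ emx r b.k b.Q < 3 * ems r [b] + 2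
        rw [ems_cons]
        omega
    · refine em_redL (σ := .inl (l1 ++ b :: l2, R, c)) hr fun r hr0 hn => ?_
      have hl : W.LOk ∅ (l1 ++ b :: l2) := hv.2.1
      obtain ⟨_, ha, y, hy, hd⟩ := em_nv (R := R) (β := fun _ => W.y0) hv.2.2.2.1 hn
      obtain ⟨b', hb', rfl⟩ := List.mem_map.1 ha
      have i1 := (hl.1 b' hb').1
      have i2 := (hl.1 b (by simp)).1
      have d1 := h.deep i1.bx i1.mem.2.2.2 i1.np.2 hy (NNReal.coe_pos.2 hr0) hd
      have d2 := ((hC.cred_bd h hl).2.2.2.2.2.1 b' hb').trans hcr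
      have c0 := (hC.consts h).2.2.2.1
      have d3 : W.nu b'.Q / 30 ≤ W.nu b.Q := le_of_mul_le_mul_left (by linarith only [d2]) c0
      have d4 := em_vol h i2.bx.two.1
      obtain ⟨e1, e2⟩ := em_kids hr0 i2.bx (by linarith only [d1, d3, d4]) hk
      have p1 : 0 < 4 ^ emx r b1.k b1.Q := by positivity
      change _ < 3 * ems r (l1 ++ b :: l2) + 2
      rw [ems_append, ems_append, ems_cons, ems_cons, ems_cons]
      omega
  · have hQ : BX k Q := hv.1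
    have key : Q.den W.ν < 1 → ∀ r : ℝ≥0, 0 < r →
        (C.emP W (.inr (a, k, Q, F, R, c))).NV (UL W.U0) r →
        ((r : ℝ) / 2) ^ Fintype.card ι / 30 ≤ Q.vol := fun hd r hr0 hn => by
      obtain ⟨_, ha, y, hy, hd'⟩ := em_nv (R := R) (β := fun _ => W.y0) hv.2.2.2.1 hn
      obtain rfl := List.mem_singleton.1 ha
      obtain ⟨v, v1, v2⟩ := h.exists_out hQ.two.1 hd
      have d1 := h.deep hQ v1 v2 hy (NNReal.coe_pos.2 hr0) hd'
      have d2 := em_vol h hQ.two.1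
      have d3 := hQ.two.1.vol_pos
      linarith only [d1, d2, d3]
    rcases hC.stepF h a hv with hr | ⟨hd, ⟨b1, b2, hk, hr⟩ | ⟨F', R1, R2, c', v1, v2, hr⟩⟩
    · exact ⟨∅, empty_subset _, by rw [image_empty]; exact hr, fun _ _ _ h1 => h1.elim⟩
    · refine em_redL (σ := .inr (a, k, Q, F, R, c)) hr fun r hr0 hn => ?_
      obtain ⟨e1, e2⟩ := em_kids hr0 hQ (key hd r hr0 hn) hk
      have p1 : 0 < 4 ^ emx r b1.k b1.Q := by positivity
      have e0 : ems r ([] : List (It ι)) = 0 := rfl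
      change _ < 3 * 4 ^ emx r k Q
      rw [ems_cons, ems_cons, e0]
      omega
    · refine ⟨{.inr (a, nk k Q, Q.L Q.sj, F', R1, c'), .inr (a, nk k Q, Q.R Q.sj, F', R2, c')},
        ?_, by rw [image_pair]; exact hr, ?_⟩
      · rintro _ (rfl | rfl)
        exacts [v1, v2]
      · rintro r hr0 _ (rfl | rfl) hn -
        · have e1 := em_half hr0 hQ (key hd r hr0 hn) (hQ.L Q.long_sj).2
          have p1 : 0 < 4 ^ emx r (nk k Q) (Q.L Q.sj) := by positivity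
          change 3 * 4 ^ emx r (nk k Q) (Q.L Q.sj) < 3 * 4 ^ emx r k Q
          omega
        · have e1 := em_half hr0 hQ (key hd r hr0 hn) (hQ.R Q.long_sj).2
          have p1 : 0 < 4 ^ emx r (nk k Q) (Q.R Q.sj) := by positivity
          change 3 * 4 ^ emx r (nk k Q) (Q.R Q.sj) < 3 * 4 ^ emx r k Q
          omega

theorem Good.solL (h : W.OK) (hC : C.Good W) {l : List (It ι)} {R : GB ι} {c : ℝ}
    (hv : C.VL W l R c) : ∃ Z, Sol (UL W.U0) (W.pbL l R c) univ Z :=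
  hC.em_all h (.inl (l, R, c)) hv

theorem Good.solR (h : W.OK) (hC : C.Good W) {p : PE ι} {l : List (It ι)} (hp : C.RedL W p l) :
    ∃ Z, Sol (UL W.U0) p univ Z := by
  obtain ⟨ch, h1, h2⟩ := hp
  refine h2.sol ?_
  rintro _ ⟨s, hs, rfl⟩
  exact hC.solL h (h1 s hs).1

/-- The first stage: a large central cube. -/
theorem Good.sol_start (h : W.OK) (hC : C.Good W) {μ : ℝ} (hμ : 0 < μ)
    (hν : W.ν univ ≤ ENNReal.ofReal μ) {L : ℝ} (hL : 0 < L)
    (hL' : 4 * (C.C0 ι * μ) ≤ L ^ Fintype.card ι) {c : ℝ} (hc : 1 < c) :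
    ∃ j0 : ℤ, ∀ j, j0 ≤ j → ∃ Z, Sol (UL W.U0)
      (W.pbT 0 j (cubeAt j 0) (2 * W.tt (cubeAt j 0)) (cubeC 0 L).gb c) univ Z := by
  obtain ⟨n, hn⟩ := pow_unbounded_of_one_lt μ (one_lt_two (α := ℝ))
  refine ⟨n, fun j hj => ?_⟩
  have hG := cube_cubeAt j (0 : E ι)
  set Q : Bx ι := cubeAt j 0 with hQ
  have hB := hG.bx
  have hP := hB.two.1
  have N0 : Fintype.card ι ≠ 0 := Fintype.card_ne_zero
  have n1 : W.nu Q ≤ μ :=
    ENNReal.toReal_le_of_le_ofReal hμ.le ((measure_mono (subset_univ _)).trans hν)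
  have v1 : μ < Q.vol := by
    have a1 : (2 : ℝ) ^ n ≤ 2 ^ j := by rw [← zpow_natCast]; exact two_le_g.2 hj
    have a2 : (1 : ℝ) ≤ 2 ^ n := one_le_pow₀ one_le_two
    rw [hG.vol]
    exact hn.trans_le (a1.trans (le_self_pow₀ (a2.trans a1) N0))
  obtain ⟨n2, n3, -, -⟩ := h.nu_bd hP
  have hd : Q.den W.ν < 1 := by
    by_contra h1
    have := mul_le_mul_of_nonneg_right (not_lt.1 h1) hP.vol_pos.le
    linarith only [n1, v1, n3, this]
  obtain ⟨t1, -, t2, t3, t4⟩ := h.tt_bd hP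
  obtain ⟨g1, -, -, c0, k1, -⟩ := hC.consts h
  obtain ⟨-, r1, -⟩ := hC.cr_bd h hP
  have p0 : 0 < C.C0 ι * W.nu Q := mul_pos c0 n2
  have p1 : 0 < 3 * (C.C0 ι * W.nu Q) := by positivity
  have e0 := Real.rpow_inv_natCast_pow p1.le N0
  set L0 : ℝ := (3 * (C.C0 ι * W.nu Q)) ^ ((Fintype.card ι : ℝ)⁻¹) with hL0
  have l0 : 0 < L0 := Real.rpow_pos_of_pos p1 _
  have l1 : L0 ≤ L := by
    refine le_of_pow_le_pow_left₀ N0 hL.le ?_
    have := mul_le_mul_of_nonneg_left n1 c0.le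
    linarith only [hL', p0, e0, this]
  have hV := (cubeC_valid (f := 1 / 16) (by norm_num) le_rfl (0 : E ι) hL).2.1
  obtain ⟨b1, b2, -, hr⟩ := hC.exit_step h 0 hB hd Q.long_sj (t := 2 * W.tt Q) (by linarith only [t1]) hV hc
    l0 (by linarith only [p0, e0]) (by
      rw [cubeC_sz _ hL, show 2 * W.tt Q * Q.sc = 2 * W.ta Q by rw [EV.ta]; ring]
      have := mul_pos (one_pos.trans_le g1) t2
      linarith only [l1, this]) (.inr (by
      have a1 : 16 * Fintype.card ι * C.k2 + C.κ ≤ 1 := by linarith only [hC.h2, k1]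
      have a2 : C.C0 ι * W.xx Q ≤ C.C0 ι * W.nu Q := mul_le_mul_of_nonneg_left t4 c0.le
      have a3 := mul_le_of_le_one_left (mul_pos c0 t3).le a1
      linarith only [r1, e0, a2, a3]))
  exact hC.solR h hr

end EC

end Pool.Agent.Lib.MP_ecd4e3_gt.N
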