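import Pool.Agent.Lib.MP_ecd4e3_gt.N.LDefs
import Pool.Agent.Lib.MP_ecd4e3_gt.N.SDm
import Pool.Agent.Lib.MP_ecd4e3_gt.N.Col
import Pool.Agent.Lib.MP_ecd4e3_gt.N.Bdry

/-! The step of the martingale mode and the layer of a cube. -/

namespace Pool.Agent.Lib.MP_ecd4e3_gt.N

open Set Filter Topology Metric MeasureTheory
open scoped NNReal ENNReal

variable {ι : Type} [Fintype ι] [DecidableEq ι] [Nonempty ι] {Y : Type} [MetricSpace Y]
  {U : Set Y} {e : E ι → Y} {ok : ℤ → Prop} {B u K : ℝ} {T : ℤ} {lo sp : ℤ → Bx ι → ℝ}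
  {P : ℤ → ℝ × E ι → Y} {f : ℝ}

/-- The graph box of an undeformed box. -/
theorem frel_entry (hf : 0 < f) {Q Q' : Bx ι} (hQ : Q.Pos) (hQ' : Q'.Pos)
    (ha : ∀ i j, Q'.sd i ≤ Mx f * Q'.sd j) :
    FRel f Q ⟨fun i => Q'.lo i - Q'.sd i / Q.sd i * Q.lo i, fun i => Q'.sd i / Q.sd i, 0, 0, 0⟩
        Q'.gb ∧
      FD.a0 ⟨fun i => Q'.lo i - Q'.sd i / Q.sd i * Q.lo i, fun i => Q'.sd i / Q.sd i, 0, 0, 0⟩ Q =
        Q'.vol := by
  have hs : ∀ i, Q.sd i ≠ 0 := fun i => (sub_pos.2 (hQ i)).ne'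
  have hs' : ∀ i, Q'.sd i ≠ 0 := fun i => (sub_pos.2 (hQ' i)).ne'
  have hth : ∀ x, Q'.nm (FD.psi ⟨fun i => Q'.lo i - Q'.sd i / Q.sd i * Q.lo i,
      fun i => Q'.sd i / Q.sd i, 0, 0, 0⟩ x) = Q.nm x := fun x => by
    funext i
    have h1 := hs i
    have h2 := hs' i
    have h3 : Q'.hi i = Q'.lo i + Q'.sd i := by simp [Bx.sd]
    have h4 : Q.hi i = Q.lo i + Q.sd i := by simp [Bx.sd]
    simp only [Bx.nm, FD.psi, Pi.zero_apply, add_zero]
    rw [h3, h4]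
    field_simp
    ring
  refine ⟨⟨Bx.gb_valid hf hQ' ha, ?_, fun x => by rw [Bx.gb_th, hth], fun i => ?_⟩, ?_⟩
  · rw [Bx.gb_set]
    ext z
    constructor
    · intro hz
      refine ⟨Q.af (Q'.nm z), hQ.af_mem.2 (hQ'.nm_mem.1 hz), ?_⟩
      rw [← hQ'.af_nm (FD.psi _ _), hth, hQ.nm_af, hQ'.af_nm]
    · rintro ⟨x, hx, rfl⟩
      rw [hQ'.nm_mem, hth]
      exact hQ.nm_mem.1 hx
  · exact (div_mul_cancel₀ _ (hs i)).symm
  · simp only [FD.a0, Bx.vol]
    rw [← Finset.prod_mul_distrib]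
    exact Finset.prod_congr rfl fun i _ => div_mul_cancel₀ _ (hs i)

theorem FRel.vol {Q : Bx ι} {F : FD ι} {R : GB ι} (h : FRel f Q F R) : R.vol = F.vol Q := by
  rw [GB.vol, FD.vol, h.set]

theorem lopB_cwa {α β : Type} [MetricSpace α] [MetricSpace β] {φ : α → β} {s : Set α} {z : α}
    {g : α → ℝ} (hg : Continuous g) (h0 : g z = 0) (h : ∀ z' ∈ s, dist (φ z') (φ z) ≤ g z') :
    ContinuousWithinAt φ s z := by
  rw [ContinuousWithinAt, tendsto_iff_dist_tendsto_zero]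
  refine squeeze_zero' (Eventually.of_forall fun _ => dist_nonneg)
    (eventually_nhdsWithin_of_forall h) ?_
  rw [← h0]
  exact hg.continuousAt.tendsto.mono_left nhdsWithin_le_nhds

theorem FRel.psi_mem {Q : Bx ι} {F : FD ι} {R : GB ι} (h : FRel f Q F R) {x : E ι}
    (hx : x ∈ Q.set) : F.psi x ∈ R.set := by
  rw [h.set]
  exact mem_image_of_mem _ hx

theorem FRel.psi_bd {Q : Bx ι} {F : FD ι} {R : GB ι} (h : FRel f Q F R) (hQ : Q.Pos) {x : E ι}
    (hx : x ∈ Q.set) : F.psi x ∈ R.bd ↔ x ∈ Q.bd := by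
  rw [hQ.nm_mem_bd, ← h.th]
  exact ⟨fun h' => h'.2, fun h' => ⟨h.psi_mem hx, h'⟩⟩

theorem FRel.af_th {Q : Bx ι} {F : FD ι} {R : GB ι} (h : FRel f Q F R) (hQ : Q.Pos) (x : E ι) :
    Q.af (R.th (F.psi x)) = x := by
  rw [h.th, hQ.af_nm]

theorem FRel.exists_psi {Q : Bx ι} {F : FD ι} {R : GB ι} (h : FRel f Q F R) {z : E ι}
    (hz : z ∈ R.set) : ∃ x ∈ Q.set, F.psi x = z := by
  rwa [h.set] at hz

/-- Gluing the two halves in the martingale mode. -/
theorem f_op (hU : IsOpen U) (he : Isometry e) (h : BD U e ok B u K T lo sp P) {fc : FC}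
    (hfc : fc.Good (ι := ι) f) (hf : 0 < f) (hf' : f ≤ 1 / 16) {k k' : ℤ} (hk' : ok k')
    {Q : Bx ι} (hQ' : LB k' Q) {j : ι} (hm : Lat k' (Q.mid j)) {t : ℝ}
    (ht' : ∀ G, Cube k' G → G.set ⊆ Q.set → lo k' G ≤ t)
    (hkk : ∀ x ∈ Q.bd, Ap U (P k (t, x)) (P k' (t, x))) {F F' : FD ι} (hF : FSt fc f Q F)
    (hF' : FSt fc f (Q.L j) F') (ho : F'.o = F.o) (hh : F'.h = F.h)
    (hu : ∀ x, x ∉ Q.set ∨ x ∈ Q.bd → F'.u x = F.u x) {R R1 R2 : GB ι} (r0 : FRel f Q F R)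
    (r1 : FRel f (Q.L j) F' R1) (r2 : FRel f (Q.R j) F' R2) {c : ℝ} (h1 : 0 < c) (h3 : c ≤ 2) :
    LOp U (psB e P k t Q R c)
      (fun b : Bool => if b then psB e P k' t (Q.R j) R2 c else psB e P k' t (Q.L j) R1 c)
      (hf2 j) (8 * R.wmax) := by
  classical
  have hQ : Q.Pos := hQ'.pos
  have hL := hQ.L j
  have hR := hQ.R j
  obtain ⟨mx, ml⟩ := hfc.mix Q (Q.L j) F F' hF hF' ho hh hu
  have hb : BijOn F'.psi Q.set R.set := by
    have := mx 1 ⟨zero_le_one, le_rfl⟩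
    rw [← r0.set] at this
    simpa using this
  have sL : (Q.L j).set ⊆ Q.set := by rw [hQ.set_L]; exact inter_subset_left
  have sR : (Q.R j).set ⊆ Q.set := by rw [hQ.set_R]; exact inter_subset_left
  have hpb : ∀ x ∈ Q.bd, F'.psi x = F.psi x := fun x hx => by
    funext i
    simp only [FD.psi, ho, hh, hu x (Or.inr hx)]
  have hy : ∀ x ∈ Q.set, Function.invFunOn F'.psi Q.set (F'.psi x) = x := fun x hx =>
    hb.injOn.leftInvOn_invFunOn hx
  have hbd : ∀ z ∈ R.bd, ∃ x ∈ Q.bd, F.psi x = z ∧ F'.psi x = z := fun z hz => by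
    obtain ⟨x, hx, rfl⟩ := r0.exists_psi hz.1
    have hx' := (r0.psi_bd hQ hx).1 hz
    exact ⟨x, hx', rfl, hpb x hx'⟩
  refine ⟨fun F0 z => if z.2 ∈ R1.set then F0 false z else F0 true z,
    ⟨PW.ite (PW.single (mem_univ false) id) (PW.single (mem_univ true) id)
      fun z => z.2 ∈ R1.set, fun o F0 hF0 => ?_⟩, fun F0 X hF0 hX hXG => ?_⟩
  · refine h.glue_half he.injective hk' hQ' hm ht' (y := Function.invFunOn F'.psi Q.set) ?_
      r1.valid.isClosed r2.valid.isClosed (hb.invOn_invFunOn.symm.bijOn ?_ hb.mapsTo) ?_ ?_ ?_ ?_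
      ?_ ?_ ?_ ?_ (hF0 false (mem_univ _)) (hF0 true (mem_univ _))
    · change R.set = R1.set ∪ R2.set
      rw [r1.set, r2.set, ← image_union, ← hb.image_eq, hQ.set_L, hQ.set_R, ← inter_union_distrib_left]
      congr 1
      exact (inter_eq_left.2 fun x _ => le_total (x j) (Q.mid j)).symm
    · exact hb.surjOn.mapsTo_invFunOn
    · intro z hz
      obtain ⟨x, hx, rfl⟩ := hb.surjOn hz
      rw [hy x hx]
      refine ⟨fun h' => ?_, r1.psi_mem⟩
      obtain ⟨x', hx', e'⟩ := r1.exists_psi h'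
      exact hb.injOn (sL hx') hx e' ▸ hx'
    · intro z hz
      obtain ⟨x, hx, rfl⟩ := hb.surjOn hz
      rw [hy x hx]
      refine ⟨fun h' => ?_, r2.psi_mem⟩
      obtain ⟨x', hx', e'⟩ := r2.exists_psi h'
      exact hb.injOn (sR hx') hx e' ▸ hx'
    · intro z hz
      obtain ⟨x, hx, -, rfl⟩ := hbd z hz
      exact ⟨hb.mapsTo (Q.bd_subset hx), by rwa [hy x (Q.bd_subset hx)]⟩
    · intro z hz h'
      obtain ⟨x, hx, rfl⟩ := r1.exists_psi hz
      rw [hy x (sL hx)] at h'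
      exact (r1.psi_bd hL hx).2 h'
    · intro z hz h'
      obtain ⟨x, hx, rfl⟩ := r2.exists_psi hz
      rw [hy x (sR hx)] at h'
      exact (r2.psi_bd hR hx).2 h'
    · rintro ⟨_, z⟩ hz
      obtain ⟨x, hx, e1, e2⟩ := hbd z hz.2
      change Ap U (P k (t, Q.af (R.th z))) (P k' (t, Function.invFunOn F'.psi Q.set z))
      conv_lhs => rw [← e1, r0.af_th hQ]
      rw [← e2, hy x (Q.bd_subset hx)]
      exact hkk x hx
    · rintro ⟨_, z⟩ hz
      obtain ⟨x, hx, rfl⟩ := r1.exists_psi hz.2.2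
      change Ap U (P k' (t, (Q.L j).af (R1.th (F'.psi x))))
        (P k' (t, Function.invFunOn F'.psi Q.set (F'.psi x)))
      rw [r1.af_th hL, hy x (sL hx)]
      exact Ap.rfl
    · rintro ⟨_, z⟩ hz
      obtain ⟨x, hx, rfl⟩ := r2.exists_psi hz.2.2
      change Ap U (P k' (t, (Q.R j).af (R2.th (F'.psi x))))
        (P k' (t, Function.invFunOn F'.psi Q.set (F'.psi x)))
      rw [r2.af_th hR, hy x (sR hx)]
      exact Ap.rfl
  · obtain ⟨i0, hi0⟩ := Finite.exists_max F.h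
    obtain ⟨j0, hj0⟩ := Finite.exists_max Q.sd
    have p0 : 0 < F.h i0 := hF.ph i0
    have p1 : 0 < Q.sd j0 := sub_pos.2 (hQ j0)
    have p2 : F.h i0 * Q.sd j0 ≤ 2 * R.wmax := by
      have a1 := hF.two.2 j0 i0
      have a2 := R.le_wmax i0
      rw [r0.w] at a2
      nlinarith only [a2, hf, hf', p0, a1]
    have hba := hQ.bijOn_af
    have hbm : ∀ r ∈ Icc (0 : ℝ) 1, BijOn
        (fun x => (1 - r) • F.psi (Q.af x) + r • F'.psi (Q.af x)) (closedBall 0 1) R.set :=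
      fun r hr => by
        rw [r0.set]
        exact (mx r hr).comp hba
    have hlip : ∀ z ∈ Icc (0 : ℝ) 1 ×ˢ closedBall (0 : E ι) 1,
        ∀ z' ∈ Icc (0 : ℝ) 1 ×ˢ closedBall (0 : E ι) 1,
        dist ((1 - z'.1) • F.psi (Q.af z'.2) + z'.1 • F'.psi (Q.af z'.2))
          ((1 - z.1) • F.psi (Q.af z.2) + z.1 • F'.psi (Q.af z.2)) ≤
          4 * R.wmax * dist z'.2 z.2 + 4 * R.wmax * dist z'.1 z.1 := fun z hz z' hz' => by
      have a1 := ml _ hi0 _ hj0 _ hz'.1 _ hz.1 _ (hba.mapsTo hz'.2) _ (hba.mapsTo hz.2)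
      have a2 := Bx.af_lip hQ p1.le hj0 z'.2 z.2
      have a3 : 0 ≤ dist z'.2 z.2 := dist_nonneg
      have a4 : 0 ≤ |z'.1 - z.1| := abs_nonneg _
      have a5 := mul_le_mul_of_nonneg_right p2 a3
      have a6 := mul_le_mul_of_nonneg_right p2 a4
      have a7 := mul_le_mul_of_nonneg_left a2 p0.le
      have a8 := mul_nonneg (mul_pos p0 p1).le a3
      rw [Real.dist_eq]
      nlinarith only [a1, a5, a6, a7, a8]
    have pw : 0 ≤ R.wmax := by nlinarith only [mul_pos p0 p1, p2, p0, p1]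
    refine ⟨fun z => X ((), (1 - z.1) • F.psi (Q.af z.2) + z.1 • F'.psi (Q.af z.2)),
      hX.comp (fun _ => ()) (fun z : ℝ × E ι =>
        (1 - z.1) • F.psi (Q.af z.2) + z.1 • F'.psi (Q.af z.2)) ?_ ?_ ?_ ?_ ?_ ?_ ?_, ?_, ?_⟩
    · exact fun z hz => ⟨mem_univ _, (hbm z.1 hz.1).mapsTo hz.2⟩
    · exact fun z hz _ h' => ⟨hz.1, h'.2⟩
    · exact fun r y hy _ => ⟨mem_univ _, hy.2⟩
    · intro r y hy _ _ x hx _
      obtain ⟨x', hx', e'⟩ := (hbm r hy.1).surjOn hx.2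
      exact ⟨x', ⟨hy.1, hx'⟩, e'⟩
    · exact fun r x x' hx hx' _ e' => (hbm r hx.1).injOn hx'.2 hx.2 e'
    · intro z hz _
      refine ⟨continuousWithinAt_const.prodMk (lopB_cwa
        (g := fun z' => 4 * R.wmax * dist z'.2 z.2 + 4 * R.wmax * dist z'.1 z.1) (by fun_prop)
        (by simp) (hlip z hz)), eventually_nhdsWithin_of_forall fun z' hz' => ?_⟩
      have a1 := mul_le_mul h3 (hlip z hz z' hz') dist_nonneg zero_le_two
      change c * _ + 0 * _ ≤ 8 * R.wmax * dist z'.2 z.2 + 8 * R.wmax * dist z'.1 z.1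
      linarith only [a1]
    · intro z hz
      have a1 : Q.af z.2 ∈ Q.bd := hQ.bijOn_af_bd.mapsTo hz.2
      have a2 : (1 - z.1) • F.psi (Q.af z.2) + z.1 • F'.psi (Q.af z.2) = F.psi (Q.af z.2) := by
        rw [hpb _ a1, ← add_smul, sub_add_cancel, one_smul]
      refine Or.inl ⟨⟨mem_univ _, ?_⟩, Ap.of_eq ?_⟩
      · change _ ∈ R.bd
        rw [a2]
        exact (r0.psi_bd hQ (Q.bd_subset a1)).2 a1
      · change P k (t, Q.af z.2) = P k (t, Q.af (R.th _))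
        rw [a2, r0.af_th hQ]
    · intro z hz
      obtain ⟨x, hx, rfl⟩ := r0.exists_psi hz
      refine Ap.of_eq ?_
      change X ((), (1 - (0 : ℝ)) • F.psi (Q.af (R.th (F.psi x))) +
        (0 : ℝ) • F'.psi (Q.af (R.th (F.psi x)))) = _
      rw [r0.af_th hQ, sub_zero, one_smul, zero_smul, add_zero]
    · rintro (_ | _) z hz
      · obtain ⟨x, hx, rfl⟩ := r1.exists_psi hz
        have a1 := hXG _ (hb.mapsTo (sL hx))
        simp only [if_pos (r1.psi_mem hx)] at a1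
        change Ap U (X ((), (1 - (1 : ℝ)) • F.psi (Q.af (N.hf j (-1) (R1.th (F'.psi x)))) +
          (1 : ℝ) • F'.psi (Q.af (N.hf j (-1) (R1.th (F'.psi x)))))) _
        rw [← Bx.af_L, r1.af_th hL, sub_self, zero_smul, one_smul, zero_add]
        exact a1
      · obtain ⟨x, hx, rfl⟩ := r2.exists_psi hz
        have a1 := hXG _ (hb.mapsTo (sR hx))
        change Ap U (X ((), (1 - (1 : ℝ)) • F.psi (Q.af (N.hf j 1 (R2.th (F'.psi x)))) +
          (1 : ℝ) • F'.psi (Q.af (N.hf j 1 (R2.th (F'.psi x)))))) _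
        rw [← Bx.af_R, r2.af_th hR, sub_self, zero_smul, one_smul, zero_add]
        refine a1.trans ?_
        by_cases hz1 : F'.psi x ∈ R1.set
        · simp only [if_pos hz1]
          obtain ⟨x', hx', e'⟩ := r1.exists_psi hz1
          obtain rfl : x' = x := hb.injOn (sL hx') (sR hx) e'
          have a2 : x' j = Q.mid j := by
            rw [hQ.set_L] at hx'
            rw [hQ.set_R] at hx
            exact le_antisymm hx'.2 hx.2
          have a3 : x' ∈ (Q.L j).bd := ⟨hx', j, Or.inr (by simp [Bx.L, a2])⟩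
          have a4 : x' ∈ (Q.R j).bd := ⟨hx, j, Or.inl (by simp [Bx.R, a2])⟩
          have a5 : Ap U (F0 false ((), F'.psi x')) (P k' (t, (Q.L j).af (R1.th (F'.psi x')))) :=
            (hF0 false).ap ((), F'.psi x') ⟨mem_univ _, (r1.psi_bd hL hx').2 a3⟩
          have a6 : Ap U (F0 true ((), F'.psi x')) (P k' (t, (Q.R j).af (R2.th (F'.psi x')))) :=
            (hF0 true).ap ((), F'.psi x') ⟨mem_univ _, (r2.psi_bd hR hx).2 a4⟩
          rw [r1.af_th hL] at a5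
          rw [r2.af_th hR] at a6
          exact a5.trans a6.symm
        · simp only [if_neg hz1]
          exact Ap.rfl

/-- The layer of a cube, which absorbs the motion of the boundary data. -/
theorem n_op (hU : IsOpen U) (hne : Uᶜ.Nonempty) (he : Isometry e)
    (h : BD U e ok B u K T lo sp P) {k : ℤ} (hk : ok k) {G : Bx ι} (hG : Cube k G) {t0 t1 θ : ℝ}
    (h0 : lo k G ≤ t0) (h01 : t0 ≤ t1) (hθ : 0 < θ) :
    ∃ Nf : (E ι → Y) → ℝ × E ι → Y,
      (∀ z, (∃ y, ∀ Z, Nf Z z = y) ∨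
        ∃ (x : E ι) (φ : Y → Y), (∀ y, φ y ∈ U ↔ y ∈ U) ∧ ∀ Z, Nf Z z = φ (Z x)) ∧
      (∀ (o : Option ℝ≥0) (a c c' : ℝ) (Z : E ι → Y), 0 ≤ a → 0 < c' → (1 + θ) * c' ≤ c →
        Sol U (pbP (univ : Set Unit) (closedBall 0 1) (sphere 0 1) (fun z => P k (t1, G.af z.2))
          (e '' G.set) (gs a 0) c') (Wo U c' o) (fun z => Z z.2) →
        Sol U (pbP (Icc t0 t1) G.set G.bd (P k) (e '' G.set)
          (gs (50 * K * t1 + 8 * a / 2 ^ k) (2 * K * 2 ^ k)) c) (Wo U c o) (Nf Z)) ∧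
      (∀ (Z : E ι → Y) (i : ℤ) (t t' : ℝ), t ∈ Icc t0 t1 → t' ∈ Icc t0 t1 →
        t ∈ Icc (B ^ i * u) (B ^ (i + 1)) → t' ∈ Icc (B ^ i * u) (B ^ (i + 1)) →
        ∀ x ∈ G.set, Ap U (Nf Z (t, x)) (Nf Z (t', x))) ∧
      ∀ (a c' : ℝ) (Z : E ι → Y), 0 ≤ a →
        Sol U (pbP (univ : Set Unit) (closedBall 0 1) (sphere 0 1) (fun z => P k (t1, G.af z.2))
          (e '' G.set) (gs a 0) c') univ (fun z => Z z.2) →
        ∃ H, Sol U (pbM (fun x => P k (t1, G.af x)) (e '' G.set)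
            (25 * (50 * K * t1 * 2 ^ k + 8 * a))) univ H ∧
          ∀ x ∈ closedBall (0 : E ι) 1, Ap U (H (0, x)) (Nf Z (t1, G.af x)) ∧
            Ap U (H (1, x)) (Z x) := by
  have hp : G.Pos := hG.lb.pos
  have ps : (0 : ℝ) < 2 ^ k := zpow_pos two_pos k
  have hsd' : ∀ i, G.sd i = 2 ^ k := fun i => by simp [Bx.sd, (hG i).2]
  have pK : 1 ≤ K := h.pK
  have p0 : 0 < t0 := (h.pos k G hk hG).trans_le h0
  have p1 : 0 < t1 := p0.trans_le h01
  have pKt : 0 < K * t1 := mul_pos (by linarith only [pK]) p1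
  obtain ⟨Rr, Yc, ν, hsd, e0, e1, y0, y1⟩ := sd_box hG.bx.two ps (fun i => (hsd' i).ge)
    (fun i => by rw [hsd']; linarith only [ps])
  obtain ⟨η, pη, η1, η2, η3⟩ : ∃ η : ℝ, 0 < η ∧ η ≤ 1 ∧ η ≤ θ ∧ η ≤ K * t1 * 2 ^ k / 2 :=
    ⟨min 1 (min θ (K * t1 * 2 ^ k / 2)), lt_min one_pos (lt_min hθ (by positivity)),
      min_le_left _ _, (min_le_right _ _).trans (min_le_left _ _),
      (min_le_right _ _).trans (min_le_right _ _)⟩
  obtain ⟨σ, ϱ, hc⟩ := col_box hU hne he hp pη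
  have ht : ∀ G', Cube k G' → G'.set ⊆ G.set → lo k G' ≤ t0 := fun G' h1 h2 => by
    rw [(h1.le_of_subset hG h2).2 rfl]
    exact h0
  have hτ : ∀ r ∈ Icc (0 : ℝ) 1, t0 + r * (t1 - t0) ≤ t1 := fun r hr => by
    nlinarith only [hr.1, hr.2, h01]
  have hβ := h.path he.injective hk hG.lb (t0 := t0) (t1 := t1) (fun i => (hsd' i).le) ht
    (J := Icc t0 t1) (π := fun w : ℝ × ℝ => max w.1 (t0 + w.2 * (t1 - t0))) (p2 := t1) (p3 := 1)
    (fun w hw => ⟨hw.1.1.trans (le_max_left _ _), max_le hw.1.2 (hτ _ hw.2)⟩)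
    (fun w _ w' _ => by
      refine (abs_max_sub_max_le_max _ _ _ _).trans ?_
      have a1 : t0 + w'.2 * (t1 - t0) - (t0 + w.2 * (t1 - t0)) = (t1 - t0) * (w'.2 - w.2) := by
        ring
      rw [a1, abs_mul, abs_of_nonneg (sub_nonneg.2 h01), Real.dist_eq, one_mul]
      have a2 := abs_nonneg (w'.2 - w.2)
      have a3 := abs_nonneg (w'.1 - w.1)
      refine max_le ?_ ?_ <;> nlinarith only [h01, a2, p0, a3]) (fun w => e w.2)
  have hin : ∀ (W : Set Y) (a c' : ℝ) (Z : E ι → Y), 0 ≤ a →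
      Sol U (pbP (univ : Set Unit) (closedBall 0 1) (sphere 0 1) (fun z => P k (t1, G.af z.2))
        (e '' G.set) (gs a 0) c') W (fun z => Z z.2) →
      Sol U (pbP (univ : Set Unit) (Rr 1) {z | z ∈ Rr 1 ∧ ‖Yc 1 z‖ = 1}
        (fun z => P k (t1, G.af (Yc 1 z.2))) (e '' G.set) (gs (a * (4 / 2 ^ k)) 0) c') W
        fun z => Z (Yc 1 z.2) := by
    intro W a c' Z ha hZ
    refine hZ.chart ha (hsd.bij 1 ⟨zero_le_one, le_rfl⟩)
      (fun x hx => mem_sphere_zero_iff_norm.2 hx.2) (L := 4 / 2 ^ k) (fun x _ x' _ => ?_)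
      (fun x _ => Ap.rfl) le_rfl
    have a1 := Bx.nm_lip ps (fun i => (hsd' i).ge) x x'
    rw [y1]
    change dist ((2 : ℝ) • G.nm x) ((2 : ℝ) • G.nm x') ≤ _
    rw [dist_smul₀, Real.norm_ofNat]
    calc 2 * dist (G.nm x) (G.nm x') ≤ 2 * (2 / 2 ^ k * dist x x') := by linarith only [a1]
      _ = _ := by ring
  have main : ∀ (o : Option ℝ≥0) (a c c' : ℝ) (Z : E ι → Y), 0 ≤ a → 0 < c' →
      (1 + θ) * c' ≤ c →
      Sol U (pbP (univ : Set Unit) (closedBall 0 1) (sphere 0 1) (fun z => P k (t1, G.af z.2))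
        (e '' G.set) (gs a 0) c') (Wo U c' o) (fun z => Z z.2) →
      Sol U (pbP (Icc t0 t1) G.set G.bd (P k) (e '' G.set)
        (gs (50 * K * t1 + 8 * a / 2 ^ k) (2 * K * 2 ^ k)) c) (Wo U c o)
        (shOp ν Yc σ (fun w : (ℝ × ℝ) × E ι =>
          P k (max w.1.1 (t0 + w.1.2 * (t1 - t0)), G.af w.2)) fun z => Z (Yc 1 z.2)) := by
    intro o a c c' Z ha pc hcc hZ
    have pa : 0 ≤ a / 2 ^ k := div_nonneg ha ps.le
    have hZ' := (hin _ a c' Z ha hZ).const (c' := c') (Icc t0 t1)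
    have h1 := shell_sol hU hsd pη.le hc (by positivity) (by positivity) (by positivity) hβ
      (a := 50 * K * t1 + 8 * a / 2 ^ k) (b := 2 * K * 2 ^ k) (c := c) (a' := a * (4 / 2 ^ k))
      (b' := 0) (c' := c') ?_ ?_ ?_ ?_ (by nlinarith only [hcc, η2, pc]) pc (o := o)
      (Z := fun z => Z (Yc 1 z.2)) (hZ'.mono rfl subset_rfl (fun z hz => Ap.of_eq ?_)
        (fun _ _ _ => Iff.rfl) (fun _ _ => Eventually.of_forall fun _ => le_rfl) subset_rfl)
    · refine h1.mono (by simp only [pbP, e0]) (fun z hz => ⟨hz.1, ?_, ?_⟩)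
        (fun z hz => Ap.of_eq ?_) (fun _ _ _ => Iff.rfl)
        (fun _ _ => Eventually.of_forall fun _ => le_rfl) subset_rfl
      · rw [e0]
        exact G.bd_subset hz.2
      · rw [y0]
        exact hp.nm_mem_bd.1 hz.2
      · change P k z = P k (max z.1 (t0 + 0 * (t1 - t0)), G.af (Yc 0 z.2))
        rw [y0, hp.af_nm, zero_mul, add_zero, max_eq_left hz.1.1]
    · have a1 : K * t1 * 2 ^ k / 2 * (6 / 2 ^ k + 3 * (8 / 2 ^ k)) + K * 2 ^ k * t1 * (8 / 2 ^ k) =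
          23 * (K * t1) := by
        field_simp
        ring
      have a2 : η * (8 / 2 ^ k) ≤ 4 * (K * t1) := by
        rw [← mul_div_assoc, div_le_iff₀ ps]
        linarith only [η3]
      have a3 : 8 * a / 2 ^ k = 8 * (a / 2 ^ k) := by ring
      rw [a1, a3]
      nlinarith only [pa, a2, pKt, η1]
    · have a3 : 8 * a / 2 ^ k = 8 * (a / 2 ^ k) := by ring
      have a4 : a * (4 / 2 ^ k) = 4 * (a / 2 ^ k) := by ring
      rw [a3, a4]
      nlinarith only [pKt, η1, pa]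
    · have a1 : 0 < K * 2 ^ k := mul_pos (by linarith only [pK]) ps
      nlinarith only [h01, p0, pη, η1, η3]
    · have a1 : 0 < K * 2 ^ k := mul_pos (by linarith only [pK]) ps
      nlinarith only [a1]
    · change P k (max z.1 (t0 + 1 * (t1 - t0)), G.af (Yc 1 z.2)) = P k (t1, G.af (Yc 1 z.2))
      rw [one_mul, add_sub_cancel, max_eq_right hz.1.2]
  refine ⟨fun Z => shOp ν Yc σ (fun w : (ℝ × ℝ) × E ι =>
      P k (max w.1.1 (t0 + w.1.2 * (t1 - t0)), G.af w.2)) fun z => Z (Yc 1 z.2), fun z => ?_, main,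
    fun Z i t t' a1 a2 a3 a4 x hx => ?_, fun a c' Z ha hZ => ?_⟩
  · by_cases hz : ν z.2 < 1
    · exact Or.inl ⟨_, fun Z => if_pos hz⟩
    · exact Or.inr ⟨Yc 1 z.2, σ 1, hc.memU 1 ⟨zero_le_one, le_rfl⟩, fun Z => if_neg hz⟩
  · have hx0 : x ∈ Rr 0 := by rwa [e0]
    by_cases hz : ν x < 1
    · simp only [shOp, if_pos hz]
      refine Ap.map (hc.memU _ (hsd.mem x hx0)) ?_
      by_cases hm : max t t' ≤ t0 + ν x * (t1 - t0)
      · rw [max_eq_right ((le_max_left _ _).trans hm), max_eq_right ((le_max_right _ _).trans hm)]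
        exact Ap.rfl
      · have a5 : t0 + ν x * (t1 - t0) ≤ B ^ (i + 1) :=
          (not_le.1 hm).le.trans (max_le a3.2 a4.2)
        exact h.froz k G i _ _ hk hG (h0.trans (a1.1.trans (le_max_left _ _)))
          (h0.trans (a2.1.trans (le_max_left _ _)))
          ⟨a3.1.trans (le_max_left _ _), max_le a3.2 a5⟩
          ⟨a4.1.trans (le_max_left _ _), max_le a4.2 a5⟩ _ (hp.af_mem_bd.2 (hsd.bd x hx0 hz))
    · simp only [shOp, if_neg hz]
      exact Ap.rfl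
  · have pa : 0 ≤ a / 2 ^ k := div_nonneg ha ps.le
    have a3 : 8 * a / 2 ^ k = 8 * (a / 2 ^ k) := by ring
    have pA : 0 ≤ 50 * K * t1 + 8 * a / 2 ^ k := by rw [a3]; nlinarith only [pKt, pa]
    have h1 := main (some 0) a (1 + θ) 1 Z ha one_pos (by linarith only []) (by
      rw [Wo_zero]
      exact ⟨hZ.maps, hZ.bd, hZ.bd', hZ.ex, hZ.uq, hZ.lip⟩)
    rw [Wo_zero] at h1
    have h2 := h1.slice (t := t1) (a := 50 * K * t1 + 8 * a / 2 ^ k) (c' := 1) ⟨h01, le_rfl⟩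
      (fun x _ x' _ => by simp [gs])
    obtain ⟨H, H1, H2, H3⟩ := peel hU hne hsd pη.le hc (β := fun x => P k (t1, G.af x))
      (fun x hx hU' => by
        have a1 := hβ.maps ((t1, 1), x) ⟨⟨⟨h01, le_rfl⟩, zero_le_one, le_rfl⟩, hx⟩
        simp only [one_mul, add_sub_cancel, max_self] at a1
        exact (a1 hU').2)
      (X := fun x => shOp ν Yc σ (fun w : (ℝ × ℝ) × E ι =>
        P k (max w.1.1 (t0 + w.1.2 * (t1 - t0)), G.af w.2)) (fun z => Z (Yc 1 z.2)) (t1, x))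
      (Z := fun x => Z (Yc 1 x)) (c := 1) pA (hin _ a c' Z ha hZ)
      (h2.mono (by simp only [pbP, e0])
        (fun z hz => ⟨hz.1, hp.nm_mem_bd.2 (by rw [← y0]; exact hz.2.2)⟩)
        (fun z hz => Ap.of_eq (by
          change P k (t1, G.af (Yc 0 z.2)) = P k (t1, z.2)
          rw [y0, hp.af_nm]))
        (fun _ _ _ => Iff.rfl) (fun _ _ => Eventually.of_forall fun _ => le_rfl) subset_rfl)
      (fun z hz => Ap.of_eq (by
        simp only [shOp, max_eq_left (hτ _ (hsd.mem z hz))]))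
    refine ⟨H, H1.mono rfl subset_rfl (fun _ _ => Ap.rfl) (fun _ _ _ => Iff.rfl)
      (fun z _ => Eventually.of_forall fun z' => ?_) subset_rfl, fun x hx => ⟨?_, ?_⟩⟩
    · have b1 : (50 * K * t1 + 8 * a / 2 ^ k) * 2 ^ k = 50 * K * t1 * 2 ^ k + 8 * a := by
        field_simp
      have b2 : 0 < K * t1 * 2 ^ k := mul_pos pKt ps
      have b3 : (1 + η) * (50 * K * t1 + 8 * a / 2 ^ k) * (4 * 2 ^ k) ≤
          8 * (50 * K * t1 * 2 ^ k + 8 * a) := by
        have b4 : (1 + η) * (50 * K * t1 + 8 * a / 2 ^ k) * (4 * 2 ^ k) =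
            (1 + η) * 4 * (50 * K * t1 * 2 ^ k + 8 * a) := by rw [← b1]; ring
        rw [b4]
        nlinarith only [pη, η1, η3, ha]
      refine add_le_add (mul_le_mul_of_nonneg_right ?_ dist_nonneg)
        (mul_le_mul_of_nonneg_right ?_ dist_nonneg) <;> nlinarith only [pη, η3, ha, b3]
    · have b1 := H2 (G.af x) (by rw [e0]; exact hp.bijOn_af.mapsTo hx)
      rwa [y0, hp.nm_af] at b1
    · obtain ⟨z, hz, rfl⟩ := (hsd.bij 1 ⟨zero_le_one, le_rfl⟩).surjOn hx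
      exact H3 z hz

end Pool.Agent.Lib.MP_ecd4e3_gt.N
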