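import Pool.Agent.Lib.MP_ecd4e3_gt.N.EBand
import Pool.Agent.Lib.MP_ecd4e3_gt.N.SDm
import Pool.Agent.Lib.MP_ecd4e3_gt.N.Cut
import Pool.Agent.Lib.MP_ecd4e3_gt.N.Col
import Pool.Agent.Lib.MP_ecd4e3_gt.N.LOpB

/-! Reductions by shells for labelled sources. -/

set_option linter.unusedSectionVars false
set_option linter.unusedVariables false

namespace Pool.Agent.Lib.MP_ecd4e3_gt.N

open Set Filter Topology Metric MeasureTheory
open scoped NNReal ENNReal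

variable {ι : Type} [Fintype ι] [DecidableEq ι] [Nonempty ι] {U0 F0 : Set (E ι)} {f : ℝ}

/-- A shell with a movie of data. -/
theorem sd_red (hU : IsOpen U0) (hne : U0ᶜ.Nonempty) {ls : List (ℕ × Bx ι)} (hl : LsOk F0 ls)
    {Rr : ℝ → Set (E ι)} {Yc : ℝ → E ι → E ι} {ν : E ι → ℝ} {LY LT Lν Sz : ℝ}
    (hsd : SD Rr Yc ν LY LT Lν Sz) {β β0 : ℝ × E ι → YL ι} {a1 a2 : ℝ} (p1 : 0 ≤ a1)
    (p2 : 0 ≤ a2)
    (hβ : Sol (UL U0) (pbP (Icc (0 : ℝ) 1) (sphere 0 1) ∅ β0 (bdL ls) (gs a1 a2) 1) univ β)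
    (hn : a1 * (LY + LT * Lν) + a2 * Lν ≤ 1 / 2) {c c' : ℝ} (h1 : 1 ≤ c') (h2 : c' < c) :
    Red U0 F0
      (pbP univ (Rr 0) {z | z ∈ Rr 0 ∧ ‖Yc 0 z‖ = 1} (fun z => β (0, Yc 0 z.2)) (srcL ls)
        (gs c 0) c)
      {pbP univ (Rr 1) {z | z ∈ Rr 1 ∧ ‖Yc 1 z‖ = 1} (fun z => β (1, Yc 1 z.2)) (srcL ls)
        (gs c' 0) c'} := by
  have pν := hsd.pν
  have pc : 0 < c' := by linarith only [h1]
  obtain ⟨η, e0, e1, e3, e4⟩ : ∃ η : ℝ, 0 < η ∧ η ≤ 1 / 2 ∧ (1 + η) * c' ≤ c ∧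
      η * Lν ≤ 1 / 4 := by
    have p0 : 0 < c - c' := by linarith only [h2]
    refine ⟨min (1 / 2) (min ((c - c') / c') (1 / (4 * Lν + 1))), by positivity,
      min_le_left _ _, ?_, ?_⟩
    · have := (le_div_iff₀ pc).1 ((min_le_right (1 / 2) _).trans
        (min_le_left ((c - c') / c') (1 / (4 * Lν + 1))))
      linarith only [this]
    · have h4 := (le_div_iff₀ (show 0 < 4 * Lν + 1 by positivity)).1
        ((min_le_right (1 / 2) _).trans (min_le_right ((c - c') / c') (1 / (4 * Lν + 1))))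
      have h5 : 0 ≤ min (1 / 2) (min ((c - c') / c') (1 / (4 * Lν + 1))) := by positivity
      linarith only [h4, h5]
  obtain ⟨σ, ϱ, hc, -⟩ := col_list hU hne ls hl.1 hl.2.1 hl.2.2 e0
  refine Red.shell hU hsd e0.le hc p1 p2 hβ ?_ e3 pc
  have := mul_le_mul_of_nonneg_left hn (show 0 ≤ 1 + η by linarith only [e0, e1])
  nlinarith only [h1, h2, e1, e4, this]

/-- The problem on a region with a chart. -/
noncomputable def erdP (A : Set (E ι)) (Y : E ι → E ι) (β : E ι → YL ι) (S : Set (YL ι))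
    (c : ℝ) : PE ι :=
  pbP univ A {z | z ∈ A ∧ ‖Y z‖ = 1} (fun z => β (Y z.2)) S (gs c 0) c

theorem erd_pbS (R : GB ι) (β : E ι → YL ι) (S : Set (YL ι)) (c : ℝ) :
    pbS R β S c = erdP R.set R.th β S c := rfl

theorem erd_gb (Q : Bx ι) (β : E ι → YL ι) (S : Set (YL ι)) (c : ℝ) :
    pbS Q.gb β S c = erdP Q.set Q.nm β S c := by rw [erd_pbS, Bx.gb_set, Bx.gb_th]

theorem erd_iso {A A' : Set (E ι)} {Y Y' : E ι → E ι} {β β' : E ι → YL ι} {S S' : Set (YL ι)}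
    {c c' : ℝ} (h : E ι ≃ᵢ E ι) (hA : ∀ x, x ∈ A' ↔ h x ∈ A)
    (hb : ∀ x ∈ A', ‖Y (h x)‖ = 1 → ‖Y' x‖ = 1 ∧ Ap (UL U0) (β (Y (h x))) (β' (Y' x)))
    (hS : ∀ y ∈ UL U0, y ∈ S ↔ y ∈ S') (hc : c' ≤ c) :
    Red U0 F0 (erdP A Y β S c) {erdP A' Y' β' S' c'} := by
  refine Red.iso h (fun x => ⟨fun hx => ⟨trivial, (hA x).1 hx.2⟩,
    fun hx => ⟨trivial, (hA x).2 hx.2⟩⟩) (fun x hx => ?_)
    (fun y hy => and_congr_right fun _ => hS y hy) (fun x x' => ?_) hc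
  · have h1 := (hA x).2 hx.2.1
    exact ⟨⟨trivial, h1, (hb x h1 hx.2.2).1⟩, (hb x h1 hx.2.2).2⟩
  · change c' * dist x' x + 0 * _ ≤ c * dist (h x') (h x) + 0 * _
    simp only [h.dist_eq, zero_mul, add_zero]
    exact mul_le_mul_of_nonneg_right hc dist_nonneg

theorem erd_data {A : Set (E ι)} {Y : E ι → E ι} {β β' : E ι → YL ι} {S S' : Set (YL ι)}
    {c c' : ℝ} (hβ : ∀ x, ‖x‖ = 1 → Ap (UL U0) (β x) (β' x))
    (hS : ∀ y ∈ UL U0, y ∈ S ↔ y ∈ S') (hc : c' ≤ c) :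
    Red U0 F0 (erdP A Y β S c) {erdP A Y β' S' c'} :=
  erd_iso (IsometryEquiv.refl _) (fun _ => Iff.rfl) (fun _ _ hx => ⟨hx, hβ _ hx⟩) hS hc

/-- A shell between two charted regions, with approximately given data. -/
theorem erd_shell (hU : IsOpen U0) (hne : U0ᶜ.Nonempty) {ls : List (ℕ × Bx ι)} (hl : LsOk F0 ls)
    {Rr : ℝ → Set (E ι)} {Yc : ℝ → E ι → E ι} {ν : E ι → ℝ} {LY LT Lν Sz : ℝ}
    (hsd : SD Rr Yc ν LY LT Lν Sz) {β β0 : ℝ × E ι → YL ι} {a1 a2 : ℝ} (p1 : 0 ≤ a1)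
    (p2 : 0 ≤ a2)
    (hβ : Sol (UL U0) (pbP (Icc (0 : ℝ) 1) (sphere 0 1) ∅ β0 (bdL ls) (gs a1 a2) 1) univ β)
    {γ0 γ1 : E ι → YL ι} (e0 : ∀ x, ‖x‖ = 1 → Ap (UL U0) (γ0 x) (β (0, x)))
    (e1 : ∀ x, ‖x‖ = 1 → Ap (UL U0) (γ1 x) (β (1, x)))
    (hn : a1 * (LY + LT * Lν) + a2 * Lν ≤ 1 / 2) {c c' : ℝ} (h1 : 1 ≤ c') (h2 : c' < c) :
    Red U0 F0 (erdP (Rr 0) (Yc 0) γ0 (srcL ls) c) {erdP (Rr 1) (Yc 1) γ1 (srcL ls) c'} :=
  (erd_data (β' := fun x => β (0, x)) e0 (fun _ _ => Iff.rfl) le_rfl).trans1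
    ((sd_red hU hne hl hsd p1 p2 hβ hn h1 h2).trans1
      (erd_data (β := fun x => β (1, x)) (fun x hx => (e1 x hx).symm) (fun _ _ => Iff.rfl) le_rfl))

/-- The homothetic shell with a change of the chart and a rotation. -/
theorem erd_hom (hU : IsOpen U0) (hne : U0ᶜ.Nonempty) (hf : 0 < f) (hf' : f ≤ 1 / 16)
    {ls : List (ℕ × Bx ι)} (hl : LsOk F0 ls) {R : GB ι} (hR : R.Valid f) {L' : ℝ} (hL3 : 3 ≤ L')
    {Y1 : E ι → E ι} (hY : R.Ch L' Y1) {l : ℝ} (hl0 : 0 ≤ l)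
    (hl1 : ∀ z ∈ R.set, dist (R.th z) (Y1 z) ≤ l) {O : ℝ → E ι → E ι} {K1 K2 : ℝ}
    (hO : Mv O K1 K2) {β β0 : ℝ × E ι → YL ι} {a1 a2 : ℝ} (p1 : 0 ≤ a1) (p2 : 0 ≤ a2)
    (hβ : Sol (UL U0) (pbP (Icc (0 : ℝ) 1) (sphere 0 1) ∅ β0 (bdL ls) (gs a1 a2) 1) univ β)
    {γ0 γ1 : E ι → YL ι} (e0 : ∀ x, ‖x‖ = 1 → Ap (UL U0) (γ0 x) (β (0, x)))
    (e1 : ∀ x, ‖x‖ = 1 → Ap (UL U0) (γ1 x) (β (1, x))) {L : ℝ} (hL : 0 < L) (hL' : L < R.sz)
    (n1 : 800 * (a1 * (K1 * L')) ≤ f * L)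
    (n2 : 640 * (a1 * (K1 * l + K2) + a2) ≤ f * (R.sz - L)) {c c' : ℝ} (h1 : 1 ≤ c')
    (h2 : c' < c) {y : E ι → E ι}
    (hy : ∀ z, y z = O 1 (Y1 (R.o + (L / R.sz)⁻¹ • (z - R.o)))) :
    Red U0 F0 (pbS R γ0 (srcL ls) c) {erdP (R.hom (L / R.sz)).set y γ1 (srcL ls) c'} := by
  obtain ⟨z0, -, z1, -⟩ := hR.sz_pos hf hf'
  have hw := hR.wmin_pos
  have s0 : 0 < L / R.sz := div_pos hL z0
  have s1 : L / R.sz < 1 := (div_lt_one z0).2 hL'
  have hs : L / R.sz * R.sz = L := div_mul_cancel₀ _ z0.ne'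
  generalize L / R.sz = s at s0 s1 hs hy
  obtain ⟨Rr, Yc, ν, hsd, r0, r1, y0, y1⟩ := sd_hom hf hf' hR (by linarith only [hf, hf', hL3])
    ((hR.ch_th hf hf').mono hR.pos hL3) hY hl0 hl1 hO s0 s1
  have ey : Yc 1 = y := funext fun z => by rw [y1, hy]
  have ey0 : Yc 0 = R.th := funext y0
  have t1 : 0 < 1 - s := by linarith only [s1]
  have := erd_shell hU hne hl hsd p1 p2 hβ e0 e1 ?_ h1 h2
  · rwa [r0, r1, ey, ey0] at this
  have e : a1 * (K1 * L' / (s * R.wmin) +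
      (K1 * (L' * (1 - s) / s + l) + K2) * (4 / ((1 - s) * R.wmin))) +
        a2 * (4 / ((1 - s) * R.wmin)) = 5 * (a1 * (K1 * L')) / (s * R.wmin) +
          4 * (a1 * (K1 * l + K2) + a2) / ((1 - s) * R.wmin) := by
    field_simp
    ring
  have b1 : 5 * (a1 * (K1 * L')) / (s * R.wmin) ≤ 1 / 4 := by
    rw [div_le_iff₀ (by positivity)]
    have := mul_le_mul_of_nonneg_left z1 s0.le
    rw [← hs] at n1
    nlinarith only [n1, this]
  have b2 : 4 * (a1 * (K1 * l + K2) + a2) / ((1 - s) * R.wmin) ≤ 1 / 4 := by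
    rw [div_le_iff₀ (by positivity)]
    have := mul_le_mul_of_nonneg_left z1 t1.le
    have e2 : f * (R.sz - L) = (1 - s) * (f * R.sz) := by rw [← hs]; ring
    rw [e2] at n2
    nlinarith only [n2, this]
  rw [e]
  linarith only [b1, b2]

theorem erd_two {R : GB ι} {L L' : ℝ} {Y Y' : E ι → E ι} (h : R.Ch L Y) (h' : R.Ch L' Y') :
    ∀ z ∈ R.set, dist (Y z) (Y' z) ≤ 2 := fun z hz =>
  (dist_pi_le_iff (by norm_num)).2 fun i => by
    have a1 := abs_le.1 (h.mem z hz i)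
    have a2 := abs_le.1 (h'.mem z hz i)
    rw [Real.dist_eq, abs_le]
    constructor <;> linarith only [a1, a2]

/-- Approximately equal data give equivalent problems. -/
theorem Red.data {R : GB ι} {β β' : E ι → YL ι} {S S' : Set (YL ι)} {c c' : ℝ}
    (hβ : ∀ x, ‖x‖ = 1 → Ap (UL U0) (β x) (β' x)) (hS : ∀ y ∈ UL U0, y ∈ S ↔ y ∈ S')
    (hc : c' ≤ c) : Red U0 F0 (pbS R β S c) {pbS R β' S' c'} := erd_data hβ hS hc

/-- The homothetic shell with a movie of data. -/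
theorem hom_red (hU : IsOpen U0) (hne : U0ᶜ.Nonempty) (hf : 0 < f) (hf' : f ≤ 1 / 16)
    {ls : List (ℕ × Bx ι)} (hl : LsOk F0 ls) {R : GB ι} (hR : R.Valid f)
    {β β0 : ℝ × E ι → YL ι} {a1 a2 : ℝ} (p1 : 0 ≤ a1) (p2 : 0 ≤ a2)
    (hβ : Sol (UL U0) (pbP (Icc (0 : ℝ) 1) (sphere 0 1) ∅ β0 (bdL ls) (gs a1 a2) 1) univ β)
    {γ0 γ1 : E ι → YL ι} (e0 : ∀ x, ‖x‖ = 1 → Ap (UL U0) (γ0 x) (β (0, x)))
    (e1 : ∀ x, ‖x‖ = 1 → Ap (UL U0) (γ1 x) (β (1, x))) {L : ℝ} (hL : 0 < L) (hL' : L < R.sz)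
    (n1 : 10 ^ 4 * a1 ≤ f * L) (n2 : 10 ^ 4 * a2 ≤ f * (R.sz - L)) {c c' : ℝ} (h1 : 1 ≤ c')
    (h2 : c' < c) :
    Red U0 F0 (pbS R γ0 (srcL ls) c) {pbS (R.hom (L / R.sz)) γ1 (srcL ls) c'} :=
  erd_hom hU hne hf hf' hl hR le_rfl (hR.ch_th hf hf') le_rfl (fun _ _ => (dist_self _).le) mv_id
    p1 p2 hβ e0 e1 hL hL' (by linarith only [p1, n1]) (by linarith only [p2, n2]) h1 h2 fun z =>
      R.hom_th (div_pos hL (hL.trans hL')) z

theorem erd_sp {R : GB ι} (hR : R.Valid f) {O : E ι → E ι} (hO : IsSP O) (β : E ι → YL ι)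
    (S : Set (YL ι)) (c : ℝ) :
    ∃ R', Sim f R R' R.sz ∧ Red U0 F0 (pbS R (fun x => β (O x)) S c) {pbS R' β S c} := by
  obtain ⟨R', a1, a2, a3, a4, a5, a6, a7, a8, -, a9⟩ := hR.sp hO
  obtain ⟨g, hg⟩ := hO.equiv
  refine ⟨R', ⟨a1, by rw [GB.sz, a5, GB.sz], a4, a6, a9, by rw [a7, mul_comm],
    by rw [a8, mul_comm]⟩, ?_⟩
  rw [erd_pbS, erd_pbS]
  refine erd_iso g.symm (fun x => ?_) (fun x _ hx => ?_) (fun _ _ => Iff.rfl) le_rfl
  · rw [a2, ← funext hg]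
    exact Set.mem_image_equiv (f := g.toEquiv)
  · have e : O (R.th (g.symm x)) = R'.th x := by rw [← a3, ← hg, g.apply_symm_apply]
    exact ⟨by rw [← e, hO.norm, hx], Ap.of_eq (congrArg β e)⟩

/-- Turning the target by a signed permutation. -/
theorem sp_red (hf : 0 < f) (hf' : f ≤ 1 / 16) {R : GB ι} (hR : R.Valid f) {O : E ι → E ι}
    (hO : IsSP O) (β : E ι → YL ι) (S : Set (YL ι)) (c : ℝ) :
    (∃ R', Sim f R R' R.sz ∧ Red U0 F0 (pbS R (fun x => β (O x)) S c) {pbS R' β S c}) ∧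
      ∃ R', Sim f R R' R.sz ∧ Red U0 F0 (pbS R β S c) {pbS R' (fun x => β (O x)) S c} := by
  refine ⟨erd_sp hR hO β S c, ?_⟩
  obtain ⟨O', hO', -, i2⟩ := hO.inv
  have := erd_sp (U0 := U0) (F0 := F0) hR hO' (fun x => β (O x)) S c
  simpa only [i2] using this

/-- Moving a cube. -/
theorem move_red (o o' : E ι) {l : ℝ} (hl : 0 < l) (β : E ι → YL ι) (S : Set (YL ι)) (c : ℝ) :
    Red U0 F0 (pbS (cubeC o l).gb β S c) {pbS (cubeC o' l).gb β S c} := by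
  have e : ∀ x, (cubeC o l).nm (x + (o - o')) = (cubeC o' l).nm x := fun x => by
    funext i
    simp only [Bx.nm, cubeC, Bx.sd, Pi.add_apply, Pi.sub_apply]
    congr 1 <;> ring
  have p1 := (cubeC_valid (f := 1 / 16) (by norm_num) le_rfl o hl).1
  have p2 := (cubeC_valid (f := 1 / 16) (by norm_num) le_rfl o' hl).1
  rw [erd_gb, erd_gb]
  refine erd_iso (IsometryEquiv.addRight (o - o')) (fun x => ?_) (fun x _ hx => ?_)
    (fun _ _ => Iff.rfl) le_rfl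
  · rw [IsometryEquiv.addRight_apply, p1.nm_mem, p2.nm_mem, e]
  · rw [IsometryEquiv.addRight_apply, e] at hx ⊢
    exact ⟨hx, Ap.rfl⟩

/-- Passing to a cube around the centre, with static data. -/
theorem cube_red (hU : IsOpen U0) (hne : U0ᶜ.Nonempty) (hf : 0 < f) (hf' : f ≤ 1 / 16)
    {ls : List (ℕ × Bx ι)} (hl : LsOk F0 ls) {R : GB ι} (hR : R.Valid f)
    {β β0 : ℝ × E ι → YL ι} {a : ℝ} (p1 : 0 ≤ a)
    (hβ : Sol (UL U0) (pbP (Icc (0 : ℝ) 1) (sphere 0 1) ∅ β0 (bdL ls) (gs a a) 1) univ β)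
    {γ0 γ1 : E ι → YL ι} (e0 : ∀ x, ‖x‖ = 1 → Ap (UL U0) (γ0 x) (β (0, x)))
    (e1 : ∀ x, ‖x‖ = 1 → Ap (UL U0) (γ1 x) (β (1, x))) (hn : 10 ^ 6 * a ≤ f ^ 2 * R.sz)
    {c c' : ℝ} (h1 : 1 ≤ c') (h2 : c' < c) :
    Red U0 F0 (pbS R γ0 (srcL ls) c) {pbS (cubeC R.o (R.wmin / 2)).gb γ1 (srcL ls) c'} := by
  obtain ⟨z0, -, z1, -⟩ := hR.sz_pos hf hf'
  have hw := hR.wmin_pos
  obtain ⟨Rr, Yc, ν, hsd, r0, r1, y0, y1⟩ := sd_cube hf hf' hR (half_pos hw) le_rfl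
  have hsd' : SD Rr Yc ν (8 / R.wmin) (800 / f) (10 / R.wmin) (3 * R.wmax) := hsd.mono
    (le_of_eq (by field_simp; norm_num))
    (by
      have a1 := hR.wmax_le
      have e : 800 / f * (R.wmin / 2) = 20 * (Mx f * R.wmin) := by
        unfold Mx
        field_simp
        norm_num
      rw [div_le_iff₀ (half_pos hw), e]
      linarith only [a1]) le_rfl le_rfl
  have := erd_shell hU hne hl hsd' p1 p1 hβ e0 e1 ?_ h1 h2
  · rwa [r0, r1, y0, y1, ← erd_gb] at this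
  have e : a * (8 / R.wmin + 800 / f * (10 / R.wmin)) + a * (10 / R.wmin) =
      a * (18 * f + 8000) / (f * R.wmin) := by
    field_simp
    ring
  rw [e, div_le_iff₀ (by positivity)]
  have b1 := mul_le_mul_of_nonneg_left z1 hf.le
  have b2 := mul_le_mul_of_nonneg_left hf' p1
  nlinarith only [p1, hn, b1, b2]

/-- Passing from a box to a slightly smaller cube. -/
theorem nest_red (hU : IsOpen U0) (hne : U0ᶜ.Nonempty) {ls : List (ℕ × Bx ι)} (hl : LsOk F0 ls)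
    {Q : Bx ι} {L m m' : ℝ} (hL : 0 < L) (hm : 0 < m) (hm' : m' ≤ L)
    (hQ : ∀ i, L + 2 * m ≤ Q.sd i ∧ Q.sd i ≤ L + 2 * m') {β β0 : ℝ × E ι → YL ι} {a : ℝ}
    (p1 : 0 ≤ a)
    (hβ : Sol (UL U0) (pbP (Icc (0 : ℝ) 1) (sphere 0 1) ∅ β0 (bdL ls) (gs a a) 1) univ β)
    {γ0 γ1 : E ι → YL ι} (e0 : ∀ x, ‖x‖ = 1 → Ap (UL U0) (γ0 x) (β (0, x)))
    (e1 : ∀ x, ‖x‖ = 1 → Ap (UL U0) (γ1 x) (β (1, x))) (hn : 100 * a ≤ m) {c c' : ℝ}
    (h1 : 1 ≤ c') (h2 : c' < c) :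
    Red U0 F0 (pbS Q.gb γ0 (srcL ls) c) {pbS (cubeC 0 L).gb γ1 (srcL ls) c'} := by
  have hf : (0 : ℝ) < 1 / 16 := by norm_num
  have hmm : m ≤ m' := by
    have := hQ (Classical.arbitrary ι)
    linarith only [this.1, this.2, this]
  have hp : Q.Pos := fun i => sub_pos.1 (lt_of_lt_of_le (by linarith only [hL, hm]) (hQ i).1)
  have hv : Q.gb.Valid (1 / 16) := Bx.gb_valid hf hp fun i j => by
    have a1 := (hQ i).2
    have a2 := (hQ j).1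
    rw [Mx]
    linarith only [hL, hm, hm', a1, a2]
  obtain ⟨-, c2, -, -, c3, -⟩ := cubeC_valid hf le_rfl Q.mid hL
  obtain ⟨Rr, Yc, ν, hsd, r0, r1, y0, y1⟩ := sd_nest hf le_rfl hv c2 hm (m' := m')
    (fun z _ i => by
      have := (hQ i).1
      simp only [Bx.gb, cubeC, Bx.mid, Bx.sd] at this ⊢
      constructor <;> linarith only [this])
    (fun z _ i => by
      have := (hQ i).2
      simp only [Bx.gb, cubeC, Bx.mid, Bx.sd] at this ⊢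
      constructor <;> linarith only [this])
  rw [c3] at hsd
  have hsd' : SD Rr Yc ν (4 / m) 20 (2 / m) (3 * Q.gb.wmax) := hsd.mono
    (div_le_div_of_nonneg_left (by norm_num) hm (by linarith only [hm', hmm]))
    (by rw [div_le_iff₀ hL]; linarith only [hm']) le_rfl le_rfl
  have := erd_shell hU hne hl hsd' p1 p1 hβ e0 e1 ?_ h1 h2
  · rw [r0, r1, y0, y1, ← erd_gb] at this
    exact this.trans1 (move_red Q.mid 0 hL γ1 (srcL ls) c')
  have e : a * (4 / m + 20 * (2 / m)) + a * (2 / m) = 46 * a / m := by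
    field_simp
    ring
  rw [e, div_le_iff₀ hm]
  linarith only [hm, hn]

/-- Replacing the chart of a rectangular region by the affine chart. -/
theorem rect_red (hU : IsOpen U0) (hne : U0ᶜ.Nonempty) (hf : 0 < f) (hf' : f ≤ 1 / 16)
    {ls : List (ℕ × Bx ι)} (hl : LsOk F0 ls) {R : GB ι} (hR : R.Valid f) (hr : R.Rect)
    {β β0 : ℝ × E ι → YL ι} {a : ℝ} (p1 : 0 ≤ a)
    (hβ : Sol (UL U0) (pbP (Icc (0 : ℝ) 1) (sphere 0 1) ∅ β0 (bdL ls) (gs a a) 1) univ β)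
    {γ0 γ1 : E ι → YL ι} (e0 : ∀ x, ‖x‖ = 1 → Ap (UL U0) (γ0 x) (β (0, x)))
    (e1 : ∀ x, ‖x‖ = 1 → Ap (UL U0) (γ1 x) (β (1, x))) {L : ℝ} (hL : 0 < L) (hL' : L < R.sz)
    (n1 : 10 ^ 5 * a ≤ f * L) (n2 : 10 ^ 5 * a ≤ f * (R.sz - L)) {c c' : ℝ} (h1 : 1 ≤ c')
    (h2 : c' < c) :
    ∃ Q' : Bx ι, Q'.Pos ∧ Q'.vol = L ^ Fintype.card ι ∧
      (∀ i, (1 - epw ι f) * (L / R.sz * R.w i) ≤ Q'.sd i ∧
        Q'.sd i ≤ (1 + 2 * epw ι f) * (L / R.sz * R.w i)) ∧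
      Red U0 F0 (pbS R γ0 (srcL ls) c) {pbS Q'.gb γ1 (srcL ls) c'} := by
  obtain ⟨z0, z1, -⟩ := hR.sz_pos hf hf'
  have s0 : 0 < L / R.sz := div_pos hL z0
  obtain ⟨Q0, q1, q2, q3, q4⟩ := hR.rect_box hf hf' hr
  have e3 := Q0.gb_map s0 ((1 - L / R.sz) • R.o)
  set Q' : Bx ι := ⟨(L / R.sz) • Q0.lo + (1 - L / R.sz) • R.o,
    (L / R.sz) • Q0.hi + (1 - L / R.sz) • R.o⟩ with hQ'
  have esd : ∀ i, Q'.sd i = L / R.sz * Q0.sd i := fun i => by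
    simp only [hQ', Bx.sd, Pi.add_apply, Pi.smul_apply, smul_eq_mul]
    ring
  have hp : Q'.Pos := fun i => by
    have a1 : 0 < Q0.sd i := sub_pos.2 (q1 i)
    have a2 : 0 < Q'.sd i := by rw [esd]; positivity
    exact sub_pos.1 a2
  have eset : (R.hom (L / R.sz)).set = Q'.gb.set := by
    rw [← e3, GB.map_set _ s0, Bx.gb_set, q2]
    exact GB.map_set _ s0 _
  have hch := hR.ch_rect hf hf' q1 q2 q3 q4
  have hred := erd_hom hU hne hf hf' hl hR le_rfl hch zero_le_two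
    (erd_two (hR.ch_th hf hf') hch) mv_id p1 p1 hβ e0 e1 hL hL' (by linarith only [p1, n1]) (by linarith only [p1, n2]) h1 h2
    (y := Q'.gb.th) fun z => by
      rw [← Bx.gb_th, ← GB.map_th Q0.gb s0 ((1 - L / R.sz) • R.o), R.hom_eq s0, e3]
  rw [eset] at hred
  refine ⟨Q', hp, ?_, fun i => ?_, hred⟩
  · rw [← Bx.gb_vol hp, ← e3, GB.map_vol _ s0, GB.vol, Bx.gb_set, q2, ← GB.vol, ← z1, ← mul_pow,
      div_mul_cancel₀ _ z0.ne']
  · rw [esd]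
    have a1 := mul_le_mul_of_nonneg_left (q3 i).1 s0.le
    have a2 := mul_le_mul_of_nonneg_left (q3 i).2 s0.le
    constructor <;> linarith only [a1, a2]

/-- The piecewise linear reparametrisation with a break in the middle. -/
noncomputable def erdL (lam m : ℝ) : ℝ := lam * min 1 (2 * m) + (1 - lam) * max 0 (2 * m - 1)

/-- The movie of reparametrisations. -/
noncomputable def erdU (lam r m : ℝ) : ℝ := (1 - r) * m + r * erdL lam m

theorem erdL_lo (lam : ℝ) {m : ℝ} (h : m ≤ 1 / 2) : erdL lam m = lam * (2 * m) := by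
  rw [erdL, min_eq_right (by linarith only [h]), max_eq_left (by linarith only [h]), mul_zero, add_zero]

theorem erdL_hi (lam : ℝ) {m : ℝ} (h : 1 / 2 ≤ m) :
    erdL lam m = lam + (1 - lam) * (2 * m - 1) := by
  rw [erdL, min_eq_left (by linarith only [h]), max_eq_right (by linarith only [h]), mul_one]

theorem erdL_sub {lam : ℝ} (h0 : 0 < lam) (h1 : lam < 1) {m m' : ℝ} (h : m < m') :
    0 < erdL lam m' - erdL lam m ∧ erdL lam m' - erdL lam m ≤ 2 * (m' - m) := by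
  rcases le_total m (1 / 2) with a | a <;> rcases le_total m' (1 / 2) with b | b
  · rw [erdL_lo lam a, erdL_lo lam b]
    constructor <;> nlinarith only [h0, h, h1]
  · rw [erdL_lo lam a, erdL_hi lam b]
    have e : lam + (1 - lam) * (2 * m' - 1) - lam * (2 * m) =
        lam * (1 - 2 * m) + (1 - lam) * (2 * m' - 1) := by ring
    rw [e]
    refine ⟨?_, by nlinarith only [h0, b, h1, a]⟩
    rcases a.lt_or_eq with a | a
    · have := mul_pos h0 (show 0 < 1 - 2 * m by linarith only [a])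
      have := mul_nonneg (show 0 ≤ 1 - lam by linarith only [h1]) (show 0 ≤ 2 * m' - 1 by linarith only [b])
      linarith
    · have := mul_pos (show 0 < 1 - lam by linarith only [h1]) (show 0 < 2 * m' - 1 by linarith only [h, a])
      have := mul_nonneg h0.le (show 0 ≤ 1 - 2 * m by linarith)
      linarith
  · linarith only [h, a, b]
  · rw [erdL_hi lam a, erdL_hi lam b]
    constructor <;> nlinarith only [h1, h, h0]

theorem erdU_sub {lam : ℝ} (h0 : 0 < lam) (h1 : lam < 1) {r : ℝ} (hr : r ∈ Icc (0 : ℝ) 1)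
    {m m' : ℝ} (h : m < m') :
    0 < erdU lam r m' - erdU lam r m ∧ erdU lam r m' - erdU lam r m ≤ 2 * (m' - m) := by
  obtain ⟨a1, a2⟩ := erdL_sub h0 h1 h
  have e : erdU lam r m' - erdU lam r m =
      (1 - r) * (m' - m) + r * (erdL lam m' - erdL lam m) := by
    rw [erdU, erdU]; ring
  have b1 := mul_le_mul_of_nonneg_left a2 hr.1
  have b2 : 0 < m' - m := sub_pos.2 h
  rw [e]
  refine ⟨?_, by nlinarith only [hr.1, hr.2, b1, h0, h1, h]⟩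
  rcases hr.1.lt_or_eq with b | b
  · have := mul_pos b a1
    have := mul_nonneg (sub_nonneg.2 hr.2) b2.le
    linarith
  · rw [← b]; linarith only [h]

theorem erdU_bij {lam : ℝ} (h0 : 0 < lam) (h1 : lam < 1) {r : ℝ} (hr : r ∈ Icc (0 : ℝ) 1) :
    BijOn (erdU lam r) (Icc 0 1) (Icc 0 1) ∧ erdU lam r 0 = 0 ∧ erdU lam r 1 = 1 := by
  have e0 : erdU lam r 0 = 0 := by rw [erdU, erdL_lo lam (by norm_num)]; ring
  have e1 : erdU lam r 1 = 1 := by rw [erdU, erdL_hi lam (by norm_num)]; ring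
  have hm : StrictMono (erdU lam r) := fun m m' h => sub_pos.1 (erdU_sub h0 h1 hr h).1
  have hc : Continuous (erdU lam r) := by
    unfold erdU erdL
    fun_prop
  refine ⟨⟨fun m hm' => ⟨e0 ▸ hm.monotone hm'.1, e1 ▸ hm.monotone hm'.2⟩, hm.injective.injOn, ?_⟩,
    e0, e1⟩
  have := intermediate_value_Icc zero_le_one hc.continuousOn
  rwa [e0, e1] at this

theorem erdU_lip {lam : ℝ} (h0 : 0 < lam) (h1 : lam < 1) :
    ∀ r ∈ Icc (0 : ℝ) 1, ∀ r' ∈ Icc (0 : ℝ) 1, ∀ m ∈ Icc (0 : ℝ) 1, ∀ m' ∈ Icc (0 : ℝ) 1,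
      |erdU lam r' m' - erdU lam r m| ≤ 2 * |m' - m| + 1 * |r' - r| := by
  intro r hr r' hr' m hm m' hm'
  have a1 : |erdU lam r' m' - erdU lam r' m| ≤ 2 * |m' - m| := by
    rcases lt_trichotomy m m' with h | h | h
    · obtain ⟨b1, b2⟩ := erdU_sub h0 h1 hr' h
      rwa [abs_of_pos b1, abs_of_pos (sub_pos.2 h)]
    · simp [h]
    · obtain ⟨b1, b2⟩ := erdU_sub h0 h1 hr' h
      rwa [abs_sub_comm, abs_sub_comm m', abs_of_pos b1, abs_of_pos (sub_pos.2 h)]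
  have a2 : erdL lam m ∈ Icc (0 : ℝ) 1 := by
    have := (erdU_bij h0 h1 (right_mem_Icc.2 zero_le_one)).1.mapsTo hm
    simpa [erdU] using this
  have a3 : |erdL lam m - m| ≤ 1 := abs_le.2 ⟨by linarith only [a2.1, hm.2], by linarith only [a2.2, hm.1]⟩
  have e : erdU lam r' m' - erdU lam r m =
      erdU lam r' m' - erdU lam r' m + (erdL lam m - m) * (r' - r) := by
    simp only [erdU]; ring
  rw [e]
  refine (abs_add_le _ _).trans (add_le_add a1 ?_)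
  rw [abs_mul]
  exact mul_le_mul_of_nonneg_right a3 (abs_nonneg _)

theorem erd_hf_norm {j : ι} {ε : ℝ} (hε : |ε| ≤ 1) {x : E ι} (hx : ‖x‖ ≤ 1)
    (h : ‖hf j ε x‖ = 1) : ‖x‖ = 1 := by
  refine hx.antisymm (not_lt.1 fun h1 => ?_)
  have h2 := (pi_norm_lt_iff one_pos).1 h1
  refine absurd ((pi_norm_lt_iff one_pos).2 fun i => ?_) h.not_lt
  by_cases e : i = j
  · have a1 := abs_lt.1 (h2 j)
    have a2 := abs_le.1 hε
    rw [e, hf, Function.update_self, Real.norm_eq_abs, abs_lt]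
    constructor <;> linarith only [a1, a2]
  · rw [hf, Function.update_of_ne e]
    exact h2 i

theorem erd_cs {i0 : ι} {x : E ι} (hx : ‖x‖ ≤ 1) (h : ¬‖Function.update x i0 0‖ < 1) :
    Function.update x i0 0 ∈ Cs i0 := by
  refine ⟨Function.update_self _ _ _, le_antisymm ?_ (not_lt.1 h)⟩
  refine (pi_norm_le_iff_of_nonneg zero_le_one).2 fun i => ?_
  by_cases e : i = i0
  · simp [e]
  · rw [Function.update_of_ne e]
    exact (norm_le_pi_norm x i).trans hx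

theorem erd_lo {i0 : ι} (y0 : YL ι) {l1 l2 : ℝ} (p1 : 0 < l1) (p2 : 0 < l2)
    (Γ1 Γ2 : ℝ × E ι → YL ι) {x : E ι} (hx : ‖x‖ ≤ 1) :
    sphV i0 y0 (l1 + l2) (erdU (l1 / (l1 + l2)) 1) (cat l1 Γ1 Γ2) (hf i0 (-1) x) =
      sphD i0 y0 l1 Γ1 x := by
  have a1 := abs_le.1 ((norm_le_pi_norm x i0).trans hx)
  have e : (l1 + l2) * erdU (l1 / (l1 + l2)) 1 (((x i0 + -1) / 2 + 1) / 2) =
      l1 * ((x i0 + 1) / 2) := by
    rw [erdU, erdL_lo _ (by linarith only [a1])]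
    field_simp
    ring
  simp only [sphD, sphV, hf, Function.update_idem, Function.update_self, e]
  split_ifs with h
  · rfl
  · exact if_pos (by nlinarith only [p1, a1])

theorem erd_hi {i0 : ι} {y0 : YL ι} (hy : y0 ∉ UL U0) {l1 l2 : ℝ} (p1 : 0 < l1) (p2 : 0 < l2)
    {Γ1 Γ2 : ℝ × E ι → YL ι} (j1 : ∀ ω ∈ Cs i0, Γ1 (l1, ω) ∉ UL U0)
    (j2 : ∀ ω ∈ Cs i0, Γ2 (0, ω) ∉ UL U0) {x : E ι} (hx : ‖x‖ ≤ 1) :
    Ap (UL U0) (sphV i0 y0 (l1 + l2) (erdU (l1 / (l1 + l2)) 1) (cat l1 Γ1 Γ2) (hf i0 1 x))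
      (sphD i0 y0 l2 Γ2 x) := by
  have a1 := abs_le.1 ((norm_le_pi_norm x i0).trans hx)
  have e : (l1 + l2) * erdU (l1 / (l1 + l2)) 1 (((x i0 + 1) / 2 + 1) / 2) =
      l1 + l2 * ((x i0 + 1) / 2) := by
    rw [erdU, erdL_hi _ (by linarith only [a1])]
    field_simp
    ring
  simp only [sphD, sphV, hf, Function.update_idem, Function.update_self, e]
  split_ifs with h
  · exact Ap.rfl
  · rcases a1.1.lt_or_eq with b | b
    · have b1 : 0 < l2 * ((x i0 + 1) / 2) := mul_pos p2 (by linarith only [b])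
      refine Ap.of_eq ?_
      rw [cat, if_neg (by simp only [not_le]; linarith only [b1]), add_sub_cancel_left]
    · have b1 : l2 * ((x i0 + 1) / 2) = 0 := by rw [← b]; ring
      rw [b1, add_zero, cat, if_pos le_rfl]
      exact Ap.of_not (j1 _ (erd_cs hx h)) (j2 _ (erd_cs hx h))

/-- Gluing two strips along a wall with junk data. -/
theorem erd_glue {ls1 ls2 : List (ℕ × Bx ι)} (hl : ((ls1 ++ ls2).map Prod.fst).Nodup) {i0 : ι}
    {y0 : YL ι} (hy : y0 ∉ UL U0) {l1 l2 : ℝ} (p1 : 0 < l1) (p2 : 0 < l2)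
    {Γ1 Γ2 : ℝ × E ι → YL ι} (j1 : ∀ ω ∈ Cs i0, Γ1 (l1, ω) ∉ UL U0)
    (j2 : ∀ ω ∈ Cs i0, Γ2 (0, ω) ∉ UL U0) {R1 R2 : GB ι} (v1 : R1.Valid f) (v2 : R2.Valid f)
    {y : E ι → E ι} (y1 : ∀ z ∈ R1.set, y z = hf i0 (-1) (R1.th z))
    (y2 : ∀ z ∈ R2.set, y z = hf i0 1 (R2.th z)) (c : ℝ) :
    Red U0 F0 (erdP (R1.set ∪ R2.set) y
        (sphV i0 y0 (l1 + l2) (erdU (l1 / (l1 + l2)) 1) (cat l1 Γ1 Γ2)) (srcL (ls1 ++ ls2)) c)
      {pbS R1 (sphD i0 y0 l1 Γ1) (srcL ls1) c, pbS R2 (sphD i0 y0 l2 Γ2) (srcL ls2) c} := by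
  refine Red.glue prod_union (isClosed_univ.prod v1.isClosed) (isClosed_univ.prod v2.isClosed)
    (fun w _ => ?_) (fun z hz hz' => ?_) (fun w h1 h2 _ => (srcL_disj hl w h1.2 h2.2).elim)
    (fun z hz => ?_) (fun _ _ => le_rfl) (fun _ _ => le_rfl) le_rfl le_rfl
  · change True ∧ w ∈ srcL (ls1 ++ ls2) ↔ True ∧ w ∈ srcL ls1 ∨ True ∧ w ∈ srcL ls2
    rw [srcL_append, true_and, true_and, true_and, mem_union]
  · have n1 := v1.th_norm hz.2
    have n2 := v2.th_norm hz'.2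
    have a1 := abs_le.1 ((norm_le_pi_norm _ i0).trans n1)
    have a2 := abs_le.1 ((norm_le_pi_norm _ i0).trans n2)
    have a3 := congrFun ((y1 _ hz.2).symm.trans (y2 _ hz'.2)) i0
    simp only [hf, Function.update_self] at a3
    have b1 : R1.th z.2 i0 = 1 := by linarith only [a2, a3, a1]
    have b2 : R2.th z.2 i0 = -1 := by linarith only [a2, a1, a3]
    refine ⟨⟨trivial, hz.2, n1.antisymm (le_trans ?_ (norm_le_pi_norm _ i0))⟩,
      ⟨trivial, hz'.2, n2.antisymm (le_trans ?_ (norm_le_pi_norm _ i0))⟩, Ap.of_not ?_ ?_⟩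
    · rw [b1, norm_one]
    · rw [b2, norm_neg, norm_one]
    · change sphD i0 y0 l1 Γ1 (R1.th z.2) ∉ UL U0
      simp only [sphD, sphV, b1]
      split_ifs with h
      · exact hy
      · rw [add_self_div_two, mul_one]
        exact j1 _ (erd_cs n1 h)
    · change sphD i0 y0 l2 Γ2 (R2.th z.2) ∉ UL U0
      simp only [sphD, sphV, b2]
      split_ifs with h
      · exact hy
      · rw [neg_add_cancel, zero_div, mul_zero]
        exact j2 _ (erd_cs n2 h)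
  · obtain ⟨-, hz1 | hz1, hz2⟩ := hz
    · have n1 := v1.th_norm hz1
      refine Or.inl ⟨⟨trivial, hz1, erd_hf_norm (by norm_num) n1 (y1 _ hz1 ▸ hz2)⟩,
        ⟨trivial, hz1⟩, Ap.of_eq ?_⟩
      change sphV i0 y0 (l1 + l2) _ _ (y z.2) = sphD i0 y0 l1 Γ1 (R1.th z.2)
      rw [y1 _ hz1, erd_lo y0 p1 p2 Γ1 Γ2 n1]
    · have n2 := v2.th_norm hz1
      refine Or.inr ⟨⟨trivial, hz1, erd_hf_norm (by norm_num) n2 (y2 _ hz1 ▸ hz2)⟩,
        ⟨trivial, hz1⟩, ?_⟩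
      change Ap (UL U0) (sphV i0 y0 (l1 + l2) _ _ (y z.2)) (sphD i0 y0 l2 Γ2 (R2.th z.2))
      rw [y2 _ hz1]
      exact erd_hi hy p1 p2 j1 j2 n2

/-- A scaled and turned copy. -/
theorem erd_sim (hf : 0 < f) (hf' : f ≤ 1 / 16) {R : GB ι} (hR : R.Valid f) {s : ℝ} (hs : 0 < s)
    (v : E ι) {O : E ι → E ι} (hO : IsSP O) :
    ∃ R', Sim f R R' (s * R.sz) ∧ R'.set = O '' (R.map s v).set ∧
      ∀ z, R'.th (O z) = O ((R.map s v).th z) := by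
  obtain ⟨R', a1, a2, a3, a4, a5, a6, a7, a8, -, a9⟩ := (hR.map hs v).sp hO
  obtain ⟨z0, z1, -⟩ := hR.sz_pos hf hf'
  refine ⟨R', ⟨a1, GB.sz_eq (by positivity) ?_, by rw [a4, GB.map_phi _ hs],
    a6.trans (GB.map_fin _ hs v), fun Q hQ => a9 _ (by rw [hQ, Bx.gb_map Q hs v]), ?_, ?_⟩, a2, a3⟩
  · rw [a5, GB.map_vol _ hs, mul_pow, z1]
  · rw [a7, (GB.map_wmin R hs v).1]; ring
  · rw [a8, (GB.map_wmin R hs v).2]; ring

/-- Turning a cut region and gluing. -/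
theorem erd_turn {ls1 ls2 : List (ℕ × Bx ι)} (hl : ((ls1 ++ ls2).map Prod.fst).Nodup) {i0 : ι}
    {y0 : YL ι} (hy : y0 ∉ UL U0) {l1 l2 : ℝ} (p1 : 0 < l1) (p2 : 0 < l2)
    {Γ1 Γ2 : ℝ × E ι → YL ι} (j1 : ∀ ω ∈ Cs i0, Γ1 (l1, ω) ∉ UL U0)
    (j2 : ∀ ω ∈ Cs i0, Γ2 (0, ω) ∉ UL U0) {A A1 A2 : Set (E ι)} (hA : A = A1 ∪ A2)
    {O : E ι → E ι} (hO : IsSP O) {R1 R2 : GB ι} (v1 : R1.Valid f) (v2 : R2.Valid f)
    (s1 : R1.set = O '' A1) (s2 : R2.set = O '' A2) {y : E ι → E ι}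
    (y1 : ∀ z ∈ A1, y z = hf i0 (-1) (R1.th (O z))) (y2 : ∀ z ∈ A2, y z = hf i0 1 (R2.th (O z)))
    (c : ℝ) :
    Red U0 F0 (erdP A y
        (sphV i0 y0 (l1 + l2) (erdU (l1 / (l1 + l2)) 1) (cat l1 Γ1 Γ2)) (srcL (ls1 ++ ls2)) c)
      {pbS R1 (sphD i0 y0 l1 Γ1) (srcL ls1) c, pbS R2 (sphD i0 y0 l2 Γ2) (srcL ls2) c} := by
  obtain ⟨g, hg⟩ := hO.equiv
  obtain rfl : ⇑g = O := funext hg
  refine (erd_iso (Y' := fun z => y (g.symm z)) g.symm (fun x => ?_) (fun x _ hx => ⟨hx, Ap.rfl⟩)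
    (fun _ _ => Iff.rfl) le_rfl).trans1 (erd_glue hl hy p1 p2 j1 j2 v1 v2 (fun z hz => ?_)
      (fun z hz => ?_) c)
  · rw [s1, s2, ← image_union, ← hA]
    exact Set.mem_image_equiv (f := g.toEquiv)
  · rw [s1] at hz
    obtain ⟨x, hx, rfl⟩ := hz
    rw [g.symm_apply_apply, y1 x hx]
  · rw [s2] at hz
    obtain ⟨x, hx, rfl⟩ := hz
    rw [g.symm_apply_apply, y2 x hx]

/-- Cutting a strip at a neck. -/
theorem cut_red [Nontrivial ι] (hU : IsOpen U0) (hne : U0ᶜ.Nonempty) (hf : 0 < f)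
    (hf' : f ≤ 1 / 16) {ls1 ls2 : List (ℕ × Bx ι)} (hl : LsOk F0 (ls1 ++ ls2)) {i0 : ι}
    {y0 : YL ι} (hy : y0 ∉ UL U0) {l1 l2 a : ℝ} (p1 : 0 < l1) (p2 : 0 < l2) (pa : 0 < a)
    {Γ1 Γ2 : ℝ × E ι → YL ι} (b1 : SBnd (UL U0) i0 l1 (bdL ls1) a (a * (l1 + l2)) Γ1)
    (b2 : SBnd (UL U0) i0 l2 (bdL ls2) a (a * (l1 + l2)) Γ2) {R R1 R2 : GB ι} (hR : R.Valid f)
    {i : ι} {c0 : ℝ} (hc : GB.IsCut f R i c0 R1 R2) (sg : Bool) {L : ℝ} (hL : 0 < L)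
    (hL' : L < R.sz) (n1 : 10 ^ 8 * (a * (l1 + l2)) ≤ f ^ 2 * L)
    (n2 : 10 ^ 8 * (a * (l1 + l2)) ≤ f ^ 2 * (R.sz - L)) {c c' : ℝ} (h1 : 1 ≤ c') (h2 : c' < c) :
    ∃ R1' R2' : GB ι, Sim f (if sg then R2 else R1) R1' (L / R.sz * (if sg then R2 else R1).sz) ∧
      Sim f (if sg then R1 else R2) R2' (L / R.sz * (if sg then R1 else R2).sz) ∧
      Red U0 F0 (pbS R (sphD i0 y0 (l1 + l2) (cat l1 Γ1 Γ2)) (srcL (ls1 ++ ls2)) c)
        {pbS R1' (sphD i0 y0 l1 Γ1) (srcL ls1) c', pbS R2' (sphD i0 y0 l2 Γ2) (srcL ls2) c'} := by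
  obtain ⟨z0, -⟩ := hR.sz_pos hf hf'
  have s0 : 0 < L / R.sz := div_pos hL z0
  have pl : 0 < l1 + l2 := add_pos p1 p2
  have q0 : 0 < l1 / (l1 + l2) := div_pos p1 pl
  have q1 : l1 / (l1 + l2) < 1 := (div_lt_one pl).2 (by linarith only [p2])
  have hε : (if sg then (-1 : ℝ) else 1) = 1 ∨ (if sg then (-1 : ℝ) else 1) = -1 := by
    cases sg <;> simp
  obtain ⟨O, hO, hsp, hj⟩ := exists_mv i i0 hε (Or.inr inferInstance)
  have hc' := hc.map s0 ((1 - L / R.sz) • R.o)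
  have hRh := hR.map s0 ((1 - L / R.sz) • R.o)
  have bc := b1.cat b2 pa.le fun w h3 h4 =>
    (srcL_disj hl.1 w (bdL_subset _ h3) (bdL_subset _ h4)).elim
  rw [← bdL_append] at bc
  have pA : 0 < a * (l1 + l2) := mul_pos pa pl
  have hβ := Bnd.sph bc (τ := l1 + l2) (p := 0) (v1 := 2) (v2 := 1) pa.le pA.le le_rfl
    zero_le_two zero_le_one hy (fun _ _ => ⟨pl, le_rfl⟩) (fun _ _ _ _ => by simp)
    (υ := erdU (l1 / (l1 + l2))) (fun r hr => erdU_bij q0 q1 hr) (erdU_lip q0 q1) fun _ => y0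
  have hch := hc.ch_spl hf hf' hR
  have f1 : f * f ≤ f / 16 := by nlinarith only [hf, hf']
  have hred := erd_hom hU hne hf hf' hl hR (by rw [le_div_iff₀ hf]; linarith only [hf, hf']) hch zero_le_two
    (erd_two (hR.ch_th hf hf') hch) hO (by positivity) (by positivity) hβ
    (γ0 := sphD i0 y0 (l1 + l2) (cat l1 Γ1 Γ2))
    (γ1 := sphV i0 y0 (l1 + l2) (erdU (l1 / (l1 + l2)) 1) (cat l1 Γ1 Γ2))
    (fun x _ => Ap.of_eq (by simp only [sphD, sphV, erdU, sub_zero, one_mul, zero_mul, add_zero]))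
    (fun x _ => Ap.rfl) hL hL' ?_ ?_ h1 h2
    (y := fun z => O 1 ((R.hom (L / R.sz)).spl i (L / R.sz * c0 + ((1 - L / R.sz) • R.o) i) z))
    fun z => by
      rw [← R.map_spl s0 ((1 - L / R.sz) • R.o) i c0, R.hom_eq s0]
      rfl
  · obtain ⟨A1, a1, a2, a3⟩ := erd_sim hf hf' hc.v1 s0 ((1 - L / R.sz) • R.o) hsp
    obtain ⟨A2, d1, d2, d3⟩ := erd_sim hf hf' hc.v2 s0 ((1 - L / R.sz) • R.o) hsp
    have k1 := fun z hz => (congrArg (O 1) (hc'.spl1 hf hRh (z := z) hz)).trans (hsp.hf hε hj _ _)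
    have k2 := fun z hz => (congrArg (O 1) (hc'.spl2 hf hRh (z := z) hz)).trans (hsp.hf hε hj _ _)
    have j1 : ∀ ω ∈ Cs i0, Γ1 (l1, ω) ∉ UL U0 := fun ω hω =>
      ((b1.2 0 (left_mem_Icc.2 zero_le_one)).2 ω hω).2
    have j2 : ∀ ω ∈ Cs i0, Γ2 (0, ω) ∉ UL U0 := fun ω hω =>
      ((b2.2 0 (left_mem_Icc.2 zero_le_one)).2 ω hω).1
    cases sg
    · exact ⟨A1, A2, a1, d1, hred.trans1 (erd_turn hl.1 hy p1 p2 j1 j2 hc'.union hsp a1.valid
        d1.valid a2 d2 (fun z hz => by rw [a3]; exact (k1 z hz).trans (by simp))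
        (fun z hz => by rw [d3]; exact (k2 z hz).trans (by simp)) c')⟩
    · exact ⟨A2, A1, d1, a1, hred.trans1 (erd_turn hl.1 hy p1 p2 j1 j2
        (hc'.union.trans (union_comm _ _)) hsp d1.valid a1.valid d2 a2
        (fun z hz => by rw [d3]; exact (k2 z hz).trans (by simp))
        (fun z hz => by rw [a3]; exact (k1 z hz).trans (by simp)) c')⟩
  · have e : 800 * ((a * (l1 + l2) * 2 / 2 + a * (l1 + l2)) * (1000 * (10 / f))) =
        16 * 10 ^ 6 * (a * (l1 + l2)) / f := by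
      field_simp
      ring
    rw [e, div_le_iff₀ hf]
    nlinarith only [n1, pA]
  · have t1 := mul_le_mul_of_nonneg_right f1 (sub_pos.2 hL').le
    have t2 := mul_pos hf (sub_pos.2 hL')
    nlinarith only [n2, pA, t1]

/-- A reduction indexed by a type, when no set has to be preserved. -/
theorem erd_of_isRed {J : Type} {pb : J → PE ι} {p : PE ι}
    {G : (J → Unit × E ι → YL ι) → Unit × E ι → YL ι} (h : IsRed (UL U0) pb p univ G)
    (hs : ∀ j, (pb j).R ⊆ p.R) : Red U0 ∅ p (range pb) := by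
  refine ⟨fun F => G fun j => F (pb j), ⟨fun z => ?_, fun o F hF =>
    h.2 o _ fun j _ => hF _ (mem_range_self j)⟩, ?_⟩
  · rcases h.1 z with ⟨y, hy⟩ | ⟨j, -, z', φ, h1, h2⟩
    · exact Or.inl ⟨y, fun F => hy _⟩
    · exact Or.inr ⟨pb j, mem_range_self j, z', φ, h1, fun F => h2 _⟩
  · rintro _ ⟨j, rfl⟩
    exact ⟨IsometryEquiv.refl _, fun x hx => hs j hx, fun _ _ _ _ _ h0 => h0.elim⟩

namespace EV

variable [Nontrivial ι] {W : EV ι}

/-- Filling a region by an affine map after releasing the boundary data. -/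
theorem OK.term_red (h : W.OK) (hf : 0 < f) (hf' : f ≤ 1 / 16) (a : ℕ) {k : ℤ} {Q : Bx ι}
    (hQ : BX k Q) {t : ℝ} (ht : W.tt Q ≤ t) {R : GB ι} (hR : R.Valid f)
    (hn : W.cg f * (max t (W.B ^ W.T) * Q.sc) ≤ R.sz) {c : ℝ} (hc : 1 < c) :
    Red W.U0 ∅ (W.pbT a k Q t R c) ∅ := by
  obtain ⟨k1, k2, -, -, k3⟩ := h.consts
  have hp : Q.Pos := hQ.lb.pos
  have ps := hp.sc_pow.1
  obtain ⟨z0, -, z1, -⟩ := hR.sz_pos hf hf'
  have hw := hR.wmin_pos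
  have hM : 1 ≤ max t (W.B ^ W.T) := k3.trans (le_max_right _ _)
  have hβ := h.std a hQ ht (ht.trans (le_max_left t (W.B ^ W.T))) fun _ => W.y0
  rw [← max_assoc, max_self] at hβ
  have hlb : LB (k - 1) Q := hQ.lb.down (by omega)
  have n0 : 10 ^ 10 * (W.K * max t (W.B ^ W.T) * Q.sc) ≤ f ^ 2 * R.sz := by
    have e : W.cg f * (max t (W.B ^ W.T) * Q.sc) =
        10 ^ 10 * (W.K * max t (W.B ^ W.T) * Q.sc) * W.K1 / f ^ 2 := by
      rw [EV.cg]; ring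
    rw [e, div_le_iff₀ (by positivity)] at hn
    have : 0 ≤ 10 ^ 10 * (W.K * max t (W.B ^ W.T) * Q.sc) := by positivity
    nlinarith only [hn, hf, hf', k2, this]
  have n1 : Q.sc ≤ W.K * max t (W.B ^ W.T) * Q.sc :=
    le_mul_of_one_le_left ps.le (one_le_mul_of_one_le_of_one_le k1 hM)
  have hls : LsOk (∅ : Set (E ι)) [(a, Q)] :=
    ⟨by simp, by simpa using hp, fun _ _ _ _ h0 => h0.elim⟩
  refine (cube_red h.hU h.hne hf hf' hls hR (by positivity) hβ (γ1 := fun x => (a, Q.af x))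
    (fun x _ => Ap.of_eq (by simp)) (fun x hx => ?_) (by linarith only [ps, n0, n1]) le_rfl hc).trans1
      (Red.const (Z := fun z => (a, Q.af ((cubeC R.o (R.wmin / 2)).nm z.2))) ?_)
  · have hb : Q.af x ∈ Q.bd := hp.af_mem_bd.2 hx
    have := (h.bdl a).idn' trivial hlb (le_max_right t (W.B ^ W.T)) (Q.bd_subset hb)
      (hlb.bd_sk hb)
    simpa using this.symm
  · obtain ⟨c1, -, -, -, -, -, -, c2, -⟩ := cubeC_valid hf hf' R.o (half_pos hw)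
    rw [erd_gb, srcL_single]
    refine sol_of_bij (fun _ _ => ?_) (fun _ _ _ _ => Ap.rfl) fun z _ z' _ => ?_
    · have b1 : BijOn (cubeC R.o (R.wmin / 2)).nm (cubeC R.o (R.wmin / 2)).set (closedBall 0 1) :=
        ⟨fun x hx => mem_closedBall_zero_iff.2 (c1.nm_mem.1 hx),
          (Function.LeftInverse.injective c1.af_nm).injOn,
          fun x hx => ⟨_, c1.af_mem.2 (mem_closedBall_zero_iff.1 hx), c1.nm_af x⟩⟩
      exact (((Prod.mk_right_injective a).comp Function.injective_id).injOn.bijOn_image).comp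
        (hp.bijOn_af.comp b1)
    · have b1 := Bx.af_lip hp (S := 2 * Q.sc) (by positivity)
        (fun i => (hQ.sd i).2.trans (by linarith only [hQ.sc.1])) ((cubeC R.o (R.wmin / 2)).nm z'.2)
        ((cubeC R.o (R.wmin / 2)).nm z.2)
      have b2 := Bx.nm_lip (half_pos hw) (fun i => (c2 i).ge) z'.2 z.2
      have b3 : 2 * Q.sc / 2 * (2 / (R.wmin / 2)) ≤ 1 := by
        rw [show 2 * Q.sc / 2 * (2 / (R.wmin / 2)) = 4 * Q.sc / R.wmin by field_simp; norm_num,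
          div_le_one hw]
        have t1 := mul_le_mul_of_nonneg_left z1 hf.le
        have t2 := mul_le_mul_of_nonneg_right hf' hw.le
        nlinarith only [ps, n0, n1, t1, t2]
      have b4 := mul_le_mul_of_nonneg_left b2 (show 0 ≤ 2 * Q.sc / 2 by positivity)
      have b5 := mul_le_mul_of_nonneg_right b3 (dist_nonneg (x := z'.2) (y := z.2))
      rw [dist_prod_same_left]
      change _ ≤ 1 * dist z'.2 z.2 + 0 * _
      nlinarith only [b1, b4, b5]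

/-- The step of the martingale mode. -/
theorem OK.fstep_red (h : W.OK) (hf : 0 < f) (hf' : f ≤ 1 / 16) {fc : FC}
    (hfc : fc.Good (ι := ι) f) (a : ℕ) {k : ℤ} {Q : Bx ι} (hQ : BX k Q) {j : ι} (hj : Q.Long j)
    {t : ℝ} (t0 : W.tt Q ≤ t) (t1 : W.tt (Q.L j) ≤ t) (t2 : W.tt (Q.R j) ≤ t) {F F' : FD ι}
    (hF : FSt fc f Q F) (hF' : FSt fc f (Q.L j) F') (ho : F'.o = F.o) (hh : F'.h = F.h)
    (hu : ∀ x, x ∉ Q.set ∨ x ∈ Q.bd → F'.u x = F.u x) {R R1 R2 : GB ι} (r0 : FRel f Q F R)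
    (r1 : FRel f (Q.L j) F' R1) (r2 : FRel f (Q.R j) F' R2) {c : ℝ} (hc : 1 < c) (hc' : c ≤ 2) :
    Red W.U0 ∅ (W.pbT a k Q t R c)
      {W.pbT a (nk k Q) (Q.L j) t R1 c, W.pbT a (nk k Q) (Q.R j) t R2 c} := by
  have he : Isometry (Prod.mk a ∘ id : E ι → YL ι) :=
    Isometry.of_dist_eq fun x y => dist_prod_same_left
  have hp : Q.Pos := hQ.lb.pos
  obtain ⟨G, hG, -⟩ := f_op (isOpen_UL h.hU) he (h.bdl a) hfc hf hf' (k := k - 1)
    (k' := nk k Q - 1) trivial (hQ.lb.down (by have := nk_le_g k Q; omega)) (hQ.mid hj).down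
    (h.tm_le_half hQ hj t1 t2)
    (fun x hx => (h.switch hQ t0 x hx).map (φ := Prod.mk a) fun _ => Iff.rfl) hF hF' ho hh hu
    r0 r1 r2 (by linarith only [hf, hf', hc]) hc'
  have hm := ((hfc.mix Q (Q.L j) F F' hF hF' ho hh hu).1 1 (right_mem_Icc.2 zero_le_one)).mapsTo
  simp only [sub_self, zero_smul, one_smul, zero_add] at hm
  rw [← r0.set] at hm
  have := erd_of_isRed hG fun b => by
    cases b
    · rintro ⟨_, z⟩ hz
      obtain ⟨x, hx, rfl⟩ := r1.exists_psi hz.2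
      rw [hp.set_L] at hx
      exact ⟨trivial, hm hx.1⟩
    · rintro ⟨_, z⟩ hz
      obtain ⟨x, hx, rfl⟩ := r2.exists_psi hz.2
      rw [hp.set_R] at hx
      exact ⟨trivial, hm hx.1⟩
  rw [Bool.range_eq] at this
  rw [pbT, pbT, pbT, srcL_single, srcL_single, srcL_single]
  exact this

end EV

end Pool.Agent.Lib.MP_ecd4e3_gt.N
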