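import Pool.Agent.Lib.MP_ecd4e3_gt.N.ERed
import Pool.Agent.Lib.MP_ecd4e3_gt.N.ENotch

/-! The geometric steps for lists and standard problems. -/

namespace Pool.Agent.Lib.MP_ecd4e3_gt.N

open Set Filter Topology Metric MeasureTheory
open scoped NNReal ENNReal

set_option linter.unusedSectionVars false

variable {ι : Type} [Fintype ι] [DecidableEq ι] [Nonempty ι] [Nontrivial ι]

/-! ### Auxiliary facts -/

/-- The affine path between two numbers. -/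
def pth (a b r : ℝ) : ℝ := (1 - r) * a + r * b

theorem pth_zero (a b : ℝ) : pth a b 0 = a := by simp [pth]
theorem pth_one (a b : ℝ) : pth a b 1 = b := by simp [pth]
theorem le_pth {a b m r : ℝ} (hr : r ∈ Icc (0 : ℝ) 1) (ha : m ≤ a) (hb : m ≤ b) :
    m ≤ pth a b r := by
  unfold pth
  linarith only [mul_le_mul_of_nonneg_left ha (sub_nonneg.2 hr.2), mul_le_mul_of_nonneg_left hb hr.1, ha, hb]
theorem pth_le {a b m r : ℝ} (hr : r ∈ Icc (0 : ℝ) 1) (ha : a ≤ m) (hb : b ≤ m) :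
    pth a b r ≤ m := by
  unfold pth
  linarith only [mul_le_mul_of_nonneg_left ha (sub_nonneg.2 hr.2), mul_le_mul_of_nonneg_left hb hr.1, ha, hb]
theorem pth_pos {a b r : ℝ} (hr : r ∈ Icc (0 : ℝ) 1) (ha : 0 < a) (hb : 0 < b) : 0 < pth a b r :=
  (lt_min ha hb).trans_le (le_pth hr (min_le_left _ _) (min_le_right _ _))
theorem pth_lip {a b p : ℝ} (h1 : b - a ≤ p) (h2 : a - b ≤ p) (r r' : ℝ) :
    |pth a b r' - pth a b r| ≤ p * |r' - r| := by
  have e : pth a b r' - pth a b r = (b - a) * (r' - r) := by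
    unfold pth
    ring
  rw [e, abs_mul]
  exact mul_le_mul_of_nonneg_right (abs_sub_le_iff.2 ⟨h1, h2⟩) (abs_nonneg _)

section
variable {Y : Type} [MetricSpace Y] {U : Set Y}

theorem cat_ap {l1 l2 : ℝ} {Γ1 Γ2 Γ1' Γ2' : ℝ × E ι → Y} {ω : E ι}
    (h1 : ∀ n ∈ Icc 0 l1, Ap U (Γ1 (n, ω)) (Γ1' (n, ω)))
    (h2 : ∀ n ∈ Icc 0 l2, Ap U (Γ2 (n, ω)) (Γ2' (n, ω))) :
    ∀ n ∈ Icc 0 (l1 + l2), Ap U (cat l1 Γ1 Γ2 (n, ω)) (cat l1 Γ1' Γ2' (n, ω)) := by
  intro n hn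
  unfold cat
  by_cases e : n ≤ l1
  · simp only [e, if_true]
    exact h1 n ⟨hn.1, e⟩
  · simp only [e, if_false]
    exact h2 _ ⟨by linarith only [not_le.1 e, e], by linarith only [hn.2]⟩

theorem sphD_ap {i0 : ι} {y0 : Y} {l : ℝ} (hl : 0 ≤ l) {Γ Γ' : ℝ × E ι → Y}
    (he : ∀ n ∈ Icc 0 l, ∀ ω ∈ Cs i0, Ap U (Γ (n, ω)) (Γ' (n, ω))) {x : E ι} (hx : ‖x‖ = 1) :
    Ap U (sphD i0 y0 l Γ x) (sphD i0 y0 l Γ' x) :=
  sphV_congr hl (fun _ k => k) he hx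

theorem sol_gs_le {J : Set ℝ} {R : Set (E ι)} {β Z : ℝ × E ι → Y} {S : Set Y}
    {a1 a2 b1 b2 : ℝ} (h : Sol U (pbP J R ∅ β S (gs a1 a2) 1) univ Z) (h1 : a1 ≤ b1)
    (h2 : a2 ≤ b2) : Sol U (pbP J R ∅ β S (gs b1 b2) 1) univ Z :=
  h.mono rfl (fun _ k => k) (fun _ _ => Ap.rfl) (fun _ _ _ => Iff.rfl)
    (fun _ _ => Eventually.of_forall fun _ => add_le_add
      (mul_le_mul_of_nonneg_right h1 dist_nonneg) (mul_le_mul_of_nonneg_right h2 dist_nonneg))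
    fun _ k => k

end

theorem Bnd.catL {U : Set (YL ι)} {i0 : ι} {l1 l2 : ℝ → ℝ} {ls1 ls2 : List (ℕ × Bx ι)}
    {a b c p : ℝ} {Γ1 Γ2 : ℝ → ℝ × E ι → YL ι} (h1 : Bnd U i0 l1 (bdL ls1) a b c Γ1)
    (h2 : Bnd U i0 l2 (bdL ls2) a b c Γ2) (ha : 0 ≤ a) (hp : 0 ≤ p)
    (hD : ((ls1 ++ ls2).map Prod.fst).Nodup)
    (hl : ∀ r r' : ℝ, |l1 r' - l1 r| ≤ p * |r' - r|) :
    Bnd U i0 (fun r => l1 r + l2 r) (bdL (ls1 ++ ls2)) a b (c + a * p)
      fun r => N.cat (l1 r) (Γ1 r) (Γ2 r) := by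
  rw [bdL_append]
  exact h1.cat h2 ha hp
    (fun y k1 k2 => (srcL_disj hD y (bdL_subset _ k1) (bdL_subset _ k2)).elim)
    fun r _ r' _ => hl r r'

theorem Bnd.up {U : Set (YL ι)} {i0 : ι} {l : ℝ → ℝ} {D : Set (YL ι)} {a b c b' c' : ℝ}
    {Γ : ℝ → ℝ × E ι → YL ι} (h : Bnd U i0 l D a b c Γ) (hb : b ≤ b') (hc : c ≤ c') :
    Bnd U i0 l D a b' c' Γ :=
  h.mono (fun _ _ => Iff.rfl) le_rfl hb hc

theorem hf_single (j : ι) (ε : ℝ) : hf j (-ε) (Pi.single j ε) = 0 := by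
  funext i
  by_cases e : i = j
  · simp [hf, e]
  · simp [hf, e]

theorem af_zero (Q : Bx ι) : Q.af 0 = Q.mid := by
  funext i
  simp [Bx.af]

theorem lsI_append (l1 l2 : List (It ι)) : lsI (l1 ++ l2) = lsI l1 ++ lsI l2 := List.map_append

theorem lsI_fst (l : List (It ι)) : (lsI l).map Prod.fst = l.map It.a := by
  simp [lsI]

theorem norm_single_sg (j : ι) {s : ℝ} (hs : s = 1 ∨ s = -1) : ‖(Pi.single j s : E ι)‖ = 1 := by
  rw [Pi.norm_single]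
  rcases hs with rfl | rfl <;> simp

theorem BX.lat_face {k : ℤ} {Q : Bx ι} (h : BX k Q) (j : ι) {s : ℝ} (hs : s = 1 ∨ s = -1)
    (i : ι) : Lat (k - 1) (Q.af (Pi.single j s) i) := by
  by_cases e : i = j
  · subst e
    rcases hs with rfl | rfl
    · have : Q.af (Pi.single i 1) i = Q.hi i := by
        simp only [Bx.af, Bx.mid, Bx.sd, Pi.single_eq_same]
        ring
      rw [this]
      exact (h.lb i).2.1.down
    · have : Q.af (Pi.single i (-1)) i = Q.lo i := by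
        simp only [Bx.af, Bx.mid, Bx.sd, Pi.single_eq_same]
        ring
      rw [this]
      exact (h.lb i).1.down
  · have : Q.af (Pi.single j s) i = Q.mid i := by simp [Bx.af, e]
    rw [this]
    exact h.mid' i

theorem BX.sd_sc {k : ℤ} {Q : Bx ι} (h : BX k Q) (i : ι) : Q.sd i ≤ 2 * Q.sc := by
  linarith only [(h.sd i).2, h.sc.1]

theorem lsok_single {F0 : Set (E ι)} (a : ℕ) {k : ℤ} {Q : Bx ι} (hQ : BX k Q) (hF : FO F0 k) :
    LsOk F0 [(a, Q)] := by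
  refine ⟨by simp, fun b hb => ?_, fun b hb => ?_⟩
  · rw [List.mem_singleton.1 hb]
    exact hQ.two.1
  · rw [List.mem_singleton.1 hb]
    exact hF Q hQ

namespace EV

variable {W : EV ι} {F0 : Set (E ι)} {f : ℝ}

theorem OK.hy' (h : W.OK) : W.y0 ∉ UL W.U0 := h.hy

theorem OK.cg_le (h : W.OK) (hf : 0 < f) (hf' : f ≤ 1 / 16) {x y : ℝ} (hx : 0 ≤ x)
    (hxy : W.cg f * x ≤ y) :
    10 ^ 9 * (W.a0 * x) ≤ f ^ 2 * y ∧ 10 ^ 10 * (W.a0 * x) ≤ f * y ∧ (0 < x → 0 < y) := by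
  have a0 : 0 < W.a0 := by linarith only [h.consts.2.2.2.1, hf, hf']
  have e : f ^ 2 * (W.cg f * x) = 125 * 10 ^ 7 * (W.a0 * x) := by
    unfold cg EV.a0
    field_simp
    ring
  have p : 0 ≤ W.a0 * x := mul_nonneg a0.le hx
  have h1 : 125 * 10 ^ 7 * (W.a0 * x) ≤ f ^ 2 * y :=
    e ▸ mul_le_mul_of_nonneg_left hxy (sq_nonneg f)
  have hy : 0 ≤ y := by
    by_contra k
    linarith only [mul_pos (pow_pos hf 2) (neg_pos.2 (not_le.1 k)), h1, hf, k, p]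
  have h2 : f ^ 2 * y ≤ f * y / 16 := by
    linarith only [mul_le_mul_of_nonneg_right hf' (mul_nonneg hf.le hy)]
  refine ⟨by linarith only [h1, p], by linarith only [h1, h2, p], fun k => ?_⟩
  by_contra k'
  linarith only [mul_pos a0 k, mul_nonneg (sq_nonneg f) (neg_nonneg.2 (not_lt.1 k')), a0, h1, k, k']

theorem OK.cg_pos (h : W.OK) (hf : 0 < f) : 0 < W.cg f := by
  have h1 := h.consts.1
  have h2 := h.consts.2.1
  unfold cg
  positivity

theorem LOk.subl {l l' : List (It ι)} (hl : W.LOk F0 l) (h : l'.Sublist l) : W.LOk F0 l' :=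
  ⟨fun b hb => hl.1 b (h.subset hb), hl.2.sublist (h.map _)⟩

theorem OK.sph_append (h : W.OK) {l1 l2 : List (It ι)} (hl : W.LOk F0 (l1 ++ l2)) {x : E ι}
    (hx : ‖x‖ = 1) :
    Ap (UL W.U0) (sphD W.i0 W.y0 (W.ts (l1 ++ l2)) (W.lb (l1 ++ l2)) x)
      (sphD W.i0 W.y0 (W.ts l1 + W.ts l2) (cat (W.ts l1) (W.lb l1) (W.lb l2)) x) := by
  rw [← ts_append]
  exact sphD_ap (h.ts_bd hl).1 (h.lb_append hl) hx

/-- The homothetic shell with a movie of bands. -/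
theorem OK.bnd_red (h : W.OK) (hf : 0 < f) (hf' : f ≤ 1 / 16) {ls : List (ℕ × Bx ι)}
    (hl : LsOk F0 ls) {R : GB ι} (hR : R.Valid f) {l : ℝ → ℝ} {b c0 τ p : ℝ}
    {Γ : ℝ → ℝ × E ι → YL ι} (hΓ : Bnd (UL W.U0) W.i0 l (bdL ls) W.a0 b c0 Γ) (hb : 0 ≤ b)
    (hc0 : 0 ≤ c0) (hp : 0 ≤ p) (hτ : ∀ r ∈ Icc (0 : ℝ) 1, 0 < l r ∧ l r ≤ τ)
    (hlip : ∀ r r' : ℝ, |l r' - l r| ≤ p * |r' - r|) {γ0 γ1 : E ι → YL ι}
    (e0 : ∀ x, ‖x‖ = 1 → Ap (UL W.U0) (γ0 x) (sphD W.i0 W.y0 (l 0) (Γ 0) x))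
    (e1 : ∀ x, ‖x‖ = 1 → Ap (UL W.U0) (γ1 x) (sphD W.i0 W.y0 (l 1) (Γ 1) x)) {L : ℝ}
    (hL : 0 < L) (hL' : L < R.sz) (n1 : 10 ^ 4 * (W.a0 * τ + b) ≤ f * L)
    (n2 : 10 ^ 4 * (c0 + W.a0 * p) ≤ f * (R.sz - L)) {c c' : ℝ} (c1 : 1 ≤ c') (c2 : c' < c) :
    Red W.U0 F0 (pbS R γ0 (srcL ls) c) {pbS (R.hom (L / R.sz)) γ1 (srcL ls) c'} := by
  have a0 : 0 ≤ W.a0 := by linarith only [h.consts.2.2.2.1, hf, hf']
  have t0 : 0 ≤ τ := (hτ 0 ⟨le_rfl, zero_le_one⟩).1.le.trans (hτ 0 ⟨le_rfl, zero_le_one⟩).2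
  have p0 := mul_nonneg a0 t0
  have s := hΓ.sph (v1 := 1) (v2 := 0) (υ := fun _ m => m) a0 hb hp zero_le_one le_rfl h.hy' hτ
    (fun r _ r' _ => hlip r r') (fun _ _ => ⟨bijOn_id _, rfl, rfl⟩)
    (fun _ _ _ _ _ _ _ _ => by simp) (fun _ => W.y0)
  exact hom_red h.hU h.hne hf hf' hl hR (add_nonneg p0 hb) (add_nonneg hc0 (mul_nonneg a0 hp))
    (sol_gs_le s (by linarith only [p0]) (by simp)) e0 e1 hL hL' n1 n2 c1 c2

/-- The band of one item along paths of times and lengths. -/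
theorem OK.item (h : W.OK) (a : ℕ) {k : ℤ} {Q : Bx ι} (hQ : BX k Q) {p q : E ι}
    (np : W.Neck (k - 1) (Q.af p)) (nq : W.Neck (k - 1) (Q.af q)) {M : ℝ × (ℝ × E ι) → E ι}
    (hM : DispM W.i0 (Icc (0 : ℝ) 1) W.K1 p q M) {t0 t1 l0 l1 T s : ℝ} (a0 : W.tt Q ≤ t0)
    (a1 : W.tt Q ≤ t1) (b0 : t0 ≤ 2 * T) (b1 : t1 ≤ 2 * T) (hs : Q.sc ≤ s)
    (c0 : t0 * Q.sc ≤ 4 * l0) (c1 : t1 * Q.sc ≤ 4 * l1) (d0 : l0 ≤ 2 * (T * s))
    (d1 : l1 ≤ 2 * (T * s)) :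
    Bnd (UL W.U0) W.i0 (pth l0 l1) (bdL [(a, Q)]) W.a0 (W.a0 * (T * s)) (4 * (W.a0 * (T * s)))
      fun r => W.bb a (k - 1) (pth t0 t1 r) Q (fun z => M (r, z)) (pth l0 l1 r) := by
  obtain ⟨k0, k1, -, k2, -⟩ := h.consts
  have pt := (h.tt_bd hQ.two.1).1
  have ps := hQ.two.1.sc_pow.1
  have pT : 0 < T := by linarith only [a0, b0, pt]
  have p0 : 0 < l0 := by linarith only [mul_pos (pt.trans_le a0) ps, a0, c0, ps, pt]
  have p1 : 0 < l1 := by linarith only [mul_pos (pt.trans_le a1) ps, a1, c1, ps, pt]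
  have pK : 0 < W.K * W.K1 := by positivity
  have ea : W.a0 = 8 * (W.K * W.K1) := by
    unfold EV.a0
    ring
  have pTs : 0 < T * s := mul_pos pT (ps.trans_le hs)
  refine h.bnd_item a (hQ.lb.down (by omega)) hQ.sd_sc np nq (by linarith only [k1]) hM (t0 := W.tt Q)
    (pt := 2 * T) (pl := 2 * (T * s)) (h.tm_le hQ le_rfl) (fun r hr => ?_) (by linarith only [pT])
    (by linarith only [pTs]) (fun r _ r' _ => ⟨pth_lip (by linarith only [a0, b1, pt]) (by linarith only [a1, b0, pt]) r r',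
      pth_lip (by linarith only [d1, p0]) (by linarith only [d0, p1]) r r'⟩) ?_
  · have e1 : pth t0 t1 r * Q.sc ≤ 4 * pth l0 l1 r := by
      unfold pth
      linarith only [mul_le_mul_of_nonneg_left c0 (sub_nonneg.2 hr.2),
        mul_le_mul_of_nonneg_left c1 hr.1, c0, c1]
    have e2 : pth t0 t1 r * Q.sc ≤ 2 * T * s :=
      mul_le_mul (pth_le hr b0 b1) hs ps.le (by linarith only [pT])
    refine ⟨le_pth hr a0 a1, pth_pos hr p0 p1, ?_, ?_⟩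
    · rw [ea]
      linarith only [mul_le_mul_of_nonneg_left e1 pK.le, e1, pK]
    · rw [ea]
      linarith only [mul_le_mul_of_nonneg_left e2 pK.le, mul_pos pK pTs, e2, pK, pTs]
  · have e1 : (2 : ℝ) ^ (k - 1) ≤ s := by
      have := two_pred_g k
      linarith only [two_pos_g (k - 1), hQ.sc.1, hs, ps, this]
    have e2 : W.K * 2 ^ (k - 1) * (2 * T) ≤ W.K * W.K1 * (2 * (T * s)) := by
      have e3 : W.K ≤ W.K * W.K1 := le_mul_of_one_le_right (by linarith only [k0]) k1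
      have e4 : 2 ^ (k - 1) * (2 * T) ≤ 2 * (T * s) := by
        linarith only [mul_le_mul_of_nonneg_right e1 pT.le, e1, pT]
      rw [mul_assoc]
      exact mul_le_mul e3 e4 (by positivity) pK.le
    rw [ea]
    linarith only [mul_pos pK pTs, e2, pK, pTs]

theorem bb_ap {a : ℕ} {k k' : ℤ} {t : ℝ} {Q : Bx ι} {Ξ Ξ' : ℝ × E ι → E ι} {l : ℝ} (hl : 0 < l)
    {ω : E ι} (he : ∀ m ∈ Icc (0 : ℝ) 1,
      Ap W.U0 (W.P k (t, Q.af (Ξ (m, ω)))) (W.P k' (t, Q.af (Ξ' (m, ω))))) :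
    ∀ n ∈ Icc 0 l, Ap (UL W.U0) (W.bb a k t Q Ξ l (n, ω)) (W.bb a k' t Q Ξ' l (n, ω)) :=
  fun n hn => Ap.map (U := W.U0) (U' := UL W.U0) (φ := Prod.mk a) (fun _ => Iff.rfl)
    (he (n / l) ⟨div_nonneg hn.1 hl.le, (div_le_one hl).2 hn.2⟩)

theorem OK.neck_mid (h : W.OK) {k : ℤ} {Q : Bx ι} (hQ : BX k Q) (hd : Q.den W.ν < 1) :
    W.Neck (k - 1) Q.mid := by
  refine ⟨hQ.mid', h.vc k Q hQ hd _ ?_ hQ.mid'⟩
  rw [← af_zero, hQ.two.1.af_mem]
  simp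

theorem OK.neck_face (h : W.OK) {k : ℤ} {Q : Bx ι} (hQ : BX k Q) (hd : Q.den W.ν < 1) (j : ι)
    {s : ℝ} (hs : s = 1 ∨ s = -1) : W.Neck (k - 1) (Q.af (Pi.single j s)) :=
  ⟨hQ.lat_face j hs, h.vc k Q hQ hd _ (hQ.two.1.af_mem.2 (norm_single_sg j hs).le)
    (hQ.lat_face j hs)⟩

/-- The list with the two halves is admissible. -/
theorem OK.lok_kids (h : W.OK) {l1 l2 : List (It ι)} {a a2 : ℕ} {k : ℤ} {Q : Bx ι} (hQ : BX k Q)
    (hd : Q.den W.ν < 1) {j : ι} (hj : Q.Long j) {ε : ℝ} {p q p1 q2 : E ι}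
    {Ξ Ξ1 Ξ2 : ℝ × E ι → E ι} (had : Adapt W.i0 W.K0 p q j ε Ξ Ξ1 Ξ2 p1 q2)
    (np : W.Neck (k - 1) (Q.af p)) (nq : W.Neck (k - 1) (Q.af q)) (hl : W.LOk F0 (l1 ++ l2))
    (ha : ∀ b ∈ l1 ++ l2, b.a ≠ a) (ha2 : ∀ b ∈ l1 ++ l2, b.a ≠ a2) (hne : a ≠ a2)
    (hF : FO F0 (nk k Q)) :
    W.LOk F0 (l1 ++ ⟨a, nk k Q, Q.H j (-ε), p1, Pi.single j ε, j, Ξ1⟩ ::
      ⟨a2, nk k Q, Q.H j ε, Pi.single j (-ε), q2, j, Ξ2⟩ :: l2) := by
  have hk : nk k Q - 1 ≤ k - 1 := by linarith only [nk_le_g k Q]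
  have sg' : -ε = 1 ∨ -ε = -1 := by rcases had.sg with e | e <;> simp [e]
  have nm := (h.neck_mid hQ hd).down hk
  refine ⟨fun b hb => ?_, ?_⟩
  · simp only [List.mem_append, List.mem_cons] at hb
    rcases hb with hb | rfl | rfl | hb
    · exact hl.1 b (List.mem_append_left _ hb)
    · refine ⟨⟨(hQ.H hj _).1, had.g1, hQ.long_ne hj _, ?_, ?_⟩, hF⟩
      · simp only
        rw [Q.af_H j sg', ← had.hp]
        exact np.down hk
      · simp only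
        rw [Q.af_H j sg', hf_single, af_zero]
        exact nm
    · refine ⟨⟨(hQ.H hj _).1, had.g2, hQ.long_ne hj _, ?_, ?_⟩, hF⟩
      · simp only
        have e := hf_single j (-ε)
        rw [neg_neg] at e
        rw [Q.af_H j had.sg, e, af_zero]
        exact nm
      · simp only
        rw [Q.af_H j had.sg, ← had.hq]
        exact nq.down hk
    · exact hl.1 b (List.mem_append_right _ hb)
  · have n0 := hl.2
    rw [List.map_append] at n0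
    have m : ∀ a', (∀ b ∈ l1 ++ l2, b.a ≠ a') → a' ∉ l1.map It.a ++ l2.map It.a := fun a' k1 k2 => by
      rw [← List.map_append, List.mem_map] at k2
      obtain ⟨b, k3, k4⟩ := k2
      exact k1 b k3 k4
    rw [List.map_append, List.map_cons, List.map_cons, List.nodup_middle, List.nodup_cons,
      List.nodup_middle, List.nodup_cons]
    refine ⟨fun k1 => ?_, m a2 ha2, n0⟩
    have k2 := m a ha
    simp only [List.mem_append, List.mem_cons, not_or] at k1 k2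
    rcases k1 with k1 | k1 | k1
    exacts [k2.1 k1, hne k1, k2.2 k1]

/-- From an adapted display at time `2 tt` to the list with the two halves. -/
theorem OK.split_red (h : W.OK) (hf : 0 < f) (hf' : f ≤ 1 / 16) {l1 l2 : List (It ι)} {a : ℕ}
    {k : ℤ} {Q : Bx ι} (hQ : BX k Q) (hd : Q.den W.ν < 1) {j : ι} (hj : Q.Long j) {ε : ℝ}
    {p q p1 q2 : E ι} {Ξ Ξ1 Ξ2 : ℝ × E ι → E ι} (had : Adapt W.i0 W.K0 p q j ε Ξ Ξ1 Ξ2 p1 q2)
    (np : W.Neck (k - 1) (Q.af p)) (nq : W.Neck (k - 1) (Q.af q)) (hl : W.LOk F0 (l1 ++ l2))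
    (ha : ∀ b ∈ l1 ++ l2, b.a ≠ a) (hF : FO F0 (nk k Q)) {R : GB ι} (hR : R.Valid f) {L : ℝ}
    (n1 : W.cg f * (W.ts l1 + W.ta Q + W.ts l2) ≤ 2 * L) (n2 : 2 * L + W.cg f * W.ta Q ≤ 2 * R.sz)
    {c c' : ℝ} (c1 : 1 ≤ c') (c2 : c' < c) :
    ∃ b1 b2 R', Kids k Q b1 b2 ∧ b1.Q = Q.H j (-ε) ∧ b2.Q = Q.H j ε ∧
      W.LOk F0 (l1 ++ b1 :: b2 :: l2) ∧ Sim f R R' L ∧
      Red W.U0 F0
        (pbS R (sphD W.i0 W.y0 (W.ts l1 + (W.ta Q + W.ts l2)) (cat (W.ts l1) (W.lb l1)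
          (cat (W.ta Q) (W.bb a (k - 1) (2 * W.tt Q) Q Ξ (W.ta Q)) (W.lb l2))))
          (srcL (lsI l1 ++ (a, Q) :: lsI l2)) c)
        {W.pbL (l1 ++ b1 :: b2 :: l2) R' c'} := by
  classical
  obtain ⟨a2, ha2⟩ := Infinite.exists_notMem_finset (insert a ((l1 ++ l2).map It.a).toFinset)
  rw [Finset.mem_insert, not_or, List.mem_toFinset, List.mem_map] at ha2
  have hl' := h.lok_kids hQ hd hj had np nq hl ha (fun b k1 k2 => ha2.2 ⟨b, k1, k2⟩)
    (Ne.symm ha2.1) hF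
  set b1 : It ι := ⟨a, nk k Q, Q.H j (-ε), p1, Pi.single j ε, j, Ξ1⟩ with hb1
  set b2 : It ι := ⟨a2, nk k Q, Q.H j ε, Pi.single j (-ε), q2, j, Ξ2⟩ with hb2
  have i1 : W.IOk b1 := (hl'.1 b1 (by simp)).1
  have i2 : W.IOk b2 := (hl'.1 b2 (by simp)).1
  have hP := hQ.two.1
  have hk : nk k Q - 1 ≤ k - 1 := by linarith only [nk_le_g k Q]
  have hl1 := hl.subl (List.sublist_append_left l1 l2)
  have hl2 := hl.subl (List.sublist_append_right l1 l2)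
  have s1 := (h.ts_bd hl1).1
  have s2 := (h.ts_bd hl2).1
  obtain ⟨pt, -, pa, -⟩ := h.tt_bd hP
  have a0 : 0 < W.a0 := by linarith only [h.consts.2.2.2.1, hf, hf']
  have q0 := mul_pos a0 pa
  have q1 := mul_nonneg a0.le s1
  have q2' := mul_nonneg a0.le s2
  obtain ⟨-, u1, u2⟩ := h.cg_le hf hf' (by linarith only [pa, s1, s2]) n1
  obtain ⟨-, u3, u4⟩ := h.cg_le hf hf' pa.le (y := 2 * (R.sz - L)) (by linarith only [n2])
  have pL : 0 < L := by linarith only [u2 (by linarith only [pa, s1, s2]), pa, s2]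
  have pD : L < R.sz := by linarith only [u4 pa, pa]
  have hls : LsOk F0 (lsI l1 ++ (a, Q.H j (-ε)) :: (a2, Q.H j ε) :: lsI l2) := by
    have := hl'.ls
    rwa [lsI_append] at this
  have e2 : 2 * (W.ta Q / 2) = W.ta Q := by ring
  have h0 : ((lsI l1 ++ (a, Q) :: lsI l2).map Prod.fst).Nodup := by
    rw [List.map_append, List.map_cons, List.nodup_middle, List.nodup_cons, ← List.map_append,
      ← lsI_append, lsI_fst]
    exact ⟨fun k1 => (List.mem_map.1 k1).elim fun b k2 => ha b k2.1 k2.2, hl.2⟩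
  have th := fun s => h.tt_half hP j s
  have tL : W.tt (Q.L j) ≤ 2 * W.tt Q := by
    have := (th (-1)).1
    rwa [Bx.H, if_neg (by norm_num)] at this
  have tR : W.tt (Q.R j) ≤ 2 * W.tt Q := by
    have := (th 1).1
    rwa [Bx.H, if_pos one_pos] at this
  -- the notch
  have r1 := h.notch_red (F0 := F0) hf hf' (hQ.lb.down (hk.trans (by omega)))
    (fun i => (hQ.mid' i).of_le hk) had (np.down hk) (nq.down hk) (h.neck_mid hQ hd).2 h0 hls
    (h.tm_le_half hQ hj tL tR) hQ.sd_sc (half_pos pa)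
    (le_of_eq (by unfold EV.a0 ta; ring)) (h.lb_bnd hl1 (by linarith only [q0, q2']))
    (h.lb_bnd hl2 (by linarith only [q0, q1])) hR (L := (L + R.sz) / 2) (by linarith only [pD, pL]) (by linarith only [pD])
    (by linarith only [mul_pos hf (sub_pos.2 pD), q0, q1, q2', u1, u3]) (by linarith only [q0, u3]) (c := c) (c' := (c + c') / 2)
    (by linarith only [c1, c2]) (by linarith only [c2])
  rw [e2] at r1
  have m1 := Sim.hom hf hf' hR (L := (L + R.sz) / 2) (by linarith only [pD, pL])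
  have m2 := Sim.hom hf hf' m1.valid pL
  refine ⟨b1, b2, _, ⟨j, ε, had.sg, hj, rfl, rfl, rfl, rfl⟩, rfl, rfl, hl',
    Sim.trans hf hf' hR m1 m2, ?_⟩
  refine (Red.data (fun x hx => ?_) (fun _ _ => Iff.rfl) le_rfl).trans1 (r1.trans1 ?_)
  · refine sphD_ap (by linarith only [pa, s1, s2]) (fun n hn ω hω => cat_ap (fun _ _ => Ap.rfl)
      (cat_ap (bb_ap pa fun m hm => ?_) fun _ _ => Ap.rfl) n hn) hx
    exact h.switch hQ (by linarith only [pt]) _ (hP.af_mem_bd.2 (had.d.2.1 () trivial m hm ω hω))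
  -- the movie of times and lengths
  have eta : W.tt Q * Q.sc = W.ta Q := rfl
  have it : ∀ b : It ι, W.IOk b → ∀ s, b.Q = Q.H j s →
      Bnd (UL W.U0) W.i0 (pth (W.ta Q / 2) (W.ta b.Q)) (bdL [(b.a, b.Q)]) W.a0 (W.a0 * W.ta Q)
        (4 * (W.a0 * W.ta Q)) fun r => W.bb b.a (b.k - 1) (pth (2 * W.tt Q) (W.tt b.Q) r) b.Q b.Ξ
          (pth (W.ta Q / 2) (W.ta b.Q) r) := fun b ib s es => by
    have t1 := th s
    rw [← es] at t1
    have t2 := (h.tt_bd ib.bx.two.1).2.2.1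
    have t3 : W.tt b.Q * b.Q.sc = W.ta b.Q := rfl
    exact h.item b.a ib.bx ib.np ib.nq (ib.mem.2.2.1.const.mono h.ds.p1) t1.1 le_rfl le_rfl t1.1
      t1.2.2.1 (by linarith only [mul_le_mul_of_nonneg_left t1.2.2.1 pt.le, eta, pt, t1]) (by linarith only [t2, t3])
      (by linarith only [eta, pa]) (by linarith only [t1.2.1, eta, t1])
  have lp : ∀ s r r', |pth (W.ta Q / 2) (W.ta (Q.H j s)) r' - pth (W.ta Q / 2) (W.ta (Q.H j s)) r|
      ≤ 2 * W.ta Q * |r' - r| := fun s => by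
    have t2 : 0 < W.ta (Q.H j s) := (h.tt_bd (hQ.H hj s).1.two.1).2.2.1
    exact pth_lip (by linarith only [(th s).2.1, pa]) (by linarith only [pa, t2])
  have nd := hls.1
  have nd1 : (([(a, Q.H j (-ε))] ++ ([(a2, Q.H j ε)] ++ lsI l2)).map Prod.fst).Nodup :=
    nd.sublist ((List.sublist_append_right _ _).map _)
  have nd2 : (([(a2, Q.H j ε)] ++ lsI l2).map Prod.fst).Nodup :=
    nd1.sublist ((List.sublist_append_right _ _).map _)
  have B2 := (((it b2 i2 ε rfl).up (b' := W.a0 * (W.ts l1 + W.ta Q + W.ts l2)) (by linarith only [q1, q2'])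
    le_rfl).catL (Bnd.up (h.lb_bnd hl2 (by linarith only [q0, q1])) le_rfl (by linarith only [q0])) a0.le (by linarith only [pa])
    nd2 (lp ε))
  have B1 := (((it b1 i1 (-ε) rfl).up (by linarith only [q1, q2']) (by linarith only [q0])).catL B2 a0.le (by linarith only [pa])
    nd1 (lp (-ε)))
  have B0 := (Bnd.up (h.lb_bnd hl1 (by linarith only [q0, q2'])) le_rfl (by linarith only [q0])).catL B1 a0.le le_rfl nd
    fun _ _ => by simp
  have es : srcL (lsI (l1 ++ b1 :: b2 :: l2)) =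
      srcL (lsI l1 ++ (a, Q.H j (-ε)) :: (a2, Q.H j ε) :: lsI l2) := by
    rw [lsI_append]
    rfl
  unfold pbL
  rw [es]
  refine h.bnd_red hf hf' hls m1.valid B0 (τ := W.ts l1 + 4 * W.ta Q + W.ts l2)
    (p := 4 * W.ta Q) (by linarith only [q0, q1, q2']) (by linarith only [q0]) (by linarith only [pa]) (fun r hr => ?_)
    (fun r r' => ?_) (fun x _ => Ap.of_eq ?_) (fun x hx => ?_) pL (by rw [m1.sz]; linarith only [pD])
    (by linarith only [q0, q1, q2', u1]) (by rw [m1.sz]; linarith only [q0, u3]) c1 (by linarith only [c2])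
  · have v : ∀ s, 0 < pth (W.ta Q / 2) (W.ta (Q.H j s)) r ∧
        pth (W.ta Q / 2) (W.ta (Q.H j s)) r ≤ 2 * W.ta Q := fun s =>
      ⟨pth_pos hr (half_pos pa) (h.tt_bd (hQ.H hj s).1.two.1).2.2.1,
        pth_le hr (by linarith only [pa]) (th s).2.1⟩
    constructor <;> linarith only [v ε, v (-ε), s1, s2]
  · have v1 := abs_le.1 (lp ε r r')
    have v2 := abs_le.1 (lp (-ε) r r')
    exact abs_le.2 ⟨by linarith only [v1.1, v2.1, v1, v2], by linarith only [v1.2, v2.2, v1, v2]⟩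
  · simp only [pth_zero]
    rfl
  · simp only [pth_one]
    have := h.sph_append hl' hx
    rwa [ts_cons, ts_cons] at this

/-- Replacing an item by its two halves. -/
theorem OK.refine_red (h : W.OK) (hf : 0 < f) (hf' : f ≤ 1 / 16) {l1 l2 : List (It ι)} {b : It ι}
    (hl : W.LOk F0 (l1 ++ b :: l2)) (hd : b.Q.den W.ν < 1) (hF : FO F0 (nk b.k b.Q)) {R : GB ι}
    (hR : R.Valid f) {L : ℝ} (n1 : W.cg f * W.ts (l1 ++ b :: l2) ≤ L)
    (n2 : L + W.cg f * W.ta b.Q ≤ R.sz) {c c' : ℝ} (c1 : 1 ≤ c') (c2 : c' < c) :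
    ∃ b1 b2 R', Kids b.k b.Q b1 b2 ∧ W.LOk F0 (l1 ++ b1 :: b2 :: l2) ∧ Sim f R R' L ∧
      Red W.U0 F0 (W.pbL (l1 ++ b :: l2) R c) {W.pbL (l1 ++ b1 :: b2 :: l2) R' c'} := by
  have ib : W.IOk b := (hl.1 b (by simp)).1
  obtain ⟨j', hj1, hj2⟩ := ib.long
  obtain ⟨ε, Ξ', Ξ1, Ξ2, p1, q2, ⟨M, hM, eM⟩, had⟩ := h.ds.d1 _ _ _ _ j' ib.good hj1
  have hl0 : W.LOk F0 (l1 ++ l2) :=
    hl.subl ((List.Sublist.refl l1).append (List.sublist_cons_self b l2))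
  have hl1 := hl0.subl (List.sublist_append_left l1 l2)
  have hl2 := hl0.subl (List.sublist_append_right l1 l2)
  have s1 := (h.ts_bd hl1).1
  have s2 := (h.ts_bd hl2).1
  obtain ⟨pt, -, pa, -⟩ := h.tt_bd ib.bx.two.1
  have a0 : 0 < W.a0 := by linarith only [h.consts.2.2.2.1, hf, hf']
  have q0 := mul_pos a0 pa
  have q1 := mul_nonneg a0.le s1
  have q2' := mul_nonneg a0.le s2
  rw [ts_append, ts_cons] at n1
  obtain ⟨-, u1, u2⟩ := h.cg_le hf hf' (by linarith only [pa, s1, s2]) n1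
  obtain ⟨-, u3, u4⟩ := h.cg_le hf hf' pa.le (y := R.sz - L) (by linarith only [n2])
  have pL : 0 < L := u2 (by linarith only [pa, s1, s2])
  have pD : L < R.sz := by linarith only [u4 pa, pa]
  have m1 := Sim.hom hf hf' hR (L := (L + R.sz) / 2) (by linarith only [pD, pL])
  have ha : ∀ b' ∈ l1 ++ l2, b'.a ≠ b.a := fun b' k1 k2 => by
    have n0 := hl.2
    rw [List.map_append, List.map_cons, List.nodup_middle, List.nodup_cons,
      ← List.map_append] at n0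
    exact n0.1 (List.mem_map.2 ⟨b', k1, k2⟩)
  obtain ⟨b1, b2, R', k1, -, -, k2, k3, k4⟩ := h.split_red hf hf' ib.bx hd hj2 had ib.np ib.nq hl0
    ha hF m1.valid (L := L) (by rw [add_assoc]; linarith only [n1, pL]) (by rw [m1.sz]; linarith only [n2]) c1
    (show c' < (c + c') / 2 by linarith only [c2])
  refine ⟨b1, b2, R', k1, k2, Sim.trans hf hf' hR m1 k3, Red.trans1 ?_ k4⟩
  have hls : LsOk F0 (lsI l1 ++ ([(b.a, b.Q)] ++ lsI l2)) := by
    have := hl.ls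
    rwa [lsI_append] at this
  have eta : W.tt b.Q * b.Q.sc = W.ta b.Q := rfl
  have B := h.item b.a ib.bx ib.np ib.nq hM (t0 := W.tt b.Q) (t1 := 2 * W.tt b.Q)
    (l0 := W.ta b.Q) (l1 := W.ta b.Q) (T := W.tt b.Q) (s := b.Q.sc) le_rfl (by linarith only [pt])
    (by linarith only [pt]) le_rfl le_rfl (by linarith only [eta, pa]) (by linarith only [eta, pa]) (by linarith only [eta, pa]) (by linarith only [eta, pa])
  rw [eta] at B
  have lp : ∀ r r', |pth (W.ta b.Q) (W.ta b.Q) r' - pth (W.ta b.Q) (W.ta b.Q) r| ≤ 0 * |r' - r| :=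
    pth_lip (by linarith only []) (by linarith only [])
  have nd := hls.1
  have nd1 : (([(b.a, b.Q)] ++ lsI l2).map Prod.fst).Nodup :=
    nd.sublist ((List.sublist_append_right _ _).map _)
  have B1 := (B.up (b' := W.a0 * (W.ts l1 + W.ta b.Q + W.ts l2)) (by linarith only [q1, q2']) le_rfl).catL
    (Bnd.up (h.lb_bnd hl2 (by linarith only [q0, q1])) le_rfl (by linarith only [q0])) a0.le le_rfl nd1 lp
  have B0 := (Bnd.up (h.lb_bnd hl1 (by linarith only [q0, q2'])) le_rfl (by linarith only [q0])).catL B1 a0.le le_rfl nd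
    fun _ _ => by simp
  have es : srcL (lsI (l1 ++ b :: l2)) = srcL (lsI l1 ++ ([(b.a, b.Q)] ++ lsI l2)) := by
    rw [lsI_append]
    rfl
  unfold pbL
  rw [es]
  refine h.bnd_red hf hf' hls hR B0 (τ := W.ts l1 + W.ta b.Q + W.ts l2) (p := 0) (by linarith only [q0, q1, q2'])
    (by linarith only [q0]) le_rfl (fun r hr => ?_) (fun r r' => ?_) (fun x hx => ?_) (fun x hx => ?_)
    (by linarith only [pD, pL]) (by linarith only [pD]) (by linarith only [mul_pos hf (sub_pos.2 pD), q0, q1, q2', u1, u3]) (by linarith only [q0, u3])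
    (by linarith only [c1, c2]) (by linarith only [c2])
  · have v1 := pth_pos hr pa pa
    have v2 := pth_le hr (le_refl (W.ta b.Q)) le_rfl
    constructor <;> linarith only [s1, s2, v1, v2]
  · have v1 := abs_le.1 (lp r r')
    exact abs_le.2 ⟨by linarith only [v1.1, v1], by linarith only [v1.2, v1]⟩
  · simp only [pth_zero]
    refine (h.sph_append hl hx).trans ?_
    rw [ts_cons]
    exact sphD_ap (by linarith only [pa, s1, s2]) (fun n hn ω hω => cat_ap (fun _ _ => Ap.rfl)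
      (cat_ap (bb_ap pa fun m hm => Ap.of_eq (by rw [(eM m hm ω hω).1])) fun _ _ => Ap.rfl) n hn)
      hx
  · simp only [pth_one]
    exact sphD_ap (by linarith only [pa, s1, s2]) (fun n hn ω hω => cat_ap (fun _ _ => Ap.rfl)
      (cat_ap (bb_ap pa fun m hm => Ap.of_eq (by rw [(eM m hm ω hω).2])) fun _ _ => Ap.rfl) n hn)
      hx

/-- The homothetic shell with standard data composed with a movie of maps of the sphere. -/
theorem OK.smov_red (h : W.OK) (hf : 0 < f) (hf' : f ≤ 1 / 16) (a : ℕ) {k : ℤ} {Q : Bx ι}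
    (hQ : BX k Q) (hF : FO F0 k) {t0 t1 T : ℝ} (a0 : W.tt Q ≤ t0) (a1 : W.tt Q ≤ t1)
    (b0 : t0 ≤ 2 * T) (b1 : t1 ≤ 2 * T) {p q : E ι} (hp : ‖p‖ = 1) (hq : ‖q‖ = 1)
    (np : W.Neck (k - 1) (Q.af p)) (nq : W.Neck (k - 1) (Q.af q)) {O0 O1 : E ι → E ι}
    (hm : SMov W.K1 p q O0 O1) {R : GB ι} (hR : R.Valid f) {γ0 γ1 : E ι → YL ι}
    (e0 : ∀ x, ‖x‖ = 1 → Ap (UL W.U0) (γ0 x) (a, W.P (k - 1) (t0, Q.af (O0 x))))
    (e1 : ∀ x, ‖x‖ = 1 → Ap (UL W.U0) (γ1 x) (a, W.P (k - 1) (t1, Q.af (O1 x)))) {L : ℝ}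
    (n1 : W.cg f * (T * Q.sc) ≤ 2 * L) (n2 : 2 * L + W.cg f * (T * Q.sc) ≤ 2 * R.sz) {c c' : ℝ}
    (c1 : 1 ≤ c') (c2 : c' < c) :
    Red W.U0 F0 (pbS R γ0 (srcL [(a, Q)]) c) {pbS (R.hom (L / R.sz)) γ1 (srcL [(a, Q)]) c'} := by
  obtain ⟨M, hM, eM⟩ := hm
  obtain ⟨k0, k1, -, k2, -⟩ := h.consts
  have pt := (h.tt_bd hQ.two.1).1
  have ps := hQ.two.1.sc_pow.1
  have pT : 0 < T * Q.sc := mul_pos (by linarith only [a0, b0, pt]) ps
  obtain ⟨-, u1, u2⟩ := h.cg_le hf hf' pT.le n1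
  obtain ⟨-, u3, u4⟩ := h.cg_le hf hf' pT.le (y := 2 * (R.sz - L)) (by linarith only [n2])
  have pm : 0 < max t0 t1 := pt.trans_le (a0.trans (le_max_left _ _))
  have p1 : 0 ≤ W.K * max t0 t1 * Q.sc := by positivity
  have s := sol_smov (β1 := fun _ => W.y0) (M0 := fun _ => W.y0) p1
    (h.std a hQ a0 a1 fun _ => W.y0) hp hq (fun r hr => ?_) hM
  · have v1 : W.K * max t0 t1 * Q.sc * W.K1 ≤ W.a0 * (T * Q.sc) / 4 := by
      have : max t0 t1 * Q.sc ≤ 2 * T * Q.sc := mul_le_mul_of_nonneg_right (max_le b0 b1) ps.le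
      unfold EV.a0
      linarith only [mul_le_mul_of_nonneg_left this (show 0 ≤ W.K * W.K1 by positivity), k0, k1, this]
    have v2 : W.K * max t0 t1 * Q.sc ≤ W.K * max t0 t1 * Q.sc * W.K1 :=
      le_mul_of_one_le_right p1 k1
    refine hom_red h.hU h.hne hf hf' (lsok_single a hQ hF) hR (by linarith only [p1, v2]) (by linarith only [p1, v2]) s
      (fun x hx => ?_) (fun x hx => ?_) (by linarith only [u2 pT, pT]) (by linarith only [u4 pT, pT]) (by linarith only [p1, u1, v1, v2])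
      (by linarith only [p1, u3, v1, v2]) c1 c2
    · have := e0 x hx
      rw [← (eM x (mem_sphere_zero_iff_norm.2 hx)).1] at this
      simpa using this
    · have := e1 x hx
      rw [← (eM x (mem_sphere_zero_iff_norm.2 hx)).2] at this
      simpa using this
  · have ht := h.tm_le hQ (le_pth hr a0 a1)
    exact ⟨h.neck (hQ.lb.down (by omega)) ht (hQ.two.1.af_mem.2 hp.le) np,
      h.neck (hQ.lb.down (by omega)) ht (hQ.two.1.af_mem.2 hq.le) nq⟩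

/-- From the standard problem to the list of the two halves. -/
theorem OK.std_red (h : W.OK) (hf : 0 < f) (hf' : f ≤ 1 / 16) (a : ℕ) {k : ℤ} {Q : Bx ι}
    (hQ : BX k Q) (hd : Q.den W.ν < 1) (hF : FO F0 k) (hF' : FO F0 (nk k Q)) {j : ι}
    (hj : Q.Long j) {t : ℝ} (ht : W.tt Q ≤ t) {R : GB ι} (hR : R.Valid f) {L : ℝ} (n1 : W.cg f * W.ta Q ≤ L)
    (n2 : L + W.cg f * (t * Q.sc) ≤ R.sz) {c c' : ℝ} (c1 : 1 ≤ c') (c2 : c' < c) :
    ∃ b1 b2 R', Kids k Q b1 b2 ∧ b1.Q = Q.L j ∧ b2.Q = Q.R j ∧ W.LOk F0 [b1, b2] ∧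
      Sim f R R' L ∧
      Red W.U0 F0 (W.pbT a k Q t R c) {W.pbL [b1, b2] R' c'} := by
  obtain ⟨O, Ξ, Ξ1, Ξ2, p1, q2, hO, had, hm⟩ := h.ds.d3 j
  obtain ⟨R1, m1, r1⟩ := (sp_red (U0 := W.U0) (F0 := F0) hf hf' hR hO
    (fun x => (a, W.P (k - 1) (t, Q.af x))) (srcL [(a, Q)]) c).2
  obtain ⟨pt, -, pa, -⟩ := h.tt_bd hQ.two.1
  have ps := hQ.two.1.sc_pow.1
  have pc := h.cg_pos hf
  have v1 : W.cg f * W.ta Q ≤ W.cg f * (t * Q.sc) :=
    mul_le_mul_of_nonneg_left (mul_le_mul_of_nonneg_right ht ps.le) pc.le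
  have v2 := mul_pos pc pa
  have np := h.neck_face hQ hd j (Or.inr rfl)
  have nq := h.neck_face hQ hd j (Or.inl rfl)
  have hp := norm_single_sg j (Or.inr rfl : (-1 : ℝ) = 1 ∨ (-1 : ℝ) = -1)
  have hq := norm_single_sg j (Or.inl rfl : (1 : ℝ) = 1 ∨ (1 : ℝ) = -1)
  have m2 := Sim.hom hf hf' m1.valid (L := (L + R.sz) / 2) (by linarith only [n1, n2, v1, v2])
  obtain ⟨b1, b2, R', k1, k2, k3, k4, k5, k6⟩ := h.split_red (l1 := []) (l2 := []) (a := a) hf hf'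
    hQ hd hj had np nq ⟨fun _ k => by simp at k, by simp⟩ (fun _ k => by simp at k) hF' m2.valid
    (L := L) (by rw [ts_nil]; linarith only [n1, v2]) (by rw [m2.sz]; linarith only [n2, v1]) c1
    (show c' < (c + c') / 2 by linarith only [c2])
  rw [Bx.H, if_neg (by norm_num)] at k2
  rw [Bx.H, if_pos one_pos] at k3
  refine ⟨b1, b2, R', k1, k2, k3, k4,
    Sim.trans hf hf' hR (Sim.trans hf hf' hR m1 m2) k5, r1.trans1 (Red.trans1 ?_ k6)⟩
  have tm2 := h.tm_le hQ (show W.tt Q ≤ 2 * W.tt Q by linarith only [pt])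
  refine h.smov_red hf hf' a hQ hF (t0 := t) (t1 := 2 * W.tt Q) (T := t) ht (by linarith only [pt])
    (by linarith only [ht, pt]) (by linarith only [ht]) hp hq np nq hm m1.valid (fun _ _ => Ap.rfl) (fun x hx => ?_)
    (by linarith only [n1, n2, v2]) (by rw [m1.sz]; linarith only [n2]) (by linarith only [c1, c2]) (by linarith only [c2])
  refine Ap.trans ?_ (h.sph_hat a (hQ.lb.down (by omega)) tm2 hp hq np nq Ξ pa hx)
  rw [ts_nil, zero_add, add_zero]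
  refine sphD_ap pa.le (fun n hn ω hω => ?_) hx
  by_cases e : n ≤ 0
  · have e' : n = 0 := le_antisymm e hn.1
    subst e'
    refine Ap.of_not ?_ ?_
    · simp only [cat, le_refl, if_true]
      exact h.hy'
    · show W.P (k - 1) (2 * W.tt Q, Q.af (Ξ (0 / W.ta Q, ω))) ∉ W.U0
      rw [zero_div, show Ξ (0, ω) = _ from (had.d.2.2 () trivial ω hω).1]
      exact h.neck (hQ.lb.down (by omega)) tm2 (hQ.two.1.af_mem.2 hp.le) np
  · refine Ap.of_eq ?_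
    simp only [cat, e, if_false, sub_zero, hn.2, if_true]

/-- From a single item to the standard problem. -/
theorem OK.single_red (h : W.OK) (hf : 0 < f) (hf' : f ≤ 1 / 16) {b : It ι} (hl : W.LOk F0 [b])
    {t : ℝ} (ht : W.tt b.Q ≤ t) {R : GB ι} (hR : R.Valid f) {L : ℝ}
    (n1 : W.cg f * (t * b.Q.sc) ≤ L) (n2 : L + W.cg f * (t * b.Q.sc) ≤ R.sz) {c c' : ℝ}
    (c1 : 1 ≤ c') (c2 : c' < c) :
    ∃ R', Sim f R R' L ∧ Red W.U0 F0 (W.pbL [b] R c) {W.pbT b.a b.k b.Q t R' c'} := by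
  obtain ⟨ib, hF⟩ := hl.1 b (by simp)
  obtain ⟨O, hO, hm⟩ := h.ds.d2 _ _ _ _ ib.good
  obtain ⟨pt, -, pa, -⟩ := h.tt_bd ib.bx.two.1
  have ps := ib.bx.two.1.sc_pow.1
  have v2 := mul_pos (h.cg_pos hf) (mul_pos (pt.trans_le ht) ps)
  have m1 := Sim.hom hf hf' hR (L := L) (by linarith only [n1, v2])
  obtain ⟨R', m2, r2⟩ := (sp_red (U0 := W.U0) (F0 := F0) hf hf' m1.valid hO
    (fun x => (b.a, W.P (b.k - 1) (t, b.Q.af x))) (srcL [(b.a, b.Q)]) c').1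
  rw [m1.sz] at m2
  refine ⟨R', Sim.trans hf hf' hR m1 m2, Red.trans1 ?_ r2⟩
  refine h.smov_red hf hf' b.a ib.bx hF (t0 := W.tt b.Q) (t1 := t) (T := t) le_rfl ht
    (by linarith only [ht, pt]) (by linarith only [ht, pt]) ib.mem.1 ib.mem.2.1 ib.np ib.nq hm hR (fun x hx => ?_)
    (fun _ _ => Ap.rfl) (by linarith only [n1, v2]) (by linarith only [n2, v2]) c1 c2
  refine Ap.trans ?_ (h.sph_hat b.a (ib.bx.lb.down (by omega)) (h.tm_le ib.bx le_rfl) ib.mem.1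
    ib.mem.2.1 ib.np ib.nq b.Ξ pa hx)
  rw [ts_cons, ts_nil, add_zero]
  refine sphD_ap pa.le (fun n hn ω _ => Ap.of_eq ?_) hx
  simp only [lb, cat, hn.2, if_true]

/-- Cutting a list. -/
theorem OK.cutl_red (h : W.OK) (hf : 0 < f) (hf' : f ≤ 1 / 16) {l1 l2 : List (It ι)}
    (e1 : l1 ≠ []) (e2 : l2 ≠ []) (hl : W.LOk F0 (l1 ++ l2)) {R R1 R2 : GB ι} (hR : R.Valid f)
    {i : ι} {c0 : ℝ} (hc : GB.IsCut f R i c0 R1 R2) (sg : Bool) {L : ℝ}
    (n1 : W.cg f * W.ts (l1 ++ l2) ≤ L) (n2 : L + W.cg f * W.ts (l1 ++ l2) ≤ R.sz) {c c' : ℝ}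
    (c1 : 1 ≤ c') (c2 : c' < c) :
    ∃ R1' R2' : GB ι, Sim f (if sg then R2 else R1) R1' (L / R.sz * (if sg then R2 else R1).sz) ∧
      Sim f (if sg then R1 else R2) R2' (L / R.sz * (if sg then R1 else R2).sz) ∧
      Red W.U0 F0 (W.pbL (l1 ++ l2) R c) {W.pbL l1 R1' c', W.pbL l2 R2' c'} := by
  have hl1 := hl.subl (List.sublist_append_left l1 l2)
  have hl2 := hl.subl (List.sublist_append_right l1 l2)
  have s1 := (h.ts_bd hl1).2.1 e1
  have s2 := (h.ts_bd hl2).2.1 e2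
  have a0 : 0 < W.a0 := by linarith only [h.consts.2.2.2.1, hf, hf']
  rw [ts_append] at n1 n2
  have q1 := mul_pos a0 s1
  have q2 := mul_pos a0 s2
  obtain ⟨u1, -, u2⟩ := h.cg_le hf hf' (add_pos s1 s2).le n1
  obtain ⟨u3, -, u4⟩ := h.cg_le hf hf' (add_pos s1 s2).le (y := R.sz - L) (by linarith only [n2])
  have hls := hl.ls
  rw [lsI_append] at hls
  obtain ⟨R1', R2', k1, k2, k3⟩ := cut_red h.hU h.hne hf hf' hls h.hy' s1 s2 a0
    (h.lb_bnd hl1 (by linarith only [q2])) (h.lb_bnd hl2 (by linarith only [q1])) hR hc sg (u2 (add_pos s1 s2))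
    (by linarith only [u4 (add_pos s1 s2), s1, s2]) (by linarith only [q1, q2, u1]) (by linarith only [q1, q2, u3]) c1 c2
  refine ⟨R1', R2', k1, k2, Red.trans1 ?_ k3⟩
  rw [← lsI_append]
  exact Red.data (fun x hx => h.sph_append hl hx) (fun _ _ => Iff.rfl) le_rfl

theorem OK.cubeL_red (h : W.OK) (hf : 0 < f) (hf' : f ≤ 1 / 16) {l : List (It ι)} (e1 : l ≠ [])
    (hl : W.LOk F0 l) {R : GB ι} (hR : R.Valid f) (n1 : W.cg f * W.ts l ≤ R.sz) {c c' : ℝ}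
    (c1 : 1 ≤ c') (c2 : c' < c) :
    Red W.U0 F0 (W.pbL l R c) {W.pbL l (cubeC R.o (R.wmin / 2)).gb c'} := by
  have s1 := (h.ts_bd hl).2.1 e1
  have a0 : 0 < W.a0 := by linarith only [h.consts.2.2.2.1, hf, hf']
  have q1 := mul_pos a0 s1
  obtain ⟨u1, -, -⟩ := h.cg_le hf hf' s1.le n1
  have s := Bnd.sph (h.lb_bnd hl le_rfl) (τ := W.ts l) (p := 0) (v1 := 1) (v2 := 0)
    (υ := fun _ m => m) a0.le q1.le le_rfl zero_le_one le_rfl h.hy' (fun _ _ => ⟨s1, le_rfl⟩)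
    (fun _ _ _ _ => by simp) (fun _ _ => ⟨bijOn_id _, rfl, rfl⟩)
    (fun _ _ _ _ _ _ _ _ => by simp) (fun _ => W.y0)
  exact cube_red h.hU h.hne hf hf' hl.ls hR (a := 2 * (W.a0 * W.ts l)) (by linarith only [q1])
    (sol_gs_le s (by linarith only [q1]) (by linarith only [q1])) (fun _ _ => Ap.rfl) (fun _ _ => Ap.rfl)
    (by linarith only [q1, u1]) c1 c2

theorem OK.nestT_red (h : W.OK) (a : ℕ) {k : ℤ} {Q : Bx ι} (hQ : BX k Q) (hF : FO F0 k) {t : ℝ}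
    (ht : W.tt Q ≤ t) {Q' : Bx ι} {L m m' : ℝ} (hL : 0 < L) (hm : 0 < m) (hm' : m' ≤ L)
    (hs : ∀ i, L + 2 * m ≤ Q'.sd i ∧ Q'.sd i ≤ L + 2 * m') (hn : 100 * W.K * (t * Q.sc) ≤ m)
    {c c' : ℝ} (c1 : 1 ≤ c') (c2 : c' < c) :
    Red W.U0 F0 (W.pbT a k Q t Q'.gb c) {W.pbT a k Q t (cubeC 0 L).gb c'} := by
  have s := h.std a hQ ht ht fun _ => W.y0
  rw [max_self] at s
  have k0 := h.consts.1
  have pt := (h.tt_bd hQ.two.1).1.trans_le ht
  have ps := hQ.two.1.sc_pow.1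
  exact nest_red h.hU h.hne (lsok_single a hQ hF) hL hm hm' hs (by positivity) s
    (fun _ _ => Ap.of_eq (by simp)) (fun _ _ => Ap.of_eq (by simp)) (by linarith only [hn]) c1 c2

/-- Entering the martingale mode. -/
theorem OK.entry_red (h : W.OK) (hf : 0 < f) (hf' : f ≤ 1 / 16) {fc : FC}
    (hfc : fc.Good (ι := ι) f) (a : ℕ) {k : ℤ} {Q : Bx ι} (hQ : BX k Q) {t : ℝ} (ht : W.tt Q ≤ t)
    {R : GB ι} (hR : R.Valid f) (hr : R.Fin f) {L : ℝ} (n1 : W.cg f * (t * Q.sc) ≤ L)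
    (n2 : L + W.cg f * (t * Q.sc) ≤ R.sz) {c c' : ℝ} (c1 : 1 ≤ c') (c2 : c' < c) :
    ∃ (F : FD ι) (R' : GB ι), FSt fc f Q F ∧ FRel f Q F R' ∧ pot fc Q F = 0 ∧
      F.a0 Q = L ^ Fintype.card ι ∧ R'.vol = L ^ Fintype.card ι ∧
      Red W.U0 ∅ (W.pbT a k Q t R c) {W.pbT a k Q t R' c'} := by
  have s := h.std a hQ ht ht fun _ => W.y0
  rw [max_self] at s
  obtain ⟨k0, k1, -, k2, -⟩ := h.consts
  have pt := (h.tt_bd hQ.two.1).1.trans_le ht
  have ps := hQ.two.1.sc_pow.1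
  have pT := mul_pos pt ps
  obtain ⟨-, u1, u2⟩ := h.cg_le hf hf' pT.le n1
  obtain ⟨-, u3, u4⟩ := h.cg_le hf hf' pT.le (y := R.sz - L) (by linarith only [n2])
  have p1 : 0 ≤ W.K * t * Q.sc := by positivity
  have v1 : W.K * t * Q.sc ≤ W.a0 * (t * Q.sc) := by
    unfold EV.a0
    linarith only [le_mul_of_one_le_right p1 k1, k1, p1]
  have pL := u2 pT
  have pD : L < R.sz := by linarith only [u4 pT, pT]
  obtain ⟨Q', hP, hv, hw, r⟩ := rect_red (F0 := ∅) h.hU h.hne hf hf'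
    (lsok_single a hQ (fo_empty k)) hR hr.1 p1 s
    (γ0 := fun x => (a, W.P (k - 1) (t, Q.af x))) (γ1 := fun x => (a, W.P (k - 1) (t, Q.af x)))
    (fun _ _ => Ap.of_eq (by simp)) (fun _ _ => Ap.of_eq (by simp)) pL pD (by linarith only [p1, u1, v1])
    (by linarith only [p1, u3, v1]) c1 c2
  obtain ⟨-, d2, d3, -, -, d6, d7, -⟩ := N.consts (ι := ι) hf hf'
  have pq : 0 < L / R.sz := div_pos pL (pL.trans pD)
  have asp : ∀ i j, Q'.sd i ≤ 5 / 4 * Mp f * Q'.sd j := fun i j => by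
    have w1 : L / R.sz * R.w i ≤ Mp f * (L / R.sz * R.w j) := by
      linarith only [mul_le_mul_of_nonneg_left (hr.2 i j) pq.le, pq]
    have w2 := mul_pos pq (hR.pos j)
    have w3 := mul_pos pq (hR.pos i)
    have w4 : Q'.sd i ≤ 9 / 8 * (L / R.sz * R.w i) := (hw i).2.trans
      (mul_le_mul_of_nonneg_right (by linarith only [d3]) w3.le)
    have w5 : 9 / 10 * (L / R.sz * R.w j) ≤ Q'.sd j :=
      (mul_le_mul_of_nonneg_right (by linarith only [d3]) w2.le).trans (hw j).1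
    linarith only [mul_le_mul_of_nonneg_left w5 (show 0 ≤ Mp f by linarith only [d2, d3, d6]), d2, d6, w1, w4, w5]
  have fe := frel_entry hf hQ.two.1 hP fun i j => (asp i j).trans (by
    rw [d7]
    linarith only [mul_pos (show 0 < Mp f by linarith only [d2, d3, d6]) (hP.sd_g j), d2, d6])
  have en := hfc.entry Q (fun i => Q'.lo i - Q'.sd i / Q.sd i * Q.lo i)
    (fun i => Q'.sd i / Q.sd i) hQ.two (fun i => div_pos (hP.sd_g i) (hQ.two.1.sd_g i))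
    fun i j => by
      rw [← mul_div_assoc, div_le_div_iff₀ (hQ.two.1.sd_g i) (hQ.two.1.sd_g j)]
      have w1 := mul_le_mul (asp i j) (hQ.two.2 j i) (hQ.two.1.sd_g j).le
        (by have := hP.sd_g j; positivity)
      linarith only [w1]
  exact ⟨_, Q'.gb, en.1, fe.1, en.2, fe.2.trans hv, (Bx.gb_vol hP).trans hv, r⟩

end EV

end Pool.Agent.Lib.MP_ecd4e3_gt.N
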