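import Pool.Agent.Lib.MP_ecd4e3_gt.N.FBump
import Pool.Agent.Lib.MP_ecd4e3_gt.N.FVol

/-! The martingale mode. -/

namespace Pool.Agent.Lib.MP_ecd4e3_gt.N

open Set Filter Topology Metric MeasureTheory
open scoped NNReal ENNReal

variable {ι : Type} [Fintype ι] [DecidableEq ι] [Nonempty ι]

namespace FS

/-- Regularity of a deformation on a box. -/
structure Reg (Q : Bx ι) (F : FD ι) : Prop where
  two : Q.Two
  cont : Continuous F.D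
  pk : 0 ≤ F.κ
  lip : ∀ x ∈ Q.set, ∀ x' ∈ Q.set, ‖F.D x - F.D x'‖ ≤ F.κ * dist x x'

/-- The Lipschitz bound for Haar sums. -/
def HL (ι : Type) [Fintype ι] [DecidableEq ι] [Nonempty ι] (Λ C1 : ℝ) : Prop :=
  ∀ (Q : Bx ι) (g : E ι → ℝ) (κ : ℝ), Q.Two → Continuous g → 0 ≤ κ →
    (∀ x ∈ Q.set, ∀ x' ∈ Q.set, |g x - g x'| ≤ κ * dist x x') →
      ∀ m, hs Λ g m Q ≤ C1 * (κ * Q.sc) ^ 2

/-- The perturbation bound for determinants. -/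
def DP (ι : Type) [Fintype ι] [DecidableEq ι] (C5 : ℝ) : Prop :=
  ∀ (δ : ℝ) (A A' : E ι →L[ℝ] E ι), δ ≤ 1 → ‖A‖ ≤ δ →
    ‖A'‖ ≤ δ → |(1 + A).det - (1 + A').det
      - (∑ i, A (Pi.single i 1) i - ∑ i, A' (Pi.single i 1) i)| ≤ C5 * δ * ‖A - A'‖ ∧
      |(1 + A).det - 1| ≤ C5 * δ

/-- Mean value of an entry. -/
noncomputable def av (Q : Bx ι) (F : FD ι) (i j : ι) : ℝ :=
  Q.avg fun x => F.D x (Pi.single j 1) i

/-- Sum of the squared mean values. -/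
noncomputable def SA (Q : Bx ι) (F : FD ι) : ℝ := ∑ i, ∑ j, av Q F i j ^ 2

/-- The supremum of the Haar sums. -/
noncomputable def SH (Λ : ℝ) (Q : Bx ι) (F : FD ι) : ℝ := ⨆ m, hs Λ F.dv m Q

/-- Mean value of the determinant. -/
noncomputable def dt (Q : Bx ι) (F : FD ι) : ℝ := Q.avg fun x => (1 + F.D x).det

theorem pot_eq (c : FC) (Q : Bx ι) (F : FD ι) :
    pot c Q F = SA Q F + c.M1 * (F.κ * Q.sc) ^ 2 + c.M2 * SH c.Λ Q F := rfl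

omit [Nonempty ι] in
theorem cont_ent {D : E ι → E ι →L[ℝ] E ι} (h : Continuous D) (i j : ι) :
    Continuous fun x => D x (Pi.single j 1) i :=
  (continuous_apply i).comp (h.clm_apply continuous_const)

omit [Nonempty ι] in
theorem cont_tr {D : E ι → E ι →L[ℝ] E ι} (h : Continuous D) :
    Continuous fun x => ∑ i, D x (Pi.single i 1) i :=
  continuous_finsetSum _ fun i _ => cont_ent h i i

omit [Nonempty ι] [DecidableEq ι] in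
theorem cont_det {X : Type} [TopologicalSpace X] {D : X → E ι →L[ℝ] E ι} (h : Continuous D) :
    Continuous fun x => (1 + D x).det :=
  ContinuousLinearMap.continuous_det.comp (continuous_const.add h)

theorem ent_sub (A A' : E ι →L[ℝ] E ι) (i j : ι) :
    |A (Pi.single j 1) i - A' (Pi.single j 1) i| ≤ ‖A - A'‖ := by
  have := entry_le_opnorm (A - A') i j
  simpa using this

theorem tr_sub (A A' : E ι →L[ℝ] E ι) :
    |∑ i, A (Pi.single i 1) i - ∑ i, A' (Pi.single i 1) i| ≤ Fintype.card ι * ‖A - A'‖ := by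
  rw [← Finset.sum_sub_distrib]
  refine (Finset.abs_sum_le_sum_abs _ _).trans ?_
  refine (Finset.sum_le_sum fun i _ => ent_sub A A' i i).trans ?_
  simp

omit [Nonempty ι] in
theorem sub_L {Q : Bx ι} (h : Q.Pos) (j : ι) : (Q.L j).set ⊆ Q.set := by
  rw [h.set_L]; exact inter_subset_left

omit [Nonempty ι] in
theorem sub_R {Q : Bx ι} (h : Q.Pos) (j : ι) : (Q.R j).set ⊆ Q.set := by
  rw [h.set_R]; exact inter_subset_left

theorem Reg.L {Q : Bx ι} {F : FD ι} (h : Reg Q F) : Reg (Q.L Q.sj) F :=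
  ⟨h.two.L, h.cont, h.pk, fun x hx x' hx' =>
    h.lip x (sub_L h.two.1 _ hx) x' (sub_L h.two.1 _ hx')⟩

theorem Reg.R {Q : Bx ι} {F : FD ι} (h : Reg Q F) : Reg (Q.R Q.sj) F :=
  ⟨h.two.R, h.cont, h.pk, fun x hx x' hx' =>
    h.lip x (sub_R h.two.1 _ hx) x' (sub_R h.two.1 _ hx')⟩

theorem sc_pos {Q : Bx ι} (h : Q.Two) : 0 < Q.sc := (h.sc_bd (Classical.arbitrary ι)).1

theorem diam_le {Q : Bx ι} (h : Q.Two) {x y : E ι} (hx : x ∈ Q.set) (hy : y ∈ Q.set) :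
    dist x y ≤ 2 * Q.sc :=
  Bx.dist_le (by have := sc_pos h; positivity) (fun i => (h.sc_bd i).2.1) hx hy

theorem osc_le {Q : Bx ι} (h : Q.Two) {g : E ι → ℝ} {K : ℝ} (hK : 0 ≤ K)
    (hl : ∀ x ∈ Q.set, ∀ x' ∈ Q.set, |g x - g x'| ≤ K * dist x x') {x y : E ι} (hx : x ∈ Q.set)
    (hy : y ∈ Q.set) : |g x - g y| ≤ 2 * (K * Q.sc) := by
  have h1 := hl x hx y hy
  have h2 := mul_le_mul_of_nonneg_left (diam_le h hx hy) hK
  linarith only [h1, h2]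

/-- The means over the two halves are close. -/
theorem avg_LR {Q : Bx ι} (h : Q.Two) {g : E ι → ℝ} (hg : Continuous g) {K : ℝ} (hK : 0 ≤ K)
    (hl : ∀ x ∈ Q.set, ∀ x' ∈ Q.set, |g x - g x'| ≤ K * dist x x') (j : ι) :
    |(Q.L j).avg g - (Q.R j).avg g| ≤ 2 * (K * Q.sc) := by
  rw [abs_sub_comm]
  refine Bx.abs_avg_sub_le (h.1.R j) hg.continuousOn fun y hy => ?_
  rw [abs_sub_comm]
  exact Bx.abs_avg_sub_le (h.1.L j) hg.continuousOn fun x hx =>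
    osc_le h hK hl (sub_L h.1 j hx) (sub_R h.1 j hy)

theorem Reg.ent_lip {Q : Bx ι} {F : FD ι} (h : Reg Q F) (i j : ι) :
    ∀ x ∈ Q.set, ∀ x' ∈ Q.set, |F.D x (Pi.single j 1) i - F.D x' (Pi.single j 1) i| ≤
      F.κ * dist x x' := fun x hx x' hx' => (ent_sub _ _ i j).trans (h.lip x hx x' hx')

theorem Reg.dv_lip {Q : Bx ι} {F : FD ι} (h : Reg Q F) :
    ∀ x ∈ Q.set, ∀ x' ∈ Q.set, |F.dv x - F.dv x'| ≤ (Fintype.card ι * F.κ) * dist x x' := by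
  intro x hx x' hx'
  refine (tr_sub _ _).trans ?_
  rw [mul_assoc]
  exact mul_le_mul_of_nonneg_left (h.lip x hx x' hx') (by positivity)

omit [Nonempty ι] in
theorem Reg.cont_dv {Q : Bx ι} {F : FD ι} (h : Reg Q F) : Continuous F.dv := cont_tr h.cont

theorem Reg.hs_le {Q : Bx ι} {F : FD ι} (h : Reg Q F) {Λ C1 : ℝ} (hl : HL ι Λ C1) (m : ℕ) :
    hs Λ F.dv m Q ≤ C1 * (Fintype.card ι * F.κ * Q.sc) ^ 2 :=
  hl Q F.dv _ h.two h.cont_dv (by have := h.pk; positivity) h.dv_lip m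

theorem Reg.bdd {Q : Bx ι} {F : FD ι} (h : Reg Q F) {Λ C1 : ℝ} (hl : HL ι Λ C1) :
    BddAbove (range fun m => hs Λ F.dv m Q) :=
  ⟨_, by rintro _ ⟨m, rfl⟩; exact h.hs_le hl m⟩

theorem Reg.SH_le {Q : Bx ι} {F : FD ι} (h : Reg Q F) {Λ C1 : ℝ} (hl : HL ι Λ C1) :
    SH Λ Q F ≤ C1 * (Fintype.card ι * F.κ * Q.sc) ^ 2 := ciSup_le (h.hs_le hl)

theorem SH_nonneg {Λ : ℝ} (hΛ : 0 ≤ Λ) (Q : Bx ι) (F : FD ι) : 0 ≤ SH Λ Q F :=
  Real.iSup_nonneg fun m => hs_nonneg hΛ _ m Q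

omit [Nonempty ι] in
theorem SA_nonneg (Q : Bx ι) (F : FD ι) : 0 ≤ SA Q F :=
  Finset.sum_nonneg fun _ _ => Finset.sum_nonneg fun _ _ => sq_nonneg _

omit [Nonempty ι] in
theorem av_sq_le (Q : Bx ι) (F : FD ι) (i j : ι) : av Q F i j ^ 2 ≤ SA Q F := by
  refine le_trans ?_ (Finset.single_le_sum (f := fun i => ∑ j, av Q F i j ^ 2)
    (fun _ _ => Finset.sum_nonneg fun _ _ => sq_nonneg _) (Finset.mem_univ i))
  exact Finset.single_le_sum (f := fun j => av Q F i j ^ 2) (fun _ _ => sq_nonneg _)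
    (Finset.mem_univ j)

theorem Reg.av_half {Q : Bx ι} {F : FD ι} (h : Reg Q F) (i j : ι) :
    av Q F i j = (av (Q.L Q.sj) F i j + av (Q.R Q.sj) F i j) / 2 :=
  Bx.avg_half h.two.1 _ (cont_ent h.cont i j).continuousOn

theorem Reg.av_LR {Q : Bx ι} {F : FD ι} (h : Reg Q F) (i j : ι) :
    |av (Q.L Q.sj) F i j - av (Q.R Q.sj) F i j| ≤ 2 * (F.κ * Q.sc) :=
  avg_LR h.two (cont_ent h.cont i j) h.pk (h.ent_lip i j) _

/-- The squared means of the halves. -/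
theorem Reg.SA_half {Q : Bx ι} {F : FD ι} (h : Reg Q F) :
    SA (Q.L Q.sj) F + SA (Q.R Q.sj) F ≤
      2 * SA Q F + 2 * (Fintype.card ι : ℝ) ^ 2 * (F.κ * Q.sc) ^ 2 := by
  have key : ∀ i j, av (Q.L Q.sj) F i j ^ 2 + av (Q.R Q.sj) F i j ^ 2 ≤
      2 * av Q F i j ^ 2 + 2 * (F.κ * Q.sc) ^ 2 := by
    intro i j
    have h1 := h.av_half i j
    have h2 := sq_le_sq' (abs_le.1 (h.av_LR i j)).1 (abs_le.1 (h.av_LR i j)).2
    rw [h1]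
    linarith only [h2]
  have : SA (Q.L Q.sj) F + SA (Q.R Q.sj) F ≤
      ∑ i : ι, ∑ j : ι, (2 * av Q F i j ^ 2 + 2 * (F.κ * Q.sc) ^ 2) := by
    unfold SA
    rw [← Finset.sum_add_distrib]
    refine Finset.sum_le_sum fun i _ => ?_
    rw [← Finset.sum_add_distrib]
    exact Finset.sum_le_sum fun j _ => key i j
  refine this.trans (le_of_eq ?_)
  simp only [Finset.sum_add_distrib, ← Finset.mul_sum, Finset.sum_const, Finset.card_univ,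
    nsmul_eq_mul, SA]
  ring

theorem av_abs_le {Q : Bx ι} (hQ : Q.Pos) {F : FD ι} (hc : Continuous F.D) {δ : ℝ}
    (hs : ∀ x, ‖F.D x‖ ≤ δ) (i j : ι) : |av Q F i j| ≤ δ := by
  have := Bx.abs_avg_sub_le hQ (cont_ent hc i j).continuousOn (c := 0) (M := δ)
    (fun x _ => by simpa using (entry_le_opnorm _ i j).trans (hs x))
  rwa [sub_zero] at this

theorem Reg.SA_diff {Q : Bx ι} {F : FD ι} (h : Reg Q F) (hs : ∀ x, ‖F.D x‖ ≤ 1) :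
    |SA (Q.L Q.sj) F - SA (Q.R Q.sj) F| ≤ 4 * (Fintype.card ι : ℝ) ^ 2 * (F.κ * Q.sc) := by
  have key : ∀ i j, |av (Q.L Q.sj) F i j ^ 2 - av (Q.R Q.sj) F i j ^ 2| ≤ 4 * (F.κ * Q.sc) := by
    intro i j
    have h1 := av_abs_le h.L.two.1 h.cont hs i j
    have h2 := av_abs_le h.R.two.1 h.cont hs i j
    have h3 := h.av_LR i j
    rw [sq_sub_sq, abs_mul]
    have h4 : |av (Q.L Q.sj) F i j + av (Q.R Q.sj) F i j| ≤ 2 :=
      (abs_add_le _ _).trans (by linarith only [h1, h2])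
    calc _ ≤ 2 * (2 * (F.κ * Q.sc)) := mul_le_mul h4 h3 (abs_nonneg _) (by norm_num)
      _ = _ := by ring
  unfold SA
  rw [← Finset.sum_sub_distrib]
  refine (Finset.abs_sum_le_sum_abs _ _).trans ?_
  refine (Finset.sum_le_sum (g := fun _ => ∑ _j : ι, 4 * (F.κ * Q.sc)) fun i _ => ?_).trans
    (le_of_eq ?_)
  · rw [← Finset.sum_sub_distrib]
    exact (Finset.abs_sum_le_sum_abs _ _).trans (Finset.sum_le_sum fun j _ => key i j)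
  · simp only [Finset.sum_const, Finset.card_univ, nsmul_eq_mul]
    ring

/-- The shrinking factor of the nominal size. -/
noncomputable def rho (ι : Type) [Fintype ι] : ℝ := (1 / 2 : ℝ) ^ (1 / (Fintype.card ι : ℝ))

omit [DecidableEq ι] in
theorem rho_bd : 0 < rho ι ∧ rho ι < 1 := by
  refine ⟨Real.rpow_pos_of_pos (by norm_num) _, Real.rpow_lt_one (by norm_num) (by norm_num) ?_⟩
  have : 0 < Fintype.card ι := Fintype.card_pos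
  positivity

omit [DecidableEq ι] in
theorem rho_sq_bd : 0 < 1 - rho ι ^ 2 ∧ 1 - rho ι ^ 2 ≤ 1 ∧ rho ι ^ 2 ≤ 1 := by
  obtain ⟨r0, r1⟩ := rho_bd (ι := ι)
  have h : rho ι ^ 2 < 1 := pow_lt_one₀ r0.le r1 two_ne_zero
  exact ⟨sub_pos.2 h, sub_le_self _ (sq_nonneg _), h.le⟩

theorem sc_L {Q : Bx ι} (h : Q.Pos) (j : ι) : (Q.L j).sc = rho ι * Q.sc := (Bx.sc_half h j).1
theorem sc_R {Q : Bx ι} (h : Q.Pos) (j : ι) : (Q.R j).sc = rho ι * Q.sc := (Bx.sc_half h j).2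

/-- The potentials of the halves are close. -/
theorem Reg.pot_diff {Q : Bx ι} {F : FD ι} (h : Reg Q F) (hs : ∀ x, ‖F.D x‖ ≤ 1) {c : FC}
    {C1 : ℝ} (hl : HL ι c.Λ C1) (hC : 0 ≤ C1) (hΛ : 0 ≤ c.Λ) (hM : 0 ≤ c.M2)
    (hk : F.κ * Q.sc ≤ 1) :
    |pot c (Q.L Q.sj) F - pot c (Q.R Q.sj) F| ≤
      (4 + c.M2 * C1) * (Fintype.card ι : ℝ) ^ 2 * (F.κ * Q.sc) := by
  have h1 := h.SA_diff hs
  have h2 := h.L.SH_le hl
  have h3 := h.R.SH_le hl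
  have h4 := SH_nonneg hΛ (Q.L Q.sj) F
  have h5 := SH_nonneg hΛ (Q.R Q.sj) F
  rw [pot_eq, pot_eq, sc_L h.two.1, sc_R h.two.1]
  rw [sc_L h.two.1] at h2
  rw [sc_R h.two.1] at h3
  have hk0 : 0 ≤ F.κ * Q.sc := mul_nonneg h.pk (sc_pos h.two).le
  obtain ⟨r0, r1⟩ := rho_bd (ι := ι)
  set k := F.κ * Q.sc
  set N : ℝ := (Fintype.card ι : ℝ)
  have e : (N * F.κ * (rho ι * Q.sc)) ^ 2 = N ^ 2 * (rho ι * k) ^ 2 := by
    simp only [k]; ring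
  rw [e] at h2 h3
  have h6 : (rho ι * k) ^ 2 ≤ k := by
    have h7 : rho ι * k ≤ k := mul_le_of_le_one_left hk0 r1.le
    have h8 : 0 ≤ rho ι * k := mul_nonneg r0.le hk0
    rw [sq]
    exact (mul_le_of_le_one_right h8 (h7.trans hk)).trans h7
  have h7 : C1 * (N ^ 2 * (rho ι * k) ^ 2) ≤ C1 * (N ^ 2 * k) := by gcongr
  have h8 : |SH c.Λ (Q.L Q.sj) F - SH c.Λ (Q.R Q.sj) F| ≤ C1 * (N ^ 2 * k) := by
    exact abs_le.2 ⟨by linarith only [h3, h4, h7], by linarith only [h2, h5, h7]⟩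
  have e2 : SA (Q.L Q.sj) F + c.M1 * (F.κ * (rho ι * Q.sc)) ^ 2 + c.M2 * SH c.Λ (Q.L Q.sj) F -
      (SA (Q.R Q.sj) F + c.M1 * (F.κ * (rho ι * Q.sc)) ^ 2 + c.M2 * SH c.Λ (Q.R Q.sj) F) =
      (SA (Q.L Q.sj) F - SA (Q.R Q.sj) F) +
        c.M2 * (SH c.Λ (Q.L Q.sj) F - SH c.Λ (Q.R Q.sj) F) := by ring
  rw [e2]
  refine (abs_add_le _ _).trans ?_
  rw [abs_mul, abs_of_nonneg hM]
  have h9 := mul_le_mul_of_nonneg_left h8 hM
  linarith only [h1, h9]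

/-- The mean determinants of the halves. -/
theorem Reg.dt_diff {Q : Bx ι} {F : FD ι} (h : Reg Q F) {δ C5 : ℝ} (hs : ∀ x, ‖F.D x‖ ≤ δ)
    (hδ : δ ≤ 1) (hd : DP ι C5) (hC : 0 ≤ C5) :
    |dt (Q.L Q.sj) F - dt (Q.R Q.sj) F - ((Q.L Q.sj).avg F.dv - (Q.R Q.sj).avg F.dv)| ≤
      2 * (C5 * δ) * (F.κ * Q.sc) := by
  have hδ0 : 0 ≤ δ := (norm_nonneg _).trans (hs 0)
  set G : E ι → ℝ := fun x => (1 + F.D x).det + (-1) * F.dv x with hG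
  have hGc : Continuous G := (cont_det h.cont).add (continuous_const.mul h.cont_dv)
  have hav : ∀ B : Bx ι, B.avg G = dt B F - B.avg F.dv := by
    intro B
    have hc : Continuous fun x => (-1) * F.dv x := continuous_const.mul h.cont_dv
    rw [hG, Bx.avg_add (cont_det h.cont).continuousOn hc.continuousOn, Bx.avg_smul]
    unfold dt
    ring
  have hlip : ∀ x ∈ Q.set, ∀ x' ∈ Q.set, |G x - G x'| ≤ (C5 * δ * F.κ) * dist x x' := by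
    intro x hx x' hx'
    have h1 := (hd δ (F.D x) (F.D x') hδ (hs x) (hs x')).1
    have e : G x - G x' = (1 + F.D x).det - (1 + F.D x').det
      - (∑ i, F.D x (Pi.single i 1) i - ∑ i, F.D x' (Pi.single i 1) i) := by
      simp only [hG, FD.dv]; ring
    rw [e]
    refine h1.trans ?_
    rw [mul_assoc (C5 * δ)]
    exact mul_le_mul_of_nonneg_left (h.lip x hx x' hx') (by positivity)
  have := avg_LR h.two hGc (by have := h.pk; positivity) hlip Q.sj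
  rw [hav, hav] at this
  calc _ = |dt (Q.L Q.sj) F - (Q.L Q.sj).avg F.dv - (dt (Q.R Q.sj) F - (Q.R Q.sj).avg F.dv)| := by
        congr 1; ring
    _ ≤ _ := this
    _ = _ := by ring

/-- The derivative is bounded by its means and its variation. -/
theorem Reg.norm_le {Q : Bx ι} {F : FD ι} (h : Reg Q F) {p : ℝ} (hp : ∀ i j, |av Q F i j| ≤ p)
    {x : E ι} (hx : x ∈ Q.set) : ‖F.D x‖ ≤ Fintype.card ι * (p + 2 * (F.κ * Q.sc)) := by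
  refine opnorm_le_entries _ fun i j => ?_
  have h1 : |av Q F i j - F.D x (Pi.single j 1) i| ≤ 2 * (F.κ * Q.sc) :=
    Bx.abs_avg_sub_le h.two.1 (cont_ent h.cont i j).continuousOn fun y hy =>
      osc_le h.two h.pk (h.ent_lip i j) hy hx
  have h2 := hp i j
  rw [abs_le] at *
  constructor <;> linarith only [h1.1, h1.2, h2.1, h2.2, h1, h2]

/-- The properties of the bump. -/
structure Bump (Λ ζ Cb : ℝ) (Q : Bx ι) (b : E ι → E ι) (Db : E ι → E ι →L[ℝ] E ι) : Prop where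
  der : ∀ x, HasFDerivAt b (Db x) x
  cont : Continuous Db
  out : ∀ x, x ∉ Q.set ∨ x ∈ Q.bd → b x = 0 ∧ Db x = 0
  nb : ∀ x, ‖Db x‖ ≤ Cb
  lip : ∀ x x', ‖Db x - Db x'‖ ≤ Cb / Q.sc * dist x x'
  av0 : ∀ i l, (Q.avg fun x => Db x (Pi.single l 1) i) = 0
  jump : ((Q.L Q.sj).avg fun x => ∑ i, Db x (Pi.single i 1) i)
    - ((Q.R Q.sj).avg fun x => ∑ i, Db x (Pi.single i 1) i) = 1
  hs : ∀ m, hs Λ (fun x => ∑ i, Db x (Pi.single i 1) i) m (Q.L Q.sj) ≤ ζ ∧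
    hs Λ (fun x => ∑ i, Db x (Pi.single i 1) i) m (Q.R Q.sj) ≤ ζ

/-- The perturbed deformation. -/
noncomputable def pert (F : FD ι) (b : E ι → E ι) (Db : E ι → E ι →L[ℝ] E ι) (k e : ℝ) : FD ι :=
  ⟨F.o, F.h, fun x => F.u x + e • b x, fun x => F.D x + e • Db x, F.κ + |e| * k⟩

section Pert

variable {Λ ζ Cb : ℝ} {Q : Bx ι} {F : FD ι} {b : E ι → E ι} {Db : E ι → E ι →L[ℝ] E ι}

omit [Nonempty ι] in
theorem pert_dv (k e : ℝ) :
    (pert F b Db k e).dv = fun x => F.dv x + e * ∑ i, Db x (Pi.single i 1) i := by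
  funext x
  simp [pert, FD.dv, Finset.sum_add_distrib, Finset.mul_sum]

theorem pert_av (B : Bx ι) (hc : Continuous F.D) (hb : Continuous Db) (k e : ℝ) (i j : ι) :
    av B (pert F b Db k e) i j = av B F i j + e * B.avg fun x => Db x (Pi.single j 1) i := by
  have hc' : Continuous fun x => e * Db x (Pi.single j 1) i :=
    continuous_const.mul (cont_ent hb i j)
  unfold av
  rw [← Bx.avg_smul, ← Bx.avg_add (cont_ent hc i j).continuousOn hc'.continuousOn]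
  simp [pert]

theorem Bump.Cb_nonneg (hb : Bump Λ ζ Cb Q b Db) : 0 ≤ Cb := (norm_nonneg _).trans (hb.nb 0)

theorem Bump.reg (hb : Bump Λ ζ Cb Q b Db) (h : Reg Q F) (e : ℝ) :
    Reg Q (pert F b Db (Cb / Q.sc) e) := by
  have h0 := sc_pos h.two
  have h1 := hb.Cb_nonneg
  have h2 := h.pk
  refine ⟨h.two, h.cont.add (hb.cont.const_smul e), ?_, fun x hx x' hx' => ?_⟩
  · show 0 ≤ F.κ + |e| * (Cb / Q.sc)
    positivity
  · show ‖(F.D x + e • Db x) - (F.D x' + e • Db x')‖ ≤ (F.κ + |e| * (Cb / Q.sc)) * dist x x'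
    have e1 : (F.D x + e • Db x) - (F.D x' + e • Db x') =
        (F.D x - F.D x') + e • (Db x - Db x') := by rw [smul_sub]; abel
    rw [e1]
    refine (norm_add_le _ _).trans ?_
    rw [norm_smul, Real.norm_eq_abs, add_mul, mul_assoc]
    exact add_le_add (h.lip x hx x' hx') (mul_le_mul_of_nonneg_left (hb.lip x x') (abs_nonneg _))

theorem pert_k (h : Q.Two) (e : ℝ) :
    (pert F b Db (Cb / Q.sc) e).κ * Q.sc = F.κ * Q.sc + |e| * Cb := by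
  have h0 := sc_pos h
  show (F.κ + |e| * (Cb / Q.sc)) * Q.sc = _
  field_simp

theorem Bump.av_eq (hb : Bump Λ ζ Cb Q b Db) (h : Reg Q F) (k e : ℝ) (i j : ι) :
    av Q (pert F b Db k e) i j = av Q F i j := by
  rw [pert_av Q h.cont hb.cont, hb.av0]; ring

theorem Bump.SA_eq (hb : Bump Λ ζ Cb Q b Db) (h : Reg Q F) (k e : ℝ) :
    SA Q (pert F b Db k e) = SA Q F := by
  unfold SA
  simp only [hb.av_eq h]

theorem Bump.jump_eq (hb : Bump Λ ζ Cb Q b Db) (h : Reg Q F) (k e : ℝ) :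
    (Q.L Q.sj).avg (pert F b Db k e).dv - (Q.R Q.sj).avg (pert F b Db k e).dv =
      (Q.L Q.sj).avg F.dv - (Q.R Q.sj).avg F.dv + e := by
  have hc' : Continuous fun x => e * ∑ i, Db x (Pi.single i 1) i :=
    continuous_const.mul (cont_tr hb.cont)
  rw [pert_dv, Bx.avg_add h.cont_dv.continuousOn hc'.continuousOn,
    Bx.avg_add h.cont_dv.continuousOn hc'.continuousOn, Bx.avg_smul, Bx.avg_smul]
  linear_combination e * hb.jump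

theorem SH_pert (hΛ : 0 ≤ Λ) {B : Bx ι} (hc : Continuous F.dv) (hb : Continuous Db)
    (h1 : BddAbove (range fun m => hs Λ F.dv m B))
    (h2 : ∀ m, hs Λ (fun x => ∑ i, Db x (Pi.single i 1) i) m B ≤ ζ) {t : ℝ} (ht : 0 < t)
    (k e : ℝ) : SH Λ B (pert F b Db k e) ≤ (1 + t) * SH Λ B F + (1 + 1 / t) * (e ^ 2 * ζ) := by
  refine ciSup_le fun m => ?_
  have hc' : Continuous fun x => e * ∑ i, Db x (Pi.single i 1) i :=
    continuous_const.mul (cont_tr hb)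
  rw [pert_dv]
  refine (hs_add hΛ hc hc' ht m B).trans ?_
  rw [hs_smul]
  have h3 : hs Λ F.dv m B ≤ SH Λ B F := le_ciSup h1 m
  have h4 := h2 m
  gcongr

theorem arith0 {N M1 M2 r Cb k e : ℝ} (c1 : 0 < 1 - r ^ 2) (c2 : 1 - r ^ 2 ≤ 1)
    (hM1 : 4 * N ^ 2 + 2 ≤ M1 * (1 - r ^ 2))
    (hM2 : 16 * ((N ^ 2 + M1) * (1 + 2 / (1 - r ^ 2)) * Cb ^ 2) ≤ M2) :
    0 ≤ M2 ∧ (N ^ 2 + M1 * r ^ 2) * (k + |e| * Cb) ^ 2 ≤ (M1 - 1) * k ^ 2 + M2 / 16 * e ^ 2 := by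
  obtain ⟨c0, hc0⟩ : ∃ c0, c0 = 1 - r ^ 2 := ⟨_, rfl⟩
  have e0 : r ^ 2 = 1 - c0 := by rw [hc0]; ring
  rw [← hc0] at c1 c2 hM1 hM2
  rw [e0]
  have hN := sq_nonneg N
  have hM1' : 0 ≤ M1 := nonneg_of_mul_nonneg_left (b := c0) (by linarith only [hM1, hN]) c1
  have hc : 0 ≤ 1 + 2 / c0 := by positivity
  have hC := sq_nonneg Cb
  have h7 : (k + |e| * Cb) ^ 2 ≤ (1 + c0 / 2) * k ^ 2 + (1 + 2 / c0) * (Cb ^ 2 * e ^ 2) := by
    have e1 : Cb ^ 2 * e ^ 2 = (|e| * Cb) ^ 2 := by rw [mul_pow, sq_abs]; ring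
    rw [e1]
    generalize |e| * Cb = y
    have e2 : (1 + c0 / 2) * k ^ 2 + (1 + 2 / c0) * y ^ 2 - (k + y) ^ 2 =
        (c0 * k - 2 * y) ^ 2 / (2 * c0) := by field_simp; ring
    have : 0 ≤ (c0 * k - 2 * y) ^ 2 / (2 * c0) := by positivity
    exact sub_nonneg.1 (e2 ▸ this)
  have hA : 0 ≤ N ^ 2 + M1 * (1 - c0) := add_nonneg hN (mul_nonneg hM1' (sub_nonneg.2 c2))
  have h8 : (N ^ 2 + M1 * (1 - c0)) * (1 + c0 / 2) ≤ M1 - 1 := by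
    linarith only [hM1, hN, mul_nonneg hM1' (sq_nonneg c0), mul_nonneg hN (sub_nonneg.2 c2)]
  have h9 : (N ^ 2 + M1 * (1 - c0)) * (1 + 2 / c0) * Cb ^ 2 ≤ M2 / 16 := by
    have e1 : N ^ 2 + M1 * (1 - c0) ≤ N ^ 2 + M1 :=
      add_le_add_right (mul_le_of_le_one_right hM1' (sub_le_self _ c1.le)) _
    have := mul_le_mul_of_nonneg_right (mul_le_mul_of_nonneg_right e1 hc) hC
    linarith only [this, hM2]
  refine ⟨le_trans (by positivity) hM2, ?_⟩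
  have a1 := mul_le_mul_of_nonneg_left h7 hA
  have a2 := mul_le_mul_of_nonneg_right h8 (sq_nonneg k)
  have a3 := mul_le_mul_of_nonneg_right h9 (sq_nonneg e)
  generalize (k + |e| * Cb) ^ 2 = y at a1 ⊢
  generalize N ^ 2 + M1 * (1 - c0) = A at a1 a2 a3 ⊢
  generalize 1 + 2 / c0 = u at a1 a3
  linarith only [a1, a2, a3]

/-- The drop of the mean potential. -/
theorem Bump.pot_mean {c : FC} (hb : Bump c.Λ ζ Cb Q b Db) (h : Reg Q F) {C1 : ℝ}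
    (hl : HL ι c.Λ C1) (hΛ : 1 < c.Λ) (hζ : (1 + 1 / (c.Λ - 1)) * ζ ≤ 1 / 16)
    (hM1 : 4 * (Fintype.card ι : ℝ) ^ 2 + 2 ≤ c.M1 * (1 - rho ι ^ 2))
    (hM2 : 16 * (((Fintype.card ι : ℝ) ^ 2 + c.M1) * (1 + 2 / (1 - rho ι ^ 2)) * Cb ^ 2) ≤ c.M2)
    (e : ℝ) :
    pot c (Q.L Q.sj) (pert F b Db (Cb / Q.sc) e) + pot c (Q.R Q.sj) (pert F b Db (Cb / Q.sc) e) ≤
      2 * (pot c Q F - (F.κ * Q.sc) ^ 2
        - c.M2 * ((Q.L Q.sj).avg F.dv - (Q.R Q.sj).avg F.dv) ^ 2 + c.M2 * e ^ 2 / 8) := by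
  have hΛ0 : 0 ≤ c.Λ := zero_le_one.trans hΛ.le
  have hr := hb.reg h e
  have h1 := hr.SA_half
  rw [hb.SA_eq h, pert_k h.two] at h1
  have ht : 0 < c.Λ - 1 := sub_pos.2 hΛ
  have h2 := SH_pert (b := b) hΛ0 h.cont_dv hb.cont (h.L.bdd hl) (fun m => (hb.hs m).1) ht
    (Cb / Q.sc) e
  have h3 := SH_pert (b := b) hΛ0 h.cont_dv hb.cont (h.R.bdd hl) (fun m => (hb.hs m).2) ht
    (Cb / Q.sc) e
  have h4 : ((Q.L Q.sj).avg F.dv - (Q.R Q.sj).avg F.dv) ^ 2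
      + c.Λ * (SH c.Λ (Q.L Q.sj) F + SH c.Λ (Q.R Q.sj) F) / 2 ≤ SH c.Λ Q F :=
    hs_iSup hΛ0 (h.bdd hl) ⟨h.L.bdd hl, h.R.bdd hl⟩
  have eL : (pert F b Db (Cb / Q.sc) e).κ * (Q.L Q.sj).sc = rho ι * (F.κ * Q.sc + |e| * Cb) := by
    rw [sc_L h.two.1, ← pert_k (F := F) (b := b) (Db := Db) h.two]; ring
  have eR : (pert F b Db (Cb / Q.sc) e).κ * (Q.R Q.sj).sc = rho ι * (F.κ * Q.sc + |e| * Cb) := by
    rw [sc_R h.two.1, ← pert_k (F := F) (b := b) (Db := Db) h.two]; ring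
  rw [pot_eq, pot_eq, pot_eq, eL, eR]
  obtain ⟨c1, c2, -⟩ := rho_sq_bd (ι := ι)
  obtain ⟨hM2', h10⟩ := arith0 (k := F.κ * Q.sc) (e := e) c1 c2 hM1 hM2
  have h5 := mul_le_mul_of_nonneg_left hζ (sq_nonneg e)
  have h6 : SH c.Λ (Q.L Q.sj) (pert F b Db (Cb / Q.sc) e) +
      SH c.Λ (Q.R Q.sj) (pert F b Db (Cb / Q.sc) e) ≤
      2 * (SH c.Λ Q F - ((Q.L Q.sj).avg F.dv - (Q.R Q.sj).avg F.dv) ^ 2 + e ^ 2 / 16) := by
    linarith only [h2, h3, h4, h5]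
  have h11 := mul_le_mul_of_nonneg_left h6 hM2'
  linarith only [h1, h10, h11]

omit [Nonempty ι] in
theorem cont_avg (B : Bx ι) {g : ℝ → E ι → ℝ} (hg : Continuous g.uncurry) :
    Continuous fun e => B.avg (g e) :=
  (continuous_parametric_integral_of_continuous hg B.isCompact_set).div_const _

omit [Nonempty ι] in
theorem cont_dt (B : Bx ι) (hc : Continuous F.D) (hb : Continuous Db) (k : ℝ) :
    Continuous fun e => dt B (pert F b Db k e) := by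
  refine cont_avg B (g := fun e x => (1 + (F.D x + e • Db x)).det) ?_
  exact cont_det (D := fun z : ℝ × E ι => F.D z.2 + z.1 • Db z.2)
    ((hc.comp continuous_snd).add (continuous_fst.smul (hb.comp continuous_snd)))

theorem cont_pot {c : FC} (hΛ : 0 ≤ c.Λ) {B : Bx ι} (hc : Continuous F.D) (hb : Continuous Db)
    (h1 : BddAbove (range fun m => hs c.Λ F.dv m B))
    (h2 : ∀ m, hs c.Λ (fun x => ∑ i, Db x (Pi.single i 1) i) m B ≤ ζ) (k : ℝ) :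
    Continuous fun e => pot c B (pert F b Db k e) := by
  simp only [pot_eq]
  refine (Continuous.add ?_ ?_).add (continuous_const.mul ?_)
  · simp only [SA, pert_av B hc hb]
    fun_prop
  · show Continuous fun e : ℝ => c.M1 * ((F.κ + |e| * k) * B.sc) ^ 2
    fun_prop
  · simp only [SH, pert_dv]
    exact hs_iSup_cont hΛ (cont_tr hc) (cont_tr hb) h1 ⟨ζ, by rintro _ ⟨m, rfl⟩; exact h2 m⟩

end Pert

theorem arith3 {M Cb θ : ℝ} (hM : 1 ≤ M) (hC : 1 ≤ Cb) (hθ : 0 ≤ θ)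
    (h1 : θ * (2 * M * Cb) ≤ 1) : θ * M ≤ 1 / 2 ∧ θ * Cb ≤ 1 / 2 ∧ θ ≤ 1 / 2 := by
  have b1 : θ * M ≤ θ * M * Cb := le_mul_of_one_le_right (mul_nonneg hθ (zero_le_one.trans hM)) hC
  have b2 : θ * Cb ≤ θ * Cb * M :=
    le_mul_of_one_le_right (mul_nonneg hθ (zero_le_one.trans hC)) hM
  have b3 : θ ≤ θ * M := le_mul_of_one_le_right hθ hM
  exact ⟨by linarith only [h1, b1], by linarith only [h1, b2], by linarith only [h1, b1, b3]⟩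

theorem arith1 {M Cb k H d θ e : ℝ} (hM : 1 ≤ M) (hC : 1 ≤ Cb) (hθ : 0 ≤ θ)
    (h1 : θ * (2 * M * Cb) ≤ 1) (he : |e + H| ≤ 4 * |d| + 2 * θ * (k + Cb * |H|)) :
    M * e ^ 2 / 8 ≤ M * H ^ 2 + k ^ 2 + 12 * M * d ^ 2 := by
  obtain ⟨a1, a2, a3⟩ := arith3 hM hC hθ h1
  have hM0 : 0 ≤ M := zero_le_one.trans hM
  have a4 : (e + H) ^ 2 ≤ (4 * |d| + 2 * θ * (k + Cb * |H|)) ^ 2 :=
    sq_le_sq' (abs_le.1 he).1 (abs_le.1 he).2
  have a5 : (4 * |d| + 2 * θ * (k + Cb * |H|)) ^ 2 ≤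
      3 * (16 * d ^ 2 + 4 * θ ^ 2 * k ^ 2 + 4 * (θ * Cb) ^ 2 * H ^ 2) := by
    rw [← sq_abs d, ← sq_abs H]
    linarith only [sq_nonneg (4 * |d| - 2 * θ * k), sq_nonneg (4 * |d| - 2 * θ * Cb * |H|),
      sq_nonneg (2 * θ * k - 2 * θ * Cb * |H|)]
  have a6 : e ^ 2 ≤ 2 * H ^ 2 + 2 * (e + H) ^ 2 := by linarith only [sq_nonneg (e + 2 * H)]
  have a7 : (θ * Cb) ^ 2 ≤ 1 / 4 := by
    linarith only [pow_le_pow_left₀ (mul_nonneg hθ (zero_le_one.trans hC)) a2 2]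
  have a8 : M * θ ^ 2 ≤ 1 / 4 := by
    linarith only [mul_le_mul a1 a3 hθ (by norm_num)]
  have a9 : (θ * Cb) ^ 2 * H ^ 2 ≤ 1 / 4 * H ^ 2 := mul_le_mul_of_nonneg_right a7 (sq_nonneg H)
  have a10 : M * θ ^ 2 * k ^ 2 ≤ 1 / 4 * k ^ 2 := mul_le_mul_of_nonneg_right a8 (sq_nonneg k)
  have a11 : e ^ 2 ≤ 8 * H ^ 2 + 96 * d ^ 2 + 24 * (θ ^ 2 * k ^ 2) := by
    linarith only [a4, a5, a6, a9]
  have a12 := mul_le_mul_of_nonneg_left a11 hM0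
  linarith only [a10, a12, sq_nonneg k]

theorem arith2 {M Cb k H d θ e p : ℝ} (hM : 1 ≤ M) (hC : 1 ≤ Cb) (hθ : 0 ≤ θ)
    (h1 : θ * (2 * M * Cb) ≤ 1) (hk : 0 ≤ k) (hkp : k ≤ p) (hH : |H| ≤ p) (hd : |d| ≤ p)
    (he : |e + H| ≤ 4 * |d| + 2 * θ * (k + Cb * |H|)) :
    k + |e| * Cb ≤ 8 * Cb * p ∧
      θ * (k + |e| * Cb) ≤ 4 * |d| + 2 * θ * (k + Cb * |H|) - 2 * |d| := by
  obtain ⟨-, a2, a3⟩ := arith3 hM hC hθ h1
  have hp : 0 ≤ p := hk.trans hkp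
  have hC0 : 0 ≤ Cb := zero_le_one.trans hC
  have a4 : |e| ≤ |e + H| + |H| := by
    have := abs_sub (e + H) H
    rwa [add_sub_cancel_right] at this
  have hH0 := abs_nonneg H
  have hd0 := abs_nonneg d
  obtain ⟨E0, hE⟩ : ∃ E0, E0 = 4 * |d| + 2 * θ * (k + Cb * |H|) := ⟨_, rfl⟩
  have hE0 : 0 ≤ E0 := by rw [hE]; positivity
  rw [← hE] at he ⊢
  have a5 : |e| * Cb ≤ (E0 + |H|) * Cb :=
    mul_le_mul_of_nonneg_right (by linarith only [a4, he]) hC0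
  have a6 : E0 ≤ 6 * p := by
    have b1 : θ * k ≤ 1 / 2 * p := mul_le_mul a3 hkp hk (by norm_num)
    have b2 : θ * Cb * |H| ≤ 1 / 2 * p := mul_le_mul a2 hH hH0 (by norm_num)
    linarith only [hE, b1, b2, hd]
  constructor
  · have b1 : (E0 + |H|) * Cb ≤ (6 * p + p) * Cb :=
      mul_le_mul_of_nonneg_right (add_le_add a6 hH) hC0
    have b2 : p ≤ Cb * p := le_mul_of_one_le_left hp hC
    linarith only [a5, b1, b2, hkp]
  · have b1 := mul_le_mul_of_nonneg_left a5 hθ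
    have b2 : θ * Cb * E0 ≤ 1 / 2 * E0 := mul_le_mul_of_nonneg_right a2 hE0
    linarith only [hE, b1, b2]

/-- The inequalities between the constants. -/
structure KH (ι : Type) [Fintype ι] [DecidableEq ι] [Nonempty ι] (c : FC) (ζ C1 Cb C5 p : ℝ) :
    Prop where
  hl : HL ι c.Λ C1
  hC1 : 0 ≤ C1
  hd : DP ι C5
  hC5 : 1 ≤ C5
  hΛ : 1 < c.Λ
  hζ : (1 + 1 / (c.Λ - 1)) * ζ ≤ 1 / 16
  hCb : 1 ≤ Cb
  bump : ∀ Q : Bx ι, Q.Two → ∃ b Db, Bump c.Λ ζ Cb Q b Db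
  hM1 : 4 * (Fintype.card ι : ℝ) ^ 2 + 2 ≤ c.M1 * (1 - rho ι ^ 2)
  hM2 : 16 * (((Fintype.card ι : ℝ) ^ 2 + c.M1) * (1 + 2 / (1 - rho ι ^ 2)) * Cb ^ 2) ≤ c.M2
  M1 : 1 ≤ c.M1
  M2 : 1 ≤ c.M2
  p0 : 0 < p
  hP : c.P1 = p ^ 2
  hp : 17 * Fintype.card ι * Cb * p ≤ c.δ
  hδ : C5 * c.δ ≤ 1 / 2
  η0 : 0 ≤ c.η0
  hθ : (2 * (C5 * c.δ) + c.η0 * ((4 + c.M2 * C1) * (Fintype.card ι : ℝ) ^ 2)) *
    (2 * c.M2 * Cb) ≤ 1
  hd1 : 8 * c.M2 * c.d1 ≤ p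
  hq : 12 * c.M2 ≤ c.Cq

section Step

variable {c : FC} {f ζ C1 Cb C5 p : ℝ} {Q : Bx ι} {F : FD ι}

theorem reg_of (h : FSt c f Q F) : Reg Q F := ⟨h.two, h.cont, h.pk, h.lip⟩

theorem KH.pot_nonneg (K : KH ι c ζ C1 Cb C5 p) (Q : Bx ι) (F : FD ι) : 0 ≤ pot c Q F := by
  have h1 := SA_nonneg Q F
  have h2 := SH_nonneg (by linarith only [K.hΛ] : 0 ≤ c.Λ) Q F
  have h3 : 0 ≤ c.M1 := by linarith only [K.M1]
  have h4 : 0 ≤ c.M2 := by linarith only [K.M2]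
  rw [pot_eq]
  positivity

theorem KH.δ_bd (K : KH ι c ζ C1 Cb C5 p) : 0 ≤ c.δ ∧ c.δ ≤ 1 / 2 := by
  have h1 := K.hCb
  have h2 := K.p0
  have h3 : 0 ≤ c.δ := le_trans (by positivity) K.hp
  exact ⟨h3, (le_mul_of_one_le_left h3 K.hC5).trans K.hδ⟩

theorem KH.det_bd (K : KH ι c ζ C1 Cb C5 p) {A : E ι →L[ℝ] E ι} (h : ‖A‖ ≤ c.δ) :
    |(1 + A).det - 1| ≤ 1 / 2 :=
  (K.hd c.δ A A (by linarith only [K.δ_bd.2]) h h).2.trans K.hδ

theorem KH.det_nonneg (K : KH ι c ζ C1 Cb C5 p) {A : E ι →L[ℝ] E ι} (h : ‖A‖ ≤ c.δ) :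
    0 ≤ (1 + A).det := by linarith only [(abs_le.1 (K.det_bd h)).1, h]

omit [Nonempty ι] in
theorem a0_pos (hh : ∀ i, 0 < F.h i) (hQ : Q.Pos) : 0 < F.a0 Q :=
  mul_pos (Finset.prod_pos fun i _ => hh i) hQ.vol_pos

/-- What a small potential gives. -/
theorem KH.small (K : KH ι c ζ C1 Cb C5 p) (h : Reg Q F) (hp : pot c Q F ≤ c.P1) :
    (∀ i j, |av Q F i j| ≤ p) ∧ F.κ * Q.sc ≤ p ∧
      |(Q.L Q.sj).avg F.dv - (Q.R Q.sj).avg F.dv| ≤ p := by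
  have hΛ : 0 ≤ c.Λ := by linarith only [K.hΛ]
  have h1 := SA_nonneg Q F
  have h2 := SH_nonneg hΛ Q F
  have h3 := K.M1
  have h4 := K.M2
  rw [pot_eq, K.hP] at hp
  have h5 : (F.κ * Q.sc) ^ 2 ≤ c.M1 * (F.κ * Q.sc) ^ 2 := le_mul_of_one_le_left (sq_nonneg _) h3
  have h6 : SH c.Λ Q F ≤ c.M2 * SH c.Λ Q F := le_mul_of_one_le_left h2 h4
  have h7 := sq_nonneg (F.κ * Q.sc)
  refine ⟨fun i j => abs_le_of_sq_le_sq (by linarith only [av_sq_le Q F i j, hp, h2, h5, h6, h7]) K.p0.le,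
    (le_abs_self _).trans (abs_le_of_sq_le_sq (by linarith only [hp, h1, h2, h5, h6]) K.p0.le),
    abs_le_of_sq_le_sq ?_ K.p0.le⟩
  have h8 : ((Q.L Q.sj).avg F.dv - (Q.R Q.sj).avg F.dv) ^ 2
      + c.Λ * (SH c.Λ (Q.L Q.sj) F + SH c.Λ (Q.R Q.sj) F) / 2 ≤ SH c.Λ Q F :=
    hs_iSup hΛ (h.bdd K.hl) ⟨h.L.bdd K.hl, h.R.bdd K.hl⟩
  have h9 : 0 ≤ c.Λ * (SH c.Λ (Q.L Q.sj) F + SH c.Λ (Q.R Q.sj) F) :=
    mul_nonneg hΛ (add_nonneg (SH_nonneg hΛ _ _) (SH_nonneg hΛ _ _))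
  linarith only [hp, h1, h5, h6, h7, h8, h9]

variable {b : E ι → E ι} {Db : E ι → E ι →L[ℝ] E ι}

theorem KH.norm_pert (K : KH ι c ζ C1 Cb C5 p) (h : FSt c f Q F) (hb : Bump c.Λ ζ Cb Q b Db)
    {e : ℝ} (he : F.κ * Q.sc + |e| * Cb ≤ 8 * Cb * p) (x : E ι) :
    ‖(pert F b Db (Cb / Q.sc) e).D x‖ ≤ c.δ := by
  by_cases hx : x ∈ Q.set
  · have hr := hb.reg (reg_of h) e
    have h1 := hr.norm_le (p := p)
      (fun i j => by rw [hb.av_eq (reg_of h)]; exact (K.small (reg_of h) h.pot).1 i j) hx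
    rw [pert_k h.two] at h1
    refine h1.trans (le_trans ?_ K.hp)
    have h2 : p ≤ Cb * p := le_mul_of_one_le_left K.p0.le K.hCb
    have h3 : p + 2 * (F.κ * Q.sc + |e| * Cb) ≤ 17 * Cb * p := by linarith only [he, h2]
    calc _ ≤ Fintype.card ι * (17 * Cb * p) := by gcongr
      _ = _ := by ring
  · show ‖F.D x + e • Db x‖ ≤ c.δ
    rw [(hb.out x (Or.inl hx)).2, smul_zero, add_zero]
    exact h.sm x

/-- The choice of the amplitude. -/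
theorem KH.amp (K : KH ι c ζ C1 Cb C5 p) (h : FSt c f Q F) (hb : Bump c.Λ ζ Cb Q b Db)
    {η d : ℝ} (hη : 0 ≤ η) (hη' : η ≤ c.η0) (hd : |d| ≤ p) :
    ∃ e : ℝ, (∀ x, ‖(pert F b Db (Cb / Q.sc) e).D x‖ ≤ c.δ) ∧
      pot c (Q.L Q.sj) (pert F b Db (Cb / Q.sc) e) + pot c (Q.R Q.sj) (pert F b Db (Cb / Q.sc) e)
        ≤ 2 * (pot c Q F + 12 * c.M2 * d ^ 2) ∧
      dt (Q.L Q.sj) (pert F b Db (Cb / Q.sc) e) - dt (Q.R Q.sj) (pert F b Db (Cb / Q.sc) e) =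
        2 * d + η * (pot c (Q.L Q.sj) (pert F b Db (Cb / Q.sc) e)
          - pot c (Q.R Q.sj) (pert F b Db (Cb / Q.sc) e)) := by
  have hr := reg_of h
  have hΛ : 0 ≤ c.Λ := zero_le_one.trans K.hΛ.le
  obtain ⟨-, hk, hH⟩ := K.small hr h.pot
  have hk0 : 0 ≤ F.κ * Q.sc := mul_nonneg h.pk (sc_pos h.two).le
  obtain ⟨δ0, δ1⟩ := K.δ_bd
  have hM2 : 0 ≤ c.M2 := zero_le_one.trans K.M2
  have hC1 := K.hC1
  have hC5 : 0 ≤ C5 := zero_le_one.trans K.hC5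
  have δ2 : c.δ ≤ 1 := by linarith only [δ1]
  have hη0 := K.η0
  have hCb : 0 ≤ Cb := hb.Cb_nonneg
  obtain ⟨θ, hθ⟩ : ∃ θ, θ = 2 * (C5 * c.δ) +
    c.η0 * ((4 + c.M2 * C1) * (Fintype.card ι : ℝ) ^ 2) := ⟨_, rfl⟩
  have θ0 : 0 ≤ θ := by rw [hθ]; positivity
  have θ1 : θ * (2 * c.M2 * Cb) ≤ 1 := by rw [hθ]; exact K.hθ
  obtain ⟨H, hHd⟩ : ∃ H, H = (Q.L Q.sj).avg F.dv - (Q.R Q.sj).avg F.dv := ⟨_, rfl⟩
  rw [← hHd] at hH
  obtain ⟨E0, hE⟩ : ∃ E0, E0 = 4 * |d| + 2 * θ * (F.κ * Q.sc + Cb * |H|) := ⟨_, rfl⟩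
  have hE0 : 0 ≤ E0 := by
    rw [hE]
    exact add_nonneg (mul_nonneg (by norm_num) (abs_nonneg _)) (mul_nonneg
      (mul_nonneg zero_le_two θ0) (add_nonneg hk0 (mul_nonneg hCb (abs_nonneg _))))
  set G : ℝ → ℝ := fun e => dt (Q.L Q.sj) (pert F b Db (Cb / Q.sc) e)
    - dt (Q.R Q.sj) (pert F b Db (Cb / Q.sc) e) - (2 * d + η *
      (pot c (Q.L Q.sj) (pert F b Db (Cb / Q.sc) e)
        - pot c (Q.R Q.sj) (pert F b Db (Cb / Q.sc) e))) with hG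
  have hGc : Continuous G :=
    ((cont_dt _ h.cont hb.cont _).sub (cont_dt _ h.cont hb.cont _)).sub
      (continuous_const.add (continuous_const.mul
        ((cont_pot hΛ h.cont hb.cont (hr.L.bdd K.hl) (fun m => (hb.hs m).1) _).sub
          (cont_pot hΛ h.cont hb.cont (hr.R.bdd K.hl) (fun m => (hb.hs m).2) _))))
  have key : ∀ e, |e + H| ≤ E0 → (∀ x, ‖(pert F b Db (Cb / Q.sc) e).D x‖ ≤ c.δ) ∧
      |G e - (H + e - 2 * d)| ≤ E0 - 2 * |d| := by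
    intro e he
    rw [hE] at he
    obtain ⟨a1, a2⟩ := arith2 K.M2 K.hCb θ0 θ1 hk0 hk hH hd he
    have hn := K.norm_pert h hb a1
    refine ⟨hn, ?_⟩
    have hr' := hb.reg hr e
    have hk1 : F.κ * Q.sc + |e| * Cb ≤ 1 := by
      have b1 : (1 : ℝ) ≤ Fintype.card ι := by exact_mod_cast Fintype.card_pos
      have b2 : 0 ≤ Cb * p := mul_nonneg hCb K.p0.le
      linarith only [a1, δ1, b2, K.hp, mul_le_mul_of_nonneg_right b1 b2]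
    have b1 := hr'.pot_diff (fun x => (hn x).trans δ2) K.hl hC1 hΛ hM2
      (by rw [pert_k h.two]; exact hk1)
    have b2 := hr'.dt_diff hn δ2 K.hd hC5
    rw [pert_k h.two] at b1 b2
    rw [hb.jump_eq hr, ← hHd] at b2
    rw [← hE] at a2
    refine le_trans ?_ a2
    have e1 : G e - (H + e - 2 * d) = (dt (Q.L Q.sj) (pert F b Db (Cb / Q.sc) e)
        - dt (Q.R Q.sj) (pert F b Db (Cb / Q.sc) e) - (H + e)) - η *
        (pot c (Q.L Q.sj) (pert F b Db (Cb / Q.sc) e)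
          - pot c (Q.R Q.sj) (pert F b Db (Cb / Q.sc) e)) := by
      simp only [hG]; ring
    rw [e1]
    refine (abs_sub _ _).trans ?_
    rw [abs_mul, abs_of_nonneg hη]
    have b3 := mul_le_mul hη' b1 (abs_nonneg _) hη0
    rw [hθ]
    linarith only [b2, b3]
  have hlo := (key (-H - E0) (by
    rw [show -H - E0 + H = -E0 by ring, abs_neg, abs_of_nonneg hE0])).2
  have hhi := (key (-H + E0) (by rw [show -H + E0 + H = E0 by ring, abs_of_nonneg hE0])).2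
  have hd1 := le_abs_self d
  have hd2 := neg_abs_le d
  obtain ⟨e, he, hGe⟩ : (0 : ℝ) ∈ G '' Icc (-H - E0) (-H + E0) :=
    intermediate_value_Icc (by linarith only [hE0]) hGc.continuousOn
      ⟨by linarith only [(abs_le.1 hlo).2, hd2], by linarith only [(abs_le.1 hhi).1, hd1]⟩
  have he' : |e + H| ≤ E0 := abs_le.2 ⟨by linarith only [he.1], by linarith only [he.2]⟩
  refine ⟨e, (key e he').1, ?_, ?_⟩
  · have b1 := hb.pot_mean hr K.hl K.hΛ K.hζ K.hM1 K.hM2 e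
    rw [hE] at he'
    have b2 := arith1 K.M2 K.hCb θ0 θ1 he'
    rw [← hHd] at b1
    linarith only [b1, b2]
  · exact sub_eq_zero.1 hGe

theorem KH.step (K : KH ι c ζ C1 Cb C5 p) (h : FSt c f Q F) (hp : pot c Q F ≤ c.P1 / 4)
    {η c1 c2 : ℝ} (hη : 0 ≤ η) (hη' : η ≤ c.η0) (hc : |c1 - c2| ≤ c.d1 * F.a0 Q)
    (hv : c1 + c2 + η * F.a0 Q * pot c Q F + η * c.Cq * (c1 - c2) ^ 2 / F.a0 Q ≤ F.vol Q) :
    ∃ F' : FD ι, F'.o = F.o ∧ F'.h = F.h ∧ FSt c f (Q.L Q.sj) F' ∧ FSt c f (Q.R Q.sj) F' ∧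
      (∀ x, x ∉ Q.set ∨ x ∈ Q.bd → F'.u x = F.u x) ∧
      c1 + η * F'.a0 (Q.L Q.sj) * pot c (Q.L Q.sj) F' ≤ F'.vol (Q.L Q.sj) ∧
      c2 + η * F'.a0 (Q.R Q.sj) * pot c (Q.R Q.sj) F' ≤ F'.vol (Q.R Q.sj) := by
  obtain ⟨b, Db, hb⟩ := K.bump Q h.two
  have ha := a0_pos h.ph h.two.1
  obtain ⟨d, hd⟩ : ∃ d, d = (c1 - c2) / F.a0 Q := ⟨_, rfl⟩
  have hd0 : c1 - c2 = d * F.a0 Q := by rw [hd]; field_simp
  have hd1 : |d| ≤ c.d1 := by
    rw [hd0, abs_mul, abs_of_pos ha] at hc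
    exact le_of_mul_le_mul_right hc ha
  have hM2 := K.M2
  have hM0 : 0 ≤ c.M2 := zero_le_one.trans hM2
  have hd2 : 8 * c.M2 * |d| ≤ p :=
    (mul_le_mul_of_nonneg_left hd1 (mul_nonneg (by norm_num) hM0)).trans K.hd1
  have hd3 : |d| ≤ p := by
    linarith only [hd2, abs_nonneg d, le_mul_of_one_le_left (abs_nonneg d) hM2]
  obtain ⟨e, hn, hm, heq⟩ := K.amp h hb hη hη' hd3
  set F' := pert F b Db (Cb / Q.sc) e with hF'
  have hr : Reg Q F' := hb.reg (reg_of h) e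
  have hder : ∀ x, HasFDerivAt F'.u (F'.D x) x := fun x => (h.der x).add ((hb.der x).const_smul e)
  have hu : ∀ x, x ∉ Q.set ∨ x ∈ Q.bd → F'.u x = F.u x := by
    intro x hx
    show F.u x + e • b x = F.u x
    rw [(hb.out x hx).1, smul_zero, add_zero]
  have pL := K.pot_nonneg (Q.L Q.sj) F'
  have pR := K.pot_nonneg (Q.R Q.sj) F'
  have hsm : 12 * c.M2 * d ^ 2 ≤ c.P1 / 4 := by
    rw [K.hP, ← sq_abs d]
    have b2 : (8 * c.M2 * |d|) ^ 2 ≤ p ^ 2 :=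
      pow_le_pow_left₀ (mul_nonneg (mul_nonneg (by norm_num) hM0) (abs_nonneg _)) hd2 2
    have b3 : c.M2 * |d| ^ 2 ≤ c.M2 * (c.M2 * |d| ^ 2) :=
      le_mul_of_one_le_left (mul_nonneg hM0 (sq_nonneg _)) hM2
    linarith only [b2, b3, mul_nonneg (zero_le_one.trans hM2) (sq_nonneg |d|)]
  have hn' : ∀ x, ‖F'.D x‖ ≤ 1 / 2 := fun x => (hn x).trans K.δ_bd.2
  have hdet : ∀ x, 0 ≤ (1 + F'.D x).det := fun x => K.det_nonneg (hn x)
  have hph : ∀ i, 0 < F'.h i := h.ph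
  have vL : F'.vol (Q.L Q.sj) = F'.a0 (Q.L Q.sj) * dt (Q.L Q.sj) F' :=
    FD.vol_eq hph hder hr.cont hn' hdet hr.L.two.1
  have vR : F'.vol (Q.R Q.sj) = F'.a0 (Q.R Q.sj) * dt (Q.R Q.sj) F' :=
    FD.vol_eq hph hder hr.cont hn' hdet hr.R.two.1
  have vQ := FD.vol_half hph hder hr.cont hn' hdet h.two.1 Q.sj
  have vE : F'.vol Q = F.vol Q := by
    have b1 := ((FD.mix h.two.1 h.ph h.der (fun x => (h.sm x).trans K.δ_bd.2) hder hn' rfl rfl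
      hu).1 1 ⟨zero_le_one, le_rfl⟩).image_eq
    simp only [sub_self, zero_smul, one_smul, zero_add] at b1
    unfold FD.vol
    rw [← b1]
  have aL : F'.a0 (Q.L Q.sj) = F.a0 Q / 2 := (FD.a0_half F' Q Q.sj).1
  have aR : F'.a0 (Q.R Q.sj) = F.a0 Q / 2 := (FD.a0_half F' Q Q.sj).2
  have e1 : η * c.Cq * (c1 - c2) ^ 2 / F.a0 Q = η * F.a0 Q * (c.Cq * d ^ 2) := by
    rw [hd0]; field_simp
  have b1 : η * F.a0 Q * ((pot c (Q.L Q.sj) F' + pot c (Q.R Q.sj) F') / 2) ≤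
      η * F.a0 Q * (pot c Q F + c.Cq * d ^ 2) := by
    have := mul_le_mul_of_nonneg_right K.hq (sq_nonneg d)
    exact mul_le_mul_of_nonneg_left (by linarith only [this, hm]) (mul_nonneg hη ha.le)
  have b2 : F.a0 Q * (dt (Q.L Q.sj) F' - dt (Q.R Q.sj) F') =
      F.a0 Q * (2 * d + η * (pot c (Q.L Q.sj) F' - pot c (Q.R Q.sj) F')) := by rw [heq]
  rw [e1, ← vE, vQ, vL, vR, aL, aR] at hv
  refine ⟨F', rfl, rfl,
    ⟨hr.L.two, h.ph, h.asp, hder, hr.cont, hn, hr.pk, hr.L.lip, by linarith only [hm, hp, hsm, pR]⟩,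
    ⟨hr.R.two, h.ph, h.asp, hder, hr.cont, hn, hr.pk, hr.R.lip, by linarith only [hm, hp, hsm, pL]⟩,
    hu, ?_, ?_⟩
  · rw [vL, aL]; linarith only [hv, b1, b2, hd0]
  · rw [vR, aR]; linarith only [hv, b1, b2, hd0]

end Step

/-- The choice of the constants. -/
theorem exists_KH {δ0 : ℝ} (h0 : 0 < δ0) : ∃ (c : FC) (ζ C1 Cb C5 p : ℝ), KH ι c ζ C1 Cb C5 p ∧
    c.δ ≤ δ0 ∧ p ≤ 1 ∧ 0 < c.d1 ∧ 0 < c.η0 ∧ c.η0 ≤ 1 := by
  have hN : (1 : ℝ) ≤ Fintype.card ι := by exact_mod_cast Fintype.card_pos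
  have hN' : 2 * Fintype.card ι ≠ 0 := by have := Fintype.card_pos (α := ι); omega
  obtain ⟨Λ, hΛ, hΛ2⟩ : ∃ Λ : ℝ, 1 < Λ ∧ Λ ^ (2 * Fintype.card ι) ≤ 2 := by
    refine ⟨(2 : ℝ) ^ (((2 * Fintype.card ι : ℕ) : ℝ)⁻¹), Real.one_lt_rpow (by norm_num) ?_,
      (Real.rpow_inv_natCast_pow (by norm_num) hN').le⟩
    exact inv_pos.2 (by exact_mod_cast Nat.pos_of_ne_zero hN')
  obtain ⟨C1, q, hC1, -, -, hl⟩ := hs_lip (ι := ι) hΛ.le hΛ2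
  have hΛ1 : 0 < Λ - 1 := sub_pos.2 hΛ
  have hζ : 0 < (Λ - 1) / (16 * Λ) := by positivity
  obtain ⟨Cb, hCb, hb⟩ := exists_bump (ι := ι) hΛ.le hΛ2 hζ
  obtain ⟨C5, hC5, hd⟩ := det_pert (ι := ι)
  obtain ⟨c1, c2, -⟩ := rho_sq_bd (ι := ι)
  obtain ⟨M1, hM1, hM1'⟩ : ∃ M1 : ℝ, 1 ≤ M1 ∧
      4 * (Fintype.card ι : ℝ) ^ 2 + 2 ≤ M1 * (1 - rho ι ^ 2) := by
    refine ⟨(4 * (Fintype.card ι : ℝ) ^ 2 + 2) / (1 - rho ι ^ 2), ?_,
      (div_mul_cancel₀ _ c1.ne').ge⟩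
    rw [le_div_iff₀ c1]
    linarith only [c2, sq_nonneg (Fintype.card ι : ℝ)]
  obtain ⟨M2, hM2, hM2'⟩ : ∃ M2 : ℝ, 1 ≤ M2 ∧
      16 * (((Fintype.card ι : ℝ) ^ 2 + M1) * (1 + 2 / (1 - rho ι ^ 2)) * Cb ^ 2) ≤ M2 :=
    ⟨_, le_max_left _ _, le_max_right _ _⟩
  obtain ⟨C6, hC6, hC6'⟩ : ∃ C6 : ℝ, C6 = (4 + M2 * C1) * (Fintype.card ι : ℝ) ^ 2 ∧ 1 ≤ C6 := by
    refine ⟨_, rfl, one_le_mul_of_one_le_of_one_le ?_ (one_le_pow₀ hN)⟩
    have : 0 ≤ M2 * C1 := by positivity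
    linarith only [this]
  have hMC : 1 ≤ M2 * Cb := one_le_mul_of_one_le_of_one_le hM2 hCb
  obtain ⟨δ, hδ0, hδ1, hδ2⟩ : ∃ δ : ℝ, 0 < δ ∧ δ ≤ δ0 ∧ C5 * δ * (M2 * Cb) ≤ 1 / 8 := by
    refine ⟨min δ0 (1 / (8 * (M2 * Cb) * C5)), by positivity, min_le_left _ _, ?_⟩
    calc _ ≤ C5 * (1 / (8 * (M2 * Cb) * C5)) * (M2 * Cb) := by gcongr; exact min_le_right _ _
      _ = _ := by field_simp
  have hδ3 : C5 * δ ≤ 1 / 2 := by
    have : 0 ≤ C5 * δ := by positivity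
    linarith only [hδ2, le_mul_of_one_le_right this hMC]
  have hη : 1 / (4 * (M2 * Cb) * C6) * C6 * (M2 * Cb) = 1 / 4 := by field_simp
  have hNC : 1 ≤ Fintype.card ι * Cb := one_le_mul_of_one_le_of_one_le hN hCb
  refine ⟨⟨M1, M2, Λ, δ, (δ / (17 * Fintype.card ι * Cb)) ^ 2,
    δ / (17 * Fintype.card ι * Cb) / (8 * M2), 1 / (4 * (M2 * Cb) * C6), 12 * M2⟩,
    (Λ - 1) / (16 * Λ), C1, Cb, C5, δ / (17 * Fintype.card ι * Cb),
    ⟨fun Q g κ a1 a2 a3 a4 => (hl Q g κ a1 a2 a3 a4).1, by linarith only [hC1], hd, hC5, hΛ, ?_, hCb, ?_,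
      hM1', hM2', hM1, hM2, by positivity, rfl, ?_, hδ3, by positivity, ?_, ?_, le_rfl⟩,
    hδ1, ?_, by positivity, by positivity, ?_⟩
  · show (1 + 1 / (Λ - 1)) * ((Λ - 1) / (16 * Λ)) ≤ 1 / 16
    refine le_of_eq ?_
    field_simp
    ring
  · intro Q hQ
    obtain ⟨b, Db, a1, a2, a3, a4, a5, a6, a7, a8⟩ := hb Q hQ
    exact ⟨b, Db, a1, a2, a3, a4, a5, a6, a7, a8⟩
  · show 17 * Fintype.card ι * Cb * (δ / (17 * Fintype.card ι * Cb)) ≤ δ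
    refine le_of_eq ?_
    field_simp
  · show (2 * (C5 * δ) + 1 / (4 * (M2 * Cb) * C6) *
      ((4 + M2 * C1) * (Fintype.card ι : ℝ) ^ 2)) * (2 * M2 * Cb) ≤ 1
    rw [← hC6]
    linarith only [hη, hδ2]
  · show 8 * M2 * (δ / (17 * Fintype.card ι * Cb) / (8 * M2)) ≤ δ / (17 * Fintype.card ι * Cb)
    refine le_of_eq ?_
    field_simp
  · rw [div_le_one (by positivity)]
    linarith only [hδ3, hNC, le_mul_of_one_le_left hδ0.le hC5]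
  · show 1 / (4 * (M2 * Cb) * C6) ≤ 1
    rw [div_le_one (by positivity)]
    linarith only [one_le_mul_of_one_le_of_one_le hMC hC6']

end FS

open FS in
theorem exists_FC {f : ℝ} (hf : 0 < f) (hf' : f ≤ 1 / 16) : ∃ c : FC, c.Good (ι := ι) f := by
  have he : 0 < eps ι f := (consts hf hf').1
  obtain ⟨c, ζ, C1, Cb, C5, p, K, hδ, hp, hd, hη, hη'⟩ :=
    exists_KH (ι := ι) (δ0 := eps ι f * f / 20) (by positivity)
  have hp0 := K.p0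
  have hM2 := K.M2
  refine ⟨c, by rw [K.hP]; positivity, by rw [K.hP]; exact pow_le_one₀ hp0.le hp, hd,
    by linarith only [K.hd1, hp, hd, le_mul_of_one_le_left hd.le hM2], hη, hη',
    by linarith only [K.hq, hM2], fun Q F _ => K.pot_nonneg Q F, ?_, ?_, ?_, ?_, ?_⟩
  · intro Q o h hQ hh ha
    have h0 : pot c Q ⟨o, h, 0, 0, 0⟩ = 0 := by
      have e1 : (⟨o, h, 0, 0, 0⟩ : FD ι).dv = fun _ => 0 := by
        funext x; simp [FD.dv]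
      have e2 : ∀ i j, av Q ⟨o, h, 0, 0, 0⟩ i j = 0 := fun i j => by
        have := Bx.avg_const hQ.1 0
        simpa [av] using this
      rw [pot_eq]
      simp [SA, SH, e1, e2, hs_zero]
    refine ⟨⟨hQ, hh, ha, fun x => hasFDerivAt_const (0 : E ι) x, continuous_const,
      fun x => ?_, le_rfl, fun x _ x' _ => ?_, ?_⟩, h0⟩
    · simpa using K.δ_bd.1
    · simp
    · rw [h0, K.hP]; positivity
  · intro Q F h
    have ha := a0_pos h.ph h.two.1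
    have h1 := Bx.abs_avg_sub_le h.two.1 (cont_det h.cont).continuousOn
      (fun x _ => K.det_bd (h.sm x))
    rw [FD.vol_eq h.ph h.der h.cont (fun x => (h.sm x).trans K.δ_bd.2)
      (fun x => K.det_nonneg (h.sm x)) h.two.1]
    obtain ⟨h2, h3⟩ := abs_le.1 h1
    have h4 := mul_le_mul_of_nonneg_left h2 ha.le
    have h5 := mul_le_mul_of_nonneg_left h3 ha.le
    exact ⟨by linarith only [h4], by linarith only [h5, ha]⟩
  · intro Q F h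
    exact FD.exit hf hf' h.two h.ph h.asp h.der fun x => (h.sm x).trans hδ
  · intro Q F h _ _ hp η c1 c2 a1 a2 a3 a4
    exact K.step h hp a1 a2 a3 a4
  · intro Q Q' F F' h h' ho hh hu
    exact FD.mix h.two.1 h.ph h.der (fun x => (h.sm x).trans K.δ_bd.2) h'.der
      (fun x => (h'.sm x).trans K.δ_bd.2) ho hh hu

end Pool.Agent.Lib.MP_ecd4e3_gt.N
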