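import Pool.Agent.Lib.MP_ecd4e3_gt.N.LNum
import Pool.Agent.Lib.MP_ecd4e3_gt.N.Rec

/-! The cascade of unfoldings. -/

namespace Pool.Agent.Lib.MP_ecd4e3_gt.N

open Set Filter Topology Metric MeasureTheory
open scoped NNReal ENNReal

variable {ι : Type} [Fintype ι] [DecidableEq ι] [Nonempty ι] {Y : Type} [MetricSpace Y]

namespace LCas

/-- The problem of the box `Q` from the time `t0` on, prescribed up to the time `t1`. -/
noncomputable def pbT (L : LE ι Y) (k : ℤ) (Q : Bx ι) (t0 t1 : ℝ) (β : ℝ × E ι → Y)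
    (g : ℝ × E ι → ℝ × E ι → ℝ) : Pb ℝ (E ι) Y :=
  ⟨Ici t0 ×ˢ Q.set, Ici t0 ×ˢ Q.bd ∪ Icc t0 t1 ×ˢ Q.set,
    fun z => if z.1 ≤ t1 then β z else L.P k z, fun t => {y | t ∈ Ici t0 ∧ y ∈ L.e '' Q.set}, g, 1⟩

section Tools

variable {L : LE ι Y} {k k' : ℤ} {Q : Bx ι} {t0 t1 b : ℝ} {β β' Z Z1 Z2 H : ℝ × E ι → Y}
  {g g' : ℝ × E ι → ℝ × E ι → ℝ} {W : Set Y}

omit [DecidableEq ι] [Nonempty ι] [MetricSpace Y] in
theorem pbT_sub : (pbT L k Q t0 t1 β g).B ⊆ (pbT L k Q t0 t1 β g).R :=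
  union_subset (prod_mono_right fun _ h => h.1) (prod_mono_left Icc_subset_Ici_self)

omit [DecidableEq ι] [Nonempty ι] [MetricSpace Y] in
theorem pbT_late {z : ℝ × E ι} (hz : z ∈ (pbT L k Q t0 t1 β g).B) (h : ¬ z.1 ≤ t1) :
    z.2 ∈ Q.bd := hz.elim (fun a => a.2) fun a => (h a.1.2).elim

omit [Nonempty ι] in
theorem pbT_wf (hL : L.OK) (hk : L.ok k) (hQ : LB k Q)
    (hlo : ∀ G, Cube k G → G.set ⊆ Q.set → L.lo k G ≤ t0)
    (hm : ∀ t ∈ Icc t0 t1, ∀ x ∈ Q.set, β (t, x) ∈ L.U → β (t, x) ∈ L.e '' Q.set) :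
    (pbT L k Q t0 t1 β g).WF L.U := by
  refine ⟨pbT_sub, fun z hz => ?_, one_pos⟩
  have hz' := pbT_sub hz
  by_cases h : z.1 ≤ t1
  · simp only [pbT, h, if_true]
    exact fun a => ⟨hz'.1, hm _ ⟨hz'.1, h⟩ _ hz'.2 a⟩
  · simp only [pbT, h, if_false]
    intro a
    obtain ⟨x, hx, e, -⟩ := hL.bd.img hk hQ (fun G a b => (hlo G a b).trans hz'.1) hz'.2
      (hQ.bd_sk (pbT_late hz h)) a
    exact ⟨hz'.1, x, hx, e.symm⟩

open Classical in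
omit [Nonempty ι] in
/-- Concatenation in time. -/
theorem seq (h1 : Sol L.U (pbP (Icc t0 b) Q.set Q.bd (L.P k) (L.e '' Q.set) g 1) univ Z1)
    (hβ : ∀ t ∈ Icc t0 t1, ∀ x ∈ Q.set, Ap L.U (Z1 (t, x)) (β (t, x))) (h0 : t0 ≤ b)
    (hb : t1 ≤ b) (h2 : Sol L.U (pbT L k Q b b Z1 g) W Z2) :
    Sol L.U (pbT L k Q t0 t1 β g) W fun z => if z.1 ≤ b then Z1 z else Z2 z := by
  refine (Sol.glue' (p := pbT L k Q t0 t1 β g) (h1.monoW (subset_univ W)) h2 ?_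
    (fun z _ a => (isClosed_Icc.prod Q.isClosed_set).closure_subset a)
    (fun z _ a => (isClosed_Ici.prod Q.isClosed_set).closure_subset a) (fun t y _ => ?_)
    (fun z a1 a2 y hy hw => ?_) (fun t y a1 a2 hy _ => ?_) (fun z hz a => ?_) (fun z hz a => ?_)
    (fun _ _ => Eventually.of_forall fun _ => le_rfl)
    fun _ _ => Eventually.of_forall fun _ => le_rfl).congr_eq pbT_sub fun z hz =>
      if_congr ⟨fun a => ⟨⟨hz.1, a⟩, hz.2⟩, fun a => a.1.2⟩ rfl rfl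
  · exact (Icc_union_Ici_eq_Ici h0 ▸ union_prod :)
  · exact ⟨fun a => (le_total t b).imp (fun c => ⟨⟨a.1, c⟩, a.2⟩) fun c => ⟨c, a.2⟩,
      fun a => a.elim (fun c => ⟨c.1.1, c.2⟩) fun c => ⟨h0.trans c.1, c.2⟩⟩
  · have m : z ∈ (pbT L k Q b b Z1 g).B := .inr ⟨⟨a2.1, a1.1.2⟩, a1.2⟩
    have e : (pbT L k Q b b Z1 g).β z = Z1 z := if_pos a1.1.2
    exact ⟨fun c => (h2.bd' z m (by rwa [e, c]) (by rwa [e, c])).trans (e.trans c),
      fun c => (e.symm.trans (h2.bd z m (c ▸ hy)).symm).trans c⟩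
  · obtain ⟨x, hx, e⟩ := h1.ex t y a1 hy trivial
    exact ⟨x, hx, ⟨a2.1, hx.2⟩, e⟩
  · have : Ap L.U (Z1 z) ((pbT L k Q t0 t1 β g).β z) := by
      by_cases h : z.1 ≤ t1
      · exact (hβ _ ⟨a.1.1, h⟩ _ a.2).trans (.of_eq (if_pos h).symm)
      · exact (h1.ap z ⟨a.1, pbT_late hz h⟩).trans (.of_eq (if_neg h).symm)
    exact ⟨fun c => this (.inl c), fun c _ => this (.inr c)⟩
  · have c : ¬ z.1 ≤ b := fun c => a ⟨⟨(pbT_sub hz).1, c⟩, (pbT_sub hz).2⟩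
    have c' : ¬ z.1 ≤ t1 := fun d => c (d.trans hb)
    have m : z ∈ (pbT L k Q b b Z1 g).B := .inl ⟨(not_le.1 c).le, pbT_late hz c'⟩
    have e : (pbT L k Q b b Z1 g).β z = (pbT L k Q t0 t1 β g).β z :=
      (if_neg c).trans (if_neg c').symm
    exact ⟨fun d => e ▸ h2.bd z m d, fun d d' => e ▸ h2.bd' z m (e ▸ d) (e ▸ d')⟩

omit [DecidableEq ι] [Nonempty ι] in
/-- Restriction to later times. -/
theorem shift (h : Sol L.U (pbT L k Q t0 t1 β g') W Z) (h0 : t0 ≤ b) (h1 : b ≤ t1)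
    (hβ : ∀ x ∈ Q.set, Ap L.U (β' (b, x)) (β (b, x)))
    (hbd : ∀ t, b < t → t ≤ t1 → ∀ x ∈ Q.bd, Ap L.U (L.P k (t, x)) (β (t, x)))
    (hg : ∀ z z', g' z z' ≤ g z z') : Sol L.U (pbT L k Q b b β' g) W Z := by
  refine h.comp id Prod.snd (p := pbT L k Q b b β' g) (fun z hz => ⟨h0.trans hz.1, hz.2⟩)
    (fun z hz _ a => ⟨hz.1, a.2⟩) (fun t y a _ => ⟨h0.trans a.1, a.2⟩)
    (fun t y a _ _ x c _ => ⟨x, ⟨a.1, c.2⟩, rfl⟩) (fun _ _ _ _ _ _ a => a)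
    (fun z _ _ => ⟨continuousWithinAt_id, Eventually.of_forall fun _ => hg _ _⟩)
    fun ⟨t, x⟩ hz => .inl ?_
  have hz' := pbT_sub hz
  by_cases c : t ≤ b
  · obtain rfl : b = t := le_antisymm hz'.1 c
    exact ⟨.inr ⟨⟨h0, h1⟩, hz'.2⟩, by simpa [pbT, h1] using hβ x hz'.2⟩
  · refine ⟨.inl ⟨h0.trans hz'.1, pbT_late hz c⟩, ?_⟩
    by_cases d : t ≤ t1
    · simpa [pbT, c, d] using hbd t (not_le.1 c) d x (pbT_late hz c)
    · simpa [pbT, c, d] using Ap.rfl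

open Classical in
omit [Nonempty ι] in
/-- Gluing along the wall between two halves. -/
theorem halves (hL : L.OK) (hk : L.ok k') (hQ : LB k' Q) {j : ι} (hm : Lat k' (Q.mid j))
    (hlo : ∀ G, Cube k' G → G.set ⊆ Q.set → L.lo k' G ≤ b)
    (hsw : ∀ t, b ≤ t → ∀ x ∈ Q.bd, Ap L.U (L.P k (t, x)) (L.P k' (t, x)))
    (hw : ∀ x ∈ (Q.L j).bd, Ap L.U (β (b, x)) (L.P k' (b, x)))
    (h1 : Sol L.U (pbT L k' (Q.L j) b b β g) W Z1) (h2 : Sol L.U (pbT L k' (Q.R j) b b β g) W Z2) :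
    Sol L.U (pbT L k Q b b β g) W fun z => if z.2 ∈ (Q.L j).set then Z1 z else Z2 z := by
  have hp := hQ.pos
  have sL := hp.set_L j
  have sR := hp.set_R j
  have wall : ∀ w ∈ (Q.L j).set, w ∈ (Q.R j).set → w j = Q.mid j := fun w a1 a2 =>
    le_antisymm (sL ▸ a1).2 (sR ▸ a2).2
  have two : ∀ x ∈ Q.set, x ∈ (Q.L j).set ∨ x ∈ (Q.R j).set := fun x hx =>
    (le_total (x j) (Q.mid j)).imp (fun a => sL ▸ ⟨hx, a⟩) fun a => sR ▸ ⟨hx, a⟩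
  refine (Sol.glue (p := pbT L k Q b b β g) h1 h2 ?_
    (fun z _ a => (isClosed_Ici.prod (Bx.isClosed_set _)).closure_subset a)
    (fun z _ a => (isClosed_Ici.prod (Bx.isClosed_set _)).closure_subset a) (fun t y _ => ?_)
    (fun z a1 a2 => ⟨.inl ⟨a1.1, Bx.wall_L a1.2 (wall _ a1.2 a2.2)⟩,
      .inl ⟨a1.1, Bx.wall_R a2.2 (wall _ a1.2 a2.2)⟩, Ap.rfl⟩) ?_ (fun z hz => ?_)
    (fun _ _ => Eventually.of_forall fun _ => le_rfl)
    fun _ _ => Eventually.of_forall fun _ => le_rfl).congr_eq pbT_sub fun z hz =>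
      if_congr ⟨fun a => ⟨hz.1, a⟩, fun a => a.2⟩ rfl rfl
  · refine Subset.antisymm (fun z hz => (two _ hz.2).imp (fun a => ⟨hz.1, a⟩) fun a => ⟨hz.1, a⟩)
      (union_subset (prod_mono_right ?_) (prod_mono_right ?_))
    exacts [sL ▸ inter_subset_left, sR ▸ inter_subset_left]
  · refine ⟨?_, fun a => a.elim (fun a => ⟨a.1, image_mono (sL ▸ inter_subset_left) a.2⟩)
      fun a => ⟨a.1, image_mono (sR ▸ inter_subset_left) a.2⟩⟩
    rintro ⟨a, x, hx, rfl⟩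
    exact (two x hx).imp (fun c => ⟨a, x, c, rfl⟩) fun c => ⟨a, x, c, rfl⟩
  · rintro t _ ⟨ht, w, hw1, rfl⟩ ⟨-, w', hw', e'⟩ hU
    obtain rfl := hL.he.injective e'
    have a0 := wall _ hw1 hw'
    obtain ⟨x, a1, a2, a3⟩ := hL.bd.pre hk hQ (fun G a c => (hlo G a c).trans ht) (sL ▸ hw1).1
      ⟨j, a0 ▸ hm⟩ hU
    have a4 : x j = Q.mid j := (a3 j (a0 ▸ hm)).trans a0
    have a5 : x ∈ (Q.L j).set := sL ▸ ⟨a1, a4.le⟩
    refine ⟨x, ⟨ht, a5⟩, ⟨ht, sR ▸ ⟨a1, a4.ge⟩⟩, ?_⟩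
    by_cases c : t ≤ b
    · obtain rfl : b = t := le_antisymm ht c
      exact (if_pos le_rfl).trans ((hw x (Bx.wall_L a5 a4) (.inr (a2 ▸ hU))).trans a2)
    · exact (if_neg c).trans a2
  · have hz' := pbT_sub hz
    by_cases c : z.1 ≤ b
    · have e : ∀ k Q, (pbT L k Q b b β g).β z = β z := fun _ _ => if_pos c
      exact (two _ hz'.2).imp (fun a => ⟨.inr ⟨⟨hz'.1, c⟩, a⟩, ⟨hz'.1, a⟩, by rw [e, e]; exact .rfl⟩)
        fun a => ⟨.inr ⟨⟨hz'.1, c⟩, a⟩, ⟨hz'.1, a⟩, by rw [e, e]; exact .rfl⟩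
    · have e : ∀ k Q, (pbT L k Q b b β g).β z = L.P k z := fun _ _ => if_neg c
      have s := hsw _ hz'.1 _ (pbT_late hz c)
      exact (hp.bd_half j (pbT_late hz c)).imp
        (fun a => ⟨.inl ⟨hz'.1, a⟩, ⟨hz'.1, a.1⟩, by rwa [e, e]⟩)
        fun a => ⟨.inl ⟨hz'.1, a⟩, ⟨hz'.1, a.1⟩, by rwa [e, e]⟩

omit [DecidableEq ι] [Nonempty ι] in
theorem gK_le {K s a c : ℝ} {z z' : ℝ × E ι} (ha : a ≤ K * z.1) (hc : c ≤ K * s) :
    gs a c z z' ≤ gK K s z z' := by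
  simp only [gs, gK, Real.dist_eq, mul_add, ← mul_assoc]
  gcongr

omit [DecidableEq ι] [Nonempty ι] in
theorem gK_mono {K s s' : ℝ} (hK : 0 ≤ K) (hs : s ≤ s') (z z' : ℝ × E ι) :
    gK K s z z' ≤ gK K s' z z' := by
  unfold gK
  gcongr

omit [DecidableEq ι] [Nonempty ι] in
/-- The identity as a solution. -/
theorem ident (hL : L.OK) {K s : ℝ} (hK : 0 ≤ K) (hs : 0 ≤ s) (hb : 1 ≤ K * b)
    (hβ : ∀ x ∈ Q.set, Ap L.U (L.e x) (β (b, x)))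
    (hP : ∀ t, b ≤ t → ∀ x ∈ Q.bd, Ap L.U (L.e x) (L.P k (t, x))) :
    Sol L.U (pbT L k Q b b β (gK K s)) W fun z => L.e z.2 := by
  refine (sol_of_bij (J := Ici b) (R := Q.set) (B := ∅) (β := β) (S := L.e '' Q.set) (a := 1)
    (b := 0) (c := 1) (fun _ _ => hL.he.injective.injOn.bijOn_image) (fun _ _ _ h => h.elim)
    fun z _ z' _ => by simp [gs, hL.he.dist_eq]).setB rfl (fun ⟨t, x⟩ hz => ?_)
      (fun _ _ _ => Iff.rfl) fun z hz => Eventually.of_forall fun _ =>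
        gK_le (hb.trans (mul_le_mul_of_nonneg_left hz.1 hK)) (mul_nonneg hK hs)
  have hz' := pbT_sub hz
  by_cases c : t ≤ b
  · obtain rfl : b = t := le_antisymm hz'.1 c
    simpa [pbT] using hβ x hz'.2
  · simpa [pbT, c] using hP t hz'.1 x (pbT_late hz c)

/-- A movie played on the time interval from `a` to `b`. -/
noncomputable def play (H : ℝ × E ι → Y) (Q : Bx ι) (a b : ℝ) (w : ℝ × E ι) : Y :=
  H ((w.1 - a) / (b - a), Q.nm w.2)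

theorem mov {a τ A K s z : ℝ} (hp : Q.Pos)
    (h : Sol L.U (pbM (fun x => L.P k (τ, Q.af x)) (L.e '' Q.set) A) univ H) (hab : a < b)
    (hf : ∀ t ∈ Icc a b, ∀ x ∈ Q.bd, Ap L.U (L.P k (t, x)) (L.P k (τ, x))) (hs : 0 < s)
    (hsd : ∀ i, s ≤ Q.sd i) (hA : 0 ≤ A) (hK : 0 ≤ K) (g1 : A * (2 / s) ≤ K * a)
    (g2 : A / (b - a) ≤ K * z) :
    Sol L.U (pbP (Icc a b) Q.set Q.bd (L.P k) (L.e '' Q.set) (gK K z) 1) univ (play H Q a b) := by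
  have d := sub_pos.2 hab
  have m : ∀ t ∈ Icc a b, (t - a) / (b - a) ∈ Icc (0 : ℝ) 1 := fun t ht =>
    ⟨div_nonneg (sub_nonneg.2 ht.1) d.le, (div_le_one d).2 (sub_le_sub_right ht.2 a)⟩
  refine h.comp (fun t => (t - a) / (b - a)) (fun w => Q.nm w.2)
    (fun z hz => ⟨m _ hz.1, mem_closedBall_zero_iff.2 (hp.nm_mem.1 hz.2)⟩)
    (fun z hz _ c => ⟨hz.1, c.2⟩) (fun t y c _ => ⟨m _ c.1, c.2⟩)
    (fun t y c _ _ x e _ => ⟨Q.af x, ⟨c.1, hp.af_mem.2 (mem_closedBall_zero_iff.1 e.2)⟩,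
      hp.nm_af x⟩) (fun _ x x' _ _ _ e => by rw [← hp.af_nm x, ← hp.af_nm x', e])
    (fun w hw _ => ⟨Continuous.continuousWithinAt ?_, Eventually.of_forall fun w' => ?_⟩)
    fun w hw => .inl ⟨⟨m _ hw.1, mem_sphere_zero_iff_norm.2 (hp.nm_mem_bd.1 hw.2)⟩, ?_⟩
  · unfold Bx.nm
    fun_prop
  · refine le_trans ?_ (gK_le (g1.trans (mul_le_mul_of_nonneg_left hw.1.1 hK)) g2)
    have := mul_le_mul_of_nonneg_left (Bx.nm_lip hs hsd w'.2 w.2) hA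
    simp only [pbM, pbP, gs, Real.dist_eq, ← sub_div, sub_sub_sub_cancel_right, abs_div,
      abs_of_pos d]
    exact add_le_add (this.trans_eq (mul_assoc _ _ _).symm) (le_of_eq (by ring))
  · simpa [pbM, pbP, hp.af_nm] using hf _ hw.1 _ hw.2

/-- The boundary data do not move in the window of round `i`. -/
theorem froz (hL : L.OK) {i : ℤ} (hk : L.ok k) (hQ : LB k Q) (ha : L.Anc i k Q) {t : ℝ}
    (ht : t ∈ Icc (L.tm i) (L.B ^ i * L.u')) {x : E ι} (hx : x ∈ Q.bd) :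
    Ap L.U (L.P k (t, x)) (L.P k (L.tm i, x)) :=
  have tb := hL.tm_bd i
  hL.bd.froz' hk hQ
    (fun G a b => ⟨hL.anc_lo hk ha (tb.1.trans ht.1) G a b, hL.anc_lo hk ha tb.1 G a b⟩) (i := i)
    ⟨ht.1, ht.2.trans tb.2.2.2⟩ ⟨le_rfl, tb.2.2.1.le.trans tb.2.2.2⟩ hx.1 (hQ.bd_sk hx)

theorem mov' (hL : L.OK) {i : ℤ} {a C K z : ℝ} (hC : 1 ≤ C) (hK : 2 * C ≤ K) (hk : L.ok k)
    (hQ : BX k Q) (ha : L.Anc i k Q)
    (h : Sol L.U (pbM (fun x => L.P k (L.tm i, Q.af x)) (L.e '' Q.set) (C * L.B ^ i * 2 ^ k))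
      univ H) (h0 : L.tm i ≤ a) (hab : a < b) (h1 : b ≤ L.B ^ i * L.u')
    (hz : C * L.B ^ i * 2 ^ k ≤ K * z * (b - a)) :
    Sol L.U (pbP (Icc a b) Q.set Q.bd (L.P k) (L.e '' Q.set) (gK K z) 1) univ (play H Q a b) := by
  have hB : 0 < L.B ^ i := zpow_pos (by linarith only [hL.pB]) i
  refine mov hQ.lb.pos h hab (fun t ht x => froz hL hk hQ.lb ha ⟨h0.trans ht.1, ht.2.trans h1⟩)
    (two_pos_g k) (fun j => (hQ.sd j).1) (by positivity) (by linarith only [hC, hK]) ?_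
    ((div_le_iff₀ (sub_pos.2 hab)).2 hz)
  calc C * L.B ^ i * 2 ^ k * (2 / 2 ^ k) = 2 * C * L.B ^ i := by field_simp
    _ ≤ K * a := mul_le_mul hK ((hL.tm_bd i).1.trans h0) hB.le (by linarith only [hC, hK])

end Tools

omit [DecidableEq ι] [Nonempty ι] in
/-- Solving a tree of problems whose depth is controlled by an integer. -/
theorem rec' {I : Type} {U : Set Y} (hU : IsOpen U) (hne : Uᶜ.Nonempty) {V : Set I}
    {pb : I → Pb ℝ (E ι) Y} (hc : ∀ q, (pb q).c = 1) {ν : I → ℤ} {d : ℕ}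
    {Rl : I → (I → ℝ × E ι → Y) → Prop}
    (h : ∀ σ ∈ V, (pb σ).WF U ∧ ∃ ch G, ch ⊆ V ∧ PW U ch G ∧
      (∀ W F, (∀ q ∈ ch, Sol U (pb q) W (F q)) → Sol U (pb σ) W (G F)) ∧
      (∀ q ∈ ch, ν q < ν σ ∧ ∃ k : ℤ, 4 * (d * k) ≤ ν σ ∧
        ∀ t, ∀ y ∈ (pb σ).S t, infDist y Uᶜ ≤ 2 * 2 ^ k) ∧
      ∀ F, (∀ q ∈ V, Sol U (pb q) univ (F q)) → (∀ z, Ap U (F σ z) (G F z)) → Rl σ F) :
    ∃ F, ∀ σ ∈ V, Sol U (pb σ) univ (F σ) ∧ Rl σ F := by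
  have : Nonempty Y := ⟨hne.some⟩
  choose! ch G h1 h2 h3 h4 h5 using fun σ hσ => (h σ hσ).2
  have : ∀ r : ℝ≥0, 0 < r → ∃ k : ℤ, 2 * (2 : ℝ) ^ k ≤ r := fun r hr => by
    obtain ⟨k, hk⟩ := exists_mem_Ico_zpow (x := (r : ℝ)) hr one_lt_two
    exact ⟨k - 1, two_pred_g k ▸ hk.1⟩
  choose! kr hkr using this
  obtain ⟨F, hF⟩ := rec_sol hU hne V pb ch G (fun σ hσ => (h σ hσ).1) h1
    (fun σ hσ => ⟨h2 σ hσ, fun o F hF => h3 σ hσ _ F fun q hq => by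
      simpa only [hc] using hF q hq⟩) (fun r σ => (ν σ - 4 * (d * kr r) + 1).toNat)
    fun r hr σ hσ q hq ⟨t, y, a1, _, a2⟩ _ => by
      obtain ⟨b1, k, b2, b3⟩ := h4 σ hσ q hq
      rw [hc, mul_one] at a2
      have := two_le_g.1 (le_of_mul_le_mul_left (((hkr r hr).trans a2).trans (b3 t y a1)) two_pos)
      have := mul_le_mul_of_nonneg_left this (Int.natCast_nonneg d)
      omega
  exact ⟨F, fun σ hσ => ⟨(hF σ hσ).1, h5 σ hσ F (fun q hq => (hF q hq).1) (hF σ hσ).2⟩⟩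

/-- Faces and states of the cascade. -/
abbrev Ix (ι : Type) [Fintype ι] := (ℤ × Bx ι) ⊕ (LS ι × ℝ × ℝ)

/-- Admissible states of the cascade. -/
def VC (L : LE ι Y) (V : Set (LS ι)) (lam : ℝ) : Set (LS ι × ℝ × ℝ) :=
  {q | q.1 ∈ V ∧ 0 < q.2.1 ∧ q.2.1 ≤ L.B ^ q.1.i * (L.u' - L.u) ∧ 2 ^ q.1.k ≤ q.2.2 ∧
    L.B ^ q.1.i * (L.u' - L.u) * lam ^ (1 - q.1.ty - 2 * lev q.1.k q.1.Q : ℤ) ≤
      2 * q.2.1 * q.2.2}

def VI (L : LE ι Y) (V : Set (LS ι)) (lam : ℝ) : Set (Ix ι) :=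
  {q | q.elim (fun q => L.ok q.1 ∧ Cube q.1 q.2) (· ∈ VC L V lam)}

noncomputable def pb (L : LE ι Y) (W : LS ι → E ι → Y) (N : ℤ → Bx ι → ℝ × E ι → Y) (K : ℝ) :
    Ix ι → Pb ℝ (E ι) Y
  | .inl q => pbT L q.1 q.2 (L.B ^ (L.a q.2 - 1)) (L.tm (L.top q.2)) (N q.1 q.2) (gK K (2 ^ q.1))
  | .inr q => pbT L q.1.k q.1.Q (L.B ^ q.1.i * L.u' - q.2.1) (L.B ^ q.1.i * L.u' - q.2.1)
      (fun z => W q.1 (q.1.Q.nm z.2)) (gK K q.2.2)

open Classical in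
noncomputable def nu (L : LE ι Y) : Ix ι → ℤ
  | .inl q => 4 * lev q.1 q.2 + 2
  | .inr q => 4 * lev q.1.k q.1.Q + if Cube q.1.k q.1.Q ∧ L.a q.1.Q = q.1.i + 1 then 3 else q.1.ty

/-- The relations after the movies. -/
def Rl (L : LE ι Y) (V : Set (LS ι × ℝ × ℝ)) : Ix ι → (Ix ι → ℝ × E ι → Y) → Prop
  | .inl q, F => (L.a q.2 = 0 → ∀ t, L.B ^ L.T * L.u' ≤ t → ∀ x ∈ q.2.set,
        Ap L.U (F (.inl q) (t, x)) (L.e x)) ∧
      (L.a q.2 < 0 → ∃ σ ∈ V, σ.1.i = L.a q.2 ∧ σ.1.k = q.1 ∧ σ.1.Q = q.2 ∧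
        ∀ t, L.B ^ L.a q.2 * L.u' ≤ t → ∀ x ∈ q.2.set,
          Ap L.U (F (.inl q) (t, x)) (F (.inr σ) (t, x)))
  | .inr σ, F => (Cube σ.1.k σ.1.Q ∧ L.a σ.1.Q = σ.1.i + 1 ∧ ∀ t, L.B ^ σ.1.i * L.u' ≤ t →
      ∀ x ∈ σ.1.Q.set, Ap L.U (F (.inr σ) (t, x)) (F (.inl (σ.1.k, σ.1.Q)) (t, x))) ∨
    ((Cube σ.1.k σ.1.Q → L.a σ.1.Q ≤ σ.1.i) ∧
      ((∃ σ1 ∈ V, σ.1.Same σ1.1 ∧ σ1.1.ty < σ.1.ty ∧ ∀ t, L.B ^ σ.1.i * L.u' ≤ t →
        ∀ x ∈ σ.1.Q.set, Ap L.U (F (.inr σ) (t, x)) (F (.inr σ1) (t, x))) ∨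
      ∃ σ1 ∈ V, ∃ σ2 ∈ V, σ.1.Half σ1.1 σ2.1 ∧ ∀ t, L.B ^ σ.1.i * L.u' ≤ t →
        (∀ x ∈ σ1.1.Q.set, Ap L.U (F (.inr σ) (t, x)) (F (.inr σ1) (t, x))) ∧
        ∀ x ∈ σ2.1.Q.set, Ap L.U (F (.inr σ) (t, x)) (F (.inr σ2) (t, x))))

/-- The constants. -/
structure Cst (L : LE ι Y) (C K lam : ℝ) : Prop where
  c1 : 1 ≤ C
  l0 : 0 < lam
  l1 : lam < 1
  l2 : ∀ k : ℤ, lam ^ (-(2 * (Fintype.card ι * k))) = 2 ^ k
  k1 : C * L.B ^ (L.T + 1) ≤ K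
  k2 : 2 * C ≤ K
  k3 : 2 * C ≤ K * ((L.u' - L.u) * (lam * (1 - lam)))

/-- What the recursion needs at a node. -/
def Op (L : LE ι Y) (V : Set (LS ι)) (W : LS ι → E ι → Y) (N : ℤ → Bx ι → ℝ × E ι → Y)
    (K lam : ℝ) (σ : Ix ι) : Prop :=
  (pb L W N K σ).WF L.U ∧ ∃ ch G, ch ⊆ VI L V lam ∧ PW L.U ch G ∧
    (∀ A F, (∀ q ∈ ch, Sol L.U (pb L W N K q) A (F q)) → Sol L.U (pb L W N K σ) A (G F)) ∧
    (∀ q ∈ ch, nu L q < nu L σ ∧ ∃ k : ℤ, 4 * (Fintype.card ι * k) ≤ nu L σ ∧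
      ∀ t, ∀ y ∈ (pb L W N K σ).S t, infDist y L.Uᶜ ≤ 2 * 2 ^ k) ∧
    ∀ F, (∀ q ∈ VI L V lam, Sol L.U (pb L W N K q) univ (F q)) →
      (∀ z, Ap L.U (F σ z) (G F z)) → Rl L (VC L V lam) σ F

variable {L : LE ι Y} {C K lam : ℝ} {V : Set (LS ι)} {rt : ℤ → Bx ι → LS ι} {W : LS ι → E ι → Y}
  {N : ℤ → Bx ι → ℝ × E ι → Y}

omit [DecidableEq ι] [Nonempty ι] [MetricSpace Y] in
theorem VC_child (hc : Cst L C K lam) {s s1 : LS ι} {r z : ℝ}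
    (h : (s, r, z) ∈ VC L V lam) (h1 : s1 ∈ V) (hi : s1.i = s.i) (hk : s1.k ≤ s.k)
    (he : 1 - s.ty - 2 * lev s.k s.Q + 1 ≤ 1 - s1.ty - 2 * lev s1.k s1.Q) :
    (s1, lam * r, z) ∈ VC L V lam := by
  obtain ⟨-, a1, a2, a3, a4⟩ := h
  dsimp only at a1 a2 a3 a4
  have l0 := hc.l0
  refine ⟨h1, mul_pos l0 a1, hi ▸ (mul_le_of_le_one_left a1.le hc.l1.le).trans a2,
    (two_le_g.2 hk).trans a3, ?_⟩
  have := zpow_le_zpow_right_of_le_one₀ l0 hc.l1.le he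
  rw [zpow_add_one₀ l0.ne'] at this
  have := mul_le_mul_of_nonneg_left this (a1.le.trans a2)
  have := mul_le_mul_of_nonneg_left a4 l0.le
  dsimp only
  rw [hi]
  linarith

omit [DecidableEq ι] [Nonempty ι] in
/-- Change of the initial data of a state. -/
theorem child {s : LS ι} {r z : ℝ} {i k : ℤ} {Q : Bx ι} {β Z : ℝ × E ι → Y} {A : Set Y}
    (h : Sol L.U (pb L W N K (.inr (s, r, z))) A Z) (hi : s.i = i) (hk : s.k = k) (hQ : s.Q = Q)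
    (hβ : ∀ x ∈ Q.set, Ap L.U (β (L.B ^ i * L.u' - r, x)) (W s (Q.nm x))) :
    Sol L.U (pbT L k Q (L.B ^ i * L.u' - r) (L.B ^ i * L.u' - r) β (gK K z)) A Z := by
  subst hi hk hQ
  exact shift h le_rfl le_rfl hβ (fun t a b => absurd b (not_le.2 a)) fun _ _ => le_rfl

theorem casc_bd (hL : L.OK) (hT : L.LT C V rt W N) {s : LS ι} (hs : s ∈ V) {t : ℝ}
    (ht : t ∈ Icc (L.tm s.i) (L.B ^ s.i * L.u')) {x : E ι} (hx : x ∈ s.Q.bd) :
    Ap L.U (W s (s.Q.nm x)) (L.P s.k (t, x)) := by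
  obtain ⟨-, hk, hQ, ha, -⟩ := hT.base s hs
  obtain ⟨H, hH, h0, -⟩ := hT.step s hs
  have m := mem_sphere_zero_iff_norm.2 (hQ.lb.pos.nm_mem_bd.1 hx)
  have := hH.ap (0, s.Q.nm x) ⟨left_mem_Icc.2 zero_le_one, m⟩
  simp only [pbM, pbP, LE.ps, psB, hQ.lb.pos.af_nm] at this
  exact ((h0 _ (sphere_subset_closedBall m)).symm.trans this).trans (froz hL hk hQ.lb ha ht hx).symm

open Classical in
theorem casc (hL : L.OK) (hT : L.LT C V rt W N) (hc : Cst L C K lam) {q : LS ι × ℝ × ℝ}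
    (hq : q ∈ VC L V lam) : Op L V W N K lam (.inr q) := by
  obtain ⟨s, r, z⟩ := q
  have ⟨hs, hr, hr', hz, hx⟩ := hq
  dsimp only at hs hr hr' hz hx
  obtain ⟨hi, hk, hQ, ha, hty⟩ := hT.base s hs
  obtain ⟨H, hH, h0, hcase⟩ := hT.step s hs
  have tb := hL.tm_bd s.i
  have hp := hQ.lb.pos
  have l0 := hc.l0
  have l1 := hc.l1
  have hK : 0 ≤ K := by linarith only [hc.c1, hc.k2, l0, l1]
  have hB : 0 < L.B ^ s.i := zpow_pos (by linarith only [hL.pB, l0, l1]) _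
  have lv := (hQ.lev_bd).1
  obtain ⟨t0, e0⟩ : ∃ t0, t0 = L.B ^ s.i * L.u' - r := ⟨_, rfl⟩
  obtain ⟨b, e1⟩ : ∃ b, b = L.B ^ s.i * L.u' - lam * r := ⟨_, rfl⟩
  have p0 : L.tm s.i ≤ t0 := by
    unfold LE.tm
    linarith only [hr', e0]
  have p1 : t0 < b := by nlinarith only [e0, e1, hr, l1]
  have p2 : b < L.B ^ s.i * L.u' := e1 ▸ sub_lt_self _ (mul_pos l0 hr)
  have p3 : L.tm s.i ≤ b := p0.trans p1.le
  have hm := mov' hL hc.c1 hc.k2 hk hQ ha hH p0 p1 p2.le (z := z) (by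
    have a1 : lam ^ (-(2 * (Fintype.card ι * s.k)) + 1) ≤
        lam ^ (1 - s.ty - 2 * lev s.k s.Q : ℤ) :=
      zpow_le_zpow_right_of_le_one₀ l0 l1.le (by omega)
    rw [zpow_add_one₀ l0.ne', hc.l2] at a1
    have a2 := mul_le_mul_of_nonneg_left
      ((mul_le_mul_of_nonneg_left a1 (hr.le.trans hr')).trans hx)
      (mul_nonneg hK (sub_pos.2 l1).le)
    have a3 := mul_le_mul_of_nonneg_left hc.k3 (mul_pos hB (two_pos_g s.k)).le
    rw [e0, e1]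
    linarith only [a2, a3])
  have m : ∀ x ∈ s.Q.set, s.Q.nm x ∈ closedBall (0 : E ι) 1 := fun x hx =>
    mem_closedBall_zero_iff.2 (hp.nm_mem.1 hx)
  have e2 : ∀ x, play H s.Q t0 b (b, x) = H (1, s.Q.nm x) := fun x => by
    simp [play, (sub_pos.2 p1).ne']
  suffices h : ∃ ch G, ch ⊆ VI L V lam ∧ PW L.U ch G ∧
      (∀ A F, (∀ q ∈ ch, Sol L.U (pb L W N K q) A (F q)) →
        Sol L.U (pbT L s.k s.Q b b (play H s.Q t0 b) (gK K z)) A (G F)) ∧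
      (∀ q ∈ ch, nu L q < nu L (.inr (s, r, z))) ∧
      ∀ F, (∀ q ∈ VI L V lam, Sol L.U (pb L W N K q) univ (F q)) →
        (∀ t, L.B ^ s.i * L.u' ≤ t → ∀ x, Ap L.U (F (.inr (s, r, z)) (t, x)) (G F (t, x))) →
          Rl L (VC L V lam) (.inr (s, r, z)) F by
    obtain ⟨ch, G, a1, a2, a3, a4, a5⟩ := h
    subst e0
    refine ⟨pbT_wf hL hk hQ.lb (hL.anc_lo hk ha (tb.1.trans p0)) fun t _ x hx a => ?_, ch,
      fun F w => if w.1 ≤ b then play H s.Q _ b w else G F w, a1, (PW.const _ _ _).ite a2 _,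
      fun A F hF => seq hm (fun t ht x hx => ?_) p1.le p1.le (a3 A F hF),
      fun q hq => ⟨a4 q hq, s.k, ?_, fun t y hy => hL.anc_deep hi ha hy.2⟩,
      fun F hF hA => a5 F hF fun t ht x =>
        (hA _).trans (.of_eq (if_neg (not_le.2 (p2.trans_le ht))))⟩
    · have e := h0 _ (m x hx) (.inr a)
      exact e ▸ (hH.maps (0, _) ⟨left_mem_Icc.2 zero_le_one, m x hx⟩ (e ▸ a)).2
    · rw [le_antisymm ht.2 ht.1]
      simpa [play] using h0 _ (m x hx)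
    · simp only [nu]
      split_ifs <;> omega
  rcases hcase with ⟨c1, c2, c3⟩ | ⟨c1, ⟨s1, hs1, c2, c3, c4⟩ | ⟨s1, hs1, s2, hs2, c2, c3⟩⟩
  · have e3 : L.B ^ (L.a s.Q - 1) = L.B ^ s.i := by rw [c2, add_sub_cancel_right]
    have p4 : L.B ^ (s.i + 1) ≤ L.tm (L.top s.Q) :=
      (zpow_le_zpow_right₀ (by linarith only [hL.pB, l0, l1]) (c2 ▸ (hL.top_bd hk c1).1)).trans (hL.tm_bd _).1
    have p5 : b ≤ L.B ^ (s.i + 1) := p2.le.trans tb.2.2.2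
    have p6 : L.B ^ (L.a s.Q - 1) ≤ L.tm s.i := e3 ▸ tb.1
    refine ⟨{.inl (s.k, s.Q)}, fun F => F (.inl (s.k, s.Q)), singleton_subset_iff.2 (And.intro hk c1),
      PW.single (mem_singleton _) id, fun A F hF => shift (hF (.inl (s.k, s.Q)) rfl) (p6.trans p3)
        (p5.trans p4) (fun x hx => ?_) (fun t a1 a2 x hx => ?_) (gK_mono hK hz), ?_,
      fun F _ hA => .inl ⟨c1, c2, fun t ht x _ => hA t ht x⟩⟩
    · have := c3 _ (m x hx)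
      rw [hp.af_nm, ← e2] at this
      exact this.trans (hT.nfroz _ _ s.i _ _ hk c1 ⟨p6, p3.trans (p5.trans p4)⟩
        ⟨p6.trans p3, p5.trans p4⟩ ⟨le_rfl, p3.trans p5⟩ ⟨p3, p5⟩ x hx)
    · exact ((hT.nsol _ _ hk c1).ap (t, x) ⟨⟨(p6.trans p3).trans a1.le, a2⟩, hx⟩).symm
    · rintro _ rfl
      simp [nu, c1, c2]
  · have hv := VC_child hc hq hs1 c2.1 c2.2.1.le (by rw [c2.2.1, c2.2.2]; omega)
    refine ⟨{.inr (s1, lam * r, z)}, fun F => F (.inr (s1, lam * r, z)),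
      singleton_subset_iff.2 hv, PW.single (mem_singleton _) id, fun A F hF => ?_, ?_,
      fun F _ hA => .inr ⟨c1, .inl ⟨_, hv, c2, c3, fun t ht x _ => hA t ht x⟩⟩⟩
    · subst e1
      exact child (hF _ rfl) c2.1 c2.2.1 c2.2.2 fun x hx => e2 x ▸ c4 _ (m x hx)
    · rintro _ rfl
      have : ¬(Cube s.k s.Q ∧ L.a s.Q = s.i + 1) := fun a => by linarith only [c1 a.1, a.2, a]
      simpa [nu, c2.1, c2.2.1, c2.2.2, this] using c3
  · obtain ⟨d1, d2, d3, d4, d5, d6⟩ := id c2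
    obtain ⟨f1, f2, f3, f4⟩ := hL.anc_half hi hk hQ ha c1
    have lL := (hQ.L s.Q.long_sj).2
    have lR := (hQ.R s.Q.long_sj).2
    have t1 := (hT.base s1 hs1).2.2.2.2
    have t2 := (hT.base s2 hs2).2.2.2.2
    have hv1 := VC_child hc hq hs1 d1 (d3 ▸ nk_le_g _ _) (by rw [d3, d5, lL]; omega)
    have hv2 := VC_child hc hq hs2 d2 (d4 ▸ nk_le_g _ _) (by rw [d4, d6, lR]; omega)
    have g1 : ∀ x ∈ (s.Q.L s.Q.sj).set,
        Ap L.U (play H s.Q t0 b (b, x)) (W s1 ((s.Q.L s.Q.sj).nm x)) := fun x hx => by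
      have := (c3 _ (mem_closedBall_zero_iff.2 ((hp.L _).nm_mem.1 hx))).1
      rwa [← hp.nm_af (hf _ _ _), ← Bx.af_L, (hp.L _).af_nm, ← e2] at this
    have g2 : ∀ x ∈ (s.Q.R s.Q.sj).set,
        Ap L.U (play H s.Q t0 b (b, x)) (W s2 ((s.Q.R s.Q.sj).nm x)) := fun x hx => by
      have := (c3 _ (mem_closedBall_zero_iff.2 ((hp.R _).nm_mem.1 hx))).2
      rwa [← hp.nm_af (hf _ _ _), ← Bx.af_R, (hp.R _).af_nm, ← e2] at this
    refine ⟨{.inr (s1, lam * r, z), .inr (s2, lam * r, z)}, fun F w =>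
      if w.2 ∈ (s.Q.L s.Q.sj).set then F (.inr (s1, lam * r, z)) w else F (.inr (s2, lam * r, z)) w,
      pair_subset hv1 hv2, (PW.single (.inl rfl) id).ite (PW.single (.inr rfl) id) _,
      fun A F hF => halves hL f1 f2 (hQ.mid s.Q.long_sj) (hL.anc_lo f1 f3 (tb.1.trans p3))
        (fun t ht => f4 t ((tb.1.trans p3).trans ht)) (fun x hx => (g1 x hx.1).trans ?_) ?_ ?_, ?_,
      fun F hF hA => .inr ⟨c1, .inr ⟨_, hv1, _, hv2, c2, fun t ht => ⟨fun x hx =>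
        (hA t ht x).trans (.of_eq (if_pos (d5 ▸ hx))), fun x hx => (hA t ht x).trans ?_⟩⟩⟩⟩
    · rw [← d5, ← d3]
      exact casc_bd hL hT hs1 (d1 ▸ ⟨p3, p2.le⟩) (d5 ▸ hx)
    · subst e1
      exact child (hF _ (.inl rfl)) d1 d3 d5 g1
    · subst e1
      exact child (hF _ (.inr rfl)) d2 d4 d6 g2
    · rintro _ (rfl | rfl)
      · simp only [nu, d3, d5, lL]
        split_ifs <;> omega
      · simp only [nu, d4, d6, lR]
        split_ifs <;> omega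
    · dsimp only
      split_ifs with c
      · have hx' : x ∈ (s.Q.R s.Q.sj).set := d6 ▸ hx
        have w : x s.Q.sj = s.Q.mid s.Q.sj :=
          le_antisymm (hp.set_L _ ▸ c).2 (hp.set_R _ ▸ hx').2
        have n := p2.trans_le ht
        have a1 := (hF (.inr _) hv1).ap (t, x) (.inl ⟨?_, ?_⟩)
        have a2 := (hF (.inr _) hv2).ap (t, x) (.inl ⟨?_, ?_⟩)
        · simp only [pb, pbT, d1, d2, d3, d4, ← e1, n.not_ge, if_false] at a1 a2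
          exact a1.trans a2.symm
        · simpa only [d2, ← e1, mem_Ici] using n.le
        · exact d6 ▸ Bx.wall_R hx' w
        · simpa only [d1, ← e1, mem_Ici] using n.le
        · exact d5 ▸ Bx.wall_L c w
      · exact .rfl

theorem face (hL : L.OK) (hT : L.LT C V rt W N) (hc : Cst L C K lam) {k : ℤ} {G : Bx ι}
    (hk : L.ok k) (hG : Cube k G) : Op L V W N K lam (.inl (k, G)) := by
  obtain ⟨H, hH, h0⟩ := hT.nunf k G hk hG
  have hN := hT.nsol k G hk hG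
  obtain ⟨q1, q2, q3⟩ := hL.top_bd hk hG
  have tb := hL.tm_bd (L.top G)
  have hp := hG.lb.pos
  have l0 := hc.l0
  have l1 := hc.l1
  have c1 := hc.c1
  have hK : 0 ≤ K := by linarith only [hc.k2, l0, l1, c1]
  have B1 : 1 ≤ L.B := by linarith only [hL.pB, l0, l1]
  have hB : ∀ i : ℤ, 0 < L.B ^ i := zpow_pos (by linarith only [l0, l1, B1])
  have hu := sub_pos.2 hL.uu
  have hr : 0 < L.B ^ L.top G * (L.u' - L.u) / 2 := half_pos (mul_pos (hB _) hu)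
  obtain ⟨b, e1⟩ : ∃ b, b = L.B ^ L.top G * L.u' - L.B ^ L.top G * (L.u' - L.u) / 2 := ⟨_, rfl⟩
  have p0 : L.B ^ (L.a G - 1) ≤ L.tm (L.top G) := (zpow_le_zpow_right₀ B1 (by omega)).trans tb.1
  have p1 : L.tm (L.top G) < b := by
    unfold LE.tm
    linarith only [hr, e1]
  have p2 : b < L.B ^ L.top G * L.u' := e1 ▸ sub_lt_self _ hr
  have hm := mov' hL c1 hc.k2 hk hG.bx (hL.anc_self hk hG q1).1 hH le_rfl p1 p2.le (z := 2 ^ k) (by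
    have a1 : lam * (1 - lam) ≤ 1 := by nlinarith only [l1, l0]
    have a2 := mul_le_mul_of_nonneg_left (hc.k3.trans (mul_le_mul_of_nonneg_left
      (mul_le_of_le_one_right hu.le a1) hK)) (mul_pos (hB (L.top G)) (two_pos_g k)).le
    rw [e1, LE.tm]
    linarith only [a2])
  have hN' : Sol L.U (pbP (Icc (L.B ^ (L.a G - 1)) (L.tm (L.top G))) G.set G.bd (L.P k)
      (L.e '' G.set) (gK K (2 ^ k)) 1) univ (N k G) := by
    refine hN.mono rfl subset_rfl (fun _ _ => .rfl) (fun _ _ _ => Iff.rfl)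
      (fun w hw => Eventually.of_forall fun _ => gK_le ?_
        (mul_le_mul_of_nonneg_right (by linarith only [hc.k2, l0, l1, c1]) (two_pos_g k).le)) subset_rfl
    calc C * L.B ^ L.top G ≤ C * L.B ^ (L.T + 1 + (L.a G - 1)) :=
          mul_le_mul_of_nonneg_left (zpow_le_zpow_right₀ B1 (by omega)) (by linarith only [l0, l1, c1])
      _ = C * L.B ^ (L.T + 1) * L.B ^ (L.a G - 1) := by
          rw [zpow_add₀ (by linarith only [l0, l1, B1]), mul_assoc]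
      _ ≤ K * w.1 := mul_le_mul hc.k1 hw.1.1 (hB _).le hK
  have m : ∀ x ∈ G.set, G.nm x ∈ closedBall (0 : E ι) 1 := fun x hx =>
    mem_closedBall_zero_iff.2 (hp.nm_mem.1 hx)
  have e2 : ∀ x, play H G (L.tm (L.top G)) b (b, x) = H (1, G.nm x) := fun x => by
    simp [play, (sub_pos.2 p1).ne']
  suffices h : ∃ ch G', ch ⊆ VI L V lam ∧ PW L.U ch G' ∧
      (∀ A F, (∀ q ∈ ch, Sol L.U (pb L W N K q) A (F q)) →
        Sol L.U (pbT L k G b b (play H G (L.tm (L.top G)) b) (gK K (2 ^ k))) A (G' F)) ∧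
      (∀ q ∈ ch, nu L q < nu L (.inl (k, G)) ∧ L.a G < 0) ∧
      ∀ F, (∀ t, L.B ^ L.top G * L.u' ≤ t → ∀ x, Ap L.U (F (.inl (k, G)) (t, x)) (G' F (t, x))) →
          Rl L (VC L V lam) (.inl (k, G)) F by
    obtain ⟨ch, G', a1, a2, a3, a4, a5⟩ := h
    refine ⟨pbT_wf hL hk hG.lb (fun G' a b => (a.le_of_subset hG b).2 rfl ▸ hL.hlo k G hk hG)
        fun t ht x hx a => (hN.maps (t, x) ⟨ht, hx⟩ a).2, ch,
      fun F w => if w.1 ≤ L.tm (L.top G) then N k G w else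
        if w.1 ≤ b then play H G (L.tm (L.top G)) b w else G' F w, a1,
      (PW.const _ _ _).ite ((PW.const _ _ _).ite a2 _) _,
      fun A F hF => seq hN' (fun _ _ _ _ => .rfl) p0 le_rfl
        (seq hm (fun t ht x hx => ?_) p1.le p1.le (a3 A F hF)),
      fun q hq => ⟨(a4 q hq).1, k, by simp [nu, hG.lev], fun t y hy =>
        hL.anc_deep (a4 q hq).2 (hL.anc_self hk hG le_rfl).1 hy.2⟩,
      fun F _ hA => a5 F fun t ht x => (hA _).trans (.of_eq ((if_neg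
        (not_le.2 ((p1.trans p2).trans_le ht))).trans (if_neg (not_le.2 (p2.trans_le ht)))))⟩
    rw [le_antisymm ht.2 ht.1]
    simpa [play, hp.af_nm] using (h0 _ (m x hx)).1
  by_cases ha : L.a G < 0
  · have e3 : L.top G = L.a G := if_pos ha
    obtain ⟨r1, r2, r3, r4⟩ := hT.root k G hk hG ha
    have r5 := (hT.base _ r1).2.2.2.2
    simp only [ha, if_true] at h0
    rw [e3] at e1 hr
    have hv : (rt k G, L.B ^ L.a G * (L.u' - L.u) / 2, (2 : ℝ) ^ k) ∈ VC L V lam := by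
      refine ⟨r1, hr, ?_, ?_, ?_⟩ <;> simp only [r2, r3, r4, hG.lev, le_refl]
      · linarith only [hr]
      · have := mul_le_mul_of_nonneg_left ((zpow_le_zpow_right_of_le_one₀ l0 l1.le (show
          -(2 * (Fintype.card ι * k)) ≤ 1 - ((rt k G).ty : ℤ) - 2 * (Fintype.card ι * k) by
            omega)).trans_eq (hc.l2 k)) hr.le
        linarith only [this]
    refine ⟨{.inr (_, _, _)}, fun F => F (.inr (_, _, _)), singleton_subset_iff.2 hv,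
      PW.single (mem_singleton _) id, fun A F hF => ?_, ?_, fun F hA =>
        ⟨fun a => absurd a ha.ne, fun _ => ⟨_, hv, r2, r3, r4, fun t ht x _ => hA t (e3 ▸ ht) x⟩⟩⟩
    · subst e1
      exact child (hF _ rfl) r2 r3 r4 fun x hx => e2 x ▸ (h0 _ (m x hx)).2
    · rintro _ rfl
      refine ⟨?_, ha⟩
      have : ¬(Cube k G ∧ L.a G = L.a G + 1) := fun a => by omega
      simp only [nu, r2, r3, r4, this, if_false]
      omega
  · have e3 : L.top G = L.T := if_neg ha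
    simp only [ha, if_false] at h0
    have p3 : L.B ^ L.T ≤ b := e3 ▸ tb.1.trans p1.le
    refine ⟨∅, fun _ w => L.e w.2, empty_subset _, PW.const _ _ _, fun A F _ =>
      ident hL hK (two_pos_g k).le ?_ (fun x hx => ?_)
        fun t ht x hx => (hL.bd.idn k G t hk hG (p3.trans ht) x hx).symm, fun _ a => a.elim,
      fun F hA => ⟨fun _ t ht x _ => hA t (e3 ▸ ht) x, fun a => absurd a ha⟩⟩
    · exact one_le_mul_of_one_le_of_one_le (by linarith only [hc.k2, l0, l1, c1])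
        ((one_le_zpow₀ B1 hL.pT).trans p3)
    · rw [e2]
      simpa [hp.af_nm] using (h0 _ (m x hx)).2.symm

end LCas

open LCas in
theorem exists_LW {B C du : ℝ} (hC : 1 ≤ C) (hdu : 0 < du) (K0 : ℝ) (T : ℤ) :
    ∃ K' : ℝ, K0 ≤ K' ∧ ∀ L : LE ι Y, L.OK → L.B = B → L.T = T → du ≤ L.u' - L.u →
      ∀ V rt W N, L.LT C V rt W N → ∃ (M : ℤ → Bx ι → ℝ × E ι → Y) (V' : Set (LS ι × ℝ × ℝ))
        (Cc : LS ι × ℝ × ℝ → ℝ × E ι → Y), L.LW K' M V' Prod.fst Cc := by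
  have hd : (0 : ℝ) < Fintype.card ι := Nat.cast_pos.2 Fintype.card_pos
  obtain ⟨lam, l0, l1, l2⟩ : ∃ lam : ℝ, 0 < lam ∧ lam < 1 ∧
      ∀ k : ℤ, lam ^ (-(2 * (Fintype.card ι * k))) = 2 ^ k := by
    refine ⟨2 ^ (-(1 / (2 * Fintype.card ι)) : ℝ), by positivity,
      Real.rpow_lt_one_of_one_lt_of_neg one_lt_two (neg_lt_zero.2 (by positivity)), fun k => ?_⟩
    rw [← Real.rpow_intCast, ← Real.rpow_mul two_pos.le, ← Real.rpow_intCast]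
    congr 1
    push_cast
    field_simp
  have hm : 0 < lam * (1 - lam) := mul_pos l0 (sub_pos.2 l1)
  obtain ⟨K, k0, k1, k2, k3⟩ : ∃ K, K0 ≤ K ∧ C * B ^ (T + 1) ≤ K ∧ 2 * C ≤ K ∧
      2 * C / (du * (lam * (1 - lam))) ≤ K :=
    ⟨max (max _ _) (max _ _), le_max_of_le_left (le_max_left _ _),
      le_max_of_le_left (le_max_right _ _), le_max_of_le_right (le_max_left _ _),
      le_max_of_le_right (le_max_right _ _)⟩
  refine ⟨K, k0, ?_⟩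
  rintro L hL rfl rfl hu V rt W N hT
  have hc : Cst L C K lam := ⟨hC, l0, l1, l2, k1, k2, ((div_le_iff₀ (mul_pos hdu hm)).1 k3).trans
    (mul_le_mul_of_nonneg_left (mul_le_mul_of_nonneg_right hu hm.le) (by linarith only [hC, l0, l1, k2]))⟩
  obtain ⟨F, hF⟩ := rec' hL.hU hL.hne (V := VI L V lam) (pb := pb L W N K)
    (fun q => by cases q <;> rfl) fun σ hσ => show Op L V W N K lam σ from
      match σ, hσ with
      | .inl _, h => face hL hT hc h.1 h.2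
      | .inr _, h => casc hL hT hc h
  have key : ∀ k G, L.ok k → Cube k G → ∀ t ∈ Icc (L.B ^ (L.a G - 1)) (L.tm (L.top G)),
      ∀ x ∈ G.set, Ap L.U (F (.inl (k, G)) (t, x)) (N k G (t, x)) := fun k G hk hG t ht x hx =>
    ((hF (.inl (k, G)) ⟨hk, hG⟩).1.ap (t, x) (.inr ⟨ht, hx⟩)).trans (.of_eq (if_pos ht.2))
  refine ⟨fun k G => F (.inl (k, G)), VC L V lam, fun q => F (.inr q), fun k G hk hG => ?_,
    fun k G i t t' hk hG a1 a2 a3 a4 x hx => ((key k G hk hG t a1 x hx).trans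
      (hT.nfroz k G i t t' hk hG a1 a2 a3 a4 x hx)).trans (key k G hk hG t' a2 x hx).symm,
    fun k G t hk hG a => (hF (.inl (k, G)) ⟨hk, hG⟩).2.1 a t,
    fun k G hk hG => (hF (.inl (k, G)) ⟨hk, hG⟩).2.2,
    fun σ hσ => have := hT.base _ hσ.1; ⟨this.2.1, this.2.2.1, this.2.2.2.2⟩,
    fun σ hσ t ht x hx a => ((hF (.inr σ) hσ).1.maps (t, x)
      ⟨(sub_le_self _ hσ.2.1.le).trans ht, hx⟩ a).2, fun σ hσ => (hF (.inr σ) hσ).2⟩
  refine (hF (.inl (k, G)) ⟨hk, hG⟩).1.mono rfl subset_union_left (fun w hw => ?_)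
    (fun _ _ _ => Iff.rfl) (fun _ _ => Eventually.of_forall fun _ => le_rfl) subset_rfl
  by_cases c : w.1 ≤ L.tm (L.top G)
  · exact ((hT.nsol k G hk hG).ap w ⟨⟨hw.1, c⟩, hw.2⟩).symm.trans (.of_eq (if_pos c).symm)
  · exact .of_eq (if_neg c).symm

end Pool.Agent.Lib.MP_ecd4e3_gt.N
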