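import Pool.Agent.Lib.MP_ecd4e3_gt.N.PIden
import Pool.Agent.Lib.MP_ecd4e3_gt.N.LWalk

/-! Assembly of the squeezing maps over all faces. -/

namespace Pool.Agent.Lib.MP_ecd4e3_gt.N

open Set Filter Topology Metric MeasureTheory
open scoped NNReal ENNReal

variable {ι : Type} [Fintype ι] [DecidableEq ι]

theorem PI.zero (U : Set (E ι)) {B u K : ℝ} (hK : 0 ≤ K) (T : ℤ) {al : Bx ι → ℝ}
    (h : ∀ F, F.fr = ∅ → al F = 0) : PI U 0 B u K T al fun _ z => z.2 := by
  have _h := h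
  refine ⟨fun k F hF hc => ?_, fun _ _ _ _ _ _ _ _ _ => Ap.rfl,
    fun _ _ _ _ _ _ _ _ _ _ _ _ _ => Ap.rfl, fun _ _ _ _ _ _ _ _ => Ap.rfl⟩
  have hfr : F.fr = ∅ := Finset.card_eq_zero.1 (Nat.le_zero.1 hc)
  have hlh : ∀ i, F.lo i = F.hi i := by
    intro i
    by_contra hne
    have : i ∈ F.fr := Finset.mem_filter.2 ⟨Finset.mem_univ _, hne⟩
    rw [hfr] at this
    exact absurd this (Finset.notMem_empty i)
  have hss : ∀ x ∈ F.set, ∀ y ∈ F.set, x = y := by
    intro x hx y hy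
    funext i
    have h1 := Bx.mem_set.1 hx i
    have h2 := Bx.mem_set.1 hy i
    have h3 := hlh i
    linarith only [h1.1, h1.2, h2.1, h2.2, h1, h2, h3]
  refine ⟨fun z hz _ => ⟨hz.1, z.2, hz.2, rfl⟩, fun z hz => hz.2.elim, fun z hz => hz.2.elim,
    ?_, fun t x x' _ _ _ _ h => h, fun z hz _ _ => ⟨continuous_snd.continuousWithinAt, ?_⟩⟩
  · rintro t y ⟨ht, x, hx, rfl⟩ _ _
    exact ⟨x, ⟨ht, hx⟩, rfl⟩
  · filter_upwards [self_mem_nhdsWithin] with z' hz'
    have e : z'.2 = z.2 := hss _ hz'.2 _ hz.2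
    show dist z'.2 z.2 ≤ K * (z.1 * dist z'.2 z.2 + 2 ^ k * |z'.1 - z.1|)
    rw [e, dist_self, mul_zero, zero_add]
    positivity

/-- A boundary point of a cube lies in a face inside the boundary. -/
theorem pias_face_bd {k : ℤ} {G : Bx ι} (hG : Cube k G) {x : E ι} (hx : x ∈ G.bd) :
    (faceAt k x).set ⊆ G.bd := by
  rw [hG.bd_eq] at hx ⊢
  obtain ⟨hx, i, hi⟩ := hx
  intro y hy
  refine ⟨faceAt_subset (fun j => hG.face.lat j) hx hy, i, ?_⟩
  rw [faceAt_lat hy hi]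
  exact hi

theorem pias_dist_emb (S : Finset ι) (b : E ι) (x y : E S) :
    dist (emb S b x) (emb S b y) = dist x y := (isometry_emb S b).dist_eq x y

/-- From a face of the ambient grid to the box in its plane. -/
theorem pias_sol_emb {U : Set (E ι)} {S : Finset ι} {b : E ι} {F : Bx S} {lo lo' K : ℝ} {k : ℤ}
    {Z : ℝ × E ι → E ι} (h : Sol U (pbF id lo (embB S b F).set K k) univ Z) (hl : lo ≤ lo') :
    Sol U (pbF (emb S b) lo' F.set K k) univ fun z => Z (z.1, emb S b z.2) := by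
  rw [embB_set] at h
  refine h.comp (fun t => t) (fun z => emb S b z.2) ?_ ?_ ?_ ?_ ?_ ?_ ?_
  · intro z hz
    exact ⟨le_trans hl hz.1, z.2, hz.2, rfl⟩
  · intro z hz _ hS
    obtain ⟨_, y, hy, e⟩ := hS
    exact ⟨hz.1, e ▸ hy⟩
  · intro t y hy _
    exact ⟨le_trans hl hy.1, y, hy.2, rfl⟩
  · intro t y hy _ _ x hx _
    obtain ⟨x', hx', e⟩ := hx.2
    exact ⟨x', ⟨hy.1, hx'⟩, e⟩
  · intro t x x' _ _ _ e
    exact (isometry_emb S b).injective e
  · intro z _ _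
    refine ⟨(continuous_fst.prodMk
      ((isometry_emb S b).continuous.comp continuous_snd)).continuousWithinAt,
      Eventually.of_forall fun z' => ?_⟩
    show K * (z.1 * dist (emb S b z'.2) (emb S b z.2) + 2 ^ k * |z'.1 - z.1|) ≤
      K * (z.1 * dist z'.2 z.2 + 2 ^ k * |z'.1 - z.1|)
    rw [pias_dist_emb]
  · intro z hz
    exact hz.2.elim

omit [DecidableEq ι] in
theorem AL.pias_nonneg {B : ℝ} {w : Finset ι → E ι → ℝ≥0∞} {r : ℕ → ℝ} {a : Bx ι → ℤ}
    {al : Bx ι → ℝ} (ha : AL w B r a al) (hB : 4 ≤ B) (F : Bx ι) : 0 ≤ al F := by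
  rcases F.fr.eq_empty_or_nonempty with h | h
  · rw [ha.vx F h]
  · rw [ha.eq F h]
    have : 0 < B := by linarith only [hB]
    positivity

/-- Below the dimension `d` the identity regime passes to the finer level. -/
theorem PI.pias_split {U : Set (E ι)} {d : ℕ} {B u K : ℝ} {T : ℤ} {al : Bx ι → ℝ}
    {P : ℤ → ℝ × E ι → E ι} (h : PI U d B u K T al P) {k : ℤ} {F : Bx ι} (hF : Face k F)
    (hc : F.fr.card ≤ d) {t : ℝ} (ht : B ^ T ≤ t) {x : E ι} (hx : x ∈ F.set) :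
    Ap U (P k (t, x)) (P (k - 1) (t, x)) := by
  have h1 := h.idn k F t hF hc ht x hx
  have h2 := h.idn (k - 1) (faceAt (k - 1) x) t (face_faceAt _ _)
    ((Finset.card_le_card (faceAt_fr (by omega) hF hx)).trans hc) ht x (mem_faceAt _ _)
  exact h1.trans h2.symm

/-- The faces in the boundary of a cube of a plane. -/
theorem pias_sub {B : ℝ} {w : Finset ι → E ι → ℝ≥0∞} {r : ℕ → ℝ} {a : Bx ι → ℤ}
    {al : Bx ι → ℝ} (ha : AL w B r a al) {d : ℕ} {S : Finset ι} (hS : S.card = d + 1) {b : E ι}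
    {k : ℤ} (hk : ∀ i ∉ S, Lat k (b i)) {G F : Bx S} (hG : Cube k G) (hF : Face k F)
    (hs : F.set ⊆ G.bd) :
    Face k (embB S b F) ∧ (embB S b F).fr.card ≤ d ∧ al (embB S b F) ≤ B ^ a (embB S b G) ∧
      (B ^ a (embB S b G) < 1 → al (embB S b F) * B ≤ B ^ a (embB S b G)) := by
  obtain ⟨f1, f2⟩ := embB_face hk hF
  obtain ⟨g1, -⟩ := embB_face hk hG.face
  have g2 : (embB S b G).fr = S := embB_fr b hG.lb.pos
  have hlt : F.fr.card < d + 1 := by
    have := hF.card_lt hG hs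
    rwa [Fintype.card_coe, hS] at this
  have hne : (embB S b G).fr.Nonempty := by
    rw [g2, ← Finset.card_pos, hS]
    omega
  have hsub : (embB S b F).set ⊆ (embB S b G).set := by
    rw [embB_set, embB_set]
    exact image_mono (hs.trans G.bd_subset)
  have := ha.sub k _ _ g1 f1 hsub (by rw [f2, g2, hS]; exact hlt)
  rw [ha.eq _ hne] at this
  exact ⟨f1, by rw [f2]; omega, this.1, this.2⟩

/-- The boundary data in a plane of dimension `d + 1`. -/
theorem PI.bd {U V : Set (E ι)} {d : ℕ} {B u K : ℝ} {T : ℤ} {w : Finset ι → E ι → ℝ≥0∞}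
    {r : ℕ → ℝ} {a : Bx ι → ℤ} {al : Bx ι → ℝ} {P : ℤ → ℝ × E ι → E ι} (hB : 4 ≤ B) (hK : 1 ≤ K)
    (hT : 0 ≤ T) (hw : Wt V w) (ha : AL w B r a al) (h : PI U d B u K T al P) {S : Finset ι}
    (hS : S.card = d + 1) (b : E ι) :
    BD U (emb S b) (fun k => ∀ i ∉ S, Lat k (b i)) B u K T
      (fun _ G => B ^ (a (embB S b G) - 1))
      (fun _ G => if a (embB S b G) < 0 then B ^ a (embB S b G) else B ^ T)
      fun k z => P k (z.1, emb S b z.2) := by
  have _hw := hw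
  have hB0 : 0 < B := by linarith only [hB]
  have hB1 : 1 < B := by linarith only [hB]
  have hdiv : ∀ (n : ℤ) (x : ℝ), x ≤ B ^ n → x / B ≤ B ^ (n - 1) := by
    intro n x hx
    rw [zpow_sub_one₀ hB0.ne', div_eq_mul_inv]
    exact mul_le_mul_of_nonneg_right hx (inv_nonneg.2 hB0.le)
  have hmem : ∀ (k : ℤ) (x : E S), emb S b x ∈ (embB S b (faceAt k x)).set := by
    intro k x
    rw [embB_set]
    exact mem_image_of_mem _ (mem_faceAt k x)
  refine ⟨fun k hk i hi => (hk i hi).down, hK, fun k G _ _ => zpow_pos hB0 _,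
    fun k G _ _ => zpow_le_zpow_right₀ hB1.le (by have := ha.a0 (embB S b G); omega),
    fun k G F hk hG hF hs => ?_, fun k G t hk hG ht x hx => ?_,
    fun k G i t t' hk hG ht ht' h1 h2 x hx => ?_, fun k G t hk hG ht x hx => ?_⟩
  · obtain ⟨f1, f2, f3, -⟩ := pias_sub ha hS hk hG hF hs
    exact pias_sol_emb (h.sol k _ f1 f2) (hdiv _ _ f3)
  · obtain ⟨f1, f2, f3, f4⟩ := pias_sub ha hS hk hG (face_faceAt k x) (pias_face_bd hG hx)
    by_cases h0 : a (embB S b G) < 0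
    · simp only [if_pos h0] at ht
      have hlt : B ^ a (embB S b G) < 1 := zpow_lt_one_of_neg₀ hB1 h0
      exact h.split k _ t f1 f2 (f3.trans_lt hlt) ((f4 hlt).trans ht) _ (hmem k x)
    · simp only [if_neg h0] at ht
      exact h.pias_split f1 f2 ht (hmem k x)
  · obtain ⟨f1, f2, f3, -⟩ := pias_sub ha hS hk hG (face_faceAt k x) (pias_face_bd hG hx)
    exact h.froz k _ i t t' f1 f2 ((hdiv _ _ f3).trans ht) ((hdiv _ _ f3).trans ht') h1 h2 _
      (hmem k x)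
  · obtain ⟨f1, f2, -, -⟩ := pias_sub ha hS hk hG (face_faceAt k x) (pias_face_bd hG hx)
    exact h.idn k _ t f1 f2 ht _ (hmem k x)

/-- The output of the lossy construction is monotone in the constant. -/
theorem pias_out_mono {κ Y : Type} [Fintype κ] [DecidableEq κ] [MetricSpace Y] {L : LE κ Y}
    (hL : L.OK) {K1 K2 : ℝ} (hK : K1 ≤ K2) {M : ℤ → Bx κ → ℝ × E κ → Y} (h : L.Out K1 M) :
    L.Out K2 M := by
  refine ⟨fun k G hk hG => ?_, h.split, h.froz, h.idn⟩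
  refine (h.sol k G hk hG).mono rfl subset_rfl (fun _ _ => Ap.rfl) (fun _ _ _ => Iff.rfl)
    (fun z hz => Eventually.of_forall fun z' => ?_) subset_rfl
  have hB : 0 < L.B := by linarith only [hL.pB]
  have h0 : 0 ≤ z.1 := le_trans (zpow_pos hB _).le hz.1
  show K1 * (z.1 * dist z'.2 z.2 + 2 ^ k * |z'.1 - z.1|) ≤
    K2 * (z.1 * dist z'.2 z.2 + 2 ^ k * |z'.1 - z.1|)
  exact mul_le_mul_of_nonneg_right hK (by positivity)

/-- The lossy theorem, uniformly over the coordinate planes. -/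
theorem pias_lossy : ∃ B0 : ℝ, ∀ B : ℝ, B0 ≤ B → ∀ (K du : ℝ) (T : ℤ), 0 < du →
    ∃ K' : ℝ, K ≤ K' ∧ ∀ S : Finset ι, S.Nonempty → ∀ L : LE S (E ι), L.OK → L.B = B → L.K = K →
      L.T = T → du ≤ L.u' - L.u → ∃ M, L.Out K' M := by
  have h1 : ∀ S : Finset ι, ∃ B0 : ℝ, ∀ B : ℝ, B0 ≤ B → ∀ (K du : ℝ) (T : ℤ), 0 < du →
      ∃ K' : ℝ, S.Nonempty → ∀ L : LE S (E ι), L.OK → L.B = B → L.K = K →
        L.T = T → du ≤ L.u' - L.u → ∃ M, L.Out K' M := by
    intro S
    by_cases hS : S.Nonempty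
    · have : Nonempty S := hS.to_subtype
      obtain ⟨B0, h⟩ := lossy (ι := S) (Y := E ι)
      refine ⟨B0, fun B hB K du T hdu => ?_⟩
      obtain ⟨K', -, h'⟩ := h B hB K du T hdu
      exact ⟨K', fun _ => h'⟩
    · exact ⟨0, fun B _ K du T _ => ⟨0, fun h => absurd h hS⟩⟩
  choose f hf using h1
  obtain ⟨B0, hB0⟩ := (Set.finite_range f).bddAbove
  refine ⟨B0, fun B hB K du T hdu => ?_⟩
  choose g hg using fun S => hf S B ((hB0 (mem_range_self S)).trans hB) K du T hdu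
  obtain ⟨K0, hK0⟩ := (Set.finite_range g).bddAbove
  refine ⟨max K K0, le_max_left _ _, fun S hS L hL h1 h2 h3 h4 => ?_⟩
  obtain ⟨M, hM⟩ := hg S hS L hL h1 h2 h3 h4
  exact ⟨M, pias_out_mono hL ((hK0 (mem_range_self S)).trans (le_max_right _ _)) hM⟩

/-- The input of the lossy construction in a plane. -/
noncomputable def piLE (U : Set (E ι)) (B u u' K : ℝ) (T : ℤ) (w : Finset ι → E ι → ℝ≥0∞) (ρ : ℝ)
    (a : Bx ι → ℤ) (P : ℤ → ℝ × E ι → E ι) (S : Finset ι) (b : E ι) : LE S (E ι) where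
  U := U
  e := emb S b
  ok := fun k => ∀ i ∉ S, Lat k (b i)
  B := B
  u := u
  u' := u'
  K := K
  T := T
  lo := fun _ G => B ^ (a (embB S b G) - 1)
  sp := fun _ G => if a (embB S b G) < 0 then B ^ a (embB S b G) else B ^ T
  P := fun k z => P k (z.1, emb S b z.2)
  ν := nuP w S b
  a := fun G => a (embB S b G)
  ρ0 := ρ

theorem piLE_ok {U V : Set (E ι)} {d : ℕ} {B u u' K : ℝ} {T : ℤ} {w : Finset ι → E ι → ℝ≥0∞}
    {r : ℕ → ℝ} {a : Bx ι → ℤ} {al : Bx ι → ℝ} {P : ℤ → ℝ × E ι → E ι} (hB : 4 ≤ B) (hK : 1 ≤ K)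
    (hu : 1 ≤ u) (huu : u < u') (hu2 : u' ≤ 2) (hT : 0 ≤ T) (hU : IsOpen U) (hne : Uᶜ.Nonempty)
    (hUV : U ⊆ V) (hw : Wt V w) (ha : AL w B r a al) (h : PI U d B u K T al P) {S : Finset ι}
    (hS : S.card = d + 1) (b : E ι) : (piLE U B u u' K T w (r (d + 1)) a P S b).OK := by
  have hB1 : 1 < B := by linarith only [hB]
  have hath : ∀ k (G : Bx S), (∀ i ∉ S, Lat k (b i)) → Cube k G → ∀ i : ℤ, i < 0 →
      (a (embB S b G) ≤ i ↔
        (rho w (embB S b G)).toReal ≤ r (d + 1) * (B ^ (d + 1) * √B) ^ i) := by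
    intro k G hk hG i hi
    have := ha.ath k _ (embB_face hk hG.face).1 i hi
    rwa [embB_fr b hG.lb.pos, hS] at this
  refine ⟨hU, hne, isometry_emb S b, PI.bd hB hK hT hw ha h hS b, hu, huu, hu2, hB, hT,
    hw.nuP_le S b, (ha.pr _).1, fun k G _ _ => ha.a0 _, fun k G hk hG i hi => ?_,
    fun k G hk hG hs => ?_, fun k G _ _ => le_rfl, fun k G _ _ h0 => ?_⟩
  · show a (embB S b G) ≤ i ↔ G.den (nuP w S b) ≤ r (d + 1) * (B ^ Fintype.card S * √B) ^ i
    rw [hw.den_eq S b hG.lb.pos, Fintype.card_coe, hS]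
    exact hath k G hk hG i hi
  · show a (embB S b G) = 0
    have h0 := ha.a0 (embB S b G)
    by_contra hne0
    have h1 := (hath k G hk hG (-1) (by norm_num)).1 (by omega)
    have hs' : (embB S b G).set ⊆ V := by
      rw [embB_set]
      exact subset_trans hs hUV
    rw [hw.rho_one (embB_face hk hG.face).1.le hs'] at h1
    have h2 : 1 < B ^ (d + 1) * √B := by
      have e1 : 1 < B ^ (d + 1) := one_lt_pow₀ hB1 (by omega)
      have e2 : 1 ≤ √B := Real.one_le_sqrt.2 hB1.le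
      nlinarith only [e1, e2]
    have h3 : (B ^ (d + 1) * √B) ^ (-1 : ℤ) < 1 := zpow_lt_one_of_neg₀ h2 (by norm_num)
    have h4 : 0 < (B ^ (d + 1) * √B) ^ (-1 : ℤ) := zpow_pos (by linarith only [h2]) _
    have h5 := ha.pr (d + 1)
    simp only [ENNReal.toReal_one] at h1
    nlinarith only [h5.1, h5.2, h1, h5, h3]
  · show (if a (embB S b G) < 0 then B ^ a (embB S b G) else B ^ T) ≤ B ^ a (embB S b G)
    rw [if_pos (show a (embB S b G) < 0 from h0)]

/-- The base point of the plane through `x`. -/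
def piNb (S : Finset ι) (x : E ι) : E ι := fun i => if i ∈ S then 0 else x i

/-- The trace of a box in a plane. -/
def piBx (S : Finset ι) (F : Bx ι) : Bx S := ⟨fun i => F.lo i, fun i => F.hi i⟩

/-- The map of a face. -/
def piMS (M : (S : Finset ι) → E ι → ℤ → Bx S → ℝ × E S → E ι) (S : Finset ι) (k : ℤ) (F : Bx ι)
    (z : ℝ × E ι) : E ι :=
  M S (piNb S F.lo) k (piBx S F) (z.1, fun i => z.2 i)

/-- The new squeezing maps. -/
noncomputable def piNew (M : (S : Finset ι) → E ι → ℤ → Bx S → ℝ × E S → E ι) (d : ℕ)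
    (P : ℤ → ℝ × E ι → E ι) (k : ℤ) (z : ℝ × E ι) : E ι :=
  if (faceAt k z.2).fr.card = d + 1 then piMS M (faceAt k z.2).fr k (faceAt k z.2) z else P k z

theorem piNew_low (M : (S : Finset ι) → E ι → ℤ → Bx S → ℝ × E S → E ι) {d : ℕ}
    (P : ℤ → ℝ × E ι → E ι) {k j : ℤ} (hj : j ≤ k) {F : Bx ι} (hF : Face k F)
    (hc : F.fr.card ≤ d) {z : ℝ × E ι} (hz : z.2 ∈ F.set) : piNew M d P j z = P j z := by
  have := Finset.card_le_card (faceAt_fr hj hF hz)
  exact if_neg (by omega)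

/-- A face as a cube in its plane. -/
theorem pias_face {k : ℤ} {F : Bx ι} (hF : Face k F) :
    Cube k (piBx F.fr F) ∧ embB F.fr (piNb F.fr F.lo) (piBx F.fr F) = F ∧
      (∀ i ∉ F.fr, Lat k (piNb F.fr F.lo i)) ∧
      ∀ x ∈ F.set, (fun i : F.fr => x i) ∈ (piBx F.fr F).set ∧
        emb F.fr (piNb F.fr F.lo) (fun i => x i) = x := by
  have hb : ∀ i ∉ F.fr, piNb F.fr F.lo i = F.lo i := fun i hi => if_neg hi
  obtain ⟨h1, h2, h3⟩ := hF.eq_embB hb
  refine ⟨h1, h2, h3, fun x hx => ⟨Bx.mem_set.2 fun i => Bx.mem_set.1 hx i, emb_restrict ?_⟩⟩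
  intro i hi
  rw [hb i hi]
  have h4 : F.lo i = F.hi i := by
    by_contra hne
    exact hi (Finset.mem_filter.2 ⟨Finset.mem_univ _, hne⟩)
  have h5 := Bx.mem_set.1 hx i
  linarith only [h5.1, h5.2, h5, h4]

section Step

variable {U : Set (E ι)} {d : ℕ} {B u u' K K' : ℝ} {T : ℤ} {w : Finset ι → E ι → ℝ≥0∞} {ρ : ℝ}
  {a : Bx ι → ℤ} {P : ℤ → ℝ × E ι → E ι} {M : (S : Finset ι) → E ι → ℤ → Bx S → ℝ × E S → E ι}

/-- On a face of the top dimension the new map is the map of the face. -/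
theorem piNew_top
    (hM : ∀ S : Finset ι, S.card = d + 1 → ∀ b, (piLE U B u u' K T w ρ a P S b).Out K' (M S b))
    {k : ℤ} {F : Bx ι} (hF : Face k F) (hc : F.fr.card = d + 1) {z : ℝ × E ι}
    (ht : B ^ (a F - 1) ≤ z.1) (hz : z.2 ∈ F.set) :
    Ap U (piNew M d P k z) (piMS M F.fr k F z) := by
  have hsub : (faceAt k z.2).set ⊆ F.set := faceAt_subset hF.lat hz
  obtain ⟨m1, m2⟩ := hF.fr_mono (face_faceAt k z.2) hsub
  unfold piNew
  split_ifs with h0
  · rw [m2 (h0.trans hc.symm)]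
    exact Ap.rfl
  · obtain ⟨c1, c2, c3, c4⟩ := pias_face hF
    obtain ⟨x1, x2⟩ := c4 _ hz
    have hex : ∃ i ∈ F.fr, i ∉ (faceAt k z.2).fr := by
      by_contra hno
      push Not at hno
      exact h0 ((congrArg Finset.card (Finset.Subset.antisymm m1 hno)).trans hc)
    obtain ⟨i, hi, hi'⟩ := hex
    have hlat : Lat k (z.2 i) := by
      have h4 : (faceAt k z.2).lo i = (faceAt k z.2).hi i := by
        by_contra hne
        exact hi' (Finset.mem_filter.2 ⟨Finset.mem_univ _, hne⟩)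
      have h5 := Bx.mem_set.1 (mem_faceAt k z.2) i
      have h6 : z.2 i = (faceAt k z.2).lo i := by linarith only [h5.1, h5.2, h5, h4]
      rw [h6]
      exact ((face_faceAt k z.2).lat i).1
    have hbd : (fun i : F.fr => z.2 i) ∈ (piBx F.fr F).bd := by
      rw [c1.bd_eq]
      exact ⟨x1, ⟨i, hi⟩, hlat⟩
    have hs := ((hM F.fr hc _).sol k _ c3 c1).ap (z.1, fun i : F.fr => z.2 i)
      ⟨by
        show B ^ (a (embB F.fr (piNb F.fr F.lo) (piBx F.fr F)) - 1) ≤ z.1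
        rwa [c2], hbd⟩
    have hs' : Ap U (piMS M F.fr k F z) (P k (z.1, emb F.fr (piNb F.fr F.lo) fun i => z.2 i)) := hs
    rw [x2] at hs'
    exact hs'.symm

theorem piMS_sol
    (hM : ∀ S : Finset ι, S.card = d + 1 → ∀ b, (piLE U B u u' K T w ρ a P S b).Out K' (M S b))
    {k : ℤ} {F : Bx ι} (hF : Face k F) (hc : F.fr.card = d + 1) :
    Sol U (pbF id (B ^ (a F - 1)) F.set K' k) univ (piMS M F.fr k F) := by
  obtain ⟨c1, c2, c3, c4⟩ := pias_face hF
  have hs : Sol U (pbP (Ici (B ^ (a (embB F.fr (piNb F.fr F.lo) (piBx F.fr F)) - 1)))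
      (piBx F.fr F).set (piBx F.fr F).bd (fun z => P k (z.1, emb F.fr (piNb F.fr F.lo) z.2))
      (emb F.fr (piNb F.fr F.lo) '' (piBx F.fr F).set) (gK K' (2 ^ k)) 1) univ
      (M F.fr (piNb F.fr F.lo) k (piBx F.fr F)) := (hM F.fr hc _).sol k _ c3 c1
  rw [← embB_set, c2] at hs
  have hset : F.set = emb F.fr (piNb F.fr F.lo) '' (piBx F.fr F).set := by
    rw [← embB_set, c2]
  refine hs.comp (fun t => t) (fun (z : ℝ × E ι) (i : F.fr) => z.2 i) ?_ ?_ ?_ ?_ ?_ ?_ ?_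
  · intro z hz
    exact ⟨hz.1, (c4 _ hz.2).1⟩
  · intro z hz _ hS
    exact ⟨hz.1, _, hS.2, rfl⟩
  · rintro t y ⟨ht, y', hy', rfl⟩ _
    exact ⟨ht, hy'⟩
  · intro t y hy _ _ x hx _
    refine ⟨emb F.fr (piNb F.fr F.lo) x, ⟨hy.1, ?_⟩, ?_⟩
    · show emb F.fr (piNb F.fr F.lo) x ∈ F.set
      rw [hset]
      exact mem_image_of_mem _ hx.2
    · funext i
      exact emb_apply_mem _ _ _ _
  · intro t x x' hx hx' _ e
    have e' : (fun i : F.fr => x' i) = fun i : F.fr => x i := e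
    exact (c4 x' hx'.2).2.symm.trans ((congrArg _ e').trans (c4 x hx.2).2)
  · intro z hz _
    refine ⟨(continuous_fst.prodMk (continuous_pi fun i : F.fr =>
      (continuous_apply (i : ι)).comp continuous_snd)).continuousWithinAt, ?_⟩
    filter_upwards [self_mem_nhdsWithin] with z' hz'
    show K' * (z.1 * dist (fun i : F.fr => z'.2 i) (fun i : F.fr => z.2 i)
      + 2 ^ k * |z'.1 - z.1|) ≤ K' * (z.1 * dist z'.2 z.2 + 2 ^ k * |z'.1 - z.1|)
    rw [← pias_dist_emb F.fr (piNb F.fr F.lo), (c4 _ hz.2).2, (c4 _ hz'.2).2]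
  · intro z hz
    exact hz.2.elim

theorem piMS_split (hB : 4 ≤ B)
    (hL : ∀ S : Finset ι, S.card = d + 1 → ∀ b, (piLE U B u u' K T w ρ a P S b).OK)
    (hM : ∀ S : Finset ι, S.card = d + 1 → ∀ b, (piLE U B u u' K T w ρ a P S b).Out K' (M S b))
    {k : ℤ} {F : Bx ι} (hF : Face k F) (hc : F.fr.card = d + 1) (h0 : a F < 0) {t : ℝ}
    (ht : B ^ (a F + 1) ≤ t) {x : E ι} (hx : x ∈ F.set) :
    Ap U (piMS M F.fr k F (t, x)) (piNew M d P (k - 1) (t, x)) := by
  obtain ⟨c1, c2, c3, c4⟩ := pias_face hF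
  obtain ⟨x1, x2⟩ := c4 _ hx
  have : Nonempty F.fr := Finset.Nonempty.to_subtype (Finset.card_pos.1 (by omega))
  obtain ⟨G', g1, g2, g3⟩ := (c1.lb.down (show k - 1 ≤ k by omega)).exists_cube x1
  have c3' : ∀ i ∉ F.fr, Lat (k - 1) (piNb F.fr F.lo i) := fun i hi => (c3 i hi).down
  have f1 : Face (k - 1) (embB F.fr (piNb F.fr F.lo) G') := (embB_face c3' g1.face).1
  have f2 : (embB F.fr (piNb F.fr F.lo) G').fr = F.fr := embB_fr _ g1.lb.pos
  have f3 : x ∈ (embB F.fr (piNb F.fr F.lo) G').set := by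
    rw [embB_set]
    exact ⟨_, g3, x2⟩
  have f4 : a (embB F.fr (piNb F.fr F.lo) G') ≤
      a (embB F.fr (piNb F.fr F.lo) (piBx F.fr F)) + 1 := (hL F.fr hc _).a_child c3 c1 g1 g2
  rw [c2] at f4
  have hs : Ap U (M F.fr (piNb F.fr F.lo) k (piBx F.fr F) (t, fun i => x i))
      (M F.fr (piNb F.fr F.lo) (k - 1) G' (t, fun i => x i)) := by
    refine (hM F.fr hc _).split k _ G' t c3 c1 g1 g2 ?_ ?_ _ g3
    · show a (embB F.fr (piNb F.fr F.lo) (piBx F.fr F)) < 0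
      rwa [c2]
    · show B ^ (a (embB F.fr (piNb F.fr F.lo) (piBx F.fr F)) + 1) ≤ t
      rwa [c2]
  have ht' : B ^ (a (embB F.fr (piNb F.fr F.lo) G') - 1) ≤ t :=
    le_trans (zpow_le_zpow_right₀ (by linarith only [hB]) (by omega)) ht
  have hn := piNew_top hM f1 (by rw [f2, hc]) (z := (t, x)) ht' f3
  rw [f2] at hn
  have e1 : piNb F.fr (embB F.fr (piNb F.fr F.lo) G').lo = piNb F.fr F.lo := by
    funext i
    by_cases hi : i ∈ F.fr
    · simp only [piNb, if_pos hi]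
    · show (if i ∈ F.fr then 0 else emb F.fr (piNb F.fr F.lo) G'.lo i) = _
      rw [if_neg hi, emb_apply_not _ _ hi]
  have e2 : piBx F.fr (embB F.fr (piNb F.fr F.lo) G') = G' :=
    Bx.ext' (funext fun i => emb_apply_mem _ _ _ i) (funext fun i => emb_apply_mem _ _ _ i)
  have e3 : piMS M F.fr (k - 1) (embB F.fr (piNb F.fr F.lo) G') (t, x) =
      M F.fr (piNb F.fr F.lo) (k - 1) G' (t, fun i => x i) := by
    unfold piMS
    rw [e1, e2]
  rw [e3] at hn
  exact hs.trans hn.symm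

end Step

theorem PI.step : ∃ B0 : ℝ, ∀ B : ℝ, B0 ≤ B → 4 ≤ B → ∀ (d : ℕ) (K u u' : ℝ) (T : ℤ), 1 ≤ K →
    1 ≤ u → u < u' → u' ≤ 2 → 0 ≤ T → ∃ K' : ℝ, K ≤ K' ∧ ∀ (U V : Set (E ι))
      (w : Finset ι → E ι → ℝ≥0∞) (r : ℕ → ℝ) a al P, IsOpen U → Uᶜ.Nonempty → U ⊆ V → Wt V w →
      AL w B r a al → PI U d B u K T al P → ∃ P', PI U (d + 1) B u' K' (T + 1) al P' := by
  obtain ⟨B0, h0⟩ := pias_lossy (ι := ι)
  refine ⟨B0, fun B hB0 hB d K u u' T hK hu huu hu2 hT => ?_⟩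
  obtain ⟨K', hKK, h1⟩ := h0 B hB0 K (u' - u) T (by linarith only [huu])
  refine ⟨K', hKK, fun U V w r a al P hU hne hUV hw ha h => ?_⟩
  have hL : ∀ S : Finset ι, S.card = d + 1 → ∀ b,
      (piLE U B u u' K T w (r (d + 1)) a P S b).OK :=
    fun S hS b => piLE_ok hB hK hu huu hu2 hT hU hne hUV hw ha h hS b
  have h2 : ∀ (S : Finset ι) (b : E ι), ∃ M : ℤ → Bx S → ℝ × E S → E ι, S.card = d + 1 →
      (piLE U B u u' K T w (r (d + 1)) a P S b).Out K' M := by
    intro S b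
    by_cases hS : S.card = d + 1
    · obtain ⟨M, hM⟩ := h1 S (Finset.card_pos.1 (by omega)) _ (hL S hS b) rfl rfl rfl le_rfl
      exact ⟨M, fun _ => hM⟩
    · exact ⟨fun _ _ _ => 0, fun h => absurd h hS⟩
  choose M hM' using h2
  have hM : ∀ S : Finset ι, S.card = d + 1 → ∀ b,
      (piLE U B u u' K T w (r (d + 1)) a P S b).Out K' (M S b) := fun S hS b => hM' S b hS
  have hBp : 0 < B := by linarith only [hB]
  have hB1 : 1 < B := by linarith only [hB]
  have hal : ∀ F : Bx ι, F.fr.card = d + 1 → al F = B ^ a F ∧ al F / B = B ^ (a F - 1) ∧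
      al F * B = B ^ (a F + 1) := by
    intro F hc
    rw [ha.eq F (Finset.card_pos.1 (by omega)), zpow_sub_one₀ hBp.ne', zpow_add_one₀ hBp.ne',
      div_eq_mul_inv]
    exact ⟨rfl, rfl, rfl⟩
  refine ⟨piNew M d P, fun k F hF hc => ?_, fun k F t hF hc h3 ht x hx => ?_,
    fun k F i t t' hF hc ht ht' h3 h4 x hx => ?_, fun k F t hF hc ht x hx => ?_⟩
  · rcases Nat.lt_or_eq_of_le hc with hc' | hc'
    · have hc'' : F.fr.card ≤ d := by omega
      refine Sol.congr_eq ((h.sol k F hF hc'').mono (p := pbF id (al F / B) F.set K' k) rfl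
        subset_rfl (fun _ _ => Ap.rfl) (fun _ _ _ => Iff.rfl)
        (fun z hz => Eventually.of_forall fun z' => ?_) subset_rfl) (fun z hz => hz.2.elim)
        fun z hz => piNew_low M P le_rfl hF hc'' hz.2
      have h5 : 0 ≤ z.1 := le_trans (div_nonneg (ha.pias_nonneg hB F) hBp.le) hz.1
      show K * (z.1 * dist z'.2 z.2 + 2 ^ k * |z'.1 - z.1|) ≤
        K' * (z.1 * dist z'.2 z.2 + 2 ^ k * |z'.1 - z.1|)
      exact mul_le_mul_of_nonneg_right hKK (by positivity)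
    · rw [(hal F hc').2.1]
      exact (piMS_sol hM hF hc').congr hU (fun z hz => hz.2.elim)
        fun z hz => piNew_top hM hF hc' hz.1 hz.2
  · rcases Nat.lt_or_eq_of_le hc with hc' | hc'
    · have hc'' : F.fr.card ≤ d := by omega
      rw [piNew_low M P le_rfl hF hc'' (z := (t, x)) hx,
        piNew_low M P (show k - 1 ≤ k by omega) hF hc'' (z := (t, x)) hx]
      exact h.split k F t hF hc'' h3 ht x hx
    · obtain ⟨e1, -, e3⟩ := hal F hc'
      rw [e1] at h3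
      rw [e3] at ht
      have h5 : a F < 0 := by
        by_contra h6
        exact absurd (one_le_zpow₀ hB1.le (not_lt.1 h6)) (not_le.2 h3)
      exact (piNew_top hM hF hc' (z := (t, x))
        (le_trans (zpow_le_zpow_right₀ hB1.le (by omega)) ht) hx).trans
        (piMS_split hB hL hM hF hc' h5 ht hx)
  · rcases Nat.lt_or_eq_of_le hc with hc' | hc'
    · have hc'' : F.fr.card ≤ d := by omega
      rw [piNew_low M P le_rfl hF hc'' (z := (t, x)) hx,
        piNew_low M P le_rfl hF hc'' (z := (t', x)) hx]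
      have h5 : B ^ i * u ≤ B ^ i * u' := mul_le_mul_of_nonneg_left huu.le (zpow_pos hBp _).le
      exact h.froz k F i t t' hF hc'' ht ht' ⟨h5.trans h3.1, h3.2⟩ ⟨h5.trans h4.1, h4.2⟩ x hx
    · rw [(hal F hc').2.1] at ht ht'
      obtain ⟨c1, c2, c3, c4⟩ := pias_face hF
      have hs : Ap U (piMS M F.fr k F (t, x)) (piMS M F.fr k F (t', x)) := by
        refine (hM F.fr hc' _).froz k _ i t t' c3 c1 ?_ ?_ h3 h4 _ (c4 x hx).1
        · show B ^ (a (embB F.fr (piNb F.fr F.lo) (piBx F.fr F)) - 1) ≤ t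
          rwa [c2]
        · show B ^ (a (embB F.fr (piNb F.fr F.lo) (piBx F.fr F)) - 1) ≤ t'
          rwa [c2]
      exact ((piNew_top hM hF hc' (z := (t, x)) ht hx).trans hs).trans
        (piNew_top hM hF hc' (z := (t', x)) ht' hx).symm
  · rcases Nat.lt_or_eq_of_le hc with hc' | hc'
    · have hc'' : F.fr.card ≤ d := by omega
      rw [piNew_low M P le_rfl hF hc'' (z := (t, x)) hx]
      exact h.idn k F t hF hc'' (le_trans (zpow_le_zpow_right₀ hB1.le (by omega)) ht) x hx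
    · obtain ⟨c1, c2, c3, c4⟩ := pias_face hF
      have hs : Ap U (piMS M F.fr k F (t, x)) (emb F.fr (piNb F.fr F.lo) fun i => x i) :=
        (hM F.fr hc' _).idn k _ t c3 c1 ht _ (c4 x hx).1
      rw [(c4 x hx).2] at hs
      have h5 := ha.a0 F
      exact (piNew_top hM hF hc' (z := (t, x))
        (le_trans (zpow_le_zpow_right₀ hB1.le (by omega)) ht) hx).trans hs

/-- The squeezing maps in all dimensions up to the top one. -/
theorem pias_ind [Nonempty ι] : ∃ B : ℝ, 4 ≤ B ∧ ∀ d : ℕ, d ≤ Fintype.card ι → ∃ K : ℝ, 1 ≤ K ∧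
    ∀ (U V : Set (E ι)) (w : Finset ι → E ι → ℝ≥0∞) (r : ℕ → ℝ) a al, IsOpen U → Uᶜ.Nonempty →
      U ⊆ V → Wt V w → AL w B r a al →
      ∃ P, PI U d B (1 + d / Fintype.card ι) K d al P := by
  obtain ⟨B0, h0⟩ := PI.step (ι := ι)
  refine ⟨max B0 4, le_max_right _ _, fun d => ?_⟩
  have hN : (0 : ℝ) < Fintype.card ι := Nat.cast_pos.2 Fintype.card_pos
  induction d with
  | zero =>
    exact fun _ => ⟨1, le_rfl, fun U V w r a al _ _ _ _ ha =>
      ⟨_, PI.zero U zero_le_one _ ha.vx⟩⟩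
  | succ d ih =>
    intro hd
    obtain ⟨K, hK, h1⟩ := ih (by omega)
    have hd' : ((d + 1 : ℕ) : ℝ) ≤ Fintype.card ι := Nat.cast_le.2 hd
    obtain ⟨K', hK', h2⟩ := h0 (max B0 4) (le_max_left _ _) (le_max_right _ _) d K
      (1 + d / Fintype.card ι) (1 + ((d + 1 : ℕ) : ℝ) / Fintype.card ι) d hK
      (le_add_of_nonneg_right (by positivity))
      (by
        have : (d : ℝ) / Fintype.card ι < ((d + 1 : ℕ) : ℝ) / Fintype.card ι :=
          div_lt_div_of_pos_right (by push_cast; linarith only []) hN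
        linarith only [this])
      (by
        have : ((d + 1 : ℕ) : ℝ) / Fintype.card ι ≤ 1 := (div_le_one hN).2 hd'
        linarith only [this])
      (Int.natCast_nonneg d)
    refine ⟨K', hK.trans hK', fun U V w r a al hU hne hUV hw ha => ?_⟩
    obtain ⟨P, hP⟩ := h1 U V w r a al hU hne hUV hw ha
    exact h2 U V w r a al P hU hne hUV hw ha hP

/-- Boundary data for the cubes of full dimension. -/
theorem exists_BD [Nontrivial ι] : ∃ (B u K A : ℝ) (T : ℤ), 4 ≤ B ∧ 1 ≤ A ∧ 0 ≤ T ∧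
    ∀ (U V : Set (E ι)) (w : Finset ι → E ι → ℝ≥0∞), IsOpen U → Uᶜ.Nonempty → U ⊆ V → Wt V w →
      ∃ P, BD U id (fun _ => True) B u K T
        (fun _ G => min (B ^ T) (A * G.den (volume.withDensity (w Finset.univ)) ^ thN ι))
        (fun _ G => min (B ^ T) (A * G.den (volume.withDensity (w Finset.univ)) ^ thN ι)) P := by
  obtain ⟨B, hB, h0⟩ := pias_ind (ι := ι)
  obtain ⟨K, hK, h1⟩ := h0 (Fintype.card ι - 1) (Nat.sub_le _ _)
  obtain ⟨r, hr⟩ := exists_AL (ι := ι) hB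
  have hT : (0 : ℤ) ≤ ((Fintype.card ι - 1 : ℕ) : ℤ) := Int.natCast_nonneg _
  obtain ⟨A, hA, h2⟩ := exists_top (ι := ι) hB r hT
  refine ⟨B, 1 + ((Fintype.card ι - 1 : ℕ) : ℝ) / Fintype.card ι, K, A, _, hB, hA, hT,
    fun U V w hU hne hUV hw => ?_⟩
  obtain ⟨a, al, ha⟩ := hr V w hw
  obtain ⟨P, h⟩ := h1 U V w r a al hU hne hUV hw ha
  generalize ((Fintype.card ι - 1 : ℕ) : ℤ) = T at hT h2 h ⊢
  have hBp : 0 < B := by linarith only [hB]
  have hB1 : 1 ≤ B := by linarith only [hB]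
  have hBT : 1 ≤ B ^ T := one_le_zpow₀ hB1 hT
  have key : ∀ k G F, Cube k G → Face k F → F.set ⊆ G.bd → F.fr.card ≤ Fintype.card ι - 1 ∧
      al F / B ≤ min (B ^ T) (A * G.den (volume.withDensity (w Finset.univ)) ^ thN ι) := by
    intro k G F hG hF hs
    obtain ⟨e1, e2, -⟩ := h2 V w a al hw ha k G F hG hF hs
    have e3 := hF.card_lt hG hs
    have e4 := ha.pias_nonneg hB F
    have e5 : al F / B ≤ al F := div_le_self e4 hB1
    have e6 : al F ≤ al F * B := le_mul_of_one_le_right e4 hB1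
    rw [hw.den_top hG.lb.pos]
    exact ⟨by omega, le_min (by linarith only [hBT, e1, e5]) (by linarith only [e2, e5, e6])⟩
  refine ⟨P, fun _ _ => trivial, hK, fun k G _ hG => ?_, fun k G _ _ => min_le_left _ _,
    fun k G F _ hG hF hs => ?_, fun k G t _ hG ht x hx => ?_,
    fun k G i t t' _ hG ht ht' h3 h4 x hx => ?_, fun k G t _ hG ht x hx => ?_⟩
  · refine lt_min (zpow_pos hBp _) (mul_pos (by linarith only [hA]) (Real.rpow_pos_of_pos ?_ _))
    rw [hw.den_top hG.lb.pos]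
    obtain ⟨e1, e2⟩ := hw.rho_bd G
    exact ENNReal.toReal_pos e1.ne' (ne_top_of_le_ne_top ENNReal.one_ne_top e2)
  · obtain ⟨e1, e2⟩ := key k G F hG hF hs
    exact Sol.restrict (h.sol k F hF e1) (Ici_subset_Ici.2 e2)
  · have hs := pias_face_bd hG hx
    have hF := face_faceAt k x
    obtain ⟨e1, -⟩ := key k G _ hG hF hs
    by_cases h5 : B ^ T ≤ t
    · exact h.pias_split hF e1 h5 (mem_faceAt k x)
    · obtain ⟨-, e2, e3⟩ := h2 V w a al hw ha k G _ hG hF hs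
      simp only [hw.den_top hG.lb.pos] at ht
      have e4 : A * (rho w G).toReal ^ thN ι ≤ t := (min_le_iff.1 ht).resolve_left h5
      have e5 : al (faceAt k x) * B < 1 := by
        by_contra h6
        exact h5 ((e3 (not_lt.1 h6)).trans e4)
      have e6 : al (faceAt k x) ≤ al (faceAt k x) * B :=
        le_mul_of_one_le_right (ha.pias_nonneg hB _) hB1
      exact h.split k _ t hF e1 (e6.trans_lt e5) (e2.trans e4) x (mem_faceAt k x)
  · obtain ⟨e1, e2⟩ := key k G _ hG (face_faceAt k x) (pias_face_bd hG hx)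
    exact h.froz k _ i t t' (face_faceAt k x) e1 (e2.trans ht) (e2.trans ht') h3 h4 x
      (mem_faceAt k x)
  · obtain ⟨e1, -⟩ := key k G _ hG (face_faceAt k x) (pias_face_bd hG hx)
    exact h.idn k _ t (face_faceAt k x) e1 ht x (mem_faceAt k x)

end Pool.Agent.Lib.MP_ecd4e3_gt.N
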