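import Pool.Agent.Lib.MP_ecd4e3_gt.N.One
import Pool.Agent.Lib.MP_ecd4e3_gt.N.Clear
import Pool.Agent.Lib.MP_ecd4e3_gt.N.XH
import Pool.Agent.Lib.MP_ecd4e3_gt.N.PIas
import Pool.Agent.Lib.MP_ecd4e3_gt.N.ELim
import Pool.Agent.Lib.MP_ecd4e3_gt.N.DMain

/-! Assembly. -/

namespace Pool.Agent.Lib.MP_ecd4e3_gt.N

open Set Filter Topology Metric MeasureTheory
open scoped NNReal ENNReal

variable {ι : Type} [Fintype ι] [DecidableEq ι]

theorem inv_fill {V U : Set (E ι)} (hV : IsOpen V) (hU : IsOpen U) {X : E ι → E ι}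
    (hX : BijOn X V U) {L r : ℝ} (hL : 0 < L) (hr : V ⊆ closedBall 0 r)
    (h : ∀ x ∈ V, ∀ᶠ x' in 𝓝 x, dist (X x') (X x) ≤ L * dist x' x) :
    ∃ f : E ι → E ι, InjOn f U ∧ ContinuousOn f U ∧ MapsTo f U (closedBall 0 (L * r)) ∧
      ∀ z ∈ U, ∀ᶠ z' in 𝓝 z, dist z' z ≤ dist (f z') (f z) := by
  have hc : ContinuousOn X V := fun z hz => ContinuousAt.continuousWithinAt (by
    rw [ContinuousAt, tendsto_iff_dist_tendsto_zero]
    have h1 : Tendsto (fun z' => L * dist z' z) (𝓝 z) (𝓝 (L * dist z z)) :=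
      Continuous.tendsto (by fun_prop) z
    rw [dist_self, mul_zero] at h1
    exact squeeze_zero' (Eventually.of_forall fun _ => dist_nonneg) (h z hz) h1)
  set g := Function.invFunOn X V
  have g1 : ∀ z ∈ U, g z ∈ V := fun z hz => Function.invFunOn_mem (hX.surjOn hz)
  have g2 : ∀ z ∈ U, X (g z) = z := fun z hz => Function.invFunOn_eq (hX.surjOn hz)
  have g3 : ∀ x ∈ V, g (X x) = x := fun x hx => hX.injOn.leftInvOn_invFunOn hx
  have gc : ∀ z ∈ U, ContinuousAt g z := fun z hz s hs => by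
    obtain ⟨t, t1, t2, t3⟩ := _root_.mem_nhds_iff.1 (inter_mem hs (hV.mem_nhds (g1 z hz)))
    have tV : t ⊆ V := fun _ h => (t1 h).2
    have ho := inv_dom t2 (hc.mono tV) (hX.injOn.mono tV)
    refine mem_map.2 (mem_of_superset (ho.mem_nhds ⟨g z, t3, g2 z hz⟩) ?_)
    rintro _ ⟨x, hx, rfl⟩
    rw [mem_preimage, g3 x (tV hx)]
    exact (t1 hx).1
  have ds : ∀ p q : E ι, dist (L • p) (L • q) = L * dist p q := fun p q => by
    rw [dist_smul₀, Real.norm_eq_abs, abs_of_pos hL]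
  refine ⟨fun z => L • g z, fun z hz z' hz' e => ?_, fun z hz => ?_, fun z hz => ?_, fun z hz => ?_⟩
  · rw [← g2 z hz, ← g2 z' hz', smul_right_injective _ hL.ne' e]
  · exact ((gc z hz).const_smul L).continuousWithinAt
  · have := ds (g z) 0
    rw [smul_zero] at this
    rw [mem_closedBall, this]
    exact mul_le_mul_of_nonneg_left (hr (g1 z hz)) hL.le
  · filter_upwards [(gc z hz).eventually (h _ (g1 z hz)), hU.mem_nhds hz] with z' h1 h2
    rwa [g2 z hz, g2 z' h2, ← ds] at h1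

theorem fill_many (ι : Type) [Fintype ι] [DecidableEq ι] [Nontrivial ι] : Fill ι := by
  obtain ⟨C2, hW⟩ := exists_Wt (ι := ι)
  obtain ⟨B, u, K, A, T, hB, hA, hT, hBD⟩ := exists_BD (ι := ι)
  obtain ⟨K0, K1, hD⟩ := exists_disp (Classical.arbitrary ι)
  obtain ⟨C3, hC3, hE⟩ := eff (ι := ι) B K A K1 T
  set C1 : ℝ := (2 * 220 + 3) ^ Fintype.card ι with hC1
  have pC1 : 0 < C1 := by positivity
  set c : ℝ := max 1 (C2 * C1) with hc
  have c1 : 1 ≤ c := le_max_left _ _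
  refine ⟨5 * (C3 * c), by positivity, fun U hU l hl hv => ?_⟩
  have hf : volume U ≠ ∞ := ne_top_of_le_ne_top ENNReal.ofReal_ne_top hv
  have hn := compl_nonempty hf
  have pl : 0 < l ^ Fintype.card ι := by positivity
  obtain ⟨v, hv', w, hw, hm⟩ := hW (fat 220 U) (ENNReal.ofReal (C1 * l ^ Fintype.card ι))
    (isOpen_fat _ _).measurableSet (ENNReal.ofReal_pos.2 (by positivity)) (by
      rw [ENNReal.ofReal_mul pC1.le]
      exact (fat_vol (by norm_num) hU hf).trans (by gcongr))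
  have lb := lin_bij hv'
  have ld := lin_dist hv'
  have lc : Continuous (lin v) := (LipschitzWith.of_dist_le' fun x y => (ld x y).1).continuous
  have hn1 : (lin v ⁻¹' U)ᶜ.Nonempty := by
    obtain ⟨y, hy⟩ := hn
    obtain ⟨x, rfl⟩ := lb.2 y
    exact ⟨x, hy⟩
  obtain ⟨Φ, b1, b2, b3, b4⟩ := exists_clear (hU.preimage lc) hn1
  have pc : Continuous Φ := (LipschitzWith.of_dist_le' b2).continuous
  have fp := fat_pre hn lb ld
  have hn2 : (Φ ⁻¹' (lin v ⁻¹' U))ᶜ.Nonempty := by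
    obtain ⟨y, hy⟩ := hn1
    obtain ⟨x, rfl⟩ := b1.2 y
    exact ⟨x, hy⟩
  have o2 := (hU.preimage lc).preimage pc
  obtain ⟨P, hP⟩ := hBD _ _ w o2 hn2 (b3.trans fp) hw
  obtain ⟨y0, hy0⟩ := hn2
  have one : ∀ Q : Bx ι, Q.Pos → Q.set ⊆ lin v ⁻¹' fat 220 U →
      Q.den (volume.withDensity (w Finset.univ)) = 1 := fun Q hQ h => by
    rw [hw.den_top hQ, hw.rho_one (fun i => (hQ i).le) h, ENNReal.toReal_one]
  have ok : EV.OK ⟨Φ ⁻¹' (lin v ⁻¹' U), B, u, K, T, A, P, volume.withDensity (w Finset.univ),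
      Classical.arbitrary ι, K0, K1, (0, y0)⟩ := by
    refine ⟨o2, hy0, hP, hB, hT, hA, hw.top_le, fun Q hQ => ?_,
      fun Q hQ h => one Q hQ (h.trans (b3.trans fp)), fun k Q hQ hd x hx hl hx' => ?_, hD⟩
    · have h1 := hw.rho_pos Q
      rw [← hw.den_top hQ, Bx.den] at h1
      refine pos_iff_ne_zero.2 fun e => ?_
      dsimp only at e
      rw [e] at h1
      simp at h1
    · exact hd.ne (one Q hQ.two.1 ((b4 k Q hQ x hx hl hx').trans fp))
  obtain ⟨V, Y, v1, v2, v3, v4⟩ := hE _ ok rfl rfl rfl rfl rfl (c * l) (by positivity) (by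
    dsimp only
    rw [withDensity_apply _ MeasurableSet.univ, Measure.restrict_univ]
    refine hm.trans ?_
    rw [← ENNReal.ofReal_coe_nnreal, ← ENNReal.ofReal_mul C2.coe_nonneg, mul_pow, ← mul_assoc]
    refine ENNReal.ofReal_le_ofReal (mul_le_mul_of_nonneg_right ?_ pl.le)
    exact (le_max_right _ _).trans (le_self_pow₀ c1 Fintype.card_ne_zero))
  have hb : BijOn (fun x => lin v (Φ (Y x))) V U :=
    ((lb.comp b1).bijOn_preimage (t := U)).comp v3
  obtain ⟨f, f1, f2, f3, f4⟩ := inv_fill v1 hU hb (L := 5) (by norm_num) v2 fun x hx =>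
    (v4 x hx).mono fun x' h => by
      have h1 := (ld (Φ (Y x')) (Φ (Y x))).1
      have h2 := b2 (Y x') (Y x)
      linarith
  exact ⟨f, f1, f2, by rwa [mul_assoc, mul_assoc], f4⟩

theorem fill_all {n : ℕ} (hn : 1 ≤ n) : Fill (Fin n) := by
  rcases hn.eq_or_lt with h | h
  · rw [← h]; exact fill_one
  · have : Nontrivial (Fin n) := Fin.nontrivial_iff_two_le.2 h
    exact fill_many _

end Pool.Agent.Lib.MP_ecd4e3_gt.N
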