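import Pool.Agent.Lib.MP_ecd4e3_gt.N.LDefs
import Pool.Agent.Lib.MP_ecd4e3_gt.N.Bdry

/-! Rounds and credits of the lossy construction. -/

namespace Pool.Agent.Lib.MP_ecd4e3_gt.N

open Set Filter Topology Metric MeasureTheory
open scoped NNReal ENNReal

/-- The exponent of the credit. -/
noncomputable def sL (d : ℕ) : ℝ := (4 * d + 1) / (4 * d + 2)
/-- The smallest fraction of a cut. -/
noncomputable def fL (d : ℕ) : ℝ := (1 - (2 : ℝ) ^ (sL d - 1)) / 2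

theorem sL_bd (d : ℕ) : 0 < sL d ∧ sL d < 1 := by
  unfold sL
  exact ⟨by positivity, (div_lt_one (by positivity)).2 (by linarith only [])⟩

theorem fL_bd {d : ℕ} (hd : 1 ≤ d) : 0 < fL d ∧ fL d ≤ 1 / 16 := by
  have h1 : (2 : ℝ) ^ (sL d - 1) < 1 :=
    Real.rpow_lt_one_of_one_lt_of_neg one_lt_two (by linarith only [(sL_bd d).2])
  have h2 : -(1 / 6) ≤ sL d - 1 := by
    have : (1 : ℝ) ≤ d := by exact_mod_cast hd
    unfold sL
    rw [le_sub_iff_add_le, le_div_iff₀ (by positivity)]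
    linarith only [this]
  have h3 := Real.add_one_le_exp (Real.log 2 * (sL d - 1))
  rw [← Real.rpow_def_of_pos two_pos] at h3
  have h4 := mul_le_mul_of_nonneg_left h2 (Real.log_nonneg one_le_two)
  unfold fL
  exact ⟨by linarith only [h1], by linarith only [Real.log_two_lt_d9, h1, h3, h4]⟩

theorem cg_exp {a b : ℝ} (h0 : 0 ≤ b) (h : b ≤ a) : a + b ≤ Real.exp a - Real.exp (-b) := by
  have h1 : (a + b) / 2 ≤ Real.sinh ((a + b) / 2) := Real.self_le_sinh_iff.2 (by linarith only [h0, h])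
  have h2 : 1 ≤ Real.exp ((a - b) / 2) := Real.one_le_exp (by linarith only [h])
  have e : Real.exp a - Real.exp (-b) = Real.exp ((a - b) / 2) * (2 * Real.sinh ((a + b) / 2)) := by
    rw [Real.sinh_eq, mul_div_cancel₀ _ two_ne_zero, mul_sub, ← Real.exp_add, ← Real.exp_add]
    congr 2 <;> ring
  rw [e]
  nlinarith only [h1, h0, h2, h]

theorem cg_der {q e : ℝ} (q0 : 0 ≤ q) (e0 : 0 ≤ e) (e1 : e < 1) :
    2 * q * e ≤ (1 - e) ^ (-q) - (1 + e) ^ (-q) := by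
  have p1 : 0 < 1 - e := by linarith only [e1]
  have p2 : 0 < 1 + e := by linarith only [e0]
  have l1 : 0 ≤ Real.log (1 + e) := Real.log_nonneg (by linarith only [e0])
  have l2 : Real.log (1 + e) + Real.log (1 - e) ≤ 0 := by
    rw [← Real.log_mul p2.ne' p1.ne']
    exact Real.log_nonpos (by positivity) (by nlinarith only [e0])
  have l3 : 2 * e ≤ Real.log (1 + e) - Real.log (1 - e) := by
    have := Real.le_log_one_add_of_nonneg (x := 2 * e / (1 - e)) (by positivity)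
    rw [← Real.log_div p2.ne' p1.ne']
    convert this using 2
    · field_simp
      ring
    · field_simp
      ring
  have := cg_exp (a := Real.log (1 - e) * -q) (mul_nonneg l1 q0) (by nlinarith only [q0, l2])
  rw [Real.rpow_def_of_pos p1, Real.rpow_def_of_pos p2, mul_neg (Real.log (1 + e))]
  nlinarith only [this, q0, l3]

theorem cg_sum {s e : ℝ} (s0 : 0 < s) (s1 : s < 1) (e0 : 0 ≤ e) (e1 : e ≤ 1) :
    (1 + e) ^ s + (1 - e) ^ s + s * (1 - s) * e ^ 2 ≤ 2 := by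
  rcases e0.eq_or_lt with rfl | e0
  · norm_num
  have c1 : Continuous fun t : ℝ => (1 + t) ^ s :=
    (continuous_const.add continuous_id).rpow_const fun _ => Or.inr s0.le
  have c2 : Continuous fun t : ℝ => (1 - t) ^ s :=
    (continuous_const.sub continuous_id).rpow_const fun _ => Or.inr s0.le
  obtain ⟨c, hc, k⟩ := exists_hasDerivAt_eq_slope
    (fun t : ℝ => (1 + t) ^ s + (1 - t) ^ s + s * (1 - s) * t ^ 2)
    (fun t => 1 * s * (1 + t) ^ (s - 1) + -1 * s * (1 - t) ^ (s - 1) + s * (1 - s) * (2 * t)) e0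
    ((c1.add c2).add (by fun_prop)).continuousOn fun t ht => by
      have d1 := ((hasDerivAt_id' t).const_add 1).rpow_const (p := s)
        (Or.inl (by linarith only [ht.1, s0, s1]))
      have d2 := ((hasDerivAt_id' t).const_sub 1).rpow_const (p := s)
        (Or.inl (by linarith only [ht.2, e1]))
      have d3 : HasDerivAt (fun t : ℝ => t ^ 2) (2 * t) t := by simpa using hasDerivAt_pow 2 t
      exact (d1.add d2).add (d3.const_mul _)
  have k2 := cg_der (q := 1 - s) (by linarith only [s1]) hc.1.le (hc.2.trans_le e1)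
  rw [neg_sub] at k2
  rw [sub_zero e, eq_div_iff e0.ne'] at k
  have k3 := mul_le_mul_of_nonneg_left k2 (mul_pos s0 e0).le
  norm_num at k
  nlinarith only [k3, k]

/-- Concavity with a quadratic gain. -/
theorem conc_gain {s x1 x2 : ℝ} (s0 : 0 < s) (s1 : s < 1) (h1 : 0 ≤ x1) (h2 : 0 ≤ x2) :
    (x1 ^ s + x2 ^ s) / 2 ≤ ((x1 + x2) / 2) ^ s ∧
      s * (1 - s) / 8 * (x1 ^ s - x2 ^ s) ^ 2 ≤
        ((x1 + x2) / 2) ^ s * (((x1 + x2) / 2) ^ s - (x1 ^ s + x2 ^ s) / 2) := by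
  wlog h : x2 ≤ x1 generalizing x1 x2
  · have := this h2 h1 (not_le.1 h).le
    rwa [add_comm x2, add_comm (x2 ^ s), ← neg_sub (x1 ^ s), neg_sq] at this
  rcases (show 0 ≤ (x1 + x2) / 2 by positivity).eq_or_lt with hm | hm
  · have e1 : x1 = 0 := by linarith only [h1, h2, hm]
    have e2 : x2 = 0 := by linarith only [h2, h, hm]
    simp [e1, e2, Real.zero_rpow s0.ne']
  set m := (x1 + x2) / 2 with hmm
  have e0 : 0 ≤ (x1 - x2) / (2 * m) := div_nonneg (by linarith only [h]) (by positivity)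
  have e1 : (x1 - x2) / (2 * m) ≤ 1 := (div_le_one (by positivity)).2 (by linarith only [h2, hmm])
  have a1 : x1 = m * (1 + (x1 - x2) / (2 * m)) := by
    field_simp
    linarith only [hmm]
  have a2 : x2 = m * (1 - (x1 - x2) / (2 * m)) := by
    field_simp
    linarith only [hmm]
  generalize (x1 - x2) / (2 * m) = e at e0 e1 a1 a2
  have b1 : x1 ^ s = m ^ s * (1 + e) ^ s := by
    rw [← Real.mul_rpow hm.le (by linarith only [s0, s1, e0]), ← a1]
  have b2 : x2 ^ s = m ^ s * (1 - e) ^ s := by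
    rw [← Real.mul_rpow hm.le (by linarith only [e1]), ← a2]
  have c0 := cg_sum s0 s1 e0 e1
  have c1 : (1 + e) ^ s ≤ 1 + e := Real.rpow_le_self_of_one_le (by linarith only [e0]) s1.le
  have c2 : 1 - e ≤ (1 - e) ^ s :=
    Real.self_le_rpow_of_le_one (by linarith only [e1]) (by linarith only [e0]) s1.le
  have c3 : (1 - e) ^ s ≤ (1 + e) ^ s := Real.rpow_le_rpow (by linarith only [e1]) (by linarith only [e0]) s0.le
  have c4 : ((1 + e) ^ s - (1 - e) ^ s) ^ 2 ≤ (2 * e) ^ 2 :=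
    pow_le_pow_left₀ (by linarith only [c3]) (by linarith only [c1, c2]) 2
  have p : 0 < s * (1 - s) := mul_pos s0 (by linarith only [s1])
  have q : 0 < m ^ s := Real.rpow_pos_of_pos hm s
  have c5 := mul_le_mul_of_nonneg_left c4 p.le
  have c6 := mul_nonneg p.le (sq_nonneg e)
  rw [b1, b2]
  generalize (1 + e) ^ s = A at *
  generalize (1 - e) ^ s = C at *
  generalize m ^ s = M at *
  refine ⟨by nlinarith only [mul_nonneg q.le (show 0 ≤ 2 - A - C by linarith only [c6, c0]), q, c6, c0], ?_⟩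
  have c7 : s * (1 - s) / 8 * (A - C) ^ 2 ≤ 1 - (A + C) / 2 := by linarith only [c0, c5]
  calc s * (1 - s) / 8 * (M * A - M * C) ^ 2 = M ^ 2 * (s * (1 - s) / 8 * (A - C) ^ 2) := by ring
    _ ≤ M ^ 2 * (1 - (A + C) / 2) := mul_le_mul_of_nonneg_left c7 (sq_nonneg M)
    _ = _ := by ring

theorem cN_bd {a : ℤ} (h : a ≤ 0) : 1 ≤ cN a ∧ cN a < 2 := by
  have h1 : (2 : ℝ) ^ a ≤ 1 := zpow_le_one_of_nonpos₀ one_le_two h
  have h2 : (0 : ℝ) < 2 ^ a := by positivity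
  unfold cN
  exact ⟨by linarith only [h1], by linarith only [h2]⟩

theorem cR_bd {a : ℤ} (h : a < 0) : cN (a + 1) < cR a ∧ cR a < cN a := by
  have h2 : (0 : ℝ) < 2 ^ a := by positivity
  unfold cN cR
  rw [zpow_add_one₀ two_ne_zero]
  exact ⟨by linarith only [h2], by linarith only [h2]⟩

variable {ι : Type} [Fintype ι] [DecidableEq ι] [Nonempty ι] {Y : Type} [MetricSpace Y]

namespace LE

/-- The unit of volume in round `i`. -/
noncomputable def un (L : LE ι Y) (Cs : ℝ) (i : ℤ) (Q : Bx ι) : ℝ :=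
  (Cs * L.B ^ i) ^ Fintype.card ι * Q.vol
/-- The relative density. -/
noncomputable def xr (L : LE ι Y) (i : ℤ) (Q : Bx ι) : ℝ :=
  Q.den L.ν / (2 ^ Fintype.card ι * L.th i)
/-- The credit. -/
noncomputable def cr (L : LE ι Y) (Cs β : ℝ) (i : ℤ) (Q : Bx ι) : ℝ :=
  L.un Cs i Q * (1 + β * L.xr i Q ^ sL (Fintype.card ι))

variable {L : LE ι Y}

theorem OK.Bpos (h : L.OK) : 0 < L.B := by linarith only [h.pB]

theorem OK.Bmono (h : L.OK) {i j : ℤ} (hij : i ≤ j) : L.B ^ i ≤ L.B ^ j :=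
  zpow_le_zpow_right₀ (by linarith only [h.pB]) hij

theorem OK.den_le (h : L.OK) {Q G : Bx ι} (hQ : Q.Pos) (hG : G.Pos) (hs : Q.set ⊆ G.set) {c : ℝ}
    (hc : G.vol ≤ c * Q.vol) : Q.den L.ν ≤ c * G.den L.ν := by
  have p1 := hQ.vol_pos
  have p2 := hG.vol_pos
  have m := Bx.meas_mono hs h.le
  unfold Bx.den
  rw [← mul_div_assoc, div_le_div_iff₀ p1 p2]
  calc _ ≤ (L.ν G.set).toReal * (c * Q.vol) :=
        mul_le_mul m hc p2.le ENNReal.toReal_nonneg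
    _ = _ := by ring

theorem OK.th_pos (h : L.OK) (i : ℤ) : 0 < L.th i := by
  have := h.Bpos
  have := h.pρ
  unfold th
  positivity

theorem OK.tm_bd (h : L.OK) (i : ℤ) : L.B ^ i ≤ L.tm i ∧ L.tm i ≤ 2 * L.B ^ i ∧
    L.tm i < L.B ^ i * L.u' ∧ L.B ^ i * L.u' ≤ L.B ^ (i + 1) := by
  have p : 0 < L.B ^ i := zpow_pos h.Bpos i
  unfold tm
  rw [zpow_add_one₀ h.Bpos.ne']
  refine ⟨le_mul_of_one_le_right p.le h.pu, ?_, mul_lt_mul_of_pos_left h.uu p,
    mul_le_mul_of_nonneg_left (by linarith only [h.u2, h.pB]) p.le⟩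
  rw [mul_comm 2]
  exact mul_le_mul_of_nonneg_left (by linarith only [h.u2, h.uu]) p.le

theorem OK.top_bd (h : L.OK) {k : ℤ} {G : Bx ι} (hk : L.ok k) (hG : Cube k G) :
    L.a G ≤ L.top G ∧ L.top G ≤ L.T ∧ L.top G ≤ L.T + L.a G := by
  have := h.a0 k G hk hG
  have := h.pT
  unfold top
  split_ifs <;> omega

theorem OK.th_succ (h : L.OK) (i : ℤ) :
    L.th (i + 1) = L.th i * (L.B ^ Fintype.card ι * √L.B) := by
  have := h.Bpos
  unfold th
  rw [zpow_add_one₀ (by positivity), mul_assoc]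

/-- The exponent grows by at most one from a cube to a child. -/
theorem OK.a_child (h : L.OK) {k : ℤ} {G G' : Bx ι} (hk : L.ok k) (hG : Cube k G)
    (hG' : Cube (k - 1) G') (hs : G'.set ⊆ G.set) : L.a G' ≤ L.a G + 1 := by
  have hk' := h.bd.okm k hk
  rcases le_or_gt 0 (L.a G + 1) with k0 | k0
  · exact (h.a0 _ G' hk' hG').trans k0
  refine (h.ath _ G' hk' hG' _ k0).2 ?_
  have h1 := (h.ath k G hk hG (L.a G) (by omega)).1 le_rfl
  have h2 := h.den_le hG'.lb.pos hG.lb.pos hs (c := 2 ^ Fintype.card ι) (by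
    rw [hG.vol, hG'.vol, ← mul_pow, zpow_sub_one₀ two_ne_zero]
    apply le_of_eq
    congr 1
    ring)
  have h3 : (2 : ℝ) ^ Fintype.card ι ≤ L.B ^ Fintype.card ι * √L.B :=
    (pow_le_pow_left₀ zero_le_two (by linarith only [h.pB]) _).trans (le_mul_of_one_le_right
      (pow_pos h.Bpos _).le (Real.one_le_sqrt.2 (by linarith only [h.pB])))
  rw [h.th_succ, mul_comm]
  exact h2.trans (mul_le_mul h3 h1 (hG.lb.pos.den_le_one h.le).1 (le_trans (by positivity) h3))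

theorem OK.anc_cube (h : L.OK) {i k : ℤ} {Q G : Bx ι} (ha : L.Anc i k Q) (hG : Cube k G)
    (hs : G.set ⊆ Q.set) : L.a G ≤ i + 1 := by
  obtain ⟨k', G0, o, c, l, s, a⟩ := ha
  obtain ⟨h1, h2⟩ := hG.le_of_subset c (hs.trans s)
  rcases h1.eq_or_lt with e | e
  · rw [h2 e]
    omega
  · have := h.a_child o c (G' := G) (by rwa [show k' - 1 = k by omega]) (hs.trans s)
    omega

theorem OK.anc_lo (h : L.OK) {i k : ℤ} {Q : Bx ι} (hk : L.ok k) (ha : L.Anc i k Q) {t : ℝ}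
    (ht : L.B ^ i ≤ t) : ∀ G, Cube k G → G.set ⊆ Q.set → L.lo k G ≤ t := fun G hG hs =>
  ((h.hlo k G hk hG).trans (h.Bmono (by linarith only [h.anc_cube ha hG hs, hs]))).trans ht

theorem OK.anc_self (h : L.OK) {k : ℤ} {G : Bx ι} (hk : L.ok k) (hG : Cube k G) {i : ℤ}
    (hi : L.a G ≤ i) : L.Anc i k G ∧ L.Anc i (k - 1) G :=
  ⟨⟨k, G, hk, hG, by omega, subset_rfl, hi⟩, k, G, hk, hG, by omega, subset_rfl, hi⟩

theorem Anc.mono {i k : ℤ} {Q Q' : Bx ι} (ha : L.Anc i k Q) (hs : Q'.set ⊆ Q.set) :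
    L.Anc i k Q' := by
  obtain ⟨k', G0, o, c, l, s, a⟩ := ha
  exact ⟨k', G0, o, c, l, hs.trans s, a⟩

/-- The data for the halves of a box which is not stopped. -/
theorem OK.anc_half (h : L.OK) {i k : ℤ} {Q : Bx ι} (hi : i < 0) (hk : L.ok k) (hQ : BX k Q)
    (ha : L.Anc i k Q) (hn : Cube k Q → L.a Q ≤ i) :
    L.ok (nk k Q) ∧ LB (nk k Q) Q ∧ L.Anc i (nk k Q) Q ∧
      ∀ t, L.B ^ i ≤ t → ∀ x ∈ Q.bd, Ap L.U (L.P k (t, x)) (L.P (nk k Q) (t, x)) := by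
  rcases nk_le k Q with e | ⟨e, c⟩ <;> rw [e]
  · exact ⟨hk, hQ.lb, ha, fun _ _ _ _ _ => rfl⟩
  · exact ⟨h.bd.okm k hk, hQ.lb.down (by omega), (h.anc_self hk c (hn c)).2, fun t ht =>
      h.bd.split k Q t hk c
        (((h.hsp k Q hk c ((hn c).trans_lt hi)).trans (h.Bmono (hn c))).trans ht)⟩

/-- A deep point bounds the level from below. -/
theorem OK.anc_deep (h : L.OK) {i k : ℤ} {Q : Bx ι} (hi : i < 0) (ha : L.Anc i k Q) {y : Y}
    (hy : y ∈ L.e '' Q.set) : infDist y L.Uᶜ ≤ 2 * 2 ^ k := by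
  obtain ⟨k', G0, o, c, l, s, a⟩ := ha
  obtain ⟨x, hx, rfl⟩ := hy
  have n : ¬ L.e '' G0.set ⊆ L.U := fun k => by
    have := h.aU k' G0 o c k
    omega
  obtain ⟨_, ⟨x', hx', rfl⟩, hU⟩ := not_subset.1 n
  refine (infDist_le_dist_of_mem (show L.e x' ∈ L.Uᶜ from hU)).trans ?_
  rw [h.he.dist_eq]
  refine (Bx.dist_le (S := 2 ^ k') (by positivity) (fun j => ?_) (s hx) hx').trans ?_
  · rw [Bx.sd, (c j).2, add_sub_cancel_left]
  · rw [mul_comm, ← zpow_add_one₀ two_ne_zero]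
    exact zpow_le_zpow_right₀ one_le_two l

/-- Small cubes around a point of `U` have exponent zero. -/
theorem OK.a_small (h : L.OK) {x : E ι} (hx : L.e x ∈ L.U) :
    ∃ k0 : ℤ, ∀ k G, k ≤ k0 → L.ok k → Cube k G → x ∈ G.set → L.a G = 0 := by
  obtain ⟨r, hr, hb⟩ := Metric.isOpen_iff.1 (h.hU.preimage h.he.continuous) x hx
  obtain ⟨n, hn⟩ := exists_pow_lt_of_lt_one hr (show (2 : ℝ)⁻¹ < 1 by norm_num)
  refine ⟨-n, fun k G hk o c hG => h.aU k G o c ?_⟩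
  rintro _ ⟨x', hx', rfl⟩
  refine hb (lt_of_le_of_lt (Bx.dist_le (S := 2 ^ k) (by positivity) (fun j => ?_) hx' hG) ?_)
  · rw [Bx.sd, (c j).2, add_sub_cancel_left]
  · refine (zpow_le_zpow_right₀ one_le_two hk).trans_lt ?_
    rwa [zpow_neg, zpow_natCast, ← inv_pow]

theorem OK.un_pos (h : L.OK) {Cs : ℝ} (hC : 0 < Cs) (i : ℤ) {Q : Bx ι} (hQ : Q.Pos) :
    0 < L.un Cs i Q :=
  mul_pos (pow_pos (mul_pos hC (zpow_pos h.Bpos i)) _) hQ.vol_pos

theorem OK.un_bd (h : L.OK) {Cs : ℝ} (hC : 0 < Cs) (i : ℤ) {k : ℤ} {Q : Bx ι} (hQ : BX k Q) :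
    (Cs * L.B ^ i * 2 ^ k) ^ Fintype.card ι ≤ L.un Cs i Q ∧
      L.un Cs i Q ≤ (2 * Cs * L.B ^ i * 2 ^ k) ^ Fintype.card ι := by
  have p : 0 ≤ (Cs * L.B ^ i) ^ Fintype.card ι := (pow_pos (mul_pos hC (zpow_pos h.Bpos i)) _).le
  have e : 2 * Cs * L.B ^ i * 2 ^ k = Cs * L.B ^ i * (2 * 2 ^ k) := by ring
  rw [e, mul_pow _ (2 ^ k), mul_pow _ (2 * 2 ^ k)]
  exact ⟨mul_le_mul_of_nonneg_left hQ.vol_bd.1 p, mul_le_mul_of_nonneg_left hQ.vol_bd.2 p⟩

theorem un_half (L : LE ι Y) (Cs : ℝ) (i : ℤ) (Q : Bx ι) (j : ι) :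
    L.un Cs i (Q.L j) = L.un Cs i Q / 2 ∧ L.un Cs i (Q.R j) = L.un Cs i Q / 2 := by
  unfold un
  rw [Bx.vol_L, Bx.vol_R, mul_div_assoc]
  exact ⟨rfl, rfl⟩

theorem OK.xr_nonneg (h : L.OK) (i : ℤ) {Q : Bx ι} (hQ : Q.Pos) : 0 ≤ L.xr i Q :=
  div_nonneg (hQ.den_le_one h.le).1 (mul_pos (by positivity) (h.th_pos i)).le

theorem OK.un_le_cr (h : L.OK) {Cs β : ℝ} (hC : 0 < Cs) (hβ : 0 ≤ β) (i : ℤ) {Q : Bx ι}
    (hQ : Q.Pos) : L.un Cs i Q ≤ L.cr Cs β i Q :=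
  le_mul_of_one_le_right (h.un_pos hC i hQ).le
    (le_add_of_nonneg_right (mul_nonneg hβ (Real.rpow_nonneg (h.xr_nonneg i hQ) _)))

theorem OK.cr_le (h : L.OK) {Cs β : ℝ} (hC : 0 < Cs) (hβ : 0 ≤ β) {i k : ℤ} (hi : i < 0)
    {Q : Bx ι} (hQ : BX k Q) (ha : L.Anc i k Q) : L.cr Cs β i Q ≤ (1 + β) * L.un Cs i Q := by
  obtain ⟨k', G0, o, c, l, s, a⟩ := ha
  have h1 := (h.ath k' G0 o c i hi).1 a
  have h2 := h.den_le hQ.lb.pos c.lb.pos s (c := 2 ^ Fintype.card ι) (by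
    refine le_trans ?_ (mul_le_mul_of_nonneg_left hQ.vol_bd.1 (by positivity))
    rw [c.vol, ← mul_pow, mul_comm, ← zpow_add_one₀ two_ne_zero]
    exact pow_le_pow_left₀ (by positivity) (zpow_le_zpow_right₀ one_le_two l) _)
  have h3 : L.xr i Q ≤ 1 := (div_le_one (mul_pos (by positivity) (h.th_pos i))).2
    (h2.trans (mul_le_mul_of_nonneg_left h1 (by positivity)))
  have h4 := Real.rpow_le_one (h.xr_nonneg i hQ.lb.pos) h3 (sL_bd (Fintype.card ι)).1.le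
  rw [mul_comm]
  exact mul_le_mul_of_nonneg_left (add_le_add_right (mul_le_of_le_one_right hβ h4) _)
    (h.un_pos hC i hQ.lb.pos).le

theorem OK.cr_half (h : L.OK) {Cs β : ℝ} (hC : 0 < Cs) (hβ : 0 ≤ β) (i : ℤ) {Q : Bx ι}
    (hQ : Q.Pos) (j : ι) :
    L.cr Cs β i (Q.L j) + L.cr Cs β i (Q.R j) ≤ L.cr Cs β i Q ∧
    sL (Fintype.card ι) * (1 - sL (Fintype.card ι)) / 2
        * (L.cr Cs β i (Q.L j) - L.cr Cs β i (Q.R j)) ^ 2 ≤
      L.cr Cs β i Q * (L.cr Cs β i Q - L.cr Cs β i (Q.L j) - L.cr Cs β i (Q.R j)) ∧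
    L.cr Cs β i (Q.L j) ≤
      L.un Cs i Q / 2 + (1 - 2 * fL (Fintype.card ι)) * (L.cr Cs β i Q - L.un Cs i Q) ∧
    L.cr Cs β i (Q.R j) ≤
      L.un Cs i Q / 2 + (1 - 2 * fL (Fintype.card ι)) * (L.cr Cs β i Q - L.un Cs i Q) := by
  have p1 := h.xr_nonneg i (hQ.L j)
  have p2 := h.xr_nonneg i (hQ.R j)
  have pv := hQ.vol_pos
  have pt := h.th_pos i
  have e : L.xr i Q = (L.xr i (Q.L j) + L.xr i (Q.R j)) / 2 := by
    unfold xr Bx.den
    rw [Bx.vol_L, Bx.vol_R, hQ.meas_half j h.le]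
    field_simp
  obtain ⟨s0, s1⟩ := sL_bd (Fintype.card ι)
  obtain ⟨g1, g2⟩ := conc_gain s0 s1 p1 p2
  have pu := h.un_pos hC i hQ
  have ef : 1 - 2 * fL (Fintype.card ι) = 2 ^ sL (Fintype.card ι) / 2 := by
    unfold fL
    rw [Real.rpow_sub_one two_ne_zero]
    ring
  have b : ∀ x y : ℝ, 0 ≤ x → 0 ≤ y → x ^ sL (Fintype.card ι) ≤
      2 ^ sL (Fintype.card ι) * ((x + y) / 2) ^ sL (Fintype.card ι) := fun x y hx hy => by
    rw [← Real.mul_rpow zero_le_two (by positivity)]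
    exact Real.rpow_le_rpow hx (by linarith only [hy]) s0.le
  have b1 := b _ _ p1 p2
  have b2 := b _ _ p2 p1
  rw [add_comm] at b2
  unfold cr
  rw [(L.un_half Cs i Q j).1, (L.un_half Cs i Q j).2, ef, e]
  have q : 0 ≤ ((L.xr i (Q.L j) + L.xr i (Q.R j)) / 2) ^ sL (Fintype.card ι) :=
    Real.rpow_nonneg (by positivity) _
  generalize ((L.xr i (Q.L j) + L.xr i (Q.R j)) / 2) ^ sL (Fintype.card ι) = M at *
  generalize L.xr i (Q.L j) ^ sL (Fintype.card ι) = A at *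
  generalize L.xr i (Q.R j) ^ sL (Fintype.card ι) = C at *
  generalize (2 : ℝ) ^ sL (Fintype.card ι) = w at *
  generalize sL (Fintype.card ι) = s at *
  generalize L.un Cs i Q = u at *
  have pb : 0 ≤ u * β := mul_nonneg pu.le hβ
  refine ⟨by linarith only [mul_le_mul_of_nonneg_left g1 pb, g1, pb], ?_,
    by linarith only [mul_le_mul_of_nonneg_left b1 pb, b1, pb], by linarith only [mul_le_mul_of_nonneg_left b2 pb, b2, pb]⟩
  have k1 := mul_le_mul_of_nonneg_left g2 (sq_nonneg (u * β))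
  have k2 := mul_nonneg pu.le (mul_nonneg pb (sub_nonneg.2 g1))
  linarith only [k1, k2]

/-- At a stopping cube the credit pays for the next round. -/
theorem OK.cr_stop (h : L.OK) {Cs Λ : ℝ} (hC : 0 < Cs) (hΛ : 1 ≤ Λ)
    (hB : (2 ^ (Fintype.card ι + 1) * Λ) ^ 4 ≤ L.B) {i k : ℤ} {G : Bx ι} (hk : L.ok k)
    (hG : Cube k G) (ha : L.Anc i k G) (he : L.a G = i + 1) (hi : i + 1 < 0) :
    Λ * L.cr Cs (2 ^ (Fintype.card ι + 1) * Λ * L.B ^ Fintype.card ι) (i + 1) G ≤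
      L.cr Cs (2 ^ (Fintype.card ι + 1) * Λ * L.B ^ Fintype.card ι) i G := by
  have pB := h.Bpos
  have pt := h.th_pos i
  have pu := h.un_pos hC i hG.lb.pos
  obtain ⟨s0, s1⟩ := sL_bd (Fintype.card ι)
  have h1 : L.th i < G.den L.ν :=
    not_le.1 fun l => absurd ((h.ath k G hk hG i (by omega)).2 l) (by omega)
  have h2 : ((2 : ℝ) ^ Fintype.card ι)⁻¹ ≤ L.xr i G := by
    unfold xr
    rw [le_div_iff₀ (by positivity), inv_mul_cancel_left₀ (by positivity)]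
    exact h1.le
  have h3 : ((2 : ℝ) ^ Fintype.card ι)⁻¹ ≤ L.xr i G ^ sL (Fintype.card ι) :=
    (Real.self_le_rpow_of_le_one (by positivity)
      (inv_le_one_of_one_le₀ (one_le_pow₀ one_le_two)) s1.le).trans
      (Real.rpow_le_rpow (by positivity) h2 s0.le)
  have e1 : L.un Cs (i + 1) G = L.B ^ Fintype.card ι * L.un Cs i G := by
    unfold un
    rw [zpow_add_one₀ pB.ne', ← mul_assoc Cs, mul_pow]
    ring
  have e2 : L.xr (i + 1) G = L.xr i G / (L.B ^ Fintype.card ι * √L.B) := by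
    unfold xr
    rw [h.th_succ, div_div, mul_assoc]
  have e3 : (L.B ^ Fintype.card ι * √L.B) ^ sL (Fintype.card ι)
      = L.B ^ Fintype.card ι * L.B ^ ((4 : ℕ) : ℝ)⁻¹ := by
    rw [Real.sqrt_eq_rpow, ← Real.rpow_natCast, ← Real.rpow_add pB, ← Real.rpow_add pB,
      ← Real.rpow_mul pB.le]
    congr 1
    unfold sL
    push_cast
    field_simp
    ring
  have h4 : 2 ^ (Fintype.card ι + 1) * Λ ≤ L.B ^ ((4 : ℕ) : ℝ)⁻¹ := by
    rw [← Real.pow_rpow_inv_natCast (x := 2 ^ (Fintype.card ι + 1) * Λ) (by positivity)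
      (show 4 ≠ 0 by norm_num)]
    exact Real.rpow_le_rpow (by positivity) hB (by positivity)
  have h5 : 2 * Λ ≤ L.B ^ ((4 : ℕ) : ℝ)⁻¹ := le_trans (by
    gcongr
    exact le_self_pow₀ one_le_two (by omega)) h4
  unfold cr
  rw [e1, e2, Real.div_rpow (h.xr_nonneg i hG.lb.pos) (by positivity), e3, pow_succ]
  have pd : 0 < L.B ^ Fintype.card ι := by positivity
  have p2 : (0 : ℝ) < 2 ^ Fintype.card ι := by positivity
  rw [inv_le_iff_one_le_mul₀ p2] at h3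
  have px : 0 ≤ L.xr i G ^ sL (Fintype.card ι) := Real.rpow_nonneg (h.xr_nonneg i hG.lb.pos) _
  generalize L.xr i G ^ sL (Fintype.card ι) = x at *
  generalize L.B ^ ((4 : ℕ) : ℝ)⁻¹ = r at *
  generalize L.B ^ Fintype.card ι = D at *
  generalize (2 : ℝ) ^ Fintype.card ι = w at *
  generalize L.un Cs i G = u at *
  have pr : 0 < r := by linarith only [hΛ, s0, s1, h5]
  have k1 : Λ * D * (x / (D * r)) ≤ x / 2 := by
    rw [show Λ * D * (x / (D * r)) = x * Λ / r by field_simp, div_le_div_iff₀ pr two_pos]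
    linarith only [mul_le_mul_of_nonneg_left h5 px, h5, px]
  have pL : 0 < Λ * D := mul_pos (by linarith only [hΛ, s0, s1]) pd
  have k2 := mul_le_mul_of_nonneg_left k1 (show 0 ≤ w * 2 * Λ * D by positivity)
  have k3 := mul_le_mul_of_nonneg_left h3 pL.le
  have k4 : Λ * D * (1 + w * 2 * Λ * D * (x / (D * r))) ≤ 1 + w * 2 * Λ * D * x := by linarith only [s0, s1, k2, k3]
  linarith only [mul_le_mul_of_nonneg_left k4 pu.le, k4, pu]

end LE

end Pool.Agent.Lib.MP_ecd4e3_gt.N
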