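import Pool.Agent.Lib.MP_ecd4e3_gt.N.LNum
import Pool.Agent.Lib.MP_ecd4e3_gt.N.LOpA
import Pool.Agent.Lib.MP_ecd4e3_gt.N.LOpB
import Pool.Agent.Lib.MP_ecd4e3_gt.N.FStep

/-! The states of the static tree. -/

namespace Pool.Agent.Lib.MP_ecd4e3_gt.N

open Set Filter Topology Metric MeasureTheory
open scoped NNReal ENNReal

variable {ι : Type} [Fintype ι] [DecidableEq ι] [Nonempty ι] {Y : Type} [MetricSpace Y]

namespace LStep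

theorem root_pow {x : ℝ} (hx : 0 ≤ x) :
    (x ^ ((Fintype.card ι : ℝ)⁻¹)) ^ Fintype.card ι = x :=
  Real.rpow_inv_natCast_pow hx Fintype.card_ne_zero

theorem pow_big {x z V : ℝ} (hz : 0 < z) (hV : 1 ≤ V) (h : x ≤ V * (2 * z) ^ Fintype.card ι) :
    x ≤ (2 * V * z) ^ Fintype.card ι := by
  rw [mul_comm 2 V, mul_assoc, mul_pow]
  exact h.trans (mul_le_mul_of_nonneg_right (le_self_pow₀ hV Fintype.card_ne_zero) (by positivity))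

theorem sizes {f : ℝ} (hf : 0 < f) (hf' : f ≤ 1 / 16) {R : GB ι} (h : R.Valid f) {un z V : ℝ}
    (hz : 0 < z) (hV : 1 ≤ V) (u1 : z ^ Fintype.card ι ≤ un) (u2 : un ≤ (2 * z) ^ Fintype.card ι)
    (h1 : un ≤ R.vol) (h2 : R.vol ≤ V * un) :
    z ≤ 2 * Mx f * R.wmin ∧ R.wmax ≤ 4 * Mx f * V * z :=
  ⟨(h.size hf hf' hz.le).1 (u1.trans h1), ((h.size hf hf' (by positivity)).2
    (pow_big hz hV (h2.trans (mul_le_mul_of_nonneg_left u2 (by linarith only [hf, hf', hV]))))).trans_eq (by ring)⟩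

theorem shrink {f : ℝ} (hf : 0 < f) (hf' : f ≤ 1 / 16) {R : GB ι} (h : R.Valid f)
    {un z V W κ : ℝ} (hz : 0 < z) (hV : 1 ≤ V) (hκ : 0 < κ) (u1 : z ^ Fintype.card ι ≤ un)
    (h1 : un ≤ W) (h2 : W + κ * un ≤ R.vol) (h3 : R.vol ≤ V * un) :
    ∃ s, 0 < s ∧ s < 1 ∧ s ^ Fintype.card ι * R.vol = W ∧ 1 ≤ V * s ∧
      κ * z ≤ 2 * Fintype.card ι * V * Mx f * ((1 - s) * s * R.wmin) := by
  have u0 : 0 < un := (pow_pos hz _).trans_le u1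
  have v0 := h.vol_pos hf hf'
  have w0 : 0 < W / R.vol := div_pos (u0.trans_le h1) v0
  have e := root_pow (ι := ι) w0.le
  have s0 := Real.rpow_pos_of_pos w0 (Fintype.card ι : ℝ)⁻¹
  generalize (W / R.vol) ^ (Fintype.card ι : ℝ)⁻¹ = s at e s0
  have e' : s ^ Fintype.card ι * R.vol = W := by rw [e, div_mul_cancel₀ _ v0.ne']
  have s1 : s < 1 := (pow_lt_one_iff_of_nonneg s0.le Fintype.card_ne_zero).1 (by
    rw [e, div_lt_one v0]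
    linarith only [mul_pos hκ u0, h2, hκ, u0])
  have a : s ^ Fintype.card ι ≤ s := pow_le_of_le_one s0.le s1.le Fintype.card_ne_zero
  have b := one_add_mul_le_pow (a := s - 1) (by linarith only [hf, hf', s0]) (Fintype.card ι)
  rw [add_sub_cancel] at b
  have n : (0 : ℝ) ≤ Fintype.card ι * (1 - s) := mul_nonneg (by positivity) (by linarith only [s1])
  have c : κ ≤ V * (Fintype.card ι * (1 - s)) := by
    refine le_of_mul_le_mul_right ?_ u0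
    nlinarith only [mul_le_mul_of_nonneg_right b v0.le, mul_le_mul_of_nonneg_right h3 n, h2, e', b, v0, h3, n]
  have d := ((h.map s0 0).size hf hf' hz.le).1 (by rw [GB.map_vol R s0, e']; exact u1.trans h1)
  rw [(GB.map_wmin R s0 0).1] at d
  refine ⟨s, s0, s1, e', le_of_mul_le_mul_right ?_ u0, (mul_le_mul c d hz.le (hκ.le.trans c)).trans_eq
    (by ring)⟩
  nlinarith only [mul_le_mul_of_nonneg_right a v0.le, mul_le_mul_of_nonneg_left h3 s0.le, h1, e', a, v0, h3, s0]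

theorem split {f n1 n2 W M : ℝ} (hf : 0 < f) (hf' : f ≤ 1 / 16) (p1 : 0 ≤ n1) (p2 : 0 ≤ n2)
    (h : n1 + n2 ≤ W) (h1 : n1 ≤ (1 - f) * W) (h2 : n2 ≤ (1 - f) * W) (hM : n1 + n2 ≤ M) :
    ∃ a1 a2, n1 ≤ a1 ∧ n2 ≤ a2 ∧ f * (a1 + a2) ≤ a1 ∧ f * (a1 + a2) ≤ a2 ∧ a1 + a2 ≤ W ∧
      a1 + a2 ≤ 2 * M := by
  have f1 : 0 < 1 - f := by linarith only [hf, hf']
  obtain ⟨V, v1, v2, v3, v4, v5⟩ : ∃ V, n1 + n2 ≤ V ∧ n1 ≤ (1 - f) * V ∧ n2 ≤ (1 - f) * V ∧ V ≤ W ∧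
      V ≤ 2 * M := by
    have a := le_max_right (n1 + n2) (max n1 n2 / (1 - f))
    rw [div_le_iff₀' f1] at a
    refine ⟨_, le_max_left _ _, (le_max_left _ _).trans a, (le_max_right _ _).trans a,
      max_le h ((div_le_iff₀' f1).2 (max_le h1 h2)),
      max_le (by linarith only [p1, p2, hM]) ((div_le_iff₀' f1).2 (max_le ?_ ?_))⟩ <;> nlinarith only [p1, p2, hM, hf']
  refine ⟨max n1 (f * V), V - max n1 (f * V), le_max_left _ _, ?_, ?_, ?_, ?_, ?_⟩ <;>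
    rcases max_cases n1 (f * V) with a | a <;> rw [a.1] <;> nlinarith only [a.2, v1, v3, a, v2, p1, p2, hf, hf', v4, v5]

/-- The constants. -/
structure SC where
  fc : FC
  f : ℝ
  g : ℝ
  η : ℝ
  k1 : ℝ
  k2 : ℝ
  Λ : ℝ
  β : ℝ
  V : ℝ
  Cs : ℝ
  C : ℝ

/-- The relations between the constants. -/
structure SH (L : LE ι Y) (p : SC) : Prop where
  ok : L.OK
  ef : p.f = fL (Fintype.card ι)
  eg : p.g = sL (Fintype.card ι) * (1 - sL (Fintype.card ι)) / 2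
  eΛ : p.Λ = 2 * (128 * Mx p.f) ^ Fintype.card ι
  eβ : p.β = 2 ^ (Fintype.card ι + 1) * p.Λ * L.B ^ Fintype.card ι
  eV : p.V = 4 * (2 + p.β)
  ek : p.k1 = p.k2 * drp ι p.f
  good : p.fc.Good (ι := ι) p.f
  η0 : 0 < p.η
  η1 : p.η ≤ p.fc.η0
  η2 : p.η * p.fc.Cq ≤ p.g / 2
  k0 : 0 < p.k2
  ka : 2 * p.k1 + p.k2 * (8 * Fintype.card ι) ≤ p.η * p.fc.P1 / 8
  kb : 2 * p.k1 + p.k2 * (8 * Fintype.card ι) ≤ p.g * p.fc.d1 ^ 2 / 4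
  kc : 2 * p.k1 + p.k2 * (8 * Fintype.card ι) ≤ 1 / 8
  hB : (2 ^ (Fintype.card ι + 1) * p.Λ) ^ 4 ≤ L.B
  C0 : 0 < p.Cs
  C1 : 8 * 10 ^ 5 * L.K * Fintype.card ι * p.V * Mx p.f ≤ p.f * p.k1 * p.Cs
  C2 : 800 * L.K * Mx p.f * L.B ^ (L.T + 1) ≤ p.Cs
  C3 : 4 * 10 ^ 9 * Mx p.f * p.V ^ 2 * p.Cs ≤ p.f * p.C

/-- The side of a root. -/
noncomputable def rs (L : LE ι Y) (p : SC) (_ : ℤ) (G : Bx ι) : ℝ :=
  (2 * L.cr p.Cs p.β (L.a G) G) ^ ((Fintype.card ι : ℝ)⁻¹)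

/-- The root. -/
noncomputable def rt (L : LE ι Y) (p : SC) (k : ℤ) (G : Bx ι) : LS ι :=
  ⟨L.a G, k, G, (cubeC 0 (rs L p k G)).gb, cR (L.a G), 1, ⟨0, 0, 0, 0, 0⟩⟩

/-- Common part of the invariant. -/
structure Bs (L : LE ι Y) (f : ℝ) (σ : LS ι) : Prop where
  i0 : σ.i < 0
  ok : L.ok σ.k
  bx : BX σ.k σ.Q
  anc : L.Anc σ.i σ.k σ.Q
  val : σ.R.Valid f
  c2 : σ.c ≤ 2

/-- The cutting mode. -/
def I1 (L : LE ι Y) (p : SC) (σ : LS ι) : Prop :=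
  σ.ty = 1 ∧ cN (σ.i + 1) < σ.c ∧
    L.cr p.Cs p.β σ.i σ.Q + (p.k1 + p.k2 * σ.R.phi p.f) * L.un p.Cs σ.i σ.Q ≤ σ.R.vol ∧
    σ.R.vol ≤ p.V * L.un p.Cs σ.i σ.Q

/-- The martingale mode. -/
def I0 (L : LE ι Y) (p : SC) (σ : LS ι) : Prop :=
  σ.ty = 0 ∧ cN (σ.i + 1) < σ.c ∧ FSt p.fc p.f σ.Q σ.F ∧ FRel p.f σ.Q σ.F σ.R ∧
    L.cr p.Cs p.β σ.i σ.Q + p.η * σ.F.a0 σ.Q * pot p.fc σ.Q σ.F ≤ σ.R.vol ∧
    σ.F.a0 σ.Q ≤ p.V * L.un p.Cs σ.i σ.Q / 2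

/-- A stopped state. -/
def I2 (L : LE ι Y) (p : SC) (σ : LS ι) : Prop :=
  σ.ty = 2 ∧ Cube σ.k σ.Q ∧ L.a σ.Q = σ.i + 1 ∧ σ.c = cN (σ.i + 1) ∧
    ∃ o l, 0 < l ∧ σ.R = (cubeC o l).gb ∧ 100 * L.K * L.tm (L.top σ.Q) * 2 ^ σ.k ≤ l ∧
      (L.a σ.Q < 0 → 32 * rs L p σ.k σ.Q ≤ l)

/-- The states. -/
def VV (L : LE ι Y) (p : SC) : Set (LS ι) := {σ | Bs L p.f σ ∧ (I1 L p σ ∨ I0 L p σ ∨ I2 L p σ)}

/-- What is known in both active modes. -/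
structure Ac (L : LE ι Y) (p : SC) (σ : LS ι) : Prop extends Bs L p.f σ where
  cn : cN (σ.i + 1) < σ.c
  lo : L.cr p.Cs p.β σ.i σ.Q ≤ σ.R.vol
  hi : σ.R.vol ≤ p.V * L.un p.Cs σ.i σ.Q

variable {L : LE ι Y} {p : SC} {σ : LS ι}

namespace SH

theorem f0 (H : SH L p) : 0 < p.f := H.ef ▸ (fL_bd Fintype.card_pos).1
theorem f1 (H : SH L p) : p.f ≤ 1 / 16 := H.ef ▸ (fL_bd Fintype.card_pos).2

theorem mx (H : SH L p) : 1 ≤ Mx p.f := by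
  obtain ⟨-, -, -, -, -, c6, c7, -⟩ := consts (ι := ι) H.f0 H.f1
  linarith only [c6, c7]

theorem Λ1 (H : SH L p) : 1 ≤ p.Λ := by
  have : 1 ≤ (128 * Mx p.f) ^ Fintype.card ι := one_le_pow₀ (by linarith only [H.mx])
  linarith only [H.eΛ, this]

theorem B0 (H : SH L p) : 0 < L.B := by linarith only [H.ok.pB]

theorem β0 (H : SH L p) : 0 ≤ p.β := by
  have := H.Λ1
  have := H.B0
  rw [H.eβ]
  positivity

theorem V1 (H : SH L p) : 1 ≤ p.V := by linarith only [H.eV, H.β0]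

theorem κ0 (H : SH L p) : 0 < p.k1 := H.ek ▸ mul_pos H.k0 (consts H.f0 H.f1).2.2.2.1

theorem k8 (H : SH L p) : 0 ≤ p.k2 * (8 * Fintype.card ι) := mul_nonneg H.k0.le (by positivity)

theorem g0 (H : SH L p) : 0 < p.g := by
  have := sL_bd (Fintype.card ι)
  rw [H.eg]
  exact half_pos (mul_pos this.1 (sub_pos.2 this.2))

theorem w0 (H : SH L p) (i k : ℤ) : 0 < L.B ^ i * 2 ^ k := by
  have := H.B0
  positivity

theorem ub (H : SH L p) (i : ℤ) {k : ℤ} {Q : Bx ι} (hQ : BX k Q) :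
    (p.Cs * (L.B ^ i * 2 ^ k)) ^ Fintype.card ι ≤ L.un p.Cs i Q ∧
      L.un p.Cs i Q ≤ (2 * (p.Cs * (L.B ^ i * 2 ^ k))) ^ Fintype.card ι := by
  simpa only [mul_assoc] using H.ok.un_bd H.C0 i hQ

theorem ac1 (H : SH L p) (b : Bs L p.f σ) (h : I1 L p σ) : Ac L p σ :=
  ⟨b, h.2.1, le_trans (le_add_of_nonneg_right (mul_nonneg
    (add_nonneg H.κ0.le (mul_nonneg H.k0.le (b.val.phi_bd H.f0 H.f1).1))
    (H.ok.un_pos H.C0 _ b.bx.two.1).le)) h.2.2.1, h.2.2.2⟩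

theorem a0 (H : SH L p) (b : Bs L p.f σ) (h : I0 L p σ) :
    0 < σ.F.a0 σ.Q ∧ σ.R.vol ≤ 2 * σ.F.a0 σ.Q := by
  have := (H.good.vol _ _ h.2.2.1).2
  rw [← h.2.2.2.1.vol] at this
  exact ⟨by linarith only [b.val.vol_pos H.f0 H.f1, this], this⟩

theorem ac0 (H : SH L p) (b : Bs L p.f σ) (h : I0 L p σ) : Ac L p σ :=
  ⟨b, h.2.1, le_trans (le_add_of_nonneg_right (mul_nonneg (mul_pos H.η0 (H.a0 b h).1).le
    (H.good.nonneg _ _ h.2.2.1))) h.2.2.2.2.1, by linarith only [(H.a0 b h).2, h.2.2.2.2.2]⟩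

theorem sz (H : SH L p) (a : Ac L p σ) :
    p.Cs * (L.B ^ σ.i * 2 ^ σ.k) ≤ 2 * Mx p.f * σ.R.wmin ∧
      σ.R.wmax ≤ 4 * Mx p.f * p.V * (p.Cs * (L.B ^ σ.i * 2 ^ σ.k)) :=
  sizes H.f0 H.f1 a.val (mul_pos H.C0 (H.w0 _ _)) H.V1 (H.ub _ a.bx).1 (H.ub _ a.bx).2
    ((H.ok.un_le_cr H.C0 H.β0 _ a.bx.two.1).trans a.lo) a.hi

/-- The gauge of the movies. -/
theorem big (H : SH L p) (a : Ac L p σ) {s : ℝ} (s0 : 0 < s) (h : 1 ≤ p.V * s) :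
    10 ^ 9 * σ.R.wmax / (p.f * s) ≤ p.C * L.B ^ σ.i * 2 ^ σ.k := by
  have w := H.w0 σ.i σ.k
  have m : 0 ≤ 4 * Mx p.f * p.V * (p.Cs * (L.B ^ σ.i * 2 ^ σ.k)) :=
    a.val.wmax_pos.le.trans (H.sz a).2
  rw [div_le_iff₀ (mul_pos H.f0 s0)]
  nlinarith only [(H.sz a).2, mul_le_mul_of_nonneg_left h m,
    mul_le_mul_of_nonneg_right H.C3 (mul_pos w s0).le, h, m, w, s0]

/-- The smallness condition of the shells. -/
theorem small (H : SH L p) (σ : LS ι) {X : ℝ}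
    (h : p.k1 * (p.Cs * (L.B ^ σ.i * 2 ^ σ.k)) ≤ 2 * Fintype.card ι * p.V * Mx p.f * X) :
    10 ^ 5 * L.K * L.tm σ.i * (2 * 2 ^ σ.k) ≤ p.f * X := by
  have w := H.w0 σ.i σ.k
  have n : (0 : ℝ) < Fintype.card ι := by exact_mod_cast Fintype.card_pos
  have m : 0 < 2 * Fintype.card ι * p.V * Mx p.f := by
    have := H.V1
    have := H.mx
    positivity
  have K := H.ok.bd.pK
  have t : 10 ^ 5 * L.K * L.tm σ.i * (2 * 2 ^ σ.k) ≤ 10 ^ 5 * L.K * (2 * L.B ^ σ.i) * (2 * 2 ^ σ.k) := by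
    gcongr
    exact (H.ok.tm_bd _).2.1
  refine t.trans (le_of_mul_le_mul_left ?_ m)
  nlinarith only [mul_le_mul_of_nonneg_left h H.f0.le, mul_le_mul_of_nonneg_right H.C1 w.le, h, w]

theorem shr (H : SH L p) (a : Ac L p σ) {W : ℝ} (h1 : L.un p.Cs σ.i σ.Q ≤ W)
    (h2 : W + p.k1 * L.un p.Cs σ.i σ.Q ≤ σ.R.vol) :
    ∃ s, 0 < s ∧ s < 1 ∧ s ^ Fintype.card ι * σ.R.vol = W ∧
      10 ^ 5 * L.K * L.tm σ.i * (2 * 2 ^ σ.k) ≤ p.f * (1 - s) * s * σ.R.wmin ∧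
      10 ^ 9 * σ.R.wmax / (p.f * s) ≤ p.C * L.B ^ σ.i * 2 ^ σ.k := by
  obtain ⟨s, s0, s1, e, b, c⟩ := shrink H.f0 H.f1 a.val (mul_pos H.C0 (H.w0 _ _)) H.V1 H.κ0
    (H.ub _ a.bx).1 h1 h2 a.hi
  exact ⟨s, s0, s1, e, (H.small σ c).trans_eq (by ring), H.big a s0 b⟩

theorem rs_pow (H : SH L p) (k : ℤ) {G : Bx ι} (hG : G.Pos) :
    0 < rs L p k G ∧ rs L p k G ^ Fintype.card ι = 2 * L.cr p.Cs p.β (L.a G) G := by
  have : 0 < 2 * L.cr p.Cs p.β (L.a G) G := by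
    linarith only [H.ok.un_pos H.C0 (L.a G) hG, H.ok.un_le_cr H.C0 H.β0 (L.a G) hG]
  exact ⟨Real.rpow_pos_of_pos this _, root_pow this.le⟩

theorem ht (H : SH L p) {i k : ℤ} {Q : Bx ι} (hk : L.ok k) (ha : L.Anc i k Q) :
    ∀ G, Cube k G → G.set ⊆ Q.set → L.lo k G ≤ L.tm i :=
  H.ok.anc_lo hk ha (H.ok.tm_bd i).1

theorem root (H : SH L p) {k : ℤ} {G : Bx ι} (hk : L.ok k) (hG : Cube k G) (ha : L.a G < 0) :
    rt L p k G ∈ VV L p ∧ rs L p k G ≤ p.C * L.B ^ L.a G * 2 ^ k := by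
  have pos := hG.bx.two.1
  obtain ⟨r0, r1⟩ := H.rs_pow k pos
  obtain ⟨-, v1, v2, v3, -⟩ := cubeC_valid H.f0 H.f1 (0 : E ι) r0
  have an := (H.ok.anc_self hk hG le_rfl).1
  have u0 := H.ok.un_pos H.C0 (L.a G) pos
  have u1 := H.ok.un_le_cr H.C0 H.β0 (L.a G) pos
  have u2 : 2 * L.cr p.Cs p.β (L.a G) G ≤ p.V * L.un p.Cs (L.a G) G := by
    rw [H.eV]
    nlinarith only [H.ok.cr_le H.C0 H.β0 ha hG.bx an, mul_nonneg H.β0 u0.le, u0, u1, ha]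
  refine ⟨⟨⟨ha, hk, hG.bx, an, v1, ((cR_bd ha).2.trans (cN_bd ha.le).2).le⟩,
    Or.inl ⟨rfl, (cR_bd ha).1, ?_, ?_⟩⟩, ?_⟩
  · simp only [rt, v2.phi, v3, r1]
    nlinarith only [H.kc, H.k8, u0, u1]
  · simpa only [rt, v3, r1] using u2
  have w := H.w0 (L.a G) k
  have z := mul_pos H.C0 w
  have b := pow_big z H.V1 (r1.le.trans (u2.trans (mul_le_mul_of_nonneg_left (H.ub _ hG.bx).2
    (by linarith only [H.V1]))))
  have V := H.V1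
  refine ((pow_le_pow_iff_left₀ r0.le (by positivity) Fintype.card_ne_zero).1 b).trans ?_
  have c : 2 * p.V * p.Cs ≤ p.C := by
    have m := mul_pos (by linarith only [V] : 0 < p.V) H.C0
    have m2 : p.V * p.Cs ≤ Mx p.f * p.V ^ 2 * p.Cs := by
      nlinarith only [mul_le_mul_of_nonneg_right (one_le_mul_of_one_le_of_one_le H.mx V) m.le, V, m]
    refine le_of_mul_le_mul_left ?_ H.f0
    nlinarith only [H.C3, mul_le_mul_of_nonneg_right H.f1 m.le, m, m2]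
  nlinarith only [mul_le_mul_of_nonneg_right c w.le, c, w]

theorem stop (H : SH L p) (a : Ac L p σ) (hc : Cube σ.k σ.Q) (ha : σ.i < L.a σ.Q) :
    L.a σ.Q = σ.i + 1 ∧ ∃ σ1 ∈ VV L p, σ.Same σ1 ∧ σ1.ty = 2 ∧
      LOp L.U (L.ps σ) (fun _ : Unit => L.ps σ1) (fun _ x => x) (p.C * L.B ^ σ.i * 2 ^ σ.k) := by
  have e : L.a σ.Q = σ.i + 1 := le_antisymm (H.ok.anc_cube a.anc hc Subset.rfl) ha
  have cb := cN_bd (show σ.i + 1 ≤ 0 from a.i0)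
  have l0 := half_pos a.val.wmin_pos
  have w := H.w0 σ.i σ.k
  have mx := H.mx
  have K := H.ok.bd.pK
  have B := H.B0
  refine ⟨e, ⟨σ.i, σ.k, σ.Q, (cubeC σ.R.o (σ.R.wmin / 2)).gb, cN (σ.i + 1), 2, σ.F⟩,
    ⟨⟨a.i0, a.ok, a.bx, a.anc, (cubeC_valid H.f0 H.f1 _ l0).2.1, cb.2.le⟩,
      Or.inr (Or.inr ⟨rfl, hc, e, rfl, _, _, l0, rfl, ?_, fun h => ?_⟩)⟩, ⟨rfl, rfl, rfl⟩, rfl,
    (stop_op H.ok.hU H.ok.hne H.ok.he H.ok.bd H.f0 H.f1 a.ok a.bx.lb (H.ht a.ok a.anc)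
      (fun i => (a.bx.sd i).2) a.val cb.1 a.cn a.c2 (H.small σ ?_)).mono
      (by simpa using H.big a one_pos (by simpa using H.V1))⟩
  · have t : L.tm (L.top σ.Q) ≤ 2 * (L.B ^ (L.T + 1) * L.B ^ σ.i) := by
      refine (H.ok.tm_bd _).2.1.trans (mul_le_mul_of_nonneg_left ?_ two_pos.le)
      rw [← zpow_add₀ B.ne']
      exact zpow_le_zpow_right₀ (by linarith only [H.ok.pB, B])
        (by linarith only [(H.ok.top_bd a.ok hc).2.2, e])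
    have t2 : 100 * L.K * L.tm (L.top σ.Q) * 2 ^ σ.k ≤
        100 * L.K * (2 * (L.B ^ (L.T + 1) * L.B ^ σ.i)) * 2 ^ σ.k := by gcongr
    refine t2.trans (le_of_mul_le_mul_left ?_ (show 0 < 4 * Mx p.f by linarith only [mx]))
    nlinarith only [(H.sz a).1, mul_le_mul_of_nonneg_right H.C2 w.le, w]
  · obtain ⟨r0, r1⟩ := H.rs_pow σ.k a.bx.two.1
    have c := H.ok.cr_stop H.C0 H.Λ1 H.hB a.ok hc a.anc e (e ▸ h)
    rw [← H.eβ, ← e] at c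
    have d := (a.val.size H.f0 H.f1 (L := 128 * Mx p.f * rs L p σ.k σ.Q) (by positivity)).1 (by
      rw [mul_pow, r1]
      refine le_trans (le_of_eq ?_) (c.trans a.lo)
      rw [H.eΛ]
      ring)
    change 32 * rs L p σ.k σ.Q ≤ _
    refine le_of_mul_le_mul_left ?_ (show 0 < 4 * Mx p.f by linarith only [mx])
    linarith only [d]
  · have n : (1 : ℝ) ≤ Fintype.card ι := by exact_mod_cast Fintype.card_pos
    have z := mul_pos H.C0 w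
    have k : p.k1 ≤ Fintype.card ι * p.V := by nlinarith only [H.kc, H.k8, H.V1, n]
    exact (mul_le_mul k (H.sz a).1 z.le (H.κ0.le.trans k)).trans_eq (by ring)

theorem entry (H : SH L p) (b : Bs L p.f σ) (h : I1 L p σ) (hf : σ.R.Fin p.f) :
    ∃ σ1 ∈ VV L p, σ.Same σ1 ∧ σ1.ty < σ.ty ∧
      LOp L.U (L.ps σ) (fun _ : Unit => L.ps σ1) (fun _ x => x) (p.C * L.B ^ σ.i * 2 ^ σ.k) := by
  have a := H.ac1 b h
  have two := b.bx.two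
  have cb := cN_bd (show σ.i + 1 ≤ 0 from b.i0)
  have u0 := H.ok.un_pos H.C0 σ.i two.1
  obtain ⟨s, s0, s1, e, n1, n2⟩ := H.shr a (H.ok.un_le_cr H.C0 H.β0 _ two.1) (by
    simpa only [hf.phi, mul_zero, add_zero] using h.2.2.1)
  obtain ⟨Q', q1, q2, q3, op⟩ := entry_op H.ok.hU H.ok.hne H.ok.he H.ok.bd H.f0 H.f1 b.ok b.bx.lb
    (H.ht b.ok b.anc) (fun i => (b.bx.sd i).2) b.val hf.1 s0 s1
    (c' := (σ.c + cN (σ.i + 1)) / 2) (by linarith only [a.cn, cb]) (by linarith only [a.cn]) b.c2 n1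
  obtain ⟨-, c2, c3, -, -, c6, c7, -⟩ := consts (ι := ι) H.f0 H.f1
  have sd : ∀ i, 0 < σ.Q.sd i := fun i => sub_pos.2 (two.1 i)
  have sd' : ∀ i, 0 < Q'.sd i := fun i => sub_pos.2 (q1 i)
  have as : ∀ i j, Q'.sd i ≤ 5 / 4 * Mp p.f * Q'.sd j := fun i j => by
    have w := mul_pos s0 (b.val.pos j)
    have x : 4 / 5 * (1 + 2 * epw ι p.f) * (s * σ.R.w j) ≤ Q'.sd j :=
      le_trans (mul_le_mul_of_nonneg_right (by linarith only [c2, c3]) w.le) (q3 j).1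
    have y : (1 + 2 * epw ι p.f) * (s * σ.R.w i) ≤
        (1 + 2 * epw ι p.f) * (s * (Mp p.f * σ.R.w j)) := by
      gcongr
      exact hf.2 i j
    nlinarith only [(q3 i).2, mul_le_mul_of_nonneg_left x (show 0 ≤ Mp p.f by linarith only [c2, c3, c6]), y, x, c2, c3, c6]
  obtain ⟨r1, r2⟩ := frel_entry H.f0 two.1 q1 fun i j => by nlinarith only [as i j, sd' j, c2, c3, c6, c7]
  obtain ⟨st, pz⟩ := H.good.entry σ.Q (fun i => Q'.lo i - Q'.sd i / σ.Q.sd i * σ.Q.lo i)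
    (fun i => Q'.sd i / σ.Q.sd i) two (fun i => div_pos (sd' i) (sd i)) fun i j => by
      rw [← mul_div_assoc, div_le_div_iff₀ (sd i) (sd j)]
      exact (mul_le_mul (as i j) (two.2 j i) (sd j).le ((sd' i).le.trans (as i j))).trans_eq
        (by ring)
  refine ⟨⟨σ.i, σ.k, σ.Q, Q'.gb, _, 0, _⟩, ⟨⟨b.i0, b.ok, b.bx, b.anc, r1.valid,
    by linarith only [b.c2, cb]⟩, Or.inr (Or.inl ⟨rfl, by linarith only [a.cn], st, r1, ?_, ?_⟩)⟩,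
    ⟨rfl, rfl, rfl⟩, zero_lt_one.trans_eq h.1.symm, op.mono n2⟩
  · simp only [pz, Bx.gb_vol q1, q2, e, mul_zero, add_zero, le_refl]
  · simp only [r2, q2, e, H.eV]
    nlinarith only [H.ok.cr_le H.C0 H.β0 b.i0 b.bx b.anc, mul_nonneg H.β0 u0.le, u0]

theorem halves (H : SH L p) (b : Bs L p.f σ) (hn : Cube σ.k σ.Q → L.a σ.Q ≤ σ.i) {R : GB ι}
    (hR : R.Valid p.f) {c : ℝ} (hc : c ≤ 2) (ty : ℕ) (F : FD ι) :
    Bs L p.f ⟨σ.i, nk σ.k σ.Q, σ.Q.L σ.Q.sj, R, c, ty, F⟩ ∧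
      Bs L p.f ⟨σ.i, nk σ.k σ.Q, σ.Q.R σ.Q.sj, R, c, ty, F⟩ := by
  obtain ⟨a1, -, a3, -⟩ := H.ok.anc_half b.i0 b.ok b.bx b.anc hn
  exact ⟨⟨b.i0, a1, (b.bx.L σ.Q.long_sj).1,
      a3.mono ((b.bx.two.1.set_L _).subset.trans inter_subset_left), hR, hc⟩,
    ⟨b.i0, a1, (b.bx.R σ.Q.long_sj).1,
      a3.mono ((b.bx.two.1.set_R _).subset.trans inter_subset_left), hR, hc⟩⟩

/-- The conclusion of a halving step. -/
def Hv (L : LE ι Y) (p : SC) (σ : LS ι) : Prop :=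
  ∃ σ1 ∈ VV L p, ∃ σ2 ∈ VV L p, σ.Half σ1 σ2 ∧ σ1.ty ≤ 1 ∧ σ2.ty ≤ 1 ∧
    LOp L.U (L.ps σ) (fun b : Bool => if b then L.ps σ2 else L.ps σ1) (hf2 σ.Q.sj)
      (p.C * L.B ^ σ.i * 2 ^ σ.k)

theorem mart (H : SH L p) (b : Bs L p.f σ) (h : I0 L p σ) (hn : Cube σ.k σ.Q → L.a σ.Q ≤ σ.i)
    (h1 : pot p.fc σ.Q σ.F ≤ p.fc.P1 / 4)
    (h2 : |L.cr p.Cs p.β σ.i (σ.Q.L σ.Q.sj) - L.cr p.Cs p.β σ.i (σ.Q.R σ.Q.sj)| ≤
      p.fc.d1 * σ.F.a0 σ.Q) : Hv L p σ := by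
  have a := H.ac0 b h
  obtain ⟨a0, a1⟩ := H.a0 b h
  obtain ⟨-, cn, st, rel, i1, i2⟩ := h
  obtain ⟨o1, o2, o3, o4⟩ := H.ok.anc_half b.i0 b.ok b.bx b.anc hn
  obtain ⟨g1, g2, -⟩ := H.ok.cr_half H.C0 H.β0 σ.i b.bx.two.1 σ.Q.sj
  rw [← H.eg] at g2
  obtain ⟨F, f1, f2, s1, s2, f3, v1, v2⟩ := H.good.step σ.Q σ.F st (b.bx.L σ.Q.long_sj).1.two
    (b.bx.R σ.Q.long_sj).1.two h1 p.η _ _ H.η0.le H.η1 h2 (by
      rw [← rel.vol, ← le_sub_iff_add_le', div_le_iff₀ a0]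
      nlinarith only [mul_le_mul_of_nonneg_right H.η2 (sq_nonneg
        (L.cr p.Cs p.β σ.i (σ.Q.L σ.Q.sj) - L.cr p.Cs p.β σ.i (σ.Q.R σ.Q.sj))),
        mul_le_mul_of_nonneg_right (a.lo.trans a1) (sub_nonneg.2 g1),
        mul_le_mul_of_nonneg_right i1 a0.le, g2, a1, g1, i1, a0])
  obtain ⟨R1, r1⟩ := H.good.exit _ _ s1
  obtain ⟨R2, r2⟩ := H.good.exit _ _ s2
  have cb := cN_bd (show σ.i + 1 ≤ 0 from b.i0)
  refine ⟨_, ⟨(H.halves b hn r1.valid b.c2 0 F).1, Or.inr (Or.inl ⟨rfl, cn, s1, r1,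
      v1.trans_eq r1.vol.symm, ?_⟩)⟩,
    _, ⟨(H.halves b hn r2.valid b.c2 0 F).2, Or.inr (Or.inl ⟨rfl, cn, s2, r2,
      v2.trans_eq r2.vol.symm, ?_⟩)⟩, ⟨rfl, rfl, rfl, rfl, rfl, rfl⟩, zero_le_one, zero_le_one,
    (f_op H.ok.hU H.ok.he H.ok.bd H.good H.f0 H.f1 o1 o2 (b.bx.mid σ.Q.long_sj) (H.ht o1 o3)
      (o4 _ (H.ok.tm_bd _).1) st s1 f1 f2 f3 rel r1 r2 (by linarith only [cn, cb]) b.c2).mono
      (le_trans ?_ (H.big a one_pos (by simpa using H.V1)))⟩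
  · simp only [FD.a0, f2, Bx.vol_L, (L.un_half _ _ _ _).1] at i2 ⊢
    linarith only [i2]
  · simp only [FD.a0, f2, Bx.vol_R, (L.un_half _ _ _ _).2] at i2 ⊢
    linarith only [i2]
  · rw [mul_one, le_div_iff₀ H.f0]
    nlinarith only [b.val.wmax_pos, H.f1]

theorem cut (H : SH L p) (a : Ac L p σ) (hn : Cube σ.k σ.Q → L.a σ.Q ≤ σ.i)
    (h : ∀ φ, φ ≤ σ.R.phi p.f - σ.R.drop p.f → φ ≤ 8 * Fintype.card ι →
      L.cr p.Cs p.β σ.i (σ.Q.L σ.Q.sj) + L.cr p.Cs p.β σ.i (σ.Q.R σ.Q.sj) +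
        (2 * p.k1 + p.k2 * φ) * L.un p.Cs σ.i σ.Q ≤ σ.R.vol) : Hv L p σ := by
  have pos := a.bx.two.1
  have u0 := H.ok.un_pos H.C0 σ.i pos
  obtain ⟨o1, o2, o3, o4⟩ := H.ok.anc_half a.i0 a.ok a.bx a.anc hn
  obtain ⟨g1, -, g3, g4⟩ := H.ok.cr_half H.C0 H.β0 σ.i pos σ.Q.sj
  rw [← H.ef] at g3 g4
  obtain ⟨uL, uR⟩ := L.un_half p.Cs σ.i σ.Q σ.Q.sj
  have lL := H.ok.un_le_cr H.C0 H.β0 σ.i (pos.L σ.Q.sj)
  have lR := H.ok.un_le_cr H.C0 H.β0 σ.i (pos.R σ.Q.sj)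
  have l0 := H.ok.un_le_cr H.C0 H.β0 σ.i pos
  have l1 := H.ok.cr_le H.C0 H.β0 a.i0 a.bx a.anc
  obtain ⟨i0, e0⟩ := σ.R.exists_wmax
  obtain ⟨sg, φ1, φ2, hs, p1, p2, p3, p4, p5, hc⟩ := a.val.cut H.f0 H.f1
    (fun j => (σ.R.le_wmax j).trans e0.ge) (half_pos u0).le (half_pos u0).le
  have h' := h ((φ1 + φ2) / 2) (le_of_mul_le_mul_right (by linarith only [p5]) u0) (by linarith only [p2, p4])
  have f0 := H.f0
  have f1 := H.f1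
  have κ := mul_pos H.κ0 u0
  have kc := mul_le_mul_of_nonneg_right H.kc u0.le
  have q : ∀ φ : ℝ, 0 ≤ φ → φ ≤ 8 * Fintype.card ι → 0 ≤ p.k2 * φ * L.un p.Cs σ.i σ.Q ∧
      p.k2 * φ * L.un p.Cs σ.i σ.Q ≤ p.k2 * (8 * Fintype.card ι) * L.un p.Cs σ.i σ.Q :=
    fun φ b c => ⟨mul_nonneg (mul_nonneg H.k0.le b) u0.le,
      mul_le_mul_of_nonneg_right (mul_le_mul_of_nonneg_left c H.k0.le) u0.le⟩
  have q1 := q φ1 p1 p2
  have q2 := q φ2 p3 p4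
  have y1 := mul_le_mul_of_nonneg_left a.lo (show 0 ≤ 1 - p.f by linarith only [f0, f1])
  have y2 := mul_nonneg f0.le (u0.le.trans l0)
  have y3 := mul_le_mul_of_nonneg_right f1 u0.le
  have y4 := mul_pos f0 κ
  obtain ⟨a1, a2, b1, b2, b3, b4, b5, b6⟩ := split
    (n1 := L.cr p.Cs p.β σ.i (σ.Q.L σ.Q.sj) + (p.k1 + p.k2 * φ1) * (L.un p.Cs σ.i σ.Q / 2))
    (n2 := L.cr p.Cs p.β σ.i (σ.Q.R σ.Q.sj) + (p.k1 + p.k2 * φ2) * (L.un p.Cs σ.i σ.Q / 2))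
    (W := σ.R.vol - p.k1 * L.un p.Cs σ.i σ.Q) (M := (2 + p.β) * L.un p.Cs σ.i σ.Q) f0 f1
    (by linarith only [uL, lL, κ, kc, q1]) (by linarith only [uR, lR, κ, kc, q1, q2]) (by linarith only [h']) (by linarith only [g1, g3, uR, lR, κ, kc, q1, y1, y3, y4]) (by linarith only [g1, g4, uL, lL, κ, kc, q1, q2, y1, y3, y4]) (by linarith only [g1, l1, κ, kc, q1, q2])
  obtain ⟨s, s0, s1, e, n1, n2⟩ := H.shr a (W := a1 + a2) (by linarith only [uL, uR, lL, lR, κ, q1, q2, b1, b2]) (by linarith only [b5])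
  have sp := pow_pos s0 (Fintype.card ι)
  have ev : σ.R.vol = (a1 + a2) / s ^ Fintype.card ι := by
    rw [← e, mul_div_cancel_left₀ _ sp.ne']
  obtain ⟨c0, R1, R2, ic, v1, v2, v3, v4⟩ := hc (a1 / s ^ Fintype.card ι) (a2 / s ^ Fintype.card ι)
    (by rw [ev, add_div]) (by rw [ev, ← mul_div_assoc]; gcongr) (by rw [ev, ← mul_div_assoc]; gcongr)
  have cb := cN_bd (show σ.i + 1 ≤ 0 from a.i0)
  obtain ⟨R1', R2', r1, r2, r3, r4, r5, r6, op⟩ := cut_op H.ok.hU H.ok.hne H.ok.he H.ok.bd f0 f1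
    a.ok o1 a.bx.lb o2 (a.bx.mid σ.Q.long_sj) (H.ht a.ok a.anc) (H.ht o1 o3)
    (o4 _ (H.ok.tm_bd _).1) (fun i => (a.bx.sd i).2) a.val ic
    (fun t => a.val.nontrivial f0 f1 (hs t)) s0 s1 (c' := (σ.c + cN (σ.i + 1)) / 2)
    (by linarith only [a.cn, cb]) (by linarith only [a.cn]) a.c2 n1
  rw [v1, mul_div_cancel₀ _ sp.ne'] at r5
  rw [v2, mul_div_cancel₀ _ sp.ne'] at r6
  have c2 : (σ.c + cN (σ.i + 1)) / 2 ≤ 2 := by linarith only [a.c2, cb]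
  have c3 : cN (σ.i + 1) < (σ.c + cN (σ.i + 1)) / 2 := by linarith only [a.cn]
  have m1 := mul_le_mul_of_nonneg_right (mul_le_mul_of_nonneg_left (r3.le.trans v3) H.k0.le) u0.le
  have m2 := mul_le_mul_of_nonneg_right (mul_le_mul_of_nonneg_left (r4.le.trans v4) H.k0.le) u0.le
  refine ⟨_, ⟨(H.halves a.toBs hn r1 c2 1 σ.F).1, Or.inl ⟨rfl, c3, ?_, ?_⟩⟩,
    _, ⟨(H.halves a.toBs hn r2 c2 1 σ.F).2, Or.inl ⟨rfl, c3, ?_, ?_⟩⟩,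
    ⟨rfl, rfl, rfl, rfl, rfl, rfl⟩, le_rfl, le_rfl, op.mono n2⟩ <;>
    simp only [uL, uR, r5, r6, H.eV] <;> linarith only [b1, m1, uR, lR, κ, kc, q1, q2, b2, b6, m2, uL, lL]

theorem step (H : SH L p) (b : Bs L p.f σ) (h : I1 L p σ ∨ I0 L p σ)
    (hn : Cube σ.k σ.Q → L.a σ.Q ≤ σ.i) :
    (∃ σ1 ∈ VV L p, σ.Same σ1 ∧ σ1.ty < σ.ty ∧
      LOp L.U (L.ps σ) (fun _ : Unit => L.ps σ1) (fun _ x => x) (p.C * L.B ^ σ.i * 2 ^ σ.k)) ∨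
      Hv L p σ := by
  have pos := b.bx.two.1
  have u0 := H.ok.un_pos H.C0 σ.i pos
  have l0 := H.ok.un_le_cr H.C0 H.β0 σ.i pos
  obtain ⟨g1, g2, -⟩ := H.ok.cr_half H.C0 H.β0 σ.i pos σ.Q.sj
  rw [← H.eg] at g2
  rcases h with h | h
  · by_cases hf : σ.R.Fin p.f
    · exact Or.inl (H.entry b h hf)
    refine Or.inr (H.cut (H.ac1 b h) hn fun φ c _ => ?_)
    rw [GB.drop, if_neg hf] at c
    have := mul_le_mul_of_nonneg_right (mul_le_mul_of_nonneg_left c H.k0.le) u0.le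
    have e := congrArg (· * L.un p.Cs σ.i σ.Q) H.ek
    linarith only [h.2.2.1, g1, this, e]
  right
  have a := H.ac0 b h
  obtain ⟨a0, a1⟩ := H.a0 b h
  have a2 : L.un p.Cs σ.i σ.Q ≤ 2 * σ.F.a0 σ.Q := l0.trans (a.lo.trans a1)
  by_cases h1 : pot p.fc σ.Q σ.F ≤ p.fc.P1 / 4
  swap
  · refine H.cut a hn fun φ _ c => ?_
    have := mul_le_mul_of_nonneg_right (mul_le_mul_of_nonneg_left c H.k0.le) u0.le
    linarith only [h.2.2.2.2.1, mul_le_mul_of_nonneg_right H.ka u0.le,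
      mul_le_mul_of_nonneg_left (not_le.1 h1).le (mul_pos H.η0 a0).le,
      mul_le_mul_of_nonneg_left a2 (mul_pos H.η0 H.good.pP).le, g1, this, u0, h1, a0, a2]
  by_cases h2 : |L.cr p.Cs p.β σ.i (σ.Q.L σ.Q.sj) - L.cr p.Cs p.β σ.i (σ.Q.R σ.Q.sj)| ≤
      p.fc.d1 * σ.F.a0 σ.Q
  · exact H.mart b h hn h1 h2
  refine H.cut a hn fun φ _ c => ?_
  have := mul_le_mul_of_nonneg_right (mul_le_mul_of_nonneg_left c H.k0.le) u0.le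
  have x := pow_le_pow_left₀ (mul_pos H.good.pd a0).le (not_le.1 h2).le 2
  rw [sq_abs] at x
  have y : p.g * p.fc.d1 ^ 2 * σ.F.a0 σ.Q ≤ 2 * (L.cr p.Cs p.β σ.i σ.Q -
      (L.cr p.Cs p.β σ.i (σ.Q.L σ.Q.sj) + L.cr p.Cs p.β σ.i (σ.Q.R σ.Q.sj))) := by
    refine le_of_mul_le_mul_right ?_ a0
    linarith only [mul_le_mul_of_nonneg_left x H.g0.le,
      mul_le_mul_of_nonneg_right (a.lo.trans a1) (sub_nonneg.2 g1), g2, x, a1, g1]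
  linarith only [a.lo, mul_le_mul_of_nonneg_right H.kb u0.le,
    mul_le_mul_of_nonneg_left a2 (mul_nonneg H.g0.le (sq_nonneg p.fc.d1)), this, y, u0, a2]

theorem pt (H : SH L p) : L.PT p.f p.C (VV L p) (rt L p) (rs L p) where
  base σ hσ := by
    have cb := (cN_bd (show σ.i + 1 ≤ 0 from hσ.1.i0)).1
    refine ⟨hσ.1.i0, hσ.1.ok, hσ.1.bx, hσ.1.anc, hσ.1.val, ?_⟩
    rcases hσ.2 with h | h | h
    exacts [⟨cb.trans h.2.1.le, by rw [h.1]; norm_num⟩, ⟨cb.trans h.2.1.le, by rw [h.1]; norm_num⟩,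
      ⟨cb.trans h.2.2.2.1.ge, h.1.le⟩]
  step σ hσ ht := by
    have h : I1 L p σ ∨ I0 L p σ := by
      rcases hσ.2 with h | h | h
      exacts [Or.inl h, Or.inr h, absurd (h.1 ▸ ht) (by norm_num)]
    by_cases hn : Cube σ.k σ.Q → L.a σ.Q ≤ σ.i
    · exact Or.inr ⟨hn, H.step hσ.1 h hn⟩
    · rw [Classical.not_imp, not_le] at hn
      exact Or.inl ⟨hn.1, H.stop (h.elim (H.ac1 hσ.1) (H.ac0 hσ.1)) hn.1 hn.2⟩
  nst σ hσ ht := by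
    rcases hσ.2 with h | h | h
    exacts [absurd (h.1 ▸ ht) (by norm_num), absurd (h.1 ▸ ht) (by norm_num), h.2]
  root k G hk hG ha := ⟨(H.root hk hG ha).1, rfl, rfl, rfl, rfl, rfl, rfl,
    (H.rs_pow k hG.bx.two.1).1, (H.root hk hG ha).2⟩

end SH

end LStep

open LStep in
theorem exists_PT : ∃ B0 f : ℝ, 0 < f ∧ f ≤ 1 / 16 ∧ ∀ B : ℝ, B0 ≤ B → ∀ (K : ℝ) (T : ℤ),
    ∃ C : ℝ, 1 ≤ C ∧ ∀ L : LE ι Y, L.OK → L.B = B → L.K = K → L.T = T →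
      ∃ V rt rs, L.PT f C V rt rs := by
  obtain ⟨f0, f1⟩ := fL_bd (Fintype.card_pos (α := ι))
  obtain ⟨f, ef⟩ : ∃ f, f = fL (Fintype.card ι) := ⟨_, rfl⟩
  rw [← ef] at f0 f1
  obtain ⟨fc, good⟩ := exists_FC (ι := ι) f0 f1
  obtain ⟨g, eg⟩ : ∃ g, g = sL (Fintype.card ι) * (1 - sL (Fintype.card ι)) / 2 := ⟨_, rfl⟩
  have g0 : 0 < g := eg ▸ half_pos (mul_pos (sL_bd _).1 (sub_pos.2 (sL_bd _).2))
  have q0 : 0 < fc.Cq := one_pos.trans_le good.pC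
  have d0 := (consts (ι := ι) f0 f1).2.2.2.1
  obtain ⟨η, η0, η1, η2⟩ : ∃ η, 0 < η ∧ η ≤ fc.η0 ∧ η * fc.Cq ≤ g / 2 :=
    ⟨min fc.η0 (g / 2 / fc.Cq), lt_min good.pη (by positivity), min_le_left _ _,
      (le_div_iff₀ q0).1 (min_le_right _ _)⟩
  obtain ⟨m, m0, m1, m2, m3⟩ : ∃ m, 0 < m ∧ m ≤ η * fc.P1 / 8 ∧ m ≤ g * fc.d1 ^ 2 / 4 ∧ m ≤ 1 / 8 := by
    have := good.pP
    have := good.pd
    exact ⟨min (η * fc.P1 / 8) (min (g * fc.d1 ^ 2 / 4) (1 / 8)), by positivity, min_le_left _ _,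
      (min_le_right _ _).trans (min_le_left _ _), (min_le_right _ _).trans (min_le_right _ _)⟩
  obtain ⟨k2, k0, ek⟩ : ∃ k2, 0 < k2 ∧ 2 * (k2 * drp ι f) + k2 * (8 * Fintype.card ι) = m :=
    ⟨m / (2 * drp ι f + 8 * Fintype.card ι), by positivity, by field_simp⟩
  obtain ⟨Λ, eΛ⟩ : ∃ Λ, Λ = 2 * (128 * Mx f) ^ Fintype.card ι := ⟨_, rfl⟩
  refine ⟨(2 ^ (Fintype.card ι + 1) * Λ) ^ 4, f, f0, f1, fun B hB K T => ?_⟩
  obtain ⟨β, eβ⟩ : ∃ β, β = 2 ^ (Fintype.card ι + 1) * Λ * B ^ Fintype.card ι := ⟨_, rfl⟩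
  have fk : 0 < f * (k2 * drp ι f) := by positivity
  obtain ⟨Cs, C0, C1, C2⟩ : ∃ Cs, 0 < Cs ∧
      8 * 10 ^ 5 * K * Fintype.card ι * (4 * (2 + β)) * Mx f ≤ f * (k2 * drp ι f) * Cs ∧
      800 * K * Mx f * B ^ (T + 1) ≤ Cs :=
    ⟨max 1 (max (_ / (f * (k2 * drp ι f))) _), one_pos.trans_le (le_max_left _ _),
      (div_le_iff₀' fk).1 ((le_max_left _ _).trans (le_max_right _ _)),
      (le_max_right _ _).trans (le_max_right _ _)⟩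
  refine ⟨max 1 (4 * 10 ^ 9 * Mx f * (4 * (2 + β)) ^ 2 * Cs / f), le_max_left _ _, ?_⟩
  rintro L hL rfl rfl rfl
  exact ⟨_, _, _, SH.pt (p := ⟨fc, f, g, η, k2 * drp ι f, k2, Λ, β, 4 * (2 + β), Cs, _⟩)
    ⟨hL, ef, eg, eΛ, eβ, rfl, rfl, good, η0, η1, η2, k0, ek.le.trans m1, ek.le.trans m2,
      ek.le.trans m3, hB, C0, C1, C2, (div_le_iff₀' f0).1 (le_max_right _ _)⟩⟩

end Pool.Agent.Lib.MP_ecd4e3_gt.N
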