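import Pool.Agent.Lib.MP_ecd4e3_gt.Local
import Pool.Agent.Lib.MP_ecd4e3_gt.N.Defs

/-! The line, the passage to Euclidean space and lengths of curves. -/

namespace Pool.Agent.Lib.MP_ecd4e3_gt.N

open Set Filter Topology Metric MeasureTheory
open scoped NNReal ENNReal

/-- Open sets of small volume have locally expanding continuous injections into small cubes. -/
def Fill (ι : Type) [Fintype ι] : Prop :=
  ∃ C : ℝ, 0 < C ∧ ∀ U : Set (E ι), IsOpen U → ∀ l : ℝ, 0 < l →
    volume U ≤ ENNReal.ofReal (l ^ Fintype.card ι) → ∃ f : E ι → E ι, InjOn f U ∧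
      ContinuousOn f U ∧ MapsTo f U (closedBall 0 (C * l)) ∧
      ∀ z ∈ U, ∀ᶠ z' in 𝓝 z, dist z' z ≤ dist (f z') (f z)

theorem one_line {U : Set ℝ} (hU : IsOpen U) (hf : volume U ≠ ⊤) : ∃ g : ℝ → ℝ, InjOn g U ∧
    (∀ x, |g x| ≤ volume.real U) ∧ ∀ z ∈ U, ∀ᶠ z' in 𝓝 z, dist (g z') (g z) = dist z' z := by
  have fin : ∀ A : Set ℝ, volume (U ∩ A) ≠ ⊤ := fun A =>
    ne_top_of_le_ne_top hf (measure_mono inter_subset_left)
  have add : ∀ x y : ℝ, x ≤ y → volume.real (U ∩ Iic y) =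
      volume.real (U ∩ Iic x) + volume.real (U ∩ Ioc x y) := fun x y h => by
    rw [← Iic_union_Ioc_eq_Iic h, inter_union_distrib_left, measureReal_union
      ((Iic_disjoint_Ioc le_rfl).mono inter_subset_right inter_subset_right)
      (hU.measurableSet.inter measurableSet_Ioc) (fin _) (fin _)]
  have loc : ∀ z r : ℝ, ball z r ⊆ U → ∀ x ∈ ball z r, ∀ y ∈ ball z r, x ≤ y →
      volume.real (U ∩ Iic y) = volume.real (U ∩ Iic x) + (y - x) := fun z r hr x hx y hy h => by
    rw [add x y h, inter_eq_right.2 (Ioc_subset_Icc_self.trans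
      (((convex_ball z r).ordConnected.out hx hy).trans hr)), Real.volume_real_Ioc_of_le h]
  have mono : StrictMonoOn (fun x => volume.real (U ∩ Iic x)) U := fun x hx y _ h => by
    obtain ⟨r, hr, hb⟩ := Metric.isOpen_iff.1 hU x hx
    have h1 : x < min y (x + r / 2) := lt_min h (by linarith)
    have h2 := min_le_right y (x + r / 2)
    have h3 := loc x r hb x (mem_ball_self hr) _ (by
      rw [mem_ball, Real.dist_eq, abs_of_pos (sub_pos.2 h1)]; linarith) h1.le
    have h4 := add _ y (min_le_left y (x + r / 2))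
    have h5 : 0 ≤ volume.real (U ∩ Ioc (min y (x + r / 2)) y) := measureReal_nonneg
    simp only
    linarith
  refine ⟨fun x => volume.real (U ∩ Iic x), mono.injOn, fun x => ?_, fun z hz => ?_⟩
  · rw [abs_of_nonneg measureReal_nonneg]
    exact measureReal_mono inter_subset_left hf
  · obtain ⟨r, hr, hb⟩ := Metric.isOpen_iff.1 hU z hz
    filter_upwards [ball_mem_nhds z hr] with y hy
    rw [Real.dist_eq, Real.dist_eq]
    rcases le_total z y with h | h
    · rw [loc z r hb z (mem_ball_self hr) y hy h, add_sub_cancel_left]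
    · rw [loc z r hb y hy z (mem_ball_self hr) h]
      congr 1
      ring

theorem fill_one : Fill (Fin 1) := by
  refine ⟨1, one_pos, fun U hU l hl hv => ?_⟩
  have hd : ∀ x y : E (Fin 1), dist x y = dist (x 0) (y 0) := fun x y => by
    simp [dist_pi_def]
  have he : ∀ x : E (Fin 1), (fun _ => x 0) = x := fun x => funext fun i => by
    rw [Subsingleton.elim i 0]
  have hV : volume ((fun (x : ℝ) (_ : Fin 1) => x) ⁻¹' U) = volume U :=
    (volume_preserving_funUnique (Fin 1) ℝ).symm.measure_preimage hU.measurableSet.nullMeasurableSet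
  rw [← hV, Fintype.card_fin, pow_one] at hv
  obtain ⟨g, g1, g2, g3⟩ := one_line (hU.preimage (continuous_pi fun _ => continuous_id))
    (ne_top_of_le_ne_top ENNReal.ofReal_ne_top hv)
  have g4 : ∀ z ∈ U, ∀ᶠ z' in 𝓝 z,
      dist (fun _ : Fin 1 => g (z' 0)) (fun _ => g (z 0)) = dist z' z := fun z hz =>
    ((continuous_apply 0).continuousAt.eventually (g3 (z 0) (by
      change (fun _ => z 0) ∈ U
      rwa [he]))).mono fun y hy => by rw [hd, hd, hy]
  refine ⟨fun z _ => g (z 0), fun x hx y hy e => ?_, fun z hz => ContinuousAt.continuousWithinAt ?_,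
    fun x _ => ?_, fun z hz => (g4 z hz).mono fun y hy => hy.ge⟩
  · rw [← he x] at hx ⊢
    rw [← he y] at hy ⊢
    rw [g1 hx hy (congrFun e 0)]
  · rw [ContinuousAt, tendsto_iff_dist_tendsto_zero]
    exact (tendsto_iff_dist_tendsto_zero.1 tendsto_id).congr' ((g4 z hz).mono fun y hy => hy.symm)
  · rw [mem_closedBall, hd, one_mul]
    exact ((Real.dist_0_eq_abs _).le.trans (g2 _)).trans (ENNReal.toReal_le_of_le_ofReal hl.le hv)

theorem local_of_exp {F : Type} [NormedAddCommGroup F] [InnerProductSpace ℝ F]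
    [FiniteDimensional ℝ F] {V : Set F} (hV : IsOpen V) {f : F → F} (hi : InjOn f V)
    (hc : ContinuousOn f V) (h : ∀ z ∈ V, ∀ᶠ z' in 𝓝 z, dist z' z ≤ dist (f z') (f z)) :
    IsEmbedding (V.domRestrict f) ∧
      (∀ x ∈ V, ∃ r > 0, ∀ y ∈ ball x r, ∀ z ∈ ball x r, dist y z ≤ dist (f y) (f z)) ∧
      ∀ (γ : ℝ → F) (a b : ℝ), ContinuousOn γ (Icc a b) → MapsTo γ (Icc a b) V →
        eVariationOn γ (Icc a b) ≤ eVariationOn (f ∘ γ) (Icc a b) := by
  have hop : ∀ U, IsOpen U → U ⊆ V → IsOpen (f '' U) := fun U hU hUV =>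
    inv_domain hU (hc.mono hUV) (hi.mono hUV)
  refine ⟨?_, ?_, ?_⟩
  · refine (IsOpenEmbedding.of_continuous_injective_isOpenMap
      (continuousOn_iff_continuous_domRestrict.1 hc)
      (fun x y hxy => Subtype.ext (hi x.2 y.2 hxy)) (fun U hU => ?_)).isEmbedding
    have e : V.domRestrict f '' U = f '' (Subtype.val '' U) := by
      rw [image_image]; rfl
    rw [e]
    exact hop _ (hV.isOpenMap_subtype_val U hU) (by rintro _ ⟨x, -, rfl⟩; exact x.2)
  · intro x hx
    have hg : ∀ z ∈ V, Function.invFunOn f V (f z) = z := fun z hz => hi.leftInvOn_invFunOn hz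
    obtain ⟨ρ, hρ, hρW⟩ := Metric.isOpen_iff.1 (hop V hV subset_rfl) (f x) ⟨x, hx, rfl⟩
    have hlow := lip_of_pw (convex_ball (f x) ρ) (f := Function.invFunOn f V) (K := 1)
      zero_le_one (by
      intro w hw
      obtain ⟨z, hz, rfl⟩ := hρW hw
      obtain ⟨U, hU1, hU2, hU3⟩ := _root_.eventually_nhds_iff.1 ((h z hz).and (hV.mem_nhds hz))
      have hUV : U ⊆ V := fun u hu => (hU1 u hu).2
      refine Eventually.filter_mono nhdsWithin_le_nhds ?_
      filter_upwards [(hop U hU2 hUV).mem_nhds ⟨z, hU3, rfl⟩]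
      rintro _ ⟨u, hu, rfl⟩
      rw [hg u (hUV hu), hg z hz, one_mul]
      exact (hU1 u hu).1)
    obtain ⟨r, hr, hrb⟩ := Metric.eventually_nhds_iff_ball.1 ((hV.eventually_mem hx).and
      ((hc.continuousAt (hV.mem_nhds hx)).eventually (Metric.ball_mem_nhds (f x) hρ)))
    refine ⟨r, hr, fun y hy z hz => ?_⟩
    have := hlow (f y) (hrb y hy).2 (f z) (hrb z hz).2
    rwa [hg y (hrb y hy).1, hg z (hrb z hz).1, one_mul] at this
  · intro γ a b hγ hm
    refine iSup_le ?_
    rintro ⟨n, u, hu, hus⟩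
    calc ∑ i ∈ Finset.range n, edist (γ (u (i + 1))) (γ (u i))
        ≤ ∑ i ∈ Finset.range n, eVariationOn (f ∘ γ) (Icc (u i) (u (i + 1))) := by
          refine Finset.sum_le_sum fun i _ => edist_le_evar (hu (Nat.le_succ i)) fun τ hτ => ?_
          have hsub : Icc (u i) (u (i + 1)) ⊆ Icc a b := Icc_subset_Icc (hus i).1 (hus (i + 1)).2
          exact ((hγ.mono hsub) τ hτ).tendsto.eventually (h (γ τ) (hm (hsub hτ)))
      _ = eVariationOn (f ∘ γ) (Icc (u 0) (u n)) := eVariationOn.sum' _ hu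
      _ ≤ _ := eVariationOn.mono _ (Icc_subset_Icc (hus 0).1 (hus n).2)

theorem one_dist {n : ℕ} (x y : E (Fin n)) :
    dist x y ≤ dist (WithLp.toLp 2 x) (WithLp.toLp 2 y) ∧
      dist (WithLp.toLp 2 x) (WithLp.toLp 2 y) ≤ n * dist x y := by
  refine ⟨(dist_pi_le_iff dist_nonneg).2 fun i =>
    PiLp.dist_apply_le (WithLp.toLp 2 x) (WithLp.toLp 2 y) i, ?_⟩
  rw [EuclideanSpace.dist_eq]
  refine Real.sqrt_le_iff.2 ⟨by positivity, ?_⟩
  have h1 : ∑ i, dist (x i) (y i) ^ 2 ≤ n * dist x y ^ 2 := by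
    simpa using Finset.sum_le_card_nsmul Finset.univ (fun i => dist (x i) (y i) ^ 2)
      (dist x y ^ 2) fun i _ => pow_le_pow_left₀ dist_nonneg (dist_le_pi_dist x y i) 2
  have h2 : (n : ℝ) ≤ n ^ 2 := by exact_mod_cast Nat.le_self_pow two_ne_zero n
  exact h1.trans (by rw [mul_pow]; gcongr)

theorem euclid_of_fill {n : ℕ} (hn : 1 ≤ n) (h : Fill (Fin n)) : ∃ ε : ℝ, 0 < ε ∧
    ∀ U : Set (EuclideanSpace ℝ (Fin n)), IsOpen U → volume U ≤ ENNReal.ofReal ε →
      ∃ f : EuclideanSpace ℝ (Fin n) → EuclideanSpace ℝ (Fin n), InjOn f U ∧ ContinuousOn f U ∧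
        MapsTo f U (closedBall 0 1) ∧ ∀ z ∈ U, ∀ᶠ z' in 𝓝 z, dist z' z ≤ dist (f z') (f z) := by
  obtain ⟨C, hC, h⟩ := h
  have n0 : (0 : ℝ) < n := by exact_mod_cast hn
  have l0 : 0 < 1 / (n * n * C) := by positivity
  refine ⟨(1 / (n * n * C)) ^ n, by positivity, fun U hU hv => ?_⟩
  obtain ⟨g, g1, g2, g3, g4⟩ := h (WithLp.toLp 2 ⁻¹' U) (hU.preimage (PiLp.continuous_toLp 2 _))
    _ l0 (by
      rwa [(PiLp.volume_preserving_toLp (Fin n)).measure_preimage
        hU.measurableSet.nullMeasurableSet, Fintype.card_fin])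
  have ds : ∀ p q : E (Fin n), dist ((n : ℝ) • p) ((n : ℝ) • q) = n * dist p q := fun p q => by
    rw [dist_smul₀, Real.norm_eq_abs, abs_of_pos n0]
  have co : Continuous (WithLp.ofLp : EuclideanSpace ℝ (Fin n) → E (Fin n)) :=
    PiLp.continuous_ofLp 2 _
  refine ⟨fun x => WithLp.toLp 2 ((n : ℝ) • g x.ofLp), fun x hx y hy e => ?_, ?_, fun x hx => ?_,
    fun x hx => ?_⟩
  · exact WithLp.ofLp_injective 2 (g1 hx hy
      (smul_right_injective _ n0.ne' (WithLp.toLp_injective 2 e)))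
  · exact (PiLp.continuous_toLp 2 _).comp_continuousOn
      ((g2.comp (s := U) co.continuousOn fun x hx => hx).const_smul (n : ℝ))
  · have a1 : dist (g x.ofLp) 0 ≤ C * (1 / (n * n * C)) := g3 hx
    have a2 := (one_dist ((n : ℝ) • g x.ofLp) ((n : ℝ) • 0)).2
    rw [ds, smul_zero, WithLp.toLp_zero] at a2
    refine a2.trans ((mul_le_mul_of_nonneg_left (mul_le_mul_of_nonneg_left a1 n0.le) n0.le).trans
      (le_of_eq ?_))
    field_simp
  · filter_upwards [co.continuousAt.eventually (g4 x.ofLp hx)] with y hy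
    have a1 := (one_dist ((n : ℝ) • g y.ofLp) ((n : ℝ) • g x.ofLp)).1
    rw [ds] at a1
    exact ((one_dist y.ofLp x.ofLp).2.trans (mul_le_mul_of_nonneg_left hy n0.le)).trans a1

end Pool.Agent.Lib.MP_ecd4e3_gt.N
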