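import Pool.Agent.Lib.MP_ecd4e3_gt.N.LDefs

/-! Coordinate planes, weights of faces and starting times. -/

namespace Pool.Agent.Lib.MP_ecd4e3_gt.N

open Set Filter Topology Metric MeasureTheory
open scoped NNReal ENNReal

variable {ι : Type} [Fintype ι] [DecidableEq ι]

theorem isometry_emb (S : Finset ι) (b : E ι) : Isometry (emb S b) := by
  refine Isometry.of_dist_eq fun x y => le_antisymm
    ((dist_pi_le_iff dist_nonneg).2 fun i => ?_) ((dist_pi_le_iff dist_nonneg).2 fun i => ?_)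
  · by_cases h : i ∈ S
    · simp only [emb, dif_pos h]
      exact dist_le_pi_dist x y _
    · simp only [emb, dif_neg h, dist_self]
      exact dist_nonneg
  · have := dist_le_pi_dist (emb S b x) (emb S b y) i
    simpa only [emb, dif_pos i.2] using this

theorem emb_apply_mem (S : Finset ι) (b : E ι) (x : E S) (i : S) : emb S b x i = x i :=
  dif_pos i.2

theorem emb_apply_not {S : Finset ι} (b : E ι) (x : E S) {i : ι} (h : i ∉ S) : emb S b x i = b i :=
  dif_neg h

theorem emb_restrict {S : Finset ι} {b x : E ι} (h : ∀ i ∉ S, x i = b i) :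
    emb S b (fun i => x i) = x := by
  funext i
  by_cases hi : i ∈ S
  · exact dif_pos hi
  · rw [emb_apply_not _ _ hi, h i hi]

theorem embB_set (S : Finset ι) (b : E ι) (G : Bx S) : (embB S b G).set = emb S b '' G.set := by
  ext x
  rw [Bx.mem_set]
  constructor
  · intro h
    refine ⟨fun i => x i, Bx.mem_set.2 fun i => ?_, emb_restrict fun i hi => ?_⟩
    · have := h i
      simpa only [embB, emb_apply_mem] using this
    · have := h i
      simp only [embB, emb_apply_not _ _ hi] at this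
      exact le_antisymm this.2 this.1
  · rintro ⟨y, hy, rfl⟩ i
    by_cases hi : i ∈ S
    · simp only [embB, emb, dif_pos hi]
      exact Bx.mem_set.1 hy _
    · simp only [embB, emb, dif_neg hi, le_refl, and_self]

omit [DecidableEq ι] in
theorem Bx.mem_fr {F : Bx ι} {i : ι} : i ∈ F.fr ↔ F.lo i ≠ F.hi i := by
  simp [Bx.fr]

theorem embB_fr_map (S : Finset ι) (b : E ι) (F : Bx S) :
    (embB S b F).fr = F.fr.map (Function.Embedding.subtype _) := by
  ext i
  rw [Bx.mem_fr, Finset.mem_map]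
  by_cases hi : i ∈ S
  · simp only [embB, emb, dif_pos hi]
    exact ⟨fun h => ⟨⟨i, hi⟩, Bx.mem_fr.2 h, rfl⟩, fun ⟨j, hj, e⟩ => by
      obtain rfl : j = ⟨i, hi⟩ := Subtype.ext e
      exact Bx.mem_fr.1 hj⟩
  · simp only [embB, emb, dif_neg hi]
    exact ⟨fun h => absurd rfl h, fun ⟨j, _, e⟩ => absurd (e ▸ j.2) hi⟩

theorem embB_face {S : Finset ι} {b : E ι} {k : ℤ} (hb : ∀ i ∉ S, Lat k (b i)) {F : Bx S}
    (hF : Face k F) : Face k (embB S b F) ∧ (embB S b F).fr.card = F.fr.card := by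
  refine ⟨fun i => ?_, by rw [embB_fr_map, Finset.card_map]⟩
  by_cases hi : i ∈ S
  · simp only [embB, emb, dif_pos hi]
    exact hF _
  · simp only [embB, emb, dif_neg hi]
    exact ⟨hb i hi, Or.inl trivial⟩

theorem embB_fr {S : Finset ι} (b : E ι) {G : Bx S} (hG : G.Pos) : (embB S b G).fr = S := by
  ext i
  rw [Bx.mem_fr]
  by_cases hi : i ∈ S
  · simp only [embB, emb, dif_pos hi]
    exact ⟨fun _ => hi, fun _ => (hG _).ne⟩
  · simp only [embB, emb, dif_neg hi]
    exact ⟨fun h => absurd rfl h, fun h => absurd h hi⟩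

omit [DecidableEq ι] in
theorem Face.hi_eq {k : ℤ} {F : Bx ι} (hF : Face k F) {i : ι} (hi : i ∈ F.fr) :
    F.hi i = F.lo i + 2 ^ k :=
  (hF i).2.resolve_left fun e => Bx.mem_fr.1 hi e.symm

omit [DecidableEq ι] in
theorem Bx.eq_of_not_fr {F : Bx ι} {i : ι} (hi : i ∉ F.fr) : F.lo i = F.hi i := by
  rwa [Bx.mem_fr, not_not] at hi

/-- A face inside the boundary of a cube has a frozen coordinate. -/
theorem Face.card_lt {k : ℤ} {F G : Bx ι} (hF : Face k F) (hG : Cube k G) (h : F.set ⊆ G.bd) :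
    F.fr.card < Fintype.card ι := by
  refine (Finset.card_lt_iff_ne_univ _).2 fun e => ?_
  have h1 : ∀ i, F.hi i = F.lo i + 2 ^ k := fun i => hF.hi_eq (e ▸ Finset.mem_univ i)
  have ps : (0 : ℝ) < 2 ^ k := zpow_pos two_pos k
  obtain ⟨-, i, hi⟩ := h (show F.mid ∈ F.set from Bx.mem_set.2 fun i => by
    simp only [Bx.mid, h1]
    constructor <;> linarith only [ps])
  have h2 : Lat k (F.mid i) := by
    rcases hi with hi | hi <;> rw [hi]
    · exact (hG.face.lat i).1
    · exact (hG.face.lat i).2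
  have h3 := (hF i).1.gap h2 (by simp only [Bx.mid, h1]; linarith only [ps])
  simp only [Bx.mid, h1] at h3
  linarith only [ps, h3]

/-- Every face is a cube in its plane. -/
theorem Face.eq_embB {k : ℤ} {F : Bx ι} (hF : Face k F) {b : E ι} (hb : ∀ i ∉ F.fr, b i = F.lo i) :
    Cube k (⟨fun i => F.lo i, fun i => F.hi i⟩ : Bx F.fr) ∧
      embB F.fr b ⟨fun i => F.lo i, fun i => F.hi i⟩ = F ∧ ∀ i ∉ F.fr, Lat k (b i) := by
  refine ⟨fun i => ⟨(hF i).1, hF.hi_eq i.2⟩, Bx.ext' ?_ ?_, fun i hi => hb i hi ▸ (hF i).1⟩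
  · exact emb_restrict fun i hi => (hb i hi).symm
  · exact emb_restrict fun i hi => by rw [hb i hi, Bx.eq_of_not_fr hi]

theorem Face.fr_mono {k : ℤ} {F F' : Bx ι} (hF : Face k F) (hF' : Face k F')
    (h : F'.set ⊆ F.set) : F'.fr ⊆ F.fr ∧ (F'.fr.card = F.fr.card → F' = F) := by
  have h1 := (Bx.subset_iff hF'.le).1 h
  have h2 : F'.fr ⊆ F.fr := fun i hi => Bx.mem_fr.2 fun e => Bx.mem_fr.1 hi
    (le_antisymm (hF'.le i) (by linarith only [(h1 i).1, (h1 i).2, e]))
  refine ⟨h2, fun e => ?_⟩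
  have h3 := Finset.eq_of_subset_of_card_le h2 e.ge
  have h4 : ∀ i, F'.lo i = F.lo i ∧ F'.hi i = F.hi i := fun i => by
    have a1 := (h1 i).1
    have a2 := (h1 i).2
    by_cases hi : i ∈ F.fr
    · have a3 := hF.hi_eq hi
      have a4 := hF'.hi_eq (h3 ▸ hi)
      constructor <;> linarith only [a1, a2, a3, a4]
    · have a3 := Bx.eq_of_not_fr hi
      have a4 := hF'.le i
      constructor <;> linarith only [a1, a2, a3, a4]
  exact Bx.ext' (funext fun i => (h4 i).1) (funext fun i => (h4 i).2)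

theorem faceAt_fr {k j : ℤ} (hj : j ≤ k) {F : Bx ι} (hF : Face k F) {x : E ι} (hx : x ∈ F.set) :
    (faceAt j x).fr ⊆ F.fr := by
  intro i hi
  by_contra h
  have h1 := Bx.eq_of_not_fr h
  have h2 := Bx.mem_set.1 hx i
  have h3 : x i = F.lo i := le_antisymm (h1 ▸ h2.2) h2.1
  have h4 : fl j (x i) = x i := fl_eq (h3 ▸ (hF i).1.of_le hj) le_rfl
    (lt_add_of_pos_right _ (zpow_pos two_pos j))
  exact Bx.mem_fr.1 hi (by simp [faceAt, h4])

/-- Between a face and a proper subface there is a facet. -/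
theorem Face.exists_facet {k : ℤ} {F F' : Bx ι} (hF : Face k F) (hF' : Face k F')
    (h : F'.set ⊆ F.set) (hc : F'.fr.card < F.fr.card) :
    ∃ F'', Face k F'' ∧ F'.set ⊆ F''.set ∧ F''.set ⊆ F.set ∧ F''.fr.card + 1 = F.fr.card := by
  obtain ⟨i, hi, hi'⟩ := Finset.exists_mem_notMem_of_card_lt_card hc
  have h1 := (Bx.subset_iff hF'.le).1 h
  have h2 := Bx.eq_of_not_fr hi'
  have h3 : Face k ⟨Function.update F.lo i (F'.lo i), Function.update F.hi i (F'.lo i)⟩ :=
    fun l => by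
      by_cases e : l = i
      · subst e
        simp only [Function.update_self]
        exact ⟨(hF' l).1, Or.inl trivial⟩
      · simp only [Function.update_of_ne e]
        exact hF l
  refine ⟨_, h3, (Bx.subset_iff hF'.le).2 fun l => ?_, (Bx.subset_iff h3.le).2 fun l => ?_, ?_⟩
  · by_cases e : l = i
    · subst e
      simp only [Function.update_self]
      exact ⟨le_rfl, h2.ge⟩
    · simp only [Function.update_of_ne e]
      exact h1 l
  · by_cases e : l = i
    · subst e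
      simp only [Function.update_self]
      exact ⟨(h1 l).1, h2.le.trans (h1 l).2⟩
    · simp only [Function.update_of_ne e, le_refl, and_self]
  · rw [← Finset.card_erase_add_one hi]
    congr 2
    ext l
    rw [Finset.mem_erase, Bx.mem_fr, Bx.mem_fr]
    by_cases e : l = i
    · subst e
      simp
    · simp [e]


variable {V : Set (E ι)} {w : Finset ι → E ι → ℝ≥0∞}

omit [DecidableEq ι] in
theorem vol_unit : volume (Icc (0 : E ι) 1) = 1 := by
  simp [Real.volume_Icc_pi]

omit [DecidableEq ι] in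
theorem Bx.measurable_pt (F : Bx ι) : Measurable F.pt := by
  unfold Bx.pt
  fun_prop

/-- Affine change of variables. -/
theorem lint_pt {G : Bx ι} (hG : G.Pos) {g : E ι → ℝ≥0∞} (hg : Measurable g) :
    ∫⁻ x in G.set, g x = ENNReal.ofReal G.vol * ∫⁻ t in Icc (0 : E ι) 1, g (G.pt t) := by
  have h1 : (Matrix.diagonal G.sd).det = G.vol := by rw [Matrix.det_diagonal, Bx.vol]
  have h2 := Real.smul_map_diagonal_volume_pi (D := G.sd) (by rw [h1]; exact hG.vol_pos.ne')
  rw [h1, abs_of_pos hG.vol_pos] at h2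
  have h3 : G.pt = (fun y => G.lo + y) ∘ Matrix.toLin' (Matrix.diagonal G.sd) := by
    funext t i
    simp [Bx.pt, Bx.sd, Matrix.mulVec_diagonal, mul_comm]
  have h4 : ENNReal.ofReal G.vol • Measure.map G.pt volume = volume := by
    rw [h3, ← Measure.map_map (measurable_const_add _)
      (LinearMap.continuous_on_pi _).measurable, ← Measure.map_smul, h2, map_add_left_eq_self]
  have h5 : G.pt ⁻¹' G.set = Icc 0 1 := by
    ext t
    rw [mem_preimage, Bx.mem_set, mem_Icc, Pi.le_def, Pi.le_def, ← forall_and]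
    refine forall_congr' fun i => ?_
    have a1 := sub_pos.2 (hG i)
    simp only [Bx.pt, Pi.zero_apply, Pi.one_apply]
    constructor
    · rintro ⟨a2, a3⟩
      constructor <;> nlinarith only [a2, a1, a3]
    · rintro ⟨a2, a3⟩
      constructor <;> nlinarith only [a1, a2, a3]
  conv_lhs => rw [← h4]
  rw [setLIntegral_smul_measure, setLIntegral_map G.isClosed_set.measurableSet hg G.measurable_pt,
    h5, smul_eq_mul]

theorem den_pt {G : Bx ι} (hG : G.Pos) {g : E ι → ℝ≥0∞} (hg : Measurable g) :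
    G.den (volume.withDensity g) = (∫⁻ t in Icc (0 : E ι) 1, g (G.pt t)).toReal := by
  rw [Bx.den, withDensity_apply _ G.isClosed_set.measurableSet, lint_pt hG hg, ENNReal.toReal_mul,
    ENNReal.toReal_ofReal hG.vol_pos.le, mul_div_cancel_left₀ _ hG.vol_pos.ne']

omit [DecidableEq ι] in
theorem restrict_unit : (volume : Measure (E ι)).restrict (Icc 0 1) =
    Measure.pi fun _ => (volume : Measure ℝ).restrict (Icc 0 1) := by
  rw [← pi_univ_Icc, volume_pi, Measure.restrict_pi_pi]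
  rfl

/-- Functions of the coordinates in `S`. -/
theorem lint_restrict (S : Finset ι) {g : E S → ℝ≥0∞} (hg : Measurable g) :
    ∫⁻ t in Icc (0 : E ι) 1, g (fun i => t i) = ∫⁻ s in Icc (0 : E S) 1, g s := by
  have : IsProbabilityMeasure ((volume : Measure ℝ).restrict (Icc 0 1)) := ⟨by simp⟩
  have h1 := measurePreserving_fst.comp (measurePreserving_piEquivPiSubtypeProd
    (fun _ : ι => (volume : Measure ℝ).restrict (Icc 0 1)) (· ∈ S))
  rw [restrict_unit, restrict_unit]
  convert h1.lintegral_comp hg using 1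
  · rfl
  · congr
    exact Subsingleton.elim _ _

theorem Wt.rho_bd (h : Wt V w) (F : Bx ι) : 0 < rho w F ∧ rho w F ≤ 1 := by
  constructor
  · refine (setLIntegral_pos_iff ((h.meas _).comp F.measurable_pt)).2 ?_
    have : Function.support (w F.fr ∘ F.pt) = univ :=
      eq_univ_of_forall fun t => (h.pos _ _).ne'
    rw [this, univ_inter, vol_unit]
    exact one_pos
  · refine (lintegral_mono fun t => h.le _ _).trans ?_
    rw [setLIntegral_one, vol_unit]

theorem Wt.rho_one (h : Wt V w) {F : Bx ι} (hl : ∀ i, F.lo i ≤ F.hi i) (hF : F.set ⊆ V) :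
    rho w F = 1 := by
  rw [rho, setLIntegral_congr_fun measurableSet_Icc (g := fun _ => 1) fun t ht => h.one _ _ (hF ?_),
    setLIntegral_one, vol_unit]
  refine Bx.mem_set.2 fun i => ?_
  have a1 : 0 ≤ t i := ht.1 i
  have a2 : t i ≤ 1 := ht.2 i
  have a3 := sub_nonneg.2 (hl i)
  simp only [Bx.pt]
  constructor <;> nlinarith only [a1, a3, a2]

theorem Wt.nuP_le (h : Wt V w) (S : Finset ι) (b : E ι) : nuP w S b ≤ volume :=
  (withDensity_mono (Eventually.of_forall fun _ => h.le _ _)).trans_eq withDensity_one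

theorem Wt.top_le (h : Wt V w) : volume.withDensity (w Finset.univ) ≤ volume :=
  (withDensity_mono (Eventually.of_forall fun _ => h.le _ _)).trans_eq withDensity_one

theorem Wt.den_eq (h : Wt V w) (S : Finset ι) (b : E ι) {G : Bx S} (hG : G.Pos) :
    G.den (nuP w S b) = (rho w (embB S b G)).toReal := by
  have h1 : Measurable fun x => w S (emb S b x) :=
    (h.meas S).comp (isometry_emb S b).continuous.measurable
  rw [nuP, den_pt hG h1, rho, embB_fr b hG,
    ← lint_restrict S (g := fun t => w S (emb S b (G.pt t))) (h1.comp G.measurable_pt)]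
  congr 2
  funext t
  congr 1
  funext i
  by_cases hi : i ∈ S
  · simp only [embB, emb, Bx.pt, dif_pos hi]
  · simp only [embB, emb, Bx.pt, dif_neg hi, sub_self, mul_zero, add_zero]

omit [DecidableEq ι] in
theorem Bx.fr_pos {G : Bx ι} (hG : G.Pos) : G.fr = Finset.univ :=
  Finset.eq_univ_of_forall fun i => Bx.mem_fr.2 (hG i).ne

theorem Wt.den_top (h : Wt V w) {G : Bx ι} (hG : G.Pos) :
    G.den (volume.withDensity (w Finset.univ)) = (rho w G).toReal := by
  rw [den_pt hG (h.meas _), rho, Bx.fr_pos hG]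


theorem Wt.rho_pos (h : Wt V w) (F : Bx ι) : 0 < (rho w F).toReal :=
  ENNReal.toReal_pos (h.rho_bd F).1.ne' (ne_top_of_le_ne_top ENNReal.one_ne_top (h.rho_bd F).2)

theorem Wt.fac_real (h : Wt V w) {k : ℤ} {F F' : Bx ι} (hF : Face k F) (hF' : Face k F')
    (hs : F'.set ⊆ F.set) (hc : F'.fr.card + 1 = F.fr.card) (hn : F'.fr.Nonempty) :
    (rho w F').toReal ^ gam ι ≤ 4 * (rho w F).toReal := by
  have h1 := ENNReal.toReal_mono (ENNReal.mul_ne_top (by simp)
    (ne_top_of_le_ne_top ENNReal.one_ne_top (h.rho_bd F).2)) (h.fac k F F' hF hF' hs hc hn)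
  rwa [← ENNReal.toReal_rpow, ENNReal.toReal_mul, ENNReal.toReal_ofNat] at h1

theorem thr_zpow {B : ℝ} (hB : 4 ≤ B) (d : ℕ) (i : ℤ) :
    (B ^ d * √B) ^ i = B ^ (((d : ℝ) + 1 / 2) * i) := by
  have pB : 0 < B := by linarith only [hB]
  rw [Real.rpow_mul pB.le, Real.rpow_intCast, Real.rpow_add pB, Real.rpow_natCast,
    Real.sqrt_eq_rpow]

theorem one_lt_thr {B : ℝ} (hB : 4 ≤ B) (d : ℕ) : 1 < B ^ d * √B := by
  have h := thr_zpow hB d 1
  rw [zpow_one] at h
  rw [h]
  exact Real.one_lt_rpow (by linarith only [hB]) (by push_cast; positivity)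

theorem exists_thr {ρ r D : ℝ} (hρ : 0 < ρ) (hr : 0 < r) (hD : 1 < D) :
    ∃ a : ℤ, a ≤ 0 ∧ ∀ i : ℤ, i < 0 → (a ≤ i ↔ ρ ≤ r * D ^ i) := by
  have mono : ∀ i j : ℤ, i ≤ j → r * D ^ i ≤ r * D ^ j := fun i j hij =>
    mul_le_mul_of_nonneg_left (zpow_le_zpow_right₀ hD.le hij) hr.le
  obtain ⟨m, hm⟩ := exists_mem_Ioc_zpow (div_pos hρ hr) hD
  obtain ⟨a, h1, h2⟩ := Int.exists_least_of_bdd (P := fun i : ℤ => i = 0 ∨ ρ ≤ r * D ^ i)
    ⟨min m 0, fun z hz => by
      rcases hz with rfl | hz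
      · exact min_le_right _ _
      · refine (min_le_left _ _).trans (not_lt.1 fun hlt => ?_)
        have a1 := (lt_div_iff₀' hr).1 hm.1
        linarith only [mono z m hlt.le, hz, a1, hlt]⟩ ⟨0, Or.inl rfl⟩
  refine ⟨a, h2 0 (Or.inl rfl), fun i hi => ⟨fun hai => ?_, fun h => h2 i (Or.inr h)⟩⟩
  exact (h1.resolve_left (by omega)).trans (mono a i hai)

omit [DecidableEq ι] in
theorem gam_bd [Nonempty ι] : 1 ≤ gam ι ∧ ((Fintype.card ι : ℝ) - 1 / 2) * (gam ι - 1) ≤ 1 := by
  have h1 : (1 : ℝ) ≤ Fintype.card ι := by exact_mod_cast Fintype.card_pos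
  have h2 : (0 : ℝ) < 4 * Fintype.card ι - 2 := by linarith only [h1]
  have h3 : gam ι - 1 = 1 / (4 * Fintype.card ι - 2) := by
    rw [gam]
    field_simp
    ring
  constructor
  · have := one_div_pos.2 h2
    linarith only [h3, this]
  · rw [h3, mul_one_div, div_le_one h2]
    linarith only [h1]

theorem thr_step {B γ r x : ℝ} {N d : ℕ} {i : ℤ} (hB : 4 ≤ B) (g1 : 1 ≤ γ)
    (g2 : ((N : ℝ) - 1 / 2) * (γ - 1) ≤ 1) (hd : d + 1 ≤ N) (hr : 0 < r) (hx : 0 ≤ x) (hi : i < 0)
    (h : x ^ γ ≤ (r / (B ^ d * √B)) ^ γ * (B ^ (d + 1) * √B) ^ i) :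
    x ≤ r * (B ^ d * √B) ^ (i - 1) := by
  have pB : 0 < B := by linarith only [hB]
  have pD : 0 < B ^ d * √B := one_pos.trans (one_lt_thr hB d)
  have h1 : (B ^ (d + 1) * √B) ^ i ≤ ((B ^ d * √B) ^ i) ^ γ := by
    rw [thr_zpow hB, thr_zpow hB, ← Real.rpow_mul pB.le]
    refine Real.rpow_le_rpow_of_exponent_le (by linarith only [hB]) ?_
    have a1 : (i : ℝ) < 0 := by exact_mod_cast hi
    have a2 : (d : ℝ) + 1 ≤ N := by exact_mod_cast hd
    have a3 : ((d : ℝ) + 1 / 2) * (γ - 1) ≤ 1 :=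
      (mul_le_mul_of_nonneg_right (by linarith only [a2]) (by linarith only [g1])).trans g2
    push_cast
    nlinarith only [a1, a3]
  have h2 : 0 < r / (B ^ d * √B) := div_pos hr pD
  have h3 := h.trans (mul_le_mul_of_nonneg_left h1 (Real.rpow_pos_of_pos h2 γ).le)
  rw [← Real.mul_rpow h2.le (zpow_pos pD i).le,
    Real.rpow_le_rpow_iff hx (mul_pos h2 (zpow_pos pD i)).le (by linarith only [g1])] at h3
  refine h3.trans_eq ?_
  rw [zpow_sub_one₀ pD.ne']
  ring

theorem exists_AL [Nonempty ι] {B : ℝ} (hB : 4 ≤ B) : ∃ r : ℕ → ℝ, ∀ (V : Set (E ι))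
    (w : Finset ι → E ι → ℝ≥0∞), Wt V w → ∃ a al, AL w B r a al := by
  classical
  have pB : 0 < B := by linarith only [hB]
  have hD := one_lt_thr hB
  obtain ⟨g1, g2⟩ := gam_bd (ι := ι)
  let r : ℕ → ℝ := fun d => Nat.rec 1 (fun d x => (x / (B ^ d * √B)) ^ gam ι / 4) d
  have hr : ∀ d, r (d + 1) = (r d / (B ^ d * √B)) ^ gam ι / 4 := fun d => rfl
  have pr : ∀ d, 0 < r d ∧ r d ≤ 1 := fun d => by
    induction d with
    | zero => exact ⟨one_pos, le_rfl⟩
    | succ d ih =>
      have a1 : 0 < r d / (B ^ d * √B) := div_pos ih.1 (one_pos.trans (hD d))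
      have a2 : r d / (B ^ d * √B) ≤ 1 := (div_le_one (one_pos.trans (hD d))).2
        (ih.2.trans (hD d).le)
      have a3 := Real.rpow_le_one a1.le a2 (zero_le_one.trans g1)
      have a4 := Real.rpow_pos_of_pos a1 (gam ι)
      rw [hr]
      constructor <;> linarith only [a4, a3]
  refine ⟨r, fun V w h => ?_⟩
  choose a a0 ath using fun F : Bx ι =>
    exists_thr (h.rho_pos F) (pr F.fr.card).1 (hD F.fr.card)
  have step : ∀ k F F', Face k F → Face k F' → F'.set ⊆ F.set → F'.fr.card + 1 = F.fr.card →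
      F'.fr.Nonempty → a F < 0 → a F' + 1 ≤ a F := by
    intro k F F' hF hF' hs hc hn ha
    have a1 := h.fac_real hF hF' hs hc hn
    have a2 := (ath F (a F) ha).1 le_rfl
    rw [← hc, hr] at a2
    have a3 : F'.fr.card + 1 ≤ Fintype.card ι := hc ▸ Finset.card_le_univ _
    have a4 := (ath F' (a F - 1) (by omega)).2
      (thr_step hB g1 g2 a3 (pr _).1 (h.rho_pos F').le ha (by linarith only [a1, a2]))
    omega
  have key : ∀ k (n : ℕ) F F', Face k F → Face k F' → F'.set ⊆ F.set →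
      F.fr.card = F'.fr.card + n + 1 → F'.fr.Nonempty → a F < 0 → a F' + 1 ≤ a F := by
    intro k n
    induction n with
    | zero => exact fun F F' hF hF' hs hc => step k F F' hF hF' hs hc.symm
    | succ n ih =>
      intro F F' hF hF' hs hc hn ha
      obtain ⟨F'', b1, b2, b3, b4⟩ := hF.exists_facet hF' hs (by omega)
      have b5 := step k F F'' hF b1 b3 b4 (hn.mono (b1.fr_mono hF' b2).1) ha
      have b6 := ih F'' F' b1 hF' b2 (by omega) hn (by omega)
      omega
  refine ⟨a, fun F => if F.fr = ∅ then 0 else B ^ a F, pr, fun F hF => if_pos hF,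
    fun F hF => if_neg hF.ne_empty, a0, fun k F _ => ath F, fun k F F' hF hF' hs hc => ?_⟩
  have b1 : F.fr ≠ ∅ := (Finset.card_pos.1 (by omega)).ne_empty
  have b2 := zpow_pos pB (a F)
  have b3 : (1 : ℝ) ≤ B := by linarith only [hB]
  simp only [if_neg b1]
  by_cases b4 : F'.fr = ∅
  · simp only [if_pos b4, zero_mul]
    exact ⟨b2.le, fun _ => b2.le⟩
  · simp only [if_neg b4]
    have b5 := key k (F.fr.card - F'.fr.card - 1) F F' hF hF' hs (by omega)
      (Finset.nonempty_iff_ne_empty.2 b4)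
    have b6 := a0 F
    have b7 := a0 F'
    refine ⟨zpow_le_zpow_right₀ b3 (by omega), fun b8 => ?_⟩
    have b9 : a F < 0 := lt_of_le_of_ne b6 fun e => by simp [e] at b8
    rw [← zpow_add_one₀ pB.ne']
    exact zpow_le_zpow_right₀ b3 (b5 b9)


/-- The time of a facet is controlled by the density of the cube. -/
theorem exists_top [Nontrivial ι] {B : ℝ} (hB : 4 ≤ B) (r : ℕ → ℝ) {T : ℤ} (hT : 0 ≤ T) :
    ∃ A : ℝ, 1 ≤ A ∧ ∀ (V : Set (E ι)) (w : Finset ι → E ι → ℝ≥0∞) a al, Wt V w → AL w B r a al →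
      ∀ k G F, Cube k G → Face k F → F.set ⊆ G.bd →
        al F ≤ 1 ∧ al F * B ≤ A * (rho w G).toReal ^ thN ι ∧
          (1 ≤ al F * B → B ^ T ≤ A * (rho w G).toReal ^ thN ι) := by
  have pB : 0 < B := by linarith only [hB]
  have b3 : (1 : ℝ) ≤ B := by linarith only [hB]
  have hN : 1 < Fintype.card ι := Fintype.one_lt_card
  obtain ⟨d, hd⟩ : ∃ d, Fintype.card ι = d + 1 := ⟨Fintype.card ι - 1, by omega⟩
  have pD : 0 < B ^ d * √B := one_pos.trans (one_lt_thr hB d)
  have pT : 1 ≤ B ^ T := one_le_zpow₀ b3 hT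
  have hd0 : (0 : ℝ) ≤ d := Nat.cast_nonneg d
  have pθ : 0 < thN ι := by
    rw [thN, hd]
    push_cast
    exact div_pos four_pos (by linarith only [])
  have hθ : ((d : ℝ) + 1 / 2) * gam ι * thN ι = 1 := by
    rw [gam, thN, hd]
    push_cast
    have a1 : 4 * ((d : ℝ) + 1) - 2 ≠ 0 := by linarith only []
    have a2 : 4 * ((d : ℝ) + 1) - 1 ≠ 0 := by linarith only []
    field_simp
    ring
  have g1 := (gam_bd (ι := ι)).1
  refine ⟨max 1 (B ^ T * (B / ((r d / (B ^ d * √B)) ^ gam ι / 4) ^ thN ι)), le_max_left _ _,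
    fun V w a al h ha k G F hG hF hs => ?_⟩
  have c1 : G.fr.card = d + 1 := by rw [Bx.fr_pos hG.lb.pos, Finset.card_univ, hd]
  obtain ⟨F', b1, b2, b4, b5⟩ := hG.face.exists_facet hF (hs.trans G.bd_subset)
    (by rw [c1, ← hd]; exact hF.card_lt hG hs)
  have c2 : F'.fr.card = d := by omega
  have c3 : F'.fr.Nonempty := Finset.card_pos.1 (by omega)
  have c4 : al F ≤ B ^ a F' := by
    rw [← ha.eq F' c3]
    obtain ⟨a1, a2⟩ := b1.fr_mono hF b2
    rcases (Finset.card_le_card a1).lt_or_eq with a3 | a3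
    · exact (ha.sub k F' F b1 hF b2 a3).1
    · rw [a2 a3]
  have c5 : r d * (B ^ d * √B) ^ (a F' - 1) < (rho w F').toReal := by
    rw [← c2]
    exact not_le.1 fun a1 => by
      have := (ha.ath k F' b1 (a F' - 1) (by have := ha.a0 F'; omega)).2 a1
      omega
  have pr := (ha.pr d).1
  have c6 : 0 < r d / (B ^ d * √B) := div_pos pr pD
  have c7 : 0 < (r d / (B ^ d * √B)) ^ gam ι / 4 := div_pos (Real.rpow_pos_of_pos c6 _) four_pos
  have c8 : (r d / (B ^ d * √B)) ^ gam ι / 4 * ((B ^ d * √B) ^ a F') ^ gam ι ≤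
      (rho w G).toReal := by
    have a1 := h.fac_real hG.face b1 b4 b5 c3
    have a2 : r d * (B ^ d * √B) ^ (a F' - 1) = r d / (B ^ d * √B) * (B ^ d * √B) ^ a F' := by
      rw [zpow_sub_one₀ pD.ne']
      ring
    rw [a2] at c5
    have a3 := Real.rpow_le_rpow (mul_pos c6 (zpow_pos pD _)).le c5.le (zero_le_one.trans g1)
    rw [Real.mul_rpow c6.le (zpow_pos pD _).le] at a3
    linarith only [a1, a3]
  have c9 := Real.rpow_le_rpow (mul_pos c7 (Real.rpow_pos_of_pos (zpow_pos pD _) _)).le c8 pθ.le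
  rw [Real.mul_rpow c7.le (Real.rpow_pos_of_pos (zpow_pos pD _) _).le, thr_zpow hB,
    ← Real.rpow_mul pB.le, ← Real.rpow_mul pB.le,
    show ((d : ℝ) + 1 / 2) * (a F' : ℝ) * gam ι * thN ι = (a F' : ℝ) by
      linear_combination (a F' : ℝ) * hθ, Real.rpow_intCast] at c9
  have c10 := Real.rpow_pos_of_pos c7 (thN ι)
  have c11 := Real.rpow_pos_of_pos (h.rho_pos G) (thN ι)
  generalize ((r d / (B ^ d * √B)) ^ gam ι / 4) ^ thN ι = c at c9 c10 ⊢
  generalize (rho w G).toReal ^ thN ι = y at c9 c11 ⊢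
  have c12 : al F * B ≤ B / c * y := by
    rw [div_mul_eq_mul_div, le_div_iff₀ c10]
    have := mul_le_mul_of_nonneg_left c4 c10.le
    nlinarith only [c9, this, hB]
  have c13 : B ^ T * (B / c) * y ≤ max 1 (B ^ T * (B / c)) * y :=
    mul_le_mul_of_nonneg_right (le_max_right _ _) c11.le
  have c14 : 0 < B / c * y := mul_pos (div_pos pB c10) c11
  refine ⟨c4.trans (zpow_le_one_of_nonpos₀ b3 (ha.a0 F')), ?_, fun c15 => ?_⟩ <;> nlinarith

end Pool.Agent.Lib.MP_ecd4e3_gt.N
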