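import Pool.Agent.Lib.MP_ecd4e3_gt.N.XDefs

/-! Means over the cubes of the grid. -/

namespace Pool.Agent.Lib.MP_ecd4e3_gt.N

open Set Filter Topology Metric MeasureTheory
open scoped NNReal ENNReal

variable {ι : Type} [Fintype ι] [DecidableEq ι] [Nonempty ι]

set_option linter.unusedSectionVars false

theorem measurable_flv (m : ℤ) : Measurable (flv m : E ι → E ι) :=
  measurable_pi_lambda _ fun i => (measurable_fl m).comp (measurable_pi_apply i)

theorem flv_dist (m : ℤ) (y : E ι) : dist y (flv m y) ≤ 2 ^ m := by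
  refine (dist_pi_le_iff (two_pos_g m).le).2 fun i => ?_
  have h1 := fl_le m (y i)
  have h2 := lt_fl m (y i)
  rw [Real.dist_eq, abs_le]
  simp only [flv]
  constructor <;> linarith only [two_pos_g m, h1, h2]

theorem flv_flv {m m' : ℤ} (h : m ≤ m') (y : E ι) : flv m' (flv m y) = flv m' y := by
  funext i
  exact fl_eq (lat_fl m' _) (((lat_fl m' (y i)).of_le h).le_fl_g (fl_le m' _))
    ((fl_le m _).trans_lt (lt_fl m' _))

theorem flv_add_int (m : ℤ) (y : E ι) (o : ι → ℤ) :
    flv m (y + (2 : ℝ) ^ m • fun i => (o i : ℝ)) = flv m y + (2 : ℝ) ^ m • fun i => (o i : ℝ) := by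
  funext i
  simp only [flv, Pi.add_apply, Pi.smul_apply, smul_eq_mul]
  refine fl_eq ?_ ?_ ?_
  · rw [mul_comm]; exact (lat_fl m _).add_int _
  · linarith only [fl_le m (y i)]
  · linarith only [lt_fl m (y i)]

/-- Nearby points lie in neighbouring cubes. -/
theorem flv_near {m : ℤ} {y y' : E ι} {r : ℕ} (h : dist y' y ≤ r * 2 ^ m) :
    ∃ o : ι → ℤ, (∀ i, |o i| ≤ r) ∧ flv m y' = flv m (y + (2 : ℝ) ^ m • fun i => (o i : ℝ)) := by
  choose o ho using fun i => (lat_fl m (y i)).sub_int (lat_fl m (y' i))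
  refine ⟨o, fun i => ?_, ?_⟩
  · have h0 := (dist_le_pi_dist y' y i).trans h
    rw [Real.dist_eq, abs_le] at h0
    have h1 := fl_le m (y i)
    have h2 := lt_fl m (y i)
    have h3 := fl_le m (y' i)
    have h4 := lt_fl m (y' i)
    have h5 := ho i
    have h6 : (o i : ℝ) < r + 1 := lt_of_mul_lt_mul_right (by linarith only [h0, h2, h3, h5]) (two_pos_g m).le
    have h7 : -(o i : ℝ) < r + 1 := lt_of_mul_lt_mul_right (by linarith only [h0, h1, h4, h5]) (two_pos_g m).le
    have h8 : o i < r + 1 := by exact_mod_cast h6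
    have h9 : -o i < r + 1 := by exact_mod_cast h7
    rw [abs_le]
    omega
  · rw [flv_add_int]
    funext i
    simp only [flv, Pi.add_apply, Pi.smul_apply, smul_eq_mul]
    rw [ho i, mul_comm]

/-- Almost every point of the closed cube lies in the half-open cube. -/
theorem flv_ae (m : ℤ) (y : E ι) :
    ∀ᵐ t ∂volume.restrict (Icc (0 : E ι) 1), flv m (flv m y + (2 : ℝ) ^ m • t) = flv m y := by
  have h : (univ.pi fun i => Ico ((0 : E ι) i) ((1 : E ι) i)) =ᵐ[volume] Icc (0 : E ι) 1 :=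
    Measure.univ_pi_Ico_ae_eq_Icc
  rw [← Measure.restrict_congr_set h]
  filter_upwards [ae_restrict_mem (MeasurableSet.univ_pi fun i => measurableSet_Ico)] with t ht
  funext i
  have h1 : 0 ≤ t i ∧ t i < 1 := ht i (mem_univ i)
  simp only [flv, Pi.add_apply, Pi.smul_apply, smul_eq_mul]
  refine fl_eq (lat_fl m _) ?_ ?_
  · nlinarith only [two_pos_g m, h1]
  · nlinarith only [two_pos_g m, h1]

theorem Em_congr {m : ℤ} {y y' : E ι} (h : flv m y = flv m y') (F : E ι → ℝ≥0∞) :
    Em m F y = Em m F y' := by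
  unfold Em
  rw [h]

theorem xc_vol_unit : volume (Icc (0 : E ι) 1) = 1 := by
  rw [Real.volume_Icc_pi]
  simp

theorem Em_const (m : ℤ) (c : ℝ≥0∞) (y : E ι) : Em m (fun _ => c) y = c := by
  rw [Em, setLIntegral_const, xc_vol_unit, mul_one]

theorem Em_mono (m : ℤ) {F G : E ι → ℝ≥0∞} (h : ∀ x, F x ≤ G x) (y : E ι) :
    Em m F y ≤ Em m G y := lintegral_mono fun _ => h _

/-- Affine change of variables. -/
theorem xc_change (p : E ι) {c : ℝ} (hc : 0 < c) {H : E ι → ℝ≥0∞} (hH : Measurable H) :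
    (∫⁻ t, H (p + c • t)) * ENNReal.ofReal (c ^ Fintype.card ι) = ∫⁻ x, H x := by
  have h1 : ∫⁻ t, H (p + c • t) = ∫⁻ s, H (p + s) ∂Measure.map (c • ·) (volume : Measure (E ι)) :=
    (lintegral_map (hH.comp (measurable_const_add p)) (measurable_const_smul c)).symm
  rw [h1, Measure.map_addHaar_smul _ hc.ne', lintegral_smul_measure, lintegral_add_left_eq_self,
    Module.finrank_fintype_fun_eq_card, abs_of_pos (inv_pos.2 (pow_pos hc _)), smul_eq_mul,
    mul_right_comm, ← ENNReal.ofReal_mul (inv_pos.2 (pow_pos hc _)).le,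
    inv_mul_cancel₀ (pow_pos hc _).ne', ENNReal.ofReal_one, one_mul]

theorem Em_eq (m : ℤ) {F : E ι → ℝ≥0∞} (hF : Measurable F) (y : E ι) :
    Em m F y * ENNReal.ofReal ((2 ^ m) ^ Fintype.card ι) = ∫⁻ x in (cubeAt m y).set, F x := by
  have hs : MeasurableSet (cubeAt m y).set := measurableSet_Icc
  rw [← lintegral_indicator hs, ← xc_change (flv m y) (two_pos_g m) (hF.indicator hs), Em,
    ← lintegral_indicator measurableSet_Icc]
  congr 2
  funext t
  have h : t ∈ Icc (0 : E ι) 1 ↔ flv m y + (2 : ℝ) ^ m • t ∈ (cubeAt m y).set := by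
    rw [Bx.mem_set, mem_Icc, Pi.le_def, Pi.le_def, ← forall_and]
    refine forall_congr' fun i => ?_
    simp only [cubeAt, flv, Pi.add_apply, Pi.smul_apply, smul_eq_mul, Pi.zero_apply, Pi.one_apply,
      le_add_iff_nonneg_right, add_le_add_iff_left, mul_nonneg_iff_of_pos_left (two_pos_g m),
      mul_le_iff_le_one_right (two_pos_g m)]
  by_cases ht : t ∈ Icc (0 : E ι) 1
  · rw [indicator_of_mem ht, indicator_of_mem (h.1 ht)]
  · rw [indicator_of_notMem ht, indicator_of_notMem fun h' => ht (h.2 h')]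

theorem xc_meas (m : ℤ) (p : E ι) : MeasurableSet {x : E ι | flv m x = p} :=
  measurable_flv m (measurableSet_singleton p)

theorem xc_ae (m : ℤ) (y : E ι) :
    {x : E ι | flv m x = flv m y} =ᵐ[volume] (cubeAt m y).set := by
  have h : {x : E ι | flv m x = flv m y} =
      univ.pi fun i => Ico ((cubeAt m y).lo i) ((cubeAt m y).hi i) := by
    ext x
    simp only [mem_ofPred_eq, mem_univ_pi, funext_iff]
    refine forall_congr' fun i => ⟨fun h => ?_, fun h => fl_eq (lat_fl m _) h.1 h.2⟩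
    have h' : fl m (x i) = fl m (y i) := h
    show fl m (y i) ≤ x i ∧ x i < fl m (y i) + 2 ^ m
    rw [← h']
    exact ⟨fl_le m (x i), lt_fl m (x i)⟩
  rw [h]
  exact Measure.univ_pi_Ico_ae_eq_Icc

/-- The mean over the half-open cube. -/
theorem Em_eq' (m : ℤ) {F : E ι → ℝ≥0∞} (hF : Measurable F) (y : E ι) :
    Em m F y * ENNReal.ofReal ((2 ^ m) ^ Fintype.card ι) =
      ∫⁻ x in {x | flv m x = flv m y}, F x := by
  rw [Em_eq m hF, Measure.restrict_congr_set (xc_ae m y)]

theorem xc_vol (m : ℤ) (y : E ι) :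
    volume {x : E ι | flv m x = flv m y} = ENNReal.ofReal ((2 ^ m) ^ Fintype.card ι) := by
  have h := Em_eq' m (F := fun _ => 1) measurable_const y
  rw [Em_const, one_mul, setLIntegral_const, one_mul] at h
  exact h.symm

theorem measurable_Em (m : ℤ) {X : Type} [MeasurableSpace X] {F : X × E ι → ℝ≥0∞}
    (hF : Measurable F) : Measurable fun w : X × E ι => Em m (fun y => F (w.1, y)) w.2 :=
  Measurable.lintegral_prod_right' (ν := volume.restrict (Icc (0 : E ι) 1))
    (f := fun q : (X × E ι) × E ι => F (q.1.1, flv m q.1.2 + (2 : ℝ) ^ m • q.2))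
    (hF.comp (measurable_fst.fst.prodMk
      (((measurable_flv m).comp measurable_fst.snd).add 
        ((measurable_const_smul ((2 : ℝ) ^ m)).comp measurable_snd))))

theorem measurable_Em' (m : ℤ) {F : E ι → ℝ≥0∞} (hF : Measurable F) : Measurable (Em m F) :=
  Measurable.lintegral_prod_right' (ν := volume.restrict (Icc (0 : E ι) 1))
    (f := fun q : E ι × E ι => F (flv m q.1 + (2 : ℝ) ^ m • q.2))
    (hF.comp (((measurable_flv m).comp measurable_fst).add
      ((measurable_const_smul ((2 : ℝ) ^ m)).comp measurable_snd)))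

theorem xc_countable (m : ℤ) : (range (flv m : E ι → E ι)).Countable := by
  refine (countable_univ_pi (s := fun _ : ι => range fun n : ℤ =>
    (2 : ℝ) ^ m * (n + if Even m then 1 / 3 else -1 / 3)) fun _ => countable_range _).mono ?_
  rintro _ ⟨y, rfl⟩ i -
  exact ⟨_, rfl⟩

theorem xc_split (m : ℤ) (H : E ι → ℝ≥0∞) :
    ∫⁻ x, H x = ∑' p : range (flv m : E ι → E ι), ∫⁻ x in {x | flv m x = p.1}, H x := by
  have := (xc_countable (ι := ι) m).to_subtype
  rw [← lintegral_iUnion (fun p => xc_meas m _)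
    (fun p q hpq => disjoint_left.2 fun x h1 h2 => hpq (Subtype.ext (Eq.trans (Eq.symm h1) h2))),
    eq_univ_of_forall (s := ⋃ p : range (flv m : E ι → E ι), {x | flv m x = p.1})
      fun x => mem_iUnion.2 ⟨⟨_, x, rfl⟩, rfl⟩, Measure.restrict_univ]

/-- The conditional expectation property. -/
theorem lintegral_mul_Em (m : ℤ) {F G : E ι → ℝ≥0∞} (hF : Measurable F) (hG : Measurable G)
    (hc : ∀ y y', flv m y = flv m y' → G y = G y') :
    ∫⁻ y, G y * Em m F y = ∫⁻ y, G y * F y := by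
  have _ := hG
  rw [xc_split m, xc_split m fun y => G y * F y]
  refine tsum_congr ?_
  rintro ⟨_, y, rfl⟩
  rw [setLIntegral_congr_fun (g := fun _ => G y * Em m F y) (xc_meas m _)
      (fun x hx => by simp only; rw [hc x y hx, Em_congr hx]),
    setLIntegral_congr_fun (f := fun x => G x * F x) (g := fun x => G y * F x) (xc_meas m _)
      (fun x hx => by simp only; rw [hc x y hx]),
    setLIntegral_const, lintegral_const_mul _ hF, ← Em_eq' m hF, xc_vol, mul_assoc]

theorem lintegral_Em (m : ℤ) {F : E ι → ℝ≥0∞} (hF : Measurable F) :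
    ∫⁻ y, Em m F y = ∫⁻ y, F y := by
  simpa only [one_mul] using
    lintegral_mul_Em m (G := fun _ => 1) hF measurable_const fun _ _ _ => rfl

theorem xc_ne_zero (m : ℤ) : ENNReal.ofReal ((2 ^ m) ^ Fintype.card ι) ≠ 0 :=
  (ENNReal.ofReal_pos.2 (pow_pos (two_pos_g m) _)).ne'

/-- The conditional expectation property on a union of cubes. -/
theorem setLIntegral_Em (m : ℤ) {F : E ι → ℝ≥0∞} (hF : Measurable F) {A : Set (E ι)}
    (hA : MeasurableSet A) (hc : ∀ y y', flv m y = flv m y' → y ∈ A → y' ∈ A) :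
    ∫⁻ y in A, Em m F y = ∫⁻ y in A, F y := by
  have h := lintegral_mul_Em m (G := A.indicator 1) hF (measurable_one.indicator hA)
    fun y y' h => by
      by_cases hy : y ∈ A
      · rw [indicator_of_mem hy, indicator_of_mem (hc _ _ h hy)]; rfl
      · rw [indicator_of_notMem hy, indicator_of_notMem fun h' => hy (hc _ _ h.symm h')]
  rw [← lintegral_indicator hA, ← lintegral_indicator hA]
  refine (lintegral_congr fun y => ?_).trans (h.trans (lintegral_congr fun y => ?_))
  · by_cases hy : y ∈ A <;> simp [hy]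
  · by_cases hy : y ∈ A <;> simp [hy]

theorem Em_Em {m m' : ℤ} (h : m ≤ m') {F : E ι → ℝ≥0∞} (hF : Measurable F) (y : E ι) :
    Em m' (Em m F) y = Em m' F y := by
  refine (ENNReal.mul_left_inj (xc_ne_zero (ι := ι) m') ENNReal.ofReal_ne_top).1 ?_
  rw [Em_eq' m' hF, Em_eq' m' (measurable_Em' m hF)]
  refine setLIntegral_Em m hF (xc_meas m' _) fun x x' hx h1 => ?_
  rw [mem_ofPred_eq, ← flv_flv h x', ← hx, flv_flv h x]
  exact h1

theorem Em_le_parent (m : ℤ) {F : E ι → ℝ≥0∞} (hF : Measurable F) (y : E ι) :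
    Em m F y ≤ 2 ^ Fintype.card ι * Em (m + 1) F y := by
  refine (ENNReal.mul_le_mul_iff_left (xc_ne_zero (ι := ι) m) ENNReal.ofReal_ne_top).1 ?_
  have h : 2 ^ Fintype.card ι * Em (m + 1) F y * ENNReal.ofReal ((2 ^ m) ^ Fintype.card ι) =
      Em (m + 1) F y * ENNReal.ofReal ((2 ^ (m + 1)) ^ Fintype.card ι) := by
    rw [two_succ_g, mul_pow, ENNReal.ofReal_mul (by positivity),
      ENNReal.ofReal_pow (p := 2) (by norm_num), ENNReal.ofReal_ofNat]
    ring
  rw [h, Em_eq' m hF, Em_eq' (m + 1) hF]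
  refine lintegral_mono_set fun x hx => ?_
  have hm : m ≤ m + 1 := by omega
  rw [mem_ofPred_eq, ← flv_flv hm x, show flv m x = flv m y from hx, flv_flv hm y]

theorem Em_sq_le (m : ℤ) {F : E ι → ℝ≥0∞} (hF : Measurable F) (y : E ι) :
    Em m F y ^ 2 ≤ Em m (fun x => F x ^ 2) y := by
  have h := ENNReal.lintegral_mul_le_Lp_mul_Lq (volume.restrict (Icc (0 : E ι) 1))
    Real.HolderConjugate.two_two (f := fun t => F (flv m y + (2 : ℝ) ^ m • t)) (g := fun _ => 1)
    (hF.comp ((measurable_const_smul ((2 : ℝ) ^ m)).const_add _)).aemeasurable aemeasurable_const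
  simp only [Pi.mul_apply, mul_one, ENNReal.one_rpow, setLIntegral_const, xc_vol_unit,
    ENNReal.rpow_two, one_pow] at h
  refine (pow_le_pow_left₀ zero_le h 2).trans_eq ?_
  rw [← ENNReal.rpow_two, ← ENNReal.rpow_mul]
  norm_num
  rfl

end Pool.Agent.Lib.MP_ecd4e3_gt.N
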