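import Pool.Agent.Lib.MP_ecd4e3_gt.N.XA
import Pool.Agent.Lib.MP_ecd4e3_gt.N.XC

/-! Pair correlations along a random direction. -/

namespace Pool.Agent.Lib.MP_ecd4e3_gt.N

open Set Filter Topology Metric MeasureTheory
open scoped NNReal ENNReal

variable {ι : Type} [Fintype ι] [DecidableEq ι] [Nonempty ι]

theorem xb_Em {m : ℤ} {F : E ι → ℝ≥0∞} (hF : Measurable F) {B : Set (E ι)}
    (hB : MeasurableSet B) : ∫⁻ x in flv m ⁻¹' B, Em m F x = ∫⁻ x in flv m ⁻¹' B, F x := by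
  have hA : MeasurableSet (flv m ⁻¹' B) := measurable_flv m hB
  have h := lintegral_mul_Em m hF (G := (flv m ⁻¹' B).indicator 1) (measurable_one.indicator hA)
    (fun y y' h => by classical exact if_congr (by rw [mem_preimage, mem_preimage, h]) rfl rfl)
  have e : ∀ G : E ι → ℝ≥0∞, ∫⁻ x in flv m ⁻¹' B, G x =
      ∫⁻ y, (flv m ⁻¹' B).indicator 1 y * G y := fun G => by
    rw [← lintegral_indicator hA]
    refine lintegral_congr fun y => ?_
    by_cases hy : y ∈ flv m ⁻¹' B <;> simp [hy]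
  rw [e, e, h]

theorem xb_A {m : ℤ} {b : E ι → ℝ} (hb : Measurable b)
    (h2 : ∀ y, Em m (fun x => ‖b x‖ₑ) y ≤ 2) {B : Set (E ι)} (hB : MeasurableSet B) :
    ∫⁻ x in flv m ⁻¹' B, ‖b x‖ₑ ≤ 2 * volume (flv m ⁻¹' B) := by
  rw [← xb_Em hb.enorm hB, ← setLIntegral_const]
  exact lintegral_mono h2

theorem xb_B {m : ℤ} {b : E ι → ℝ} (hb : Measurable b) (h0 : ∀ y, Er m b y = 0)
    (h2 : ∀ y, Em m (fun x => ‖b x‖ₑ) y ≤ 2) {B : Set (E ι)} (hB : MeasurableSet B)
    (hi : IntegrableOn b (flv m ⁻¹' B)) : ∫ x in flv m ⁻¹' B, b x = 0 := by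
  rw [integral_eq_lintegral_pos_part_sub_lintegral_neg_part hi,
    ← xb_Em (F := fun x => ENNReal.ofReal (b x)) hb.ennreal_ofReal hB,
    ← xb_Em (F := fun x => ENNReal.ofReal (-b x)) hb.neg.ennreal_ofReal hB, sub_eq_zero]
  congr 1
  refine lintegral_congr fun y => ?_
  have hm : Measurable fun t : E ι => b (flv m y + (2 : ℝ) ^ m • t) := by fun_prop
  have hI : Integrable (fun t : E ι => b (flv m y + (2 : ℝ) ^ m • t))
      (volume.restrict (Icc 0 1)) :=
    ⟨hm.aestronglyMeasurable, (h2 y).trans_lt (by simp)⟩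
  have h := h0 y
  rw [Er, integral_eq_lintegral_pos_part_sub_lintegral_neg_part hI, sub_eq_zero] at h
  have f1 : ∀ c : E ι → ℝ, (∀ x, ‖c x‖ₑ = ‖b x‖ₑ) →
      Em m (fun x => ENNReal.ofReal (c x)) y ≠ ∞ := fun c hc =>
    ((Em_mono m (fun x => (Real.ofReal_le_enorm _).trans (hc x).le) y).trans_lt
      ((h2 y).trans_lt (by simp))).ne
  exact (ENNReal.toReal_eq_toReal_iff' (f1 b fun _ => rfl) (f1 (fun x => -b x) fun _ => by simp)).1 h

omit [DecidableEq ι] in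
theorem xb_vol (c : E ι) (s : ℝ) :
    volume (closedBall c s) = ENNReal.ofReal ((2 * max s 0) ^ Fintype.card ι) := by
  rcases le_or_gt 0 s with h | h
  · rw [Real.volume_pi_closedBall c h, max_eq_left h]
  · rw [closedBall_eq_empty.2 h, max_eq_right h.le]
    simp [Fintype.card_ne_zero]

omit [DecidableEq ι] in
theorem xb_shell (c : E ι) {h ρ : ℝ} (h0 : 0 < h) (hρ : h ≤ ρ) :
    volume (closedBall c (ρ + 2 * h) \ closedBall c (ρ - 2 * h)) ≤
      ENNReal.ofReal (4 * Fintype.card ι * 3 ^ Fintype.card ι * (2 * ρ) ^ Fintype.card ι *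
        (h / ρ)) := by
  have hρ0 : 0 < ρ := h0.trans_le hρ
  rw [measure_sdiff (closedBall_subset_closedBall (by linarith only [h0]))
    measurableSet_closedBall.nullMeasurableSet measure_closedBall_lt_top.ne, xb_vol, xb_vol,
    ← ENNReal.ofReal_sub _ (by positivity), max_eq_left (by linarith only [h0, hρ] : (0 : ℝ) ≤ ρ + 2 * h)]
  refine ENNReal.ofReal_le_ofReal ((le_abs_self _).trans ((abs_pow_sub_pow_le ..).trans ?_))
  obtain ⟨n, hn⟩ := Nat.exists_eq_succ_of_ne_zero (Fintype.card_ne_zero (α := ι))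
  have a1 : 0 ≤ max (ρ - 2 * h) 0 := le_max_right _ _
  have a2 : ρ - 2 * h ≤ max (ρ - 2 * h) 0 := le_max_left _ _
  have a3 : max (ρ - 2 * h) 0 ≤ ρ := max_le (by linarith only [h0]) hρ0.le
  have b1 : |2 * (ρ + 2 * h) - 2 * max (ρ - 2 * h) 0| ≤ 8 * h :=
    abs_le.2 ⟨by linarith only [h0, a3], by linarith only [a2]⟩
  have b2 : max |2 * (ρ + 2 * h)| |2 * max (ρ - 2 * h) 0| ≤ 3 * (2 * ρ) := by
    rw [abs_of_nonneg (by linarith only [h0, hρ]), abs_of_nonneg (by linarith only [a1])]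
    exact max_le (by linarith only [hρ]) (by linarith only [h0, hρ, a3])
  rw [hn, Nat.succ_sub_one]
  calc _ ≤ 8 * h * (n + 1 : ℕ) * (3 * (2 * ρ)) ^ n := by gcongr
    _ ≤ 8 * h * (n + 1 : ℕ) * (3 * (2 * ρ)) ^ n * 3 :=
        le_mul_of_one_le_right (by positivity) (by norm_num)
    _ = _ := by
        rw [Nat.succ_eq_add_one, mul_pow, pow_succ, pow_succ]
        field_simp
        ring

theorem xb_ball {m : ℤ} {b : E ι → ℝ} (hb : Measurable b) (h0 : ∀ y, Er m b y = 0)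
    (h2 : ∀ y, Em m (fun x => ‖b x‖ₑ) y ≤ 2) (c : E ι) {ρ : ℝ} (hρ : 2 ^ m ≤ ρ) :
    IntegrableOn b (closedBall c ρ) ∧ |∫ x in closedBall c ρ, b x| ≤
      8 * Fintype.card ι * 3 ^ Fintype.card ι * (2 * ρ) ^ Fintype.card ι * (2 ^ m / ρ) := by
  have hp := two_pos_g m
  have hρ0 : 0 < ρ := hp.trans_le hρ
  have d1 : ∀ x : E ι, dist x c ≤ dist (flv m x) c + 2 ^ m := fun x => by
    linarith only [dist_triangle x (flv m x) c, flv_dist m x]
  have d2 : ∀ x : E ι, dist (flv m x) c ≤ dist x c + 2 ^ m := fun x => by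
    linarith only [dist_triangle_left (flv m x) c x, flv_dist m x]
  have hQ : IntegrableOn b (closedBall c ρ) := by
    refine ⟨hb.aestronglyMeasurable, ?_⟩
    have s1 : closedBall c ρ ⊆ flv m ⁻¹' closedBall c (ρ + 2 ^ m) := fun x hx => by
      simp only [mem_preimage, mem_closedBall] at hx ⊢
      linarith only [d2 x, hx]
    have s2 : flv m ⁻¹' closedBall c (ρ + 2 ^ m) ⊆ closedBall c (ρ + 2 * 2 ^ m) := fun x hx => by
      simp only [mem_preimage, mem_closedBall] at hx ⊢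
      linarith only [d1 x, hx]
    exact (lintegral_mono_set s1).trans_lt ((xb_A hb h2 measurableSet_closedBall).trans_lt
      (ENNReal.mul_lt_top (by simp) ((measure_mono s2).trans_lt measure_closedBall_lt_top)))
  refine ⟨hQ, ?_⟩
  have s3 : flv m ⁻¹' closedBall c (ρ - 2 ^ m) ⊆ closedBall c ρ := fun x hx => by
    simp only [mem_preimage, mem_closedBall] at hx ⊢
    linarith only [d1 x, hx]
  have e := setIntegral_sdiff (measurable_flv m measurableSet_closedBall) hQ s3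
  rw [xb_B hb h0 h2 measurableSet_closedBall (hQ.mono_set s3), sub_zero] at e
  have s4 : closedBall c ρ \ flv m ⁻¹' closedBall c (ρ - 2 ^ m) ⊆
      flv m ⁻¹' (closedBall c (ρ + 2 ^ m) \ closedBall c (ρ - 2 ^ m)) := fun x hx => by
    simp only [mem_preimage, mem_closedBall, Set.mem_sdiff] at hx ⊢
    exact ⟨by linarith only [d2 x, hx.1, hx], hx.2⟩
  have s5 : flv m ⁻¹' (closedBall c (ρ + 2 ^ m) \ closedBall c (ρ - 2 ^ m)) ⊆
      closedBall c (ρ + 2 * 2 ^ m) \ closedBall c (ρ - 2 * 2 ^ m) := fun x hx => by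
    simp only [mem_preimage, mem_closedBall, Set.mem_sdiff, not_le] at hx ⊢
    exact ⟨by linarith only [d1 x, hx.1, hx], by linarith only [d2 x, hx.2, hx]⟩
  have k := (enorm_integral_le_lintegral_enorm b).trans ((lintegral_mono_set s4).trans
    ((xb_A hb h2 (measurableSet_closedBall.diff measurableSet_closedBall)).trans
      (mul_le_mul_right ((measure_mono s5).trans (xb_shell c hp hρ)) 2)))
  rw [e, Real.enorm_eq_ofReal_abs, ← ENNReal.ofReal_ofNat 2,
    ← ENNReal.ofReal_mul (by norm_num), ENNReal.ofReal_le_ofReal_iff (by positivity)] at k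
  exact k.trans_eq (by ring)

/-- The mean of a centred function over a large cube. -/
theorem mean_small : ∃ C : ℝ, 0 ≤ C ∧ ∀ (m : ℤ) (b : E ι → ℝ), Measurable b →
    (∀ y, Er m b y = 0) → (∀ y, Em m (fun x => ‖b x‖ₑ) y ≤ 2) → ∀ (i : ι) (y : E ι) (r : ℝ),
      2 ^ m ≤ etX ι * |r| → Integrable (fun u => b (y + r • u)) (pv i) ∧
        |∫ u, b (y + r • u) ∂pv i| ≤ C * 2 ^ m / |r| := by
  obtain ⟨hη, -, -⟩ := etX_bd (ι := ι)
  refine ⟨8 * Fintype.card ι * 3 ^ Fintype.card ι / etX ι, by positivity,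
    fun m b hb h0 h2 i y r hr => ?_⟩
  have hp := two_pos_g m
  have hr0 : 0 < |r| := (mul_pos_iff_of_pos_left hη).1 (hp.trans_le hr)
  have hr1 : r ≠ 0 := abs_pos.1 hr0
  obtain ⟨hQ, hI⟩ := xb_ball hb h0 h2 (y + r • (Pi.single i 1 : E ι)) hr
  have e : (closedBall (Pi.single i 1 : E ι) (etX ι)).indicator (fun u => b (y + r • u)) =
      fun u => (closedBall (y + r • (Pi.single i 1 : E ι)) (etX ι * |r|)).indicator b
        (y + r • u) := by
    funext u
    have : y + r • u ∈ closedBall (y + r • (Pi.single i 1 : E ι)) (etX ι * |r|) ↔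
        u ∈ closedBall (Pi.single i 1 : E ι) (etX ι) := by
      rw [mem_closedBall, mem_closedBall, dist_add_left, dist_smul₀, Real.norm_eq_abs, mul_comm,
        mul_le_mul_iff_left₀ hr0]
    classical exact if_congr this.symm rfl rfl
  have hJ : IntegrableOn (fun u => b (y + r • u)) (closedBall (Pi.single i 1 : E ι) (etX ι)) := by
    rw [← integrable_indicator_iff measurableSet_closedBall, e]
    exact (((integrable_indicator_iff measurableSet_closedBall).2 hQ).comp_add_left y).comp_smul hr1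
  have hv := Real.volume_pi_closedBall (Pi.single i 1 : E ι) hη.le
  refine ⟨hJ.smul_measure (ENNReal.inv_ne_top.2 (by rw [hv]; simp; positivity)), ?_⟩
  rw [pv, integral_smul_measure, ← integral_indicator measurableSet_closedBall, e,
    Measure.integral_comp_smul volume (fun x => (closedBall (y + r • (Pi.single i 1 : E ι))
      (etX ι * |r|)).indicator b (y + x)) r, integral_add_left_eq_self,
    integral_indicator measurableSet_closedBall, hv, ENNReal.toReal_inv,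
    ENNReal.toReal_ofReal (by positivity), smul_eq_mul, smul_eq_mul, abs_mul, abs_mul, abs_abs,
    abs_inv, abs_inv, abs_pow, abs_pow, Module.finrank_fintype_fun_eq_card,
    abs_of_pos (by positivity : 0 < 2 * etX ι)]
  refine (mul_le_mul_of_nonneg_left (mul_le_mul_of_nonneg_left hI (by positivity))
    (by positivity)).trans_eq ?_
  rw [← mul_assoc 2, mul_pow (2 * etX ι)]
  field_simp

omit [DecidableEq ι] [Nonempty ι] in
theorem xb_pair {b : E ι → ℝ} (hb : Measurable b) (μ : Measure (E ι)) [IsProbabilityMeasure μ]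
    (a a' : ℝ) : ∫⁻ w : E ι × E ι, ‖b (w.2 + a • w.1) * b (w.2 + a' • w.1)‖ₑ ∂μ.prod volume ≤
      2 * ∫⁻ x, ‖b x‖ₑ ^ 2 := by
  rw [lintegral_prod _ (by fun_prop)]
  refine (lintegral_mono (g := fun _ => 2 * ∫⁻ x, ‖b x‖ₑ ^ 2) fun u => ?_).trans (by simp)
  calc _ ≤ ∫⁻ z, (‖b (z + a • u)‖ₑ ^ 2 + ‖b (z + a' • u)‖ₑ ^ 2) := lintegral_mono fun z => by
        rw [enorm_mul, sq, sq]
        rcases le_total ‖b (z + a • u)‖ₑ ‖b (z + a' • u)‖ₑ with h | h
        · exact le_add_left (mul_le_mul_left h _)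
        · exact le_add_right (mul_le_mul_right h _)
    _ = _ := by
        rw [lintegral_add_left (by fun_prop),
          lintegral_add_right_eq_self (fun z => ‖b z‖ₑ ^ 2) (a • u),
          lintegral_add_right_eq_self (fun z => ‖b z‖ₑ ^ 2) (a' • u), two_mul]

omit [DecidableEq ι] [Nonempty ι] in
theorem xb_far {b : E ι → ℝ} (hb : Measurable b) (μ : Measure (E ι)) [IsProbabilityMeasure μ]
    (h2 : ∫⁻ x, ‖b x‖ₑ ^ 2 ≠ ∞) (a a' : ℝ) {D : ℝ}
    (hD : ∀ z, |∫ u, b (z + (a' - a) • u) ∂μ| ≤ D) :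
    ‖∫ w : E ι × E ι, b (w.2 + a • w.1) * b (w.2 + a' • w.1) ∂μ.prod volume‖ₑ ≤
      ENNReal.ofReal D * ∫⁻ x, ‖b x‖ₑ := by
  have hI : ∀ c c' : ℝ, Integrable (fun w : E ι × E ι => b (w.2 + c • w.1) * b (w.2 + c' • w.1))
      (μ.prod volume) := fun c c' =>
    ⟨(by fun_prop : Measurable _).aestronglyMeasurable,
      (xb_pair hb μ c c').trans_lt (ENNReal.mul_lt_top (by simp) h2.lt_top)⟩
  have e1 : ∫ w : E ι × E ι, b (w.2 + a • w.1) * b (w.2 + a' • w.1) ∂μ.prod volume =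
      ∫ w : E ι × E ι, b (w.2 + (0 : ℝ) • w.1) * b (w.2 + (a' - a) • w.1) ∂μ.prod volume := by
    rw [integral_prod _ (hI _ _), integral_prod _ (hI _ _)]
    refine integral_congr_ae (Eventually.of_forall fun u => ?_)
    refine Eq.trans ?_ (integral_add_right_eq_self
      (fun z => b (z + (0 : ℝ) • u) * b (z + (a' - a) • u)) (a • u))
    simp only [zero_smul, add_zero, sub_smul, add_assoc, add_sub_cancel]
  rw [e1, integral_prod_symm _ (hI _ _), ← lintegral_const_mul _ hb.enorm]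
  refine (enorm_integral_le_lintegral_enorm _).trans (lintegral_mono fun z => ?_)
  simp only [zero_smul, add_zero, integral_const_mul, enorm_mul]
  rw [mul_comm]
  refine mul_le_mul_left ?_ _
  rw [Real.enorm_eq_ofReal_abs]
  exact ENNReal.ofReal_le_ofReal (hD z)

theorem xb_diag (δ : ℝ) : ((volume.restrict (Icc (0 : ℝ) 1)).prod (volume.restrict (Icc (0 : ℝ) 1)))
    {p | |p.2 - p.1| ≤ δ} ≤ ENNReal.ofReal (2 * δ) := by
  rw [Measure.prod_apply (measurableSet_le (by fun_prop) measurable_const)]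
  refine (lintegral_mono (g := fun _ => ENNReal.ofReal (2 * δ)) fun s => ?_).trans (by simp)
  refine (Measure.restrict_le_self _).trans ?_
  rw [← Real.volume_closedBall s δ]
  exact measure_mono fun s' hs => hs

omit [DecidableEq ι] [Nonempty ι] in
theorem xb_expand {b : E ι → ℝ} (hb : Measurable b) (μ : Measure (E ι)) [IsProbabilityMeasure μ]
    (h2 : ∫⁻ x, ‖b x‖ₑ ^ 2 ≠ ∞) {ψ : ℝ → ℝ} (hψ : Measurable ψ) (ν : Measure ℝ)
    [IsFiniteMeasure ν] :
    ∫⁻ u, ∫⁻ z, ‖∫ s, b (z + ψ s • u) ∂ν‖ₑ ^ 2 ∂volume ∂μ ≤ ∫⁻ p : ℝ × ℝ,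
      ‖∫ w : E ι × E ι, b (w.2 + ψ p.1 • w.1) * b (w.2 + ψ p.2 • w.1) ∂μ.prod volume‖ₑ
        ∂ν.prod ν := by
  have hm : Measurable fun q : (E ι × E ι) × ℝ × ℝ =>
      b (q.1.2 + ψ q.2.1 • q.1.1) * b (q.1.2 + ψ q.2.2 • q.1.1) := by fun_prop
  have hI : Integrable (fun q : (E ι × E ι) × ℝ × ℝ =>
      b (q.1.2 + ψ q.2.1 • q.1.1) * b (q.1.2 + ψ q.2.2 • q.1.1))
      ((μ.prod volume).prod (ν.prod ν)) := by
    refine ⟨hm.aestronglyMeasurable, ?_⟩
    rw [hasFiniteIntegral_iff_enorm, lintegral_prod_symm _ hm.enorm.aemeasurable]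
    refine (lintegral_mono fun p : ℝ × ℝ => xb_pair hb μ (ψ p.1) (ψ p.2)).trans_lt ?_
    rw [lintegral_const]
    exact ENNReal.mul_lt_top (ENNReal.mul_lt_top (by simp) h2.lt_top) (measure_lt_top _ _)
  have e : ∀ w : E ι × E ι, ∫ p : ℝ × ℝ, b (w.2 + ψ p.1 • w.1) * b (w.2 + ψ p.2 • w.1) ∂ν.prod ν =
      (∫ s, b (w.2 + ψ s • w.1) ∂ν) ^ 2 := fun w => by
    rw [sq]
    exact integral_prod_mul (fun s => b (w.2 + ψ s • w.1)) (fun s => b (w.2 + ψ s • w.1))
  have hF : StronglyMeasurable fun w : E ι × E ι => ∫ s, b (w.2 + ψ s • w.1) ∂ν :=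
    StronglyMeasurable.integral_prod_right (f := fun (w : E ι × E ι) s => b (w.2 + ψ s • w.1))
      (by fun_prop : Measurable _).stronglyMeasurable
  have h3 := hI.integral_prod_left
  simp only [e] at h3
  calc _ = ∫⁻ w : E ι × E ι, ‖∫ s, b (w.2 + ψ s • w.1) ∂ν‖ₑ ^ 2 ∂μ.prod volume :=
        (lintegral_prod _ (hF.measurable.enorm.pow_const 2).aemeasurable).symm
    _ = ∫⁻ w : E ι × E ι, ENNReal.ofReal ((∫ s, b (w.2 + ψ s • w.1) ∂ν) ^ 2) ∂μ.prod volume :=
        lintegral_congr fun w => by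
          rw [← enorm_pow, Real.enorm_eq_ofReal (sq_nonneg _)]
    _ = ENNReal.ofReal (∫ w : E ι × E ι, (∫ s, b (w.2 + ψ s • w.1) ∂ν) ^ 2 ∂μ.prod volume) :=
        (ofReal_integral_eq_lintegral_ofReal h3 (Eventually.of_forall fun _ => sq_nonneg _)).symm
    _ = ENNReal.ofReal (∫ p : ℝ × ℝ, ∫ w : E ι × E ι,
          b (w.2 + ψ p.1 • w.1) * b (w.2 + ψ p.2 • w.1) ∂μ.prod volume ∂ν.prod ν) := by
        simp only [← e]
        exact congrArg _ (integral_integral_swap hI)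
    _ ≤ _ := (Real.ofReal_le_enorm _).trans (enorm_integral_le_lintegral_enorm _)

/-- The mean square of averages along a random line. -/
theorem line_sq : ∃ C : ℝ≥0, ∀ (k : ℤ) (g : ℕ) (b : E ι → ℝ), Measurable b →
    (∀ y, Er (k - g) b y = 0) → (∀ y, Em (k - g) (fun x => ‖b x‖ₑ) y ≤ 2) → ∀ (i : ι) (ψ : ℝ → ℝ),
      Measurable ψ → (∀ s, |ψ s - 2 ^ k * s| ≤ 2 ^ (k - g)) →
      ∫⁻ u, ∫⁻ z, ‖∫ s in Icc (0 : ℝ) 1, b (z + ψ s • u)‖ₑ ^ 2 ∂volume ∂pv i ≤
        C * (3 / 4) ^ g * ((∫⁻ x, ‖b x‖ₑ ^ 2) + ∫⁻ x, ‖b x‖ₑ) := by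
  obtain ⟨C, hC, H⟩ := mean_small (ι := ι)
  obtain ⟨hη, hη1, -⟩ := etX_bd (ι := ι)
  refine ⟨Real.toNNReal (4 * (2 + 1 / etX ι) + C), fun k g b hb h0 h2 i ψ hψ hs => ?_⟩
  have hq : (0 : ℝ) < (3 / 4) ^ g := by positivity
  have ec : (Real.toNNReal (4 * (2 + 1 / etX ι) + C) : ℝ≥0∞) * (3 / 4) ^ g =
      ENNReal.ofReal ((4 * (2 + 1 / etX ι) + C) * (3 / 4) ^ g) := by
    rw [ENNReal.ofReal_mul (by positivity), ENNReal.ofReal_pow (by norm_num),
      ENNReal.ofReal_div_of_pos (by norm_num)]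
    simp [ENNReal.ofReal]
  rw [ec]
  by_cases hB : ∫⁻ x, ‖b x‖ₑ ^ 2 = ∞
  · rw [hB, top_add, ENNReal.mul_top (by simp; positivity)]
    exact le_top
  refine (xb_expand hb (pv i) hB hψ _).trans ?_
  have hk := two_pos_g k
  have hh : (2 : ℝ) ^ (k - g) ≤ 2 ^ k * ((3 / 4) ^ g * (3 / 4) ^ g) := by
    rw [zpow_sub₀ two_ne_zero, zpow_natCast, div_eq_mul_inv, ← inv_pow, ← mul_pow]
    gcongr
    norm_num
  have hq1 : ((3 : ℝ) / 4) ^ g ≤ 1 := pow_le_one₀ (by norm_num) (by norm_num)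
  have hh1 : (2 : ℝ) ^ (k - g) ≤ 2 ^ k * (3 / 4) ^ g :=
    hh.trans (mul_le_mul_of_nonneg_left (mul_le_of_le_one_left hq.le hq1) hk.le)
  have key : ∀ p : ℝ × ℝ, ‖∫ w : E ι × E ι, b (w.2 + ψ p.1 • w.1) * b (w.2 + ψ p.2 • w.1)
      ∂(pv i).prod volume‖ₑ ≤ {p : ℝ × ℝ | |p.2 - p.1| ≤ (2 + 1 / etX ι) * (3 / 4) ^ g}.indicator
        (fun _ => 2 * ∫⁻ x, ‖b x‖ₑ ^ 2) p + ENNReal.ofReal (C * (3 / 4) ^ g) * ∫⁻ x, ‖b x‖ₑ := by
    intro p
    by_cases hp : |p.2 - p.1| ≤ (2 + 1 / etX ι) * (3 / 4) ^ g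
    · rw [indicator_of_mem (by exact hp)]
      exact le_add_right ((enorm_integral_le_lintegral_enorm _).trans (xb_pair hb _ _ _))
    rw [not_le] at hp
    have r1 : 2 ^ k * (1 / etX ι * (3 / 4) ^ g) ≤ |ψ p.2 - ψ p.1| := by
      have t1 : |2 ^ k * p.2 - 2 ^ k * p.1| ≤ |ψ p.2 - ψ p.1| + 2 * 2 ^ (k - g) := by
        have a1 := abs_le.1 (hs p.1)
        have a2 := abs_le.1 (hs p.2)
        exact abs_le.2 ⟨by linarith only [neg_abs_le (ψ p.2 - ψ p.1), a1, a2],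
          by linarith only [le_abs_self (ψ p.2 - ψ p.1), a1, a2]⟩
      rw [← mul_sub, abs_mul, abs_of_pos hk] at t1
      nlinarith only [mul_lt_mul_of_pos_left hp hk, hh1, t1, hp, hk]
    have r2 : 2 ^ k * (3 / 4) ^ g ≤ etX ι * |ψ p.2 - ψ p.1| :=
      le_of_eq_of_le (by field_simp) (mul_le_mul_of_nonneg_left r1 hη.le)
    have r3 : 2 ^ k * (3 / 4) ^ g ≤ |ψ p.2 - ψ p.1| :=
      r2.trans (mul_le_of_le_one_left (abs_nonneg _) (by linarith only [hη, hη1]))
    refine le_add_left (xb_far hb _ hB _ _ fun z => (H _ b hb h0 h2 i z _ (hh1.trans r2)).2.trans ?_)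
    rw [div_le_iff₀ (lt_of_lt_of_le (by positivity) r3), mul_assoc]
    exact mul_le_mul_of_nonneg_left (hh.trans (by nlinarith only [hη, hη1, hq, r3])) hC
  refine (lintegral_mono key).trans ?_
  have hS : MeasurableSet {p : ℝ × ℝ | |p.2 - p.1| ≤ (2 + 1 / etX ι) * (3 / 4) ^ g} :=
    measurableSet_le (by fun_prop) measurable_const
  rw [lintegral_add_right _ measurable_const, lintegral_indicator_const hS, lintegral_const,
    ← univ_prod_univ, Measure.prod_prod, mul_add (ENNReal.ofReal _)]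
  refine add_le_add ?_ ?_
  · refine (mul_le_mul_right (xb_diag _) _).trans ?_
    rw [mul_right_comm, ← ENNReal.ofReal_ofNat 2, ← ENNReal.ofReal_mul (by norm_num)]
    exact mul_le_mul_left (ENNReal.ofReal_le_ofReal (by nlinarith only [mul_nonneg hC hq.le, hC, hq])) _
  · simp only [Measure.restrict_apply_univ, Real.volume_Icc, sub_zero, ENNReal.ofReal_one, mul_one]
    refine mul_le_mul_left (ENNReal.ofReal_le_ofReal (mul_le_mul_of_nonneg_right ?_ hq.le)) _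
    exact le_add_of_nonneg_left (by positivity)

end Pool.Agent.Lib.MP_ecd4e3_gt.N
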