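import Pool.Agent.Lib.MP_ecd4e3_gt.N.XC

/-! The Carleson embedding. -/

namespace Pool.Agent.Lib.MP_ecd4e3_gt.N

open Set Filter Topology Metric MeasureTheory
open scoped NNReal ENNReal

variable {ι : Type} [Fintype ι] [DecidableEq ι] [Nonempty ι]

namespace XCar

theorem sq_tsum_le (h : ℤ → ℝ≥0∞) :
    (∑' j, h j) ^ 2 ≤ 2 * ∑' j, h j * ∑' j', if j' ≤ j then h j' else 0 := by
  have e : ∑' j, h j * ∑' j', (if j' ≤ j then h j' else 0) =
      ∑' j, ∑' j', h j * if j' ≤ j then h j' else 0 := by simp only [ENNReal.tsum_mul_left]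
  rw [sq, two_mul, ← ENNReal.tsum_mul_right, e]
  nth_rewrite 2 [ENNReal.tsum_comm]
  rw [← ENNReal.tsum_add]
  refine ENNReal.tsum_le_tsum fun j => ?_
  rw [← ENNReal.tsum_mul_left, ← ENNReal.tsum_add]
  refine ENNReal.tsum_le_tsum fun j' => ?_
  rcases le_total j' j with e | e
  · rw [if_pos e]; exact le_self_add
  · rw [if_pos e, mul_comm (h j')]; exact le_add_self

theorem meas_Em (m : ℤ) {F : E ι → ℝ≥0∞} (hF : Measurable F) : Measurable (Em m F) := by
  have h0 : Measurable fun w : Unit × E ι => F w.2 := hF.comp measurable_snd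
  simpa only [Function.comp_def] using (measurable_Em m h0).comp (measurable_prodMk_left (x := ()))

omit [Fintype ι] [DecidableEq ι] [Nonempty ι] in
theorem meas_pt (m : ℤ) (y : E ι) : Measurable fun t : E ι => flv m y + (2 : ℝ) ^ m • t :=
  by fun_prop

omit [DecidableEq ι] [Nonempty ι] in
theorem Em_tsum (m : ℤ) {F : ℤ → E ι → ℝ≥0∞} (hF : ∀ j, Measurable (F j)) (y : E ι) :
    Em m (fun x => ∑' j, F j x) y = ∑' j, Em m (F j) y :=
  lintegral_tsum fun j => ((hF j).comp (meas_pt m y)).aemeasurable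

omit [DecidableEq ι] [Nonempty ι] in
theorem Em_sum (m : ℤ) {α : Type} (s : Finset α) {F : α → E ι → ℝ≥0∞} (hF : ∀ j, Measurable (F j))
    (y : E ι) : Em m (fun x => ∑ j ∈ s, F j x) y = ∑ j ∈ s, Em m (F j) y :=
  lintegral_finsetSum _ fun j _ => (hF j).comp (meas_pt m y)

omit [DecidableEq ι] [Nonempty ι] in
theorem shift (Φ : E ι → ℝ≥0∞) (a : E ι) :
    ∫⁻ t in Icc (0 : E ι) 1, Φ (t + a) = ∫⁻ t in Icc a (1 + a), Φ t := by
  have h := (measurePreserving_add_right volume a).setLIntegral_comp_preimage_emb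
    (MeasurableEquiv.addRight a).measurableEmbedding Φ (Icc a (1 + a))
  rwa [preimage_add_const_Icc, sub_self, add_sub_cancel_right] at h

omit [Nonempty ι] in
theorem shift_le (Φ : E ι → ℝ≥0∞) {a : E ι} (ha : ∀ i, |a i| ≤ 2) :
    ∫⁻ t in Icc (0 : E ι) 1, Φ (t + a) ≤ ∑ o ∈ Fintype.piFinset fun _ : ι => Finset.Icc (-2 : ℤ) 2,
      ∫⁻ t in Icc (0 : E ι) 1, Φ (t + fun i => (o i : ℝ)) := by
  simp only [shift]
  rw [← Finset.sum_coe_sort, ← tsum_fintype (L := SummationFilter.unconditional _)]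
  refine (lintegral_mono_set fun x hx => ?_).trans (lintegral_iUnion_le _ _)
  have h1 : ∀ i, -2 ≤ x i ∧ x i ≤ 3 := fun i => by
    have h2 : a i ≤ x i := hx.1 i
    have h3 : x i ≤ 1 + a i := hx.2 i
    constructor <;> linarith [abs_le.1 (ha i)]
  refine mem_iUnion.2 ⟨⟨fun i => min ⌊x i⌋ 2, Fintype.mem_piFinset.2 fun i => Finset.mem_Icc.2
    ⟨le_min (Int.le_floor.2 (by simpa using (h1 i).1)) (by norm_num), min_le_right _ _⟩⟩,
    fun i => ?_, fun i => ?_⟩
  · exact (Int.cast_le.2 (min_le_left _ _)).trans (Int.floor_le _)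
  · change x i ≤ 1 + ((min ⌊x i⌋ 2 : ℤ) : ℝ)
    rcases min_choice ⌊x i⌋ 2 with e | e <;> rw [e]
    · linarith [Int.lt_floor_add_one (x i)]
    · push_cast; linarith [(h1 i).2]

theorem Em_shift (m : ℤ) (F : E ι → ℝ≥0∞) (o : ι → ℤ) (y : E ι) :
    Em m F (y + (2 : ℝ) ^ m • fun i => (o i : ℝ)) =
      Em m (fun x => F (x + (2 : ℝ) ^ m • fun i => (o i : ℝ))) y := by
  simp only [Em, flv_add_int, add_right_comm]

theorem Em_near {j j' : ℤ} (h : j' ≤ j) {F : E ι → ℝ≥0∞} (hF : Measurable F) {o : ι → ℤ}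
    (ho : o ∈ Fintype.piFinset fun _ : ι => Finset.Icc (-2 : ℤ) 2) (y : E ι) :
    Em j (fun x => Em j' F (x + (2 : ℝ) ^ j' • fun i => (o i : ℝ))) y ≤
      ∑ o' ∈ Fintype.piFinset fun _ : ι => Finset.Icc (-2 : ℤ) 2,
        Em j F (y + (2 : ℝ) ^ j • fun i => (o' i : ℝ)) := by
  have h1 := Em_Em h (hF.comp (measurable_add_const ((2 : ℝ) ^ j' • fun i => (o i : ℝ)))) y
  have h2 := shift_le (fun t => F (flv j y + (2 : ℝ) ^ j • t))
    (a := (2 : ℝ) ^ (j' - j) • fun i => (o i : ℝ)) fun i => by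
      have h3 : |(o i : ℝ)| ≤ 2 := by
        exact_mod_cast abs_le.2 (Finset.mem_Icc.1 (Fintype.mem_piFinset.1 ho i))
      rw [Pi.smul_apply, smul_eq_mul, abs_mul, abs_of_pos (two_pos_g _)]
      exact (mul_le_of_le_one_left (abs_nonneg _)
        (zpow_le_one_of_nonpos₀ one_le_two (sub_nonpos.2 h))).trans h3
  simp only [Em_shift]
  refine (le_of_eq h1).trans ?_
  simp only [smul_add, smul_smul, ← zpow_add₀ (two_ne_zero' ℝ), add_sub_cancel, ← add_assoc] at h2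
  exact h2

end XCar

open XCar in
/-- The Carleson embedding in the form needed. -/
theorem carleson {ζ : ℤ → E ι → ℝ≥0∞} (hζ : ∀ j, Measurable (ζ j))
    (hc : ∀ m y, Em m (fun x => ∑' j, if j ≤ m then ζ j x else 0) y ≤ 1) :
    ∫⁻ y, (∑' j, ∑ o ∈ Fintype.piFinset fun _ : ι => Finset.Icc (-2 : ℤ) 2,
        Em j (ζ j) (y + (2 : ℝ) ^ j • fun i => (o i : ℝ))) ^ 2 ≤
      2 * 125 ^ Fintype.card ι * ∑' j, ∫⁻ y, ζ j y := by
  obtain ⟨O, hO⟩ : ∃ O, O = Fintype.piFinset fun _ : ι => Finset.Icc (-2 : ℤ) 2 := ⟨_, rfl⟩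
  have cO : (O.card : ℝ≥0∞) = 5 ^ Fintype.card ι := by simp [hO]
  obtain ⟨h, hh⟩ : ∃ h : ℤ → E ι → ℝ≥0∞, h = fun j y =>
    ∑ o ∈ O, Em j (ζ j) (y + (2 : ℝ) ^ j • fun i => (o i : ℝ)) := ⟨_, rfl⟩
  have m0 : ∀ (j : ℤ) (o : ι → ℤ),
      Measurable fun y => Em j (ζ j) (y + (2 : ℝ) ^ j • fun i => (o i : ℝ)) :=
    fun j o => (meas_Em j (hζ j)).comp (measurable_add_const _)
  have m1 : ∀ j, Measurable (h j) := fun j => hh ▸ Finset.measurable_sum _ fun o _ => m0 j o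
  have m2 : ∀ (F : ℤ → E ι → ℝ≥0∞), (∀ j, Measurable (F j)) → ∀ j j' : ℤ,
      Measurable fun x => if j' ≤ j then F j' x else 0 := fun F hF j j' => by
    split_ifs
    exacts [hF j', measurable_const]
  have m3 : ∀ j, Measurable fun x => ∑' j', if j' ≤ j then h j' x else 0 :=
    fun j => Measurable.tsum (m2 h m1 j)
  have k1 : ∀ j y, Em j (fun x => ∑' j', if j' ≤ j then h j' x else 0) y ≤
      5 ^ Fintype.card ι * 5 ^ Fintype.card ι := fun j y => by
    have k2 : ∀ j', Em j (fun x => if j' ≤ j then h j' x else 0) y ≤ O.card * ∑ o' ∈ O,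
        Em j (fun x => if j' ≤ j then ζ j' x else 0) (y + (2 : ℝ) ^ j • fun i => (o' i : ℝ)) := by
      intro j'
      split_ifs with e
      · rw [hh, Em_sum j O (m0 j'), ← nsmul_eq_mul]
        exact Finset.sum_le_card_nsmul _ _ _ fun o ho => hO ▸ Em_near e (hζ j') (hO ▸ ho) y
      · rw [Em_const]; exact zero_le
    rw [Em_tsum j (m2 h m1 j)]
    refine (ENNReal.tsum_le_tsum k2).trans ?_
    rw [ENNReal.tsum_mul_left, Summable.tsum_finsetSum fun _ _ => ENNReal.summable, ← cO]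
    refine mul_le_mul_right ?_ _
    rw [← nsmul_one]
    exact Finset.sum_le_card_nsmul _ _ _ fun o _ => Em_tsum j (m2 ζ hζ j) _ ▸ hc j _
  have k3 : ∀ j, ∫⁻ y, h j y = 5 ^ Fintype.card ι * ∫⁻ y, ζ j y := fun j => by
    rw [hh, lintegral_finsetSum _ fun o _ => m0 j o]
    simp only [lintegral_add_right_eq_self, lintegral_Em j (hζ j)]
    rw [Finset.sum_const, nsmul_eq_mul, cO]
  rw [← hO]
  calc _ ≤ ∫⁻ y, 2 * ∑' j, h j y * ∑' j', if j' ≤ j then h j' y else 0 :=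
        lintegral_mono fun y => hh ▸ sq_tsum_le _
    _ = 2 * ∑' j, ∫⁻ y, h j y * ∑' j', if j' ≤ j then h j' y else 0 := by
        rw [lintegral_const_mul' _ _ ENNReal.ofNat_ne_top,
          lintegral_tsum fun j => ((m1 j).fun_mul (m3 j)).aemeasurable]
    _ ≤ _ := by
        rw [mul_assoc]
        refine mul_le_mul_right ((ENNReal.tsum_le_tsum fun j => ?_).trans
          ENNReal.tsum_mul_left.le) _
        rw [← lintegral_mul_Em j (m3 j) (m1 j) fun y y' e => by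
          rw [hh]
          exact Finset.sum_congr rfl fun o _ => Em_congr (by rw [flv_add_int, flv_add_int, e]) _]
        refine (lintegral_mono fun y => mul_le_mul_right (k1 j y) _).trans (le_of_eq ?_)
        rw [lintegral_mul_const _ (m1 j), k3, show (125 : ℝ≥0∞) = 5 * (5 * 5) by norm_num,
          mul_pow, mul_pow, mul_right_comm]

end Pool.Agent.Lib.MP_ecd4e3_gt.N
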