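import Pool.Agent.Lib.MP_ecd4e3_gt.N.XA
import Pool.Agent.Lib.MP_ecd4e3_gt.N.XC

/-! Smearing of lattice points by a random direction. -/

namespace Pool.Agent.Lib.MP_ecd4e3_gt.N

open Set Filter Topology Metric MeasureTheory
open scoped NNReal ENNReal

variable {ι : Type} [Fintype ι] [DecidableEq ι] [Nonempty ι]

set_option linter.unusedSectionVars false

theorem lin_add (v : Fm ι) (x y : E ι) : lin v (x + y) = lin v x + lin v y := by
  simp only [lin, Pi.add_apply, add_smul, Finset.sum_add_distrib]
theorem lin_smul (v : Fm ι) (c : ℝ) (x : E ι) : lin v (c • x) = c • lin v x := by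
  simp only [lin, Pi.smul_apply, smul_eq_mul, mul_smul, Finset.smul_sum]

namespace XG

/-- The map of a frame as a linear map. -/
noncomputable def linL (v : Fm ι) : E ι →ₗ[ℝ] E ι where
  toFun := lin v
  map_add' := lin_add v
  map_smul' := lin_smul v

theorem lin_dist {v : Fm ι} (hv : v ∈ Sv ι) (x y : E ι) :
    dist (lin v x) (lin v y) ≤ 5 / 4 * dist x y ∧ 3 / 4 * dist x y ≤ dist (lin v x) (lin v y) := by
  have h := lin_sub hv (x - y)
  have e : lin v (x - y) = lin v x - lin v y := map_sub (linL v) x y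
  have h1 := norm_sub_norm_le (lin v (x - y)) (x - y)
  have h2 := norm_sub_norm_le (x - y) (lin v (x - y))
  rw [norm_sub_rev (x - y)] at h2
  rw [dist_eq_norm, dist_eq_norm, ← e]
  constructor <;> linarith only [h, h1, h2]

end XG

theorem lin_bij {v : Fm ι} (hv : v ∈ Sv ι) : Function.Bijective (lin v) := by
  have h : Function.Injective (XG.linL v) := fun x y h => by
    have h1 := (XG.lin_dist hv x y).2
    have h2 : lin v x = lin v y := h
    rw [h2, dist_self] at h1
    exact dist_le_zero.1 (by linarith only [h1])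
  exact ⟨h, LinearMap.injective_iff_surjective.1 h⟩
theorem lin_dist {v : Fm ι} (hv : v ∈ Sv ι) (x y : E ι) :
    dist (lin v x) (lin v y) ≤ 5 / 4 * dist x y ∧ 3 / 4 * dist x y ≤ dist (lin v x) (lin v y) :=
  XG.lin_dist hv x y
theorem measurable_lin : Measurable fun w : Fm ι × E ι => lin w.1 w.2 := by
  unfold lin
  fun_prop
theorem lintegral_lin {v : Fm ι} (hv : v ∈ Sv ι) {F : E ι → ℝ≥0∞} (hF : Measurable F) :
    ∫⁻ x, F (lin v x) ≤ 2 ^ Fintype.card ι * ∫⁻ x, F x := by
  have hm : Measurable (lin v) := measurable_lin.comp measurable_prodMk_left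
  have ha : AntilipschitzWith 2 (lin v) := AntilipschitzWith.of_le_mul_dist fun x y => by
    have h1 := (lin_dist hv x y).2
    have h2 : 0 ≤ dist x y := dist_nonneg
    push_cast
    linarith only [h1, h2]
  have hle : Measure.map (lin v) volume ≤ (2 ^ Fintype.card ι : ℝ≥0∞) • (volume : Measure (E ι)) :=
    Measure.le_iff.2 fun s hs => by
      have h := ha.hausdorffMeasure_preimage_le (d := Fintype.card ι) (Nat.cast_nonneg _) s
      rw [hausdorffMeasure_pi_real, ENNReal.rpow_natCast] at h
      rw [Measure.map_apply hm hs, Measure.smul_apply, smul_eq_mul]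
      exact_mod_cast h
  rw [← lintegral_map hF hm]
  exact (lintegral_mono' hle le_rfl).trans (le_of_eq (lintegral_smul_measure _ _))

namespace XG

/-- The density of the smeared point, up to the normalisation. -/
noncomputable def ker (a : E ι) (c : ℝ) (z : E ι) : ℝ≥0∞ :=
  if dist z a ≤ etX ι * |c| then ENNReal.ofReal |(c ^ Fintype.card ι)⁻¹| else 0

theorem ball_int (a e : E ι) {c : ℝ} (hc : c ≠ 0) {G : E ι → ℝ≥0∞} (hG : Measurable G) :
    ∫⁻ u in closedBall e (etX ι), G (a + c • (u - e)) = ∫⁻ z, ker a c z * G z := by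
  let H : E ι → ℝ≥0∞ := (closedBall a (etX ι * |c|)).indicator G
  have hH : Measurable H := hG.indicator measurableSet_closedBall
  have h1 : (closedBall e (etX ι)).indicator (fun u => G (a + c • (u - e))) =
      fun u => H (a + c • (u - e)) := by
    funext u
    have : a + c • (u - e) ∈ closedBall a (etX ι * |c|) ↔ u ∈ closedBall e (etX ι) := by
      rw [mem_closedBall, mem_closedBall, dist_self_add_left, norm_smul, Real.norm_eq_abs,
        dist_eq_norm, mul_comm, mul_le_mul_iff_left₀ (abs_pos.2 hc)]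
    by_cases hu : u ∈ closedBall e (etX ι)
    · rw [indicator_of_mem hu]; exact (indicator_of_mem (this.2 hu) G).symm
    · rw [indicator_of_notMem hu]; exact (indicator_of_notMem (mt this.1 hu) G).symm
  have h2 : Measurable fun w : E ι => H (a + w) := hH.comp (measurable_const_add a)
  rw [← lintegral_indicator measurableSet_closedBall, h1,
    lintegral_sub_right_eq_self (fun u => H (a + c • u)) e,
    ← lintegral_map h2 (measurable_const_smul c), Measure.map_addHaar_smul _ hc,
    lintegral_smul_measure, lintegral_add_left_eq_self, Module.finrank_fintype_fun_eq_card,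
    smul_eq_mul, ← lintegral_const_mul _ hH]
  refine lintegral_congr fun z => ?_
  by_cases hz : z ∈ closedBall a (etX ι * |c|)
  · rw [ker, if_pos (mem_closedBall.1 hz)]
    exact congrArg _ (indicator_of_mem hz G)
  · rw [ker, if_neg (mt mem_closedBall.2 hz), zero_mul]
    exact mul_eq_zero_of_right _ (indicator_of_notMem hz G)

theorem lin_update (v : Fm ι) (i : ι) (u e p : E ι) :
    lin (Function.update v i u) p = lin (Function.update v i e) p + p i • (u - e) := by
  unfold lin
  rw [← Finset.add_sum_erase _ _ (Finset.mem_univ i), ← Finset.add_sum_erase _ _ (Finset.mem_univ i),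
    Function.update_self, Function.update_self, smul_sub,
    Finset.sum_congr rfl fun l hl => show p l • Function.update v i u l =
      p l • Function.update v i e l by
        rw [Function.update_of_ne (Finset.ne_of_mem_erase hl),
          Function.update_of_ne (Finset.ne_of_mem_erase hl)]]
  abel

theorem ker_int {B : Fm ι} (hB : B ∈ Sv ι) (i : ι) {p : E ι → E ι}
    (hp : ∀ x, p x i ≠ 0 ∧ dist x (p x) ≤ 3 * |p x i|) (z : E ι) :
    ∫⁻ x, ker (lin B (p x)) (p x i) z ≤ ENNReal.ofReal ((40 / 3) ^ Fintype.card ι) := by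
  obtain ⟨y, rfl⟩ := (lin_bij hB).2 z
  have h0 : 0 ≤ |y i| := abs_nonneg _
  have h1 : ∀ x, ker (lin B (p x)) (p x i) (lin B y) ≤ (closedBall y (5 * |y i|)).indicator
      (fun _ => ENNReal.ofReal ((3 / 4 * |y i|) ^ Fintype.card ι)⁻¹) x := by
    intro x
    unfold ker
    split_ifs with h
    · have h2 := (lin_dist hB y (p x)).2
      have h3 := abs_pos.2 (hp x).1
      have h4 : etX ι * |p x i| ≤ 1 / 4 * |p x i| := mul_le_mul_of_nonneg_right etX_bd.2.1 h3.le
      have h5 : |y i - p x i| ≤ dist y (p x) := dist_le_pi_dist y (p x) i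
      have h6 := abs_sub_abs_le_abs_sub (y i) (p x i)
      have h7 := abs_sub_abs_le_abs_sub (p x i) (y i)
      rw [abs_sub_comm] at h7
      have h8 := dist_triangle_right x y (p x)
      have h9 := (hp x).2
      rw [indicator_of_mem (mem_closedBall.2 (by linarith only [h, h2, h4, h5, h7, h8, h9])), abs_inv, abs_pow]
      refine ENNReal.ofReal_le_ofReal (inv_anti₀ (pow_pos (by linarith only [h, h2, h3, h4, h5, h7]) _) ?_)
      exact pow_le_pow_left₀ (by positivity) (by linarith only [h, h2, h4, h5, h6]) _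
    · exact zero_le
  refine (lintegral_mono h1).trans ?_
  rw [lintegral_indicator_const measurableSet_closedBall, Real.volume_pi_closedBall _ (by positivity),
    ← ENNReal.ofReal_mul (by positivity), ← inv_pow, ← mul_pow]
  refine ENNReal.ofReal_le_ofReal (pow_le_pow_left₀ (by positivity) ?_ _)
  rcases h0.eq_or_lt with h | h
  · rw [← h]; norm_num
  · rw [inv_mul_le_iff₀ (by positivity)]; linarith only []

theorem measurable_ker {X : Type} [MeasurableSpace X] {a z : X → E ι} {c : X → ℝ}
    (ha : Measurable a) (hc : Measurable c) (hz : Measurable z) :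
    Measurable fun w => ker (a w) (c w) (z w) := by
  have h1 : Measurable fun w => dist (z w) (a w) := hz.dist ha
  have h2 : Measurable fun w => etX ι * |c w| := hc.abs.const_mul _
  have h3 : Measurable fun w => ENNReal.ofReal |(c w ^ Fintype.card ι)⁻¹| :=
    (hc.pow_const _).inv.abs.ennreal_ofReal
  exact Measurable.ite (measurableSet_le h1 h2) h3 measurable_const

theorem fixed_aux {a : E ι → E ι} {c : E ι → ℝ} (ha : Measurable a) (hc : Measurable c)
    (hc0 : ∀ x, c x ≠ 0) (e : E ι) {K : ℝ≥0∞} (hK : ∀ z, ∫⁻ x, ker (a x) (c x) z ≤ K)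
    {G : E ι → ℝ≥0∞} (hG : Measurable G) :
    ∫⁻ u in closedBall e (etX ι), ∫⁻ x, G (a x + c x • (u - e)) ≤ K * ∫⁻ z, G z := by
  have hk := measurable_ker (a := fun w : E ι × E ι => a w.1) (c := fun w => c w.1)
    (z := fun w => w.2) (ha.comp measurable_fst) (hc.comp measurable_fst) measurable_snd
  have m0 : Measurable fun w : E ι × E ι => a w.2 + c w.2 • (w.1 - e) :=
    (ha.comp measurable_snd).add ((hc.comp measurable_snd).smul (measurable_fst.sub_const _))
  have m1 : Measurable (Function.uncurry fun u x : E ι => G (a x + c x • (u - e))) := hG.comp m0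
  have m2 : Measurable (Function.uncurry fun x z : E ι => ker (a x) (c x) z * G z) :=
    hk.mul (hG.comp measurable_snd)
  have m3 : ∀ z, ∫⁻ x, ker (a x) (c x) z * G z ≤ K * G z := fun z => by
    rw [lintegral_mul_const _ (measurable_ker (z := fun _ => z) ha hc measurable_const)]
    exact mul_le_mul_left (hK z) _
  rw [lintegral_lintegral_swap m1.aemeasurable,
    lintegral_congr fun x => ball_int (a x) e (hc0 x) hG,
    lintegral_lintegral_swap m2.aemeasurable, ← lintegral_const_mul _ hG]
  exact lintegral_mono m3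

theorem fixed {v : Fm ι} (hv : v ∈ Sv ι) (i : ι) {p : E ι → E ι} (hm : Measurable p)
    (hp : ∀ x, p x i ≠ 0 ∧ dist x (p x) ≤ 3 * |p x i|) {G : E ι → ℝ≥0∞} (hG : Measurable G) :
    ∫⁻ u, (∫⁻ x, G (lin (Function.update v i u) (p x))) ∂pv i ≤
      (ENNReal.ofReal ((2 * etX ι) ^ Fintype.card ι))⁻¹ *
        ENNReal.ofReal ((40 / 3) ^ Fintype.card ι) * ∫⁻ z, G z := by
  have hB : Function.update v i (Pi.single i 1) ∈ Sv ι :=
    Sv_update hv (mem_closedBall_self etX_bd.1.le)
  have ha : Measurable fun x => lin (Function.update v i (Pi.single i 1)) (p x) :=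
    (measurable_lin.comp measurable_prodMk_left).comp hm
  have hc : Measurable fun x => p x i := (measurable_pi_apply i).comp hm
  have h := fixed_aux (a := fun x => lin (Function.update v i (Pi.single i 1)) (p x))
    (c := fun x => p x i) ha hc (fun x => (hp x).1) (Pi.single i 1) (ker_int hB i hp) hG
  simp only [← lin_update] at h
  rw [pv, lintegral_smul_measure, Real.volume_pi_closedBall _ etX_bd.1.le, smul_eq_mul, mul_assoc]
  exact mul_le_mul_right h _

/-- The lattice point attached to a point. -/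
noncomputable def pt (i : ι) (j : ℤ) (b : Bool) (x : E ι) : E ι :=
  flv j x + if b = true then Pi.single i ((2 : ℝ) ^ j) else 0

theorem pt_bd (i : ι) (j : ℤ) (b : Bool) (x : E ι) :
    pt i j b x i ≠ 0 ∧ dist x (pt i j b x) ≤ 3 * |pt i j b x i| := by
  have h0 := two_pos_g j
  have h1 : Lat j (pt i j b x i) := by
    cases b
    · simpa [pt, flv] using lat_fl j (x i)
    · simpa [pt, flv] using (lat_fl j (x i)).add
  have h2 := h1.abs_ge
  refine ⟨abs_pos.1 (by linarith only [h0, h2]), le_trans ((dist_pi_le_iff h0.le).2 fun l => ?_) (by linarith only [h2])⟩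
  have h3 := fl_le j (x l)
  have h4 := lt_fl j (x l)
  rw [Real.dist_eq, abs_le]
  cases b
  · simp only [pt, Bool.false_eq_true, if_false, add_zero, flv]
    constructor <;> linarith only [h0, h3, h4]
  · simp only [pt, if_true, Pi.add_apply, flv, Pi.single_apply]
    split_ifs <;> constructor <;> linarith only [h3, h0, h4]

end XG

theorem smear : ∃ C : ℝ≥0, ∀ (i : ι) (j : ℤ) (b : Bool) (ζ : Fm ι × E ι → ℝ≥0∞), Measurable ζ →
    Ind i ζ → ∫⁻ w, ζ (w.1, lin w.1 (flv j w.2 +
      if b = true then Pi.single i ((2 : ℝ) ^ j) else 0)) ∂PZ ι ≤ C * ∫⁻ w, ζ w ∂PZ ι := by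
  have hC : (ENNReal.ofReal ((2 * etX ι) ^ Fintype.card ι))⁻¹ *
      ENNReal.ofReal ((40 / 3) ^ Fintype.card ι) ≠ ⊤ :=
    ENNReal.mul_ne_top (ENNReal.inv_ne_top.2 (ENNReal.ofReal_pos.2
      (pow_pos (mul_pos two_pos etX_bd.1) _)).ne') ENNReal.ofReal_ne_top
  refine ⟨ENNReal.toNNReal ((ENNReal.ofReal ((2 * etX ι) ^ Fintype.card ι))⁻¹ *
    ENNReal.ofReal ((40 / 3) ^ Fintype.card ι)), fun i j b ζ hζ hi => ?_⟩
  rw [ENNReal.coe_toNNReal hC]
  have hm : Measurable fun x : E ι =>
      flv j x + if b = true then Pi.single i ((2 : ℝ) ^ j) else 0 := (measurable_flv j).add_const _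
  have h1 : Measurable fun w : Fm ι × E ι => (w.1, flv j w.2 +
      if b = true then Pi.single i ((2 : ℝ) ^ j) else 0) :=
    measurable_fst.prodMk (hm.comp measurable_snd)
  have h2 : Measurable fun w : Fm ι × E ι => (w.1, lin w.1 (flv j w.2 +
      if b = true then Pi.single i ((2 : ℝ) ^ j) else 0)) :=
    measurable_fst.prodMk (Measurable.comp measurable_lin h1 :)
  have hF : Measurable fun w : Fm ι × E ι => ζ (w.1, lin w.1 (flv j w.2 +
      if b = true then Pi.single i ((2 : ℝ) ^ j) else 0)) := (Measurable.comp hζ h2 :)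
  rw [lintegral_PZ hF, lintegral_PZ hζ, lintegral_PV_update i hF.lintegral_prod_right',
    ← lintegral_const_mul' _ _ hC]
  refine lintegral_mono_ae (PV_ae.mono fun v hv => ?_)
  simp only [hi v]
  exact XG.fixed hv i hm (XG.pt_bd i j b) (G := fun z => ζ (v, z)) (hζ.comp measurable_prodMk_left)

theorem exists_floor {μ : ℝ≥0∞} (hμ : 0 < μ) : ∃ g : E ι → ℝ≥0∞, Measurable g ∧
    (∀ x, 0 < g x ∧ g x ≤ 1) ∧ ∫⁻ x, g x ≤ μ := by
  obtain ⟨g, h0, hm, hg⟩ := exists_pos_lintegral_lt_of_sigmaFinite (volume : Measure (E ι)) hμ.ne'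
  refine ⟨fun x => min 1 (g x), measurable_const.min hm.coe_nnreal_ennreal,
    fun x => ⟨lt_min one_pos (ENNReal.coe_pos.2 (h0 x)), min_le_left _ _⟩, ?_⟩
  exact (lintegral_mono fun x => min_le_right _ _).trans hg.le

end Pool.Agent.Lib.MP_ecd4e3_gt.N
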