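import Pool.Agent.Lib.MP_ecd4e3_gt.N.XT2

/-! The induction on the dimension of the face. -/

namespace Pool.Agent.Lib.MP_ecd4e3_gt.N

open Set Filter Topology Metric MeasureTheory
open scoped NNReal ENNReal

variable {ι : Type} [Fintype ι] [DecidableEq ι] [Nonempty ι] {γ : ℝ}

theorem xi_sq_le {a : ℝ≥0∞} (h : a ≤ 1) : a ^ 2 ≤ a := by
  rw [sq]
  exact mul_le_of_le_one_left' h

theorem xi_meas_fp (S : Finset ι) {ψ : ι → ℝ → ℝ} (hψ : ∀ l, Measurable (ψ l)) (v : Fm ι)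
    (z : E ι) : Measurable fun t : E ι => ((v, fp S v ψ z t) : Fm ι × E ι) :=
  measurable_const.prodMk
    ((measurable_fp S hψ).comp (f := fun t : E ι => ((v, z), t)) measurable_prodMk_left)

theorem xi_meas_fpt (S : Finset ι) (k : ℤ) (v : Fm ι) (z : E ι) :
    Measurable fun t : E ι => ((v, fpt S v k z t) : Fm ι × E ι) :=
  xi_meas_fp S (fun _ => measurable_id.const_mul _) v z

theorem xi_meas_anc (S : Finset ι) (k j : ℤ) (i : ι) (b : Bool) (v : Fm ι) (z : E ι) :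
    Measurable fun t : E ι => ((v, anc S v k j i b z t) : Fm ι × E ι) :=
  xi_meas_fp S (fun _ => (measurable_sn k j).add_const _) v z

/-- The pointwise bound of the inductive step. -/
theorem xi_step (hγ : 1 < γ) {n : ℕ} {S : Finset ι} {f : E ι → ℝ≥0∞} (hf : Measurable f)
    (hf1 : ∀ x, f x ≤ 1) {M : ℝ≥0∞} {ζ : ι → ℤ → Fm ι × E ι → ℝ≥0∞}
    {Θ : ι → Fm ι × E ι → ℝ≥0∞}
    (hD : ∀ i ∈ S, Dom (fun k w => rb f γ w.1 n (S.erase i) k w.2 ^ γ) M (ζ i) (Θ i)) (k : ℤ)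
    {v : Fm ι} (hv : v ∈ Sv ι) (z : E ι) :
    rb f γ v (n + 1) S k z ≤ (∫⁻ t in Icc (0 : E ι) 1, f (fpt S v k z t)) +
      ∑ x ∈ S ×ˢ (Finset.univ : Finset Bool),
        ((∫⁻ t in Icc (0 : E ι) 1, Θ x.1 (v, fpt S v k z t)) +
          ∫⁻ t in Icc (0 : E ι) 1,
            min 1 (∑' g : ℕ, ζ x.1 (k - g) (v, anc S v k (k - g) x.1 x.2 z t))) := by
  have m0 : Measurable fun t : E ι => f (fpt S v k z t) :=
    hf.comp (measurable_snd.comp (xi_meas_fpt S k v z))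
  have m1 : ∀ x ∈ S ×ˢ (Finset.univ : Finset Bool),
      Measurable fun t : E ι => Θ x.1 (v, fpt S v k z t) := fun x hx =>
    (hD x.1 (Finset.mem_product.1 hx).1).mΘ.comp (xi_meas_fpt S k v z)
  have m2 : ∀ x ∈ S ×ˢ (Finset.univ : Finset Bool), Measurable fun t : E ι =>
      min 1 (∑' g : ℕ, ζ x.1 (k - g) (v, anc S v k (k - g) x.1 x.2 z t)) := fun x hx =>
    measurable_const.min (Measurable.tsum fun g =>
      ((hD x.1 (Finset.mem_product.1 hx).1).mζ _).comp (xi_meas_anc S k _ x.1 x.2 v z))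
  rw [Finset.sum_congr rfl fun x hx => (lintegral_add_left (m1 x hx) _).symm,
    ← lintegral_finsetSum _ fun x hx => (m1 x hx).fun_add (m2 x hx), ← lintegral_add_left m0, rb]
  refine lintegral_mono fun t => max_le le_self_add (le_add_left ?_)
  refine iSup_le fun j => iSup_le fun hj => iSup_le fun i => iSup_le fun hi => iSup_le fun b => ?_
  refine le_trans ?_ (Finset.single_le_sum (f := fun x : ι × Bool => Θ x.1 (v, fpt S v k z t) +
    min 1 (∑' g : ℕ, ζ x.1 (k - g) (v, anc S v k (k - g) x.1 x.2 z t))) (fun _ _ => zero_le)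
    (Finset.mem_product.2 ⟨hi, Finset.mem_univ b⟩ : (i, b) ∈ S ×ˢ Finset.univ))
  obtain ⟨g, rfl⟩ : ∃ g : ℕ, j = k - g := ⟨(k - j).toNat, by omega⟩
  have h1 : rb f γ v n (S.erase i) (k - g) (anc S v k (k - g) i b z t) ^ γ ≤ 1 :=
    ENNReal.rpow_le_one (rb_le_one (by linarith) hf1 _ _ _ _ _) (by linarith)
  have h2 := (hD i hi).dom (k - g) v hv _ _ (anc_dist hv S k (k - g) i b z t)
  rcases le_total 1 (∑' g : ℕ, ζ i (k - g) (v, anc S v k (k - g) i b z t)) with e | e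
  · simp only [min_eq_left e]
    exact h1.trans le_add_self
  · simp only [min_eq_right e]
    rw [add_comm]
    exact h2.trans (add_le_add_left (ENNReal.le_tsum
      (f := fun g : ℕ => ζ i (k - g) (v, anc S v k (k - g) i b z t)) g) _)

theorem rb_dom (hγ : 1 < γ) (n : ℕ) : ∃ C : ℝ≥0, ∀ (S : Finset ι), S.card = n →
    ∀ f : E ι → ℝ≥0∞, Measurable f → (∀ x, f x ≤ 1) →
      ∃ ζ Θ, Dom (fun k w => rb f γ w.1 n S k w.2 ^ γ) (C * ∫⁻ x, f x) ζ Θ := by
  induction n with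
  | zero =>
    refine ⟨0, fun S _ f _ _ => ⟨fun _ _ => 0, fun _ => 0, fun _ => measurable_const,
      measurable_const, fun _ _ => zero_le, fun _ => zero_le, by simp, by simp,
      fun k v _ z x _ => ?_⟩⟩
    simp only [rb]
    rw [ENNReal.zero_rpow_of_pos (by linarith)]
    exact zero_le
  | succ n ih =>
    obtain ⟨C, hC⟩ := ih
    obtain ⟨C1, h1⟩ := wt_plain (ι := ι)
    obtain ⟨C2, h2⟩ := wt_anc (ι := ι)
    obtain ⟨C3, h3⟩ := WT.dom (ι := ι) hγ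
    refine ⟨C3 * (4 * (C1 + 8 ^ ((n + 1) * 2) * (4 * (C1 * C + C2 * C)))),
      fun S hS f hf hf1 => ?_⟩
    have hD : ∀ i ∈ S, ∃ ζ Θ, Dom (fun k w => rb f γ w.1 n (S.erase i) k w.2 ^ γ)
        (C * ∫⁻ x, f x) ζ Θ ∧ (∀ k, Ind i (ζ k)) ∧ Ind i Θ := fun i hi => by
      obtain ⟨ζ, Θ, h⟩ := hC (S.erase i) (by rw [Finset.card_erase_of_mem hi, hS]; rfl) f hf hf1
      exact h.ind fun k v u y =>
        congrArg (· ^ γ) (rb_ind (f := f) (γ := γ) n (Finset.notMem_erase i S) k v u y)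
    choose! ζ Θ hD using hD
    obtain ⟨i0, hi0⟩ : S.Nonempty := Finset.card_pos.1 (by omega)
    have e0 : ∫⁻ w, f w.2 ∂PZ ι = ∫⁻ x, f x := by
      rw [lintegral_PZ (F := fun w => f w.2) (hf.comp measurable_snd)]
      simp
    have w0 := h1 S i0 hi0 (fun w => f w.2) _ (hf.comp measurable_snd) (fun _ _ _ => rfl) e0.le
      ((lintegral_mono fun w => xi_sq_le (hf1 _)).trans e0.le)
    have w1 := WT.sum (S ×ˢ (Finset.univ : Finset Bool)) fun x hx =>
      have hx1 := (Finset.mem_product.1 hx).1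
      (h1 S x.1 hx1 (Θ x.1) _ (hD x.1 hx1).1.mΘ (hD x.1 hx1).2.2 (hD x.1 hx1).1.sΘ
        ((lintegral_mono fun w => xi_sq_le ((hD x.1 hx1).1.lΘ w)).trans (hD x.1 hx1).1.sΘ)).add
        (h2 S x.1 hx1 x.2 (ζ x.1) _ (hD x.1 hx1).1.mζ (hD x.1 hx1).2.1 (hD x.1 hx1).1.lζ
          (hD x.1 hx1).1.sζ)
    have w2 := (w0.add w1).mono (a' := fun k w => rb f γ w.1 (n + 1) S k w.2)
      (fun k v hv z => xi_step hγ hf hf1 (fun i hi => (hD i hi).1) k hv z) le_rfl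
    obtain ⟨ζ', Θ', h⟩ := h3 _ _ w2 fun k w => rb_le_one (by linarith) hf1 _ _ _ _ _
    refine ⟨ζ', Θ', ?_⟩
    convert h using 1
    rw [Finset.card_product, hS, Finset.card_univ, Fintype.card_bool]
    push_cast
    ring

end Pool.Agent.Lib.MP_ecd4e3_gt.N
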