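import Pool.Agent.Lib.MP_ecd4e3_gt.N.XA

/-! The calculus of weak type bounds. -/

namespace Pool.Agent.Lib.MP_ecd4e3_gt.N

open Set Filter Topology Metric MeasureTheory
open scoped NNReal ENNReal

theorem xw_half (n : ℕ) : ((2 : ℝ≥0∞) ^ (n + 1))⁻¹ + (2 ^ (n + 1))⁻¹ = (2 ^ n)⁻¹ := by
  rw [ENNReal.inv_pow, ENNReal.inv_pow, pow_succ, ← mul_add, ENNReal.inv_two_add_inv_two, mul_one]

theorem xw_dyadic {a : ℝ≥0∞} (h0 : a ≠ 0) (h1 : a ≤ 1) :
    ∃ n : ℕ, (2 ^ (n + 1))⁻¹ < a ∧ a ≤ (2 ^ n)⁻¹ := by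
  obtain ⟨m, hm⟩ := ENNReal.exists_inv_two_pow_lt h0
  rw [← ENNReal.inv_pow] at hm
  induction m with
  | zero => exact absurd hm (by simpa using h1)
  | succ m ih =>
    rcases lt_or_ge (2 ^ m)⁻¹ a with h | h
    exacts [ih h, ⟨m, hm, h⟩]

theorem xw_sum {s : ℝ≥0} (hs : 2 * s < 1) :
    ∃ C : ℝ≥0, ∑' n : ℕ, (s : ℝ≥0∞) ^ n * (((n + 1 : ℕ) + 1) * 2 ^ (n + 1)) = C := by
  have h0 : ‖(2 * s : ℝ)‖ < 1 := by
    rw [Real.norm_of_nonneg (by positivity)]
    exact_mod_cast hs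
  have h1 : Summable fun n : ℕ => s ^ n * (((n + 1 : ℕ) + 1) * 2 ^ (n + 1)) := by
    rw [← NNReal.summable_coe]
    refine (((summable_pow_mul_geometric_of_norm_lt_one 1 h0).mul_left 2).add
      ((summable_geometric_of_norm_lt_one h0).mul_left 4)).congr fun n => ?_
    push_cast
    ring
  refine ⟨_, Eq.trans ?_ (ENNReal.coe_tsum h1).symm⟩
  simp

theorem xw_int {α : Type} [MeasurableSpace α] (μ : Measure α) {A : ℕ → Set α}
    (hA : ∀ n, MeasurableSet (A n)) (c : ℕ → ℝ≥0∞) :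
    (Measurable fun w => min 1 (∑' n, (A n).indicator (fun _ => c n) w)) ∧
      ∫⁻ w, min 1 (∑' n, (A n).indicator (fun _ => c n) w) ∂μ ≤ ∑' n, c n * μ (A n) := by
  have h : ∀ n, Measurable ((A n).indicator fun _ => c n) := fun n =>
    measurable_const.indicator (hA n)
  refine ⟨measurable_const.min (Measurable.tsum h), (lintegral_mono fun w => min_le_right _ _).trans
    (le_of_eq ?_)⟩
  rw [lintegral_tsum fun n => (h n).aemeasurable]
  exact tsum_congr fun n => lintegral_indicator_const (hA n) _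

theorem xw_le {α : Type} {A : ℕ → Set α} {c : ℕ → ℝ≥0∞} {n : ℕ} {w : α} (h : w ∈ A n)
    (hc : c n ≤ 1) : c n ≤ min 1 (∑' n, (A n).indicator (fun _ => c n) w) :=
  le_min hc (le_trans (by rw [indicator_of_mem h]) (ENNReal.le_tsum n))

variable {ι : Type} [Fintype ι] [DecidableEq ι] [Nonempty ι]

theorem WT.mono {a a' : ℤ → Fm ι × E ι → ℝ≥0∞} {M M' : ℝ≥0∞} (h : WT a M)
    (ha : ∀ k, ∀ v ∈ Sv ι, ∀ z, a' k (v, z) ≤ a k (v, z)) (hM : M ≤ M') : WT a' M' := by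
  obtain ⟨Th, Bad, h1, h2, h3, h4, h5⟩ := h
  exact ⟨Th, Bad, h1, h2, fun n => (h3 n).trans (by gcongr), fun n => (h4 n).trans (by gcongr),
    fun n k v hv z x hd hlt => h5 n k v hv z x hd (hlt.trans_le (ha k v hv z))⟩
theorem WT.add {a a' : ℤ → Fm ι × E ι → ℝ≥0∞} {M M' : ℝ≥0∞} (h : WT a M) (h' : WT a' M') :
    WT (fun k w => a k w + a' k w) (4 * (M + M')) := by
  obtain ⟨Th, Bad, h1, h2, h3, h4, h5⟩ := h
  obtain ⟨Th', Bad', g1, g2, g3, g4, g5⟩ := h'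
  refine ⟨fun n k => Th (n + 1) k ∪ Th' (n + 1) k, fun n => Bad (n + 1) ∪ Bad' (n + 1),
    fun n k => (h1 _ _).union (g1 _ _), fun n => (h2 _).union (g2 _), fun n => ?_, fun n => ?_,
    fun n k v hv z x hd hlt => ?_⟩
  · calc _ ≤ M * 2 ^ (n + 1) + M' * 2 ^ (n + 1) :=
          (measure_union_le _ _).trans (add_le_add (h3 _) (g3 _))
      _ = 2 * (M + M') * 2 ^ n := by ring
      _ ≤ _ := by gcongr; norm_num
  · calc _ ≤ ∑' k, (PZ ι (Th (n + 1) k) + PZ ι (Th' (n + 1) k)) :=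
          ENNReal.tsum_le_tsum fun k => measure_union_le _ _
      _ ≤ M * ((n + 1 : ℕ) + 1) * 2 ^ (n + 1) + M' * ((n + 1 : ℕ) + 1) * 2 ^ (n + 1) := by
          rw [ENNReal.tsum_add]
          exact add_le_add (h4 _) (g4 _)
      _ ≤ M * ((n + 1 : ℕ) + 1 + n) * 2 ^ (n + 1) + M' * ((n + 1 : ℕ) + 1 + n) * 2 ^ (n + 1) := by
          gcongr M * ?_ * _ + M' * ?_ * _ <;> exact le_self_add
      _ = _ := by push_cast; ring
  · rcases lt_or_ge (2 ^ (n + 1))⁻¹ (a k (v, z)) with e | e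
    · exact (h5 _ k v hv z x hd e).imp .inl .inl
    rcases lt_or_ge (2 ^ (n + 1))⁻¹ (a' k (v, z)) with e' | e'
    · exact (g5 _ k v hv z x hd e').imp .inr .inr
    exact absurd hlt (not_lt.2 ((add_le_add e e').trans_eq (xw_half n)))
theorem WT.sum {I : Type} (s : Finset I) {a : I → ℤ → Fm ι × E ι → ℝ≥0∞} {M : ℝ≥0∞}
    (h : ∀ i ∈ s, WT (a i) M) : WT (fun k w => ∑ i ∈ s, a i k w) (8 ^ s.card * M) := by
  classical
  induction s using Finset.induction_on with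
  | empty =>
    exact ⟨fun _ _ => ∅, fun _ => ∅, by simp, by simp, by simp, by simp, by simp⟩
  | insert i s hi ih =>
    refine ((h i (by simp)).add (ih fun j hj => h j (by simp [hj]))).mono
      (fun k v _ z => (Finset.sum_insert hi).le) ?_
    have : M ≤ 8 ^ s.card * M := le_mul_of_one_le_left' (one_le_pow₀ (by norm_num))
    calc _ ≤ 4 * (8 ^ s.card * M + 8 ^ s.card * M) := by gcongr
      _ = _ := by rw [Finset.card_insert_of_notMem hi]; ring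
/-- A family without thick exceptional set. -/
theorem WT.of_meas {a : ℤ → Fm ι × E ι → ℝ≥0∞} (ha : ∀ k, Measurable (a k)) {M : ℝ≥0∞}
    (h : ∀ n : ℕ, ∑' k, PZ ι {w | (2 ^ n)⁻¹ < a k w} ≤ M * (n + 1) * 2 ^ n) : WT a M :=
  ⟨fun n k => {w | (2 ^ n)⁻¹ < a k w}, fun _ => ∅,
    fun _ k => measurableSet_lt measurable_const (ha k), by simp, by simp, h,
    fun _ _ _ _ _ _ _ hlt => .inl hlt⟩
theorem WT.dom {γ : ℝ} (hγ : 1 < γ) : ∃ C : ℝ≥0, ∀ (a : ℤ → Fm ι × E ι → ℝ≥0∞) (M : ℝ≥0∞),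
    WT a M → (∀ k w, a k w ≤ 1) → ∃ ζ Θ, Dom (fun k w => a k w ^ γ) (C * M) ζ Θ := by
  have hs : 2 * (2⁻¹ : ℝ≥0) ^ γ < 1 := by
    have := NNReal.rpow_lt_rpow_of_exponent_gt (x := 2⁻¹) (by norm_num) (by norm_num) hγ
    rw [NNReal.rpow_one] at this
    exact (mul_lt_mul_of_pos_left this two_pos).trans_eq (by norm_num)
  obtain ⟨C, hC⟩ := xw_sum hs
  obtain ⟨s, e⟩ : ∃ s : ℝ≥0∞, s = ((2⁻¹ : ℝ≥0) ^ γ : ℝ≥0) := ⟨_, rfl⟩
  rw [← e] at hC
  have e' : ∀ n : ℕ, ((2 : ℝ≥0∞) ^ n)⁻¹ ^ γ = s ^ n := fun n => by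
    rw [e, ENNReal.coe_rpow_of_nonneg _ (by linarith), ENNReal.inv_pow, ← ENNReal.rpow_natCast,
      ← ENNReal.rpow_natCast, ← ENNReal.rpow_mul, ← ENNReal.rpow_mul, mul_comm]
    simp
  have s1 : ∀ n : ℕ, s ^ n ≤ 1 := fun n => by
    rw [← e']
    exact ENNReal.rpow_le_one (ENNReal.inv_le_one.2 (one_le_pow₀ one_le_two)) (by linarith)
  refine ⟨C, fun a M ⟨Th, Bad, h1, h2, h3, h4, h5⟩ ha => ⟨
    fun k w => min 1 (∑' n, (Th (n + 1) k).indicator (fun _ => s ^ n) w),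
    fun w => min 1 (∑' n, (Bad (n + 1)).indicator (fun _ => s ^ n) w),
    fun k => (xw_int (PZ ι) (fun n => h1 _ k) _).1, (xw_int (PZ ι) (fun n => h2 _) _).1,
    fun _ _ => min_le_left _ _, fun _ => min_le_left _ _, ?_, ?_, fun k v hv z x hd => ?_⟩⟩
  · refine (ENNReal.tsum_le_tsum fun k => (xw_int (PZ ι) (fun n => h1 _ k) _).2).trans ?_
    rw [ENNReal.tsum_comm, ← hC, ← ENNReal.tsum_mul_right]
    refine ENNReal.tsum_le_tsum fun n => ?_
    rw [ENNReal.tsum_mul_left]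
    exact (mul_le_mul_right (h4 (n + 1)) _).trans_eq (by ring)
  · refine (xw_int (PZ ι) (fun n => h2 _) _).2.trans ?_
    rw [← hC, ← ENNReal.tsum_mul_right]
    refine ENNReal.tsum_le_tsum fun n => (mul_le_mul_right (h3 (n + 1)) _).trans ?_
    calc _ = s ^ n * (1 * 2 ^ (n + 1)) * M := by ring
      _ ≤ _ := by gcongr; exact le_add_self
  · by_cases h0 : a k (v, z) = 0
    · simp only [h0, ENNReal.zero_rpow_of_pos (by linarith : 0 < γ), zero_le]
    obtain ⟨n, n1, n2⟩ := xw_dyadic h0 (ha k _)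
    refine ((ENNReal.rpow_le_rpow n2 (by linarith)).trans_eq (e' n)).trans ?_
    rcases h5 _ k v hv z x hd n1 with h | h
    · exact (xw_le (A := fun n => Th (n + 1) k) (c := fun n => s ^ n) h (s1 n)).trans le_self_add
    · exact (xw_le (A := fun n => Bad (n + 1)) (c := fun n => s ^ n) h (s1 n)).trans le_add_self

omit [Fintype ι] [Nonempty ι] in
theorem xw_upd (i : ι) {F : Fm ι × E ι → ℝ≥0∞} (hF : Measurable F) :
    Measurable fun p : (Fm ι × E ι) × E ι => F (Function.update p.1.1 i p.2, p.1.2) :=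
  hF.comp ((measurable_update'.comp (measurable_fst.fst.prodMk measurable_snd)).prodMk
    measurable_fst.snd)

theorem xw_avg (i : ι) {F : Fm ι × E ι → ℝ≥0∞} (hF : Measurable F) :
    ∫⁻ w, ∫⁻ u, F (Function.update w.1 i u, w.2) ∂pv i ∂PZ ι = ∫⁻ w, F w ∂PZ ι := by
  rw [lintegral_PZ (xw_upd i hF).lintegral_prod_right', lintegral_PZ hF,
    lintegral_PV_update i hF.lintegral_prod_right']
  refine lintegral_congr fun v => lintegral_lintegral_swap ?_
  exact ((xw_upd i hF).comp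
    ((measurable_const.prodMk measurable_fst).prodMk measurable_snd)).aemeasurable

/-- Averaging over a direction on which the family does not depend. -/
theorem Dom.ind {a : ℤ → Fm ι × E ι → ℝ≥0∞} {M : ℝ≥0∞} {ζ : ℤ → Fm ι × E ι → ℝ≥0∞}
    {Θ : Fm ι × E ι → ℝ≥0∞} (h : Dom a M ζ Θ) {i : ι} (hi : ∀ k, Ind i (a k)) :
    ∃ ζ' Θ', Dom a M ζ' Θ' ∧ (∀ k, Ind i (ζ' k)) ∧ Ind i Θ' := by
  refine ⟨fun k w => ∫⁻ u, ζ k (Function.update w.1 i u, w.2) ∂pv i,
    fun w => ∫⁻ u, Θ (Function.update w.1 i u, w.2) ∂pv i,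
    ⟨fun k => (xw_upd i (h.mζ k)).lintegral_prod_right', (xw_upd i h.mΘ).lintegral_prod_right',
      fun k w => (lintegral_mono fun u => h.lζ k _).trans (by simp),
      fun w => (lintegral_mono fun u => h.lΘ _).trans (by simp), ?_, ?_,
      fun k v hv z x hd => ?_⟩, fun k v u y => ?_, fun v u y => ?_⟩
  · simp only [xw_avg i (h.mζ _)]
    exact h.sζ
  · rw [xw_avg i h.mΘ]
    exact h.sΘ
  · refine le_of_le_of_eq ?_
      (lintegral_add_left ((xw_upd i (h.mζ k)).comp measurable_prodMk_left) _)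
    calc _ = ∫⁻ _, a k (v, z) ∂pv i := by simp
      _ ≤ _ := lintegral_mono_ae ((pv_ae i).mono fun u hu =>
        (hi k v u z).ge.trans (h.dom k _ (Sv_update hv hu) z x hd))
  · simp only [Function.update_idem]
  · simp only [Function.update_idem]

end Pool.Agent.Lib.MP_ecd4e3_gt.N
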